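import Pool.Agent.MP_357fb4_an.Basic
import Pool.Agent.GT.Basic

/-!
The fundamental lemma of the sieve, abstract form.
-/

open scoped BigOperators Classical ComplexConjugate Polynomial
open Finset Filter MeasureTheory Topology

noncomputable section

namespace Pool.Agent.MP_357fb4_an

section FL

variable {P : Type}

/-- A symmetric multilinear form on the block B. -/
def flS (B : Finset P) (c : ℕ → ℝ) (t : P → ℝ) : ℝ := ∑ T ∈ B.powerset, c T.card * ∏ p ∈ T, t p

/-- Coefficients of truncated inclusion-exclusion. -/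
def flY (n k : ℕ) : ℝ := if k ≤ n then (-1) ^ k else 0

/-- Coefficients of an elementary symmetric function. -/
def flE (n k : ℕ) : ℝ := if k = n then 1 else 0

lemma fl_insert {B : Finset P} {a : P} (ha : a ∉ B) (c : ℕ → ℝ) (t : P → ℝ) :
    flS (insert a B) c t = flS B c t + t a * flS B (fun k => c (k + 1)) t := by
  rw [flS, sum_powerset_insert ha, flS, flS, mul_sum]
  congr 1
  refine sum_congr rfl fun T hT => ?_
  have : a ∉ T := fun h => ha (mem_powerset.1 hT h)
  rw [card_insert_of_notMem this, prod_insert this]; ring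

lemma fl_neg (B : Finset P) (c : ℕ → ℝ) (t : P → ℝ) : flS B (fun k => -c k) t = -flS B c t := by
  simp [flS]

lemma fl_sub (B : Finset P) (c d : ℕ → ℝ) (t : P → ℝ) :
    flS B (fun k => c k - d k) t = flS B c t - flS B d t := by
  simp [flS, sub_mul]

lemma fl_zero (B : Finset P) (t : P → ℝ) : flS B (flY 0) t = 1 := by
  rw [flS, sum_eq_single ∅]
  · simp [flY]
  · intro T _ hT
    have : ¬ T.card ≤ 0 := by simpa using hT
    rw [flY, if_neg this, zero_mul]
  · simp

/-- The Bonferroni inequalities. -/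
lemma fl_bonf {t : P → ℝ} (ht : ∀ p, 0 ≤ t p ∧ t p ≤ 1) (B : Finset P) :
    ∀ n : ℕ, 0 ≤ (-1) ^ n * (flS B (flY n) t - ∏ p ∈ B, (1 - t p)) := by
  have h0 : ∀ B : Finset P, 0 ≤ (-1) ^ 0 * (flS B (flY 0) t - ∏ p ∈ B, (1 - t p)) := fun B => by
    rw [fl_zero, pow_zero, one_mul, sub_nonneg]
    exact prod_le_one (fun p _ => sub_nonneg.2 (ht p).2) fun p _ => by linarith [(ht p).1]
  induction B using Finset.induction_on with
  | empty => intro n; simp [flS, flY]
  | insert a B ha ih =>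
    intro n
    cases n with
    | zero => exact h0 _
    | succ n =>
      have e : (fun k => flY (n + 1) (k + 1)) = fun k => -flY n k := by
        funext k
        simp only [flY, add_le_add_iff_right, pow_succ]
        split_ifs <;> simp
      rw [fl_insert ha, e, fl_neg, prod_insert ha]
      have h1 := ih (n + 1)
      have h2 := mul_nonneg (ht a).1 (ih n)
      rw [pow_succ] at h1 ⊢
      nlinarith

lemma fl_lower {t : P → ℝ} (ht : ∀ p, 0 ≤ t p ∧ t p ≤ 1) (B : Finset P) (n : ℕ) :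
    ∏ p ∈ B, (1 - t p) ≤ flS B (flY (2 * n)) t := by
  have := fl_bonf ht B (2 * n)
  rwa [pow_mul, neg_one_sq, one_pow, one_mul, sub_nonneg] at this

lemma fl_upper {t : P → ℝ} (ht : ∀ p, 0 ≤ t p ∧ t p ≤ 1) (B : Finset P) (n : ℕ) :
    flS B (flY (2 * n)) t ≤ ∏ p ∈ B, (1 - t p) + flS B (flE (2 * n + 1)) t := by
  have := fl_bonf ht B (2 * n + 1)
  have e : flY (2 * n + 1) = fun k => flY (2 * n) k - flE (2 * n + 1) k := by
    funext k
    simp only [flY, flE]
    by_cases h : k = 2 * n + 1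
    · subst h; simp [pow_succ, pow_mul]
    · by_cases h' : k ≤ 2 * n
      · rw [if_pos h', if_pos (by omega), if_neg h, sub_zero]
      · rw [if_neg h', if_neg (by omega), if_neg h, sub_zero]
  rw [e, fl_sub, pow_succ, pow_mul, neg_one_sq, one_pow] at this
  linarith

lemma fl_E_nonneg {t : P → ℝ} (ht : ∀ p, 0 ≤ t p) (B : Finset P) (n : ℕ) :
    0 ≤ flS B (flE n) t :=
  sum_nonneg fun T _ => mul_nonneg (by unfold flE; split_ifs <;> norm_num)
    (prod_nonneg fun p _ => ht p)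

lemma fl_E_le {t : P → ℝ} (ht : ∀ p, 0 ≤ t p) (B : Finset P) (n : ℕ) :
    2 ^ n * flS B (flE n) t ≤ Real.exp (2 * ∑ p ∈ B, t p) := by
  calc 2 ^ n * flS B (flE n) t ≤ ∑ T ∈ B.powerset, ∏ p ∈ T, 2 * t p := by
        rw [flS, mul_sum]
        refine sum_le_sum fun T _ => ?_
        rw [prod_mul_distrib, prod_const, flE]
        split_ifs with h
        · rw [h, one_mul]
        · rw [zero_mul, mul_zero]
          exact mul_nonneg (by positivity) (prod_nonneg fun p _ => ht p)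
    _ = ∏ p ∈ B, (1 + 2 * t p) := (prod_one_add B).symm
    _ ≤ ∏ p ∈ B, Real.exp (2 * t p) :=
        prod_le_prod (fun p _ => by linarith [ht p]) fun p _ => by
          linarith [Real.add_one_le_exp (2 * t p)]
    _ = _ := by rw [← Real.exp_sum, mul_sum]

lemma fl_X_ge {t : P → ℝ} (ht : ∀ p, 0 ≤ t p ∧ t p ≤ 1 / 2) (B : Finset P) :
    Real.exp (-(2 * ∑ p ∈ B, t p)) ≤ ∏ p ∈ B, (1 - t p) := by
  rw [mul_sum, ← sum_neg_distrib, Real.exp_sum]
  refine prod_le_prod (fun p _ => (Real.exp_pos _).le) fun p _ => ?_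
  have h1 := Real.add_one_le_exp (2 * t p)
  have h2 := (ht p).1
  have h3 := (ht p).2
  rw [Real.exp_neg, inv_le_iff_one_le_mul₀ (Real.exp_pos _)]
  nlinarith [mul_le_mul_of_nonneg_left h1 (show 0 ≤ 1 - t p by linarith)]

lemma fl_prod_ge (s : Finset ℕ) {x y e : ℕ → ℝ} (h0 : ∀ j, 0 ≤ x j) (h1 : ∀ j, x j ≤ y j)
    (h2 : ∀ j, y j ≤ x j + e j) :
    ∏ j ∈ s, y j - ∑ l ∈ s, e l * ∏ j ∈ s.erase l, y j ≤ ∏ j ∈ s, x j := by
  induction s using Finset.induction_on with
  | empty => simp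
  | insert a s ha ih =>
    rw [prod_insert ha, prod_insert ha, sum_insert ha, erase_insert ha]
    have hy : ∀ j, 0 ≤ y j := fun j => (h0 j).trans (h1 j)
    have he : 0 ≤ e a := by linarith [h1 a, h2 a]
    have e1 : ∑ l ∈ s, e l * ∏ j ∈ (insert a s).erase l, y j =
        y a * ∑ l ∈ s, e l * ∏ j ∈ s.erase l, y j := by
      rw [mul_sum]
      refine sum_congr rfl fun l hl => ?_
      have hne : a ≠ l := fun h => ha (h ▸ hl)
      rw [erase_insert_of_ne hne, prod_insert fun h => ha (mem_of_mem_erase h)]; ring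
    rw [e1]
    have h3 : ∏ j ∈ s, x j ≤ ∏ j ∈ s, y j := prod_le_prod (fun j _ => h0 j) fun j _ => h1 j
    have h4 : 0 ≤ ∏ j ∈ s, x j := prod_nonneg fun j _ => h0 j
    have h5 := mul_le_mul_of_nonneg_left ih (hy a)
    have h6 := mul_le_mul_of_nonneg_right (h2 a) h4
    have h7 := mul_le_mul_of_nonneg_left h3 he
    nlinarith

lemma fl_prod_one_add (s : Finset ℕ) {x : ℕ → ℝ} (h0 : ∀ j, 0 ≤ x j) {a : ℝ}
    (hs : ∑ j ∈ s, x j ≤ a) (ha : a ≤ 1) : ∏ j ∈ s, (1 + x j) ≤ 1 + 2 * a := by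
  have h1 : 0 ≤ ∑ j ∈ s, x j := sum_nonneg fun j _ => h0 j
  calc ∏ j ∈ s, (1 + x j) ≤ ∏ j ∈ s, Real.exp (x j) :=
        prod_le_prod (fun j _ => by linarith [h0 j]) fun j _ => by
          linarith [Real.add_one_le_exp (x j)]
    _ = Real.exp (∑ j ∈ s, x j) := (Real.exp_sum _ _).symm
    _ ≤ Real.exp a := Real.exp_le_exp.2 hs
    _ ≤ 1 + 2 * a := by
      have := Real.abs_exp_sub_one_le (x := a) (by rw [abs_of_nonneg (h1.trans hs)]; exact ha)
      rw [abs_of_nonneg (h1.trans hs)] at this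
      linarith [le_abs_self (Real.exp a - 1)]

variable [Fintype P]

/-- Expanding a product over the blocks. -/
lemma fl_expand (blk : P → ℕ) (c : ℕ → ℕ → ℝ) (t : P → ℝ) (J : ℕ) :
    ∏ j ∈ range J, flS (univ.filter fun p => blk p = j) (c j) t =
      ∑ T ∈ (univ.filter fun p => blk p < J).powerset,
        (∏ j ∈ range J, c j (T.filter fun p => blk p = j).card) * ∏ p ∈ T, t p := by
  induction J with
  | zero => simp
  | succ J ih =>
    rw [prod_range_succ, ih, flS, sum_mul_sum, ← sum_product']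
    refine sum_nbij' (fun q => q.1 ∪ q.2)
      (fun T => (T.filter fun p => blk p < J, T.filter fun p => blk p = J)) ?_ ?_ ?_ ?_ ?_
    · rintro ⟨T₁, T₂⟩ h
      simp only [mem_product, mem_powerset, subset_iff, mem_filter, mem_univ, true_and,
        mem_union] at h ⊢
      rintro p (hp | hp)
      · exact (h.1 hp).trans (Nat.lt_succ_self J)
      · rw [h.2 hp]; exact Nat.lt_succ_self J
    · intro T _
      simp only [mem_product, mem_powerset, subset_iff, mem_filter, mem_univ, true_and]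
      exact ⟨fun p hp => hp.2, fun p hp => hp.2⟩
    · rintro ⟨T₁, T₂⟩ h
      simp only [mem_product, mem_powerset, subset_iff, mem_filter, mem_univ, true_and] at h
      refine Prod.ext ?_ ?_
      · ext p
        simp only [mem_filter, mem_union]
        exact ⟨fun hp => hp.1.resolve_right fun h' => (h.2 h').not_lt hp.2,
          fun hp => ⟨Or.inl hp, h.1 hp⟩⟩
      · ext p
        simp only [mem_filter, mem_union]
        exact ⟨fun hp => hp.1.resolve_left fun h' => (h.1 h').ne hp.2,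
          fun hp => ⟨Or.inr hp, h.2 hp⟩⟩
    · intro T hT
      simp only [mem_powerset, subset_iff, mem_filter, mem_univ, true_and] at hT
      ext p
      simp only [mem_filter, mem_union]
      exact ⟨fun hp => hp.elim And.left And.left, fun hp => by
        rcases Nat.lt_succ_iff_lt_or_eq.1 (hT hp) with h | h
        exacts [Or.inl ⟨hp, h⟩, Or.inr ⟨hp, h⟩]⟩
    · rintro ⟨T₁, T₂⟩ h
      simp only [mem_product, mem_powerset, subset_iff, mem_filter, mem_univ, true_and] at h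
      have hd : Disjoint T₁ T₂ := disjoint_left.2 fun p h1 h2 => (h.1 h1).ne (h.2 h2)
      have e1 : ∀ j ∈ range J, (T₁ ∪ T₂).filter (fun p => blk p = j) =
          T₁.filter fun p => blk p = j := fun j hj => by
        ext p
        simp only [mem_filter, mem_union]
        exact ⟨fun hp => ⟨hp.1.resolve_right fun h' =>
          (mem_range.1 hj).ne (hp.2.symm.trans (h.2 h')), hp.2⟩, fun hp => ⟨Or.inl hp.1, hp.2⟩⟩
      have e2 : (T₁ ∪ T₂).filter (fun p => blk p = J) = T₂ := by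
        ext p
        simp only [mem_filter, mem_union]
        exact ⟨fun hp => hp.1.resolve_left fun h' => (h.1 h').ne hp.2,
          fun hp => ⟨Or.inr hp, h.2 hp⟩⟩
      have e3 : ∏ j ∈ range J, c j ((T₁ ∪ T₂).filter fun p => blk p = j).card =
          ∏ j ∈ range J, c j (T₁.filter fun p => blk p = j).card :=
        prod_congr rfl fun j hj => by rw [e1 j hj]
      simp only
      rw [prod_range_succ, prod_union hd, e2, e3]
      ring

open Pool.Agent.GT in
/-- Averages of block products are close to their model values. -/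
lemma fl_close {Ω : Type} [Finite Ω] (E : P → Ω → Prop) (g : P → ℝ) (blk : P → ℕ) {J : ℕ}
    (hJ : ∀ p, blk p < J) (n : ℕ → ℕ) (c : ℕ → ℕ → ℝ) (hc : ∀ j k, |c j k| ≤ 1)
    (hc0 : ∀ j k, n j < k → c j k = 0) {ρ : ℝ}
    (hρ : ∑ T ∈ univ.filter (fun T : Finset P => ∀ j, (T.filter fun p => blk p = j).card ≤ n j),
      |pr (fun ω => ∀ p ∈ T, E p ω) - ∏ p ∈ T, g p| ≤ ρ) :
    |av (fun ω => ∏ j ∈ range J, flS (univ.filter fun p => blk p = j) (c j) fun p => ind (E p ω)) -
      ∏ j ∈ range J, flS (univ.filter fun p => blk p = j) (c j) g| ≤ ρ := by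
  have hu : (univ.filter fun p => blk p < J) = univ := filter_true_of_mem fun p _ => hJ p
  simp only [fl_expand, hu, powerset_univ, av_sum, av_const_mul, ← ind_forall]
  rw [← sum_sub_distrib]
  refine (abs_sum_le_sum_abs _ _).trans (le_trans ?_ hρ)
  rw [sum_filter]
  refine sum_le_sum fun T _ => ?_
  rw [← mul_sub, abs_mul]
  split_ifs with h
  · refine mul_le_of_le_one_left (abs_nonneg _) ?_
    rw [abs_prod]
    exact prod_le_one (fun j _ => abs_nonneg _) fun j _ => hc _ _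
  · push Not at h
    obtain ⟨j, hj⟩ := h
    obtain ⟨p, hp⟩ := card_pos.1 ((Nat.zero_le _).trans_lt hj)
    have : j < J := (mem_filter.1 hp).2 ▸ hJ p
    have h0 : ∏ j ∈ range J, c j (T.filter fun p => blk p = j).card = 0 :=
      prod_eq_zero (mem_range.2 this) (hc0 j _ hj)
    rw [h0, abs_zero, zero_mul]

end FL

open Pool.Agent.GT in
theorem fl (K : ℝ) : ∃ m₀ : ℕ, ∀ m, m₀ ≤ m → ∀ (Ω P : Type) [Finite Ω] [Nonempty Ω] [Fintype P]
    (E : P → Ω → Prop) (g : P → ℝ) (blk : P → ℕ) (J : ℕ) (ρ : ℝ),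
    (∀ p, 0 ≤ g p ∧ g p ≤ 1 / 2) → (∀ p, blk p < J) →
    (∀ j, ∑ p ∈ univ.filter (fun p => blk p = j), g p ≤ K) →
    ∑ T ∈ univ.filter (fun T : Finset P => ∀ j, (T.filter fun p => blk p = j).card ≤
      2 * (m + j) + 1), |pr (fun ω => ∀ p ∈ T, E p ω) - ∏ p ∈ T, g p| ≤ ρ →
    |pr (fun ω => ∀ p, ¬ E p ω) - ∏ p, (1 - g p)| ≤
      8 / 2 ^ m * ∏ p, (1 - g p) + (J + 1) * ρ := by
  obtain ⟨m₁, hm₁⟩ := pow_unbounded_of_one_lt (Real.exp (4 * K)) (one_lt_two (α := ℝ))
  refine ⟨m₁ + 2, fun m hm Ω P _ _ _ E g blk J ρ hg hJ hK hρ => ?_⟩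
  set B : ℕ → Finset P := fun j => univ.filter fun p => blk p = j with hB
  set X : (P → ℝ) → ℕ → ℝ := fun t j => ∏ p ∈ B j, (1 - t p) with hX
  set Y : (P → ℝ) → ℕ → ℝ := fun t j => flS (B j) (flY (2 * (m + j))) t with hY
  set e : (P → ℝ) → ℕ → ℝ := fun t j => flS (B j) (flE (2 * (m + j) + 1)) t with he
  set χ : Ω → P → ℝ := fun ω p => ind (E p ω) with hχ
  have hχ1 : ∀ ω p, 0 ≤ χ ω p ∧ χ ω p ≤ 1 := fun ω p => ⟨ind_nonneg _, ind_le_one _⟩
  have hg1 : ∀ p, 0 ≤ g p ∧ g p ≤ 1 := fun p => ⟨(hg p).1, by linarith [(hg p).2]⟩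
  have hρ0 : 0 ≤ ρ := le_trans (sum_nonneg fun _ _ => abs_nonneg _) hρ
  have hX0 : ∀ t : P → ℝ, (∀ p, 0 ≤ t p ∧ t p ≤ 1) → ∀ j, 0 ≤ X t j := fun t ht j =>
    prod_nonneg fun p _ => sub_nonneg.2 (ht p).2
  have hXY : ∀ t : P → ℝ, (∀ p, 0 ≤ t p ∧ t p ≤ 1) → ∀ j, X t j ≤ Y t j := fun t ht j =>
    fl_lower ht _ _
  have hYX : ∀ t : P → ℝ, (∀ p, 0 ≤ t p ∧ t p ≤ 1) → ∀ j, Y t j ≤ X t j + e t j := fun t ht j =>
    fl_upper ht _ _
  have hfib : ∀ t : P → ℝ, ∏ p, (1 - t p) = ∏ j ∈ range J, X t j := fun t =>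
    (prod_fiberwise_of_maps_to (fun p _ => mem_range.2 (hJ p)) _).symm
  have hpr : pr (fun ω => ∀ p, ¬ E p ω) = av fun ω => ∏ j ∈ range J, X (χ ω) j := by
    refine av_congr fun ω => ?_
    rw [← hfib]
    simp only [hχ, ← ind_not, ← ind_forall, mem_univ, true_implies]
  have hYb : ∀ n k, |flY n k| ≤ 1 := fun n k => by unfold flY; split_ifs <;> simp
  have hEb : ∀ n k, |flE n k| ≤ 1 := fun n k => by unfold flE; split_ifs <;> simp
  have c1 : |av (fun ω => ∏ j ∈ range J, Y (χ ω) j) - ∏ j ∈ range J, Y g j| ≤ ρ :=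
    fl_close E g blk hJ (fun j => 2 * (m + j) + 1) (fun j => flY (2 * (m + j)))
      (fun j k => hYb _ _) (fun j k h => if_neg (by omega)) hρ
  have c2 : ∀ l ∈ range J, |av (fun ω => e (χ ω) l * ∏ j ∈ (range J).erase l, Y (χ ω) j) -
      e g l * ∏ j ∈ (range J).erase l, Y g j| ≤ ρ := fun l hl => by
    have key : ∀ t : P → ℝ, e t l * ∏ j ∈ (range J).erase l, Y t j = ∏ j ∈ range J, flS (B j)
        (if j = l then flE (2 * (m + j) + 1) else flY (2 * (m + j))) t := fun t => by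
      rw [← mul_prod_erase _ _ hl, if_pos rfl]
      congr 1
      exact prod_congr rfl fun j hj => by rw [if_neg (ne_of_mem_erase hj)]
    simp only [key]
    refine fl_close E g blk hJ (fun j => 2 * (m + j) + 1) _ (fun j k => ?_) (fun j k h => ?_) hρ
    · split_ifs
      exacts [hEb _ _, hYb _ _]
    · split_ifs
      exacts [if_neg (by omega), if_neg (by omega)]
  -- the model
  have hm2 : (4 : ℝ) ≤ 2 ^ m := by
    calc (4 : ℝ) = 2 ^ 2 := by norm_num
      _ ≤ 2 ^ m := pow_le_pow_right₀ one_le_two (by omega)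
  have he1 : ∀ j, e g j ≤ 1 / 2 ^ (m + j) * X g j := fun j => by
    have h1 := fl_E_le (fun p => (hg p).1) (B j) (2 * (m + j) + 1)
    have h2 := fl_X_ge hg (B j)
    have h3 : Real.exp (2 * ∑ p ∈ B j, g p) ≤
        Real.exp (4 * K) * Real.exp (-(2 * ∑ p ∈ B j, g p)) := by
      rw [← Real.exp_add]
      exact Real.exp_le_exp.2 (by linarith [hK j])
    have h4 : Real.exp (4 * K) ≤ 2 ^ (m + j) :=
      hm₁.le.trans (pow_le_pow_right₀ one_le_two (by omega))
    have h5 : (0 : ℝ) < 2 ^ (m + j) := by positivity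
    have h6 := fl_E_nonneg (fun p => (hg p).1) (B j) (2 * (m + j) + 1)
    have h7 : (2 : ℝ) ^ (2 * (m + j) + 1) * e g j ≤ 2 ^ (m + j) * X g j :=
      h1.trans (h3.trans (mul_le_mul h4 h2 (Real.exp_pos _).le h5.le))
    rw [pow_succ, two_mul, pow_add 2 (m + j) (m + j), mul_assoc, mul_assoc] at h7
    have h8 := le_of_mul_le_mul_left h7 h5
    rw [one_div, inv_mul_eq_div, le_div_iff₀ h5]
    change 0 ≤ e g j at h6
    nlinarith [mul_nonneg h5.le h6]
  have hsum : ∑ j ∈ range J, (1 : ℝ) / 2 ^ (m + j) ≤ 2 / 2 ^ m := by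
    have h1 := sum_geometric_two_le J
    calc ∑ j ∈ range J, (1 : ℝ) / 2 ^ (m + j) = (∑ j ∈ range J, (1 / 2 : ℝ) ^ j) / 2 ^ m := by
          rw [sum_div]
          exact sum_congr rfl fun j _ => by rw [pow_add, one_div_pow]; field_simp
      _ ≤ 2 / 2 ^ m := div_le_div_of_nonneg_right h1 (by positivity)
  have hq : (2 : ℝ) / 2 ^ m ≤ 1 / 2 := by
    rw [div_le_div_iff₀ (by positivity) two_pos]; linarith
  have hYs : ∀ s ⊆ range J, ∏ j ∈ s, Y g j ≤ (1 + 2 * (2 / 2 ^ m)) * ∏ j ∈ s, X g j :=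
    fun s hs => by
    calc ∏ j ∈ s, Y g j ≤ ∏ j ∈ s, (1 + 1 / 2 ^ (m + j)) * X g j :=
          prod_le_prod (fun j _ => (hX0 g hg1 j).trans (hXY g hg1 j)) fun j _ => by
            linarith [hYX g hg1 j, he1 j]
      _ = (∏ j ∈ s, (1 + 1 / 2 ^ (m + j) : ℝ)) * ∏ j ∈ s, X g j := prod_mul_distrib
      _ ≤ _ := mul_le_mul_of_nonneg_right (fl_prod_one_add s (fun j => by positivity)
          ((sum_le_sum_of_subset_of_nonneg hs fun j _ _ => by positivity).trans hsum)
          (by linarith)) (prod_nonneg fun j _ => hX0 g hg1 j)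
  have hP0 : 0 ≤ ∏ j ∈ range J, X g j := prod_nonneg fun j _ => hX0 g hg1 j
  have hV : ∑ l ∈ range J, e g l * ∏ j ∈ (range J).erase l, Y g j ≤
      2 * (2 / 2 ^ m) * ∏ j ∈ range J, X g j := by
    calc ∑ l ∈ range J, e g l * ∏ j ∈ (range J).erase l, Y g j ≤
          ∑ l ∈ range J, 1 / 2 ^ (m + l) * (2 * ∏ j ∈ range J, X g j) := by
          refine sum_le_sum fun l hl => ?_
          have h1 := hYs _ (erase_subset l (range J))
          have h2 : 0 ≤ ∏ j ∈ (range J).erase l, X g j := prod_nonneg fun j _ => hX0 g hg1 j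
          have h3 : ∏ j ∈ (range J).erase l, Y g j ≤ 2 * ∏ j ∈ (range J).erase l, X g j := by
            nlinarith
          calc e g l * ∏ j ∈ (range J).erase l, Y g j ≤
                (1 / 2 ^ (m + l) * X g l) * (2 * ∏ j ∈ (range J).erase l, X g j) :=
                mul_le_mul (he1 l) h3
                  (prod_nonneg fun j _ => (hX0 g hg1 j).trans (hXY g hg1 j))
                  (mul_nonneg (by positivity) (hX0 g hg1 l))
            _ = _ := by rw [← mul_prod_erase _ _ hl]; ring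
      _ = (∑ l ∈ range J, 1 / 2 ^ (m + l)) * (2 * ∏ j ∈ range J, X g j) := by rw [sum_mul]
      _ ≤ 2 / 2 ^ m * (2 * ∏ j ∈ range J, X g j) :=
          mul_le_mul_of_nonneg_right hsum (by positivity)
      _ = _ := by ring
  have u1 : (av fun ω => ∏ j ∈ range J, X (χ ω) j) ≤ av fun ω => ∏ j ∈ range J, Y (χ ω) j :=
    av_mono fun ω => prod_le_prod (fun j _ => hX0 _ (hχ1 ω) j) fun j _ => hXY _ (hχ1 ω) j
  have u2 : (av fun ω => ∏ j ∈ range J, Y (χ ω) j) - ∑ l ∈ range J,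
      av (fun ω => e (χ ω) l * ∏ j ∈ (range J).erase l, Y (χ ω) j) ≤
        av fun ω => ∏ j ∈ range J, X (χ ω) j := by
    rw [← av_sum, ← av_sub]
    exact av_mono fun ω => fl_prod_ge _ (hX0 _ (hχ1 ω)) (hXY _ (hχ1 ω)) (hYX _ (hχ1 ω))
  have u3 : ∑ l ∈ range J, av (fun ω => e (χ ω) l * ∏ j ∈ (range J).erase l, Y (χ ω) j) ≤
      ∑ l ∈ range J, e g l * ∏ j ∈ (range J).erase l, Y g j + J * ρ := by
    have : (J : ℝ) * ρ = ∑ _l ∈ range J, ρ := by simp
    rw [this, ← sum_add_distrib]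
    exact sum_le_sum fun l hl => by linarith [(abs_le.1 (c2 l hl)).2]
  have u4 : ∏ j ∈ range J, X g j ≤ ∏ j ∈ range J, Y g j :=
    prod_le_prod (fun j _ => hX0 g hg1 j) fun j _ => hXY g hg1 j
  have u5 := hYs _ Subset.rfl
  have u6 : 0 ≤ 2 / 2 ^ m * ∏ j ∈ range J, X g j := mul_nonneg (by positivity) hP0
  have u7 : 0 ≤ J * ρ := mul_nonneg (Nat.cast_nonneg J) hρ0
  have u8 : (8 : ℝ) / 2 ^ m = 4 * (2 / 2 ^ m) := by ring
  rw [hpr, hfib g, u8, abs_le]
  obtain ⟨c3, c4⟩ := abs_le.1 c1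
  constructor <;> nlinarith

end Pool.Agent.MP_357fb4_an
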