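import Pool.Agent.MP_357fb4_an.Defs

/-!
Small lemmas used everywhere.
-/

open scoped BigOperators Classical ComplexConjugate Polynomial
open Finset Filter MeasureTheory Topology

noncomputable section

namespace Pool.Agent.MP_357fb4_an

@[simp] lemma norm_ec (x : ℝ) : ‖ec x‖ = 1 := by
  rw [ec, show (2 * Real.pi * Complex.I * x : ℂ) = ((2 * Real.pi * x : ℝ) : ℂ) * Complex.I by
    push_cast; ring, Complex.norm_exp_ofReal_mul_I]

lemma ec_add (x y : ℝ) : ec (x + y) = ec x * ec y := by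
  simp only [ec, ← Complex.exp_add]; congr 1; push_cast; ring

@[simp] lemma ec_zero : ec 0 = 1 := by simp [ec]

lemma ec_int (n : ℤ) : ec n = 1 := by
  rw [ec, show (2 * Real.pi * Complex.I * ((n : ℝ) : ℂ) : ℂ) = n * (2 * Real.pi * Complex.I) by
    push_cast; ring, Complex.exp_int_mul_two_pi_mul_I]

lemma conj_ec (x : ℝ) : conj (ec x) = ec (-x) := by
  simp only [ec, ← Complex.exp_conj, map_mul, Complex.conj_ofReal, Complex.conj_I, map_ofNat]
  congr 1; push_cast; ring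

lemma ec_sub (x y : ℝ) : ec (x - y) = ec x * conj (ec y) := by
  rw [conj_ec, ← ec_add, sub_eq_add_neg]

lemma ec_mul_conj (x : ℝ) : ec x * conj (ec x) = 1 := by rw [← ec_sub, sub_self, ec_zero]

lemma ec_sum {ι : Type*} (s : Finset ι) (f : ι → ℝ) : ec (∑ i ∈ s, f i) = ∏ i ∈ s, ec (f i) := by
  induction s using Finset.induction_on with
  | empty => simp
  | insert a s ha ih => rw [sum_insert ha, prod_insert ha, ec_add, ih]

lemma ec_add_int (x : ℝ) (n : ℤ) : ec (x + n) = ec x := by rw [ec_add, ec_int, mul_one]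

lemma continuous_ec : Continuous ec := by unfold ec; fun_prop

lemma hasDerivAt_ec (x : ℝ) : HasDerivAt ec (2 * Real.pi * Complex.I * ec x) x := by
  have h : HasDerivAt (fun x : ℝ => (2 * Real.pi * Complex.I * x : ℂ))
      (2 * Real.pi * Complex.I) x := by
    simpa using (Complex.ofRealCLM.hasDerivAt (x := x)).const_mul (2 * Real.pi * Complex.I : ℂ)
  exact h.cexp.congr_deriv (mul_comm _ _)

lemma norm_ec_sub_one (x : ℝ) : ‖ec x - 1‖ ≤ 7 * |x| := by
  rw [ec, show (2 * Real.pi * Complex.I * x : ℂ) = Complex.I * ((2 * Real.pi * x : ℝ) : ℂ) by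
    push_cast; ring]
  refine Real.norm_exp_I_mul_ofReal_sub_one_le.trans ?_
  rw [Real.norm_eq_abs, abs_mul, abs_of_pos Real.two_pi_pos]
  have := Real.pi_lt_d2
  nlinarith [abs_nonneg x]

lemma norm_ec_sub (x y : ℝ) : ‖ec x - ec y‖ ≤ 7 * |x - y| := by
  have : ec x - ec y = ec y * (ec (x - y) - 1) := by
    rw [mul_sub, ← ec_add]; simp
  rw [this, norm_mul, norm_ec, one_mul]
  exact norm_ec_sub_one _

section sys

variable {Y : Type} [MeasurableSpace Y] {μ : Measure Y}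

lemma B1.mul {f g : Y → ℂ} (hf : B1 f) (hg : B1 g) : B1 fun y => f y * g y :=
  ⟨hf.1.mul hg.1, fun y => by
    rw [norm_mul]; exact mul_le_one₀ (hf.2 y) (norm_nonneg _) (hg.2 y)⟩

lemma B1.conj {f : Y → ℂ} (hf : B1 f) : B1 fun y => conj (f y) :=
  ⟨Complex.continuous_conj.measurable.comp hf.1, fun y => by
    rw [Complex.norm_conj]; exact hf.2 y⟩

lemma B1.const {c : ℂ} (hc : ‖c‖ ≤ 1) : B1 fun _ : Y => c := ⟨measurable_const, fun _ => hc⟩

lemma B1.one : B1 fun _ : Y => (1 : ℂ) := B1.const (by simp)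

lemma B1.prod {ι : Type*} (s : Finset ι) {f : ι → Y → ℂ} (hf : ∀ i ∈ s, B1 (f i)) :
    B1 fun y => ∏ i ∈ s, f i y :=
  ⟨Finset.measurable_prod s fun i hi => (hf i hi).1, fun y => by
    rw [norm_prod]; exact prod_le_one (fun _ _ => norm_nonneg _) fun i hi => (hf i hi).2 y⟩

lemma B1.act {G : Type} [AddCommGroup G] (S : Sys G Y μ) (g : G) {f : Y → ℂ} (hf : B1 f) :
    B1 fun y => f (S.act g y) := ⟨hf.1.comp (S.mp g).measurable, fun _ => hf.2 _⟩

lemma B1.dl (S : Sys ℤ Y μ) (h h' : ℤ) {f : Y → ℂ} (hf : B1 f) : B1 (dl S h h' f) :=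
  (hf.act S h).mul (hf.act S h').conj

lemma B1.integrable [IsFiniteMeasure μ] {f : Y → ℂ} (hf : B1 f) : Integrable f μ :=
  Integrable.of_bound hf.1.aestronglyMeasurable 1 (Eventually.of_forall hf.2)

lemma B1.norm_integral [IsProbabilityMeasure μ] {f : Y → ℂ} (hf : B1 f) : ‖∫ y, f y ∂μ‖ ≤ 1 := by
  simpa using norm_integral_le_of_norm_le_const (μ := μ) (Eventually.of_forall hf.2)

/-- A weighted sum of bounded functions with total weight at most one. -/
lemma B1.sum {ι : Type*} (s : Finset ι) {c : ι → ℂ} {f : ι → Y → ℂ} (hf : ∀ i ∈ s, B1 (f i))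
    (hc : ∑ i ∈ s, ‖c i‖ ≤ 1) : B1 fun y => ∑ i ∈ s, c i * f i y :=
  ⟨Finset.measurable_sum s fun i hi => (hf i hi).1.const_mul _, fun y => by
    refine (norm_sum_le _ _).trans (le_trans (sum_le_sum fun i hi => ?_) hc)
    rw [norm_mul]; exact mul_le_of_le_one_right (norm_nonneg _) ((hf i hi).2 y)⟩

lemma norm_expect_le_one {ι : Type*} (s : Finset ι) {f : ι → ℂ} (hf : ∀ i ∈ s, ‖f i‖ ≤ 1) :
    ‖𝔼 i ∈ s, f i‖ ≤ 1 := by
  rcases s.eq_empty_or_nonempty with rfl | hs
  · simp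
  · exact (RCLike.norm_expect_le (K := ℂ)).trans (expect_le hs hf)

lemma B1.expect {ι : Type*} (s : Finset ι) {f : ι → Y → ℂ} (hf : ∀ i ∈ s, B1 (f i)) :
    B1 fun y => 𝔼 i ∈ s, f i y :=
  ⟨by
    simp only [expect_eq_sum_div_card]
    exact (Finset.measurable_sum s fun i hi => (hf i hi).1).div_const _,
   fun y => norm_expect_le_one s fun i hi => (hf i hi).2 y⟩

lemma integral_act {G : Type} [AddCommGroup G] (S : Sys G Y μ) (g : G) {f : Y → ℂ}
    (hf : Measurable f) : ∫ y, f (S.act g y) ∂μ = ∫ y, f y ∂μ := by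
  rw [← integral_map (S.mp g).measurable.aemeasurable hf.aestronglyMeasurable, (S.mp g).map_eq]

lemma integral_act_real {G : Type} [AddCommGroup G] (S : Sys G Y μ) (g : G) {f : Y → ℝ}
    (hf : Measurable f) : ∫ y, f (S.act g y) ∂μ = ∫ y, f y ∂μ := by
  rw [← integral_map (S.mp g).measurable.aemeasurable hf.aestronglyMeasurable, (S.mp g).map_eq]

lemma act_act {G : Type} [AddCommGroup G] (S : Sys G Y μ) (g h : G) (y : Y) :
    S.act g (S.act h y) = S.act (g + h) y := (S.act_add g h y).symm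

lemma corr_B1 {G : Type} [AddCommGroup G] (S : Sys G Y μ) {ι : Type} [Fintype ι] {F : Y → ℂ}
    {g : ι → Y → ℂ} (hF : B1 F) (hg : ∀ i, B1 (g i)) (v : ι → G) :
    B1 fun y => F y * ∏ i, g i (S.act (v i) y) :=
  hF.mul (B1.prod univ fun i _ => (hg i).act S (v i))

lemma norm_corr_le [IsProbabilityMeasure μ] {G : Type} [AddCommGroup G] (S : Sys G Y μ) {ι : Type}
    [Fintype ι] {F : Y → ℂ} {g : ι → Y → ℂ} (hF : B1 F) (hg : ∀ i, B1 (g i)) (v : ι → G) :
    ‖corr S F g v‖ ≤ 1 := (corr_B1 S hF hg v).norm_integral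

/-- Shifting a correlation. -/
lemma corr_shift {G : Type} [AddCommGroup G] (S : Sys G Y μ) {ι : Type} [Fintype ι] {F : Y → ℂ}
    {g : ι → Y → ℂ} (hF : B1 F) (hg : ∀ i, B1 (g i)) (v : ι → G) (b : G) :
    corr S F g v = ∫ y, F (S.act b y) * ∏ i, g i (S.act (v i + b) y) ∂μ := by
  rw [corr, ← integral_act S b (corr_B1 S hF hg v).1]
  simp only [act_act]

lemma integral_expect {ι : Type*} (s : Finset ι) {f : ι → Y → ℂ}
    (hf : ∀ i ∈ s, Integrable (f i) μ) : ∫ y, 𝔼 i ∈ s, f i y ∂μ = 𝔼 i ∈ s, ∫ y, f i y ∂μ := by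
  simp only [expect_eq_sum_div_card]
  rw [integral_div, integral_finsetSum s hf]

lemma integral_expect_real {ι : Type*} (s : Finset ι) {f : ι → Y → ℝ}
    (hf : ∀ i ∈ s, Integrable (f i) μ) : ∫ y, 𝔼 i ∈ s, f i y ∂μ = 𝔼 i ∈ s, ∫ y, f i y ∂μ := by
  simp only [expect_eq_sum_div_card]
  rw [integral_div, integral_finsetSum s hf]

lemma re_expect {ι : Type*} (s : Finset ι) (f : ι → ℂ) :
    (𝔼 i ∈ s, f i).re = 𝔼 i ∈ s, (f i).re := by
  simp only [expect_eq_sum_div_card, Complex.div_natCast_re, Complex.re_sum]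

/-- Jensen for powers on a probability space. -/
lemma pow_integral_le [IsProbabilityMeasure μ] {f : Y → ℝ} (hf : Measurable f) {C : ℝ}
    (h0 : ∀ y, 0 ≤ f y) (hC : ∀ y, f y ≤ C) (n : ℕ) :
    (∫ y, f y ∂μ) ^ n ≤ ∫ y, f y ^ n ∂μ := by
  have hi : ∀ m : ℕ, Integrable (fun y => f y ^ m) μ := fun m =>
    Integrable.of_bound (hf.pow_const m).aestronglyMeasurable (C ^ m) (Eventually.of_forall fun y => by
      rw [Real.norm_of_nonneg (pow_nonneg (h0 y) m)]; exact pow_le_pow_left₀ (h0 y) (hC y) m)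
  exact (convexOn_pow n).map_integral_le (continuous_pow n).continuousOn isClosed_Ici
    (Eventually.of_forall h0) (by simpa using hi 1) (hi n)

/-- Cauchy-Schwarz against a function bounded by one. -/
lemma sq_norm_integral_mul_le [IsProbabilityMeasure μ] {f g : Y → ℂ} (hf : Measurable f) {C : ℝ}
    (hC : ∀ y, ‖f y‖ ≤ C) (hg : ∀ y, ‖g y‖ ≤ 1) :
    ‖∫ y, g y * f y ∂μ‖ ^ 2 ≤ ∫ y, ‖f y‖ ^ 2 ∂μ := by
  refine le_trans ?_ (pow_integral_le hf.norm (fun _ => norm_nonneg _) hC 2)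
  refine pow_le_pow_left₀ (norm_nonneg _) (norm_integral_le_of_norm_le ?_ ?_) 2
  · exact Integrable.of_bound hf.norm.aestronglyMeasurable C
      (Eventually.of_forall fun y => by simpa using hC y)
  · exact Eventually.of_forall fun y => by
      rw [norm_mul]; exact mul_le_of_le_one_left (norm_nonneg _) (hg y)

end sys

/-- Jensen for powers of finite averages. -/
lemma pow_expect_le {ι : Type*} (s : Finset ι) {f : ι → ℝ} (h0 : ∀ i ∈ s, 0 ≤ f i) {n : ℕ}
    (hn : n ≠ 0) : (𝔼 i ∈ s, f i) ^ n ≤ 𝔼 i ∈ s, f i ^ n := by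
  rcases s.eq_empty_or_nonempty with rfl | hs
  · simp [hn]
  · have hc : (0 : ℝ) < s.card := by exact_mod_cast hs.card_pos
    have := Real.pow_arith_mean_le_arith_mean_pow s (fun _ => (s.card : ℝ)⁻¹) f
      (fun _ _ => by positivity) (by simp [hc.ne']) h0 n
    simpa only [expect_eq_sum_div_card, div_eq_inv_mul, mul_sum] using this

/-- Jensen for powers with weights of total mass at most one. -/
lemma pow_wsum_le {ι : Type*} (s : Finset ι) {c f : ι → ℝ} (hc : ∀ i ∈ s, 0 ≤ c i)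
    (h1 : ∑ i ∈ s, c i ≤ 1) (h0 : ∀ i ∈ s, 0 ≤ f i) {n : ℕ} (hn : n ≠ 0) :
    (∑ i ∈ s, c i * f i) ^ n ≤ ∑ i ∈ s, c i * f i ^ n := by
  have := Real.pow_arith_mean_le_arith_mean_pow (insertNone s)
    (fun o => o.elim (1 - ∑ i ∈ s, c i) c) (fun o => o.elim 0 f)
    (fun o ho => by
      cases o with
      | none => simpa using h1
      | some i => exact hc i (by simpa using ho))
    (by simp [sum_insertNone])
    (fun o ho => by
      cases o with
      | none => simp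
      | some i => exact h0 i (by simpa using ho)) n
  simpa [sum_insertNone, hn] using this

lemma conj_expect {ι : Type*} (s : Finset ι) (f : ι → ℂ) :
    conj (𝔼 i ∈ s, f i) = 𝔼 i ∈ s, conj (f i) := by
  simp only [expect_eq_sum_div_card, map_div₀, map_sum, map_natCast]

lemma norm_expect_le' {ι : Type*} (s : Finset ι) (f : ι → ℂ) :
    ‖𝔼 i ∈ s, f i‖ ≤ 𝔼 i ∈ s, ‖f i‖ := RCLike.norm_expect_le (K := ℂ)

lemma sq_norm_expect {ι : Type*} (s : Finset ι) (f : ι → ℂ) :
    ‖𝔼 i ∈ s, f i‖ ^ 2 = 𝔼 i ∈ s, 𝔼 j ∈ s, (f i * conj (f j)).re := by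
  have : ((‖𝔼 i ∈ s, f i‖ ^ 2 : ℝ) : ℂ) = 𝔼 i ∈ s, 𝔼 j ∈ s, f i * conj (f j) := by
    rw [← expect_mul_expect, ← conj_expect, Complex.mul_conj, Complex.normSq_eq_norm_sq]
  have h := congrArg Complex.re this
  rw [Complex.ofReal_re, re_expect] at h
  rw [h]
  exact expect_congr rfl fun i _ => re_expect _ _

end Pool.Agent.MP_357fb4_an
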