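import Pool.Agent.MP_357fb4_an.MajLog

/-!
Removing the rough weights from bilinear sums.
-/

open scoped BigOperators Classical ComplexConjugate Polynomial
open Finset Filter MeasureTheory Topology

noncomputable section

namespace Pool.Agent.MP_357fb4_an

/-- The rough numbers of the range. -/
def BilW_rr (N : ℕ) (δ : ℝ) : Finset ℕ := (rg N δ).filter fun n : ℕ => Rough 0 ⌊(N : ℝ) ^ δ⌋₊ n

/-- The one sided removal of the rough weight. -/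
def BilW_One (φ : ℕ → ℂ) : Prop :=
  ∀ δ ε : ℝ, 0 < δ → 0 < ε → ∃ C : ℝ, 0 ≤ C ∧ ∀ᶠ N : ℕ in atTop, ∀ (γ : ℕ → ℂ) (Γ : ℝ),
    ∑ a ∈ rg N δ, ‖γ a‖ ≤ Γ →
      ∑ m ∈ BilW_rr N δ, ‖∑ a ∈ rg N δ, γ a * φ (a * m)‖ ^ 2 / m ≤
        C / Real.log N * ∑ m ∈ rg N δ, ‖∑ a ∈ rg N δ, γ a * φ (a * m)‖ ^ 2 / m + ε * Γ ^ 2

lemma BilW_mem {N : ℕ} {δ : ℝ} {a : ℕ} (h : a ∈ rg N δ) : 1 ≤ a ∧ a ≤ N ^ 2 := by
  rw [rg, mem_Ioc] at h
  omega

lemma BilW_sq (z : ℂ) : ((‖z‖ ^ 2 : ℝ) : ℂ) = z * conj z := by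
  rw [Complex.mul_conj, Complex.normSq_eq_norm_sq]

lemma BilW_one {b : ℝ → ℝ} (hb : LocPoly b) : BilW_One fun n => ec (b n) := by
  intro δ ε hδ hε
  obtain ⟨D, hD⟩ := hb δ hδ
  obtain ⟨u, w, hu, hδu, hm⟩ := majlog D hδ hε
  have hu' : (1 : ℝ) ≤ u := by exact_mod_cast hu
  refine ⟨u * (Vp 0 w)⁻¹, mul_nonneg (by positivity) (inv_nonneg.mpr (Vp_pos 0 w).le), ?_⟩
  filter_upwards [hD, hm, eventually_ge_atTop 2] with N hD hm hN γ Γ hΓ
  have hN1 : (1 : ℝ) < N := by exact_mod_cast hN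
  have hL : 0 < Real.log N := Real.log_pos hN1
  set z := ⌊(N : ℝ) ^ (1 / u : ℝ)⌋₊ with hz
  set S : ℕ → ℝ := fun m => ‖∑ a ∈ rg N δ, γ a * ec (b ((a * m : ℕ) : ℝ))‖ ^ 2 with hS
  have hS0 : ∀ m, 0 ≤ S m := fun m => sq_nonneg _
  have hzz : z ≤ ⌊(N : ℝ) ^ δ⌋₊ := by
    refine Nat.floor_le_floor (Real.rpow_le_rpow_of_exponent_le hN1.le ?_)
    rw [div_le_iff₀ (by positivity)]
    exact hδu
  have hΓ0 : 0 ≤ Γ := (sum_nonneg fun _ _ => norm_nonneg _).trans hΓ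
  -- the pairs
  have hp : ∀ a ∈ rg N δ, ∀ a' ∈ rg N δ,
      ‖∑ n ∈ rg N δ, ((nuI 0 z n - nuI 0 w n : ℝ) : ℂ) *
        (ec (b ((a * n : ℕ) : ℝ)) * conj (ec (b ((a' * n : ℕ) : ℝ)))) / n‖ ≤
          ε / u ^ 2 * Real.log N := by
    intro a ha a' ha'
    refine hm ⌊(N : ℝ) ^ δ⌋₊ (N ^ 2) (Nat.lt_floor_add_one _).le
      (Nat.pow_le_pow_right (by omega) (by omega))
      (fun n => ec (b ((a * n : ℕ) : ℝ)) * conj (ec (b ((a' * n : ℕ) : ℝ))))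
      (fun n => by simp) fun y hy1 hy2 => ?_
    have hy : (N : ℝ) ^ δ ≤ y := by
      have h1 : ((⌊(N : ℝ) ^ δ⌋₊ + 1 : ℕ) : ℝ) ≤ y := by exact_mod_cast hy1
      have h2 := Nat.lt_floor_add_one ((N : ℝ) ^ δ)
      push_cast at h1
      linarith
    have hy3 : y ≤ N ^ 3 := hy2.trans (Nat.pow_le_pow_right (by omega) (by omega))
    obtain ⟨Q, hQ, hQb⟩ := hD a y (BilW_mem ha).1 (BilW_mem ha).2 hy hy3
    obtain ⟨Q', hQ', hQb'⟩ := hD a' y (BilW_mem ha').1 (BilW_mem ha').2 hy hy3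
    refine ⟨Q - Q', (Polynomial.natDegree_sub_le _ _).trans (max_le hQ hQ'), fun x hx => ?_⟩
    rw [← ec_sub, Polynomial.eval_sub]
    refine (norm_ec_sub _ _).trans ?_
    have h1 := abs_le.mp (hQb x hx)
    have h2 := abs_le.mp (hQb' x hx)
    have h3 : (0 : ℝ) ≤ (N : ℝ)⁻¹ := by positivity
    have h4 : |b ((a * (y + x) : ℕ) : ℝ) - b ((a' * (y + x) : ℕ) : ℝ) -
        (Q.eval (x : ℝ) - Q'.eval (x : ℝ))| ≤ (N : ℝ)⁻¹ / 10 := by
      rw [abs_le]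
      constructor <;> linarith [h1.1, h1.2, h2.1, h2.2]
    linarith
  have h1 : |∑ n ∈ rg N δ, (nuI 0 z n - nuI 0 w n) * S n / n| ≤
      ε / u ^ 2 * Real.log N * Γ ^ 2 := by
    have e : ((∑ n ∈ rg N δ, (nuI 0 z n - nuI 0 w n) * S n / n : ℝ) : ℂ) =
        ∑ a ∈ rg N δ, ∑ a' ∈ rg N δ, γ a * conj (γ a') *
          ∑ n ∈ rg N δ, ((nuI 0 z n - nuI 0 w n : ℝ) : ℂ) *
            (ec (b ((a * n : ℕ) : ℝ)) * conj (ec (b ((a' * n : ℕ) : ℝ)))) / n := by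
      simp only [mul_sum]
      rw [Complex.ofReal_sum]
      symm
      rw [sum_congr rfl fun a _ => sum_comm, sum_comm]
      refine sum_congr rfl fun n _ => ?_
      rw [Complex.ofReal_div, Complex.ofReal_mul, hS, BilW_sq, map_sum, sum_mul_sum, mul_sum,
        sum_div]
      refine sum_congr rfl fun a _ => ?_
      rw [mul_sum, sum_div]
      refine sum_congr rfl fun a' _ => ?_
      rw [map_mul, Complex.ofReal_natCast]
      ring
    rw [← Real.norm_eq_abs, ← Complex.norm_real, e]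
    have hc : 0 ≤ ε / u ^ 2 * Real.log N := by positivity
    calc _ ≤ ∑ a ∈ rg N δ, ∑ a' ∈ rg N δ, ‖γ a‖ * ‖γ a'‖ * (ε / u ^ 2 * Real.log N) := by
          refine (norm_sum_le _ _).trans (sum_le_sum fun a ha => ?_)
          refine (norm_sum_le _ _).trans (sum_le_sum fun a' ha' => ?_)
          rw [norm_mul, norm_mul, Complex.norm_conj]
          exact mul_le_mul_of_nonneg_left (hp a ha a' ha') (by positivity)
      _ = ε / u ^ 2 * Real.log N * (∑ a ∈ rg N δ, ‖γ a‖) ^ 2 := by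
          rw [sq (∑ a ∈ rg N δ, ‖γ a‖), sum_mul_sum, mul_sum]
          refine sum_congr rfl fun a _ => ?_
          rw [mul_sum]
          exact sum_congr rfl fun a' _ => by ring
      _ ≤ _ := mul_le_mul_of_nonneg_left
          (pow_le_pow_left₀ (sum_nonneg fun _ _ => norm_nonneg _) hΓ 2) hc
  have h2 : ∑ m ∈ BilW_rr N δ, S m / m ≤ Vp 0 z * ∑ n ∈ rg N δ, nuI 0 z n * S n / n := by
    rw [mul_sum, BilW_rr, sum_filter]
    refine sum_le_sum fun n _ => ?_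
    split_ifs with hn
    · rw [nuI, if_pos (Rough.mono hzz hn), ← mul_div_assoc, ← mul_assoc,
        mul_inv_cancel₀ (Vp_pos 0 z).ne', one_mul]
    · exact mul_nonneg (Vp_pos 0 z).le
        (div_nonneg (mul_nonneg (nuI_nonneg _ _ _) (hS0 n)) (Nat.cast_nonneg n))
  have h3 : ∑ n ∈ rg N δ, nuI 0 w n * S n / n ≤ (Vp 0 w)⁻¹ * ∑ n ∈ rg N δ, S n / n := by
    rw [mul_sum]
    refine sum_le_sum fun n _ => ?_
    rw [mul_div_assoc]
    exact mul_le_mul_of_nonneg_right (nuI_le _ _ _) (div_nonneg (hS0 n) (Nat.cast_nonneg n))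
  have h4 : ∑ n ∈ rg N δ, nuI 0 z n * S n / n =
      ∑ n ∈ rg N δ, (nuI 0 z n - nuI 0 w n) * S n / n + ∑ n ∈ rg N δ, nuI 0 w n * S n / n := by
    rw [← sum_add_distrib]
    exact sum_congr rfl fun n _ => by ring
  have h5 : Vp 0 z ≤ u / Real.log N := Vp_le_div hN hu
  have h6 : 0 ≤ ∑ n ∈ rg N δ, nuI 0 z n * S n / n := sum_nonneg fun n _ =>
    div_nonneg (mul_nonneg (nuI_nonneg _ _ _) (hS0 n)) (Nat.cast_nonneg n)
  have h7 : ∑ n ∈ rg N δ, nuI 0 z n * S n / n ≤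
      ε / u ^ 2 * Real.log N * Γ ^ 2 + (Vp 0 w)⁻¹ * ∑ n ∈ rg N δ, S n / n := by
    rw [h4]
    exact add_le_add ((le_abs_self _).trans h1) h3
  have h8 : (u : ℝ) / Real.log N * (ε / u ^ 2 * Real.log N * Γ ^ 2) ≤ ε * Γ ^ 2 := by
    have e : (u : ℝ) / Real.log N * (ε / u ^ 2 * Real.log N * Γ ^ 2) = ε * Γ ^ 2 / u := by
      field_simp
    rw [e]
    exact div_le_self (by positivity) hu'
  calc ∑ m ∈ BilW_rr N δ, S m / m ≤ u / Real.log N * ∑ n ∈ rg N δ, nuI 0 z n * S n / n :=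
        h2.trans (mul_le_mul_of_nonneg_right h5 h6)
    _ ≤ u / Real.log N *
        (ε / u ^ 2 * Real.log N * Γ ^ 2 + (Vp 0 w)⁻¹ * ∑ n ∈ rg N δ, S n / n) :=
        mul_le_mul_of_nonneg_left h7 (by positivity)
    _ ≤ u * (Vp 0 w)⁻¹ / Real.log N * ∑ n ∈ rg N δ, S n / n + ε * Γ ^ 2 := by
        rw [mul_add, add_comm]
        exact add_le_add (le_of_eq (by ring)) h8

/-- Mass of coefficients supported on rough numbers. -/
lemma BilW_mass {N : ℕ} {δ : ℝ} {c : ℕ → ℂ} (hc : ∀ n, ‖c n‖ ≤ 1)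
    (hr : ∀ n, c n ≠ 0 → Rough 0 ⌊(N : ℝ) ^ δ⌋₊ n) {F : ℕ → ℝ} (hF : ∀ n, 0 ≤ F n) :
    ∑ m ∈ rg N δ, ‖c m / m‖ * F m ≤ ∑ m ∈ BilW_rr N δ, F m / m := by
  rw [BilW_rr, sum_filter]
  refine sum_le_sum fun n _ => ?_
  split_ifs with hn
  · rw [norm_div, Complex.norm_natCast, div_mul_eq_mul_div]
    exact div_le_div_of_nonneg_right (mul_le_of_le_one_left (hF n) (hc n)) (Nat.cast_nonneg n)
  · have : c n = 0 := by
      by_contra h
      exact hn (hr n h)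
    simp [this]

/-- Cauchy-Schwarz over the rough numbers. -/
lemma BilW_cs {N : ℕ} {δ G : ℝ} {c : ℕ → ℂ} (hc : ∀ n, ‖c n‖ ≤ 1)
    (hr : ∀ n, c n ≠ 0 → Rough 0 ⌊(N : ℝ) ^ δ⌋₊ n) (hG : ∑ n ∈ BilW_rr N δ, (1 : ℝ) / n ≤ G)
    (F : ℕ → ℂ) :
    ‖∑ m ∈ rg N δ, c m / m * F m‖ ^ 2 ≤ G * ∑ m ∈ BilW_rr N δ, ‖F m‖ ^ 2 / m := by
  have h1 : ‖∑ m ∈ rg N δ, c m / m * F m‖ ≤ ∑ m ∈ BilW_rr N δ, ‖F m‖ / m := by
    refine (norm_sum_le _ _).trans (le_trans (le_of_eq ?_) (BilW_mass hc hr fun n => norm_nonneg _))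
    exact sum_congr rfl fun m _ => norm_mul _ _
  have h2 : (∑ m ∈ BilW_rr N δ, ‖F m‖ / m) ^ 2 ≤
      (∑ n ∈ BilW_rr N δ, (1 : ℝ) / n) * ∑ m ∈ BilW_rr N δ, ‖F m‖ ^ 2 / m :=
    sum_sq_le_sum_mul_sum_of_sq_le_mul _ (fun _ _ => by positivity) (fun _ _ => by positivity)
      fun _ _ => le_of_eq (by ring)
  refine (pow_le_pow_left₀ (norm_nonneg _) h1 2).trans (h2.trans ?_)
  exact mul_le_mul_of_nonneg_right hG (sum_nonneg fun _ _ => by positivity)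

lemma BilW_of {φ : ℕ → ℂ} (hφ : ∀ n, ‖φ n‖ ≤ 1) (h : Bil φ) (h1 : BilW_One φ) : BilR φ := by
  intro δ ε hδ hε
  obtain ⟨G0, hG0⟩ := rough_mass hδ
  obtain ⟨G, hG1, hGG⟩ : ∃ G : ℝ, 1 ≤ G ∧ G0 ≤ G := ⟨max 1 G0, le_max_left _ _, le_max_right _ _⟩
  have hG : 0 < G := by linarith
  obtain ⟨C, hC, hC1⟩ := h1 δ (ε ^ 2 / (2 * G ^ 3)) hδ (by positivity)
  set τ : ℝ := ε ^ 2 / (2 * G) / (C + 1) with hτ
  have hτ0 : 0 < τ := by positivity
  obtain ⟨C', hC', hC2⟩ := h1 δ (τ ^ 2 / (18 * G ^ 3)) hδ (by positivity)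
  have hB := h δ (τ ^ 2 / (6 * (C' + 1) * G ^ 3)) hδ (by positivity)
  filter_upwards [hG0, hC1, hC2, hB, eventually_ge_atTop 3] with N hG0 hC1 hC2 hB hN u v hu hv
    hur hvr
  have hm : ∑ n ∈ BilW_rr N δ, (1 : ℝ) / n ≤ G := hG0.trans hGG
  have hL : 1 ≤ Real.log N := by
    rw [Real.le_log_iff_exp_le (by positivity)]
    have h3 : (3 : ℝ) ≤ N := by exact_mod_cast hN
    linarith [Real.exp_one_lt_d9]
  set L := Real.log N with hLdef
  have hL0 : 0 < L := by linarith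
  have hH : ∑ n ∈ rg N δ, (1 : ℝ) / n ≤ 3 * L := by
    refine (harm_le' _ _).trans ?_
    rw [Nat.cast_pow, Real.log_pow]
    push_cast
    linarith
  have hu1 : ∑ a ∈ rg N δ, ‖u a / a‖ ≤ G := by
    have := BilW_mass hu hur (F := fun _ => 1) fun _ => zero_le_one
    simp only [mul_one] at this
    exact this.trans hm
  set Φ : ℕ → ℂ := fun m => ∑ a ∈ rg N δ, u a / a * φ (a * m) with hΦ
  have hb : ∀ (γ : ℕ → ℂ) (m : ℕ), ‖∑ a ∈ rg N δ, γ a * φ (a * m)‖ ≤ ∑ a ∈ rg N δ, ‖γ a‖ := by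
    intro γ m
    refine (norm_sum_le _ _).trans (sum_le_sum fun a _ => ?_)
    rw [norm_mul]
    exact mul_le_of_le_one_right (norm_nonneg _) (hφ _)
  have hΦb : ∀ m, ‖Φ m‖ ≤ G := fun m => (hb _ m).trans hu1
  have hΦ1 : ∑ m ∈ rg N δ, ‖conj (Φ m) / m‖ ≤ 3 * G * L := by
    calc _ ≤ ∑ m ∈ rg N δ, G * (1 / m) := by
          refine sum_le_sum fun m _ => ?_
          rw [norm_div, Complex.norm_conj, Complex.norm_natCast, mul_one_div]
          exact div_le_div_of_nonneg_right (hΦb m) (Nat.cast_nonneg m)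
      _ ≤ G * (3 * L) := by
          rw [← mul_sum]
          exact mul_le_mul_of_nonneg_left hH hG.le
      _ = _ := by ring
  set Ψ : ℕ → ℂ := fun a => ∑ m ∈ rg N δ, conj (Φ m) / m * φ (m * a) with hΨ
  have hΨb : ∀ a, ‖Ψ a‖ ≤ 3 * G * L := fun a => (hb _ a).trans hΦ1
  set X : ℝ := ∑ m ∈ rg N δ, ‖Φ m‖ ^ 2 / m with hX
  set Y : ℝ := ∑ a ∈ rg N δ, ‖Ψ a‖ ^ 2 / a with hY
  have hX0 : 0 ≤ X := sum_nonneg fun _ _ => by positivity
  have hY0 : 0 ≤ Y := sum_nonneg fun _ _ => by positivity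
  have eT : ∑ a ∈ rg N δ, ∑ m ∈ rg N δ, u a * v m * φ (a * m) / (a * m) =
      ∑ m ∈ rg N δ, v m / m * Φ m := by
    rw [sum_comm]
    refine sum_congr rfl fun m _ => ?_
    rw [hΦ, mul_sum]
    exact sum_congr rfl fun a _ => by ring
  have eX : (X : ℂ) = ∑ a ∈ rg N δ, u a / a * Ψ a := by
    simp only [hΨ, mul_sum]
    rw [sum_comm, hX, Complex.ofReal_sum]
    refine sum_congr rfl fun m _ => ?_
    rw [Complex.ofReal_div, BilW_sq, Complex.ofReal_natCast]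
    conv_lhs => rw [mul_comm, mul_div_right_comm]
    conv_lhs => arg 2; rw [hΦ]
    rw [mul_sum]
    refine sum_congr rfl fun a _ => ?_
    rw [mul_comm m a]
    ring
  have hGL : (0 : ℝ) < 3 * G * L := by positivity
  have eY : (Y : ℂ) = ((3 * G * L * G : ℝ) : ℂ) * ∑ a ∈ rg N δ, ∑ m ∈ rg N δ,
      conj (Ψ a) / ((3 * G * L : ℝ) : ℂ) * (conj (Φ m) / (G : ℂ)) * φ (a * m) / (a * m) := by
    rw [hY, Complex.ofReal_sum, mul_sum]
    refine sum_congr rfl fun a _ => ?_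
    rw [Complex.ofReal_div, BilW_sq, Complex.ofReal_natCast]
    conv_lhs => rw [mul_comm, mul_div_right_comm]
    conv_lhs => arg 2; rw [hΨ]
    rw [mul_sum, mul_sum]
    refine sum_congr rfl fun m _ => ?_
    have e1 : ((3 * G * L : ℝ) : ℂ) ≠ 0 := by exact_mod_cast hGL.ne'
    have e2 : (G : ℂ) ≠ 0 := by exact_mod_cast hG.ne'
    rw [mul_comm m a, Complex.ofReal_mul (3 * G * L) G]
    generalize ((3 * G * L : ℝ) : ℂ) = A at e1 ⊢
    have e3 : A * A⁻¹ = 1 := mul_inv_cancel₀ e1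
    have e4 : (G : ℂ) * (G : ℂ)⁻¹ = 1 := mul_inv_cancel₀ e2
    calc _ = A * A⁻¹ * (G * (G : ℂ)⁻¹) * (conj (Ψ a) / a * (conj (Φ m) / m * φ (a * m))) := by
          rw [e3, e4, one_mul, one_mul]
      _ = _ := by ring
  have hYb : Y ≤ 3 * G * L * G * (τ ^ 2 / (6 * (C' + 1) * G ^ 3) * L ^ 2) := by
    have h2 := hB (fun a => conj (Ψ a) / ((3 * G * L : ℝ) : ℂ)) (fun m => conj (Φ m) / (G : ℂ))
      (fun a => by
        rw [norm_div, Complex.norm_conj, Complex.norm_real, Real.norm_of_nonneg hGL.le]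
        exact (div_le_one hGL).mpr (hΨb a))
      (fun m => by
        rw [norm_div, Complex.norm_conj, Complex.norm_real, Real.norm_of_nonneg hG.le]
        exact (div_le_one hG).mpr (hΦb m))
    rw [← Real.norm_of_nonneg hY0, ← Complex.norm_real, eY, norm_mul, Complex.norm_real,
      Real.norm_of_nonneg (by positivity)]
    exact mul_le_mul_of_nonneg_left h2 (by positivity)
  have hXb : X ^ 2 ≤ (τ * L) ^ 2 := by
    have h2 := BilW_cs hu hur hm Ψ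
    rw [← eX, Complex.norm_real, Real.norm_of_nonneg hX0] at h2
    have h3 : ∑ a ∈ BilW_rr N δ, ‖Ψ a‖ ^ 2 / a ≤
        C' / L * Y + τ ^ 2 / (18 * G ^ 3) * (3 * G * L) ^ 2 := hC2 _ _ hΦ1
    have h4 : C' / L * Y ≤
        (C' + 1) / L * (3 * G * L * G * (τ ^ 2 / (6 * (C' + 1) * G ^ 3) * L ^ 2)) :=
      mul_le_mul (div_le_div_of_nonneg_right (by linarith) hL0.le) hYb hY0 (by positivity)
    calc X ^ 2 ≤ G * ((C' + 1) / L * (3 * G * L * G * (τ ^ 2 / (6 * (C' + 1) * G ^ 3) * L ^ 2)) +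
          τ ^ 2 / (18 * G ^ 3) * (3 * G * L) ^ 2) :=
          h2.trans (mul_le_mul_of_nonneg_left (h3.trans (by linarith)) hG.le)
      _ = _ := by
          field_simp
          ring
  have hXb' : X ≤ τ * L := le_of_sq_le_sq hXb (by positivity)
  have h2 := BilW_cs hv hvr hm Φ
  have h3 : ∑ m ∈ BilW_rr N δ, ‖Φ m‖ ^ 2 / m ≤ C / L * X + ε ^ 2 / (2 * G ^ 3) * G ^ 2 :=
    hC1 _ _ hu1
  have h4 : C / L * X ≤ (C + 1) / L * (τ * L) :=
    mul_le_mul (div_le_div_of_nonneg_right (by linarith) hL0.le) hXb' hX0 (by positivity)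
  rw [eT]
  refine le_of_sq_le_sq ?_ hε.le
  calc _ ≤ G * ((C + 1) / L * (τ * L) + ε ^ 2 / (2 * G ^ 3) * G ^ 2) :=
        h2.trans (mul_le_mul_of_nonneg_left (h3.trans (by linarith)) hG.le)
    _ = _ := by
        rw [hτ]
        field_simp
        ring

theorem bilw {b : ℝ → ℝ} (hb : LocPoly b) (h : Bil fun n => ec (b n)) :
    BilR fun n => ec (b n) :=
  BilW_of (fun _ => (norm_ec _).le) h (BilW_one hb)

end Pool.Agent.MP_357fb4_an
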