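import Pool.Agent.MP_357fb4_an.Basic

/-!
Box averages.
-/

open scoped BigOperators Classical ComplexConjugate Polynomial
open Finset Filter MeasureTheory Topology

noncomputable section

namespace Pool.Agent.MP_357fb4_an

variable {Y : Type} [MeasurableSpace Y] {μ : Measure Y} [IsProbabilityMeasure μ]

lemma Box_abs_expect {ι : Type*} (s : Finset ι) {f : ι → ℝ} (hf : ∀ i ∈ s, |f i| ≤ 1) :
    |𝔼 i ∈ s, f i| ≤ 1 := by
  rcases s.eq_empty_or_nonempty with rfl | hs
  · simp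
  · rw [abs_le]
    exact ⟨le_expect hs fun i hi => (abs_le.1 (hf i hi)).1,
      expect_le hs fun i hi => (abs_le.1 (hf i hi)).2⟩

lemma Box_expect_add {ι : Type*} (s : Finset ι) {f g : ι → ℝ} {c : ℝ} (hc : 0 ≤ c)
    (h : ∀ i ∈ s, f i ≤ g i + c) : 𝔼 i ∈ s, f i ≤ 𝔼 i ∈ s, g i + c := by
  rcases s.eq_empty_or_nonempty with rfl | hs
  · simpa using hc
  · calc 𝔼 i ∈ s, f i ≤ 𝔼 i ∈ s, (g i + c) := expect_le_expect h
      _ = _ := by rw [expect_add_distrib, expect_const hs]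

lemma Box_sq_expect {ι : Type*} (s : Finset ι) (f : ι → ℝ) :
    (𝔼 i ∈ s, f i) ^ 2 ≤ 𝔼 i ∈ s, f i ^ 2 := by
  have h1 : |𝔼 i ∈ s, f i| ≤ 𝔼 i ∈ s, |f i| := by
    rw [abs_le]
    refine ⟨?_, expect_le_expect fun i _ => le_abs_self _⟩
    rw [← expect_neg_distrib]
    exact expect_le_expect fun i _ => neg_abs_le _
  calc (𝔼 i ∈ s, f i) ^ 2 = |𝔼 i ∈ s, f i| ^ 2 := (sq_abs _).symm
    _ ≤ (𝔼 i ∈ s, |f i|) ^ 2 := pow_le_pow_left₀ (abs_nonneg _) h1 2
    _ ≤ 𝔼 i ∈ s, |f i| ^ 2 := pow_expect_le s (fun _ _ => abs_nonneg _) two_ne_zero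
    _ = _ := by simp only [sq_abs]

lemma Box_comm4 (s t : Finset ℕ) (F : ℕ → ℕ → ℕ → ℕ → ℝ) :
    𝔼 a ∈ s, 𝔼 b ∈ s, 𝔼 c ∈ t, 𝔼 d ∈ t, F a b c d =
      𝔼 c ∈ t, 𝔼 d ∈ t, 𝔼 a ∈ s, 𝔼 b ∈ s, F a b c d := by
  calc 𝔼 a ∈ s, 𝔼 b ∈ s, 𝔼 c ∈ t, 𝔼 d ∈ t, F a b c d
      = 𝔼 a ∈ s, 𝔼 c ∈ t, 𝔼 d ∈ t, 𝔼 b ∈ s, F a b c d := by
        refine expect_congr rfl fun a _ => ?_
        rw [expect_comm]
        exact expect_congr rfl fun c _ => expect_comm _ _ _
    _ = _ := by
        rw [expect_comm]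
        exact expect_congr rfl fun c _ => expect_comm _ _ _

lemma Box_shift_sum (u : ℕ → ℂ) (hu : ∀ n, ‖u n‖ ≤ 1) (N k : ℕ) :
    ‖∑ h ∈ range N, u h - ∑ h ∈ range N, u (k + h)‖ ≤ 2 * k := by
  have h1 := sum_range_add u N k
  have h2 := sum_range_add u k N
  rw [add_comm k N] at h2
  have h3 : ∑ h ∈ range N, u h - ∑ h ∈ range N, u (k + h) =
      ∑ j ∈ range k, u j - ∑ j ∈ range k, u (N + j) := by
    linear_combination h2 - h1
  have h4 : ∀ v : ℕ → ℂ, (∀ n, ‖v n‖ ≤ 1) → ‖∑ j ∈ range k, v j‖ ≤ k := fun v hv =>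
    (norm_sum_le _ _).trans (by
      simpa using sum_le_card_nsmul (range k) (fun j => ‖v j‖) 1 fun j _ => hv j)
  rw [h3]
  have := h4 u hu
  have := h4 (fun j => u (N + j)) fun j => hu _
  linarith [norm_sub_le (∑ j ∈ range k, u j) (∑ j ∈ range k, u (N + j))]

lemma Box_avg_diff (u : ℕ → ℂ) (hu : ∀ n, ‖u n‖ ≤ 1) {K K' : ℕ} (hK : 1 ≤ K) (hK' : 1 ≤ K') :
    ‖𝔼 h ∈ range K', u h - 𝔼 h ∈ range K', 𝔼 k ∈ range K, u (k + h)‖ ≤ 2 * K / K' := by
  have hs : (range K).Nonempty := nonempty_range_iff.2 (by omega)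
  have hp : (0 : ℝ) < K' := by exact_mod_cast hK'
  rw [expect_comm, ← expect_const hs (𝔼 h ∈ range K', u h), ← expect_sub_distrib]
  refine (norm_expect_le' _ _).trans (expect_le hs fun k hk => ?_)
  simp only [expect_eq_sum_div_card, card_range]
  rw [← sub_div, norm_div, Complex.norm_natCast]
  refine div_le_div_of_nonneg_right ((Box_shift_sum u hu K' k).trans ?_) hp.le
  have : (k : ℝ) ≤ K := by exact_mod_cast (mem_range.1 hk).le
  linarith

lemma Box_int_sq {g : Y → ℂ} (hg : B1 g) : Integrable (fun y => ‖g y‖ ^ 2) μ :=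
  Integrable.of_bound (hg.1.norm.pow_const 2).aestronglyMeasurable 1
    (Eventually.of_forall fun y => by
      rw [Real.norm_of_nonneg (by positivity)]
      exact pow_le_one₀ (norm_nonneg _) (hg.2 y))

omit [IsProbabilityMeasure μ] in
lemma Box_avg_B1 (S : Sys ℤ Y μ) (K : ℕ) {f : Y → ℂ} (hf : B1 f) :
    B1 fun y => 𝔼 h ∈ range K, f (S.act (h : ℕ) y) :=
  B1.expect (range K) (f := fun (h : ℕ) y => f (S.act (h : ℕ) y)) fun h _ => hf.act S _

theorem abs_box_le (S : Sys ℤ Y μ) (l : List ℕ) {f : Y → ℂ} (hf : B1 f) : |box S l f| ≤ 1 := by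
  induction l generalizing f with
  | nil => exact (Complex.abs_re_le_norm _).trans hf.norm_integral
  | cons K l ih =>
    exact Box_abs_expect _ fun h _ => Box_abs_expect _ fun h' _ => ih (hf.dl S _ _)

theorem box_shift (S : Sys ℤ Y μ) (l : List ℕ) (n : ℤ) {f : Y → ℂ} (hf : B1 f) :
    box S l (fun y => f (S.act n y)) = box S l f := by
  induction l generalizing f with
  | nil => simp only [box]; rw [integral_act S n hf.1]
  | cons K l ih =>
    simp only [box]
    refine expect_congr rfl fun h _ => expect_congr rfl fun h' _ => ?_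
    rw [← ih (hf.dl S _ _)]
    congr 1
    funext y
    simp only [dl, act_act, add_comm n]

theorem box_conj (S : Sys ℤ Y μ) (l : List ℕ) {f : Y → ℂ} (hf : B1 f) :
    box S l (fun y => conj (f y)) = box S l f := by
  induction l generalizing f with
  | nil => simp only [box]; rw [integral_conj, Complex.conj_re]
  | cons K l ih =>
    simp only [box]
    refine expect_congr rfl fun h _ => expect_congr rfl fun h' _ => ?_
    rw [← ih (hf.dl S _ _)]
    congr 1
    funext y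
    simp only [dl, map_mul]

theorem box_dl (S : Sys ℤ Y μ) (l : List ℕ) (h h' : ℤ) {f : Y → ℂ} (hf : B1 f) :
    box S l (dl S h h' f) = box S l (dl S 0 (h' - h) f) := by
  rw [← box_shift S l h (hf.dl S 0 (h' - h))]
  congr 1
  funext y
  simp only [dl, act_act, zero_add, sub_add_cancel]

theorem box_perm (S : Sys ℤ Y μ) {l l' : List ℕ} (h : l.Perm l') {f : Y → ℂ} (hf : B1 f) :
    box S l f = box S l' f := by
  induction h generalizing f with
  | nil => rfl
  | cons K _ ih =>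
    simp only [box]
    exact expect_congr rfl fun h _ => expect_congr rfl fun h' _ => ih (hf.dl S _ _)
  | swap K K' l =>
    simp only [box]
    rw [Box_comm4]
    refine expect_congr rfl fun a _ => expect_congr rfl fun b _ => expect_congr rfl fun c _ =>
      expect_congr rfl fun d _ => ?_
    congr 1
    funext y
    simp only [dl, act_act, map_mul, Complex.conj_conj, add_comm (c : ℤ), add_comm (d : ℤ)]
    ring
  | trans _ _ ih1 ih2 => exact (ih1 hf).trans (ih2 hf)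

theorem box_one (S : Sys ℤ Y μ) (K : ℕ) {f : Y → ℂ} (hf : B1 f) :
    box S [K] f = ∫ y, ‖𝔼 h ∈ range K, f (S.act (h : ℕ) y)‖ ^ 2 ∂μ := by
  have hi : ∀ h h' : ℕ, Integrable
      (fun y => (f (S.act (h : ℕ) y) * conj (f (S.act (h' : ℕ) y))).re) μ := fun h h' =>
    (hf.dl S h h').integrable.re
  simp only [sq_norm_expect]
  rw [integral_expect_real _ fun h _ => ?_]
  · simp only [box]
    refine expect_congr rfl fun h _ => ?_
    rw [integral_expect_real _ fun h' _ => hi h h']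
    refine expect_congr rfl fun h' _ => ?_
    exact (integral_re (hf.dl S h h').integrable).symm
  · simp only [expect_eq_sum_div_card]
    exact (integrable_finsetSum _ fun h' _ => hi h h').div_const _

lemma Box_nonneg_last (S : Sys ℤ Y μ) (K : ℕ) (l : List ℕ) {f : Y → ℂ} (hf : B1 f) :
    0 ≤ box S (l ++ [K]) f := by
  induction l generalizing f with
  | nil => rw [List.nil_append, box_one S K hf]; positivity
  | cons L l ih =>
    simp only [List.cons_append, box]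
    exact expect_nonneg fun h _ => expect_nonneg fun h' _ => ih (hf.dl S _ _)

theorem box_nonneg (S : Sys ℤ Y μ) {l : List ℕ} (hl : l ≠ []) {f : Y → ℂ} (hf : B1 f) :
    0 ≤ box S l f := by
  obtain ⟨K, l, rfl⟩ := List.exists_cons_of_ne_nil hl
  rw [← box_perm S (List.perm_append_singleton K l) hf]
  exact Box_nonneg_last S K l hf

lemma Box_mono_one (S : Sys ℤ Y μ) {K K' : ℕ} (hK : 1 ≤ K) (hK' : 1 ≤ K') {f : Y → ℂ}
    (hf : B1 f) : box S [K'] f ≤ box S [K] f + 4 * K / K' := by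
  rw [box_one S K hf, box_one S K' hf]
  set g : Y → ℂ := fun y => 𝔼 h ∈ range K, f (S.act (h : ℕ) y) with hgd
  have hg : B1 g := Box_avg_B1 S K hf
  have hs : (range K').Nonempty := nonempty_range_iff.2 (by omega)
  have hi : ∀ h : ℕ, Integrable (fun y => ‖g (S.act (h : ℕ) y)‖ ^ 2) μ := fun h =>
    Box_int_sq (hg.act S _)
  have hi' : Integrable (fun y => 𝔼 h ∈ range K', ‖g (S.act (h : ℕ) y)‖ ^ 2) μ := by
    simp only [expect_eq_sum_div_card]
    exact (integrable_finsetSum _ fun h _ => hi h).div_const _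
  have h1 : ∀ y, ‖𝔼 h ∈ range K', f (S.act (h : ℕ) y)‖ ^ 2 ≤
      𝔼 h ∈ range K', ‖g (S.act (h : ℕ) y)‖ ^ 2 + 4 * K / K' := by
    intro y
    have e1 := Box_avg_diff (fun n => f (S.act (n : ℕ) y)) (fun n => hf.2 _) hK hK'
    have e2 : 𝔼 h ∈ range K', 𝔼 k ∈ range K, f (S.act ((k + h : ℕ) : ℤ) y) =
        𝔼 h ∈ range K', g (S.act (h : ℕ) y) := by
      simp only [hgd, act_act, Nat.cast_add]
    rw [e2] at e1
    have e3 := (Box_avg_B1 S K' hf).2 y
    have e4 := (Box_avg_B1 S K' hg).2 y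
    have e5 : ‖𝔼 h ∈ range K', g (S.act (h : ℕ) y)‖ ^ 2 ≤
        𝔼 h ∈ range K', ‖g (S.act (h : ℕ) y)‖ ^ 2 :=
      (pow_le_pow_left₀ (norm_nonneg _) (norm_expect_le' _ _) 2).trans (Box_sq_expect _ _)
    have e6 := norm_sub_norm_le (𝔼 h ∈ range K', f (S.act (h : ℕ) y))
      (𝔼 h ∈ range K', g (S.act (h : ℕ) y))
    have e7 : (0 : ℝ) ≤ 2 * K / K' := by positivity
    have e8 : (4 * K / K' : ℝ) = 2 * (2 * K / K') := by ring
    rw [e8]
    generalize (2 * K / K' : ℝ) = t at *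
    have e9 := norm_nonneg (𝔼 h ∈ range K', f (S.act (h : ℕ) y))
    have e10 := norm_nonneg (𝔼 h ∈ range K', g (S.act (h : ℕ) y))
    generalize ‖𝔼 h ∈ range K', f (S.act (h : ℕ) y)‖ = a at *
    generalize ‖𝔼 h ∈ range K', g (S.act (h : ℕ) y)‖ = b at *
    have e11 : a - b ≤ t := e6.trans e1
    nlinarith [mul_nonneg (sub_nonneg.2 e11) (add_nonneg e9 e10),
      mul_nonneg e7 (sub_nonneg.2 e3), mul_nonneg e7 (sub_nonneg.2 e4)]
  calc ∫ y, ‖𝔼 h ∈ range K', f (S.act (h : ℕ) y)‖ ^ 2 ∂μ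
      ≤ ∫ y, (𝔼 h ∈ range K', ‖g (S.act (h : ℕ) y)‖ ^ 2 + 4 * K / K') ∂μ :=
        integral_mono (Box_int_sq (Box_avg_B1 S K' hf)) (hi'.add (integrable_const _)) h1
    _ = ∫ y, ‖g y‖ ^ 2 ∂μ + 4 * K / K' := by
        rw [integral_add hi' (integrable_const _), integral_expect_real _ fun h _ => hi h]
        simp only [integral_const, probReal_univ, one_smul]
        congr 1
        rw [expect_congr rfl fun (h : ℕ) _ =>
          integral_act_real S (h : ℤ) (f := fun y => ‖g y‖ ^ 2) (hg.1.norm.pow_const 2),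
          expect_const hs]

lemma Box_mono_last (S : Sys ℤ Y μ) {K K' : ℕ} (hK : 1 ≤ K) (hK' : 1 ≤ K') (l : List ℕ)
    {f : Y → ℂ} (hf : B1 f) : box S (l ++ [K']) f ≤ box S (l ++ [K]) f + 4 * K / K' := by
  induction l generalizing f with
  | nil => exact Box_mono_one S hK hK' hf
  | cons L l ih =>
    simp only [List.cons_append, box]
    exact Box_expect_add _ (by positivity) fun h _ =>
      Box_expect_add _ (by positivity) fun h' _ => ih (hf.dl S _ _)

theorem box_mono (S : Sys ℤ Y μ) {K K' : ℕ} (hK : 1 ≤ K) (hK' : 1 ≤ K') (l : List ℕ) {f : Y → ℂ}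
    (hf : B1 f) : box S (K' :: l) f ≤ box S (K :: l) f + 4 * K / K' := by
  rw [← box_perm S (List.perm_append_singleton K l) hf,
    ← box_perm S (List.perm_append_singleton K' l) hf]
  exact Box_mono_last S hK hK' l hf

lemma Box_sq_one (S : Sys ℤ Y μ) {K : ℕ} (hK : 1 ≤ K) {f : Y → ℂ} (hf : B1 f) :
    ‖∫ y, f y ∂μ‖ ^ 2 ≤ box S [K] f := by
  have hs : (range K).Nonempty := nonempty_range_iff.2 (by omega)
  have hg := Box_avg_B1 S K hf
  have e : ∫ y, f y ∂μ = ∫ y, 1 * 𝔼 h ∈ range K, f (S.act (h : ℕ) y) ∂μ := by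
    simp only [one_mul]
    rw [integral_expect (range K) (f := fun (h : ℕ) y => f (S.act (h : ℕ) y))
      fun h _ => (hf.act S _).integrable,
      expect_congr rfl fun (h : ℕ) _ => integral_act S (h : ℤ) hf.1, expect_const hs]
  rw [box_one S K hf, e]
  exact sq_norm_integral_mul_le (g := fun _ => 1) hg.1 hg.2 fun _ => by simp

lemma Box_sq_last (S : Sys ℤ Y μ) {K : ℕ} (hK : 1 ≤ K) (l : List ℕ) {f : Y → ℂ} (hf : B1 f) :
    box S l f ^ 2 ≤ box S (l ++ [K]) f := by
  induction l generalizing f with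
  | nil =>
    refine le_trans ?_ (Box_sq_one S hK hf)
    simp only [box]
    rw [← sq_abs]
    exact pow_le_pow_left₀ (abs_nonneg _) (Complex.abs_re_le_norm _) 2
  | cons L l ih =>
    simp only [List.cons_append, box]
    exact (Box_sq_expect _ _).trans (expect_le_expect fun h _ =>
      (Box_sq_expect _ _).trans (expect_le_expect fun h' _ => ih (hf.dl S _ _)))

theorem box_sq_le (S : Sys ℤ Y μ) {K : ℕ} (hK : 1 ≤ K) (l : List ℕ) {f : Y → ℂ} (hf : B1 f) :
    box S l f ^ 2 ≤ box S (K :: l) f := by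
  rw [← box_perm S (List.perm_append_singleton K l) hf]
  exact Box_sq_last S hK l hf

theorem sq_norm_integral_le_box (S : Sys ℤ Y μ) {K : ℕ} (hK : 1 ≤ K) {f : Y → ℂ} (hf : B1 f) :
    ‖∫ y, f y ∂μ‖ ^ 2 ≤ box S [K] f := by
  exact Box_sq_one S hK hf

lemma Box_repl (S : Sys ℤ Y μ) {K' : ℕ} (hK' : 1 ≤ K') (l : List ℕ) (hl : ∀ K ∈ l, 1 ≤ K)
    (m : List ℕ) {f : Y → ℂ} (hf : B1 f) :
    box S (List.replicate l.length K' ++ m) f ≤ box S (l ++ m) f + 4 * (l.sum : ℝ) / K' := by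
  induction l generalizing m with
  | nil => simp
  | cons K l ih =>
    have h1 := box_mono S (hl K (by simp)) hK' (List.replicate l.length K' ++ m) hf
    have h2 := ih (fun k hk => hl k (by simp [hk])) (K :: m)
    rw [box_perm S List.perm_middle hf, box_perm S (l := l ++ K :: m) List.perm_middle hf] at h2
    simp only [List.length_cons, List.replicate_succ, List.cons_append, List.sum_cons,
      Nat.cast_add]
    rw [mul_add, add_div]
    linarith

lemma Box_bdd (S : Sys ℤ Y μ) (s : ℕ) {f : Y → ℂ} (hf : B1 f) :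
    BddBelow (Set.range fun K : ℕ => box S (List.replicate s (K + 1)) f) :=
  ⟨-1, by rintro _ ⟨K, rfl⟩; exact (abs_le.1 (abs_box_le S _ hf)).1⟩

theorem nrm_le (S : Sys ℤ Y μ) (l : List ℕ) (hl : ∀ K ∈ l, 1 ≤ K) {f : Y → ℂ} (hf : B1 f) :
    nrm S l.length f ≤ box S l f := by
  have h1 : Tendsto (fun K : ℕ => box S l f + 4 * (l.sum : ℝ) / ((K + 1 : ℕ) : ℝ)) atTop
      (𝓝 (box S l f + 0)) :=
    tendsto_const_nhds.add (tendsto_const_nhds.div_atTop
      (tendsto_natCast_atTop_atTop.comp (tendsto_add_atTop_nat 1)))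
  rw [add_zero] at h1
  refine ge_of_tendsto' h1 fun K => (ciInf_le (Box_bdd S _ hf) K).trans ?_
  simpa using Box_repl S (K' := K + 1) (by omega) l hl [] hf

theorem tendsto_nrm (S : Sys ℤ Y μ) (s : ℕ) {f : Y → ℂ} (hf : B1 f) :
    Tendsto (fun K => box S (List.replicate s K) f) atTop (𝓝 (nrm S s f)) := by
  refine tendsto_order.2 ⟨fun a ha => ?_, fun a ha => ?_⟩
  · filter_upwards [eventually_ge_atTop 1] with K hK
    refine ha.trans_le ?_
    simpa using nrm_le S (List.replicate s K) (fun k hk => by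
      rw [List.eq_of_mem_replicate hk]; exact hK) hf
  · obtain ⟨K₀, hK₀⟩ := exists_lt_of_ciInf_lt ha
    have h1 : Tendsto (fun K : ℕ => box S (List.replicate s (K₀ + 1)) f +
        4 * ((List.replicate s (K₀ + 1)).sum : ℝ) / (K : ℝ)) atTop
        (𝓝 (box S (List.replicate s (K₀ + 1)) f + 0)) :=
      tendsto_const_nhds.add (tendsto_const_nhds.div_atTop tendsto_natCast_atTop_atTop)
    rw [add_zero] at h1
    filter_upwards [eventually_ge_atTop 1, (tendsto_order.1 h1).2 a hK₀] with K hK h2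
    refine lt_of_le_of_lt ?_ h2
    have := Box_repl S hK (List.replicate s (K₀ + 1)) (fun k hk => by
      rw [List.eq_of_mem_replicate hk]; omega) [] hf
    rwa [List.length_replicate, List.append_nil, List.append_nil] at this

theorem nrm_nonneg (S : Sys ℤ Y μ) {s : ℕ} (hs : 1 ≤ s) {f : Y → ℂ} (hf : B1 f) :
    0 ≤ nrm S s f := by
  refine le_ciInf fun K => box_nonneg S (fun h => ?_) hf
  have := congrArg List.length h
  simp at this
  omega

theorem nrm_le_one (S : Sys ℤ Y μ) (s : ℕ) {f : Y → ℂ} (hf : B1 f) : nrm S s f ≤ 1 := by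
  exact (ciInf_le (Box_bdd S s hf) 0).trans (abs_le.1 (abs_box_le S _ hf)).2

theorem nrm_sq_le (S : Sys ℤ Y μ) (s : ℕ) {f : Y → ℂ} (hf : B1 f) :
    nrm S s f ^ 2 ≤ nrm S (s + 1) f := by
  refine le_of_tendsto_of_tendsto ((tendsto_nrm S s hf).pow 2) (tendsto_nrm S (s + 1) hf) ?_
  filter_upwards [eventually_ge_atTop 1] with K hK
  exact box_sq_le S hK _ hf

theorem nrm_conj (S : Sys ℤ Y μ) (s : ℕ) {f : Y → ℂ} (hf : B1 f) :
    nrm S s (fun y => conj (f y)) = nrm S s f := by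
  simp only [nrm, box_conj S _ hf]

end Pool.Agent.MP_357fb4_an
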