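import Pool.Agent.MP_357fb4_an.Basic
import Pool.Agent.MP_14ad9d_nt.Full.Mert

/-!
Elementary facts on rough numbers and harmonic sums.
-/

open scoped BigOperators Classical ComplexConjugate Polynomial
open Finset Filter MeasureTheory Topology

noncomputable section

namespace Pool.Agent.MP_357fb4_an

lemma Nu_mem {w z p : ℕ} : p ∈ PI w z ↔ w < p ∧ p ≤ z ∧ p.Prime := by
  simp [PI, and_assoc]

lemma Nu_fac {p : ℕ} (hp : 2 ≤ p) : 0 < 1 - 1 / (p : ℝ) ∧ 1 - 1 / (p : ℝ) ≤ 1 := by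
  have h : (2 : ℝ) ≤ p := by exact_mod_cast hp
  have h1 : 1 / (p : ℝ) ≤ 1 / 2 := one_div_le_one_div_of_le two_pos h
  have h2 : 0 ≤ 1 / (p : ℝ) := by positivity
  constructor <;> linarith

theorem Vp_pos (w z : ℕ) : 0 < Vp w z :=
  prod_pos fun _ hp => (Nu_fac (Nu_mem.1 hp).2.2.two_le).1

theorem Vp_le_one (w z : ℕ) : Vp w z ≤ 1 :=
  prod_le_one (fun _ hp => (Nu_fac (Nu_mem.1 hp).2.2.two_le).1.le)
    fun _ hp => (Nu_fac (Nu_mem.1 hp).2.2.two_le).2

lemma Nu_tele {z : ℕ} (hz : 1 ≤ z) : ∏ n ∈ Ioc 1 z, (1 - 1 / (n : ℝ)) = 1 / z := by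
  induction z, hz using Nat.le_induction with
  | base => simp
  | succ n hn ih =>
    rw [Finset.prod_Ioc_succ_top hn, ih]
    have : (0 : ℝ) < n := by exact_mod_cast hn
    push_cast
    field_simp
    ring

theorem inv_Vp_le (w : ℕ) {z : ℕ} (hz : 1 ≤ z) : (Vp w z)⁻¹ ≤ z := by
  have h0 : (0 : ℝ) < z := by exact_mod_cast hz
  have h : 1 / (z : ℝ) ≤ Vp w z := by
    rw [← Nu_tele hz]
    refine Finset.prod_le_prod_of_subset_of_le_one (fun p hp => ?_) (fun p hp => ?_)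
      fun p hp _ => ?_
    · exact mem_Ioc.2 ⟨(Nu_mem.1 hp).2.2.one_lt, (Nu_mem.1 hp).2.1⟩
    · exact (Nu_fac (mem_Ioc.1 hp).1).1.le
    · exact (Nu_fac (mem_Ioc.1 hp).1).2
  rw [inv_le_comm₀ (Vp_pos w z) h0, ← one_div]
  exact h

theorem log_le_inv_Vp (z : ℕ) : Real.log (z + 1) ≤ (Vp 0 z)⁻¹ := by
  let f : ℕ →* ℝ :=
    { toFun := fun n => (n : ℝ)⁻¹
      map_one' := by simp
      map_mul' := fun a b => by simp [mul_comm] }
  have hf : ∀ n, f n = (n : ℝ)⁻¹ := fun _ => rfl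
  have h := (EulerProduct.summable_and_hasSum_factoredNumbers_prod_filter_prime_geometric (f := f)
    (fun {p} hp => by
      rw [hf, norm_inv, Real.norm_natCast]
      exact inv_lt_one_of_one_lt₀ (by exact_mod_cast hp.one_lt)) (Ioc 0 z)).2
  have e : ∏ p ∈ Ioc 0 z with p.Prime, (1 - f p)⁻¹ = (Vp 0 z)⁻¹ := by
    rw [Vp, ← prod_inv_distrib]
    exact prod_congr rfl fun p _ => by rw [hf, one_div]
  rw [e] at h
  replace h := (hasSum_subtype_iff_indicator (f := fun n => f n)).1 h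
  have h1 := sum_le_hasSum (Icc 1 z) (fun n _ => Set.indicator_nonneg
    (fun m _ => by rw [hf]; positivity) n) h
  have h2 := log_add_one_le_harmonic z
  rw [harmonic_eq_sum_Icc] at h2
  push_cast at h2
  refine h2.trans (le_trans (le_of_eq (sum_congr rfl fun n hn => ?_)) h1)
  rw [Set.indicator_of_mem, hf]
  have hn' := mem_Icc.1 hn
  refine Nat.mem_factoredNumbers'.2 fun p hp hd => mem_Ioc.2 ⟨hp.pos, ?_⟩
  exact (Nat.le_of_dvd hn'.1 hd).trans hn'.2

theorem Vp_le_div {N u : ℕ} (hN : 2 ≤ N) (hu : 1 ≤ u) :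
    Vp 0 ⌊(N : ℝ) ^ (1 / u : ℝ)⌋₊ ≤ u / Real.log N := by
  have hN' : (1 : ℝ) < N := by exact_mod_cast hN
  have hu' : (0 : ℝ) < u := by exact_mod_cast hu
  have hl := Real.log_pos hN'
  have h1 := log_le_inv_Vp ⌊(N : ℝ) ^ (1 / u : ℝ)⌋₊
  have h2 : Real.log ((N : ℝ) ^ (1 / u : ℝ)) ≤ Real.log (⌊(N : ℝ) ^ (1 / u : ℝ)⌋₊ + 1) :=
    Real.log_le_log (by positivity) (Nat.lt_floor_add_one _).le
  rw [Real.log_rpow (by linarith)] at h2
  have h3 : (u / Real.log N)⁻¹ ≤ (Vp 0 ⌊(N : ℝ) ^ (1 / u : ℝ)⌋₊)⁻¹ := by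
    refine le_trans (le_of_eq ?_) (h2.trans h1)
    field_simp
  exact (inv_le_inv₀ (by positivity) (Vp_pos _ _)).1 h3

theorem nuI_nonneg (w z : ℕ) (n : ℤ) : 0 ≤ nuI w z n := by
  unfold nuI
  split_ifs
  · exact (inv_pos.2 (Vp_pos w z)).le
  · exact le_rfl

theorem nuI_le (w z : ℕ) (n : ℤ) : nuI w z n ≤ (Vp w z)⁻¹ := by
  unfold nuI
  split_ifs
  · exact le_rfl
  · exact (inv_pos.2 (Vp_pos w z)).le

theorem nuI_split {w z : ℕ} (h : w ≤ z) (n : ℤ) : nuI 0 z n = nuI 0 w n * nuI w z n := by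
  have hU : PI 0 z = PI 0 w ∪ PI w z := by
    ext p
    simp only [mem_union, Nu_mem]
    constructor
    · rintro ⟨a, b, c⟩
      rcases le_or_gt p w with d | d
      · exact Or.inl ⟨a, d, c⟩
      · exact Or.inr ⟨d, b, c⟩
    · rintro (⟨a, b, c⟩ | ⟨a, b, c⟩)
      · exact ⟨a, b.trans h, c⟩
      · exact ⟨c.pos, b, c⟩
  have hD : Disjoint (PI 0 w) (PI w z) := disjoint_left.2 fun p h1 h2 =>
    absurd (Nu_mem.1 h1).2.1 (not_le.2 (Nu_mem.1 h2).1)
  have hV : Vp 0 z = Vp 0 w * Vp w z := by rw [Vp, hU, prod_union hD]; rfl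
  have hR : Rough 0 z n ↔ Rough 0 w n ∧ Rough w z n := by
    unfold Rough
    rw [hU, forall_mem_union]
  unfold nuI
  rw [hV, mul_inv]
  by_cases h1 : Rough 0 w n <;> by_cases h2 : Rough w z n <;> simp [hR, h1, h2]

theorem nuI_per (w : ℕ) (n k : ℤ) : nuI 0 w (n + primorial w * k) = nuI 0 w n := by
  have hR : Rough 0 w (n + primorial w * k) ↔ Rough 0 w n := by
    refine forall₂_congr fun p hp => not_congr ?_
    have hd : (p : ℤ) ∣ primorial w * k := Dvd.dvd.mul_right (Int.natCast_dvd_natCast.2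
      ((Nu_mem.1 hp).2.2.dvd_primorial_iff.2 (Nu_mem.1 hp).2.1)) k
    exact (dvd_add_left hd)
  unfold nuI
  simp only [hR]

lemma Nu_cop (w b : ℕ) : Rough 0 w b ↔ (primorial w).Coprime b := by
  constructor
  · intro h
    refine Nat.coprime_of_dvd fun p hp h1 h2 => ?_
    exact h p (Nu_mem.2 ⟨hp.pos, hp.dvd_primorial_iff.1 h1, hp⟩) (Int.natCast_dvd_natCast.2 h2)
  · intro h p hp hd
    obtain ⟨-, a, c⟩ := Nu_mem.1 hp
    exact c.one_lt.ne' (Nat.eq_one_of_dvd_coprimes h (c.dvd_primorial_iff.2 a)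
      (Int.natCast_dvd_natCast.1 hd))

theorem nuI_period_sum (w : ℕ) : ∑ b ∈ range (primorial w), nuI 0 w b = primorial w := by
  have h1 : ∑ b ∈ range (primorial w), nuI 0 w b = Nat.totient (primorial w) * (Vp 0 w)⁻¹ := by
    unfold nuI
    rw [← sum_filter, sum_const, nsmul_eq_mul, Nat.totient_eq_card_coprime]
    congr 3
    exact filter_congr fun b _ => Nu_cop w b
  have h2 : (Nat.totient (primorial w) : ℝ) = primorial w * Vp 0 w := by
    have := congrArg (fun q : ℚ => (q : ℝ)) (Nat.totient_eq_mul_prod_factors (primorial w))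
    push_cast at this
    rw [this, Vp]
    congr 1
    refine prod_congr ?_ fun p _ => by rw [one_div]
    ext p
    rw [Nat.mem_primeFactors, Nu_mem]
    exact ⟨fun h => ⟨h.1.pos, h.1.dvd_primorial_iff.1 h.2.1, h.1⟩,
      fun h => ⟨h.2.2, h.2.2.dvd_primorial_iff.2 h.2.1, primorial_ne_zero w⟩⟩
  rw [h1, h2, mul_assoc, mul_inv_cancel₀ (Vp_pos 0 w).ne', mul_one]

lemma Nu_win (w : ℕ) (a : ℤ) :
    ∑ b ∈ range (primorial w), nuI 0 w (a + b) = primorial w := by
  have step : ∀ a : ℤ, ∑ b ∈ range (primorial w), nuI 0 w (a + 1 + b) =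
      ∑ b ∈ range (primorial w), nuI 0 w (a + b) := by
    intro a
    have e1 := sum_range_succ (fun b : ℕ => nuI 0 w (a + b)) (primorial w)
    have e2 := sum_range_succ' (fun b : ℕ => nuI 0 w (a + b)) (primorial w)
    have e3 := nuI_per w a 1
    simp only [mul_one] at e3
    simp only [Nat.cast_zero, add_zero] at e2
    rw [e3, e2, add_left_inj] at e1
    rw [← e1]
    refine sum_congr rfl fun b _ => ?_
    congr 1
    push_cast
    ring
  induction a using Int.induction_on with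
  | zero => simpa using nuI_period_sum w
  | succ i ih => rw [step, ih]
  | pred i ih => rw [← step, sub_add_cancel, ih]

lemma Nu_mean (w L : ℕ) : ∀ a : ℤ, ∑ b ∈ range L, nuI 0 w (a + b) ≤ L + primorial w := by
  induction L using Nat.strong_induction_on with
  | _ L ih =>
    intro a
    rcases le_or_gt L (primorial w) with h | h
    · have := sum_le_sum_of_subset_of_nonneg (f := fun b : ℕ => nuI 0 w (a + b))
        (range_subset_range.2 h) fun b _ _ => nuI_nonneg _ _ _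
      rw [Nu_win] at this
      linarith [(Nat.cast_nonneg L : (0 : ℝ) ≤ L)]
    · obtain ⟨M, rfl⟩ := Nat.exists_eq_add_of_le h.le
      rw [sum_range_add, Nu_win]
      have := ih M (by have := primorial_pos w; omega) (a + primorial w)
      have e : ∑ b ∈ range M, nuI 0 w (a + (primorial w + b : ℕ)) =
          ∑ b ∈ range M, nuI 0 w (a + primorial w + b) :=
        sum_congr rfl fun b _ => by push_cast; rw [add_assoc]
      rw [e]
      push_cast
      linarith

theorem nuI_mean (w L : ℕ) (a : ℤ) : ∑ x ∈ Ico a (a + L), nuI 0 w x ≤ L + primorial w := by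
  refine le_trans (le_of_eq ?_) (Nu_mean w L a)
  symm
  refine sum_nbij' (fun b : ℕ => a + b) (fun x => (x - a).toNat) ?_ ?_ ?_ ?_ fun _ _ => rfl
  · intro b hb
    simp only [mem_range, mem_Ico] at hb ⊢
    omega
  · intro b hb
    simp only [mem_range, mem_Ico] at hb ⊢
    omega
  · intro b _
    simp
  · intro b hb
    simp only [mem_Ico] at hb ⊢
    omega

theorem Rough.mono {z z' : ℕ} (h : z ≤ z') {n : ℤ} (hn : Rough 0 z' n) : Rough 0 z n :=
  fun p hp => hn p (Nu_mem.2 ⟨(Nu_mem.1 hp).1, (Nu_mem.1 hp).2.1.trans h, (Nu_mem.1 hp).2.2⟩)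

theorem rough_prime {z p : ℕ} (hp : p.Prime) (h : z < p) : Rough 0 z p := by
  intro q hq hd
  obtain ⟨-, a, c⟩ := Nu_mem.1 hq
  have := (Nat.prime_dvd_prime_iff_eq c hp).1 (Int.natCast_dvd_natCast.1 hd)
  omega

theorem rough_mul {z : ℕ} {a b : ℤ} : Rough 0 z (a * b) ↔ Rough 0 z a ∧ Rough 0 z b := by
  refine ⟨fun h => ⟨fun p hp hd => h p hp (hd.mul_right b), fun p hp hd => h p hp (hd.mul_left a)⟩,
    fun h p hp hd => ?_⟩
  rcases (Nat.prime_iff_prime_int.1 (Nu_mem.1 hp).2.2).dvd_or_dvd hd with d | d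
  · exact h.1 p hp d
  · exact h.2 p hp d

theorem Rough.lt {z n : ℕ} (hn : Rough 0 z n) (h1 : n ≠ 1) (hz : 2 ≤ z) : z < n := by
  by_contra hc
  rcases Nat.eq_zero_or_pos n with rfl | h0
  · exact hn 2 (Nu_mem.2 ⟨two_pos, hz, Nat.prime_two⟩) (by simp)
  · have hp := Nat.minFac_prime h1
    exact hn _ (Nu_mem.2 ⟨hp.pos, (Nat.minFac_le h0).trans (not_lt.1 hc), hp⟩)
      (Int.natCast_dvd_natCast.2 (Nat.minFac_dvd n))

theorem harm_le {a b : ℕ} (ha : 1 ≤ a) (hab : a ≤ b) :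
    ∑ n ∈ Ioc a b, (1 : ℝ) / n ≤ Real.log b - Real.log a := by
  induction b, hab using Nat.le_induction with
  | base => simp
  | succ n hn ih =>
    rw [Finset.sum_Ioc_succ_top hn]
    have h0 : (0 : ℝ) < n := by exact_mod_cast ha.trans hn
    have h1 := Real.log_le_sub_one_of_pos (x := (n : ℝ) / (n + 1)) (by positivity)
    rw [Real.log_div h0.ne' (by positivity)] at h1
    have h2 : (n : ℝ) / (n + 1) - 1 = -(1 / (n + 1)) := by field_simp; ring
    push_cast
    linarith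

theorem harm_le' (a b : ℕ) : ∑ n ∈ Ioc a b, (1 : ℝ) / n ≤ 1 + Real.log b := by
  have h := harmonic_le_one_add_log b
  rw [harmonic_eq_sum_Icc] at h
  push_cast at h
  refine le_trans ?_ h
  simp only [one_div]
  refine sum_le_sum_of_subset_of_nonneg (fun n hn => ?_) fun n _ _ => by positivity
  have := mem_Ioc.1 hn
  exact mem_Icc.2 ⟨by omega, this.2⟩

theorem prime_recip : ∃ C : ℝ, ∀ y : ℝ, 1 ≤ y → ∀ s : Finset ℕ,
    (∀ p ∈ s, p.Prime ∧ y < p ∧ (p : ℝ) ≤ y ^ 2) → ∑ p ∈ s, (1 : ℝ) / p ≤ C := by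
  refine ⟨16, fun y hy s hs => ?_⟩
  rcases lt_or_ge y 2 with h | h
  · have h1 : s ⊆ range 4 := fun p hp => mem_range.2 (by
      have : (p : ℝ) < (4 : ℕ) := by
        have := (hs p hp).2.2
        push_cast
        nlinarith
      exact_mod_cast this)
    refine (sum_le_sum_of_subset_of_nonneg h1 fun n _ _ => by positivity).trans ?_
    simp only [sum_range_succ]
    norm_num
  · have hl : 0 < Real.log y := Real.log_pos (by linarith)
    have h1 := MP_14ad9d_nt.Full.MertAux.cheb8 (y ^ 2) (by nlinarith) s fun p hp =>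
      ⟨(hs p hp).1, (hs p hp).2.2⟩
    rw [Real.log_pow] at h1
    have h2 : (∑ p ∈ s, (1 : ℝ) / p) * Real.log y ≤ 16 * Real.log y := by
      rw [sum_mul]
      refine le_trans (sum_le_sum fun p hp => ?_) (h1.trans (le_of_eq (by push_cast; ring)))
      rw [one_div_mul_eq_div]
      exact div_le_div_of_nonneg_right (Real.log_le_log (by linarith) (hs p hp).2.1.le)
        p.cast_nonneg
    exact le_of_mul_le_mul_right h2 hl

end Pool.Agent.MP_357fb4_an
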