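import Pool.Agent.MP_357fb4_an.FL
import Pool.Agent.MP_357fb4_an.Nu
import Pool.Agent.GT.MBox

/-!
The linear forms estimate for rough numbers.
-/

open scoped BigOperators Classical ComplexConjugate Polynomial
open Finset Filter MeasureTheory Topology

noncomputable section

namespace Pool.Agent.MP_357fb4_an

section aux

open Pool.Agent.GT

/-- Some form vanishes modulo q. -/
def BoxFL_Z {I T : Type} [Fintype T] (c : I → T → ℤ) (W : ℤ) (b : I → ℤ) (q : ℕ)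
    (x : T → ZMod q) : Prop :=
  ∃ i, (W : ZMod q) * ∑ v, (c i v : ZMod q) * x v + (b i : ZMod q) = 0

/-- Some form is divisible by q. -/
def BoxFL_E {I T : Type} [Fintype T] (c : I → T → ℤ) (W : ℤ) (b : I → ℤ) (q : ℕ)
    (x : T → ℤ) : Prop :=
  ∃ i, (q : ℤ) ∣ W * ∑ v, c i v * x v + b i

lemma BoxFL_E_iff {I T : Type} [Fintype T] (c : I → T → ℤ) (W : ℤ) (b : I → ℤ) (q : ℕ)
    (x : T → ℕ) : BoxFL_E c W b q (fun v => (x v : ℤ)) ↔
      BoxFL_Z c W b q (fun v => (x v : ZMod q)) := by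
  refine exists_congr fun i => ?_
  rw [← ZMod.intCast_zmod_eq_zero_iff_dvd]
  push_cast
  rfl

lemma BoxFL_E_congr {I T : Type} [Fintype T] (c : I → T → ℤ) (W : ℤ) (b : I → ℤ) (q : ℕ)
    {x y : T → ℤ} (h : ∀ v, (q : ℤ) ∣ x v - y v) : BoxFL_E c W b q x ↔ BoxFL_E c W b q y := by
  refine exists_congr fun i => dvd_iff_dvd_of_dvd_sub ?_
  have e : W * ∑ v, c i v * x v + b i - (W * ∑ v, c i v * y v + b i) =
      W * ∑ v, c i v * (x v - y v) := by
    simp only [mul_sub, sum_sub_distrib]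
    ring
  rw [e]
  exact Dvd.dvd.mul_left (dvd_sum fun v _ => Dvd.dvd.mul_left (h v) _) _

lemma BoxFL_close {I T : Type} [Fintype I] [Fintype T] {c : I → T → ℤ} {K : ℕ} (hc : Sep c K)
    {p : ℕ} (hp : p.Prime) (hK : K < p) {W : ℤ} (hW : ¬ (p : ℤ) ∣ W) (b : I → ℤ) :
    |1 - pr (BoxFL_Z c W b p) - (1 - 1 / (p : ℝ)) ^ Fintype.card I| ≤
      4 ^ Fintype.card I / (p : ℝ) ^ 2 := by
  have : NeZero p := ⟨hp.ne_zero⟩
  have h := forms_close hc hp hK hW b (fun _ => false)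
  rw [pr_congr (Q := fun x => ¬ BoxFL_Z c W b p x) fun x => by simp [BoxFL_Z], pr_not] at h
  simpa using h

lemma BoxFL_g_le {I T : Type} [Fintype I] [Fintype T] {c : I → T → ℤ} {K n : ℕ} (hc : Sep c K)
    (hn : Fintype.card I ≤ n) {p : ℕ} (hp : p.Prime) (hK : K < p) {W : ℤ} (hW : ¬ (p : ℤ) ∣ W)
    (b : I → ℤ) : pr (BoxFL_Z c W b p) ≤ ((n : ℝ) + 4 ^ n) * (1 / p) := by
  have h := (abs_le.1 (BoxFL_close hc hp hK hW b)).1
  have hp1 : (1 : ℝ) ≤ p := by exact_mod_cast hp.one_le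
  have hp0 : (0 : ℝ) < p := by linarith
  have h1 := MLocal_le_pow (x := 1 / (p : ℝ)) (by rw [div_le_one hp0]; exact hp1)
    (Fintype.card I)
  have h2 : (4 : ℝ) ^ Fintype.card I / (p : ℝ) ^ 2 ≤ 4 ^ n * (1 / p) := by
    rw [mul_one_div]
    have : (4 : ℝ) ^ Fintype.card I ≤ 4 ^ n := pow_le_pow_right₀ (by norm_num) hn
    have : (p : ℝ) ≤ (p : ℝ) ^ 2 := by nlinarith
    gcongr
  have h3 : (Fintype.card I : ℝ) * (1 / p) ≤ n * (1 / p) := by
    have : (Fintype.card I : ℝ) ≤ n := by exact_mod_cast hn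
    gcongr
  linarith

lemma BoxFL_blk {p z : ℕ} (hp : 2 ≤ p) (hz : p ≤ z) :
    p ^ 2 ^ Nat.log 2 (Nat.log p z) ≤ z ∧ z < p ^ 2 ^ (Nat.log 2 (Nat.log p z) + 1) := by
  have h1 : 0 < Nat.log p z := Nat.log_pos hp hz
  constructor
  · refine le_trans (Nat.pow_le_pow_right (by omega) (Nat.pow_log_le_self 2 h1.ne')) ?_
    exact Nat.pow_log_le_self p (by omega)
  · refine lt_of_lt_of_le (Nat.lt_pow_succ_log_self hp z) ?_
    exact Nat.pow_le_pow_right (by omega) (Nat.lt_pow_succ_log_self (by norm_num) _)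

lemma BoxFL_block {C : ℝ} (hC : ∀ y : ℝ, 1 ≤ y → ∀ s : Finset ℕ,
    (∀ p ∈ s, p.Prime ∧ y < p ∧ (p : ℝ) ≤ y ^ 2) → ∑ p ∈ s, (1 : ℝ) / p ≤ C) (w z j : ℕ)
    (hz : 1 ≤ z) :
    ∑ p ∈ univ.filter (fun p : PP w z => Nat.log 2 (Nat.log p z) = j), (1 : ℝ) / (p : ℕ) ≤ C := by
  have hz' : (1 : ℝ) ≤ z := by exact_mod_cast hz
  set y : ℝ := (z : ℝ) ^ (((2 ^ (j + 1) : ℕ) : ℝ)⁻¹) with hy
  have hy1 : 1 ≤ y := Real.one_le_rpow hz' (by positivity)
  have hyz : y ^ 2 ^ (j + 1) = z := Real.rpow_inv_natCast_pow (by positivity) (by positivity)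
  have := hC y hy1 ((univ.filter fun p : PP w z => Nat.log 2 (Nat.log p z) = j).map
    (Function.Embedding.subtype _)) fun q hq => by
      obtain ⟨p, hp, rfl⟩ := mem_map.1 hq
      have hb := BoxFL_blk (MBasic_prime p).two_le (MBasic_le p)
      rw [(mem_filter.1 hp).2] at hb
      refine ⟨MBasic_prime p, ?_, ?_⟩
      · refine lt_of_pow_lt_pow_left₀ (2 ^ (j + 1)) (Nat.cast_nonneg _) ?_
        rw [hyz]
        exact_mod_cast hb.2
      · refine le_of_pow_le_pow_left₀ (n := 2 ^ j) (by positivity) (by positivity) ?_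
        rw [← pow_mul, ← pow_succ', hyz]
        exact_mod_cast hb.1
  rwa [sum_map] at this

lemma BoxFL_geo (k N : ℕ) : ∑ j ∈ range N, ((2 * (k + j) + 1 : ℕ) : ℝ) / 2 ^ j =
    4 * k + 6 - (4 * k + 6 + 4 * N) / 2 ^ N := by
  induction N with
  | zero => simp
  | succ N ih =>
    rw [sum_range_succ, ih]
    push_cast
    field_simp
    ring

lemma BoxFL_prod_le {w z k : ℕ} (hz : 1 ≤ z) (S : Finset (PP w z))
    (hS : ∀ j, (S.filter fun p : PP w z => Nat.log 2 (Nat.log p z) = j).card ≤ 2 * (k + j) + 1) :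
    ∏ p ∈ S, (p : ℕ) ≤ z ^ (4 * k + 6) := by
  have hz' : (1 : ℝ) ≤ z := by exact_mod_cast hz
  have hl : 0 ≤ Real.log z := Real.log_nonneg hz'
  have h1 : ∑ p ∈ S, Real.log (p : ℕ) ≤ (4 * k + 6 : ℕ) * Real.log z := by
    rw [← sum_fiberwise_of_maps_to (t := range z)
      (g := fun p : PP w z => Nat.log 2 (Nat.log p z)) fun p _ => mem_range.2
        (lt_of_le_of_lt (Nat.log_le_self _ _) (Nat.log_lt_self _ (by omega)))]
    calc _ ≤ ∑ j ∈ range z, ((2 * (k + j) + 1 : ℕ) : ℝ) / 2 ^ j * Real.log z := by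
          refine sum_le_sum fun j _ => ?_
          refine (sum_le_card_nsmul _ _ (Real.log z / 2 ^ j) fun p hp => ?_).trans ?_
          · have hb := (BoxFL_blk (MBasic_prime p).two_le (MBasic_le p)).1
            rw [(mem_filter.1 hp).2] at hb
            have hb' : ((p : ℕ) : ℝ) ^ 2 ^ j ≤ z := by exact_mod_cast hb
            have hp0 : (0 : ℝ) < (p : ℕ) := by exact_mod_cast (MBasic_prime p).pos
            have := Real.log_le_log (by positivity) hb'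
            rw [Real.log_pow] at this
            rw [le_div_iff₀ (by positivity)]
            push_cast at this
            linarith
          · rw [nsmul_eq_mul, div_mul_eq_mul_div, mul_div_assoc]
            have : ((S.filter fun p : PP w z => Nat.log 2 (Nat.log p z) = j).card : ℝ) ≤
                ((2 * (k + j) + 1 : ℕ) : ℝ) := by exact_mod_cast hS j
            gcongr
      _ ≤ _ := by
          rw [← sum_mul, BoxFL_geo]
          have : (0 : ℝ) ≤ (4 * k + 6 + 4 * z) / 2 ^ z := by positivity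
          push_cast
          gcongr
          linarith
  rw [← Real.log_pow, ← Real.log_prod fun p _ => by
    exact_mod_cast (MBasic_prime p).ne_zero] at h1
  have h2 := (Real.log_le_log_iff (prod_pos fun p _ => by
    exact_mod_cast (MBasic_prime p).pos) (by positivity)).1 h1
  exact_mod_cast h2

lemma BoxFL_err {w z H : ℕ} (hH : 1 ≤ H) {I T : Type} [Fintype T] (c : I → T → ℤ) (W : ℤ)
    (b : I → ℤ) (S : Finset (PP w z)) :
    |pr (fun h : T → Fin H => ∀ p ∈ S, BoxFL_E c W b (p : ℕ) fun v => ((h v : ℕ) : ℤ)) -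
      ∏ p ∈ S, pr (BoxFL_Z c W b (p : ℕ))| ≤
      2 * Fintype.card T * ((∏ p ∈ S, (p : ℕ) : ℕ) : ℝ) / H := by
  have : ∀ p : PP w z, NeZero (p : ℕ) := fun p => ⟨(MBasic_prime p).ne_zero⟩
  have key := box_periodic (T := T) (fun x => ind (∀ p ∈ S, BoxFL_E c W b (p : ℕ) x))
    (d := ∏ p ∈ S, (p : ℕ)) (D := ∏ p : PP w z, (p : ℕ)) (H := H)
    (MBasic_prod_pos _) (prod_dvd_prod_of_subset _ _ _ (subset_univ S)) hH
    (fun x => abs_ind_le_one _) (fun x y hxy => ind_congr (forall₂_congr fun p hp =>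
      BoxFL_E_congr c W b _ fun v => (Int.natCast_dvd_natCast.2
        (dvd_prod_of_mem (fun p : PP w z => (p : ℕ)) hp)).trans (hxy v)))
  have e1 : av (fun h : T → Fin (∏ p : PP w z, (p : ℕ)) =>
      ind (∀ p ∈ S, BoxFL_E c W b (p : ℕ) fun v => ((h v : ℕ) : ℤ))) =
      ∏ p ∈ S, pr (BoxFL_Z c W b (p : ℕ)) := by
    have e2 := crt_av (T := T) (fun p : PP w z => (p : ℕ)) (fun p => (MBasic_prime p).pos)
      (fun p p' h => (Nat.coprime_primes (MBasic_prime p) (MBasic_prime p')).2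
        fun e => h (Subtype.ext e))
      (fun x => ∏ p : PP w z, if p ∈ S then ind (BoxFL_Z c W b (p : ℕ) (x p)) else 1)
    rw [av_pi_prod (f := fun (p : PP w z) (a : T → ZMod (p : ℕ)) =>
      if p ∈ S then ind (BoxFL_Z c W b (p : ℕ) a) else 1)] at e2
    have e3 : (∏ p : PP w z, av fun a : T → ZMod (p : ℕ) =>
        if p ∈ S then ind (BoxFL_Z c W b (p : ℕ) a) else 1) =
        ∏ p : PP w z, if p ∈ S then pr (BoxFL_Z c W b (p : ℕ)) else 1 :=
      prod_congr rfl fun p _ => by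
        split_ifs
        · rfl
        · exact av_const _
    rw [e3, prod_ite_mem, univ_inter] at e2
    rw [← e2]
    refine av_congr fun h => ?_
    rw [prod_ite_mem, univ_inter, ind_forall]
    exact prod_congr rfl fun p _ => ind_congr (BoxFL_E_iff c W b _ fun v => (h v : ℕ))
  rw [← e1]
  exact key

lemma BoxFL_sum {w z H k : ℕ} (hz : 1 ≤ z) (hH : 1 ≤ H) {I T : Type} [Fintype T]
    (c : I → T → ℤ) (W : ℤ) (b : I → ℤ) :
    ∑ S ∈ univ.filter (fun S : Finset (PP w z) => ∀ j,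
      (S.filter fun p : PP w z => Nat.log 2 (Nat.log p z) = j).card ≤ 2 * (k + j) + 1),
      |pr (fun h : T → Fin H => ∀ p ∈ S, BoxFL_E c W b (p : ℕ) fun v => ((h v : ℕ) : ℤ)) -
        ∏ p ∈ S, pr (BoxFL_Z c W b (p : ℕ))| ≤
      (z : ℝ) ^ (4 * k + 6) * (2 * Fintype.card T * (z : ℝ) ^ (4 * k + 6) / H) := by
  refine (sum_le_card_nsmul _ _ (2 * Fintype.card T * (z : ℝ) ^ (4 * k + 6) / H)
    fun S hS => (BoxFL_err hH c W b S).trans ?_).trans ?_
  · have : ((∏ p ∈ S, (p : ℕ) : ℕ) : ℝ) ≤ (z : ℝ) ^ (4 * k + 6) := by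
      exact_mod_cast BoxFL_prod_le hz S (mem_filter.1 hS).2
    gcongr
  · rw [nsmul_eq_mul]
    have h : #(univ.filter fun S : Finset (PP w z) => ∀ j,
        (S.filter fun p : PP w z => Nat.log 2 (Nat.log p z) = j).card ≤ 2 * (k + j) + 1) ≤
        #(Icc 1 (z ^ (4 * k + 6))) :=
      card_le_card_of_injOn (fun S => ∏ p ∈ S, (p : ℕ))
        (fun S hS => by
          simp only [coe_Icc, Set.mem_Icc]
          exact ⟨MBasic_prod_pos S, BoxFL_prod_le hz S (mem_filter.1 hS).2⟩)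
        fun S _ T _ h => MBasic_prod_inj h
    rw [Nat.card_Icc, Nat.add_sub_cancel] at h
    have h' : (#(univ.filter fun S : Finset (PP w z) => ∀ j,
        (S.filter fun p : PP w z => Nat.log 2 (Nat.log p z) = j).card ≤ 2 * (k + j) + 1) : ℝ) ≤
        (z : ℝ) ^ (4 * k + 6) := by exact_mod_cast h
    gcongr

lemma BoxFL_nu (w z : ℕ) {I T : Type} [Fintype I] [Fintype T] (c : I → T → ℤ) (W : ℤ)
    (b : I → ℤ) (x : T → ℤ) : ∏ i, nuI w z (W * ∑ v, c i v * x v + b i) =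
      ind (∀ p : PP w z, ¬ BoxFL_E c W b (p : ℕ) x) * (Vp w z)⁻¹ ^ Fintype.card I := by
  by_cases h : ∀ p : PP w z, ¬ BoxFL_E c W b (p : ℕ) x
  · rw [ind_of h, one_mul, ← card_univ, ← prod_const]
    exact prod_congr rfl fun i _ => if_pos fun p hp hd => h ⟨p, hp⟩ ⟨i, hd⟩
  · rw [ind_of_not h, zero_mul]
    push Not at h
    obtain ⟨p, i, hd⟩ := h
    exact prod_eq_zero (mem_univ i) (if_neg fun hr => hr p p.2 hd)

lemma BoxFL_prod_close {ι : Type} (s : Finset ι) (a d : ι → ℝ) (h : ∀ i, |a i - 1| ≤ d i) :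
    |∏ i ∈ s, a i - 1| ≤ ∏ i ∈ s, (1 + d i) - 1 := by
  induction s using Finset.induction_on with
  | empty => simp
  | insert i s hi ih =>
    rw [prod_insert hi, prod_insert hi]
    have e : a i * ∏ j ∈ s, a j - 1 =
        (a i - 1) * (∏ j ∈ s, a j - 1) + (a i - 1) + (∏ j ∈ s, a j - 1) := by ring
    have h1 := abs_add_three ((a i - 1) * (∏ j ∈ s, a j - 1)) (a i - 1) (∏ j ∈ s, a j - 1)
    have h2 : |(a i - 1) * (∏ j ∈ s, a j - 1)| ≤ d i * (∏ j ∈ s, (1 + d j) - 1) := by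
      rw [abs_mul]
      exact mul_le_mul (h i) ih (abs_nonneg _) ((abs_nonneg _).trans (h i))
    rw [e]
    have := h i
    nlinarith

lemma BoxFL_main {w z K n : ℕ} (hK : K ≤ w) {I T : Type} [Fintype I] [Fintype T]
    (hn : Fintype.card I ≤ n) {c : I → T → ℤ} (hc : Sep c K) {W : ℤ}
    (hW : ∀ p : ℕ, p.Prime → w < p → ¬ (p : ℤ) ∣ W) (b : I → ℤ) :
    |(∏ p : PP w z, (1 - pr (BoxFL_Z c W b (p : ℕ)))) * (Vp w z)⁻¹ ^ Fintype.card I - 1| ≤
      ∏ p : PP w z, (1 + (8 : ℝ) ^ n / ((p : ℕ) : ℝ) ^ 2) - 1 := by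
  have e : Vp w z = ∏ p : PP w z, (1 - 1 / ((p : ℕ) : ℝ)) :=
    (prod_coe_sort (PP w z) fun p => 1 - 1 / (p : ℝ)).symm
  rw [e, ← prod_inv_distrib, ← prod_pow, ← prod_mul_distrib]
  refine BoxFL_prod_close _ _ _ fun p => ?_
  have h := BoxFL_close hc (MBasic_prime p) (lt_of_le_of_lt hK (MBasic_lt p))
    (hW p (MBasic_prime p) (MBasic_lt p)) b
  have hp := MBasic_two_le p
  have h1 : (1 : ℝ) / 2 ≤ 1 - 1 / ((p : ℕ) : ℝ) := by
    have : 1 / ((p : ℕ) : ℝ) ≤ 1 / 2 := one_div_le_one_div_of_le (by norm_num) hp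
    linarith
  set u : ℝ := 1 - 1 / ((p : ℕ) : ℝ)
  have u0 : 0 < u := by linarith
  have h2 : u⁻¹ ≤ 2 := by
    rw [inv_le_comm₀ u0 (by norm_num)]
    linarith
  have e2 : (1 - pr (BoxFL_Z c W b (p : ℕ))) * u⁻¹ ^ Fintype.card I - 1 =
      (1 - pr (BoxFL_Z c W b (p : ℕ)) - u ^ Fintype.card I) * u⁻¹ ^ Fintype.card I := by
    rw [sub_mul _ (u ^ _), ← mul_pow, mul_inv_cancel₀ u0.ne', one_pow]
  rw [e2, abs_mul, abs_of_nonneg (a := u⁻¹ ^ _) (by positivity)]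
  calc _ ≤ 4 ^ Fintype.card I / ((p : ℕ) : ℝ) ^ 2 * 2 ^ Fintype.card I := by gcongr
    _ = 8 ^ Fintype.card I / ((p : ℕ) : ℝ) ^ 2 := by
      rw [div_mul_eq_mul_div, ← mul_pow]
      norm_num
    _ ≤ _ := by
      have : (8 : ℝ) ^ Fintype.card I ≤ 8 ^ n := pow_le_pow_right₀ (by norm_num) hn
      gcongr

end aux

open Pool.Agent.GT in
theorem box_fl (n K : ℕ) : ∃ A k₀ : ℕ, ∀ ε : ℝ, 0 < ε → ∃ w₀ : ℕ, ∀ w z H k : ℕ, w₀ ≤ w → k₀ ≤ k →
    2 ≤ z → 1 ≤ H → ∀ (I T : Type) [Fintype I] [Fintype T], Fintype.card I ≤ n →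
      ∀ c : I → T → ℤ, Sep c K → ∀ W : ℤ, (∀ p : ℕ, p.Prime → w < p → ¬ (p : ℤ) ∣ W) →
        ∀ b : I → ℤ,
          |av (fun h : T → Fin H => ∏ i, nuI w z (W * ∑ v, c i v * ((h v : ℕ) : ℤ) + b i)) - 1| ≤
            ε + 16 / 2 ^ k + Fintype.card T * (z : ℝ) ^ (A * (k + 1)) / H := by
  obtain ⟨C, hC⟩ := prime_recip
  obtain ⟨k₀, hk₀⟩ := fl (((n : ℝ) + 4 ^ n) * C)
  refine ⟨n + 15, k₀, fun ε hε => ?_⟩
  obtain ⟨w₁, hw₁⟩ := tail_small ((8 : ℝ) ^ n) (lt_min hε one_pos)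
  refine ⟨max (max K w₁) (2 * (n + 4 ^ n)), fun w z H k hw hk hz hH I T _ _ hn c hc W hW b => ?_⟩
  have hK : K ≤ w := (le_max_left _ _).trans ((le_max_left _ _).trans hw)
  have hw1 : w₁ ≤ w := (le_max_right _ _).trans ((le_max_left _ _).trans hw)
  have hw2 : 2 * (n + 4 ^ n) ≤ w := (le_max_right _ _).trans hw
  have : Nonempty (Fin H) := ⟨⟨0, hH⟩⟩
  have : ∀ p : PP w z, NeZero (p : ℕ) := fun p => ⟨(MBasic_prime p).ne_zero⟩
  have hg : ∀ p : PP w z, pr (BoxFL_Z c W b (p : ℕ)) ≤ ((n : ℝ) + 4 ^ n) * (1 / (p : ℕ)) :=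
    fun p => BoxFL_g_le hc hn (MBasic_prime p) (lt_of_le_of_lt hK (MBasic_lt p))
      (hW p (MBasic_prime p) (MBasic_lt p)) b
  have h1 := hk₀ k hk (T → Fin H) (PP w z)
    (fun p h => BoxFL_E c W b (p : ℕ) fun v => ((h v : ℕ) : ℤ))
    (fun p => pr (BoxFL_Z c W b (p : ℕ))) (fun p => Nat.log 2 (Nat.log p z)) z
    ((z : ℝ) ^ (4 * k + 6) * (2 * Fintype.card T * (z : ℝ) ^ (4 * k + 6) / H))
    (fun p => ⟨pr_nonneg _, (hg p).trans (by
      have h2 : ((2 * (n + 4 ^ n) : ℕ) : ℝ) ≤ (p : ℕ) := by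
        exact_mod_cast hw2.trans (MBasic_lt p).le
      have h3 := MBasic_two_le p
      push_cast at h2
      rw [mul_one_div, div_le_iff₀ (by linarith)]
      linarith)⟩)
    (fun p => lt_of_le_of_lt (Nat.log_le_self _ _) (Nat.log_lt_self _ (by omega)))
    (fun j => (sum_le_sum fun p _ => hg p).trans (by
      rw [← mul_sum]
      exact mul_le_mul_of_nonneg_left (BoxFL_block hC w z j (by omega)) (by positivity)))
    (by convert BoxFL_sum (w := w) (k := k) (show 1 ≤ z by omega) hH c W b)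
  have h2 := (BoxFL_main (z := z) hK hn hc hW b).trans (hw₁ w z hw1)
  have e : av (fun h : T → Fin H => ∏ i, nuI w z (W * ∑ v, c i v * ((h v : ℕ) : ℤ) + b i)) =
      pr (fun h : T → Fin H => ∀ p : PP w z, ¬ BoxFL_E c W b (p : ℕ) fun v => ((h v : ℕ) : ℤ)) *
        (Vp w z)⁻¹ ^ Fintype.card I := by
    rw [pr, ← av_mul_const]
    exact av_congr fun h => BoxFL_nu w z c W b fun v => ((h v : ℕ) : ℤ)
  rw [e]
  have hz' : (2 : ℝ) ≤ z := by exact_mod_cast hz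
  have hH' : (0 : ℝ) < H := by exact_mod_cast hH
  have v0 : 0 ≤ (Vp w z)⁻¹ ^ Fintype.card I := pow_nonneg (inv_nonneg.2 (Vp_pos w z).le) _
  have v1 : (Vp w z)⁻¹ ^ Fintype.card I ≤ (z : ℝ) ^ n :=
    (pow_le_pow_left₀ (inv_nonneg.2 (Vp_pos w z).le) (inv_Vp_le w (by omega)) _).trans
      (pow_le_pow_right₀ (by linarith) hn)
  set V := (Vp w z)⁻¹ ^ Fintype.card I
  set Q := ∏ p : PP w z, (1 - pr (BoxFL_Z c W b (p : ℕ)))
  set R := pr (fun h : T → Fin H => ∀ p : PP w z,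
    ¬ BoxFL_E c W b (p : ℕ) fun v => ((h v : ℕ) : ℤ))
  have h3 : Q * V ≤ 2 := by linarith [(abs_le.1 h2).2, min_le_right ε 1]
  have h4 : ((z : ℝ) + 1) * ((z : ℝ) ^ (4 * k + 6) *
      (2 * Fintype.card T * (z : ℝ) ^ (4 * k + 6) / H)) * V ≤
      Fintype.card T * (z : ℝ) ^ ((n + 15) * (k + 1)) / H := by
    have a1 : (z : ℝ) + 1 ≤ z ^ 2 := by nlinarith
    calc _ ≤ (z : ℝ) ^ 2 * ((z : ℝ) ^ (4 * k + 6) *
          (z * Fintype.card T * (z : ℝ) ^ (4 * k + 6) / H)) * (z : ℝ) ^ n := by gcongr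
      _ = Fintype.card T * (z : ℝ) ^ (8 * k + 15 + n) / H := by ring
      _ ≤ _ := by
        have : (z : ℝ) ^ (8 * k + 15 + n) ≤ (z : ℝ) ^ ((n + 15) * (k + 1)) :=
          pow_le_pow_right₀ (by linarith) (by nlinarith)
        gcongr
  have h5 : |R * V - Q * V| ≤ 16 / 2 ^ k + Fintype.card T * (z : ℝ) ^ ((n + 15) * (k + 1)) / H := by
    rw [← sub_mul, abs_mul, abs_of_nonneg v0]
    refine (mul_le_mul_of_nonneg_right h1 v0).trans ?_
    rw [add_mul, mul_assoc]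
    refine add_le_add ?_ h4
    calc _ ≤ 8 / 2 ^ k * (2 : ℝ) := by gcongr
      _ = _ := by ring
  have h6 := abs_sub_le (R * V) (Q * V) 1
  linarith [min_le_left ε 1]

end Pool.Agent.MP_357fb4_an
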