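import Pool.Agent.MP_357fb4_an.Basic

/-!
Taylor expansions.
-/

open scoped BigOperators Classical ComplexConjugate Polynomial
open Finset Filter MeasureTheory Topology

noncomputable section

namespace Pool.Agent.MP_357fb4_an

theorem TayAux (y l B : ℝ) (n : ℕ) : ∀ f : ℕ → ℝ → ℝ,
    (∀ j, j < n → ∀ t ∈ Set.Icc y (y + l), HasDerivAt (f j) (f (j + 1) t) t) →
    (∀ t ∈ Set.Icc y (y + l), |f n t| ≤ B) →
    ∀ x ∈ Set.Icc 0 l,
      |f 0 (y + x) - ∑ j ∈ range n, f j y / j.factorial * x ^ j| ≤ B * x ^ n := by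
  induction n with
  | zero =>
    intro f _ hB x hx
    simpa using hB (y + x) ⟨by linarith [hx.1], by linarith [hx.2]⟩
  | succ n ih =>
    intro f hf hB x hx
    have hB0 : 0 ≤ B := (abs_nonneg _).trans (hB y ⟨le_rfl, by linarith [hx.1, hx.2]⟩)
    have ih' := ih (fun j => f (j + 1)) (fun j hj t ht => hf (j + 1) (by omega) t ht) hB
    have hd : ∀ s ∈ Set.Icc 0 x, HasDerivWithinAt
        (fun s => f 0 (y + s) - ∑ j ∈ range (n + 1), f j y / j.factorial * s ^ j)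
        (f 1 (y + s) - ∑ j ∈ range n, f (j + 1) y / j.factorial * s ^ j) (Set.Icc 0 x) s := by
      intro s hs
      have h1 : HasDerivAt (fun s => f 0 (y + s)) (f 1 (y + s)) s :=
        (hf 0 (by omega) (y + s) ⟨by linarith [hs.1], by linarith [hs.2, hx.2]⟩).comp_const_add y s
      have h2 : HasDerivAt (fun s : ℝ => ∑ j ∈ range (n + 1), f j y / j.factorial * s ^ j)
          (∑ j ∈ range (n + 1), f j y / j.factorial * (j * s ^ (j - 1))) s :=
        HasDerivAt.fun_sum fun j _ => (hasDerivAt_pow j s).const_mul _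
      have h3 : ∑ j ∈ range (n + 1), f j y / j.factorial * (j * s ^ (j - 1)) =
          ∑ j ∈ range n, f (j + 1) y / j.factorial * s ^ j := by
        rw [sum_range_succ']
        simp only [Nat.cast_zero, zero_mul, mul_zero, add_zero, Nat.add_sub_cancel]
        refine sum_congr rfl fun j _ => ?_
        rw [Nat.factorial_succ]
        have : (j.factorial : ℝ) ≠ 0 := by positivity
        push_cast
        field_simp
      rw [h3] at h2
      exact (h1.sub h2).hasDerivWithinAt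
    have hb : ∀ s ∈ Set.Icc 0 x,
        ‖f 1 (y + s) - ∑ j ∈ range n, f (j + 1) y / j.factorial * s ^ j‖ ≤ B * x ^ n := by
      intro s hs
      refine (ih' s ⟨hs.1, hs.2.trans hx.2⟩).trans ?_
      exact mul_le_mul_of_nonneg_left (pow_le_pow_left₀ hs.1 hs.2 n) hB0
    have := (convex_Icc 0 x).norm_image_sub_le_of_norm_hasDerivWithin_le hd hb
      (Set.left_mem_Icc.2 hx.1) (Set.right_mem_Icc.2 hx.1)
    have h0 : f 0 (y + 0) - ∑ j ∈ range (n + 1), f j y / j.factorial * (0 : ℝ) ^ j = 0 := by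
      rw [sum_range_succ']; simp
    rw [h0, sub_zero, sub_zero, Real.norm_eq_abs, Real.norm_of_nonneg hx.1] at this
    rw [pow_succ, ← mul_assoc]
    exact this

theorem tay (f : ℕ → ℝ → ℝ) (d : ℕ) (y l B : ℝ)
    (hf : ∀ j, j ≤ d → ∀ t ∈ Set.Icc y (y + l), HasDerivAt (f j) (f (j + 1) t) t)
    (hB : ∀ t ∈ Set.Icc y (y + l), |f (d + 1) t| ≤ B) :
    ∃ Q : ℝ[X], Q.natDegree ≤ d ∧ (∀ j, j ≤ d → Q.coeff j = f j y / j.factorial) ∧
      ∀ x ∈ Set.Icc 0 l, |f 0 (y + x) - Q.eval x| ≤ B * x ^ (d + 1) := by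
  refine ⟨∑ j ∈ range (d + 1), Polynomial.monomial j (f j y / j.factorial), ?_, ?_, ?_⟩
  · refine Polynomial.natDegree_sum_le_of_forall_le _ _ fun j hj => ?_
    exact (Polynomial.natDegree_monomial_le _).trans (by simpa [Nat.lt_succ_iff] using hj)
  · intro j hj
    rw [Polynomial.finsetSum_coeff, sum_eq_single j]
    · simp
    · intro i _ hi
      simp [Polynomial.coeff_monomial, hi]
    · intro h
      exact absurd (mem_range.2 (by omega)) h
  · intro x hx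
    rw [Polynomial.eval_finsetSum]
    simp only [Polynomial.eval_monomial]
    exact TayAux y l B (d + 1) f (fun j hj => hf j (by omega)) hB x hx

/-- All derivatives up to a given order behave well beyond one threshold. -/
theorem Sm.thr {b : ℝ → ℝ} {A : ℕ} (h : Sm b A) (d : ℕ) : ∃ T : ℝ, 1 ≤ T ∧ ∀ e, e ≤ d → ∀ t, T ≤ t →
    HasDerivAt (deriv^[e] b) (deriv^[e + 1] b t) t ∧ |deriv^[e] b t| ≤ t ^ A / t ^ e := by
  have h1 : ∀ᶠ t : ℝ in atTop, ∀ e ∈ range (d + 1),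
      DifferentiableAt ℝ (deriv^[e] b) t ∧ |deriv^[e] b t| ≤ t ^ A / t ^ e :=
    (eventually_all_finset _).2 fun e _ => h e
  obtain ⟨T, hT⟩ := eventually_atTop.1 h1
  refine ⟨max 1 T, le_max_left _ _, fun e he t ht => ?_⟩
  have := hT t ((le_max_right _ _).trans ht) e (mem_range.2 (by omega))
  refine ⟨?_, this.2⟩
  rw [Function.iterate_succ_apply']
  exact this.1.hasDerivAt

/-- Derivatives of a dilate. -/
theorem hasDerivAt_dilate {b : ℝ → ℝ} {e : ℕ} {a c t : ℝ}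
    (h : HasDerivAt (deriv^[e] b) (deriv^[e + 1] b (a * t + c)) (a * t + c)) :
    HasDerivAt (fun s => a ^ e * deriv^[e] b (a * s + c))
      (a ^ (e + 1) * deriv^[e + 1] b (a * t + c)) t := by
  have h1 : HasDerivAt (fun s : ℝ => a * s + c) a t := by
    simpa using ((hasDerivAt_id t).const_mul a).add_const c
  have h2 := (h.comp t h1).const_mul (a ^ e)
  refine h2.congr_deriv ?_
  ring

theorem locpoly {b : ℝ → ℝ} {A : ℕ} (h : Sm b A) : LocPoly b := by
  intro δ hδ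
  obtain ⟨m, hm⟩ := exists_nat_ge (2 / δ)
  obtain ⟨D, hD⟩ : ∃ D, D = m * (5 * A + 2) := ⟨_, rfl⟩
  obtain ⟨T, hT1, hT⟩ := h.thr (D + 1)
  refine ⟨D, ?_⟩
  have hu : Tendsto (fun N : ℕ => (N : ℝ) ^ (δ / 2)) atTop atTop :=
    (tendsto_rpow_atTop (by positivity)).comp tendsto_natCast_atTop_atTop
  filter_upwards [hu.eventually_ge_atTop 2, hu.eventually_ge_atTop T,
    (tendsto_natCast_atTop_atTop (R := ℝ)).eventually_ge_atTop (20 * 2 ^ A * 2 ^ (D + 1)),
    (tendsto_natCast_atTop_atTop (R := ℝ)).eventually_ge_atTop 1] with N hu2 huT hN hN1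
  intro a y ha haN hy hyN
  have hN0 : (0 : ℝ) < N := by linarith
  obtain ⟨u, hudef⟩ : ∃ u, u = (N : ℝ) ^ (δ / 2) := ⟨_, rfl⟩
  have huu : (N : ℝ) ^ δ = u ^ 2 := by
    rw [hudef, ← Real.rpow_natCast, ← Real.rpow_mul hN0.le]; congr 1; push_cast; ring
  have hum : (N : ℝ) ≤ u ^ m := by
    rw [hudef, ← Real.rpow_natCast, ← Real.rpow_mul hN0.le]
    conv_lhs => rw [← Real.rpow_one (N : ℝ)]
    refine Real.rpow_le_rpow_of_exponent_le hN1 ?_
    rw [div_le_iff₀ hδ] at hm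
    nlinarith
  rw [← hudef] at hu2 huT ⊢
  rw [huu] at hy
  have ha1 : (1 : ℝ) ≤ a := by exact_mod_cast ha
  have haN' : (a : ℝ) ≤ (N : ℝ) ^ 2 := by exact_mod_cast haN
  have hyN' : (y : ℝ) ≤ (N : ℝ) ^ 3 := by exact_mod_cast hyN
  have hy0 : (0 : ℝ) < y := by nlinarith
  have hly : u + 1 ≤ y := by nlinarith
  have hTs : ∀ t ∈ Set.Icc (y : ℝ) (y + (u + 1)), T ≤ a * t + 0 := by
    intro t ht
    have := ht.1
    nlinarith
  obtain ⟨Q, hQ, -, hQx⟩ := tay (fun j s => (a : ℝ) ^ j * deriv^[j] b (a * s + 0)) D y (u + 1)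
    ((2 * (N : ℝ) ^ 5) ^ A / (y : ℝ) ^ (D + 1))
    (fun j hj t ht => hasDerivAt_dilate (hT j (by omega) _ (hTs t ht)).1)
    (fun t ht => by
      have h1 := (hT (D + 1) le_rfl _ (hTs t ht)).2
      have ht0 : 0 < t := hy0.trans_le ht.1
      have ha0 : (0 : ℝ) < a := by linarith
      rw [add_zero] at h1 ⊢
      rw [abs_mul, abs_of_pos (pow_pos ha0 _)]
      refine (mul_le_mul_of_nonneg_left h1 (pow_pos ha0 _).le).trans ?_
      have h2 : (a : ℝ) ^ (D + 1) * ((a * t) ^ A / (a * t) ^ (D + 1)) =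
          (a * t) ^ A / t ^ (D + 1) := by
        rw [mul_pow (a : ℝ) t (D + 1)]; field_simp
      rw [h2]
      have h3 : (a : ℝ) * t ≤ 2 * (N : ℝ) ^ 5 := by
        have : t ≤ 2 * (N : ℝ) ^ 3 := by linarith [ht.2]
        calc (a : ℝ) * t ≤ (N : ℝ) ^ 2 * (2 * (N : ℝ) ^ 3) :=
              mul_le_mul haN' this ht0.le (by positivity)
          _ = _ := by ring
      have h4 := ht.1
      gcongr)
  refine ⟨Q, hQ, fun x hx => ?_⟩
  have h1 := hQx x ⟨Nat.cast_nonneg x, hx⟩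
  simp only [pow_zero, one_mul, Function.iterate_zero, id, add_zero] at h1
  push_cast
  refine h1.trans ?_
  have hu0 : 0 < u := by linarith
  have h2 : (x : ℝ) / y ≤ 2 / u := by
    rw [div_le_div_iff₀ hy0 hu0]
    have : (x : ℝ) ≤ 2 * u := by linarith
    nlinarith
  have h3 : (N : ℝ) ^ (5 * A + 2) ≤ u ^ (D + 1) := by
    calc (N : ℝ) ^ (5 * A + 2) ≤ (u ^ m) ^ (5 * A + 2) := pow_le_pow_left₀ hN0.le hum _
      _ = u ^ D := by rw [hD, pow_mul]
      _ ≤ u ^ (D + 1) := pow_le_pow_right₀ (by linarith) (by omega)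
  calc (2 * (N : ℝ) ^ 5) ^ A / (y : ℝ) ^ (D + 1) * (x : ℝ) ^ (D + 1)
      = (2 * (N : ℝ) ^ 5) ^ A * ((x : ℝ) / y) ^ (D + 1) := by rw [div_pow]; ring
    _ ≤ (2 * (N : ℝ) ^ 5) ^ A * (2 / u) ^ (D + 1) := by gcongr
    _ = (2 * (N : ℝ) ^ 5) ^ A * 2 ^ (D + 1) / u ^ (D + 1) := by rw [div_pow]; ring
    _ ≤ (2 * (N : ℝ) ^ 5) ^ A * 2 ^ (D + 1) / (N : ℝ) ^ (5 * A + 2) := by gcongr
    _ = (20 * 2 ^ A * 2 ^ (D + 1) / N) * ((N : ℝ)⁻¹ / 20) := by
        rw [mul_pow, ← pow_mul]; field_simp; ring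
    _ ≤ 1 * ((N : ℝ)⁻¹ / 20) := by
        gcongr
        rwa [div_le_one hN0]
    _ = _ := one_mul _

end Pool.Agent.MP_357fb4_an
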