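import Pool.Agent.MP_357fb4_an.Weyl
import Pool.Agent.MP_357fb4_an.Tay

/-!
The case of power growth.
-/

open scoped BigOperators Classical ComplexConjugate Polynomial
open Finset Filter MeasureTheory Topology

noncomputable section

namespace Pool.Agent.MP_357fb4_an

lemma CaseF_loc {e : ℕ} (he : 1 ≤ e) {C₀ ε η : ℝ} (hC : 0 < C₀) (hε : 0 < ε) (hη : 0 < η) :
    ∃ Λ θ : ℝ, 0 < θ ∧ ∀ m lam : ℝ, 0 < lam → Λ ≤ lam → lam ≤ θ * m → ∃ l : ℕ, 1 ≤ l ∧
      (l : ℝ) ≤ η * m ∧ ∀ (f : ℕ → ℝ → ℝ) (y : ℝ),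
        (∀ j, j ≤ e → ∀ t ∈ Set.Icc y (y + m), HasDerivAt (f j) (f (j + 1) t) t) →
        1 ≤ C₀ * (lam ^ e * |f e y|) → lam ^ e * |f e y| ≤ C₀ →
        (∀ t ∈ Set.Icc y (y + m), m * lam ^ e * |f (e + 1) t| ≤ C₀) →
          ‖𝔼 x ∈ range l, ec (f 0 (y + x))‖ ≤ ε := by
  obtain ⟨Ω, η₁, hη₁, hw⟩ := w1 he (half_pos hε)
  set K : ℝ := max 1 (C₀ * e.factorial * |Ω|) with hK
  have hK1 : 1 ≤ K := le_max_left _ _
  have hK0 : 0 < K := by linarith
  have hKe : 1 ≤ K ^ e := one_le_pow₀ hK1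
  have hKe' : K ≤ K ^ e := le_self_pow₀ hK1 (by omega)
  set M : ℝ := C₀ * (2 * K) ^ e with hM
  have hM0 : 0 < M := by positivity
  set η₂ : ℝ := min (min η 1) (ε / (14 * M)) with hη₂
  have hη₂0 : 0 < η₂ := lt_min (lt_min hη one_pos) (by positivity)
  refine ⟨max 1 (max Ω (M / η₁)), η₂ / (2 * K), by positivity, fun m lam hlam0 hΛ hθ => ?_⟩
  have hlam1 : 1 ≤ lam := (le_max_left _ _).trans hΛ
  have hlamΩ : Ω ≤ lam := ((le_max_left _ _).trans (le_max_right _ _)).trans hΛ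
  have hlamM : M / η₁ ≤ lam := ((le_max_right _ _).trans (le_max_right _ _)).trans hΛ
  set l : ℕ := ⌈K * lam⌉₊ with hl
  have hKl : 1 ≤ K * lam := one_le_mul_of_one_le_of_one_le hK1 hlam1
  have hl1 : K * lam ≤ l := Nat.le_ceil _
  have hl2 : (l : ℝ) ≤ 2 * K * lam := by
    have := (Nat.ceil_lt_add_one (a := K * lam) (by linarith)).le
    linarith
  have hll : lam ≤ l := le_trans (le_mul_of_one_le_left hlam0.le hK1) hl1
  have hlpos : (0 : ℝ) < l := by linarith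
  have hm0 : 0 < m := by
    have h1 : 0 < η₂ / (2 * K) * m := lt_of_lt_of_le hlam0 hθ
    exact (mul_pos_iff_of_pos_left (by positivity)).1 h1
  have hlm : (l : ℝ) ≤ η₂ * m := by
    have h1 : 2 * K * lam ≤ 2 * K * (η₂ / (2 * K) * m) := by gcongr
    have h2 : 2 * K * (η₂ / (2 * K) * m) = η₂ * m := by field_simp
    linarith
  have hη₂η : η₂ ≤ η := (min_le_left _ _).trans (min_le_left _ _)
  have hη₂1 : η₂ ≤ 1 := (min_le_left _ _).trans (min_le_right _ _)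
  have hη₂ε : η₂ ≤ ε / (14 * M) := min_le_right _ _
  have hlm1 : (l : ℝ) ≤ m := hlm.trans (mul_le_of_le_one_left hm0.le hη₂1)
  refine ⟨l, by exact_mod_cast (hKl.trans hl1), hlm.trans (by gcongr), fun f y hd hlo hup hrem => ?_⟩
  have hle : 0 < lam ^ e := by positivity
  have hsub : Set.Icc y (y + l) ⊆ Set.Icc y (y + m) := Set.Icc_subset_Icc le_rfl (by linarith)
  obtain ⟨Q, hQd, hQc, hQe⟩ := tay f e y l (C₀ / (m * lam ^ e))
    (fun j hj t ht => hd j hj t (hsub ht)) (fun t ht => by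
      rw [le_div_iff₀ (by positivity)]
      have := hrem t (hsub ht)
      linarith)
  have hfac : (1 : ℝ) ≤ e.factorial := by exact_mod_cast Nat.one_le_iff_ne_zero.2 e.factorial_ne_zero
  have hco : |Q.coeff e| = |f e y| / e.factorial := by
    rw [hQc e le_rfl, abs_div, abs_of_pos (by linarith : (0 : ℝ) < e.factorial)]
  have hle2 : (l : ℝ) ^ e ≤ (2 * K) ^ e * lam ^ e := by
    rw [← mul_pow]; exact pow_le_pow_left₀ hlpos.le hl2 e
  have hle1 : K ^ e * lam ^ e ≤ (l : ℝ) ^ e := by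
    rw [← mul_pow]; exact pow_le_pow_left₀ (by positivity) hl1 e
  have hupM : |f e y| * (l : ℝ) ^ e ≤ M := by
    calc |f e y| * (l : ℝ) ^ e ≤ |f e y| * ((2 * K) ^ e * lam ^ e) := by gcongr
      _ = (lam ^ e * |f e y|) * (2 * K) ^ e := by ring
      _ ≤ C₀ * (2 * K) ^ e := by gcongr
  have h1 : ‖𝔼 x ∈ range l, ec (Q.eval (x : ℝ))‖ ≤ ε / 2 := by
    refine hw l (hlamΩ.trans hll) Q hQd ?_ ?_
    · rw [hco, div_mul_eq_mul_div, le_div_iff₀ (by linarith)]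
      have h2 : C₀ * e.factorial * |Ω| ≤ K := le_max_right _ _
      have h3 : K ^ e * (C₀ * (lam ^ e * |f e y|)) ≤ C₀ * (|f e y| * (l : ℝ) ^ e) := by
        calc K ^ e * (C₀ * (lam ^ e * |f e y|)) = C₀ * (|f e y| * (K ^ e * lam ^ e)) := by ring
          _ ≤ C₀ * (|f e y| * (l : ℝ) ^ e) := by gcongr
      have h4 : K ^ e ≤ K ^ e * (C₀ * (lam ^ e * |f e y|)) :=
        le_mul_of_one_le_right (by positivity) hlo
      have h5 : C₀ * (|Ω| * e.factorial) ≤ C₀ * (|f e y| * (l : ℝ) ^ e) := by linarith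
      have h6 := le_of_mul_le_mul_left h5 hC
      have h7 : Ω * e.factorial ≤ |Ω| * e.factorial := by gcongr; exact le_abs_self _
      linarith
    · have h2 : |Q.coeff e| ≤ |f e y| := by
        rw [hco]; exact div_le_self (abs_nonneg _) hfac
      have h3 : (l : ℝ) ^ e = (l : ℝ) ^ (e - 1) * l := by
        rw [← pow_succ]; congr 1; omega
      have h4 : |f e y| * (l : ℝ) ^ (e - 1) * l ≤ η₁ * l := by
        rw [mul_assoc, ← h3]
        refine hupM.trans ?_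
        have := hlamM.trans hll
        rw [div_le_iff₀ hη₁] at this
        linarith
      have h5 := le_of_mul_le_mul_right h4 hlpos
      exact le_trans (by gcongr) h5
  have h2 : ‖𝔼 x ∈ range l, (ec (f 0 (y + x)) - ec (Q.eval (x : ℝ)))‖ ≤ ε / 2 := by
    refine (norm_expect_le' _ _).trans (expect_le ?_ fun x hx => ?_)
    · rw [nonempty_range_iff]; exact_mod_cast hlpos.ne'
    · have hx' : (x : ℝ) ≤ l := by exact_mod_cast (mem_range.1 hx).le
      have h3 := hQe x ⟨by positivity, hx'⟩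
      have h4 : C₀ / (m * lam ^ e) * (x : ℝ) ^ (e + 1) ≤ M * η₂ := by
        calc C₀ / (m * lam ^ e) * (x : ℝ) ^ (e + 1)
            ≤ C₀ / (m * lam ^ e) * (l : ℝ) ^ (e + 1) := by gcongr
          _ = C₀ / (m * lam ^ e) * ((l : ℝ) ^ e * l) := by rw [pow_succ]
          _ ≤ C₀ / (m * lam ^ e) * (((2 * K) ^ e * lam ^ e) * (η₂ * m)) := by gcongr
          _ = M * η₂ := by rw [hM]; field_simp
      have h5 : M * η₂ ≤ ε / 14 := by
        calc M * η₂ ≤ M * (ε / (14 * M)) := by gcongr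
          _ = ε / 14 := by field_simp
      have := norm_ec_sub (f 0 (y + x)) (Q.eval (x : ℝ))
      linarith
  rw [expect_sub_distrib] at h2
  have h3 := norm_add_le (𝔼 x ∈ range l, ec (f 0 (y + x)) - 𝔼 x ∈ range l, ec (Q.eval (x : ℝ)))
    (𝔼 x ∈ range l, ec (Q.eval (x : ℝ)))
  rw [sub_add_cancel] at h3
  linarith

lemma CaseF_locR {e : ℕ} (he : 1 ≤ e) {C₀ ε η : ℝ} (hC : 0 < C₀) (hε : 0 < ε) (hη : 0 < η) :
    ∃ R₀ : ℝ, 1 ≤ R₀ ∧ ∀ m R : ℝ, 0 < m → R₀ ≤ R → R₀ * R ≤ m ^ e → ∃ l : ℕ, 1 ≤ l ∧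
      (l : ℝ) ≤ η * m ∧ ∀ (f : ℕ → ℝ → ℝ) (y : ℝ),
        (∀ j, j ≤ e → ∀ t ∈ Set.Icc y (y + m), HasDerivAt (f j) (f (j + 1) t) t) →
        R ≤ C₀ * (m ^ e * |f e y|) → m ^ e * |f e y| ≤ C₀ * R →
        (∀ t ∈ Set.Icc y (y + m), m ^ (e + 1) * |f (e + 1) t| ≤ C₀ * R) →
          ‖𝔼 x ∈ range l, ec (f 0 (y + x))‖ ≤ ε := by
  obtain ⟨Λ, θ, hθ, h⟩ := CaseF_loc he hC hε hη
  refine ⟨max 1 (max (|Λ| ^ e) ((θ ^ e)⁻¹)), le_max_left _ _, fun m R hm hR hRm => ?_⟩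
  set R₀ := max 1 (max (|Λ| ^ e) ((θ ^ e)⁻¹)) with hR₀
  have hR0 : 0 < R := lt_of_lt_of_le (lt_of_lt_of_le one_pos (le_max_left _ _)) hR
  have he0 : e ≠ 0 := by omega
  set lam : ℝ := m / R ^ ((e : ℝ)⁻¹) with hlam
  have hlam0 : 0 < lam := div_pos hm (Real.rpow_pos_of_pos hR0 _)
  have hle : lam ^ e = m ^ e / R := by
    rw [hlam, div_pow, Real.rpow_inv_natCast_pow hR0.le he0]
  have h1 : Λ ≤ lam := by
    refine (le_abs_self _).trans (le_of_pow_le_pow_left₀ he0 hlam0.le ?_)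
    rw [hle, le_div_iff₀ hR0]
    refine le_trans ?_ hRm
    gcongr
    exact (le_max_left _ _).trans (le_max_right _ _)
  have h2 : lam ≤ θ * m := by
    refine le_of_pow_le_pow_left₀ he0 (by positivity) ?_
    rw [hle, mul_pow, div_le_iff₀ hR0]
    have h3 : (θ ^ e)⁻¹ ≤ R := ((le_max_right _ _).trans (le_max_right _ _)).trans hR
    have h4 : 1 ≤ θ ^ e * R := by
      rw [inv_le_iff_one_le_mul₀' (by positivity)] at h3; exact h3
    have : 0 < m ^ e := by positivity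
    nlinarith
  obtain ⟨l, hl1, hl2, hl⟩ := h m lam hlam0 h1 h2
  refine ⟨l, hl1, hl2, fun f y hd hlo hup hrem => hl f y hd ?_ ?_ fun t ht => ?_⟩
  · rw [hle, div_mul_eq_mul_div, ← mul_div_assoc, le_div_iff₀ hR0, one_mul]; exact hlo
  · rw [hle, div_mul_eq_mul_div, div_le_iff₀ hR0]; exact hup
  · have := hrem t ht
    rw [hle, ← mul_div_assoc, div_mul_eq_mul_div, div_le_iff₀ hR0, ← pow_succ']; exact this

/-- The facts about one normalised derivative that are used below. -/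
lemma CaseF_pack {b : ℝ → ℝ} {A : ℕ} (hs : Sm b A) (h : CaseF b) (e₁ : ℕ) :
    ∃ (e : ℕ) (γ Γ T C : ℝ), e₁ ≤ e ∧ 0 < γ ∧ 0 ≤ Γ ∧ 1 ≤ T ∧ 0 ≤ C ∧
      (∀ j, j ≤ e → ∀ t, T ≤ t → HasDerivAt (deriv^[j] b) (deriv^[j + 1] b t) t) ∧
      (∀ t, T ≤ t → |RD b e t| ≤ t ^ A) ∧
      (∀ t t', T ≤ t → t ≤ t' → (t' / t) ^ γ * |RD b e t| ≤ |RD b e t'|) ∧
      (∀ t t', T ≤ t → t ≤ t' → |RD b e t| ≤ |RD b e t'|) ∧
      (∀ t t' M, T ≤ t → t ≤ t' → t' ≤ M * t → |RD b e t'| ≤ M ^ Γ * |RD b e t|) ∧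
      (∀ t, T ≤ t → |RD b (e + 1) t| ≤ C * |RD b e t|) ∧
      Tendsto (fun t => |RD b e t|) atTop atTop := by
  obtain ⟨e₀, γ, Γ, hγ, h⟩ := h
  obtain ⟨T, C, hT, h⟩ := h (max e₀ e₁) (le_max_left _ _)
  set e := max e₀ e₁ with he
  obtain ⟨T', hT', h'⟩ := hs.thr e
  have hTT : T ≤ max T T' := le_max_left _ _
  have hTT' : T' ≤ max T T' := le_max_right _ _
  refine ⟨e, γ, |Γ|, max T T', |C|, le_max_right _ _, hγ, abs_nonneg _, hT.trans hTT, abs_nonneg _,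
    fun j hj t ht => (h' j hj t (hTT'.trans ht)).1, fun t ht => ?_,
    fun t t' ht htt => (h t t' (hTT.trans ht) htt).2.1, fun t t' ht htt => ?_,
    fun t t' M ht htt hM => ?_, fun t ht => ?_, ?_⟩
  · have ht0 : 0 < t := by linarith [hTT.trans ht]
    have := (h' e le_rfl t (hTT'.trans ht)).2
    rw [RD, abs_mul, abs_of_pos (pow_pos ht0 e)]
    rw [le_div_iff₀ (pow_pos ht0 e)] at this
    linarith
  · have ht0 : 0 < t := by linarith [hTT.trans ht]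
    refine le_trans ?_ (h t t' (hTT.trans ht) htt).2.1
    exact le_mul_of_one_le_left (abs_nonneg _)
      (Real.one_le_rpow ((one_le_div ht0).2 htt) hγ.le)
  · have ht0 : 0 < t := by linarith [hTT.trans ht]
    refine (h t t' (hTT.trans ht) htt).2.2.1.trans ?_
    have h1 : 1 ≤ t' / t := (one_le_div ht0).2 htt
    have h2 : t' / t ≤ M := (div_le_iff₀ ht0).2 hM
    gcongr ?_ * _
    exact (Real.rpow_le_rpow_of_exponent_le h1 (le_abs_self Γ)).trans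
      (Real.rpow_le_rpow (by linarith) h2 (abs_nonneg _))
  · refine (h t t (hTT.trans ht) le_rfl).2.2.2.trans ?_
    gcongr
    exact le_abs_self C
  · have hp : 0 < |RD b e T| := abs_pos.2 (h T T le_rfl le_rfl).1
    have h1 : Tendsto (fun t : ℝ => (t / T) ^ γ * |RD b e T|) atTop atTop :=
      ((tendsto_rpow_atTop hγ).comp (tendsto_id.atTop_div_const (by linarith))).atTop_mul_const hp
    refine tendsto_atTop_mono' _ ?_ h1
    filter_upwards [eventually_ge_atTop T] with t ht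
    exact (h T t le_rfl ht).2.1

lemma CaseF_absRD (b : ℝ → ℝ) (e : ℕ) {t : ℝ} (ht : 0 ≤ t) :
    |RD b e t| = t ^ e * |deriv^[e] b t| := by
  rw [RD, abs_mul, abs_of_nonneg (pow_nonneg ht e)]

theorem ti_F {b : ℝ → ℝ} {A : ℕ} (hs : Sm b A) (h : CaseF b) : TI fun n => ec (b n) := by
  refine ti_of_loc (fun n => (norm_ec _).le) fun q hq => ⟨q, hq, dvd_rfl, fun ε η hε hη => ?_⟩
  obtain ⟨e, γ, Γ, T, C, he, hγ, hΓ, hT, hC, hd, hA, -, hmono, hup, hnext, htop⟩ :=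
    CaseF_pack hs h (A + 1)
  have hq1 : (1 : ℝ) ≤ q := by exact_mod_cast hq
  have hq0 : (0 : ℝ) < q := by linarith
  set G : ℝ := (q + 2 : ℝ) ^ Γ with hG
  have hG1 : 1 ≤ G := Real.one_le_rpow (by linarith) hΓ
  set C₀ : ℝ := 2 ^ e + (q : ℝ) ^ (e + 1) * ((1 + C) * G) with hC₀
  have hC₀0 : 0 < C₀ := by positivity
  obtain ⟨R₀, hR₀, hl⟩ := CaseF_locR (e := e) (by omega) hC₀0 hε (div_pos hη hq0)
  have htop' := (htop.comp tendsto_natCast_atTop_atTop).eventually_ge_atTop R₀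
  filter_upwards [htop', tendsto_natCast_atTop_atTop.eventually_ge_atTop (max T (max R₀ q))]
    with y hy1 hy2
  have hyT : T ≤ y := (le_max_left _ _).trans hy2
  have hyR : R₀ ≤ y := ((le_max_left _ _).trans (le_max_right _ _)).trans hy2
  have hyq : (q : ℝ) ≤ y := ((le_max_right _ _).trans (le_max_right _ _)).trans hy2
  have hy1' : (1 : ℝ) ≤ y := hT.trans hyT
  have hy0 : (0 : ℝ) < y := by linarith
  set R : ℝ := |RD b e y| with hR
  have hR0 : 0 ≤ R := abs_nonneg _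
  obtain ⟨l, hl1, hl2, hl⟩ := hl y R hy0 hy1 (by
    calc R₀ * R ≤ y * (y : ℝ) ^ A := by gcongr; exact hA y hyT
      _ = (y : ℝ) ^ (A + 1) := by ring
      _ ≤ (y : ℝ) ^ e := pow_le_pow_right₀ hy1' he)
  refine ⟨l, hl1, ?_, fun c hc => ?_⟩
  · calc (q * l : ℝ) ≤ q * (η / q * y) := by gcongr
      _ = η * y := by field_simp
  have hc' : (c : ℝ) ≤ y := le_trans (by exact_mod_cast hc.le) hyq
  have hc0 : (0 : ℝ) ≤ c := Nat.cast_nonneg c
  have hrange : ∀ t ∈ Set.Icc (0 : ℝ) (0 + y), (y : ℝ) ≤ q * t + (y + c) ∧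
      q * t + (y + c) ≤ (q + 2) * y := fun t ht => by
    have h1 : 0 ≤ q * t := mul_nonneg hq0.le ht.1
    have h2 : q * t ≤ q * y := by gcongr; simpa using ht.2
    constructor <;> linarith
  have key := hl (fun j s => (q : ℝ) ^ j * deriv^[j] b (q * s + (y + c))) 0
    (fun j hj t ht => hasDerivAt_dilate (hd j hj _ (hyT.trans (hrange t ht).1))) ?_ ?_ ?_
  · convert key using 4 with x
    simp only [pow_zero, one_mul, Function.iterate_zero, id, zero_add]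
    congr 1
    push_cast; ring
  · simp only [mul_zero, zero_add]
    have h1 : R ≤ |RD b e (y + c)| := hmono _ _ hyT (by linarith)
    rw [CaseF_absRD b e (by linarith)] at h1
    rw [abs_mul, abs_of_pos (pow_pos hq0 e)]
    have h2 : ((y : ℝ) + c) ^ e ≤ 2 ^ e * (y : ℝ) ^ e := by
      rw [← mul_pow]; gcongr; linarith
    have h3 : (1 : ℝ) ≤ (q : ℝ) ^ e := one_le_pow₀ hq1
    have h4 : (2 : ℝ) ^ e ≤ C₀ := by rw [hC₀]; exact le_add_of_nonneg_right (by positivity)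
    calc R ≤ ((y : ℝ) + c) ^ e * |deriv^[e] b (y + c)| := h1
      _ ≤ 2 ^ e * (y : ℝ) ^ e * |deriv^[e] b (y + c)| := by gcongr
      _ = 2 ^ e * ((y : ℝ) ^ e * (1 * |deriv^[e] b (y + c)|)) := by ring
      _ ≤ C₀ * ((y : ℝ) ^ e * ((q : ℝ) ^ e * |deriv^[e] b (y + c)|)) := by gcongr
  · simp only [mul_zero, zero_add]
    have h1 : |RD b e (y + c)| ≤ G * R := hup _ _ _ hyT (by linarith)
      (by have := mul_pos hq0 hy0; linarith)
    rw [CaseF_absRD b e (by linarith)] at h1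
    rw [abs_mul, abs_of_pos (pow_pos hq0 e)]
    have h2 : (y : ℝ) ^ e ≤ ((y : ℝ) + c) ^ e := by gcongr; linarith
    have h3 : (q : ℝ) ^ e * G ≤ C₀ := by
      have h5 : (q : ℝ) ^ e ≤ (q : ℝ) ^ (e + 1) := pow_le_pow_right₀ hq1 (by omega)
      have h6 : G ≤ (1 + C) * G := le_mul_of_one_le_left (by linarith) (by linarith)
      have h7 : (q : ℝ) ^ e * G ≤ (q : ℝ) ^ (e + 1) * ((1 + C) * G) := by gcongr
      have h8 : (0 : ℝ) ≤ 2 ^ e := by positivity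
      linarith
    calc (y : ℝ) ^ e * ((q : ℝ) ^ e * |deriv^[e] b (y + c)|)
        ≤ ((y : ℝ) + c) ^ e * ((q : ℝ) ^ e * |deriv^[e] b (y + c)|) := by gcongr
      _ = (q : ℝ) ^ e * (((y : ℝ) + c) ^ e * |deriv^[e] b (y + c)|) := by ring
      _ ≤ (q : ℝ) ^ e * (G * R) := by gcongr
      _ = (q : ℝ) ^ e * G * R := by ring
      _ ≤ C₀ * R := by gcongr
  · intro t ht
    obtain ⟨hr1, hr2⟩ := hrange t ht
    set s : ℝ := q * t + (y + c) with hs'
    have h1 : |RD b e s| ≤ G * R := hup _ _ _ hyT hr1 hr2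
    have h2 := hnext s (hyT.trans hr1)
    rw [CaseF_absRD b (e + 1) (by linarith)] at h2
    rw [abs_mul, abs_of_pos (pow_pos hq0 _)]
    have h3 : (q : ℝ) ^ (e + 1) * (C * G) ≤ C₀ := by
      have h6 : C * G ≤ (1 + C) * G := by gcongr; linarith
      have h7 : (q : ℝ) ^ (e + 1) * (C * G) ≤ (q : ℝ) ^ (e + 1) * ((1 + C) * G) := by gcongr
      have h8 : (0 : ℝ) ≤ 2 ^ e := by positivity
      linarith
    calc (y : ℝ) ^ (e + 1) * ((q : ℝ) ^ (e + 1) * |deriv^[e + 1] b s|)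
        ≤ s ^ (e + 1) * ((q : ℝ) ^ (e + 1) * |deriv^[e + 1] b s|) := by gcongr
      _ = (q : ℝ) ^ (e + 1) * (s ^ (e + 1) * |deriv^[e + 1] b s|) := by ring
      _ ≤ (q : ℝ) ^ (e + 1) * (C * |RD b e s|) := by gcongr
      _ ≤ (q : ℝ) ^ (e + 1) * (C * (G * R)) := by gcongr
      _ = (q : ℝ) ^ (e + 1) * (C * G) * R := by ring
      _ ≤ C₀ * R := by gcongr

theorem far_F {b : ℝ → ℝ} {A : ℕ} (hs : Sm b A) (h : CaseF b) : PairFar fun n => ec (b n) := by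
  intro δ κ ε hδ hκ hε
  obtain ⟨e, γ, Γ, T, C, he, hγ, hΓ, hT, hC, hd, hA, hlow, hmono, hup, hnext, htop⟩ :=
    CaseF_pack hs h (⌈(4 * A + 1 : ℝ) / δ⌉₊ + 1)
  set ε₁ : ℝ := min (ε / 13) 1 with hε₁
  have hε₁0 : 0 < ε₁ := lt_min (by positivity) one_pos
  set G : ℝ := (2 : ℝ) ^ Γ with hG
  have hG1 : 1 ≤ G := Real.one_le_rpow (by norm_num) hΓ
  set C₀ : ℝ := 2 + 2 * (C * G) with hC₀
  have hC₀0 : 0 < C₀ := by positivity
  obtain ⟨R₀, hR₀, hl⟩ := CaseF_locR (e := e) (by omega) hC₀0 hε₁0 hε₁0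
  obtain ⟨t₀, ht₀⟩ := eventually_atTop.1 (htop.eventually_ge_atTop R₀)
  have hδe : (4 * A + 1 : ℝ) ≤ δ * e := by
    have h1 : (4 * A + 1 : ℝ) / δ ≤ e :=
      (Nat.le_ceil _).trans (by exact_mod_cast (Nat.le_succ _).trans he)
    rw [div_le_iff₀ hδ] at h1; linarith
  have e1 := ((tendsto_rpow_atTop hδ).comp tendsto_natCast_atTop_atTop).eventually_ge_atTop
    (max T t₀)
  have e2 := ((tendsto_rpow_atTop hγ).comp ((tendsto_rpow_atTop hκ).comp
    tendsto_natCast_atTop_atTop)).eventually_ge_atTop 2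
  filter_upwards [e1, e2, tendsto_natCast_atTop_atTop.eventually_ge_atTop (max 3 R₀)]
    with N hN1 hN2 hN3 a ha a' ha' haa
  simp only [Function.comp] at hN1 hN2
  have hN3' : (3 : ℝ) ≤ N := (le_max_left _ _).trans hN3
  have hNR : R₀ ≤ N := (le_max_right _ _).trans hN3
  have hN0 : (0 : ℝ) < N := by linarith
  have hNδ : (0 : ℝ) ≤ (N : ℝ) ^ δ := by positivity
  have hTN : T ≤ (N : ℝ) ^ δ := (le_max_left _ _).trans hN1
  have htN : t₀ ≤ (N : ℝ) ^ δ := (le_max_right _ _).trans hN1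
  rw [rg, mem_Ioc, Nat.floor_lt hNδ] at ha ha'
  have ha1 : (1 : ℝ) ≤ a := by linarith [ha.1]
  have ha0 : (0 : ℝ) < a := by linarith
  have hκ1 : (1 : ℝ) ≤ (N : ℝ) ^ κ := Real.one_le_rpow (by linarith) hκ.le
  have haa' : (a : ℝ) ≤ a' := (le_mul_of_one_le_right ha0.le hκ1).trans haa
  have ha'1 : (1 : ℝ) ≤ a' := ha1.trans haa'
  have ha'2 : (a' : ℝ) ≤ (N : ℝ) ^ 2 := by exact_mod_cast ha'.2
  have hlog : 1 ≤ Real.log N := by
    rw [Real.le_log_iff_exp_le hN0]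
    linarith [Real.exp_one_lt_d9]
  have hcov := cover (fun m => ec (b ((a' * m : ℕ) : ℝ)) * conj (ec (b ((a * m : ℕ) : ℝ))))
    (fun n => by rw [norm_mul, Complex.norm_conj, norm_ec, norm_ec, mul_one]) ⌊(N : ℝ) ^ δ⌋₊ (N ^ 2)
    hε₁0.le hε₁0.le (min_le_right _ _) ?_
  · refine hcov.trans ?_
    have h1 : Real.log ((N ^ 2 : ℕ) : ℝ) = 2 * Real.log N := by
      push_cast; rw [Real.log_pow]; norm_num
    have h2 : ε₁ ≤ ε / 13 := min_le_left _ _
    rw [h1]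
    have h3 : ε₁ * 1 ≤ ε₁ * Real.log N := by gcongr
    have h4 : ε₁ * Real.log N ≤ ε / 13 * Real.log N := by gcongr
    linarith
  intro y hy1 hy2
  rw [Nat.floor_lt hNδ] at hy1
  have hy2' : (y : ℝ) ≤ (N : ℝ) ^ 2 := by exact_mod_cast hy2
  have hyT : T ≤ y := by linarith
  have hy1' : (1 : ℝ) ≤ y := hT.trans hyT
  have hy0 : (0 : ℝ) < y := by linarith
  have hbig : ∀ {u t : ℝ}, 1 ≤ u → (y : ℝ) ≤ t → T ≤ u * t := fun {u t} hu ht =>
    hyT.trans (ht.trans (le_mul_of_one_le_left (hy0.le.trans ht) hu))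
  set R : ℝ := |RD b e (a' * y)| with hR
  have hR0 : 0 ≤ R := abs_nonneg _
  obtain ⟨l, hl1, hl2, hl⟩ := hl y R hy0
    (ht₀ _ (by linarith [le_mul_of_one_le_left hy0.le ha'1])) (by
      have h1 : (a' * y : ℝ) ≤ (N : ℝ) ^ 4 := by
        calc (a' * y : ℝ) ≤ (N : ℝ) ^ 2 * (N : ℝ) ^ 2 := by gcongr
          _ = (N : ℝ) ^ 4 := by ring
      calc R₀ * R ≤ N * (a' * y : ℝ) ^ A := by gcongr; exact hA _ (hbig ha'1 le_rfl)
        _ ≤ N * ((N : ℝ) ^ 4) ^ A := by gcongr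
        _ = (N : ℝ) ^ ((4 * A + 1 : ℕ) : ℝ) := by rw [Real.rpow_natCast]; ring
        _ ≤ (N : ℝ) ^ (δ * e) := Real.rpow_le_rpow_of_exponent_le (by linarith) (by
            push_cast; exact hδe)
        _ = ((N : ℝ) ^ δ) ^ e := by rw [Real.rpow_mul hN0.le, Real.rpow_natCast]
        _ ≤ (y : ℝ) ^ e := by gcongr)
  refine ⟨l, hl1, hl2, ?_⟩
  have hid : ∀ (j : ℕ) (t : ℝ), t ^ j * ((a' : ℝ) ^ j * deriv^[j] b (a' * t + 0) -
      (a : ℝ) ^ j * deriv^[j] b (a * t + 0)) = RD b j (a' * t) - RD b j (a * t) := fun j t => by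
    simp only [RD, add_zero, mul_pow]; ring
  have hhalf : |RD b e (a * y)| ≤ R / 2 := by
    have h1 := hlow (a * y) (a' * y) (hbig ha1 le_rfl) (by gcongr)
    have h2 : (N : ℝ) ^ κ ≤ (a' * y) / (a * y) := by
      rw [le_div_iff₀ (by positivity)]
      have := mul_le_mul_of_nonneg_right haa hy0.le
      linarith
    have h3 : ((N : ℝ) ^ κ) ^ γ ≤ ((a' * y : ℝ) / (a * y)) ^ γ :=
      Real.rpow_le_rpow (by linarith) h2 hγ.le
    have h4 : 2 * |RD b e (a * y)| ≤ ((a' * y : ℝ) / (a * y)) ^ γ * |RD b e (a * y)| := by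
      gcongr; linarith
    linarith
  have hmain : (y : ℝ) ^ e * |(a' : ℝ) ^ e * deriv^[e] b (a' * y + 0) -
      (a : ℝ) ^ e * deriv^[e] b (a * y + 0)| = |RD b e (a' * y) - RD b e (a * y)| := by
    rw [← hid, abs_mul, abs_of_pos (pow_pos hy0 e)]
  have hCG : 0 ≤ C * G := by positivity
  have key := hl (fun j s => (a' : ℝ) ^ j * deriv^[j] b (a' * s + 0) -
      (a : ℝ) ^ j * deriv^[j] b (a * s + 0)) y
    (fun j hj t ht => (hasDerivAt_dilate (hd j hj _ (by simpa using hbig ha'1 ht.1))).sub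
      (hasDerivAt_dilate (hd j hj _ (by simpa using hbig ha1 ht.1)))) ?_ ?_ ?_
  · convert key using 3 with x
    simp only [pow_zero, one_mul, Function.iterate_zero, id, add_zero]
    rw [ec_sub]
    push_cast
    rfl
  · rw [hmain]
    have h1 := abs_sub_abs_le_abs_sub (RD b e (a' * y)) (RD b e (a * y))
    have h2 := mul_nonneg hCG (abs_nonneg (RD b e (a' * y) - RD b e (a * y)))
    rw [hC₀]
    linarith
  · rw [hmain]
    have h1 := abs_sub (RD b e (a' * y)) (RD b e (a * y))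
    have h2 := mul_nonneg hCG hR0
    rw [hC₀]
    linarith
  · intro t ht
    have ht0 : 0 < t := hy0.trans_le ht.1
    have h1 : t ^ (e + 1) * |(a' : ℝ) ^ (e + 1) * deriv^[e + 1] b (a' * t + 0) -
        (a : ℝ) ^ (e + 1) * deriv^[e + 1] b (a * t + 0)| =
        |RD b (e + 1) (a' * t) - RD b (e + 1) (a * t)| := by
      rw [← hid, abs_mul, abs_of_pos (pow_pos ht0 _)]
    have h2 := hnext _ (hbig ha'1 ht.1)
    have h3 := hnext _ (hbig ha1 ht.1)
    have h4 : |RD b e (a * t)| ≤ |RD b e (a' * t)| := hmono _ _ (hbig ha1 ht.1) (by gcongr)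
    have h5 : |RD b e (a' * t)| ≤ G * R := hup _ _ _ (hbig ha'1 le_rfl) (by gcongr; exact ht.1)
      (by have := mul_le_mul_of_nonneg_left ht.2 (ha0.le.trans haa'); linarith)
    have h6 := abs_sub (RD b (e + 1) (a' * t)) (RD b (e + 1) (a * t))
    have h7 : C * |RD b e (a * t)| ≤ C * (G * R) := by gcongr; linarith
    have h8 : C * |RD b e (a' * t)| ≤ C * (G * R) := by gcongr
    refine le_trans (mul_le_mul_of_nonneg_right (pow_le_pow_left₀ hy0.le ht.1 _) (abs_nonneg _)) ?_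
    rw [h1, hC₀]
    linarith

end Pool.Agent.MP_357fb4_an
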