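import Pool.Agent.MP_357fb4_an.Weyl

/-!
The case of an irrational polynomial part.
-/

open scoped BigOperators Classical ComplexConjugate Polynomial
open Finset Filter MeasureTheory Topology

noncomputable section

namespace Pool.Agent.MP_357fb4_an

/-- The variation of a slow function. -/
lemma CaseIrr_var {r : ℝ → ℝ} (hr : Slow r) {γ : ℝ} (hγ : 0 < γ) (hγ1 : γ ≤ 1) :
    ∃ T : ℝ, 1 ≤ T ∧ ∀ s₀ s t : ℝ, T ≤ s₀ → s₀ ≤ s → s ≤ t →
      |r t - r s| ≤ (t - s) * (s₀ ^ γ / s₀) := by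
  obtain ⟨T, hT⟩ := eventually_atTop.1 (hr γ hγ)
  refine ⟨max T 1, le_max_right _ _, fun s₀ s t hs₀ hs hst => ?_⟩
  have hs1 : 1 ≤ s₀ := le_trans (le_max_right _ _) hs₀
  have hsT : T ≤ s := (le_trans (le_max_left _ _) hs₀).trans hs
  have key : ∀ x ∈ Set.Icc s t, ‖deriv r x‖ ≤ s₀ ^ γ / s₀ := by
    intro x hx
    have hx0 : 0 < x := by linarith [hx.1]
    have h1 := (hT x (hsT.trans hx.1)).2
    rw [abs_mul, abs_of_pos hx0] at h1
    have h2 : |deriv r x| ≤ x ^ γ / x := by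
      rw [le_div_iff₀ hx0]; linarith
    have h3 : x ^ γ / x ≤ s₀ ^ γ / s₀ := by
      rw [← Real.rpow_sub_one hx0.ne', ← Real.rpow_sub_one (by linarith : s₀ ≠ 0)]
      exact Real.rpow_le_rpow_of_nonpos (by linarith) (hs.trans hx.1) (by linarith)
    exact h2.trans h3
  have := Convex.norm_image_sub_le_of_norm_deriv_le (f := r) (s := Set.Icc s t)
    (C := s₀ ^ γ / s₀) (fun x hx => (hT x (hsT.trans hx.1)).1) key (convex_Icc s t)
    (Set.left_mem_Icc.2 hst) (Set.right_mem_Icc.2 hst)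
  rw [Real.norm_eq_abs, Real.norm_eq_abs, abs_of_nonneg (sub_nonneg.2 hst)] at this
  linarith

/-- An affine change of variables. -/
lemma CaseIrr_comp (P : ℝ[X]) {j : ℕ} (hP : P.natDegree ≤ j) (u v : ℝ) :
    ∃ Q : ℝ[X], Q.natDegree ≤ j ∧ Q.coeff j = P.coeff j * u ^ j ∧
      ∀ x : ℝ, Q.eval x = P.eval (v + u * x) := by
  refine ⟨(Polynomial.taylor v P).comp (Polynomial.C u * Polynomial.X), ?_, ?_, fun x => ?_⟩
  · refine Polynomial.natDegree_comp_le.trans ?_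
    rw [Polynomial.natDegree_taylor]
    have h1 : (Polynomial.C u * Polynomial.X : ℝ[X]).natDegree ≤ 1 := by compute_degree
    calc P.natDegree * (Polynomial.C u * Polynomial.X : ℝ[X]).natDegree ≤ j * 1 :=
          Nat.mul_le_mul hP h1
      _ = j := mul_one j
  · rw [Polynomial.comp_C_mul_X_coeff]
    congr 1
    rcases hP.eq_or_lt with h | h
    · rw [← h, Polynomial.coeff_taylor_natDegree]; rfl
    · rw [Polynomial.coeff_eq_zero_of_natDegree_lt h,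
        Polynomial.coeff_eq_zero_of_natDegree_lt (by rwa [Polynomial.natDegree_taylor])]
  · simp [Polynomial.eval_comp, Polynomial.taylor_eval, add_comm]

/-- The local shape of the phase on progressions. -/
lemma CaseIrr_loc {b : ℝ → ℝ} (h : CaseIrr b) : ∃ (α : ℝ) (j q : ℕ) (r : ℝ → ℝ),
    Irrational α ∧ 1 ≤ j ∧ 1 ≤ q ∧ Slow r ∧ ∀ u v : ℕ, q ∣ u → ∃ Q : ℝ[X], Q.natDegree ≤ j ∧
      Q.coeff j = α * (u : ℝ) ^ j ∧ ∀ x : ℕ, ec (b ((v + u * x : ℕ) : ℝ)) =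
        ec (Q.eval (x : ℝ) + (r ((v + u * x : ℕ) : ℝ) - r v)) := by
  obtain ⟨P, j, q, hj, hq, hirr, hrat, hs⟩ := h
  obtain ⟨P₁, P₂, hP, hd, hc, hper⟩ := rat_split hrat
  refine ⟨P.coeff j, j, q, fun t => b t - P.eval t, hirr, hj, hq, hs, fun u v hu => ?_⟩
  obtain ⟨Q, hQd, hQc, hQe⟩ := CaseIrr_comp P₁ hd u v
  obtain ⟨w, rfl⟩ := hu
  refine ⟨Q + Polynomial.C (P₂.eval (v : ℝ) + (b v - P.eval (v : ℝ))), ?_, ?_, fun x => ?_⟩
  · refine (Polynomial.natDegree_add_le _ _).trans (max_le hQd ?_)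
    rw [Polynomial.natDegree_C]; exact Nat.zero_le _
  · rw [Polynomial.coeff_add, Polynomial.coeff_C, if_neg (by omega), add_zero, hQc, hc]
  · have h1 := hper v (w * x)
    have e1 : (((v : ℤ) + (q : ℤ) * ((w : ℤ) * (x : ℤ)) : ℤ) : ℝ) = ((v + q * w * x : ℕ) : ℝ) := by
      push_cast; ring
    have e2 : (((v : ℕ) : ℤ) : ℝ) = (v : ℝ) := by simp
    rw [e1, e2] at h1
    have e3 : ((v + q * w * x : ℕ) : ℝ) = (v : ℝ) + ((q * w : ℕ) : ℝ) * x := by
      push_cast; ring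
    have e4 : b ((v + q * w * x : ℕ) : ℝ) = P₂.eval ((v + q * w * x : ℕ) : ℝ) +
        (Q.eval (x : ℝ) + (b ((v + q * w * x : ℕ) : ℝ) - P.eval ((v + q * w * x : ℕ) : ℝ))) := by
      rw [hQe, ← e3, hP, Polynomial.eval_add]; ring
    rw [e4, ec_add, h1, ← ec_add]
    congr 1
    simp only [Polynomial.eval_add, Polynomial.eval_C]
    ring

/-- Perturbing the phase. -/
lemma CaseIrr_pert {g ρ : ℕ → ℝ} {l : ℕ} (hl : 1 ≤ l) {ε τ : ℝ} (hρ : ∀ x, x < l → |ρ x| ≤ τ)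
    (hg : ‖𝔼 x ∈ range l, ec (g x)‖ ≤ ε) : ‖𝔼 x ∈ range l, ec (g x + ρ x)‖ ≤ ε + 7 * τ := by
  have e : 𝔼 x ∈ range l, ec (g x + ρ x) =
      𝔼 x ∈ range l, ec (g x) + 𝔼 x ∈ range l, (ec (g x + ρ x) - ec (g x)) := by
    rw [← expect_add_distrib]; exact expect_congr rfl fun x _ => by ring
  rw [e]
  refine (norm_add_le _ _).trans (add_le_add hg ((norm_expect_le' _ _).trans ?_))
  refine expect_le (nonempty_range_iff.2 (by omega)) fun x hx => (norm_ec_sub _ _).trans ?_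
  rw [add_sub_cancel_left]
  linarith [hρ x (mem_range.1 hx)]

theorem ti_Irr {b : ℝ → ℝ} (h : CaseIrr b) : TI fun n => ec (b n) := by
  obtain ⟨α, j, q, r, hα, hj, hq, hr, hloc⟩ := CaseIrr_loc h
  refine ti_of_loc (fun n => (norm_ec _).le) fun q₁ hq₁ => ⟨q₁ * q, Nat.mul_pos hq₁ hq,
    Dvd.intro _ rfl, fun ε η hε hη => ?_⟩
  have hQ0 : q₁ * q ≠ 0 := (Nat.mul_pos hq₁ hq).ne'
  have hθ : Irrational (α * ((q₁ * q : ℕ) : ℝ) ^ j) := by
    have := hα.mul_natCast (pow_ne_zero j hQ0)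
    rwa [Nat.cast_pow] at this
  obtain ⟨Ω, hΩ⟩ := w2 hj hθ (half_pos hε)
  obtain ⟨T, hT1, hT⟩ := CaseIrr_var hr (γ := 1 / 2) (by norm_num) (by norm_num)
  set l := max Ω 1 with hl
  set D : ℝ := ((q₁ * q : ℕ) : ℝ) * l with hD
  have hD0 : 0 ≤ D := by positivity
  have t1 : Tendsto (fun y : ℕ => (y : ℝ)) atTop atTop := tendsto_natCast_atTop_atTop
  have t2 : Tendsto (fun y : ℕ => D * (y : ℝ) ^ (-(1 / 2) : ℝ)) atTop (𝓝 (D * 0)) :=
    ((tendsto_rpow_neg_atTop (by norm_num : (0 : ℝ) < 1 / 2)).comp t1).const_mul D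
  rw [mul_zero] at t2
  filter_upwards [t1.eventually_ge_atTop T, t1.eventually_ge_atTop (D / η),
    t2.eventually_le_const (by positivity : (0 : ℝ) < ε / 14)] with y hy1 hy2 hy3
  refine ⟨l, le_max_right _ _, ?_, fun c _ => ?_⟩
  · rw [div_le_iff₀ hη] at hy2
    linarith
  · obtain ⟨Q, hQd, hQc, hQe⟩ := hloc (q₁ * q) (y + c) (Dvd.intro_left _ rfl)
    simp only [hQe]
    have hy0 : (0 : ℝ) < y := by linarith
    have := CaseIrr_pert (g := fun x : ℕ => Q.eval (x : ℝ))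
      (ρ := fun x : ℕ => r ((y + c + q₁ * q * x : ℕ) : ℝ) - r ((y + c : ℕ) : ℝ)) (l := l)
      (le_max_right _ _) (ε := ε / 2) (τ := ε / 14) (fun x hx => ?_)
      (hΩ l (le_max_left _ _) Q hQd hQc)
    · linarith
    · refine (hT y _ _ hy1 (by push_cast; linarith [Nat.cast_nonneg (α := ℝ) c])
        (by exact_mod_cast Nat.le_add_right _ _)).trans (le_trans ?_ hy3)
      rw [← Real.rpow_sub_one hy0.ne', show (1 / 2 - 1 : ℝ) = -(1 / 2) by norm_num]
      refine mul_le_mul_of_nonneg_right ?_ (by positivity)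
      have : (x : ℝ) ≤ l := by exact_mod_cast hx.le
      rw [hD]
      push_cast
      have h0 : (0 : ℝ) ≤ (q₁ : ℝ) * q := by positivity
      nlinarith

lemma CaseIrr_log : ∀ᶠ N : ℕ in atTop, 1 ≤ Real.log N :=
  (Real.tendsto_log_atTop.comp tendsto_natCast_atTop_atTop).eventually_ge_atTop 1

lemma CaseIrr_harm {N : ℕ} (hN : 1 ≤ Real.log N) (δ : ℝ) :
    ∑ n ∈ rg N δ, (1 : ℝ) / n ≤ 3 * Real.log N := by
  refine (harm_le' _ _).trans ?_
  rw [Nat.cast_pow, Real.log_pow]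
  push_cast
  linarith

lemma CaseIrr_mem {N y : ℕ} {δ : ℝ} (hy : y ∈ rg N δ) : (N : ℝ) ^ δ < y ∧ y ≤ N ^ 2 := by
  rw [rg, mem_Ioc] at hy
  exact ⟨Nat.lt_of_floor_lt hy.1, hy.2⟩

/-- Covering by blocks of constant length. -/
lemma CaseIrr_cover {δ ε : ℝ} (hδ : 0 < δ) (hε : 0 < ε) {L : ℕ} (hL : 1 ≤ L) :
    ∀ᶠ N : ℕ in atTop, ∀ f : ℕ → ℂ, (∀ n, ‖f n‖ ≤ 1) →
      (∀ y ∈ rg N δ, ‖𝔼 x ∈ range L, f (y + x)‖ ≤ ε) →
        ‖∑ n ∈ rg N δ, f n / n‖ ≤ 13 * ε * Real.log N := by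
  have hη : 0 < min ε 1 := lt_min hε one_pos
  have t1 : Tendsto (fun N : ℕ => (N : ℝ) ^ δ) atTop atTop :=
    (tendsto_rpow_atTop hδ).comp tendsto_natCast_atTop_atTop
  filter_upwards [CaseIrr_log, t1.eventually_ge_atTop (L / min ε 1)] with N hN1 hN2 f hf h
  have := cover f hf ⌊(N : ℝ) ^ δ⌋₊ (N ^ 2) hε.le hη.le (min_le_right _ _) fun y hy1 hy2 => ?_
  · refine this.trans ?_
    rw [Nat.cast_pow, Real.log_pow]
    push_cast
    have h1 : min ε 1 ≤ ε := min_le_left _ _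
    have h2 : 2 * (ε + min ε 1) * (1 + 2 * Real.log N) ≤ 2 * (ε + ε) * (3 * Real.log N) :=
      mul_le_mul (by linarith) (by linarith) (by linarith) (by linarith)
    nlinarith
  · have hy : y ∈ rg N δ := mem_Ioc.2 ⟨hy1, hy2⟩
    refine ⟨L, hL, ?_, h y hy⟩
    rw [div_le_iff₀ hη] at hN2
    have := (CaseIrr_mem hy).1
    nlinarith

/-- Logarithmic equidistribution of an irrational monomial. -/
lemma CaseIrr_equi {θ : ℝ} (hθ : Irrational θ) {j : ℕ} (hj : 1 ≤ j) {δ κ : ℝ} (hδ : 0 < δ)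
    (hκ : 0 < κ) : ∀ᶠ N : ℕ in atTop,
      ‖∑ n ∈ rg N δ, ec (θ * (n : ℝ) ^ j) / n‖ ≤ κ * Real.log N := by
  obtain ⟨Ω, hΩ⟩ := w2 hj hθ (by positivity : 0 < κ / 13)
  filter_upwards [CaseIrr_cover hδ (by positivity : 0 < κ / 13) (le_max_right Ω 1)] with N hN
  have := hN (fun n => ec (θ * (n : ℝ) ^ j)) (fun n => (norm_ec _).le) fun y _ => ?_
  · linarith
  · obtain ⟨Q, hQd, hQc, hQe⟩ := CaseIrr_comp (Polynomial.C θ * Polynomial.X ^ j) (j := j)
      (by compute_degree) 1 y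
    have := hΩ (max Ω 1) (le_max_left _ _) Q hQd (by simpa using hQc)
    simpa [hQe] using this

/-- The indicator of being near an integer against a Fejer kernel. -/
lemma CaseIrr_fejer {K : ℕ} (hK : 1 ≤ K) (t : ℝ) :
    (if ∃ m : ℤ, |t - m| < 1 / (14 * K) then (1 : ℝ) else 0) ≤
      4 * 𝔼 l ∈ range K, 𝔼 l' ∈ range K, (ec (((l : ℝ) - l') * t)).re := by
  have e : 𝔼 l ∈ range K, 𝔼 l' ∈ range K, (ec (((l : ℝ) - l') * t)).re =
      ‖𝔼 l ∈ range K, ec ((l : ℝ) * t)‖ ^ 2 := by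
    rw [sq_norm_expect]
    refine expect_congr rfl fun l _ => expect_congr rfl fun l' _ => ?_
    rw [← ec_sub, sub_mul]
  rw [e]
  split_ifs with h
  · obtain ⟨m, hm⟩ := h
    have hK0 : (0 : ℝ) < K := by exact_mod_cast hK
    have hne : (range K).Nonempty := nonempty_range_iff.2 (by omega)
    have h1 : ‖𝔼 l ∈ range K, (ec ((l : ℝ) * t) - 1)‖ ≤ 1 / 2 := by
      refine (norm_expect_le' _ _).trans (expect_le hne fun l hl => ?_)
      have e2 : ec ((l : ℝ) * t) = ec ((l : ℝ) * (t - m)) := by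
        rw [← ec_add_int ((l : ℝ) * (t - m)) (l * m)]
        congr 1; push_cast; ring
      rw [e2]
      refine (norm_ec_sub_one _).trans ?_
      rw [abs_mul, Nat.abs_cast]
      have hl' : (l : ℝ) ≤ K := by exact_mod_cast (mem_range.1 hl).le
      have h3 : (l : ℝ) * |t - m| ≤ K * (1 / (14 * K)) :=
        mul_le_mul hl' hm.le (abs_nonneg _) hK0.le
      have h4 : (K : ℝ) * (1 / (14 * K)) = 1 / 14 := by field_simp
      linarith
    rw [expect_sub_distrib, expect_const hne] at h1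
    have h2 : 1 / 2 ≤ ‖𝔼 l ∈ range K, ec ((l : ℝ) * t)‖ := by
      have := norm_sub_norm_le (1 : ℂ) (𝔼 l ∈ range K, ec ((l : ℝ) * t))
      rw [norm_sub_rev, norm_one] at this
      linarith
    nlinarith
  · positivity

/-- The logarithmic mass of the points where the monomial is close to a given residue. -/
lemma CaseIrr_bad {κ : ℝ} (hκ : 0 < κ) : ∃ δ₀ : ℝ, 0 < δ₀ ∧ ∀ {θ : ℝ}, Irrational θ →
    ∀ {j : ℕ}, 1 ≤ j → ∀ {δ : ℝ}, 0 < δ → ∀ᶠ N : ℕ in atTop, ∀ c : ℝ,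
      ∑ n ∈ rg N δ, (if ∃ m : ℤ, |θ * (n : ℝ) ^ j - c - m| < δ₀ then (1 : ℝ) else 0) / n ≤
        16 * κ * Real.log N := by
  obtain ⟨K, hK⟩ := exists_nat_gt (1 / κ)
  have hK0 : (0 : ℝ) < K := lt_trans (by positivity) hK
  have hK1 : 1 ≤ K := by exact_mod_cast hK0
  have hne : (range K).Nonempty := nonempty_range_iff.2 (by omega)
  refine ⟨1 / (14 * K), by positivity, fun {θ} hθ {j} hj {δ} hδ => ?_⟩
  have hev : ∀ᶠ N : ℕ in atTop, ∀ l ∈ range K, ∀ l' ∈ range K, l ≠ l' →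
      ‖∑ n ∈ rg N δ, ec ((((l : ℝ) - l') * θ) * (n : ℝ) ^ j) / n‖ ≤ κ * Real.log N := by
    refine (eventually_all_finset _).2 fun l _ => (eventually_all_finset _).2 fun l' _ => ?_
    by_cases hll : l = l'
    · exact Eventually.of_forall fun N h => absurd hll h
    · have hi : Irrational (((l : ℝ) - l') * θ) := by
        have := hθ.intCast_mul (m := (l : ℤ) - l') (by omega)
        push_cast at this
        exact this
      filter_upwards [CaseIrr_equi hi hj hδ hκ] with N hN _ using hN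
  filter_upwards [hev, CaseIrr_log] with N hN hN1 c
  have hΛ := CaseIrr_harm hN1 δ
  calc ∑ n ∈ rg N δ, (if ∃ m : ℤ, |θ * (n : ℝ) ^ j - c - m| < 1 / (14 * K) then (1 : ℝ) else 0) / n
      ≤ ∑ n ∈ rg N δ, (4 * 𝔼 l ∈ range K, 𝔼 l' ∈ range K,
          (ec (((l : ℝ) - l') * (θ * (n : ℝ) ^ j - c))).re) / n :=
        sum_le_sum fun n _ => div_le_div_of_nonneg_right (CaseIrr_fejer hK1 _) (Nat.cast_nonneg _)
    _ = 4 * 𝔼 l ∈ range K, 𝔼 l' ∈ range K, ∑ n ∈ rg N δ,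
          (ec (((l : ℝ) - l') * (θ * (n : ℝ) ^ j - c))).re / n := by
        simp only [expect_sum_comm, mul_sum, mul_div_assoc, expect_div]
    _ ≤ 4 * 𝔼 l ∈ range K, 𝔼 l' ∈ range K,
          ((if l = l' then 3 * Real.log N else 0) + κ * Real.log N) := by
        refine mul_le_mul_of_nonneg_left (expect_le_expect fun l hl =>
          expect_le_expect fun l' hl' => ?_) (by norm_num)
        split_ifs with hll
        · subst hll
          simp only [sub_self, zero_mul, ec_zero, Complex.one_re]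
          have : 0 ≤ κ * Real.log N := by positivity
          linarith
        · have e : ∑ n ∈ rg N δ, (ec (((l : ℝ) - l') * (θ * (n : ℝ) ^ j - c))).re / n =
              (ec (-(((l : ℝ) - l') * c)) *
                ∑ n ∈ rg N δ, ec ((((l : ℝ) - l') * θ) * (n : ℝ) ^ j) / n).re := by
            rw [mul_sum, Complex.re_sum]
            refine sum_congr rfl fun n _ => ?_
            rw [← mul_div_assoc, ← ec_add, Complex.div_natCast_re]
            congr 3; ring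
          rw [e, zero_add]
          refine (Complex.re_le_norm _).trans ?_
          rw [norm_mul, norm_ec, one_mul]
          exact hN l hl l' hl' hll
    _ ≤ 4 * (3 * Real.log N / K + κ * Real.log N) := by
        refine mul_le_mul_of_nonneg_left (expect_le hne fun l hl => ?_) (by norm_num)
        rw [expect_add_distrib, expect_const hne, expect_eq_sum_div_card, sum_ite_eq, if_pos hl,
          card_range]
    _ ≤ 16 * κ * Real.log N := by
        have h1 : 1 / (K : ℝ) ≤ κ := by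
          rw [div_lt_iff₀ hκ] at hK
          rw [div_le_iff₀ hK0]; linarith
        have h2 : 3 * Real.log N / K ≤ 3 * Real.log N * κ := by
          rw [div_eq_mul_one_div]
          exact mul_le_mul_of_nonneg_left h1 (by linarith)
        nlinarith

/-- Cancellation for the good pairs of dilates. -/
lemma CaseIrr_good {b : ℝ → ℝ} (h : CaseIrr b) : ∃ (β : ℝ) (j : ℕ), Irrational β ∧ 1 ≤ j ∧
    ∀ ε : ℝ, 0 < ε → ∃ H : ℕ, ∀ δ₀ δ : ℝ, 0 < δ₀ → 0 < δ → ∀ᶠ N : ℕ in atTop,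
      ∀ a ∈ rg N δ, ∀ a' ∈ rg N δ, (∀ k : ℕ, 1 ≤ k → k ≤ H → ∀ n : ℤ,
        δ₀ ≤ |k * β * (a' : ℝ) ^ j - k * β * (a : ℝ) ^ j - n|) →
      ‖∑ m ∈ rg N δ, ec (b ((a' * m : ℕ) : ℝ)) * conj (ec (b ((a * m : ℕ) : ℝ))) / m‖ ≤
        13 * ε * Real.log N := by
  obtain ⟨α, j, q, r, hα, hj, hq, hr, hloc⟩ := CaseIrr_loc h
  have hβ : Irrational (α * (q : ℝ) ^ j) := by
    have := hα.mul_natCast (pow_ne_zero j (by omega : q ≠ 0))
    rwa [Nat.cast_pow] at this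
  refine ⟨α * (q : ℝ) ^ j, j, hβ, hj, fun ε hε => ?_⟩
  obtain ⟨H, hH⟩ := w3 hj (half_pos hε)
  refine ⟨H, fun δ₀ δ hδ₀ hδ => ?_⟩
  obtain ⟨Ω, hΩ⟩ := hH δ₀ hδ₀
  set l := max Ω 1 with hl
  set γ : ℝ := min (δ / 8) 1 with hγ
  have hγ0 : 0 < γ := lt_min (by positivity) one_pos
  obtain ⟨T, hT1, hT⟩ := CaseIrr_var hr hγ0 (min_le_right _ _)
  set D : ℝ := (q : ℝ) * l with hD
  have hD0 : 0 ≤ D := by positivity
  have t1 : Tendsto (fun N : ℕ => (N : ℝ) ^ δ) atTop atTop :=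
    (tendsto_rpow_atTop hδ).comp tendsto_natCast_atTop_atTop
  have t2 : Tendsto (fun N : ℕ => D * (N : ℝ) ^ (-(δ / 2))) atTop (𝓝 (D * 0)) :=
    ((tendsto_rpow_neg_atTop (half_pos hδ)).comp tendsto_natCast_atTop_atTop).const_mul D
  rw [mul_zero] at t2
  filter_upwards [CaseIrr_cover hδ hε (L := q * l) (Nat.mul_pos hq (le_max_right Ω 1)),
    t1.eventually_ge_atTop T, t2.eventually_le_const (by positivity : (0 : ℝ) < ε / 28),
    eventually_ge_atTop 1] with N hcov hN1 hN2 hN3 a ha a' ha' hgood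
  have hN0 : (1 : ℝ) ≤ N := by exact_mod_cast hN3
  have hvar : ∀ a ∈ rg N δ, ∀ y ∈ rg N δ, ∀ c x : ℕ, x < l →
      |r ((a * (y + c) + a * q * x : ℕ) : ℝ) - r ((a * (y + c) : ℕ) : ℝ)| ≤ ε / 28 := by
    intro a ha y hy c x hx
    obtain ⟨ha1, ha2⟩ := CaseIrr_mem ha
    obtain ⟨hy1, hy2⟩ := CaseIrr_mem hy
    have ha3 : (1 : ℝ) ≤ a := by linarith
    have hy3 : (1 : ℝ) ≤ y := by linarith
    have hc0 : (0 : ℝ) ≤ c := Nat.cast_nonneg _
    refine (hT ((a : ℝ) * y) _ _ (by nlinarith) (by push_cast; nlinarith)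
      (by exact_mod_cast Nat.le_add_right _ _)).trans (le_trans ?_ hN2)
    have h1 : ((a : ℝ) * y) ^ γ ≤ (N : ℝ) ^ (δ / 2) := by
      have h2 : (a : ℝ) * y ≤ (N : ℝ) ^ (4 : ℝ) := by
        have h3 : (a : ℝ) ≤ (N : ℝ) ^ 2 := by exact_mod_cast ha2
        have h4 : (y : ℝ) ≤ (N : ℝ) ^ 2 := by exact_mod_cast hy2
        rw [show (4 : ℝ) = ((4 : ℕ) : ℝ) by norm_num, Real.rpow_natCast]
        calc (a : ℝ) * y ≤ (N : ℝ) ^ 2 * (N : ℝ) ^ 2 :=
              mul_le_mul h3 h4 (by linarith) (by positivity)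
          _ = (N : ℝ) ^ 4 := by ring
      calc ((a : ℝ) * y) ^ γ ≤ ((N : ℝ) ^ (4 : ℝ)) ^ γ :=
            Real.rpow_le_rpow (by positivity) h2 hγ0.le
        _ = (N : ℝ) ^ (4 * γ) := by rw [← Real.rpow_mul (by linarith)]
        _ ≤ (N : ℝ) ^ (δ / 2) := Real.rpow_le_rpow_of_exponent_le hN0
            (by have : γ ≤ δ / 8 := min_le_left _ _; linarith)
    have hx' : (x : ℝ) ≤ l := by exact_mod_cast hx.le
    have hpos : 0 < (N : ℝ) ^ δ := by positivity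
    have e1 : (((a * (y + c) + a * q * x : ℕ) : ℝ) - ((a * (y + c) : ℕ) : ℝ)) *
        (((a : ℝ) * y) ^ γ / (a * y)) = q * x * (((a : ℝ) * y) ^ γ / y) := by
      push_cast; field_simp; ring
    have e2 : (N : ℝ) ^ (-(δ / 2)) = (N : ℝ) ^ (δ / 2) / (N : ℝ) ^ δ := by
      rw [← Real.rpow_sub (by linarith)]; congr 1; ring
    rw [e1, e2]
    refine mul_le_mul (mul_le_mul_of_nonneg_left hx' (Nat.cast_nonneg _)) ?_ (by positivity) hD0
    exact div_le_div₀ (by positivity) h1 hpos hy1.le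
  refine hcov (fun m => ec (b ((a' * m : ℕ) : ℝ)) * conj (ec (b ((a * m : ℕ) : ℝ))))
    (fun n => by simp) fun y hy => block_ap
      (fun m => ec (b ((a' * m : ℕ) : ℝ)) * conj (ec (b ((a * m : ℕ) : ℝ)))) l y hq fun c _ => ?_
  obtain ⟨Q, hQd, hQc, hQe⟩ := hloc (a * q) (a * (y + c)) (Dvd.intro_left _ rfl)
  obtain ⟨Q', hQd', hQc', hQe'⟩ := hloc (a' * q) (a' * (y + c)) (Dvd.intro_left _ rfl)
  have e : ∀ x : ℕ, ec (b ((a' * (y + c + q * x) : ℕ) : ℝ)) *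
      conj (ec (b ((a * (y + c + q * x) : ℕ) : ℝ))) = ec ((Q' - Q).eval (x : ℝ) +
        ((r ((a' * (y + c) + a' * q * x : ℕ) : ℝ) - r ((a' * (y + c) : ℕ) : ℝ)) -
          (r ((a * (y + c) + a * q * x : ℕ) : ℝ) - r ((a * (y + c) : ℕ) : ℝ)))) := by
    intro x
    rw [show a' * (y + c + q * x) = a' * (y + c) + a' * q * x by ring,
      show a * (y + c + q * x) = a * (y + c) + a * q * x by ring, hQe, hQe', ← ec_sub,
      Polynomial.eval_sub]
    congr 1; ring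
  simp only [e]
  have := CaseIrr_pert (g := fun x : ℕ => (Q' - Q).eval (x : ℝ))
    (ρ := fun x : ℕ => (r ((a' * (y + c) + a' * q * x : ℕ) : ℝ) - r ((a' * (y + c) : ℕ) : ℝ)) -
      (r ((a * (y + c) + a * q * x : ℕ) : ℝ) - r ((a * (y + c) : ℕ) : ℝ))) (l := l)
    (le_max_right _ _) (ε := ε / 2) (τ := ε / 14) (fun x hx => ?_)
    (hΩ l (le_max_left _ _) (Q' - Q) ((Polynomial.natDegree_sub_le _ _).trans (max_le hQd' hQd))
      fun k hk1 hk2 n => ?_)
  · linarith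
  · refine (abs_sub _ _).trans ?_
    linarith [hvar a ha y hy c x hx, hvar a' ha' y hy c x hx]
  · rw [Polynomial.coeff_sub, hQc, hQc']
    refine (hgood k hk1 hk2 n).trans_eq ?_
    congr 1; push_cast; ring

theorem pair_Irr {b : ℝ → ℝ} (h : CaseIrr b) : Pair fun n => ec (b n) := by
  obtain ⟨β, j, hβ, hj, hgood⟩ := CaseIrr_good h
  intro δ ε hδ hε
  obtain ⟨H, hH⟩ := hgood (ε / 234) (by positivity)
  set κ : ℝ := ε / (288 * (H + 1)) with hκ
  have hκ0 : 0 < κ := by positivity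
  obtain ⟨δ₀, hδ₀, hbad⟩ := CaseIrr_bad hκ0
  have hev : ∀ᶠ N : ℕ in atTop, ∀ k ∈ Icc 1 H, ∀ c : ℝ,
      ∑ n ∈ rg N δ, (if ∃ m : ℤ, |k * β * (n : ℝ) ^ j - c - m| < δ₀ then (1 : ℝ) else 0) / n ≤
        16 * κ * Real.log N :=
    (eventually_all_finset _).2 fun k hk =>
      hbad (hβ.natCast_mul (by have := (mem_Icc.1 hk).1; omega)) hj hδ
  filter_upwards [hH δ₀ δ hδ₀ hδ, hev, CaseIrr_log] with N hN1 hN2 hN3
  have hΛ := CaseIrr_harm hN3 δ
  set Lg := Real.log N with hLg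
  have hS : ∀ a ∈ rg N δ, ∀ a' ∈ rg N δ,
      ‖∑ m ∈ rg N δ, ec (b ((a' * m : ℕ) : ℝ)) * conj (ec (b ((a * m : ℕ) : ℝ))) / m‖ ≤
        13 * (ε / 234) * Lg + 3 * Lg * ∑ k ∈ Icc 1 H,
          (if ∃ m : ℤ, |k * β * (a' : ℝ) ^ j - k * β * (a : ℝ) ^ j - m| < δ₀ then (1 : ℝ)
            else 0) := by
    intro a ha a' ha'
    have hnn : ∀ k ∈ Icc 1 H, (0 : ℝ) ≤
        (if ∃ m : ℤ, |k * β * (a' : ℝ) ^ j - k * β * (a : ℝ) ^ j - m| < δ₀ then (1 : ℝ)
          else 0) := fun k _ => by split_ifs <;> norm_num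
    by_cases hg : ∀ k : ℕ, 1 ≤ k → k ≤ H → ∀ n : ℤ,
        δ₀ ≤ |k * β * (a' : ℝ) ^ j - k * β * (a : ℝ) ^ j - n|
    · have h1 := hN1 a ha a' ha' hg
      have h2 := mul_nonneg (by linarith : 0 ≤ 3 * Lg) (sum_nonneg hnn)
      linarith
    · push Not at hg
      obtain ⟨k, hk1, hk2, n, hn⟩ := hg
      have h1 := single_le_sum hnn (mem_Icc.2 ⟨hk1, hk2⟩)
      rw [if_pos ⟨n, hn⟩] at h1
      have h2 : ‖∑ m ∈ rg N δ, ec (b ((a' * m : ℕ) : ℝ)) * conj (ec (b ((a * m : ℕ) : ℝ))) / m‖ ≤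
          3 * Lg := by
        refine (norm_sum_le _ _).trans (le_trans (sum_le_sum fun m _ => ?_) hΛ)
        simp
      have h3 := mul_le_mul_of_nonneg_left h1 (by linarith : 0 ≤ 3 * Lg)
      have h4 : 0 ≤ 13 * (ε / 234) * Lg := by positivity
      linarith
  have hin : ∀ a ∈ rg N δ, ∑ a' ∈ rg N δ,
      ‖∑ m ∈ rg N δ, ec (b ((a' * m : ℕ) : ℝ)) * conj (ec (b ((a * m : ℕ) : ℝ))) / m‖ / (a * a') ≤
        ε / 3 * Lg ^ 2 * (1 / a) := by
    intro a ha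
    calc _ ≤ ∑ a' ∈ rg N δ, (13 * (ε / 234) * Lg + 3 * Lg * ∑ k ∈ Icc 1 H,
          (if ∃ m : ℤ, |k * β * (a' : ℝ) ^ j - k * β * (a : ℝ) ^ j - m| < δ₀ then (1 : ℝ)
            else 0)) / (a * a') :=
          sum_le_sum fun a' ha' => div_le_div_of_nonneg_right (hS a ha a' ha') (by positivity)
      _ = (13 * (ε / 234) * Lg * ∑ a' ∈ rg N δ, (1 : ℝ) / a' + 3 * Lg * ∑ k ∈ Icc 1 H,
          ∑ a' ∈ rg N δ, (if ∃ m : ℤ, |k * β * (a' : ℝ) ^ j - k * β * (a : ℝ) ^ j - m| < δ₀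
            then (1 : ℝ) else 0) / a') * (1 / a) := by
          rw [sum_comm, mul_sum, mul_sum, ← sum_add_distrib, sum_mul]
          refine sum_congr rfl fun a' _ => ?_
          rw [← sum_div]
          ring
      _ ≤ ε / 3 * Lg ^ 2 * (1 / a) := by
          refine mul_le_mul_of_nonneg_right ?_ (by positivity)
          have h1 : ∑ k ∈ Icc 1 H, ∑ a' ∈ rg N δ,
              (if ∃ m : ℤ, |k * β * (a' : ℝ) ^ j - k * β * (a : ℝ) ^ j - m| < δ₀
                then (1 : ℝ) else 0) / a' ≤ H * (16 * κ * Lg) := by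
            have := sum_le_card_nsmul _ _ _ fun k hk => hN2 k hk (k * β * (a : ℝ) ^ j)
            simpa using this
          have h2 : (H : ℝ) * κ ≤ ε / 288 := by
            rw [hκ, ← mul_div_assoc, div_le_div_iff₀ (by positivity) (by positivity)]
            nlinarith [Nat.cast_nonneg (α := ℝ) H]
          have h3 := mul_le_mul_of_nonneg_left hΛ (by positivity : 0 ≤ 13 * (ε / 234) * Lg)
          have h4 := mul_le_mul_of_nonneg_left h1 (by positivity : 0 ≤ 3 * Lg)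
          have h5 := mul_le_mul_of_nonneg_left h2 (by positivity : 0 ≤ 48 * Lg ^ 2)
          nlinarith
  refine (sum_le_sum hin).trans ?_
  rw [← mul_sum]
  have := mul_le_mul_of_nonneg_left hΛ (by positivity : 0 ≤ ε / 3 * Lg ^ 2)
  nlinarith

end Pool.Agent.MP_357fb4_an
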