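import Pool.Agent.MP_357fb4_an.Nu

/-!
From correlations of dilates to bilinear sums; the first derivative test.
-/

open scoped BigOperators Classical ComplexConjugate Polynomial
open Finset Filter MeasureTheory Topology

noncomputable section

namespace Pool.Agent.MP_357fb4_an

lemma PairL_log (C : ℝ) : ∀ᶠ N : ℕ in atTop, C ≤ Real.log N :=
  (Real.tendsto_log_atTop.comp tendsto_natCast_atTop_atTop).eventually_ge_atTop C

lemma PairL_harm {N : ℕ} (δ : ℝ) (h : 1 ≤ Real.log N) :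
    ∑ n ∈ rg N δ, (1 : ℝ) / n ≤ 3 * Real.log N := by
  have := harm_le' ⌊(N : ℝ) ^ δ⌋₊ (N ^ 2)
  rw [Nat.cast_pow, Real.log_pow] at this
  unfold rg
  push_cast at this
  linarith

lemma PairL_cs (s : Finset ℕ) (φ u v : ℕ → ℂ) (hu : ∀ n, ‖u n‖ ≤ 1) (hv : ∀ n, ‖v n‖ ≤ 1) :
    ‖∑ a ∈ s, ∑ m ∈ s, u a * v m * φ (a * m) / (a * m)‖ ^ 2 ≤ (∑ m ∈ s, (1 : ℝ) / m) *
      ∑ a ∈ s, ∑ a' ∈ s, ‖∑ m ∈ s, φ (a' * m) * conj (φ (a * m)) / m‖ / (a * a') := by
  obtain ⟨X, hX⟩ : ∃ X : ℕ → ℂ, X = fun m => ∑ a ∈ s, u a * φ (a * m) / a := ⟨_, rfl⟩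
  have h1 : ‖∑ a ∈ s, ∑ m ∈ s, u a * v m * φ (a * m) / (a * m)‖ ≤ ∑ m ∈ s, ‖X m‖ / m := by
    rw [sum_comm]
    refine (norm_sum_le _ _).trans (sum_le_sum fun m _ => ?_)
    have e : ∑ a ∈ s, u a * v m * φ (a * m) / (a * m) = v m * X m / m := by
      rw [hX, mul_sum, sum_div]
      exact sum_congr rfl fun a _ => by ring
    rw [e, norm_div, norm_mul, Complex.norm_natCast]
    gcongr
    exact mul_le_of_le_one_left (norm_nonneg _) (hv m)
  have h2 : (∑ m ∈ s, ‖X m‖ / m) ^ 2 ≤ (∑ m ∈ s, (1 : ℝ) / m) * ∑ m ∈ s, ‖X m‖ ^ 2 / m :=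
    sum_sq_le_sum_mul_sum_of_sq_eq_mul s (fun m _ => by positivity) (fun m _ => by positivity)
      fun m _ => by ring
  have h3 : ((∑ m ∈ s, ‖X m‖ ^ 2 / m : ℝ) : ℂ) = ∑ a ∈ s, ∑ a' ∈ s,
      u a' * conj (u a) * (∑ m ∈ s, φ (a' * m) * conj (φ (a * m)) / m) / (a * a') := by
    have e : ∀ m : ℕ, ((‖X m‖ ^ 2 / m : ℝ) : ℂ) = ∑ a ∈ s, ∑ a' ∈ s,
        u a' * conj (u a) * (φ (a' * m) * conj (φ (a * m)) / m) / (a * a') := fun m => by
      rw [Complex.ofReal_div, ← Complex.normSq_eq_norm_sq, Complex.normSq_eq_conj_mul_self, hX]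
      simp only [map_sum, map_div₀, map_mul, map_natCast, Complex.ofReal_natCast]
      rw [sum_mul_sum, sum_div]
      refine sum_congr rfl fun a _ => ?_
      rw [sum_div]
      exact sum_congr rfl fun a' _ => by ring
    rw [Complex.ofReal_sum, sum_congr rfl fun m _ => e m, sum_comm]
    refine sum_congr rfl fun a _ => ?_
    rw [sum_comm]
    refine sum_congr rfl fun a' _ => ?_
    rw [mul_sum, sum_div]
  have h4 : ∑ m ∈ s, ‖X m‖ ^ 2 / m ≤
      ∑ a ∈ s, ∑ a' ∈ s, ‖∑ m ∈ s, φ (a' * m) * conj (φ (a * m)) / m‖ / (a * a') := by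
    refine (Real.le_norm_self _).trans ?_
    rw [← Complex.norm_real, h3]
    refine (norm_sum_le _ _).trans (sum_le_sum fun a _ => ?_)
    refine (norm_sum_le _ _).trans (sum_le_sum fun a' _ => ?_)
    rw [norm_div, norm_mul, norm_mul, norm_mul, Complex.norm_natCast, Complex.norm_natCast,
      Complex.norm_conj]
    gcongr
    exact mul_le_of_le_one_left (norm_nonneg _) (mul_le_one₀ (hu a') (norm_nonneg _) (hu a))
  refine (pow_le_pow_left₀ (norm_nonneg _) h1 2).trans (h2.trans ?_)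
  exact mul_le_mul_of_nonneg_left h4 (sum_nonneg fun m _ => by positivity)

theorem bil_of_pair {φ : ℕ → ℂ} (h : Pair φ) : Bil φ := by
  intro δ ε hδ hε
  filter_upwards [h δ (ε ^ 2 / 3) hδ (by positivity), PairL_log 1] with N hN hL u v hu hv
  have h1 := PairL_cs (rg N δ) φ u v hu hv
  have h2 := PairL_harm δ hL
  have h3 := mul_le_mul h2 hN
    (sum_nonneg fun a _ => sum_nonneg fun a' _ => by positivity) (by linarith)
  refine (pow_le_pow_iff_left₀ (norm_nonneg _) (by positivity) two_ne_zero).1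
    (h1.trans (h3.trans (le_of_eq ?_)))
  ring

lemma PairL_near (s : Finset ℕ) {x y : ℝ} (hx : 0 < x) (hxy : x ≤ y)
    (hs : ∀ n ∈ s, x ≤ n ∧ (n : ℝ) ≤ y) :
    ∑ n ∈ s, (1 : ℝ) / n ≤ 1 + (Real.log y - Real.log x) := by
  have hl : Real.log x ≤ Real.log y := Real.log_le_log hx hxy
  have hc : 1 ≤ ⌈x⌉₊ := Nat.one_le_iff_ne_zero.2 (Nat.ceil_pos.2 hx).ne'
  rcases s.eq_empty_or_nonempty with rfl | ⟨n, hn⟩
  · rw [sum_empty]; linarith
  have hcf : ⌈x⌉₊ ≤ ⌊y⌋₊ := (Nat.ceil_le.2 (hs n hn).1).trans (Nat.le_floor (hs n hn).2)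
  have hsub : s ⊆ insert ⌈x⌉₊ (Ioc ⌈x⌉₊ ⌊y⌋₊) := fun m hm => by
    have a := Nat.ceil_le.2 (hs m hm).1
    have b := Nat.le_floor (hs m hm).2
    rw [mem_insert, mem_Ioc]
    omega
  refine (sum_le_sum_of_subset_of_nonneg hsub fun m _ _ => by positivity).trans ?_
  rw [sum_insert (by simp)]
  have h1 := harm_le hc hcf
  have hc' : (1 : ℝ) ≤ ⌈x⌉₊ := by exact_mod_cast hc
  have h2 : (1 : ℝ) / ⌈x⌉₊ ≤ 1 := by rw [div_le_one (by linarith)]; exact hc'
  have h3 : Real.log x ≤ Real.log ⌈x⌉₊ := Real.log_le_log hx (Nat.le_ceil x)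
  have h4 : Real.log ⌊y⌋₊ ≤ Real.log y := Real.log_le_log
    (by exact_mod_cast (by omega : 0 < ⌊y⌋₊)) (Nat.floor_le (hx.le.trans hxy))
  linarith

theorem pair_of_far {φ : ℕ → ℂ} (hφ : ∀ n, ‖φ n‖ ≤ 1) (h : PairFar φ) : Pair φ := by
  intro δ ε hδ hε
  filter_upwards [h δ (ε / 54) (ε / 27) hδ (by positivity) (by positivity), PairL_log 1,
    PairL_log (27 / ε), eventually_ge_atTop 1] with N hN hL hL' hN1
  have hH := PairL_harm δ hL
  have hN0 : (1 : ℝ) ≤ N := by exact_mod_cast hN1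
  have hP : (1 : ℝ) ≤ (N : ℝ) ^ (ε / 54) := Real.one_le_rpow hN0 (by positivity)
  have hlP : Real.log ((N : ℝ) ^ (ε / 54)) = ε / 54 * Real.log N :=
    Real.log_rpow (by linarith) _
  have hpos : ∀ a ∈ rg N δ, (0 : ℝ) < a := fun a ha => by
    have := (mem_Ioc.1 ha).1
    exact_mod_cast (by omega : 0 < a)
  generalize (N : ℝ) ^ (ε / 54) = P at hN hP hlP
  generalize Real.log N = L at hN hL hL' hH hlP ⊢
  generalize rg N δ = s at hN hH hpos ⊢
  have hT : ∀ a a' : ℕ, ‖∑ m ∈ s, φ (a' * m) * conj (φ (a * m)) / m‖ ≤ 3 * L := fun a a' => by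
    refine (norm_sum_le _ _).trans (le_trans (sum_le_sum fun m _ => ?_) hH)
    rw [norm_div, norm_mul, Complex.norm_natCast, Complex.norm_conj]
    gcongr
    exact mul_le_one₀ (hφ _) (norm_nonneg _) (hφ _)
  have hsym : ∀ a a' : ℕ, ‖∑ m ∈ s, φ (a' * m) * conj (φ (a * m)) / m‖ =
      ‖∑ m ∈ s, φ (a * m) * conj (φ (a' * m)) / m‖ := fun a a' => by
    rw [← Complex.norm_conj, map_sum]
    congr 1
    refine sum_congr rfl fun m _ => ?_
    rw [map_div₀, map_mul, Complex.conj_conj, map_natCast, mul_comm]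
  have hrow : ∀ a ∈ s, ∑ a' ∈ s, ‖∑ m ∈ s, φ (a' * m) * conj (φ (a * m)) / m‖ / (a * a') ≤
      1 / a * (ε / 27 * L * (3 * L) + 3 * L * (1 + ε / 27 * L)) := fun a ha => by
    have ha0 := hpos a ha
    have hnear := PairL_near (s.filter fun n : ℕ => a / P ≤ n ∧ (n : ℝ) ≤ a * P)
      (x := a / P) (y := a * P) (by positivity)
      ((div_le_self ha0.le hP).trans (le_mul_of_one_le_right ha0.le hP))
      fun n hn => (mem_filter.1 hn).2
    rw [Real.log_mul ha0.ne' (by positivity), Real.log_div ha0.ne' (by positivity), hlP,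
      sum_filter] at hnear
    have hpt : ∀ a' ∈ s, ‖∑ m ∈ s, φ (a' * m) * conj (φ (a * m)) / m‖ / (a * a') ≤
        1 / a * (ε / 27 * L * (1 / a') + 3 * L *
          if a / P ≤ a' ∧ (a' : ℝ) ≤ a * P then 1 / (a' : ℝ) else 0) := fun a' ha' => by
      have ha1 := hpos a' ha'
      split_ifs with hc
      · calc _ ≤ (ε / 27 * L + 3 * L) / (a * a') := by
              gcongr
              exact (hT a a').trans (le_add_of_nonneg_left (by positivity))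
          _ = _ := by field_simp
      · have hf : ‖∑ m ∈ s, φ (a' * m) * conj (φ (a * m)) / m‖ ≤ ε / 27 * L := by
          rcases not_and_or.1 hc with hc | hc
          · rw [hsym]
            exact hN a' ha' a ha ((lt_div_iff₀ (by positivity)).1 (not_le.1 hc)).le
          · exact hN a ha a' ha' (not_le.1 hc).le
        calc _ ≤ (ε / 27 * L) / (a * a') := by gcongr
          _ = _ := by field_simp; ring
    refine (sum_le_sum hpt).trans ?_
    rw [← mul_sum, sum_add_distrib, ← mul_sum, ← mul_sum]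
    gcongr
    linarith
  refine (sum_le_sum hrow).trans ?_
  rw [← sum_mul]
  refine (mul_le_mul_of_nonneg_right hH (by positivity)).trans ?_
  rw [div_le_iff₀ hε] at hL'
  have : 0 ≤ L ^ 2 * (L * ε - 27) := mul_nonneg (by positivity) (by linarith)
  nlinarith

lemma PairL_fdt {a b : ℝ} (hab : a ≤ b) {g g' ψ ψ' : ℝ → ℝ}
    (hg : ∀ t ∈ Set.Icc a b, HasDerivAt g (g' t) t) (hs : ∀ t ∈ Set.Icc a b, 0 ≤ g' t)
    (hψ : ∀ t ∈ Set.Icc a b, HasDerivAt ψ (ψ' t) t) (hc : ContinuousOn ψ' (Set.Icc a b)) :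
    ‖∫ t in a..b, ((g t * ψ' t : ℝ) : ℂ) * ec (ψ t)‖ ≤ |g a| + |g b| := by
  have hI : Set.uIcc a b = Set.Icc a b := Set.uIcc_of_le hab
  have hgi : IntervalIntegrable g' volume a b :=
    (intervalIntegrable_iff_integrableOn_Ioc_of_le hab).2
      (intervalIntegral.integrableOn_deriv_of_nonneg
        (fun t ht => (hg t ht).continuousAt.continuousWithinAt)
        (fun t ht => hg t (Set.Ioo_subset_Icc_self ht)) fun t ht => hs t (Set.Ioo_subset_Icc_self ht))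
  have hπ : (2 * Real.pi * Complex.I : ℂ) ≠ 0 := Complex.two_pi_I_ne_zero
  have hv : ∀ t ∈ Set.uIcc a b, HasDerivAt (fun t => ec (ψ t) / (2 * Real.pi * Complex.I))
      ((ψ' t : ℂ) * ec (ψ t)) t := fun t ht => by
    have h1 := ((hasDerivAt_ec (ψ t)).scomp t (hψ t (hI ▸ ht))).div_const
      (2 * Real.pi * Complex.I)
    refine h1.congr_deriv ?_
    rw [Complex.real_smul]
    field_simp
  have hn : ∀ t, ‖ec (ψ t) / (2 * Real.pi * Complex.I)‖ ≤ 1 / 2 := fun t => by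
    rw [norm_div, norm_ec, norm_mul, norm_mul, Complex.norm_I, Complex.norm_real, mul_one,
      Real.norm_of_nonneg Real.pi_pos.le, Complex.norm_ofNat]
    exact one_div_le_one_div_of_le two_pos (by linarith [Real.pi_gt_three])
  have hψc : ContinuousOn ψ (Set.Icc a b) := fun t ht => (hψ t ht).continuousAt.continuousWithinAt
  have hp := intervalIntegral.integral_mul_deriv_eq_deriv_mul (u := fun t => (g t : ℂ))
    (u' := fun t => (g' t : ℂ)) (fun t ht => (hg t (hI ▸ ht)).ofReal_comp) hv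
    ⟨hgi.1.ofReal, hgi.2.ofReal⟩
    (ContinuousOn.intervalIntegrable (by
      rw [hI]
      exact (Complex.continuous_ofReal.comp_continuousOn hc).mul
        (continuous_ec.comp_continuousOn hψc)))
  have e : ∫ t in a..b, ((g t * ψ' t : ℝ) : ℂ) * ec (ψ t) =
      ∫ t in a..b, (g t : ℂ) * ((ψ' t : ℂ) * ec (ψ t)) := by
    congr 1
    funext t
    push_cast
    ring
  rw [e, hp]
  have h2 : ‖∫ t in a..b, (g' t : ℂ) * (ec (ψ t) / (2 * Real.pi * Complex.I))‖ ≤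
      ∫ t in a..b, g' t * (1 / 2) := by
    refine intervalIntegral.norm_integral_le_of_norm_le hab (Eventually.of_forall fun t ht => ?_)
      (hgi.mul_const _)
    have h0 := hs t (Set.Ioc_subset_Icc_self ht)
    rw [norm_mul, Complex.norm_real, Real.norm_of_nonneg h0]
    exact mul_le_mul_of_nonneg_left (hn t) h0
  rw [intervalIntegral.integral_mul_const,
    intervalIntegral.integral_eq_sub_of_hasDerivAt (fun t ht => hg t (hI ▸ ht)) hgi] at h2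
  have h3 : ∀ t, ‖(g t : ℂ) * (ec (ψ t) / (2 * Real.pi * Complex.I))‖ ≤ |g t| * (1 / 2) :=
    fun t => by
      rw [norm_mul, Complex.norm_real, Real.norm_eq_abs]
      exact mul_le_mul_of_nonneg_left (hn t) (abs_nonneg _)
  refine (norm_sub_le _ _).trans ((add_le_add (norm_sub_le _ _) h2).trans ?_)
  have := h3 a
  have := h3 b
  have := le_abs_self (g b)
  have := neg_abs_le (g a)
  linarith

theorem fdt {a b : ℝ} (hab : a ≤ b) {g g' ψ ψ' : ℝ → ℝ}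
    (hg : ∀ t ∈ Set.Icc a b, HasDerivAt g (g' t) t)
    (hs : (∀ t ∈ Set.Icc a b, 0 ≤ g' t) ∨ ∀ t ∈ Set.Icc a b, g' t ≤ 0)
    (hψ : ∀ t ∈ Set.Icc a b, HasDerivAt ψ (ψ' t) t) (hc : ContinuousOn ψ' (Set.Icc a b)) :
    ‖∫ t in a..b, ((g t * ψ' t : ℝ) : ℂ) * ec (ψ t)‖ ≤ |g a| + |g b| := by
  rcases hs with hs | hs
  · exact PairL_fdt hab hg hs hψ hc
  · have h := PairL_fdt hab (g := fun t => -g t) (g' := fun t => -g' t)
      (fun t ht => (hg t ht).neg) (fun t ht => neg_nonneg.2 (hs t ht)) hψ hc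
    rw [abs_neg, abs_neg, ← norm_neg, ← intervalIntegral.integral_neg] at h
    refine le_trans (le_of_eq ?_) h
    congr 2
    funext t
    push_cast
    ring

lemma PairL_range (f : ℕ → ℂ) (n q : ℕ) :
    ∑ m ∈ Ioc n (n + q), f m = ∑ j ∈ range q, f (n + j + 1) := by
  induction q with
  | zero => simp
  | succ q ih => rw [← add_assoc, sum_Ioc_succ_top (Nat.le_add_right n q), ih, sum_range_succ]

/-- One block of the comparison between the sum and the integral. -/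
lemma PairL_block {n Q : ℕ} (χ : ℕ → ℂ) (hχ : ∀ n, ‖χ n‖ ≤ 1) {c : ℂ} (hc : ‖c‖ ≤ 1)
    (hb : ∑ m ∈ Ioc n (n + Q), χ m = Q * c) {F : ℝ → ℂ} {D : ℝ}
    (hF : IntervalIntegrable F volume n (n + Q : ℕ))
    (hD : ∀ t ∈ Set.Icc (n : ℝ) (n + Q : ℕ), ‖F t - F n‖ ≤ D) :
    ‖∑ m ∈ Ioc n (n + Q), χ m * F m - c * ∫ t in (n : ℝ)..(n + Q : ℕ), F t‖ ≤ 2 * Q * D := by
  have hle : (n : ℝ) ≤ (n + Q : ℕ) := by exact_mod_cast Nat.le_add_right n Q
  have hQ : ((n + Q : ℕ) : ℝ) - n = Q := by push_cast; ring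
  have e : ∑ m ∈ Ioc n (n + Q), χ m * F m - c * ∫ t in (n : ℝ)..(n + Q : ℕ), F t =
      ∑ m ∈ Ioc n (n + Q), χ m * (F m - F n) - c * ∫ t in (n : ℝ)..(n + Q : ℕ), (F t - F n) := by
    rw [intervalIntegral.integral_sub hF intervalIntegrable_const, intervalIntegral.integral_const,
      hQ, sum_congr rfl fun m _ => mul_sub (χ m) (F m) (F n), sum_sub_distrib, ← sum_mul, hb,
      Complex.real_smul]
    push_cast
    ring
  have h1 : ‖∑ m ∈ Ioc n (n + Q), χ m * (F m - F n)‖ ≤ Q * D := by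
    refine (norm_sum_le _ _).trans ((sum_le_card_nsmul _ _ D fun m hm => ?_).trans ?_)
    · rw [norm_mul]
      refine (mul_le_of_le_one_left (norm_nonneg _) (hχ m)).trans (hD m ⟨?_, ?_⟩)
      · exact_mod_cast (mem_Ioc.1 hm).1.le
      · exact_mod_cast (mem_Ioc.1 hm).2
    · simp
  have h2 : ‖∫ t in (n : ℝ)..(n + Q : ℕ), (F t - F n)‖ ≤ D * |((n + Q : ℕ) : ℝ) - n| :=
    intervalIntegral.norm_integral_le_of_norm_le_const fun t ht =>
      hD t (Set.Ioc_subset_Icc_self (Set.uIoc_of_le hle ▸ ht))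
  rw [hQ, Nat.abs_cast] at h2
  rw [e]
  refine (norm_sub_le _ _).trans ?_
  rw [norm_mul]
  have h3 := mul_le_of_le_one_left (norm_nonneg (∫ t in (n : ℝ)..(n + Q : ℕ), (F t - F n))) hc
  linarith

theorem logtest {Y₁ Y₂ Q : ℕ} (h1 : 1 ≤ Y₁) (h2 : Y₁ ≤ Y₂) (hQ : 1 ≤ Q) (χ : ℕ → ℂ)
    (hχ : ∀ n, ‖χ n‖ ≤ 1) (hp : ∀ n, χ (n + Q) = χ n) {ψ Θ Θ' : ℝ → ℝ} {θ η : ℝ} (hθ : 0 < θ)
    (hψ : ∀ t ∈ Set.Icc (Y₁ : ℝ) Y₂, HasDerivAt ψ (Θ t / t) t ∧ HasDerivAt Θ (Θ' t) t ∧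
      θ ≤ |Θ t| ∧ |Θ t / t| ≤ η)
    (hs : (∀ t ∈ Set.Icc (Y₁ : ℝ) Y₂, 0 ≤ Θ' t) ∨ ∀ t ∈ Set.Icc (Y₁ : ℝ) Y₂, Θ' t ≤ 0) :
    ‖∑ n ∈ Ioc Y₁ Y₂, χ n * ec (ψ n) / n‖ ≤
      2 / θ + 14 * η * Q ^ 2 * (1 + Real.log Y₂) + 6 * Q ^ 2 / Y₁ := by
  have hY : (1 : ℝ) ≤ Y₁ := by exact_mod_cast h1
  have hY2 : (Y₁ : ℝ) ≤ Y₂ := by exact_mod_cast h2
  have hQ' : (1 : ℝ) ≤ Q := by exact_mod_cast hQ
  have hη : 0 ≤ η := (abs_nonneg _).trans (hψ Y₁ ⟨le_rfl, hY2⟩).2.2.2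
  obtain ⟨F, hF⟩ : ∃ F : ℝ → ℂ, F = fun t => ec (ψ t) / t := ⟨_, rfl⟩
  have hFn : ∀ t : ℝ, 0 ≤ t → ‖F t‖ = 1 / t := fun t ht => by
    rw [hF, norm_div, norm_ec, Complex.norm_real, Real.norm_of_nonneg ht]
  have hΘ : ∀ t ∈ Set.Icc (Y₁ : ℝ) Y₂, Θ t ≠ 0 := fun t ht =>
    abs_pos.1 (hθ.trans_le (hψ t ht).2.2.1)
  have hFc : ContinuousOn F (Set.Icc (Y₁ : ℝ) Y₂) := by
    rw [hF]
    refine (continuous_ec.comp_continuousOn fun t ht =>
      (hψ t ht).1.continuousAt.continuousWithinAt).div Complex.continuous_ofReal.continuousOn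
        fun t ht => ?_
    exact_mod_cast (by linarith [ht.1] : t ≠ 0)
  -- the integral
  have hint : ∀ d : ℝ, Y₁ ≤ d → d ≤ Y₂ → ‖∫ t in (Y₁ : ℝ)..d, F t‖ ≤ 2 / θ := fun d hd hd' => by
    have hsub : Set.Icc (Y₁ : ℝ) d ⊆ Set.Icc (Y₁ : ℝ) Y₂ := Set.Icc_subset_Icc_right hd'
    have h := fdt hd (g := fun t => (Θ t)⁻¹) (g' := fun t => -Θ' t / Θ t ^ 2) (ψ := ψ)
      (ψ' := fun t => Θ t / t) (fun t ht => (hψ t (hsub ht)).2.1.inv (hΘ t (hsub ht)))
      (hs.symm.imp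
        (fun hs t ht => div_nonneg (neg_nonneg.2 (hs t (hsub ht))) (sq_nonneg _))
        fun hs t ht => div_nonpos_of_nonpos_of_nonneg (neg_nonpos.2 (hs t (hsub ht))) (sq_nonneg _))
      (fun t ht => (hψ t (hsub ht)).1)
      (ContinuousOn.div (fun t ht => (hψ t (hsub ht)).2.1.continuousAt.continuousWithinAt)
        continuousOn_id fun t ht => by linarith [ht.1])
    have e : ∫ t in (Y₁ : ℝ)..d, F t =
        ∫ t in (Y₁ : ℝ)..d, (((Θ t)⁻¹ * (Θ t / t) : ℝ) : ℂ) * ec (ψ t) := by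
      refine intervalIntegral.integral_congr fun t ht => ?_
      rw [Set.uIcc_of_le hd] at ht
      have h0 := hΘ t (hsub ht)
      have : (Θ t)⁻¹ * (Θ t / t) = t⁻¹ := by field_simp
      simp only [this, hF]
      push_cast
      ring
    have hb : ∀ t ∈ Set.Icc (Y₁ : ℝ) Y₂, |(Θ t)⁻¹| ≤ 1 / θ := fun t ht => by
      rw [abs_inv, ← one_div]
      exact one_div_le_one_div_of_le hθ (hψ t ht).2.2.1
    rw [e]
    refine h.trans ?_
    have := hb Y₁ ⟨le_rfl, hY2⟩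
    have := hb d ⟨hd, hd'⟩
    have e2 : 2 / θ = 1 / θ + 1 / θ := by ring
    linarith
  -- oscillation on a block
  have hosc : ∀ n : ℕ, Y₁ ≤ n → n + Q ≤ Y₂ → ∀ t ∈ Set.Icc (n : ℝ) (n + Q : ℕ),
      ‖F t - F n‖ ≤ 7 * η * Q * (1 / n) + Q * ((n : ℝ) ^ 2)⁻¹ := fun n hn hn' t ht => by
    have hn1 : (Y₁ : ℝ) ≤ n := by exact_mod_cast hn
    have hn2 : ((n + Q : ℕ) : ℝ) ≤ Y₂ := by exact_mod_cast hn'
    have hsub : Set.Icc (n : ℝ) (n + Q : ℕ) ⊆ Set.Icc (Y₁ : ℝ) Y₂ := Set.Icc_subset_Icc hn1 hn2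
    have hm := norm_image_sub_le_of_norm_deriv_le_segment' (f := ψ) (f' := fun t => Θ t / t)
      (C := η) (fun x hx => (hψ x (hsub hx)).1.hasDerivWithinAt)
      (fun x hx => (hψ x (hsub (Set.Ico_subset_Icc_self hx))).2.2.2) t ht
    have ht2 : t - n ≤ Q := by have := ht.2; push_cast at this; linarith
    have hn0 : (0 : ℝ) < n := by linarith
    have ht0 : 0 < t := hn0.trans_le ht.1
    have e : F t - F n = (ec (ψ t) - ec (ψ n)) / (n : ℝ) - ec (ψ t) * ((t - n) / (t * n) : ℝ) := by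
      have a : (t : ℂ) ≠ 0 := by exact_mod_cast ht0.ne'
      have b : ((n : ℝ) : ℂ) ≠ 0 := by exact_mod_cast hn0.ne'
      simp only [hF]
      rw [Complex.ofReal_div, Complex.ofReal_mul, Complex.ofReal_sub]
      field_simp
      ring
    rw [e]
    refine (norm_sub_le _ _).trans (add_le_add ?_ ?_)
    · rw [norm_div, Complex.norm_real, Real.norm_of_nonneg hn0.le, mul_one_div]
      gcongr
      refine (norm_ec_sub _ _).trans ?_
      rw [Real.norm_eq_abs] at hm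
      have := mul_le_mul_of_nonneg_left ht2 hη
      linarith
    · have h0 : 0 ≤ t - n := sub_nonneg.2 ht.1
      rw [norm_mul, norm_ec, one_mul, Complex.norm_real, Real.norm_of_nonneg (by positivity),
        ← div_eq_mul_inv, sq]
      gcongr
      exact ht.1
  -- the mean of the periodic factor
  obtain ⟨c, hc⟩ : ∃ c : ℂ, c = (∑ j ∈ range Q, χ (Y₁ + j + 1)) / Q := ⟨_, rfl⟩
  have hQc : (Q : ℂ) ≠ 0 := by exact_mod_cast (by omega : Q ≠ 0)
  have hc1 : ‖c‖ ≤ 1 := by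
    rw [hc, norm_div, Complex.norm_natCast, div_le_one (by linarith)]
    refine (norm_sum_le _ _).trans ((sum_le_card_nsmul _ _ 1 fun m _ => hχ _).trans ?_)
    simp
  have hper : ∀ k n, χ (n + k * Q) = χ n := fun k => by
    induction k with
    | zero => simp
    | succ k ih => intro n; rw [add_mul, one_mul, ← add_assoc, hp, ih]
  have hblk : ∀ k, ∑ m ∈ Ioc (Y₁ + k * Q) (Y₁ + k * Q + Q), χ m = Q * c := fun k => by
    rw [PairL_range, hc, mul_div_cancel₀ _ hQc]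
    refine sum_congr rfl fun j _ => ?_
    rw [← hper k (Y₁ + j + 1)]
    congr 1
    ring
  obtain ⟨D, hD⟩ : ∃ D : ℕ → ℝ, D = fun n : ℕ => 2 * Q * (7 * η * Q * (1 / n) +
    Q * ((n : ℝ) ^ 2)⁻¹) := ⟨_, rfl⟩
  have hD0 : ∀ n, 0 ≤ D n := fun n => by rw [hD]; positivity
  have hii : ∀ x y : ℕ, Y₁ ≤ x → x ≤ y → y ≤ Y₂ → IntervalIntegrable F volume x y :=
    fun x y hx hxy hy => ContinuousOn.intervalIntegrable (by
      rw [Set.uIcc_of_le (by exact_mod_cast hxy)]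
      exact hFc.mono (Set.Icc_subset_Icc (by exact_mod_cast hx) (by exact_mod_cast hy)))
  have hind : ∀ k : ℕ, Y₁ + k * Q ≤ Y₂ →
      ‖∑ m ∈ Ioc Y₁ (Y₁ + k * Q), χ m * F m - c * ∫ t in (Y₁ : ℝ)..(Y₁ + k * Q : ℕ), F t‖ ≤
        ∑ n ∈ Ico Y₁ (Y₁ + k * Q), D n := fun k => by
    induction k with
    | zero => intro _; simp
    | succ k ih =>
      intro hk
      have e : Y₁ + (k + 1) * Q = Y₁ + k * Q + Q := by ring
      rw [e] at hk ⊢
      have ih' := ih (by omega)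
      have hb := PairL_block χ hχ hc1 (hblk k) (hii _ _ (by omega) (by omega) hk)
        (hosc _ (by omega) hk)
      have hn : Y₁ ≤ Y₁ + k * Q := by omega
      generalize Y₁ + k * Q = n at hk ih' hb hn ⊢
      have hb' : _ ≤ D n := hb.trans (le_of_eq (by rw [hD]))
      rw [← sum_Ioc_consecutive _ hn (Nat.le_add_right n Q),
        ← intervalIntegral.integral_add_adjacent_intervals (hii _ _ le_rfl hn (by omega))
          (hii _ _ hn (Nat.le_add_right n Q) hk),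
        ← sum_Ico_consecutive _ hn (Nat.le_add_right n Q), mul_add, add_sub_add_comm]
      refine (norm_add_le _ _).trans (add_le_add ih' (hb'.trans ?_))
      exact single_le_sum (fun m _ => hD0 m) (mem_Ico.2 ⟨le_rfl, by omega⟩)
  obtain ⟨M, hM, hM1, hM2, hM3⟩ : ∃ M : ℕ, (∃ k, M = Y₁ + k * Q) ∧ Y₁ ≤ M ∧ M ≤ Y₂ ∧
      Y₂ - M ≤ Q := by
    have a := Nat.div_add_mod' (Y₂ - Y₁) Q
    have b := Nat.mod_lt (Y₂ - Y₁) (show 0 < Q by omega)
    exact ⟨Y₁ + (Y₂ - Y₁) / Q * Q, ⟨_, rfl⟩, by omega, by omega, by omega⟩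
  obtain ⟨k, hk⟩ := hM
  have ha := hind k (hk ▸ hM2)
  rw [← hk] at ha
  have hb := hint M (by exact_mod_cast hM1) (by exact_mod_cast hM2)
  have hd : ∑ n ∈ Ico Y₁ M, D n ≤ 14 * η * Q ^ 2 * (1 + Real.log Y₂) + 4 * Q ^ 2 / Y₁ := by
    have a : ∑ n ∈ Ico Y₁ M, (1 : ℝ) / n ≤ 1 + Real.log Y₂ :=
      (sum_le_sum_of_subset_of_nonneg (fun n hn => by
        rw [mem_Ico] at hn; rw [mem_Ioc]; omega) fun n _ _ => by positivity).trans (harm_le' 0 Y₂)
    have b : ∑ n ∈ Ico Y₁ M, ((n : ℝ) ^ 2)⁻¹ ≤ 2 / Y₁ := by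
      have h := sum_Ioo_inv_sq_le (α := ℝ) (Y₁ - 1) M
      rw [Nat.cast_sub h1, Nat.cast_one, sub_add_cancel] at h
      exact (sum_le_sum_of_subset_of_nonneg (fun n hn => by
        rw [mem_Ico] at hn; rw [mem_Ioo]; omega) fun n _ _ => by positivity).trans h
    rw [hD, ← mul_sum, sum_add_distrib, ← mul_sum, ← mul_sum]
    calc _ ≤ 2 * Q * (7 * η * Q * (1 + Real.log Y₂) + Q * (2 / Y₁)) := by gcongr
      _ = _ := by ring
  have he : ‖∑ m ∈ Ioc M Y₂, χ m * F m‖ ≤ 2 * Q ^ 2 / Y₁ := by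
    refine (norm_sum_le _ _).trans ((sum_le_card_nsmul _ _ (1 / Y₁ : ℝ) fun m hm => ?_).trans ?_)
    · rw [norm_mul, hFn _ (Nat.cast_nonneg m)]
      refine (mul_le_of_le_one_left (by positivity) (hχ m)).trans ?_
      have : Y₁ ≤ m := hM1.trans (mem_Ioc.1 hm).1.le
      exact one_div_le_one_div_of_le (by linarith) (by exact_mod_cast this)
    · rw [Nat.card_Ioc, nsmul_eq_mul, mul_one_div]
      have : ((Y₂ - M : ℕ) : ℝ) ≤ Q := by exact_mod_cast hM3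
      gcongr
      nlinarith
  have e : ∑ n ∈ Ioc Y₁ Y₂, χ n * ec (ψ n) / n = (∑ m ∈ Ioc Y₁ M, χ m * F m -
      c * ∫ t in (Y₁ : ℝ)..M, F t) + (c * ∫ t in (Y₁ : ℝ)..M, F t) +
        ∑ m ∈ Ioc M Y₂, χ m * F m := by
    rw [sub_add_cancel, sum_Ioc_consecutive _ hM1 hM2]
    refine sum_congr rfl fun n _ => ?_
    rw [hF, mul_div_assoc]
    rfl
  rw [e]
  refine (norm_add₃_le).trans ?_
  rw [norm_mul]
  have h3 := mul_le_of_le_one_left (norm_nonneg (∫ t in (Y₁ : ℝ)..M, F t)) hc1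
  have e2 : 6 * (Q : ℝ) ^ 2 / Y₁ = 4 * Q ^ 2 / Y₁ + 2 * Q ^ 2 / Y₁ := by ring
  linarith

end Pool.Agent.MP_357fb4_an
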