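import Pool.Agent.MP_357fb4_an.Weyl
import Pool.Agent.MP_357fb4_an.PairL

/-!
The case of a slow part above the logarithm.
-/

open scoped BigOperators Classical ComplexConjugate Polynomial
open Finset Filter MeasureTheory Topology

noncomputable section

namespace Pool.Agent.MP_357fb4_an

lemma caseLog_split {b r : ℝ → ℝ} {P : ℝ[X]} {q : ℕ} (hP : RatAbove P 0 q)
    (hr : ∀ t, r t = b t - P.eval t) : ∃ χ₀ : ℕ → ℂ, (∀ n, ‖χ₀ n‖ = 1) ∧
      (∀ n m, χ₀ (n + q * m) = χ₀ n) ∧ ∀ n : ℕ, ec (b n) = χ₀ n * ec (r n) := by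
  obtain ⟨P₁, P₂, hs, hd, -, hper⟩ := rat_split hP
  refine ⟨fun n => ec (P.eval (n : ℝ)), fun n => norm_ec _, fun n m => ?_, fun n => ?_⟩
  · have h1 := hper n m
    have h0 : P₁ = Polynomial.C (P₁.coeff 0) := Polynomial.eq_C_of_natDegree_le_zero hd
    simp only [hs, Polynomial.eval_add, ec_add]
    rw [h0]
    simp only [Polynomial.eval_C]
    push_cast at h1 ⊢
    rw [h1]
  · rw [← ec_add, hr]
    congr 1
    ring

lemma caseLog_tail (Q : ℕ) (c : ℝ) {ε : ℝ} (hε : 0 < ε) : ∃ η : ℝ, 0 < η ∧ ∀ᶠ N : ℕ in atTop,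
    c + 14 * η * Q ^ 2 * (1 + Real.log ((N ^ 2 : ℕ) : ℝ)) + 6 * Q ^ 2 ≤ ε * Real.log N := by
  have hq : (0 : ℝ) < (Q : ℝ) ^ 2 + 1 := by positivity
  refine ⟨ε / (56 * ((Q : ℝ) ^ 2 + 1)), by positivity, ?_⟩
  have hl : Tendsto (fun N : ℕ => ε / 2 * Real.log N) atTop atTop :=
    (Real.tendsto_log_atTop.comp tendsto_natCast_atTop_atTop).const_mul_atTop (by positivity)
  filter_upwards [hl.eventually_ge_atTop (c + ε / 4 + 6 * Q ^ 2)] with N hN
  have hlog : 0 ≤ Real.log N := Real.log_natCast_nonneg N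
  have h2 : Real.log ((N ^ 2 : ℕ) : ℝ) = 2 * Real.log N := by
    push_cast
    rw [Real.log_pow]
    norm_num
  have h3 : 14 * (ε / (56 * ((Q : ℝ) ^ 2 + 1))) * Q ^ 2 ≤ ε / 4 := by
    rw [show 14 * (ε / (56 * ((Q : ℝ) ^ 2 + 1))) * Q ^ 2 = ε / 4 * (Q ^ 2 / (Q ^ 2 + 1)) by
      field_simp; ring]
    exact mul_le_of_le_one_right (by positivity) ((div_le_one hq).2 (by linarith))
  have h4 := mul_le_mul_of_nonneg_right h3 (show 0 ≤ 1 + 2 * Real.log N by linarith)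
  rw [h2]
  nlinarith

lemma caseLog_pow {r R₁ : ℝ → ℝ} {T : ℝ} (hT : 1 ≤ T) (hs : Slow r)
    (hd : ∀ t, T ≤ t → HasDerivAt r (R₁ t / t) t) {γ : ℝ} (hγ : 0 < γ) :
    ∀ᶠ t : ℝ in atTop, |R₁ t| ≤ t ^ γ := by
  filter_upwards [hs γ hγ, eventually_ge_atTop T] with t ht hTt
  have h0 : t ≠ 0 := by linarith
  have := ht.2
  rwa [(hd t hTt).deriv, mul_div_cancel₀ _ h0] at this

theorem ti_Log {b : ℝ → ℝ} (h : CaseLog b) : TI fun n => ec (b n) := by
  obtain ⟨P, q, r, R₁, S₁, T, hq, hP, hr, hsl, hT, hd, -, hsg, hR, -⟩ := h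
  obtain ⟨χ₀, hn, hper, hb⟩ := caseLog_split hP hr
  intro q' χ hq' hχ hχp ε hε
  obtain ⟨η, hη, hev⟩ := caseLog_tail (q * q') 2 hε
  have hχm : ∀ n m, χ (n + q' * m) = χ n := by
    intro n m
    induction m with
    | zero => simp
    | succ m ih => rw [Nat.mul_succ, ← add_assoc, hχp, ih]
  have hpw := caseLog_pow hT hsl (fun t ht => (hd t ht).1) (show (0 : ℝ) < 1 / 2 by norm_num)
  have hsm : ∀ᶠ t : ℝ in atTop, t ^ (-(1 / 2) : ℝ) ≤ η :=
    (tendsto_rpow_neg_atTop (show (0 : ℝ) < 1 / 2 by norm_num)).eventually (ge_mem_nhds hη)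
  obtain ⟨T', hT'⟩ := eventually_atTop.1
    (hpw.and (hsm.and ((hR.eventually_ge_atTop 1).and (eventually_ge_atTop T))))
  filter_upwards [hev, tendsto_natCast_atTop_atTop.eventually_ge_atTop T',
    eventually_ge_atTop 1] with N hN hNT hN1
  have hQ : 1 ≤ q * q' := Nat.mul_pos hq hq'
  have key := logtest (Y₁ := N) (Y₂ := N ^ 2) (Q := q * q') hN1 (by nlinarith) hQ
    (fun n => χ n * χ₀ n) (fun n => by rw [norm_mul, hn, mul_one]; exact hχ n)
    (fun n => by rw [hper, mul_comm q q', hχm]) (ψ := r) (Θ := R₁) (Θ' := fun t => S₁ t / t)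
    (θ := 1) (η := η) one_pos
    (fun t ht => by
      obtain ⟨h1, h2, h3, h4⟩ := hT' t (hNT.trans ht.1)
      have h0 : 0 < t := by linarith
      refine ⟨(hd t h4).1, (hd t h4).2, h3, le_trans ?_ h2⟩
      rw [abs_div, abs_of_pos h0, div_le_iff₀ h0]
      refine h1.trans (le_of_eq ?_)
      rw [← Real.rpow_add_one h0.ne']
      norm_num)
    (by
      rcases hsg with hsg | hsg
      · refine Or.inl fun t ht => ?_
        obtain ⟨-, -, -, h4⟩ := hT' t (hNT.trans ht.1)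
        exact div_nonneg (hsg t h4).le (by linarith)
      · refine Or.inr fun t ht => ?_
        obtain ⟨-, -, -, h4⟩ := hT' t (hNT.trans ht.1)
        exact div_nonpos_of_nonpos_of_nonneg (hsg t h4).le (by linarith))
  have hN1' : (1 : ℝ) ≤ N := by exact_mod_cast hN1
  have h6 : 6 * ((q * q' : ℕ) : ℝ) ^ 2 / N ≤ 6 * ((q * q' : ℕ) : ℝ) ^ 2 :=
    div_le_self (by positivity) hN1'
  have he : ∑ n ∈ Ioc N (N ^ 2), χ n * ec (b n) / n =
      ∑ n ∈ Ioc N (N ^ 2), χ n * χ₀ n * ec (r n) / n :=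
    sum_congr rfl fun n _ => by rw [hb, mul_assoc]
  show ‖∑ n ∈ Ioc N (N ^ 2), χ n * ec (b n) / n‖ ≤ _
  rw [he]
  linarith

lemma caseLog_mvt {R₁ S₁ : ℝ → ℝ} {A B : ℝ} (hA : 0 < A) (hAB : A < B)
    (hd : ∀ t, A ≤ t → HasDerivAt R₁ (S₁ t / t) t) :
    ∃ c, A < c ∧ c < B ∧ R₁ B - R₁ A = (Real.log B - Real.log A) * S₁ c := by
  obtain ⟨c, hc, he⟩ := exists_ratio_hasDerivAt_eq_ratio_slope R₁ (fun t => S₁ t / t) hAB
    (fun t ht => (hd t ht.1).continuousAt.continuousWithinAt) (fun t ht => hd t ht.1.le)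
    Real.log (fun t => t⁻¹)
    (fun t ht => (Real.continuousAt_log (by linarith [ht.1])).continuousWithinAt)
    (fun t ht => Real.hasDerivAt_log (by linarith [ht.1]))
  refine ⟨c, hc.1, hc.2, ?_⟩
  have h0 : c ≠ 0 := by linarith [hc.1]
  field_simp at he
  linarith

lemma caseLog_dil {f g : ℝ → ℝ} {a t : ℝ} (ha : a ≠ 0)
    (h : HasDerivAt f (g (a * t) / (a * t)) (a * t)) :
    HasDerivAt (fun s => f (a * s)) (g (a * t) / t) t := by
  have h1 : HasDerivAt (fun s : ℝ => a * s) a t := by simpa using (hasDerivAt_id t).const_mul a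
  refine (h.comp t h1).congr_deriv ?_
  rw [div_mul_eq_mul_div, mul_comm (g (a * t)) a, mul_div_mul_left _ _ ha]

theorem far_Log {b : ℝ → ℝ} (h : CaseLog b) : PairFar fun n => ec (b n) := by
  obtain ⟨P, q, r, R₁, S₁, T, hq, hP, hr, hsl, hT, hd, hmo, -, -, hS⟩ := h
  obtain ⟨χ₀, hn, hper, hb⟩ := caseLog_split hP hr
  intro δ κ ε hδ hκ hε
  obtain ⟨η, hη, hev⟩ := caseLog_tail q 0 (half_pos hε)
  have hpw := caseLog_pow hT hsl (fun t ht => (hd t ht).1) (show (0 : ℝ) < δ / 8 by positivity)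
  obtain ⟨T', hT'⟩ := eventually_atTop.1
    (hpw.and ((hS.eventually_ge_atTop (64 / (κ * ε))).and (eventually_ge_atTop T)))
  have hδt : Tendsto (fun N : ℕ => (N : ℝ) ^ δ) atTop atTop :=
    (tendsto_rpow_atTop hδ).comp tendsto_natCast_atTop_atTop
  have hsm : ∀ᶠ N : ℕ in atTop, (N : ℝ) ^ (-(δ / 2)) ≤ η / 4 :=
    ((tendsto_rpow_neg_atTop (half_pos hδ)).comp tendsto_natCast_atTop_atTop).eventually
      (ge_mem_nhds (by positivity))
  filter_upwards [hev, hsm, hδt.eventually_ge_atTop (T' + 1), hδt.eventually_ge_atTop 2,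
    eventually_ge_atTop 2] with N hN hNη hNT hN2 hN1 a ha a' ha' haa
  set Y₁ := ⌊(N : ℝ) ^ δ⌋₊ with hY
  have hN1' : (2 : ℝ) ≤ N := by exact_mod_cast hN1
  have hN0 : (0 : ℝ) < N := by linarith
  have hlog : 0 < Real.log N := Real.log_pos (by linarith)
  have hYl : (N : ℝ) ^ δ - 1 < Y₁ := Nat.sub_one_lt_floor _
  have hY1 : (1 : ℝ) ≤ Y₁ := by linarith
  have hY1' : 1 ≤ Y₁ := by exact_mod_cast hY1
  obtain ⟨ha1, ha2⟩ := mem_Ioc.1 ha
  obtain ⟨ha1', ha2'⟩ := mem_Ioc.1 ha'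
  have hA1 : (1 : ℝ) ≤ a := by exact_mod_cast hY1'.trans ha1.le
  have hA2 : (a' : ℝ) ≤ (N : ℝ) ^ 2 := by exact_mod_cast ha2'
  have hκ1 : 1 < (N : ℝ) ^ κ := Real.one_lt_rpow (by linarith) hκ
  have hAA : (a : ℝ) < a' := by nlinarith
  have hlg : κ * Real.log N ≤ Real.log a' - Real.log a := by
    have := Real.log_le_log (by positivity) haa
    rw [Real.log_mul (by positivity) (by positivity), Real.log_rpow hN0] at this
    linarith
  have hrange : ∀ t ∈ Set.Icc (Y₁ : ℝ) ((N ^ 2 : ℕ) : ℝ), 1 ≤ t ∧ T' ≤ a * t ∧ (a : ℝ) * t < a' * t ∧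
      (a' : ℝ) * t ≤ (N : ℝ) ^ 4 := by
    intro t ht
    have h1 : 1 ≤ t := hY1.trans ht.1
    have h2 : t ≤ (N : ℝ) ^ 2 := by exact_mod_cast ht.2
    refine ⟨h1, by nlinarith [ht.1], by nlinarith, ?_⟩
    calc (a' : ℝ) * t ≤ (N : ℝ) ^ 2 * (N : ℝ) ^ 2 := by gcongr
      _ = (N : ℝ) ^ 4 := by ring
  have key := logtest (Y₁ := Y₁) (Y₂ := N ^ 2) (Q := q) hY1' (ha1.le.trans ha2) hq
    (fun m => χ₀ (a' * m) * conj (χ₀ (a * m)))
    (fun m => by rw [norm_mul, Complex.norm_conj, hn, hn, mul_one])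
    (fun m => by rw [mul_add, mul_add, mul_comm a' q, mul_comm a q, hper, hper])
    (ψ := fun t => r (a' * t) - r (a * t)) (Θ := fun t => R₁ (a' * t) - R₁ (a * t))
    (Θ' := fun t => (S₁ (a' * t) - S₁ (a * t)) / t) (θ := 4 / (ε * Real.log N)) (η := η)
    (by positivity)
    (fun t ht => by
      obtain ⟨h1, h2, h3, h4⟩ := hrange t ht
      have t0 : 0 < t := by linarith
      have hTa := (hT' _ h2).2.2
      have hTa' := (hT' _ (h2.trans h3.le)).2.2
      refine ⟨?_, ?_, ?_, ?_⟩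
      · rw [sub_div]
        exact (caseLog_dil (by linarith) (hd _ hTa').1).sub (caseLog_dil (by linarith) (hd _ hTa).1)
      · rw [sub_div]
        exact (caseLog_dil (by linarith) (hd _ hTa').2).sub (caseLog_dil (by linarith) (hd _ hTa).2)
      · obtain ⟨c, hc1, hc2, hc⟩ := caseLog_mvt (R₁ := R₁) (S₁ := S₁) (by positivity) h3
          fun s hs => (hd s (hTa.trans hs)).2
        have hc3 := (hT' c (h2.trans hc1.le)).2.1
        have hc4 : 1 ≤ c := by nlinarith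
        have hl1 : Real.log c ≤ 4 * Real.log N := by
          have := Real.log_le_log (by linarith) (hc2.le.trans h4)
          rwa [Real.log_pow, Nat.cast_ofNat] at this
        have hl0 : 0 ≤ Real.log c := Real.log_nonneg hc4
        have hl2 : Real.log c ^ 2 ≤ (4 * Real.log N) ^ 2 := by gcongr
        have hl3 : 64 / (κ * ε) ≤ (4 * Real.log N) ^ 2 * |S₁ c| :=
          hc3.trans (mul_le_mul_of_nonneg_right hl2 (abs_nonneg _))
        have hl4 : Real.log (a' * t) - Real.log (a * t) = Real.log a' - Real.log a := by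
          rw [Real.log_mul (by linarith) t0.ne', Real.log_mul (by linarith) t0.ne']
          ring
        show _ ≤ |R₁ (a' * t) - R₁ (a * t)|
        rw [hc, hl4, abs_mul, abs_of_nonneg (le_trans (by positivity) hlg)]
        refine le_trans ?_ (mul_le_mul_of_nonneg_right hlg (abs_nonneg _))
        rw [div_le_iff₀ (by positivity)] at hl3 ⊢
        nlinarith
      · have hb1 : ∀ s, T' ≤ s → 0 ≤ s → s ≤ (N : ℝ) ^ 4 → |R₁ s| ≤ (N : ℝ) ^ (δ / 2) := by
          intro s hs hs0 hs4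
          refine (hT' s hs).1.trans ((Real.rpow_le_rpow hs0 hs4 (by positivity)).trans
            (le_of_eq ?_))
          rw [← Real.rpow_natCast, ← Real.rpow_mul hN0.le]
          congr 1
          push_cast
          ring
        have hb2 := hb1 _ h2 (by positivity) (h3.le.trans h4)
        have hb3 := hb1 _ (h2.trans h3.le) (by positivity) h4
        have hb4 : (N : ℝ) ^ (δ / 2) = (N : ℝ) ^ (-(δ / 2)) * (N : ℝ) ^ δ := by
          rw [← Real.rpow_add hN0]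
          congr 1
          ring
        have hb5 : (N : ℝ) ^ δ ≤ 2 * t := by linarith [ht.1]
        have hb6 : (N : ℝ) ^ (δ / 2) ≤ η / 4 * (2 * t) := by
          rw [hb4]
          gcongr
        show |(R₁ (a' * t) - R₁ (a * t)) / t| ≤ η
        rw [abs_div, abs_of_pos t0, div_le_iff₀ t0]
        linarith [abs_sub (R₁ (a' * t)) (R₁ (a * t))])
    (by
      rcases hmo with hmo | hmo
      · refine Or.inl fun t ht => ?_
        obtain ⟨h1, h2, h3, -⟩ := hrange t ht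
        exact div_nonneg (sub_nonneg.2 (hmo (hT' _ h2).2.2 (hT' _ (h2.trans h3.le)).2.2 h3.le))
          (by linarith)
      · refine Or.inr fun t ht => ?_
        obtain ⟨h1, h2, h3, -⟩ := hrange t ht
        exact div_nonpos_of_nonpos_of_nonneg
          (sub_nonpos.2 (hmo (hT' _ h2).2.2 (hT' _ (h2.trans h3.le)).2.2 h3.le)) (by linarith))
  have h6 : 6 * (q : ℝ) ^ 2 / Y₁ ≤ 6 * (q : ℝ) ^ 2 := div_le_self (by positivity) hY1
  have h7 : 2 / (4 / (ε * Real.log N)) = ε / 2 * Real.log N := by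
    field_simp
    ring
  have he : ∑ m ∈ Ioc Y₁ (N ^ 2), ec (b ((a' * m : ℕ) : ℝ)) * conj (ec (b ((a * m : ℕ) : ℝ))) / m =
      ∑ m ∈ Ioc Y₁ (N ^ 2), χ₀ (a' * m) * conj (χ₀ (a * m)) *
        ec (r (a' * (m : ℝ)) - r (a * (m : ℝ))) / m :=
    sum_congr rfl fun m _ => by
      rw [hb, hb, ec_sub, map_mul]
      push_cast
      ring
  show ‖∑ m ∈ Ioc Y₁ (N ^ 2), ec (b ((a' * m : ℕ) : ℝ)) * conj (ec (b ((a * m : ℕ) : ℝ))) / m‖ ≤ _
  rw [he]
  linarith

end Pool.Agent.MP_357fb4_an
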