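import Pool.Agent.MP_357fb4_an.Basic

/-!
Products over cubes and the Gowers-Cauchy-Schwarz inequality.
-/

open scoped BigOperators Classical ComplexConjugate Polynomial
open Finset Filter MeasureTheory Topology

noncomputable section

namespace Pool.Agent.MP_357fb4_an

variable {Y : Type} [MeasurableSpace Y] {μ : Measure Y} [IsProbabilityMeasure μ]

theorem Cube_cj_mul {r : ℕ} (ε : Fin r → Bool) (z w : ℂ) : cj ε (z * w) = cj ε z * cj ε w := by
  unfold cj; split_ifs <;> simp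

theorem Cube_cj_one {r : ℕ} (ε : Fin r → Bool) : cj ε 1 = 1 := by
  unfold cj; split_ifs <;> simp

theorem Cube_cj_conj {r : ℕ} (ε : Fin r → Bool) (z : ℂ) : cj ε (conj z) = conj (cj ε z) := by
  unfold cj; split_ifs <;> simp

theorem Cube_norm_cj {r : ℕ} (ε : Fin r → Bool) (z : ℂ) : ‖cj ε z‖ = ‖z‖ := by
  unfold cj; split_ifs <;> simp

theorem Cube_cj_false {r : ℕ} (z : ℂ) : cj (fun _ : Fin r => false) z = z := by
  simp [cj]

theorem Cube_B1_cj {r : ℕ} (ε : Fin r → Bool) {f : Y → ℂ} (hf : B1 f) :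
    B1 fun y => cj ε (f y) := by
  unfold cj
  split_ifs
  · exact hf
  · exact hf.conj

theorem Cube_cj_cons_false {r : ℕ} (ε : Fin r → Bool) (z : ℂ) :
    cj (Fin.cons false ε : Fin (r + 1) → Bool) z = cj ε z := by
  unfold cj
  rw [Fin.card_filter_univ_succ']
  simp

theorem Cube_cj_cons_true {r : ℕ} (ε : Fin r → Bool) (z : ℂ) :
    cj (Fin.cons true ε : Fin (r + 1) → Bool) z = cj ε (conj z) := by
  unfold cj
  rw [Fin.card_filter_univ_succ']
  simp only [Fin.cons_zero, Fin.cons_succ, if_true, add_comm 1, Nat.even_add_one]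
  split_ifs <;> simp_all

theorem Cube_mix_cons {r : ℕ} (b : Bool) (ε : Fin r → Bool) (h₀ k₀ : ℕ) (h k : Fin r → ℕ) :
    mix (Fin.cons b ε : Fin (r + 1) → Bool) (Fin.cons h₀ h) (Fin.cons k₀ k) =
      Fin.cons (if b then k₀ else h₀) (mix ε h k) := by
  funext i
  refine Fin.cases ?_ (fun j => ?_) i <;> simp [mix]

theorem Cube_cons {r : ℕ} (Γ : (Fin (r + 1) → ℕ) → ℂ) (h₀ k₀ : ℕ) (h k : Fin r → ℕ) :
    cube Γ (Fin.cons h₀ h) (Fin.cons k₀ k) =
      cube (fun v => Γ (Fin.cons h₀ v) * conj (Γ (Fin.cons k₀ v))) h k := by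
  unfold cube
  rw [← (Fin.consEquiv fun _ => Bool).prod_comp, Fintype.prod_prod_type, Fintype.prod_bool,
    ← prod_mul_distrib]
  refine prod_congr rfl fun ε _ => ?_
  change cj (Fin.cons true ε) (Γ (mix (Fin.cons true ε) _ _)) *
    cj (Fin.cons false ε) (Γ (mix (Fin.cons false ε) _ _)) = _
  rw [Cube_mix_cons, Cube_mix_cons, Cube_cj_cons_true, Cube_cj_cons_false, Cube_cj_mul, mul_comm]
  rfl

theorem Cube_zero (Γ : (Fin 0 → ℕ) → ℂ) (h k : Fin 0 → ℕ) : cube Γ h k = Γ h := by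
  unfold cube
  rw [Fintype.prod_subsingleton _ fun _ => false, Cube_cj_false]
  exact congrArg Γ (Subsingleton.elim _ _)

theorem Cube_expect_zero {M : Type} [AddCommMonoid M] [Module ℚ≥0 M] (H : ℕ)
    (f : (Fin 0 → ℕ) → M) : 𝔼 h ∈ pb 0 H, f h = f fun _ => 0 := by
  have : pb 0 H = {fun _ => 0} := by
    ext h
    simp only [pb, Fintype.mem_piFinset, IsEmpty.forall_iff, mem_singleton, true_iff]
    exact Subsingleton.elim _ _
  rw [this]
  simp [expect]

theorem Cube_expect_succ {M : Type} [AddCommMonoid M] [Module ℚ≥0 M] (r H : ℕ)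
    (f : (Fin (r + 1) → ℕ) → M) :
    𝔼 h ∈ pb (r + 1) H, f h = 𝔼 h₀ ∈ range H, 𝔼 h ∈ pb r H, f (Fin.cons h₀ h) := by
  rw [← expect_product']
  refine expect_nbij' (fun h => (h 0, Fin.tail h)) (fun p => Fin.cons p.1 p.2) ?_ ?_ ?_ ?_ ?_
  · intro h hh
    simp only [pb, Fintype.mem_piFinset, mem_product] at hh ⊢
    exact ⟨hh 0, fun i => hh i.succ⟩
  · intro p hp
    simp only [pb, Fintype.mem_piFinset, mem_product] at hp ⊢
    intro i
    refine Fin.cases ?_ (fun j => ?_) i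
    · simpa using hp.1
    · simpa using hp.2 j
  · intro h _
    simp
  · intro p _
    simp
  · intro h _
    simp

theorem Cube_expect_two {M : Type} [AddCommMonoid M] [Module ℚ≥0 M] (r H : ℕ)
    (f : (Fin (r + 1) → ℕ) → (Fin (r + 1) → ℕ) → M) :
    𝔼 h ∈ pb (r + 1) H, 𝔼 k ∈ pb (r + 1) H, f h k = 𝔼 h₀ ∈ range H, 𝔼 k₀ ∈ range H,
      𝔼 h ∈ pb r H, 𝔼 k ∈ pb r H, f (Fin.cons h₀ h) (Fin.cons k₀ k) := by
  rw [Cube_expect_succ]
  refine expect_congr rfl fun h₀ _ => ?_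
  rw [expect_comm (range H)]
  exact expect_congr rfl fun h _ => Cube_expect_succ r H fun k => f (Fin.cons h₀ h) k

theorem Cube_step {r : ℕ} (H : ℕ) (Γ : (Fin (r + 1) → ℕ) → ℂ)
    (b : Fin (r + 1) → (Fin (r + 1) → ℕ) → ℂ) (hb : ∀ i h, ‖b i h‖ ≤ 1)
    (hb' : ∀ i h t, b i (Function.update h i t) = b i h) :
    ‖𝔼 h ∈ pb (r + 1) H, Γ h * ∏ i, b i h‖ ^ 2 ≤ 𝔼 h₀ ∈ range H, 𝔼 k₀ ∈ range H,
      (𝔼 h ∈ pb r H, (Γ (Fin.cons h₀ h) * conj (Γ (Fin.cons k₀ h))) *
        ∏ i : Fin r, (b i.succ (Fin.cons h₀ h) * conj (b i.succ (Fin.cons k₀ h)))).re := by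
  set G : ℕ → (Fin r → ℕ) → ℂ := fun h₀ h =>
    Γ (Fin.cons h₀ h) * ∏ i : Fin r, b i.succ (Fin.cons h₀ h) with hG
  have e₁ : 𝔼 h ∈ pb (r + 1) H, Γ h * ∏ i, b i h =
      𝔼 h ∈ pb r H, b 0 (Fin.cons 0 h) * 𝔼 h₀ ∈ range H, G h₀ h := by
    rw [Cube_expect_succ, expect_comm]
    refine expect_congr rfl fun h _ => ?_
    rw [mul_expect]
    refine expect_congr rfl fun h₀ _ => ?_
    have : b 0 (Fin.cons h₀ h) = b 0 (Fin.cons 0 h) := by
      rw [← hb' 0 (Fin.cons 0 h) h₀, Fin.update_cons_zero]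
    rw [Fin.prod_univ_succ, this, hG]
    ring
  have e₂ : ‖𝔼 h ∈ pb r H, b 0 (Fin.cons 0 h) * 𝔼 h₀ ∈ range H, G h₀ h‖ ≤
      𝔼 h ∈ pb r H, ‖𝔼 h₀ ∈ range H, G h₀ h‖ := by
    refine (norm_expect_le' _ _).trans (expect_le_expect fun h _ => ?_)
    rw [norm_mul]
    exact mul_le_of_le_one_left (norm_nonneg _) (hb _ _)
  rw [e₁]
  refine (pow_le_pow_left₀ (norm_nonneg _) e₂ 2).trans
    ((pow_expect_le _ (fun _ _ => norm_nonneg _) two_ne_zero).trans (le_of_eq ?_))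
  simp only [sq_norm_expect]
  rw [expect_comm]
  refine expect_congr rfl fun h₀ _ => ?_
  rw [expect_comm]
  refine expect_congr rfl fun k₀ _ => ?_
  rw [re_expect]
  refine expect_congr rfl fun h _ => ?_
  congr 1
  rw [hG]
  simp only [map_mul, map_prod, prod_mul_distrib]
  ring

theorem cube_eq {r : ℕ} (Γ : (Fin r → ℕ) → ℂ) (h k : Fin r → ℕ) :
    cube Γ h k = Γ h * ∏ i, cfac Γ k i h := by
  unfold cube cfac
  rw [← mul_prod_erase univ _ (mem_univ fun _ => false), Cube_cj_false, ← prod_biUnion]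
  · congr 1
    refine prod_congr ?_ fun _ _ => rfl
    ext ε
    simp only [mem_erase, mem_univ, and_true, mem_biUnion, mem_filter, true_and]
    constructor
    · intro hε
      have hne : (univ.filter fun i => ε i = true).Nonempty := by
        by_contra hn
        refine hε (funext fun i => ?_)
        by_contra hi
        exact hn ⟨i, by simpa using hi⟩
      obtain ⟨i, hi, hmin⟩ := exists_min_image _ id hne
      refine ⟨i, by simpa using hi, fun j hj => ?_⟩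
      by_contra hj'
      exact absurd (hmin j (by simpa using hj')) (not_le.2 hj)
    · rintro ⟨i, hi, -⟩ rfl
      simp at hi
  · intro i _ j _ hij
    refine disjoint_left.2 fun ε hi hj => ?_
    simp only [mem_filter, mem_univ, true_and] at hi hj
    rcases lt_or_gt_of_ne hij with h' | h'
    · have := hj.2 i h'
      simp [hi.1] at this
    · have := hi.2 j h'
      simp [hj.1] at this

theorem cfac_update {r : ℕ} (Γ : (Fin r → ℕ) → ℂ) (k : Fin r → ℕ) (i : Fin r) (h : Fin r → ℕ)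
    (t : ℕ) : cfac Γ k i (Function.update h i t) = cfac Γ k i h := by
  unfold cfac
  refine prod_congr rfl fun ε hε => ?_
  simp only [mem_filter, mem_univ, true_and] at hε
  congr 2
  funext j
  rcases eq_or_ne j i with rfl | hj
  · simp [mix, hε.1]
  · simp [mix, Function.update_of_ne hj]

theorem norm_cfac_le {r : ℕ} {Γ : (Fin r → ℕ) → ℂ} (hΓ : ∀ v, ‖Γ v‖ ≤ 1) (k : Fin r → ℕ)
    (i : Fin r) (h : Fin r → ℕ) : ‖cfac Γ k i h‖ ≤ 1 := by
  unfold cfac
  rw [norm_prod]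
  exact prod_le_one (fun _ _ => norm_nonneg _) fun ε _ => (Cube_norm_cj _ _).trans_le (hΓ _)

theorem norm_cube_le {r : ℕ} {Γ : (Fin r → ℕ) → ℂ} (hΓ : ∀ v, ‖Γ v‖ ≤ 1) (h k : Fin r → ℕ) :
    ‖cube Γ h k‖ ≤ 1 := by
  unfold cube
  rw [norm_prod]
  exact prod_le_one (fun _ _ => norm_nonneg _) fun ε _ => (Cube_norm_cj _ _).trans_le (hΓ _)

theorem cube_mul {r : ℕ} (Γ Γ' : (Fin r → ℕ) → ℂ) (h k : Fin r → ℕ) :
    cube (fun v => Γ v * Γ' v) h k = cube Γ h k * cube Γ' h k := by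
  simp only [cube, Cube_cj_mul, prod_mul_distrib]

theorem cube_prod {r : ℕ} {ι : Type} (s : Finset ι) (Γ : ι → (Fin r → ℕ) → ℂ) (h k : Fin r → ℕ) :
    cube (fun v => ∏ i ∈ s, Γ i v) h k = ∏ i ∈ s, cube (Γ i) h k := by
  induction s using Finset.induction_on with
  | empty => simp [cube, Cube_cj_one]
  | insert a s ha ih =>
    simp only [prod_insert ha]
    rw [cube_mul, ih]

theorem cube_conj {r : ℕ} (Γ : (Fin r → ℕ) → ℂ) (h k : Fin r → ℕ) :
    cube (fun v => conj (Γ v)) h k = conj (cube Γ h k) := by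
  simp only [cube, Cube_cj_conj, map_prod]

theorem cube_const {r : ℕ} (hr : 1 ≤ r) {c : ℂ} (hc : ‖c‖ = 1) (h k : Fin r → ℕ) :
    cube (fun _ => c) h k = 1 := by
  obtain ⟨r, rfl⟩ : ∃ s, r = s + 1 := ⟨r - 1, by omega⟩
  rw [← Fin.cons_self_tail h, ← Fin.cons_self_tail k, Cube_cons, Complex.mul_conj,
    Complex.normSq_eq_norm_sq, hc]
  simp [cube, Cube_cj_one]

theorem cube_ec {r : ℕ} (β : (Fin r → ℕ) → ℝ) (h k : Fin r → ℕ) (t : ℝ) :
    cube (fun v => ec (β v * t)) h k = ec (calt β h k * t) := by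
  rw [cube, calt, sum_mul, ec_sum]
  refine prod_congr rfl fun ε _ => ?_
  unfold cj
  split_ifs
  · rfl
  · rw [conj_ec, neg_mul]

/-- The Gowers-Cauchy-Schwarz inequality. -/
theorem gcs {r : ℕ} (hr : 1 ≤ r) (H : ℕ) (Γ : (Fin r → ℕ) → ℂ) (b : Fin r → (Fin r → ℕ) → ℂ)
    (hb : ∀ i h, ‖b i h‖ ≤ 1) (hb' : ∀ i h t, b i (Function.update h i t) = b i h) :
    ‖𝔼 h ∈ pb r H, Γ h * ∏ i, b i h‖ ^ 2 ^ r ≤ (𝔼 h ∈ pb r H, 𝔼 k ∈ pb r H, cube Γ h k).re := by
  obtain ⟨r, rfl⟩ : ∃ s, r = s + 1 := ⟨r - 1, by omega⟩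
  clear hr
  induction r with
  | zero =>
    refine (Cube_step H Γ b hb hb').trans (le_of_eq ?_)
    rw [Cube_expect_two, re_expect]
    refine expect_congr rfl fun h₀ _ => ?_
    rw [re_expect]
    refine expect_congr rfl fun k₀ _ => ?_
    simp only [Cube_expect_zero, Cube_cons, Cube_zero, univ_eq_empty, prod_empty, mul_one]
  | succ r ih =>
    have e₁ := (Cube_step H Γ b hb hb').trans (expect_le_expect fun h₀ _ =>
      expect_le_expect fun k₀ _ => Complex.re_le_norm _)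
    rw [pow_succ' 2 (r + 1), pow_mul]
    refine (pow_le_pow_left₀ (by positivity) e₁ _).trans ?_
    refine (pow_expect_le _ (fun _ _ => expect_nonneg fun _ _ => norm_nonneg _)
      (by positivity)).trans ?_
    rw [Cube_expect_two, re_expect]
    refine expect_le_expect fun h₀ _ => ?_
    refine (pow_expect_le _ (fun _ _ => norm_nonneg _) (by positivity)).trans ?_
    rw [re_expect]
    refine expect_le_expect fun k₀ _ => ?_
    simp only [Cube_cons]
    refine ih (fun v => Γ (Fin.cons h₀ v) * conj (Γ (Fin.cons k₀ v)))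
      (fun i v => b i.succ (Fin.cons h₀ v) * conj (b i.succ (Fin.cons k₀ v))) (fun i h => ?_)
      fun i h t => ?_
    · rw [norm_mul, Complex.norm_conj]
      exact mul_le_one₀ (hb _ _) (norm_nonneg _) (hb _ _)
    · simp only [Fin.cons_update, hb']

theorem B1.cfac {r : ℕ} {Γ : (Fin r → ℕ) → Y → ℂ} (hΓ : ∀ v, B1 (Γ v)) (k : Fin r → ℕ) (i : Fin r)
    (h : Fin r → ℕ) : B1 fun y => cfac (fun v => Γ v y) k i h := by
  unfold Pool.Agent.MP_357fb4_an.cfac
  exact B1.prod _ fun ε _ => Cube_B1_cj ε (hΓ _)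

theorem B1.cube {r : ℕ} {Γ : (Fin r → ℕ) → Y → ℂ} (hΓ : ∀ v, B1 (Γ v)) (h k : Fin r → ℕ) :
    B1 fun y => cube (fun v => Γ v y) h k := by
  unfold Pool.Agent.MP_357fb4_an.cube
  exact B1.prod _ fun ε _ => Cube_B1_cj ε (hΓ _)

theorem B1.dc (S : Sys ℤ Y μ) {r : ℕ} (h k : Fin r → ℕ) {f : Y → ℂ} (hf : B1 f) :
    B1 (dc S h k f) := by
  exact B1.cube (Γ := fun v y => f (S.act ((∑ i, v i : ℕ) : ℤ) y)) (fun v => hf.act S _) h k

theorem dc_act (S : Sys ℤ Y μ) {r : ℕ} (h k : Fin r → ℕ) (f : Y → ℂ) (n : ℤ) (y : Y) :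
    dc S h k (fun x => f (S.act n x)) y = dc S h k f (S.act n y) := by
  simp only [dc, act_act, add_comm n]

theorem box_cube (S : Sys ℤ Y μ) (r H : ℕ) (l : List ℕ) (f : Y → ℂ) :
    box S (List.replicate r H ++ l) f = 𝔼 h ∈ pb r H, 𝔼 k ∈ pb r H, box S l (dc S h k f) := by
  induction r generalizing f with
  | zero =>
    simp only [List.replicate_zero, List.nil_append, Cube_expect_zero]
    congr 1
    funext y
    simp [dc, Cube_zero, S.act_zero]
  | succ r ih =>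
    rw [List.replicate_succ, List.cons_append, box, Cube_expect_two]
    refine expect_congr rfl fun h₀ _ => expect_congr rfl fun k₀ _ => ?_
    rw [ih]
    refine expect_congr rfl fun h _ => expect_congr rfl fun k _ => ?_
    congr 1
    funext y
    simp only [dc, dl, Cube_cons, act_act, Fin.sum_univ_succ, Fin.cons_zero, Fin.cons_succ,
      Nat.cast_add]

theorem Eig.conj {S : Sys ℤ Y μ} {β : ℝ} {χ : Y → ℂ} (h : Eig S β χ) :
    Eig S (-β) fun y => conj (χ y) := by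
  refine ⟨h.1.conj, fun n => (h.2 n).mono fun y hy => ?_⟩
  dsimp only at hy ⊢
  rw [hy, map_mul, conj_ec, neg_mul]

theorem Eig.zero (S : Sys ℤ Y μ) (β : ℝ) : Eig S β fun _ => 0 := by
  exact ⟨B1.const (by simp), fun n => Eventually.of_forall fun y => by simp⟩

theorem Eig.cube {S : Sys ℤ Y μ} {r : ℕ} {β : (Fin r → ℕ) → ℝ} {χ : (Fin r → ℕ) → Y → ℂ}
    (hχ : ∀ v, Eig S (β v) (χ v)) (h k : Fin r → ℕ) :
    Eig S (calt β h k) fun y => cube (fun v => χ v y) h k := by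
  refine ⟨B1.cube (fun v => (hχ v).1) h k, fun n => ?_⟩
  have hall : ∀ᵐ y ∂μ, ∀ v, χ v (S.act n y) = ec (β v * n) * χ v y :=
    ae_all_iff.2 fun v => (hχ v).2 n
  refine hall.mono fun y hy => ?_
  dsimp only
  simp only [hy]
  rw [cube_mul, cube_ec]

end Pool.Agent.MP_357fb4_an
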