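import Pool.Agent.MP_357fb4_an.Inv
import Pool.Agent.MP_357fb4_an.Cube

/-!
Degree lowering.
-/

open scoped BigOperators Classical ComplexConjugate Polynomial
open Finset Filter MeasureTheory Topology

noncomputable section

namespace Pool.Agent.MP_357fb4_an

variable {Y : Type} [MeasurableSpace Y] {μ : Measure Y} [IsProbabilityMeasure μ]

lemma DLow_pb {r H : ℕ} (hH : 1 ≤ H) : (pb r H).Nonempty :=
  Fintype.piFinset_nonempty.2 fun _ => nonempty_range_iff.2 (by omega)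

lemma DLow_tendsto {ι α : Type*} (s : Finset ι) {l : Filter α} {f : ι → α → ℝ} {a : ι → ℝ}
    (h : ∀ i ∈ s, Tendsto (f i) l (𝓝 (a i))) :
    Tendsto (fun x => 𝔼 i ∈ s, f i x) l (𝓝 (𝔼 i ∈ s, a i)) := by
  simp only [expect_eq_sum_div_card]
  exact (tendsto_finsetSum s h).div_const _

lemma DLow_re_int {f : Y → ℂ} (hf : B1 f) : ∫ y, (f y).re ∂μ = (∫ y, f y ∂μ).re := by
  simpa using integral_re (μ := μ) hf.integrable

lemma DLow_re_le {f : Y → ℂ} : (∫ y, f y ∂μ).re ≤ ∫ y, ‖f y‖ ∂μ :=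
  (Complex.re_le_norm _).trans (norm_integral_le_integral_norm _)

lemma DLow_gcs {r : ℕ} (hr : 1 ≤ r) (H : ℕ) {Γ : (Fin r → ℕ) → Y → ℂ} (hΓ : ∀ v, B1 (Γ v))
    {b : Fin r → (Fin r → ℕ) → Y → ℂ} (hb : ∀ i h, B1 (b i h))
    (hb' : ∀ i h t y, b i (Function.update h i t) y = b i h y) :
    (∫ y, ‖𝔼 h ∈ pb r H, Γ h y * ∏ i, b i h y‖ ∂μ) ^ 2 ^ r ≤
      𝔼 h ∈ pb r H, 𝔼 k ∈ pb r H, (∫ y, cube (fun v => Γ v y) h k ∂μ).re := by
  have h1 : B1 fun y => 𝔼 h ∈ pb r H, Γ h y * ∏ i, b i h y :=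
    B1.expect _ fun h _ => (hΓ h).mul (B1.prod univ fun i _ => hb i h)
  have h2 : ∀ h, B1 fun y => 𝔼 k ∈ pb r H, cube (fun v => Γ v y) h k := fun h =>
    B1.expect _ fun k _ => B1.cube hΓ h k
  have h3 : B1 fun y => 𝔼 h ∈ pb r H, 𝔼 k ∈ pb r H, cube (fun v => Γ v y) h k :=
    B1.expect _ fun h _ => h2 h
  refine (pow_integral_le h1.1.norm (fun _ => norm_nonneg _) h1.2 _).trans ?_
  calc _ ≤ ∫ y, (𝔼 h ∈ pb r H, 𝔼 k ∈ pb r H, cube (fun v => Γ v y) h k).re ∂μ := by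
        refine integral_mono_of_nonneg (Eventually.of_forall fun _ => by positivity)
          h3.integrable.re (Eventually.of_forall fun y => ?_)
        exact gcs hr H (fun v => Γ v y) (fun i h => b i h y) (fun i h => (hb i h).2 y)
          (fun i h t => hb' i h t y)
    _ = _ := by
        rw [DLow_re_int h3, integral_expect _ fun h _ => (h2 h).integrable, re_expect]
        refine expect_congr rfl fun h _ => ?_
        rw [integral_expect _ fun k _ => (B1.cube hΓ h k).integrable, re_expect]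

lemma DLow_a (S : Sys ℤ Y μ) {D : Y → ℂ} (hD : B1 D) (r : ℕ) {H : ℕ} (hH : 1 ≤ H) :
    ∃ k, nrm S (r + 2) D ≤ 𝔼 h ∈ pb r H, nrm S 2 (dc S h k D) := by
  have h1 : nrm S (r + 2) D ≤ 𝔼 h ∈ pb r H, 𝔼 k ∈ pb r H, nrm S 2 (dc S h k D) := by
    refine ge_of_tendsto (DLow_tendsto (pb r H) fun h _ => DLow_tendsto (pb r H) fun k _ =>
      tendsto_nrm S 2 (B1.dc S h k hD)) ?_
    filter_upwards [eventually_ge_atTop 1] with K hK
    rw [← box_cube]
    have := nrm_le S (List.replicate r H ++ List.replicate 2 K) (fun L hL => by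
      rcases List.mem_append.1 hL with h | h
      · rw [List.eq_of_mem_replicate h]; exact hH
      · rw [List.eq_of_mem_replicate h]; exact hK) hD
    simpa only [List.length_append, List.length_replicate] using this
  rw [expect_comm] at h1
  obtain ⟨k, -, hk⟩ := exists_le_of_le_expect (DLow_pb hH) h1
  exact ⟨k, hk⟩

lemma DLow_dl (S : Sys ℤ Y μ) {r : ℕ} (h k : Fin r → ℕ) (D : Y → ℂ) (l l' : ℤ) (y : Y) :
    dc S h k (dl S l l' D) y = dc S h k D (S.act l y) * conj (dc S h k D (S.act l' y)) := by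
  rw [← dc_act, ← dc_act]
  simp only [dc, dl]
  rw [cube_mul, cube_conj]

lemma DLow_c (S : Sys ℤ Y μ) {D : Y → ℂ} (hD : B1 D) {r : ℕ} (hr : 1 ≤ r) {H : ℕ} (hH : 1 ≤ H)
    {β : (Fin r → ℕ) → ℝ} {X : (Fin r → ℕ) → Y → ℂ} (hX : ∀ h, Eig S (β h) (X h))
    (k k' : Fin r → ℕ) (good : (Fin r → ℕ) → Prop) {c e : ℝ} (hc0 : 0 ≤ c) (he : 0 ≤ e)
    (hc : c ≤ 𝔼 h ∈ pb r H, if good h then (1 : ℝ) else 0)
    (h1 : ∀ h, good h → e ≤ (∫ y, dc S h k D y * X h y ∂μ).re)
    (h2 : ∀ h, good h → ∃ m : ℤ, calt β h k' = m) :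
    (c * e ^ 2) ^ 2 ^ r ≤ box S (List.replicate (r + 1) H) D := by
  have hR : (range H).Nonempty := nonempty_range_iff.2 (by omega)
  obtain ⟨b, hb⟩ : ∃ b : ℕ → Fin r → (Fin r → ℕ) → ℂ,
      b = fun (l : ℕ) i h => cfac (fun v => ec (β v * (-(l : ℝ)))) k' i h := ⟨_, rfl⟩
  have hb1 : ∀ l i h, ‖b l i h‖ ≤ 1 := fun l i h => by
    rw [hb]; exact norm_cfac_le (fun v => by simp) k' i h
  have hbu : ∀ l i h t, b l i (Function.update h i t) = b l i h := fun l i h t => by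
    rw [hb]; exact cfac_update _ k' i h t
  have hB1 : ∀ l h, ‖∏ i, b l i h‖ ≤ 1 := fun l h => by
    rw [norm_prod]; exact prod_le_one (fun _ _ => norm_nonneg _) fun i _ => hb1 l i h
  have hBe : ∀ h, good h → ∀ l : ℕ, ∏ i, b l i h = ec (β h * ((l : ℤ) : ℝ)) := by
    intro h hg l
    obtain ⟨m, hm⟩ := h2 h hg
    have h3 := cube_ec β h k' (-(l : ℝ))
    rw [cube_eq, hm, show (m : ℝ) * -(l : ℝ) = ((-(m * l) : ℤ) : ℝ) by push_cast; ring,
      ec_int] at h3
    have h4 : ec (β h * ((l : ℤ) : ℝ)) * ec (β h * -(l : ℝ)) = 1 := by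
      rw [← ec_add]; simp
    rw [hb]
    calc _ = ec (β h * ((l : ℤ) : ℝ)) * (ec (β h * -(l : ℝ)) *
          ∏ i, cfac (fun v => ec (β v * -(l : ℝ))) k' i h) := by rw [← mul_assoc, h4, one_mul]
      _ = _ := by rw [h3, mul_one]
  have hG : ∀ h, B1 (dc S h k D) := fun h => B1.dc S h k hD
  have hT : ∀ h (l : ℕ), B1 fun y => (∏ i, b l i h) * dc S h k D (S.act (l : ℕ) y) :=
    fun h l => (B1.const (hB1 l h)).mul ((hG h).act S _)
  have hA : ∀ h, B1 fun y => 𝔼 l ∈ range H, (∏ i, b l i h) * dc S h k D (S.act (l : ℕ) y) :=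
    fun h => B1.expect _ fun l _ => hT h l
  have h5 : ∀ h, (if good h then (1 : ℝ) else 0) * e ^ 2 ≤
      ∫ y, ‖𝔼 l ∈ range H, (∏ i, b l i h) * dc S h k D (S.act (l : ℕ) y)‖ ^ 2 ∂μ := by
    intro h
    split_ifs with hg
    · refine le_trans ?_ (sq_norm_integral_mul_le (hA h).1 (hA h).2 (hX h).1.2)
      rw [one_mul]
      refine pow_le_pow_left₀ he ((h1 h hg).trans (le_trans (le_of_eq ?_) (Complex.re_le_norm _))) 2
      congr 1
      simp only [mul_expect]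
      rw [integral_expect _ fun l _ => ((hX h).1.mul (hT h l)).integrable]
      refine (expect_const hR _).symm.trans (expect_congr rfl fun l _ => ?_)
      rw [← integral_act S (l : ℕ) ((hG h).mul (hX h).1).1]
      refine integral_congr_ae ?_
      filter_upwards [(hX h).2 (l : ℕ)] with y hy
      rw [hy, hBe h hg l]
      ring
    · rw [zero_mul]
      exact integral_nonneg fun _ => by positivity
  obtain ⟨Γ, hΓ⟩ : ∃ Γ : ℕ → ℕ → (Fin r → ℕ) → Y → ℂ,
      Γ = fun (l l' : ℕ) v y => dl S (l : ℕ) (l' : ℕ) D (S.act ((∑ i, v i : ℕ) : ℤ) y) := ⟨_, rfl⟩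
  have hΓ1 : ∀ l l' v, B1 (Γ l l' v) := fun l l' v => by
    rw [hΓ]; exact (hD.dl S _ _).act S _
  obtain ⟨w, hw⟩ : ∃ w : ℕ → ℕ → Fin r → (Fin r → ℕ) → Y → ℂ,
      w = fun l l' i h y => b l i h * conj (b l' i h) * cfac (fun v => Γ l l' v y) k i h :=
    ⟨_, rfl⟩
  have hw1 : ∀ l l' i h, B1 (w l l' i h) := fun l l' i h => by
    rw [hw]
    exact ((B1.const (hb1 l i h)).mul (B1.const (hb1 l' i h)).conj).mul (B1.cfac (hΓ1 l l') k i h)
  have hwu : ∀ l l' i h t y, w l l' i (Function.update h i t) y = w l l' i h y :=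
    fun l l' i h t y => by
      rw [hw]
      simp only [hbu, cfac_update]
  have hid : ∀ (l l' : ℕ) h y, (∏ i, b l i h) * dc S h k D (S.act (l : ℕ) y) *
      conj ((∏ i, b l' i h) * dc S h k D (S.act (l' : ℕ) y)) = Γ l l' h y * ∏ i, w l l' i h y := by
    intro l l' h y
    have h6 : cube (fun v => Γ l l' v y) h k =
        dc S h k D (S.act (l : ℕ) y) * conj (dc S h k D (S.act (l' : ℕ) y)) := by
      rw [← DLow_dl, hΓ]; rfl
    rw [cube_eq] at h6
    rw [hw]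
    simp only [prod_mul_distrib, map_mul, map_prod]
    linear_combination (-(∏ i, b l i h) * ∏ i, conj (b l' i h)) * h6
  have hZ : ∀ l l' h, B1 fun y => Γ l l' h y * ∏ i, w l l' i h y := fun l l' h =>
    (hΓ1 l l' h).mul (B1.prod univ fun i _ => hw1 l l' i h)
  have h7 : c * e ^ 2 ≤ 𝔼 l ∈ range H, 𝔼 l' ∈ range H,
      ∫ y, ‖𝔼 h ∈ pb r H, Γ l l' h y * ∏ i, w l l' i h y‖ ∂μ := by
    calc c * e ^ 2 ≤ (𝔼 h ∈ pb r H, if good h then (1 : ℝ) else 0) * e ^ 2 := by gcongr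
      _ = 𝔼 h ∈ pb r H, (if good h then (1 : ℝ) else 0) * e ^ 2 := expect_mul _ _ _
      _ ≤ 𝔼 h ∈ pb r H, 𝔼 l ∈ range H, 𝔼 l' ∈ range H,
            (∫ y, Γ l l' h y * ∏ i, w l l' i h y ∂μ).re := by
          refine expect_le_expect fun h _ => (h5 h).trans (le_of_eq ?_)
          simp only [sq_norm_expect, hid]
          rw [integral_expect_real _ fun l _ => ?_]
          · refine expect_congr rfl fun l _ => ?_
            refine (integral_expect_real _ fun l' _ => ?_).trans ?_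
            · exact (hZ l l' h).integrable.re
            · exact expect_congr rfl fun l' _ => DLow_re_int (hZ l l' h)
          · simp only [← re_expect]
            exact (B1.expect _ fun l' _ => hZ l l' h).integrable.re
      _ = 𝔼 l ∈ range H, 𝔼 l' ∈ range H,
            (∫ y, 𝔼 h ∈ pb r H, Γ l l' h y * ∏ i, w l l' i h y ∂μ).re := by
          rw [expect_comm]
          refine expect_congr rfl fun l _ => ?_
          rw [expect_comm]
          refine expect_congr rfl fun l' _ => ?_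
          rw [integral_expect _ fun h _ => (hZ l l' h).integrable, re_expect]
      _ ≤ _ := expect_le_expect fun l _ => expect_le_expect fun l' _ => DLow_re_le
  have hn : 2 ^ r ≠ 0 := by positivity
  have h0 : ∀ l l', 0 ≤ ∫ y, ‖𝔼 h ∈ pb r H, Γ l l' h y * ∏ i, w l l' i h y‖ ∂μ :=
    fun l l' => integral_nonneg fun _ => norm_nonneg _
  refine (pow_le_pow_left₀ (by positivity) h7 _).trans ?_
  refine (pow_expect_le _ (fun l _ => expect_nonneg fun l' _ => h0 l l') hn).trans ?_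
  rw [List.replicate_succ, box]
  refine expect_le_expect fun l _ => (pow_expect_le _ (fun l' _ => h0 l l') hn).trans ?_
  refine expect_le_expect fun l' _ => (DLow_gcs hr H (hΓ1 l l') (hw1 l l') (hwu l l')).trans ?_
  have h8 := box_cube S r H [] (dl S (l : ℕ) (l' : ℕ) D)
  rw [List.append_nil] at h8
  rw [h8, hΓ]
  exact le_of_eq rfl

lemma DLow_b (S : Sys ℤ Y μ) (U : Ultrafilter ℕ) (c : ℕ → ℕ → ℝ)
    (hc : ∀ j n, 0 ≤ c j n) (h1 : ∀ j, ∑ n ∈ range j, c j n ≤ 1) (F : ℕ → ℕ → Y → ℂ)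
    (hF : ∀ j n, B1 (F j n)) {D : Y → ℂ} (hD : B1 D)
    (hlim : ∀ f : Y → ℂ, B1 f → Tendsto (fun j => ∫ y, f y * ∑ n ∈ range j, c j n * F j n y ∂μ) U
      (𝓝 (∫ y, f y * D y ∂μ)))
    {r : ℕ} (hr : 1 ≤ r) (H : ℕ) {X : (Fin r → ℕ) → Y → ℂ} (hX : ∀ h, B1 (X h))
    (k : Fin r → ℕ) {e : ℝ} (he : 0 ≤ e)
    (h2 : e < 𝔼 h ∈ pb r H, (∫ y, dc S h k D y * X h y ∂μ).re) :
    ∀ᶠ j in (U : Filter ℕ), e ^ 2 ^ r ≤ 𝔼 h ∈ pb r H, 𝔼 k' ∈ pb r H,
      (∑ n ∈ range j, c j n * ∫ y, dc S h k' (F j n) y * cube (fun v => X v y) h k' ∂μ).re := by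
  obtain ⟨w, hw⟩ : ∃ w : Fin r → (Fin r → ℕ) → Y → ℂ,
      w = fun i h y => cfac (fun v => D (S.act ((∑ i, v i : ℕ) : ℤ) y)) k i h := ⟨_, rfl⟩
  have hw1 : ∀ i h, B1 (w i h) := fun i h => by
    rw [hw]; exact B1.cfac (fun v => hD.act S _) k i h
  have hwu : ∀ i h t y, w i (Function.update h i t) y = w i h y := fun i h t y => by
    rw [hw]; exact cfac_update _ k i h t
  have hW : ∀ h, B1 fun y => X h y * ∏ i, w i h y := fun h =>
    (hX h).mul (B1.prod univ fun i _ => hw1 i h)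
  have hsh : ∀ (h : Fin r → ℕ) (g : Y → ℂ), B1 g →
      ∫ y, (X h (S.act (-((∑ i, h i : ℕ) : ℤ)) y) *
        ∏ i, w i h (S.act (-((∑ i, h i : ℕ) : ℤ)) y)) * g y ∂μ =
      ∫ y, (g (S.act ((∑ i, h i : ℕ) : ℤ) y) * X h y) * ∏ i, w i h y ∂μ := by
    intro h g hg
    rw [← integral_act S ((∑ i, h i : ℕ) : ℤ) (((hW h).act S _).mul hg).1]
    refine integral_congr_ae (Eventually.of_forall fun y => ?_)
    simp only [act_act, neg_add_cancel, S.act_zero]
    ring
  have h3 := DLow_tendsto (pb r H) fun h _ =>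
    (Complex.continuous_re.tendsto _).comp (hlim _ ((hW h).act S (-((∑ i, h i : ℕ) : ℤ))))
  have h4 : e < 𝔼 h ∈ pb r H, (∫ y, (X h (S.act (-((∑ i, h i : ℕ) : ℤ)) y) *
      ∏ i, w i h (S.act (-((∑ i, h i : ℕ) : ℤ)) y)) * D y ∂μ).re := by
    refine h2.trans_eq (expect_congr rfl fun h _ => ?_)
    rw [hsh h D hD]
    congr 1
    refine integral_congr_ae (Eventually.of_forall fun y => ?_)
    simp only [dc, cube_eq, hw]
    ring
  filter_upwards [h3.eventually (lt_mem_nhds h4)] with j hj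
  obtain ⟨Γ, hΓ⟩ : ∃ Γ : ℕ → (Fin r → ℕ) → Y → ℂ,
      Γ = fun n v y => F j n (S.act ((∑ i, v i : ℕ) : ℤ) y) * X v y := ⟨_, rfl⟩
  have hΓ1 : ∀ n v, B1 (Γ n v) := fun n v => by
    rw [hΓ]; exact ((hF j n).act S _).mul (hX v)
  have hZ : ∀ n h, B1 fun y => Γ n h y * ∏ i, w i h y := fun n h =>
    (hΓ1 n h).mul (B1.prod univ fun i _ => hw1 i h)
  have h5 : e ≤ ∑ n ∈ range j, c j n * ∫ y, ‖𝔼 h ∈ pb r H, Γ n h y * ∏ i, w i h y‖ ∂μ := by
    refine hj.le.trans ?_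
    calc _ = 𝔼 h ∈ pb r H, ∑ n ∈ range j,
            c j n * (∫ y, Γ n h y * ∏ i, w i h y ∂μ).re := by
          refine expect_congr rfl fun h _ => ?_
          simp only [Function.comp, mul_sum]
          rw [integral_finsetSum _ fun n _ => ?_, Complex.re_sum]
          · refine sum_congr rfl fun n _ => ?_
            simp only [mul_left_comm _ (c j n : ℂ)]
            rw [integral_const_mul, Complex.re_ofReal_mul, hsh h _ (hF j n), hΓ]
          · simp only [mul_left_comm _ (c j n : ℂ)]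
            exact (((hW h).act S _).mul (hF j n)).integrable.const_mul _
      _ = ∑ n ∈ range j, c j n * (∫ y, 𝔼 h ∈ pb r H, Γ n h y * ∏ i, w i h y ∂μ).re := by
          rw [expect_sum_comm]
          refine sum_congr rfl fun n _ => ?_
          rw [integral_expect _ fun h _ => (hZ n h).integrable, re_expect, mul_expect]
      _ ≤ _ := sum_le_sum fun n _ => mul_le_mul_of_nonneg_left DLow_re_le (hc j n)
  have hn : 2 ^ r ≠ 0 := by positivity
  refine (pow_le_pow_left₀ he h5 _).trans ?_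
  refine (pow_wsum_le _ (fun n _ => hc j n) (h1 j)
    (fun n _ => integral_nonneg fun _ => norm_nonneg _) hn).trans ?_
  refine (sum_le_sum fun n _ => mul_le_mul_of_nonneg_left
    (DLow_gcs hr H (hΓ1 n) hw1 hwu) (hc j n)).trans (le_of_eq ?_)
  simp only [Complex.re_sum, expect_sum_comm, mul_expect, Complex.re_ofReal_mul, hΓ, cube_mul]
  rfl

theorem dlow (S : Sys ℤ Y μ) (erg : Ergodic (S.act 1) μ) (U : Ultrafilter ℕ) (c : ℕ → ℕ → ℝ)
    (hc : ∀ j n, 0 ≤ c j n) (h1 : ∀ j, ∑ n ∈ range j, c j n ≤ 1) (F : ℕ → ℕ → Y → ℂ)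
    (hF : ∀ j n, B1 (F j n)) {D : Y → ℂ} (hD : B1 D)
    (hlim : ∀ f : Y → ℂ, B1 f → Tendsto (fun j => ∫ y, f y * ∑ n ∈ range j, c j n * F j n y ∂μ) U
      (𝓝 (∫ y, f y * D y ∂μ)))
    {r : ℕ} (hr : 1 ≤ r)
    (hP : ∀ (h k : Fin r → ℕ) (β : ℝ) (χ : Y → ℂ), Eig S β χ → (∀ n : ℤ, β ≠ n) →
      Tendsto (fun j => ∑ n ∈ range j, c j n * ∫ y, dc S h k (F j n) y * χ y ∂μ) U (𝓝 0))
    (hpos : 0 < nrm S (r + 2) D) : 0 < nrm S (r + 1) D := by
  obtain ⟨d, hd⟩ : ∃ d, d = nrm S (r + 2) D := ⟨_, rfl⟩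
  rw [← hd] at hpos
  refine lt_of_lt_of_le (b := ((d / 4) ^ 2 ^ r * (d / 2) ^ 2) ^ 2 ^ r) (by positivity)
    (le_ciInf fun K => ?_)
  have hH : 1 ≤ K + 1 := by omega
  generalize K + 1 = H at hH
  obtain ⟨k, hk⟩ := DLow_a S hD r hH
  rw [← hd] at hk
  choose β χ hχ hn using fun h : Fin r → ℕ => inv2 S erg (B1.dc S h k hD)
  obtain ⟨X, hX⟩ : ∃ X : (Fin r → ℕ) → Y → ℂ,
      X = fun h y => if d / 2 ≤ nrm S 2 (dc S h k D) then conj (χ h y) else 0 := ⟨_, rfl⟩
  have hXe : ∀ h, Eig S (-β h) (X h) := fun h => by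
    by_cases hh : d / 2 ≤ nrm S 2 (dc S h k D)
    · simpa only [hX, if_pos hh] using (hχ h).conj
    · simpa only [hX, if_neg hh] using Eig.zero S (-β h)
  have hX1 : ∀ h, d / 2 ≤ nrm S 2 (dc S h k D) →
      nrm S 2 (dc S h k D) ≤ (∫ y, dc S h k D y * X h y ∂μ).re := fun h hh => by
    simpa only [hX, if_pos hh] using hn h
  have hX0 : ∀ h, ¬ d / 2 ≤ nrm S 2 (dc S h k D) → ∀ y, X h y = 0 := fun h hh y => by
    simp only [hX, if_neg hh]
  have h2 : d / 4 < 𝔼 h ∈ pb r H, (∫ y, dc S h k D y * X h y ∂μ).re := by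
    have h3 : 𝔼 h ∈ pb r H, (nrm S 2 (dc S h k D) - d / 2) ≤
        𝔼 h ∈ pb r H, (∫ y, dc S h k D y * X h y ∂μ).re := by
      refine expect_le_expect fun h _ => ?_
      by_cases hh : d / 2 ≤ nrm S 2 (dc S h k D)
      · have := hX1 h hh
        linarith
      · simp only [hX0 h hh, mul_zero, integral_zero, Complex.zero_re]
        linarith
    rw [expect_sub_distrib, expect_const (DLow_pb hH)] at h3
    linarith
  have h4 := DLow_b S U c hc h1 F hF hD hlim hr H (fun h => (hXe h).1) k (by positivity) h2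
  obtain ⟨good, hg⟩ : ∃ good : (Fin r → ℕ) → (Fin r → ℕ) → Prop, good = fun h k' =>
      d / 2 ≤ nrm S 2 (dc S h k D) ∧ ∃ m : ℤ, calt (fun v => -β v) h k' = m := ⟨_, rfl⟩
  have h5 : (d / 4) ^ 2 ^ r ≤ 𝔼 h ∈ pb r H, 𝔼 k' ∈ pb r H, if good h k' then (1 : ℝ) else 0 := by
    refine ge_of_tendsto (x := (U : Filter ℕ)) (DLow_tendsto (pb r H) fun h _ =>
      DLow_tendsto (pb r H) (f := fun k' j => if good h k' then (1 : ℝ) else
        (∑ n ∈ range j, c j n * ∫ y, dc S h k' (F j n) y * cube (fun v => X v y) h k' ∂μ).re)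
        fun k' _ => ?_) ?_
    · by_cases hh : good h k'
      · simp only [if_pos hh]
        exact tendsto_const_nhds
      · simp only [if_neg hh]
        by_cases hl : d / 2 ≤ nrm S 2 (dc S h k D)
        · have h6 := hP h k' _ _ (Eig.cube hXe h k') fun n hn' => hh (by rw [hg]; exact ⟨hl, n, hn'⟩)
          exact (Complex.continuous_re.tendsto 0).comp h6
        · simp only [cube_eq (fun v => X v _), hX0 h hl, zero_mul, mul_zero, integral_zero,
            sum_const_zero, Complex.zero_re]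
          exact tendsto_const_nhds
    · filter_upwards [h4] with j hj
      refine hj.trans (expect_le_expect fun h _ => expect_le_expect fun k' _ => ?_)
      split_ifs with hh
      · refine (Complex.re_le_norm _).trans ((norm_sum_le _ _).trans
          (le_trans (sum_le_sum fun n _ => ?_) (h1 j)))
        rw [norm_mul, Complex.norm_real, Real.norm_of_nonneg (hc j n)]
        exact mul_le_of_le_one_right (hc j n)
          ((B1.dc S h k' (hF j n)).mul (B1.cube (fun v => (hXe v).1) h k')).norm_integral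
      · exact le_rfl
  rw [expect_comm] at h5
  obtain ⟨k', -, hk'⟩ := exists_le_of_le_expect (DLow_pb hH) h5
  refine DLow_c S hD hr hH hXe k k' (fun h => good h k') (by positivity) (by positivity) hk'
    (fun h hh => ?_) (fun h hh => ?_)
  · rw [hg] at hh
    exact hh.1.trans (hX1 h hh.1)
  · rw [hg] at hh
    exact hh.2

end Pool.Agent.MP_357fb4_an
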