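import Pool.Agent.MP_357fb4_an.Box

/-!
Analytic lemmas for the van der Corput step.
-/

open scoped BigOperators Classical ComplexConjugate Polynomial
open Finset Filter MeasureTheory Topology

noncomputable section

namespace Pool.Agent.MP_357fb4_an

variable {Y : Type} [MeasurableSpace Y] {μ : Measure Y} [IsProbabilityMeasure μ]

lemma petT1_cs {ι : Type*} (s : Finset ι) {v : ι → Y → ℂ} (hv : ∀ i, B1 (v i)) {G : Y → ℂ}
    (hG : B1 G) : (𝔼 i ∈ s, ‖∫ y, G y * v i y ∂μ‖) ^ 2 ≤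
      𝔼 i ∈ s, 𝔼 j ∈ s, ‖∫ y, v i y * conj (v j y) ∂μ‖ := by
  choose c hc hc' using fun i => Complex.exists_norm_eq_mul_self (∫ y, G y * v i y ∂μ)
  have hw : ∀ i, B1 fun y => c i * v i y := fun i => (B1.const (hc i).le).mul (hv i)
  have hE := B1.expect s fun i _ => hw i
  have e₁ : ((𝔼 i ∈ s, ‖∫ y, G y * v i y ∂μ‖ : ℝ) : ℂ) =
      ∫ y, G y * 𝔼 i ∈ s, c i * v i y ∂μ := by
    simp only [mul_expect]
    rw [integral_expect s fun i _ => (hG.mul (hw i)).integrable, Complex.ofReal_expect]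
    refine expect_congr rfl fun i _ => ?_
    rw [hc', ← integral_const_mul]
    exact integral_congr_ae (Eventually.of_forall fun y => by ring)
  have e₂ := sq_norm_integral_mul_le (μ := μ) hE.1 hE.2 hG.2
  rw [← e₁, Complex.norm_real, Real.norm_eq_abs, sq_abs] at e₂
  refine e₂.trans ?_
  have hi : ∀ i j, Integrable (fun y => c i * v i y * conj (c j * v j y)) μ := fun i j =>
    ((hw i).mul (hw j).conj).integrable
  have hi' : ∀ i j, Integrable (fun y => (c i * v i y * conj (c j * v j y)).re) μ :=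
    fun i j => (hi i j).re
  simp only [sq_norm_expect]
  rw [integral_expect_real s fun i _ => ?_]
  · refine expect_le_expect fun i _ => ?_
    rw [integral_expect_real s fun j _ => hi' i j]
    refine expect_le_expect fun j _ => ?_
    have e₃ : ∫ y, c i * v i y * conj (c j * v j y) ∂μ =
        c i * conj (c j) * ∫ y, v i y * conj (v j y) ∂μ := by
      rw [← integral_const_mul]
      exact integral_congr_ae (Eventually.of_forall fun y => by simp only [map_mul]; ring)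
    refine (integral_re (hi i j)).le.trans ((Complex.re_le_norm _).trans ?_)
    rw [e₃, norm_mul, norm_mul, Complex.norm_conj, hc, hc, one_mul, one_mul]
  · simp only [expect_eq_sum_div_card]
    exact (integrable_finsetSum s fun j _ => hi' i j).div_const _

lemma petT1_shift {φ : ℕ → ℝ} (h0 : ∀ x, 0 ≤ φ x) (h1 : ∀ x, φ x ≤ 1) (L h : ℕ) :
    𝔼 x ∈ range L, φ x ≤ 𝔼 x ∈ range L, φ (x + h) + h / L := by
  simp only [expect_eq_sum_div_card, card_range]
  rw [← add_div]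
  refine div_le_div_of_nonneg_right ?_ (Nat.cast_nonneg _)
  have h₁ : ∑ x ∈ range L, φ x ≤ ∑ x ∈ range (h + L), φ x :=
    sum_le_sum_of_subset_of_nonneg (range_mono (Nat.le_add_left L h)) fun x _ _ => h0 x
  have h₂ := sum_le_card_nsmul (range h) φ 1 fun x _ => h1 x
  rw [sum_range_add] at h₁
  simp only [card_range, nsmul_eq_mul, mul_one] at h₂
  simp only [add_comm _ h]
  linarith

lemma petT1_vdc {L M : ℕ} (hL : 1 ≤ L) (hM : 1 ≤ M) {u : ℕ → Y → ℂ} (hu : ∀ x, B1 (u x))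
    {G : Y → ℂ} (hG : B1 G) :
    𝔼 x ∈ range L, ‖∫ y, G y * u x y ∂μ‖ ≤ Real.sqrt (𝔼 h ∈ range M, 𝔼 h' ∈ range M,
      𝔼 x ∈ range L, ‖∫ y, u (x + h) y * conj (u (x + h') y) ∂μ‖) + 2 * M / L := by
  have hL' : (0 : ℝ) < L := by exact_mod_cast hL
  have h₁ : 𝔼 x ∈ range L, ‖∫ y, G y * u x y ∂μ‖ - 2 * M / L ≤
      𝔼 h ∈ range M, 𝔼 x ∈ range L, ‖∫ y, G y * u (x + h) y ∂μ‖ := by
    refine le_expect (nonempty_range_iff.2 (by omega)) fun h hh => ?_
    have h₂ := petT1_shift (φ := fun x => ‖∫ y, G y * u x y ∂μ‖) (fun _ => norm_nonneg _)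
      (fun x => (hG.mul (hu x)).norm_integral) L h
    have h₃ : (h : ℝ) / L ≤ 2 * M / L := by
      have : (h : ℝ) ≤ M := by exact_mod_cast (mem_range.1 hh).le
      gcongr
      linarith [Nat.cast_nonneg (α := ℝ) M]
    linarith
  rw [sub_le_iff_le_add] at h₁
  refine h₁.trans (add_le_add_left (Real.le_sqrt_of_sq_le ?_) _)
  rw [expect_comm]
  refine (pow_expect_le _ (fun _ _ => expect_nonneg fun _ _ => norm_nonneg _) two_ne_zero).trans
    ((expect_le_expect fun x _ => petT1_cs (range M) (fun h => hu (x + h)) hG).trans_eq ?_)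
  rw [expect_comm]
  exact expect_congr rfl fun h _ => expect_comm _ _ _

lemma petT1_card (T : Finset ℕ) {D : ℝ} (hD : 0 ≤ D) (h : ∀ a ∈ T, ∀ b ∈ T, (a : ℝ) - b ≤ D) :
    (T.card : ℝ) ≤ D + 1 := by
  rcases T.eq_empty_or_nonempty with rfl | hT
  · simp only [card_empty, Nat.cast_zero]
    linarith
  have h₁ : T.card ≤ (Icc (T.min' hT) (T.max' hT)).card :=
    card_le_card fun a ha => mem_Icc.2 ⟨T.min'_le a ha, T.le_max' a ha⟩
  have h₂ := T.min'_le_max' hT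
  have h₃ : T.card + T.min' hT ≤ T.max' hT + 1 := by
    rw [Nat.card_Icc] at h₁
    omega
  have h₄ : (T.card : ℝ) + T.min' hT ≤ T.max' hT + 1 := by exact_mod_cast h₃
  linarith [h _ (T.max'_mem hT) _ (T.min'_mem hT)]

theorem pat_split (L : ℕ) {κ : Type} (s : Finset κ) (pat : ℕ → κ)
    (hpat : ∀ x, x < L → pat x ∈ s) (Φ : κ → ℕ → ℝ) (h0 : ∀ k x, 0 ≤ Φ k x) :
    𝔼 x ∈ range L, Φ (pat x) x ≤ ∑ k ∈ s, 𝔼 x ∈ range L, Φ k x := by
  rw [← expect_sum_comm]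
  exact expect_le_expect fun x hx =>
    single_le_sum (f := fun k => Φ k x) (fun k _ => h0 k x) (hpat x (mem_range.1 hx))

/-- van der Corput with finitely many bounded multipliers. -/
theorem vdc {L M : ℕ} (hL : 1 ≤ L) (hM : 1 ≤ M) (u g : ℕ → Y → ℂ) (hu : ∀ x, B1 (u x))
    (hg : ∀ x, B1 (g x)) {κ : Type} (s : Finset κ) (pat : ℕ → κ) (hpat : ∀ x, pat x ∈ s)
    (hgp : ∀ x x', pat x = pat x' → g x = g x') :
    𝔼 x ∈ range L, ‖∫ y, g x y * u x y ∂μ‖ ≤ s.card * (Real.sqrt (𝔼 h ∈ range M, 𝔼 h' ∈ range M,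
      𝔼 x ∈ range L, ‖∫ y, u (x + h) y * conj (u (x + h') y) ∂μ‖) + 2 * M / L) := by
  have e : ∀ x, g (Function.invFun pat (pat x)) = g x := fun x =>
    hgp _ _ (Function.invFun_eq ⟨x, rfl⟩)
  have := pat_split L s pat (fun x _ => hpat x)
    (fun k x => ‖∫ y, g (Function.invFun pat k) y * u x y ∂μ‖) fun _ _ => norm_nonneg _
  simp only [e] at this
  exact this.trans ((sum_le_card_nsmul _ _ _ fun k _ => petT1_vdc hL hM hu (hg _)).trans_eq
    (nsmul_eq_mul _ _))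

/-- The choice of the range of the shifts. -/
theorem chooseM (C : ℝ) {η : ℝ} (hη : 0 < η) : ∃ C' : ℝ, ∀ Ω' : ℝ, ∃ Ω : ℝ, ∀ (L d : ℕ) (c : ℝ),
    Ω ≤ L → 2 ≤ d → |c| ≤ C → Ω ≤ |c| * (L : ℝ) ^ d → ∃ M : ℕ, 1 ≤ η * M ∧ (M : ℝ) ≤ η * L ∧
      |c| * M ≤ C' ∧ Ω' ≤ η * |c| * M * (L : ℝ) ^ (d - 1) := by
  have hA : 0 < 1 / η := by positivity
  have hA' : η * (1 / η) = 1 := by field_simp
  refine ⟨(|C| + 1) * (1 / η + 1), fun Ω' => ⟨(1 / η + 1) / η + 2 * |Ω'| / η ^ 2 + 2 * |Ω'| + 1,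
    fun L d c hL hd hc hΩ => ?_⟩⟩
  have p₁ : 0 < (1 / η + 1) / η := by positivity
  have p₂ : 0 ≤ 2 * |Ω'| / η ^ 2 := by positivity
  have p₃ := abs_nonneg Ω'
  have p₄ := abs_nonneg c
  have p₅ := abs_nonneg C
  have hL₁ : (1 : ℝ) ≤ L := by linarith
  obtain ⟨t, t₁, t₂, t₃, t₄⟩ : ∃ t : ℝ, 1 / η + 1 ≤ t ∧ t ≤ η * L ∧
      |c| * t ≤ (|C| + 1) * (1 / η + 1) ∧ 2 * |Ω'| ≤ η * |c| * t * (L : ℝ) ^ (d - 1) := by
    rcases le_or_gt (|c| * (η * L)) ((|C| + 1) * (1 / η + 1)) with h | h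
    · refine ⟨η * L, ?_, le_rfl, h, ?_⟩
      · have := (div_le_iff₀' hη).1 (show (1 / η + 1) / η ≤ L by linarith)
        exact this
      · have := (div_le_iff₀' (pow_pos hη 2)).1
          (show 2 * |Ω'| / η ^ 2 ≤ |c| * (L : ℝ) ^ d by linarith)
        rw [show d = d - 1 + 1 by omega, pow_succ (L : ℝ)] at this
        linarith
    · have hc0 : 0 < |c| := by
        refine p₄.lt_of_ne' fun e => ?_
        rw [e, zero_mul] at h
        exact absurd h (not_lt.2 (by positivity))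
      refine ⟨(|C| + 1) * (1 / η + 1) / |c|, ?_, ?_, by rw [mul_div_cancel₀ _ hc0.ne'], ?_⟩
      · rw [le_div_iff₀' hc0]
        exact mul_le_mul_of_nonneg_right (by linarith [le_abs_self C]) (by positivity)
      · rw [div_le_iff₀' hc0]
        exact h.le
      · rw [mul_assoc η, mul_div_cancel₀ _ hc0.ne']
        have h₁ : (L : ℝ) ≤ (L : ℝ) ^ (d - 1) := le_self_pow₀ hL₁ (by omega)
        have h₂ : 1 ≤ η * ((|C| + 1) * (1 / η + 1)) := by nlinarith [mul_nonneg p₅ hη.le]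
        nlinarith
  have f₁ := Nat.floor_le (show 0 ≤ t by linarith)
  have f₂ := Nat.lt_floor_add_one t
  have f₃ : (1 : ℝ) ≤ ⌊t⌋₊ := by exact_mod_cast Nat.floor_pos.2 (by linarith)
  refine ⟨⌊t⌋₊, by nlinarith, f₁.trans t₂, (mul_le_mul_of_nonneg_left f₁ p₄).trans t₃, ?_⟩
  have f₄ : η * |c| * t * (L : ℝ) ^ (d - 1) ≤ η * |c| * (2 * ⌊t⌋₊) * (L : ℝ) ^ (d - 1) := by
    gcongr
    linarith
  linarith [le_abs_self Ω']

theorem count_lin (γ : ℝ) {c η : ℝ} (hc : c ≠ 0) (hη : 0 ≤ η) {d : ℕ} (hd : 1 ≤ d) (M h : ℕ) :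
    (((range M).filter fun h' : ℕ => |γ + d * c * ((h' : ℝ) - h)| < η * |c| * M).card : ℝ) ≤
      2 * η * M + 1 := by
  refine petT1_card _ (by positivity) fun a ha b hb => ?_
  have h₁ := abs_sub_le (γ + d * c * ((a : ℝ) - h)) 0 (γ + d * c * ((b : ℝ) - h))
  rw [sub_zero, zero_sub, abs_neg, show γ + d * c * ((a : ℝ) - h) - (γ + d * c * ((b : ℝ) - h)) =
    d * (c * (a - b)) by ring, abs_mul, abs_mul, Nat.abs_cast] at h₁
  have h₂ : (1 : ℝ) ≤ d := by exact_mod_cast hd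
  have h₃ := abs_pos.2 hc
  refine (le_abs_self _).trans (le_of_mul_le_mul_left ?_ h₃)
  nlinarith [(mem_filter.1 ha).2, (mem_filter.1 hb).2, mul_nonneg h₃.le (abs_nonneg ((a : ℝ) - b))]

lemma petT1_few (S : Sys ℤ Y μ) {l : List ℕ} (hl : l ≠ []) {K : ℕ} (hK : 1 ≤ K) {δ δ' : ℝ}
    (hδ : 0 ≤ δ) {F : Y → ℂ} (hF : B1 F) (h : box S (K :: l) F ≤ δ) (N : ℕ) :
    δ' * ((Icc (-N : ℤ) N).filter fun k => δ' < box S l (dl S 0 k F)).card ≤
      9 * (N + 1) * δ + 12 * K := by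
  set B := (Icc (-N : ℤ) N).filter fun k => δ' < box S l (dl S 0 k F)
  have h0 : ∀ k, 0 ≤ box S l (dl S 0 k F) := fun k => box_nonneg S hl (hF.dl S 0 k)
  have h₁ := (box_mono S hK (show 1 ≤ 3 * N + 1 by omega) l hF).trans (add_le_add_left h _)
  have hN : (0 : ℝ) < (3 * N + 1 : ℕ) := by positivity
  simp only [box, box_dl S l (_ : ℕ) (_ : ℕ) hF, expect_eq_sum_div_card, card_range,
    ← sum_div] at h₁
  rw [div_le_iff₀ hN, div_le_iff₀ hN, add_mul, div_mul_cancel₀ _ hN.ne'] at h₁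
  have h₂ : ∀ j ∈ Icc N (2 * N), δ' * B.card ≤
      ∑ j' ∈ range (3 * N + 1), box S l (dl S 0 ((j' : ℤ) - (j : ℕ)) F) := fun j hj => by
    have h₃ := card_nsmul_le_sum B _ δ' fun k hk => (mem_filter.1 hk).2.le
    rw [nsmul_eq_mul, mul_comm] at h₃
    refine h₃.trans ((sum_le_sum_of_subset_of_nonneg (t := (range (3 * N + 1)).image
      fun j' : ℕ => (j' : ℤ) - (j : ℕ)) (fun k hk => ?_) fun k _ _ => h0 k).trans
      (sum_image_le_of_nonneg fun k _ => h0 k))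
    have h₄ := mem_Icc.1 (mem_filter.1 hk).1
    have h₅ := mem_Icc.1 hj
    exact mem_image.2 ⟨(k + j).toNat, mem_range.2 (by omega), by omega⟩
  have h₃ := (card_nsmul_le_sum _ _ _ h₂).trans (sum_le_sum_of_subset_of_nonneg
    (t := range (3 * N + 1)) (fun j hj => mem_range.2 (by have := mem_Icc.1 hj; omega))
    fun j _ _ => sum_nonneg fun j' _ => h0 _)
  rw [nsmul_eq_mul, Nat.card_Icc, show 2 * N + 1 - N = N + 1 by omega] at h₃
  push_cast at h₁ h₃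
  refine le_of_mul_le_mul_left (h₃.trans (h₁.trans ?_)) (by positivity)
  have hN' : (0 : ℝ) ≤ N := Nat.cast_nonneg N
  have hK' : (0 : ℝ) ≤ K := Nat.cast_nonneg K
  nlinarith [mul_nonneg hδ hN']

/-- Few pairs of shifts give a derivative with a large box average. -/
theorem count_merge (S : Sys ℤ Y μ) {s : ℕ} (hs : 1 ≤ s) (C : ℝ) {η δ' : ℝ} (hη : 0 < η)
    (hδ' : 0 < δ') : ∃ δ : ℝ, 0 < δ ∧ ∀ K : ℕ, 1 ≤ K → ∃ Ω : ℝ, ∀ (M : ℕ) (c : ℝ), |c| ≤ C →
      Ω ≤ |c| * M → ∀ F : Y → ℂ, B1 F → box S (List.replicate (s + 1) K) F ≤ δ →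
        (((range M ×ˢ range M).filter fun q : ℕ × ℕ => ∃ k : ℤ,
          |(k : ℝ) - c * ((q.2 : ℝ) - q.1)| ≤ 2 * C ∧
            δ' < box S (List.replicate s K) (dl S 0 k F)).card : ℝ) ≤ η * M ^ 2 := by
  obtain ⟨D, hD, hCD⟩ : ∃ D : ℝ, 0 < D ∧ C ≤ D := ⟨|C| + 1, by positivity, by
    linarith [le_abs_self C]⟩
  refine ⟨η * δ' / (180 * D), by positivity, fun K hK =>
    ⟨2 * D + 2 + 120 * K * D / (η * δ'), fun M c hc hΩ F hF hb => ?_⟩⟩
  have p₁ : 0 ≤ 120 * K * D / (η * δ') := by positivity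
  have ha : 0 < |c| := by
    refine (abs_nonneg c).lt_of_ne' fun e => ?_
    rw [e, zero_mul] at hΩ
    linarith
  have hM : (0 : ℝ) ≤ M := Nat.cast_nonneg M
  set N := ⌈|c| * M + 2 * D⌉₊ with hN
  have n₁ : |c| * M + 2 * D ≤ N := Nat.le_ceil _
  have n₂ : (N : ℝ) < |c| * M + 2 * D + 1 := Nat.ceil_lt_add_one (by positivity)
  have h₁ := petT1_few S (l := List.replicate s K) (δ' := δ') (by simp; omega) hK (by positivity)
    hF hb N
  set B := (Icc (-N : ℤ) N).filter fun k => δ' < box S (List.replicate s K) (dl S 0 k F)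
  have h₂ : 5 * D * B.card ≤ |c| * M * η := by
    have h₃ := (div_le_iff₀ (mul_pos hη hδ')).1
      (show 120 * K * D / (η * δ') ≤ |c| * M by linarith)
    have h₄ : 9 * (N + 1) * (η * δ' / (180 * D)) ≤ 9 * (2 * (|c| * M)) * (η * δ' / (180 * D)) := by
      gcongr
      linarith
    have h₅ : D * (9 * (2 * (|c| * M)) * (η * δ' / (180 * D))) = |c| * M * (η * δ') / 10 := by
      field_simp
      ring
    refine le_of_mul_le_mul_left ?_ hδ'
    nlinarith [mul_le_mul_of_nonneg_left (h₁.trans (add_le_add_left h₄ _)) hD.le]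
  let T : ℕ × ℤ → Finset ℕ := fun p =>
    (range M).filter fun h' => |(p.2 : ℝ) - c * ((h' : ℝ) - p.1)| ≤ 2 * C
  have h₃ : ∀ p, ((T p).card : ℝ) ≤ 5 * D / |c| := fun p => by
    refine (petT1_card (D := 4 * D / |c|) _ (by positivity) fun a ha' b hb' => ?_).trans ?_
    · have h₄ := abs_sub_le ((p.2 : ℝ) - c * ((b : ℝ) - p.1)) 0 ((p.2 : ℝ) - c * ((a : ℝ) - p.1))
      rw [sub_zero, zero_sub, abs_neg, show (p.2 : ℝ) - c * ((b : ℝ) - p.1) -
        ((p.2 : ℝ) - c * ((a : ℝ) - p.1)) = c * (a - b) by ring, abs_mul] at h₄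
      refine (le_abs_self _).trans ((le_div_iff₀' ha).2 ?_)
      linarith [(mem_filter.1 ha').2, (mem_filter.1 hb').2]
    · rw [le_div_iff₀ ha, add_mul, div_mul_cancel₀ _ ha.ne']
      linarith
  refine le_trans (b := ∑ p ∈ range M ×ˢ B, ((T p).card : ℝ)) ?_ ?_
  · rw [← Nat.cast_sum, Nat.cast_le]
    refine (card_le_card (t := (range M ×ˢ B).biUnion fun p => (T p).image fun h' => (p.1, h'))
      fun q hq => ?_).trans (card_biUnion_le.trans (sum_le_sum fun p _ => card_image_le))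
    obtain ⟨h₄, k, h₅, h₆⟩ := mem_filter.1 hq
    obtain ⟨h₇, h₈⟩ := mem_product.1 h₄
    refine mem_biUnion.2 ⟨(q.1, k), mem_product.2 ⟨h₇, mem_filter.2 ⟨?_, h₆⟩⟩,
      mem_image.2 ⟨q.2, mem_filter.2 ⟨h₈, h₅⟩, rfl⟩⟩
    have q₁ : (q.1 : ℝ) ≤ M := by exact_mod_cast (mem_range.1 h₇).le
    have q₂ : (q.2 : ℝ) ≤ M := by exact_mod_cast (mem_range.1 h₈).le
    have q₃ : |(q.2 : ℝ) - q.1| ≤ M := abs_le.2
      ⟨by linarith [Nat.cast_nonneg (α := ℝ) q.2], by linarith [Nat.cast_nonneg (α := ℝ) q.1]⟩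
    have q₄ := abs_sub_abs_le_abs_sub (k : ℝ) (c * ((q.2 : ℝ) - q.1))
    rw [abs_mul] at q₄
    have q₅ : |(k : ℝ)| ≤ N := by linarith [mul_le_mul_of_nonneg_left q₃ ha.le]
    exact mem_Icc.2 (abs_le.1 (by exact_mod_cast q₅))
  · refine (sum_le_card_nsmul _ _ _ fun p _ => h₃ p).trans ?_
    rw [nsmul_eq_mul, card_product, card_range, Nat.cast_mul, ← mul_div_assoc, div_le_iff₀ ha]
    nlinarith [mul_le_mul_of_nonneg_left h₂ hM]

/-- An average over pairs, with a small exceptional set. -/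
theorem expect_pairs_le {M : ℕ} (Φ : ℕ → ℕ → ℝ) (bad : ℕ × ℕ → Prop) {η ε : ℝ} (hη : 0 ≤ η)
    (hε : 0 ≤ ε) (h1 : ∀ h h', Φ h h' ≤ 1)
    (hb : (((range M ×ˢ range M).filter bad).card : ℝ) ≤ η * M ^ 2)
    (hg : ∀ h h', h < M → h' < M → ¬ bad (h, h') → Φ h h' ≤ ε) :
    𝔼 h ∈ range M, 𝔼 h' ∈ range M, Φ h h' ≤ η + ε := by
  rcases Nat.eq_zero_or_pos M with rfl | hM
  · simpa using add_nonneg hη hε
  have h₁ : ∑ q ∈ range M ×ˢ range M, Φ q.1 q.2 ≤
      ∑ q ∈ range M ×ˢ range M, ((if bad q then 1 else 0) + ε) := sum_le_sum fun q hq => by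
    split_ifs with h
    · linarith [h1 q.1 q.2]
    · rw [zero_add]
      exact hg _ _ (mem_range.1 (mem_product.1 hq).1) (mem_range.1 (mem_product.1 hq).2) h
  rw [sum_add_distrib, sum_boole, sum_const, card_product, card_range, nsmul_eq_mul] at h₁
  rw [← expect_product', expect_eq_sum_div_card, card_product, card_range,
    div_le_iff₀ (by positivity)]
  push_cast at h₁ ⊢
  linarith

end Pool.Agent.MP_357fb4_an
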