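import Pool.Agent.MP_357fb4_an.Maj
import Pool.Agent.MP_357fb4_an.PetT1

/-!
Removing the prime weight on short intervals.
-/

open scoped BigOperators Classical ComplexConjugate Polynomial
open Finset Filter MeasureTheory Topology

noncomputable section

namespace Pool.Agent.MP_357fb4_an

variable {Y : Type} [MeasurableSpace Y] {μ : Measure Y} [IsProbabilityMeasure μ]

/-- The representative in the unit interval. -/
def dwRep (s : AddCircle (1 : ℝ)) : ℝ := (AddCircle.equivIco 1 0 s : ℝ)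

lemma dwRep_meas : Measurable dwRep :=
  measurable_subtype_coe.comp (AddCircle.measurableEquivIco 1 0).measurable

lemma dwRep_coe (x : ℝ) : dwRep (x : AddCircle (1 : ℝ)) = Int.fract x := by
  simp [dwRep]

lemma dwRep_mem (s : AddCircle (1 : ℝ)) : 0 ≤ dwRep s ∧ dwRep s < 1 := by
  have := (AddCircle.equivIco 1 0 s).2
  simpa [dwRep] using this

lemma dwRep_add (s : AddCircle (1 : ℝ)) (t : ℝ) :
    dwRep (s + (t : AddCircle (1 : ℝ))) = Int.fract (dwRep s + t) := by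
  rw [← dwRep_coe, AddCircle.coe_add]
  congr 2
  exact AddCircle.coe_equivIco.symm

omit [IsProbabilityMeasure μ] in
lemma dw_act_meas (S : Sys ℤ Y μ) {X : Type} [MeasurableSpace X] {n : X → ℤ} {f : X → Y}
    (hn : Measurable n) (hf : Measurable f) : Measurable fun x => S.act (n x) (f x) := by
  have h : Measurable fun p : Y × ℤ => S.act p.2 p.1 :=
    measurable_from_prod_countable_left fun k => (S.mp k).measurable
  exact h.comp (hf.prodMk hn)

/-- The suspension flow. -/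
def dwSusp (S : Sys ℤ Y μ) :
    Sys ℝ (AddCircle (1 : ℝ) × Y) ((AddCircle.haarAddCircle (T := 1)).prod μ) where
  act t p := (p.1 + (t : AddCircle (1 : ℝ)), S.act ⌊dwRep p.1 + t⌋ p.2)
  mp t := MeasurePreserving.skew_product (g := fun s y => S.act ⌊dwRep s + t⌋ y)
    (measurePreserving_add_right _ _)
    (dw_act_meas S ((dwRep_meas.comp measurable_fst).add_const t).floor measurable_snd)
    (ae_of_all _ fun s => (S.mp _).map_eq)
  act_add g h p := by
    refine Prod.ext ?_ ?_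
    · simp only [AddCircle.coe_add]; abel
    · simp only [act_act, dwRep_add]
      congr 1
      have : Int.fract (dwRep p.1 + h) + g = dwRep p.1 + (g + h) - (⌊dwRep p.1 + h⌋ : ℤ) := by
        rw [Int.fract]; ring
      rw [this, Int.floor_sub_intCast]; ring
  act_zero p := by
    have : ⌊dwRep p.1⌋ = 0 := Int.floor_eq_zero_iff.2 (dwRep_mem p.1)
    simp [this, S.act_zero]

/-- The product of a system with itself. -/
def dwSq {Z : Type} [MeasurableSpace Z] {ν : Measure Z} [IsProbabilityMeasure ν] (S : Sys ℝ Z ν) :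
    Sys ℝ (Z × Z) (ν.prod ν) where
  act t := Prod.map (S.act t) (S.act t)
  mp t := (S.mp t).prod (S.mp t)
  act_add g h p := by simp [Prod.map, S.act_add]
  act_zero p := by simp [Prod.map, S.act_zero]

lemma dw_B1_sq {Z : Type} [MeasurableSpace Z] {f : Z → ℂ} (hf : B1 f) :
    B1 fun p : Z × Z => f p.1 * conj (f p.2) :=
  B1.mul ⟨hf.1.comp measurable_fst, fun _ => hf.2 _⟩
    (B1.conj (f := fun p : Z × Z => f p.2) ⟨hf.1.comp measurable_snd, fun _ => hf.2 _⟩)

lemma dw_corr_sq {Z : Type} [MeasurableSpace Z] {ν : Measure Z} [IsProbabilityMeasure ν]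
    (S : Sys ℝ Z ν) {ι : Type} [Fintype ι] (F : Z → ℂ) (G : ι → Z → ℂ) (v : ι → ℝ) :
    corr (dwSq S) (fun p => F p.1 * conj (F p.2)) (fun i p => G i p.1 * conj (G i p.2)) v =
      ((‖corr S F G v‖ ^ 2 : ℝ) : ℂ) := by
  rw [← Complex.normSq_eq_norm_sq, ← Complex.mul_conj, corr, corr, ← integral_conj,
    ← integral_prod_mul]
  refine integral_congr_ae (ae_of_all _ fun p => ?_)
  simp only [dwSq, Prod.map, prod_mul_distrib, map_mul, map_prod]
  ring

/-- The indicator of the lower half circle. -/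
def dwInd (s : AddCircle (1 : ℝ)) : ℝ := if dwRep s < 1 / 2 then 1 else 0

lemma dwInd_meas : Measurable dwInd :=
  Measurable.ite (measurableSet_lt dwRep_meas measurable_const) measurable_const measurable_const

lemma dwInd_mem (s : AddCircle (1 : ℝ)) : 0 ≤ dwInd s ∧ dwInd s ≤ 1 := by
  unfold dwInd; split_ifs <;> norm_num

/-- The mass of the lower half circle. -/
def dwM : ℝ := ∫ s, dwInd s ∂(AddCircle.haarAddCircle (T := 1))

lemma dwInd_int : Integrable dwInd (AddCircle.haarAddCircle (T := 1)) :=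
  Integrable.of_bound dwInd_meas.aestronglyMeasurable 1 (ae_of_all _ fun s => by
    rw [Real.norm_of_nonneg (dwInd_mem s).1]; exact (dwInd_mem s).2)

lemma dwM_pos : 0 < dwM := by
  rw [dwM, integral_pos_iff_support_of_nonneg (fun s => (dwInd_mem s).1) dwInd_int]
  have ho : IsOpen (((↑) : ℝ → AddCircle (1 : ℝ)) '' Set.Ioo 0 (1 / 2)) :=
    QuotientAddGroup.isOpenMap_coe _ isOpen_Ioo
  refine (ho.measure_pos _ ⟨_, 1 / 4, by norm_num, rfl⟩).trans_le (measure_mono ?_)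
  rintro _ ⟨x, hx, rfl⟩
  have : Int.fract x = x := Int.fract_eq_self.2 ⟨hx.1.le, by linarith [hx.2]⟩
  simp only [Function.mem_support, dwInd, dwRep_coe, this, if_pos hx.2]
  norm_num

lemma dwM_le : dwM ≤ 1 := by
  have := integral_mono dwInd_int (integrable_const (1 : ℝ)) fun s => (dwInd_mem s).2
  simpa [dwM] using this

lemma dw_B1_F {F : Y → ℂ} (hF : B1 F) :
    B1 fun p : AddCircle (1 : ℝ) × Y => (dwInd p.1 : ℂ) * F p.2 :=
  B1.mul ⟨Complex.measurable_ofReal.comp (dwInd_meas.comp measurable_fst), fun p => by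
      rw [Complex.norm_real, Real.norm_of_nonneg (dwInd_mem _).1]; exact (dwInd_mem _).2⟩
    ⟨hF.1.comp measurable_snd, fun _ => hF.2 _⟩

lemma dw_B1_G {G : Y → ℂ} (hG : B1 G) : B1 fun p : AddCircle (1 : ℝ) × Y => G p.2 :=
  ⟨hG.1.comp measurable_snd, fun _ => hG.2 _⟩

/-- The correlation in the suspension. -/
def dwC (S : Sys ℤ Y μ) {ι : Type} [Fintype ι] (F : Y → ℂ) (G : ι → Y → ℂ) (v : ι → ℝ) : ℂ :=
  corr (dwSusp S) (fun p => (dwInd p.1 : ℂ) * F p.2) (fun i p => G i p.2) v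

lemma dwC_eq (S : Sys ℤ Y μ) {ι : Type} [Fintype ι] {F : Y → ℂ} {G : ι → Y → ℂ} (hF : B1 F)
    (hG : ∀ i, B1 (G i)) (v : ι → ℝ) : dwC S F G v =
      ∫ s, (dwInd s : ℂ) * corr S F G (fun i => ⌊dwRep s + v i⌋)
        ∂(AddCircle.haarAddCircle (T := 1)) := by
  rw [dwC, corr, integral_prod _ (corr_B1 (dwSusp S) (dw_B1_F hF) (fun i => dw_B1_G (hG i))
    v).integrable]
  refine integral_congr_ae (ae_of_all _ fun s => ?_)
  simp only [corr, dwSusp, ← integral_const_mul, mul_assoc]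

lemma dwC_le (S : Sys ℤ Y μ) {ι : Type} [Fintype ι] {F : Y → ℂ} {G : ι → Y → ℂ} (hF : B1 F)
    (hG : ∀ i, B1 (G i)) (v : ι → ℝ) {B : ℝ}
    (hB : ∀ t : ℝ, 0 ≤ t → t < 1 → ‖corr S F G fun i => ⌊t + v i⌋‖ ≤ B) :
    ‖dwC S F G v‖ ≤ B := by
  rw [dwC_eq S hF hG]
  have := norm_integral_le_of_norm_le_const (μ := AddCircle.haarAddCircle (T := 1)) (C := B)
    (f := fun s => (dwInd s : ℂ) * corr S F G (fun i => ⌊dwRep s + v i⌋))
    (ae_of_all _ fun s => by
      rw [norm_mul, Complex.norm_real, Real.norm_of_nonneg (dwInd_mem _).1]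
      exact (mul_le_of_le_one_left (norm_nonneg _) (dwInd_mem _).2).trans
        (hB _ (dwRep_mem s).1 (dwRep_mem s).2))
  simpa using this

lemma dwC_exact (S : Sys ℤ Y μ) {ι : Type} [Fintype ι] {F : Y → ℂ} {G : ι → Y → ℂ} (hF : B1 F)
    (hG : ∀ i, B1 (G i)) (v : ι → ℝ) (a : ι → ℤ) (h0 : ∀ i, (a i : ℝ) ≤ v i)
    (h1 : ∀ i, v i < a i + 1 / 2) : ‖dwC S F G v‖ = dwM * ‖corr S F G a‖ := by
  have : dwC S F G v = (dwM : ℂ) * corr S F G a := by
    rw [dwC_eq S hF hG, dwM, ← integral_complex_ofReal, ← integral_mul_const]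
    refine integral_congr_ae (ae_of_all _ fun s => ?_)
    by_cases hs : dwRep s < 1 / 2
    · have : (fun i => ⌊dwRep s + v i⌋) = a := funext fun i =>
        Int.floor_eq_iff.2 ⟨by linarith [(dwRep_mem s).1, h0 i], by linarith [h1 i]⟩
      simp only [this]
    · simp only [dwInd, if_neg hs, Complex.ofReal_zero, zero_mul]
  rw [this, norm_mul, Complex.norm_real, Real.norm_of_nonneg dwM_pos.le]

/-- Reading the conclusion of the majorant theorem for a real function. -/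
lemma dw_read {y L z w : ℕ} (hL : 1 ≤ L) {e : ℝ} (φ : ℤ → ℝ)
    (h : ‖∑ x ∈ Ico (y : ℤ) (y + L), ((nuI 0 z x - nuI 0 w x : ℝ) : ℂ) * (φ x : ℂ)‖ ≤ e * L) :
    𝔼 x ∈ range L, nuI 0 z ((y + x : ℕ) : ℤ) * φ ((y + x : ℕ) : ℤ) ≤
      𝔼 x ∈ range L, nuI 0 w ((y + x : ℕ) : ℤ) * φ ((y + x : ℕ) : ℤ) + e := by
  have hs : ∀ f : ℤ → ℝ, ∑ x ∈ Ico (y : ℤ) (y + L), f x = ∑ x ∈ range L, f ((y + x : ℕ) : ℤ) := by
    intro f
    symm
    refine sum_bij (fun x _ => ((y + x : ℕ) : ℤ)) ?_ ?_ ?_ ?_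
    · intro x hx; simp only [mem_range] at hx; simp only [mem_Ico]; omega
    · intro x _ x' _ hxx; omega
    · intro n hn
      simp only [mem_Ico] at hn
      exact ⟨(n - y).toNat, by simp only [mem_range]; omega, by omega⟩
    · intro x _; rfl
  have hc : ∑ x ∈ Ico (y : ℤ) (y + L), ((nuI 0 z x - nuI 0 w x : ℝ) : ℂ) * (φ x : ℂ) =
      ((∑ x ∈ Ico (y : ℤ) (y + L), (nuI 0 z x - nuI 0 w x) * φ x : ℝ) : ℂ) := by
    push_cast; rfl
  rw [hc, Complex.norm_real, Real.norm_eq_abs, hs] at h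
  have h2 := (le_abs_self _).trans h
  have hL' : (0 : ℝ) < L := by exact_mod_cast hL
  simp only [sub_mul, sum_sub_distrib] at h2
  simp only [expect_eq_sum_div_card, card_range]
  rw [div_add' _ _ _ hL'.ne', div_le_div_iff_of_pos_right hL']
  linarith

lemma dw_mean {y L w : ℕ} (hL : 1 ≤ L) (hw : primorial w ≤ L) :
    𝔼 x ∈ range L, nuI 0 w ((y + x : ℕ) : ℤ) ≤ 2 := by
  have h := nuI_mean w L y
  have hs : ∑ x ∈ Ico (y : ℤ) (y + L), nuI 0 w x = ∑ x ∈ range L, nuI 0 w ((y + x : ℕ) : ℤ) := by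
    symm
    refine sum_bij (fun x _ => ((y + x : ℕ) : ℤ)) ?_ ?_ ?_ ?_
    · intro x hx; simp only [mem_range] at hx; simp only [mem_Ico]; omega
    · intro x _ x' _ hxx; omega
    · intro n hn
      simp only [mem_Ico] at hn
      exact ⟨(n - y).toNat, by simp only [mem_range]; omega, by omega⟩
    · intro x _; rfl
  have hL' : (0 : ℝ) < L := by exact_mod_cast hL
  have hw' : (primorial w : ℝ) ≤ L := by exact_mod_cast hw
  rw [expect_eq_sum_div_card, card_range, div_le_iff₀ hL', ← hs]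
  linarith

lemma dw_th {y x u : ℕ} (hy : 2 ≤ y) (hu : 2 ≤ u) (hx : x ≤ y) :
    th (y + x) ≤ 2 * u * nuI 0 ⌊(y : ℝ) ^ (1 / u : ℝ)⌋₊ ((y + x : ℕ) : ℤ) := by
  have hy' : (2 : ℝ) ≤ y := by exact_mod_cast hy
  have hu' : (2 : ℝ) ≤ u := by exact_mod_cast hu
  unfold th
  split_ifs with hp
  · have hz : ⌊(y : ℝ) ^ (1 / u : ℝ)⌋₊ < y + x := by
      have h1 : (y : ℝ) ^ (1 / u : ℝ) < (y : ℝ) ^ (1 : ℝ) :=
        Real.rpow_lt_rpow_of_exponent_lt (by linarith) (by
          rw [div_lt_one (by linarith)]; linarith)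
      rw [Real.rpow_one] at h1
      have := (Nat.floor_lt (by positivity)).2 h1
      omega
    rw [nuI, if_pos (rough_prime hp hz)]
    have hV := Vp_le_div hy (show 1 ≤ u by omega)
    have hV0 := Vp_pos 0 ⌊(y : ℝ) ^ (1 / u : ℝ)⌋₊
    have hl : 0 < Real.log y := Real.log_pos (by linarith)
    have h3 : Real.log ((y + x : ℕ) : ℝ) ≤ 2 * Real.log y := by
      have hx' : (x : ℝ) ≤ y := by exact_mod_cast hx
      rw [show 2 * Real.log y = Real.log ((y : ℝ) ^ 2) by rw [Real.log_pow]; norm_num]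
      refine Real.log_le_log (by push_cast; positivity) ?_
      push_cast; nlinarith
    rw [le_div_iff₀ hl] at hV
    rw [← div_eq_mul_inv, le_div_iff₀ hV0]
    nlinarith
  · exact mul_nonneg (by positivity) (nuI_nonneg _ _ _)

theorem dw (S : Sys ℤ Y μ) (r D : ℕ) (C : ℝ) {ε : ℝ} (hε : 0 < ε) : ∃ C₁ : ℝ, 0 ≤ C₁ ∧
    ∀ᶠ y : ℕ in atTop, ∀ L : ℕ, Real.sqrt y ≤ L → L ≤ y → ∀ (ι : Type) [Fintype ι],
      Fintype.card ι ≤ r → ∀ Q : ι → ℝ[X], (∀ i, (Q i).natDegree ≤ D) →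
        ∀ (F : Y → ℂ) (G : ι → Y → ℂ) (a : ι → ℕ → ℤ), B1 F → (∀ i, B1 (G i)) →
          (∀ i x, x < L → |(a i x : ℝ) - (Q i).eval (x : ℝ)| ≤ C) →
            ∃ a' : ι → ℕ → ℤ, (∀ i x, |(a' i x : ℝ) - (Q i).eval (x : ℝ)| ≤ C + 3) ∧
              𝔼 x ∈ range L, th (y + x) * ‖corr S F G fun i => a i x‖ ≤
                ε + C₁ * 𝔼 x ∈ range L, ‖corr S F G fun i => a' i x‖ := by
  set k : ℕ := ⌈2 * |C|⌉₊ + 1 with hk
  set R : ℝ := ((2 * k + 1 : ℕ) : ℝ) ^ r with hR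
  have hR1 : 1 ≤ R := one_le_pow₀ (by exact_mod_cast (by omega : 1 ≤ 2 * k + 1))
  have hm := dwM_pos
  set e0 : ℝ := min 1 (dwM ^ 2 * ε ^ 2 / (48 * R)) with he0
  have he0p : 0 < e0 := lt_min one_pos (by positivity)
  obtain ⟨u, w, hu1, hu2, hmaj⟩ := maj r D (δ := 1 / 2) (ε := e0) (by norm_num) he0p
  have hu' : (2 : ℝ) ≤ u := by linarith
  have hu : 2 ≤ u := by exact_mod_cast hu'
  set η : ℝ := ε / (12 * u) with hη
  have hηp : 0 < η := by positivity
  have hV := Vp_pos 0 w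
  refine ⟨2 * u * (R * (Vp 0 w)⁻¹ / (dwM ^ 2 * η)), by positivity, ?_⟩
  filter_upwards [hmaj, eventually_ge_atTop 2, eventually_ge_atTop (primorial w ^ 2)] with y hy
    hy2 hyw L hL hLy ι _ hι Q hQ F G a hF hG ha
  have hy' : (2 : ℝ) ≤ y := by exact_mod_cast hy2
  have hL1 : 1 ≤ L := by
    have : (1 : ℝ) ≤ L := le_trans (Real.one_le_sqrt.2 (by linarith)) hL
    exact_mod_cast this
  have hwL : primorial w ≤ L := by
    have h1 : ((primorial w : ℝ)) ≤ Real.sqrt y :=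
      Real.le_sqrt_of_sq_le (by exact_mod_cast hyw)
    exact_mod_cast h1.trans hL
  have hL' : (y : ℝ) ^ (1 / 2 : ℝ) ≤ L := by rwa [← Real.sqrt_eq_rpow]
  have hC : ∀ _ : ι, 0 ≤ C := fun i => (abs_nonneg _).trans (ha i 0 (by omega))
  set z := ⌊(y : ℝ) ^ (1 / u : ℝ)⌋₊ with hz
  -- the maximising integer vectors
  have hex : ∀ x : ℕ, ∃ v : ι → ℤ, (∀ i, |(v i : ℝ) - (Q i).eval (x : ℝ)| ≤ C + 3) ∧
      ∀ v' : ι → ℤ, (∀ i, |(v' i : ℝ) - (Q i).eval (x : ℝ)| ≤ C + 3) →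
        ‖corr S F G v'‖ ≤ ‖corr S F G v‖ := by
    intro x
    have hmem : ∀ v : ι → ℤ, v ∈ Fintype.piFinset (fun i => Icc ⌈(Q i).eval (x : ℝ) - (C + 3)⌉
        ⌊(Q i).eval (x : ℝ) + (C + 3)⌋) ↔ ∀ i, |(v i : ℝ) - (Q i).eval (x : ℝ)| ≤ C + 3 := by
      intro v
      simp only [Fintype.mem_piFinset, mem_Icc, Int.ceil_le, Int.le_floor, abs_le]
      exact forall_congr' fun i => ⟨fun h => ⟨by linarith [h.1], by linarith [h.2]⟩,
        fun h => ⟨by linarith [h.1], by linarith [h.2]⟩⟩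
    obtain ⟨v, hv, hmax⟩ := exists_max_image _ (fun v => ‖corr S F G v‖)
      ⟨fun i => ⌊(Q i).eval (x : ℝ)⌋, (hmem _).2 fun i => by
        have h1 := Int.floor_le ((Q i).eval (x : ℝ))
        have h2 := Int.lt_floor_add_one ((Q i).eval (x : ℝ))
        have := hC i
        rw [abs_le]; constructor <;> linarith⟩
    exact ⟨v, (hmem v).1 hv, fun v' hv' => hmax v' ((hmem v').2 hv')⟩
  choose a' ha' hmax using hex
  refine ⟨fun i x => a' x i, fun i x => ha' x i, ?_⟩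
  set T : Finset (ι → ℤ) := Fintype.piFinset fun _ : ι => Icc (-(k : ℤ)) k with hT
  have hTc : (T.card : ℝ) ≤ R := by
    rw [hT, Fintype.card_piFinset, prod_const, card_univ, Int.card_Icc, hR]
    have : ((k : ℤ) + 1 - -(k : ℤ)).toNat = 2 * k + 1 := by omega
    rw [this]
    push_cast
    exact pow_le_pow_right₀ (by linarith [(Nat.cast_nonneg k : (0 : ℝ) ≤ k)]) hι
  set c : (ι → ℤ) → ℕ → ℝ := fun n x =>
    ‖dwC S F G fun i => (Q i).eval (x : ℝ) - n i / 2‖ with hc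
  set A : ℝ := 𝔼 x ∈ range L, ‖corr S F G (a' x)‖ with hA
  have hkC : ∀ _ : ι, (k : ℝ) ≤ 2 * C + 2 := fun i => by
    have := Nat.ceil_lt_add_one (show 0 ≤ 2 * |C| by positivity)
    rw [abs_of_nonneg (hC i)] at this
    rw [hk, abs_of_nonneg (hC i)]; push_cast; linarith
  have hca : ∀ n ∈ T, ∀ x, c n x ≤ ‖corr S F G (a' x)‖ := by
    intro n hn x
    refine dwC_le S hF hG _ fun t ht0 ht1 => hmax x _ fun i => ?_
    have hn' := mem_Icc.1 (Fintype.mem_piFinset.1 hn i)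
    have h1 : -(k : ℝ) ≤ n i := by exact_mod_cast hn'.1
    have h2 : (n i : ℝ) ≤ k := by exact_mod_cast hn'.2
    have h3 := Int.floor_le (t + ((Q i).eval (x : ℝ) - n i / 2))
    have h4 := Int.lt_floor_add_one (t + ((Q i).eval (x : ℝ) - n i / 2))
    have h5 := hkC i
    rw [abs_le]; constructor <;> linarith
  -- the mean of the majorant
  have hmean : 𝔼 x ∈ range L, nuI 0 z ((y + x : ℕ) : ℤ) ≤ 3 := by
    have h := hy L y hL' _ _ (dwSusp S) Empty (by simp) (fun _ => 0) (fun i => i.elim)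
      (fun _ => 1) (fun _ _ => 1) B1.one (fun i => i.elim)
    have h1 := dw_read hL1 (z := z) (w := w) (e := e0 / u ^ 2) (fun _ => 1) (by
      simpa [corr] using h)
    have h2 := dw_mean (y := y) hL1 hwL
    have h3 : e0 / u ^ 2 ≤ 1 := by
      rw [div_le_one (by positivity)]; nlinarith [min_le_left 1 (dwM ^ 2 * ε ^ 2 / (48 * R))]
    simp only [mul_one] at h1
    linarith
  -- one pattern
  have hone : ∀ n ∈ T, 𝔼 x ∈ range L, nuI 0 z ((y + x : ℕ) : ℤ) * c n x ^ 2 ≤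
      (Vp 0 w)⁻¹ * A + e0 / u ^ 2 := by
    intro n hn
    have h := hy L y hL' _ _ (dwSq (dwSusp S)) ι hι
      (fun i => Polynomial.taylor (-(y : ℝ)) (Q i - Polynomial.C (n i / 2 : ℝ)))
      (fun i => by rw [Polynomial.natDegree_taylor, Polynomial.natDegree_sub_C]; exact hQ i)
      _ _ (dw_B1_sq (dw_B1_F hF)) (fun i => dw_B1_sq (dw_B1_G (hG i)))
    have h1 := dw_read hL1 (z := z) (w := w) (e := e0 / u ^ 2) (fun x => ‖dwC S F G fun i =>
      (Polynomial.taylor (-(y : ℝ)) (Q i - Polynomial.C (n i / 2 : ℝ))).eval (x : ℝ)‖ ^ 2) (by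
        refine le_of_eq_of_le ?_ h
        congr 1
        refine sum_congr rfl fun x _ => ?_
        rw [dwC, ← dw_corr_sq])
    have h2 : ∀ x : ℕ, (fun i => (Polynomial.taylor (-(y : ℝ))
        (Q i - Polynomial.C (n i / 2 : ℝ))).eval ((((y + x : ℕ) : ℤ) : ℝ))) =
          fun i => (Q i).eval (x : ℝ) - n i / 2 := by
      intro x; funext i
      rw [Polynomial.taylor_eval]
      simp
    simp only [h2] at h1
    refine h1.trans (add_le_add_left ?_ _)
    rw [hA, mul_expect]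
    refine expect_le_expect fun x _ => ?_
    have h3 := hca n hn x
    have h4 := norm_corr_le S hF hG (a' x)
    have h5 : 0 ≤ c n x := norm_nonneg _
    exact mul_le_mul (nuI_le _ _ _) (show c n x ^ 2 ≤ _ by nlinarith) (by positivity)
      (by positivity)
  set pat : ℕ → ι → ℤ := fun x i => ⌊2 * ((Q i).eval (x : ℝ) - a i x)⌋ with hpat
  have hpT : ∀ x, x < L → pat x ∈ T := by
    intro x hx
    refine Fintype.mem_piFinset.2 fun i => mem_Icc.2 ?_
    have h1 := abs_le.1 (ha i x hx)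
    have h2 := Nat.le_ceil (2 * |C|)
    rw [abs_of_nonneg (hC i)] at h2
    have h3 : (k : ℝ) = ⌈2 * C⌉₊ + 1 := by rw [hk, abs_of_nonneg (hC i)]; push_cast; rfl
    constructor
    · refine Int.le_floor.2 ?_
      push_cast; linarith [h1.2]
    · refine Int.floor_le_iff.2 ?_
      push_cast; linarith [h1.1]
  have hsplit := pat_split L T pat hpT (fun n x => nuI 0 z ((y + x : ℕ) : ℤ) * c n x ^ 2)
    fun n x => mul_nonneg (nuI_nonneg _ _ _) (sq_nonneg _)
  have hA0 : 0 ≤ A := expect_nonneg fun _ _ => norm_nonneg _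
  have hsum : 𝔼 x ∈ range L, nuI 0 z ((y + x : ℕ) : ℤ) * c (pat x) x ^ 2 ≤
      R * ((Vp 0 w)⁻¹ * A + e0 / u ^ 2) := by
    refine hsplit.trans ((sum_le_card_nsmul _ _ _ hone).trans ?_)
    rw [nsmul_eq_mul]
    exact mul_le_mul_of_nonneg_right hTc (by positivity)
  have hpt : ∀ x ∈ range L, th (y + x) * ‖corr S F G fun i => a i x‖ ≤
      2 * u * η * nuI 0 z ((y + x : ℕ) : ℤ) +
        2 * u / (dwM ^ 2 * η) * (nuI 0 z ((y + x : ℕ) : ℤ) * c (pat x) x ^ 2) := by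
    intro x hx
    have hx' := mem_range.1 hx
    have h1 : c (pat x) x = dwM * ‖corr S F G fun i => a i x‖ := by
      refine dwC_exact S hF hG _ _ (fun i => ?_) fun i => ?_
      · have := Int.floor_le (2 * ((Q i).eval (x : ℝ) - a i x))
        simp only [hpat]; linarith
      · have := Int.lt_floor_add_one (2 * ((Q i).eval (x : ℝ) - a i x))
        simp only [hpat]; linarith
    have h2 := dw_th hy2 hu (show x ≤ y by omega)
    have h3 := nuI_nonneg 0 z ((y + x : ℕ) : ℤ)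
    set t := ‖corr S F G fun i => a i x‖
    have ht : 0 ≤ t := norm_nonneg _
    have h4 : t ≤ η + t ^ 2 / η := by
      rw [add_div' _ _ _ hηp.ne', le_div_iff₀ hηp]; nlinarith [sq_nonneg (t - η)]
    rw [h1]
    calc th (y + x) * t ≤ 2 * u * nuI 0 z ((y + x : ℕ) : ℤ) * (η + t ^ 2 / η) :=
          mul_le_mul h2 h4 ht (by positivity)
      _ = _ := by field_simp
  refine (expect_le_expect hpt).trans ?_
  rw [expect_add_distrib, ← mul_expect, ← mul_expect]
  have e1 : 2 * u * η * 3 = ε / 2 := by rw [hη]; field_simp; ring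
  have e2 : 2 * u / (dwM ^ 2 * η) * (R * (e0 / u ^ 2)) ≤ ε / 2 := by
    have h1 : e0 ≤ dwM ^ 2 * ε ^ 2 / (48 * R) := min_le_right _ _
    rw [le_div_iff₀ (by positivity)] at h1
    have h2 : 2 * u / (dwM ^ 2 * η) * (R * (e0 / u ^ 2)) = e0 * (48 * R) / (2 * dwM ^ 2 * ε) := by
      rw [hη]; field_simp; ring
    rw [h2, div_le_iff₀ (by positivity)]
    nlinarith
  have e3 := mul_le_mul_of_nonneg_left hmean (show 0 ≤ 2 * u * η by positivity)
  have e4 := mul_le_mul_of_nonneg_left hsum (show 0 ≤ 2 * u / (dwM ^ 2 * η) by positivity)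
  have e5 : 2 * u / (dwM ^ 2 * η) * (R * ((Vp 0 w)⁻¹ * A + e0 / u ^ 2)) =
      2 * u * (R * (Vp 0 w)⁻¹ / (dwM ^ 2 * η)) * A +
        2 * u / (dwM ^ 2 * η) * (R * (e0 / u ^ 2)) := by ring
  linarith

end Pool.Agent.MP_357fb4_an
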