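import Mathlib

/-!
Definitions for the proof of multiple recurrence along primes for Hardy field functions.
-/

open scoped BigOperators Classical ComplexConjugate Polynomial
open Finset Filter MeasureTheory Topology

noncomputable section

namespace Pool.Agent.MP_357fb4_an

/-- The additive character x ↦ exp (2 π i x). -/
def ec (x : ℝ) : ℂ := Complex.exp (2 * Real.pi * Complex.I * x)

/-- A measure preserving action of an abstract additive group. -/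
structure Sys (G : Type) [AddCommGroup G] (Y : Type) [MeasurableSpace Y] (μ : Measure Y) where
  act : G → Y → Y
  mp : ∀ g, MeasurePreserving (act g) μ μ
  act_add : ∀ g h y, act (g + h) y = act g (act h y)
  act_zero : ∀ y, act 0 y = y

/-- Measurable functions bounded by one. -/
def B1 {Y : Type} [MeasurableSpace Y] (f : Y → ℂ) : Prop := Measurable f ∧ ∀ y, ‖f y‖ ≤ 1

section sys

variable {Y : Type} [MeasurableSpace Y] {μ : Measure Y}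

/-- A multiple correlation. -/
def corr {G : Type} [AddCommGroup G] (S : Sys G Y μ) {ι : Type} [Fintype ι] (F : Y → ℂ)
    (g : ι → Y → ℂ) (v : ι → G) : ℂ := ∫ y, F y * ∏ i, g i (S.act (v i) y) ∂μ

/-- The multiplicative derivative. -/
def dl (S : Sys ℤ Y μ) (h h' : ℤ) (f : Y → ℂ) : Y → ℂ :=
  fun y => f (S.act h y) * conj (f (S.act h' y))

/-- Box averages; the list holds the ranges of the shifts. -/
def box (S : Sys ℤ Y μ) : List ℕ → (Y → ℂ) → ℝ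
  | [], f => (∫ y, f y ∂μ).re
  | K :: l, f => 𝔼 h ∈ range K, 𝔼 h' ∈ range K, box S l (dl S (h : ℕ) (h' : ℕ) f)

/-- The power of the uniformity seminorm of order s. -/
def nrm (S : Sys ℤ Y μ) (s : ℕ) (f : Y → ℂ) : ℝ := ⨅ K : ℕ, box S (List.replicate s (K + 1)) f

/-- Bounded eigenfunctions. -/
def Eig (S : Sys ℤ Y μ) (β : ℝ) (χ : Y → ℂ) : Prop :=
  B1 χ ∧ ∀ n : ℤ, (fun y => χ (S.act n y)) =ᵐ[μ] fun y => ec (β * n) * χ y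

/-- Control of weighted correlations by the box average of order s of the first function. -/
def Ctl (S : Sys ℤ Y μ) (s : ℕ) {ι : Type} [Fintype ι] (ω : ℕ → ℕ → ℝ) (g : ι → ℕ → ℝ) : Prop :=
  ∀ B ε : ℝ, 0 < ε → ∃ δ : ℝ, 0 < δ ∧ ∀ K : ℕ, 1 ≤ K → ∀ᶠ J : ℕ in atTop,
    ∀ (F : Y → ℂ) (G : ι → Y → ℂ) (a : ι → ℕ → ℤ), B1 F → (∀ i, B1 (G i)) →
      (∀ i n, |(a i n : ℝ) - g i n| ≤ B) → box S (List.replicate s K) F ≤ δ →
        ∑ n ∈ range J, ω J n * ‖corr S F G fun i => a i n‖ ≤ ε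

end sys

/-- A vertex of the cube spanned by h and k. -/
def mix {r : ℕ} (ε : Fin r → Bool) (h k : Fin r → ℕ) : Fin r → ℕ :=
  fun i => if ε i then k i else h i

/-- Conjugation at the odd vertices. -/
def cj {r : ℕ} (ε : Fin r → Bool) (z : ℂ) : ℂ :=
  if Even (univ.filter fun i => ε i = true).card then z else conj z

/-- The product over a cube. -/
def cube {r : ℕ} (Γ : (Fin r → ℕ) → ℂ) (h k : Fin r → ℕ) : ℂ := ∏ ε, cj ε (Γ (mix ε h k))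

/-- The part of the cube product over the vertices whose first true coordinate is i. -/
def cfac {r : ℕ} (Γ : (Fin r → ℕ) → ℂ) (k : Fin r → ℕ) (i : Fin r) (h : Fin r → ℕ) : ℂ :=
  ∏ ε ∈ univ.filter (fun ε : Fin r → Bool => ε i = true ∧ ∀ j, j < i → ε j = false),
    cj ε (Γ (mix ε h k))

/-- The alternating sum over a cube. -/
def calt {r : ℕ} (β : (Fin r → ℕ) → ℝ) (h k : Fin r → ℕ) : ℝ :=
  ∑ ε : Fin r → Bool, if Even (univ.filter fun i => ε i = true).card then β (mix ε h k)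
    else -β (mix ε h k)

/-- The discrete cube of side H. -/
def pb (r H : ℕ) : Finset (Fin r → ℕ) := Fintype.piFinset fun _ => range H

/-- The iterated multiplicative derivative. -/
def dc {Y : Type} [MeasurableSpace Y] {μ : Measure Y} (S : Sys ℤ Y μ) {r : ℕ} (h k : Fin r → ℕ)
    (f : Y → ℂ) : Y → ℂ := fun y => cube (fun v => f (S.act ((∑ i, v i : ℕ) : ℤ) y)) h k

/-- Polynomials whose top term is neither negligible nor sparse at scale L. -/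
def Cls (C Ω L : ℝ) (Q : ℝ[X]) : Prop :=
  1 ≤ Q.natDegree ∧ (Q.natDegree : ℝ) ≤ C ∧ |Q.leadingCoeff| ≤ C ∧
    Ω ≤ |Q.leadingCoeff| * L ^ Q.natDegree

/-- The rules of polynomial exhaustion. -/
structure PetAx (flag : Prop) (Ctrl : ℕ → (Finset ℝ[X] → ℝ[X] → Prop) → Prop) : Prop where
  recenter : ∀ (r : ℕ) (Φ Φ' : Finset ℝ[X] → ℝ[X] → Prop),
    (∀ A p, A.card ≤ r → Φ A p → ∃ Z, Φ' (A.image fun Q => Q - Z) (p - Z)) → Ctrl r Φ' → Ctrl r Φ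
  union : ∀ (r : ℕ) (Φ₁ Φ₂ : Finset ℝ[X] → ℝ[X] → Prop),
    Ctrl r Φ₁ → Ctrl r Φ₂ → Ctrl r fun A p => Φ₁ A p ∨ Φ₂ A p
  step : ∀ (r : ℕ) (Φ Φ' : Finset ℝ[X] → ℝ[X] → Prop),
    (∀ A p, Φ A p → 1 ≤ p.natDegree ∧ (∃ P ∈ A, P.natDegree = 0) ∧
      ∀ (h h' : ℝ) (A' : Finset ℝ[X]),
        (∀ Q ∈ A', (∃ P ∈ A, 1 ≤ P.natDegree ∧
          (Q = Polynomial.taylor h P ∨ Q = Polynomial.taylor h' P)) ∨
            (flag ∧ Q = Polynomial.taylor h' p)) → Φ' A' (Polynomial.taylor h p)) →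
    Ctrl (2 * r + 1) Φ' → Ctrl r Φ

/-- Control by the box average of the first function, for polynomial families. -/
def CtrlT {Y : Type} [MeasurableSpace Y] {μ : Measure Y} (S : Sys ℤ Y μ) (r : ℕ)
    (Φ : Finset ℝ[X] → ℝ[X] → Prop) : Prop :=
  ∃ s : ℕ, 1 ≤ s ∧ ∀ C ε : ℝ, 0 < ε → ∃ δ : ℝ, 0 < δ ∧ ∀ K : ℕ, 1 ≤ K → ∃ Ω : ℝ, ∀ L : ℕ, Ω ≤ L →
    ∀ (ι : Type) [Fintype ι], Fintype.card ι ≤ r → ∀ (P : ι → ℝ[X]) (p : ℝ[X]),
      Φ (univ.image P) p → (∀ i, Cls C Ω L (P i - p)) →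
      ∀ (F : Y → ℂ) (G : ι → Y → ℂ) (a : ι → ℕ → ℤ), B1 F → (∀ i, B1 (G i)) →
        (∀ i x, |(a i x : ℝ) - (P i - p).eval (x : ℝ)| ≤ C) → box S (List.replicate s K) F ≤ δ →
          𝔼 x ∈ range L, ‖corr S F G fun i => a i x‖ ≤ ε

/-- Cube sums of a weight on the integers. -/
def VV (M : ℕ) : ℕ → (ℤ → ℝ) → ℝ
  | 0, w => ∑' x, w x
  | s + 1, w => 𝔼 h ∈ range M, 𝔼 h' ∈ range M, VV M s fun x => w (x + (h : ℕ)) * w (x + (h' : ℕ))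

/-- Control by the cube sum of the weight, for polynomial families. -/
def CtrlW (r : ℕ) (Φ : Finset ℝ[X] → ℝ[X] → Prop) : Prop :=
  ∃ s : ℕ, 1 ≤ s ∧ ∀ (Y : Type) [MeasurableSpace Y] (μ : Measure Y) [IsProbabilityMeasure μ]
    (S : Sys ℝ Y μ) (ι : Type) [Fintype ι], Fintype.card ι ≤ r → ∀ (P : ι → ℝ[X]) (p : ℝ[X]),
      Φ (univ.image P) p → ∀ G : ι → Y → ℂ, (∀ i, B1 (G i)) → ∀ (L M : ℕ) (a : ℤ) (w : ℤ → ℝ),
        1 ≤ M → M ≤ L → (∀ x, w x ≠ 0 → a ≤ x ∧ x < a + L) →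
          ‖∑' x : ℤ, (w x : ℂ) * corr S (fun _ => 1) G fun i => (P i).eval (x : ℝ)‖ ^ 2 ^ s ≤
            (2 * L : ℝ) ^ (2 ^ s - 1) * VV M s w

/-- The primes in (w, z]. -/
def PI (w z : ℕ) : Finset ℕ := (Ioc w z).filter Nat.Prime

/-- The sieve density of the primes in (w, z]. -/
def Vp (w z : ℕ) : ℝ := ∏ p ∈ PI w z, (1 - 1 / (p : ℝ))

/-- No prime of (w, z] divides n. -/
def Rough (w z : ℕ) (n : ℤ) : Prop := ∀ p ∈ PI w z, ¬ (p : ℤ) ∣ n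

/-- The normalised indicator of the integers free of primes in (w, z]. -/
def nuI (w z : ℕ) (n : ℤ) : ℝ := if Rough w z n then (Vp w z)⁻¹ else 0

/-- The logarithmic weight on the primes. -/
def th (n : ℕ) : ℝ := if n.Prime then Real.log n else 0

/-- Growth of all derivatives. -/
def Sm (b : ℝ → ℝ) (A : ℕ) : Prop :=
  ∀ e : ℕ, ∀ᶠ t : ℝ in atTop, DifferentiableAt ℝ (deriv^[e] b) t ∧ |deriv^[e] b t| ≤ t ^ A / t ^ e

/-- Dilates of b are polynomial on short intervals. -/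
def LocPoly (b : ℝ → ℝ) : Prop :=
  ∀ δ : ℝ, 0 < δ → ∃ D : ℕ, ∀ᶠ N : ℕ in atTop, ∀ a y : ℕ, 1 ≤ a → a ≤ N ^ 2 → (N : ℝ) ^ δ ≤ y →
    y ≤ N ^ 3 → ∃ Q : ℝ[X], Q.natDegree ≤ D ∧ ∀ x : ℕ, (x : ℝ) ≤ (N : ℝ) ^ (δ / 2) + 1 →
      |b ((a * (y + x) : ℕ) : ℝ) - Q.eval (x : ℝ)| ≤ (N : ℝ)⁻¹ / 20

/-- The range (N^δ, N^2]. -/
def rg (N : ℕ) (δ : ℝ) : Finset ℕ := Ioc ⌊(N : ℝ) ^ δ⌋₊ (N ^ 2)

/-- Type I information. -/
def TI (φ : ℕ → ℂ) : Prop :=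
  ∀ (q : ℕ) (χ : ℕ → ℂ), 1 ≤ q → (∀ n, ‖χ n‖ ≤ 1) → (∀ n, χ (n + q) = χ n) → ∀ ε : ℝ, 0 < ε →
    ∀ᶠ N : ℕ in atTop, ‖∑ n ∈ Ioc N (N ^ 2), χ n * φ n / n‖ ≤ ε * Real.log N

/-- Type II information for bounded coefficients. -/
def Bil (φ : ℕ → ℂ) : Prop :=
  ∀ δ ε : ℝ, 0 < δ → 0 < ε → ∀ᶠ N : ℕ in atTop, ∀ u v : ℕ → ℂ, (∀ n, ‖u n‖ ≤ 1) →
    (∀ n, ‖v n‖ ≤ 1) →
      ‖∑ a ∈ rg N δ, ∑ m ∈ rg N δ, u a * v m * φ (a * m) / (a * m)‖ ≤ ε * Real.log N ^ 2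

/-- Type II information for coefficients supported on rough numbers. -/
def BilR (φ : ℕ → ℂ) : Prop :=
  ∀ δ ε : ℝ, 0 < δ → 0 < ε → ∀ᶠ N : ℕ in atTop, ∀ u v : ℕ → ℂ, (∀ n, ‖u n‖ ≤ 1) →
    (∀ n, ‖v n‖ ≤ 1) → (∀ n, u n ≠ 0 → Rough 0 ⌊(N : ℝ) ^ δ⌋₊ n) →
      (∀ n, v n ≠ 0 → Rough 0 ⌊(N : ℝ) ^ δ⌋₊ n) →
        ‖∑ a ∈ rg N δ, ∑ m ∈ rg N δ, u a * v m * φ (a * m) / (a * m)‖ ≤ ε

/-- Correlations of dilates are small on average. -/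
def Pair (φ : ℕ → ℂ) : Prop :=
  ∀ δ ε : ℝ, 0 < δ → 0 < ε → ∀ᶠ N : ℕ in atTop,
    ∑ a ∈ rg N δ, ∑ a' ∈ rg N δ, ‖∑ m ∈ rg N δ, φ (a' * m) * conj (φ (a * m)) / m‖ / (a * a') ≤
      ε * Real.log N ^ 3

/-- Correlations of dilates by far apart factors are small. -/
def PairFar (φ : ℕ → ℂ) : Prop :=
  ∀ δ κ ε : ℝ, 0 < δ → 0 < κ → 0 < ε → ∀ᶠ N : ℕ in atTop, ∀ a ∈ rg N δ, ∀ a' ∈ rg N δ,
    a * (N : ℝ) ^ κ ≤ a' → ‖∑ m ∈ rg N δ, φ (a' * m) * conj (φ (a * m)) / m‖ ≤ ε * Real.log N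

/-- Cancellation along the primes of (N, N^2]. -/
def LocI (φ : ℕ → ℂ) : Prop :=
  Tendsto (fun N : ℕ => ∑ p ∈ (Ioc N (N ^ 2)).filter Nat.Prime, φ p / p) atTop (𝓝 0)

/-- The normalised derivative t^e b^(e)(t). -/
def RD (b : ℝ → ℝ) (e : ℕ) (t : ℝ) : ℝ := t ^ e * deriv^[e] b t

/-- The case of a non polynomial part growing like a power. -/
def CaseF (b : ℝ → ℝ) : Prop :=
  ∃ (e₀ : ℕ) (γ Γ : ℝ), 0 < γ ∧ ∀ e, e₀ ≤ e → ∃ T C : ℝ, 1 ≤ T ∧ ∀ t t', T ≤ t → t ≤ t' →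
    RD b e t ≠ 0 ∧ (t' / t) ^ γ * |RD b e t| ≤ |RD b e t'| ∧
      |RD b e t'| ≤ (t' / t) ^ Γ * |RD b e t| ∧ |RD b (e + 1) t| ≤ C * |RD b e t|

/-- Growth slower than every power. -/
def Slow (r : ℝ → ℝ) : Prop :=
  ∀ γ : ℝ, 0 < γ → ∀ᶠ t : ℝ in atTop, DifferentiableAt ℝ r t ∧ |t * deriv r t| ≤ t ^ γ

/-- All coefficients of degree above j have denominator dividing q. -/
def RatAbove (P : ℝ[X]) (j q : ℕ) : Prop := ∀ i, j < i → ∃ n : ℤ, q * P.coeff i = n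

/-- The case of an irrational polynomial part. -/
def CaseIrr (b : ℝ → ℝ) : Prop :=
  ∃ (P : ℝ[X]) (j q : ℕ), 1 ≤ j ∧ 1 ≤ q ∧ Irrational (P.coeff j) ∧ RatAbove P j q ∧
    Slow fun t => b t - P.eval t

/-- The case of a rational polynomial part and a slow part above the logarithm. -/
def CaseLog (b : ℝ → ℝ) : Prop :=
  ∃ (P : ℝ[X]) (q : ℕ) (r R₁ S₁ : ℝ → ℝ) (T : ℝ), 1 ≤ q ∧ RatAbove P 0 q ∧
    (∀ t, r t = b t - P.eval t) ∧ Slow r ∧ 1 ≤ T ∧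
    (∀ t, T ≤ t → HasDerivAt r (R₁ t / t) t ∧ HasDerivAt R₁ (S₁ t / t) t) ∧
    (MonotoneOn S₁ (Set.Ici T) ∨ AntitoneOn S₁ (Set.Ici T)) ∧
    ((∀ t, T ≤ t → 0 < S₁ t) ∨ ∀ t, T ≤ t → S₁ t < 0) ∧
    Tendsto (fun t => |R₁ t|) atTop atTop ∧
    Tendsto (fun t => Real.log t ^ 2 * |S₁ t|) atTop atTop

/-- Slowly growing weights. -/
structure Wt (W : ℝ → ℝ) (T : ℕ) : Prop where
  three : 3 ≤ T
  diff : ∀ t : ℝ, T ≤ t → DifferentiableAt ℝ W t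
  pos : ∀ t : ℝ, T ≤ t → 0 < deriv W t
  anti : AntitoneOn (fun t => t * Real.log t * deriv W t) (Set.Ici (T : ℝ))
  top : Tendsto W atTop atTop
  nonneg : 0 ≤ W T

/-- The case of a rational polynomial part and a slow part below the logarithm. -/
def CaseII (W b : ℝ → ℝ) : Prop :=
  ∃ (P : ℝ[X]) (q : ℕ) (r r' g g' : ℝ → ℝ) (T C : ℝ), 1 ≤ q ∧ RatAbove P 0 q ∧
    (∀ t, r t = b t - P.eval t) ∧ ContinuousOn r' (Set.Ici T) ∧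
    (∀ t, T ≤ t → HasDerivAt r (r' t) t ∧ |t * r' t| ≤ C ∧ HasDerivAt g (g' t) t ∧
      deriv W t = g t * r' t) ∧
    ((∀ t, T ≤ t → 0 ≤ g' t) ∨ ∀ t, T ≤ t → g' t ≤ 0) ∧ Tendsto g atTop (𝓝 0)

/-- The averaging weights along the primes. -/
def lam (W : ℝ → ℝ) (T j n : ℕ) : ℝ := if T ≤ n then th n * deriv W n / (2 * W j) else 0

/-- A Hardy field of functions, closed under logarithms. -/
structure HF where
  car : Set (ℝ → ℝ)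
  congr : ∀ f g, f ∈ car → f =ᶠ[atTop] g → g ∈ car
  add : ∀ f g, f ∈ car → g ∈ car → (fun t => f t + g t) ∈ car
  mul : ∀ f g, f ∈ car → g ∈ car → (fun t => f t * g t) ∈ car
  inv : ∀ f, f ∈ car → (fun t => (f t)⁻¹) ∈ car
  const : ∀ c : ℝ, (fun _ => c) ∈ car
  ident : (fun t => t) ∈ car
  der : ∀ f, f ∈ car → deriv f ∈ car
  log : ∀ f, f ∈ car → (fun t => Real.log (f t)) ∈ car
  diff : ∀ f, f ∈ car → ∀ᶠ t in atTop, DifferentiableAt ℝ f t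
  sign : ∀ f, f ∈ car → (∀ᶠ t in atTop, f t = 0) ∨ (∀ᶠ t in atTop, 0 < f t) ∨
    ∀ᶠ t in atTop, f t < 0

/-- Unbounded functions of the field that grow faster than the weight. -/
def Adm (H : HF) (W g : ℝ → ℝ) : Prop :=
  g ∈ H.car ∧ Tendsto (fun t => |g t|) atTop atTop ∧
    Tendsto (fun t => deriv W t / deriv g t) atTop (𝓝 0)

/-- Interval lengths that vary slowly. -/
def Smo (L : ℕ → ℕ) : Prop :=
  ∀ᶠ n : ℕ in atTop, 1 ≤ L n ∧ L n ≤ n ∧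
    ∀ y, y ≤ n → 2 * (n - y) < L n → n - y < L y ∧ L y ≤ L n

/-- The short interval length at height y. -/
def Ly (y : ℕ) : ℕ := ⌊(y : ℝ) ^ (2 / 3 : ℝ)⌋₊

end Pool.Agent.MP_357fb4_an
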