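import Pool.Agent.MP_357fb4_an.HApi
import Pool.Agent.MP_357fb4_an.Tay

/-!
The effective degree on short intervals.
-/

open scoped BigOperators Classical ComplexConjugate Polynomial
open Finset Filter MeasureTheory Topology

noncomputable section

namespace Pool.Agent.MP_357fb4_an

lemma Eff_le_Ly (m y : ℕ) : m ≤ Ly y ↔ m ^ 3 ≤ y ^ 2 := by
  have h0 : (0 : ℝ) ≤ (y : ℝ) ^ (2 / 3 : ℝ) := Real.rpow_nonneg (Nat.cast_nonneg _) _
  have h3 : ((y : ℝ) ^ (2 / 3 : ℝ)) ^ 3 = (y : ℝ) ^ 2 := by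
    rw [← Real.rpow_natCast, ← Real.rpow_mul (Nat.cast_nonneg _)]
    norm_num
  rw [Ly, Nat.le_floor_iff h0, ← pow_le_pow_iff_left₀ (Nat.cast_nonneg m) h0 (n := 3) (by norm_num),
    h3]
  exact_mod_cast Iff.rfl

lemma Eff_Ly_cube (y : ℕ) : Ly y ^ 3 ≤ y ^ 2 := (Eff_le_Ly _ _).1 le_rfl

lemma Eff_Ly_succ (y : ℕ) : y ^ 2 < (Ly y + 1) ^ 3 := by
  by_contra h
  have := (Eff_le_Ly (Ly y + 1) y).2 (not_lt.1 h)
  omega

lemma Eff_Ly_le (y : ℕ) : Ly y ≤ y := by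
  by_contra h
  have h1 : y + 1 ≤ Ly y := by omega
  have h2 := (Eff_le_Ly _ _).1 h1
  nlinarith [Nat.zero_le y, Nat.zero_le (y ^ 2), Nat.zero_le (y ^ 3)]

lemma Eff_one_le_Ly {y : ℕ} (hy : 1 ≤ y) : 1 ≤ Ly y :=
  (Eff_le_Ly _ _).2 (by simpa using Nat.one_le_pow 2 y hy)

lemma Eff_Ly_mono {y n : ℕ} (h : y ≤ n) : Ly y ≤ Ly n :=
  (Eff_le_Ly _ _).2 ((Eff_Ly_cube y).trans (Nat.pow_le_pow_left h 2))

theorem smo_Ly : Smo Ly := by
  filter_upwards [eventually_ge_atTop 6] with n hn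
  refine ⟨Eff_one_le_Ly (by omega), Eff_Ly_le n, fun y hy h => ⟨?_, Eff_Ly_mono hy⟩⟩
  obtain ⟨k, rfl⟩ := Nat.exists_eq_add_of_le hy
  have hk : y + k - y = k := by omega
  rw [hk] at h ⊢
  have h1 : 2 * k + 1 ≤ Ly (y + k) := h
  have h2 := (Eff_le_Ly _ _).1 h1
  have h3 : k + 1 ≤ y := by have := Eff_Ly_le (y + k); omega
  have h4 : (y + k) ^ 2 ≤ (2 * y) ^ 2 := Nat.pow_le_pow_left (by omega) 2
  refine (Eff_le_Ly (k + 1) y).2 ?_
  rcases Nat.lt_or_ge k 2 with hk2 | hk2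
  · have h5 : 3 ^ 2 ≤ y ^ 2 := Nat.pow_le_pow_left (by omega) 2
    have h6 : (k + 1) ^ 3 ≤ 2 ^ 3 := Nat.pow_le_pow_left (by omega) 3
    omega
  · obtain ⟨j, rfl⟩ := Nat.exists_eq_add_of_le hk2
    have h7 : 4 * (2 + j + 1) ^ 3 ≤ (2 * (2 + j) + 1) ^ 3 := by
      nlinarith [Nat.zero_le j, Nat.zero_le (j ^ 2), Nat.zero_le (j ^ 3)]
    have h8 : (2 * y) ^ 2 = 4 * y ^ 2 := by ring
    omega

theorem Ly_range : ∀ᶠ y : ℕ in atTop, Real.sqrt y ≤ Ly y ∧ Ly y ≤ y := by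
  filter_upwards [eventually_ge_atTop 6] with y hy
  refine ⟨?_, Eff_Ly_le y⟩
  rw [Real.sqrt_le_left (Nat.cast_nonneg _)]
  have h : y ≤ Ly y ^ 2 := by
    by_contra h
    have h1 : Ly y ^ 2 ≤ y := by omega
    have h2 := Eff_Ly_succ y
    have h3 : (Ly y ^ 2) ^ 2 ≤ y ^ 2 := Nat.pow_le_pow_left h1 2
    have h4 : 6 ^ 2 ≤ y ^ 2 := Nat.pow_le_pow_left hy 2
    rcases Nat.lt_or_ge (Ly y) 3 with h5 | h5
    · have h6 : (Ly y + 1) ^ 3 ≤ 3 ^ 3 := Nat.pow_le_pow_left (by omega) 3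
      omega
    · obtain ⟨j, hj⟩ := Nat.exists_eq_add_of_le h5
      rw [hj] at h2 h3
      nlinarith [Nat.zero_le j, Nat.zero_le (j ^ 2), Nat.zero_le (j ^ 3), Nat.zero_le (j ^ 4)]
  exact_mod_cast h

theorem tendsto_Ly : Tendsto (fun y => (Ly y : ℝ)) atTop atTop := by
  refine tendsto_atTop_mono' atTop (Ly_range.mono fun y hy => hy.1) ?_
  exact Real.tendsto_sqrt_atTop.comp tendsto_natCast_atTop_atTop

lemma Eff_cube_le {a C : ℝ} (h : a ^ 3 ≤ C) : a ≤ max 1 C := by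
  by_contra hlt
  rw [not_le, max_lt_iff] at hlt
  have h1 : a ^ 1 ≤ a ^ 3 := pow_le_pow_right₀ hlt.1.le (by norm_num)
  rw [pow_one] at h1
  linarith [hlt.2]

/-- Upper bound at scale Ly. -/
lemma Eff_up {v t C : ℝ} {e y : ℕ} (h : |v ^ 3 * t ^ (2 * e)| ≤ C) (ht : (y : ℝ) ≤ 2 * t) :
    |v| * (Ly y : ℝ) ^ e ≤ max 1 (4 ^ e * C) := by
  refine Eff_cube_le ?_
  have hy : (0 : ℝ) ≤ y := Nat.cast_nonneg _
  have ht0 : 0 ≤ t := by linarith
  have h1 : (Ly y : ℝ) ^ 3 ≤ (y : ℝ) ^ 2 := by exact_mod_cast Eff_Ly_cube y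
  have h2 : (y : ℝ) ^ 2 ≤ 4 * t ^ 2 := by nlinarith
  have h3 : ((Ly y : ℝ) ^ 3) ^ e ≤ (4 * t ^ 2) ^ e :=
    pow_le_pow_left₀ (by positivity) (h1.trans h2) e
  rw [abs_mul, abs_pow, abs_of_nonneg (pow_nonneg ht0 _)] at h
  calc (|v| * (Ly y : ℝ) ^ e) ^ 3 = |v| ^ 3 * ((Ly y : ℝ) ^ 3) ^ e := by
        rw [mul_pow, ← pow_mul, ← pow_mul, mul_comm e 3]
    _ ≤ |v| ^ 3 * (4 * t ^ 2) ^ e := by gcongr
    _ = 4 ^ e * (|v| ^ 3 * t ^ (2 * e)) := by rw [mul_pow, ← pow_mul]; ring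
    _ ≤ 4 ^ e * C := by gcongr

/-- Lower bound at scale Ly. -/
lemma Eff_low {v M : ℝ} {e y : ℕ} (hy : 1 ≤ y)
    (h : 8 ^ e * M ^ 3 ≤ |v ^ 3 * (y : ℝ) ^ (2 * e)|) : M ≤ |v| * (Ly y : ℝ) ^ e := by
  have hL : (1 : ℝ) ≤ Ly y := by exact_mod_cast Eff_one_le_Ly hy
  have h1 : (y : ℝ) ^ 2 ≤ ((Ly y : ℝ) + 1) ^ 3 := by exact_mod_cast (Eff_Ly_succ y).le
  have h2 : ((Ly y : ℝ) + 1) ^ 3 ≤ (2 * (Ly y : ℝ)) ^ 3 :=
    pow_le_pow_left₀ (by positivity) (by linarith) 3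
  have h3 : ((y : ℝ) ^ 2) ^ e ≤ ((2 * (Ly y : ℝ)) ^ 3) ^ e :=
    pow_le_pow_left₀ (by positivity) (h1.trans h2) e
  rw [abs_mul, abs_pow, abs_of_nonneg (by positivity : (0 : ℝ) ≤ (y : ℝ) ^ (2 * e)), pow_mul] at h
  refine le_of_pow_le_pow_left₀ (n := 3) (by norm_num) (by positivity) ?_
  have h8 : (0 : ℝ) < 8 ^ e := by positivity
  refine le_of_mul_le_mul_left ?_ h8
  calc 8 ^ e * M ^ 3 ≤ |v| ^ 3 * ((y : ℝ) ^ 2) ^ e := h
    _ ≤ |v| ^ 3 * ((2 * (Ly y : ℝ)) ^ 3) ^ e := by gcongr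
    _ = 8 ^ e * (|v| * (Ly y : ℝ) ^ e) ^ 3 := by
        rw [mul_pow (2 : ℝ), mul_pow, mul_pow, ← pow_mul (Ly y : ℝ), ← pow_mul (Ly y : ℝ),
          mul_comm e 3]
        norm_num
        ring

/-- A function with an integrable derivative is bounded. -/
lemma Eff_bdd {f f' : ℝ → ℝ} {T C : ℝ} (hT : 1 ≤ T) (hd : ∀ t, T ≤ t → HasDerivAt f (f' t) t)
    (hC : ∀ t, T ≤ t → |f' t| ^ 3 * t ^ 4 ≤ C) : ∃ K : ℝ, ∀ t, T ≤ t → |f t| ≤ K := by
  set c : ℝ := max 1 C with hc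
  have hc0 : 0 ≤ c := le_trans zero_le_one (le_max_left _ _)
  refine ⟨|f T| + 3 * c * T ^ (-1 / 3 : ℝ), fun t ht => ?_⟩
  have hB : ∀ x, T ≤ x → HasDerivAt
      (fun s : ℝ => |f T| + 3 * c * T ^ (-1 / 3 : ℝ) - 3 * c * s ^ (-1 / 3 : ℝ))
      (c * x ^ (-4 / 3 : ℝ)) x := by
    intro x hx
    have hx0 : x ≠ 0 := by linarith [hT.trans hx] |> ne_of_gt
    have h1 := ((Real.hasDerivAt_rpow_const (p := (-1 / 3 : ℝ)) (Or.inl hx0)).const_mul
      (3 * c)).const_sub (|f T| + 3 * c * T ^ (-1 / 3 : ℝ))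
    refine h1.congr_deriv ?_
    rw [show (-1 / 3 - 1 : ℝ) = -4 / 3 by norm_num]
    ring
  have key := image_norm_le_of_norm_deriv_right_le_deriv_boundary' (f := f) (f' := f') (a := T)
    (b := t) (fun x hx => (hd x hx.1).continuousAt.continuousWithinAt)
    (fun x hx => (hd x hx.1).hasDerivWithinAt)
    (B := fun s : ℝ => |f T| + 3 * c * T ^ (-1 / 3 : ℝ) - 3 * c * s ^ (-1 / 3 : ℝ))
    (B' := fun x => c * x ^ (-4 / 3 : ℝ)) (by simp)
    (fun x hx => (hB x hx.1).continuousAt.continuousWithinAt)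
    (fun x hx => (hB x hx.1).hasDerivWithinAt) (fun x hx => ?_) (x := t) ⟨ht, le_rfl⟩
  · have h2 : 0 ≤ 3 * c * t ^ (-1 / 3 : ℝ) :=
      mul_nonneg (by positivity) (Real.rpow_nonneg (by linarith) _)
    rw [Real.norm_eq_abs] at key
    linarith
  · have hx0 : 0 < x := by linarith [hx.1]
    have h3 : (x ^ (4 / 3 : ℝ)) ^ 3 = x ^ 4 := by
      rw [← Real.rpow_natCast, ← Real.rpow_mul hx0.le]
      norm_num
    have h4 : |f' x| * x ^ (4 / 3 : ℝ) ≤ c := by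
      refine Eff_cube_le ?_
      rw [mul_pow, h3]
      exact hC x hx.1
    have h5 : 0 < x ^ (4 / 3 : ℝ) := Real.rpow_pos_of_pos hx0 _
    rw [Real.norm_eq_abs, show (-4 / 3 : ℝ) = -(4 / 3) by norm_num, Real.rpow_neg hx0.le,
      ← div_eq_mul_inv, le_div_iff₀ h5]
    exact h4

theorem eff (H : HF) {g : ℝ → ℝ} (hg : g ∈ H.car) {A : ℕ} (h : ∀ᶠ t in atTop, |g t| ≤ t ^ A) :
    (∃ C : ℝ, ∀ᶠ y : ℕ in atTop, ∀ s t : ℝ, (y : ℝ) - 1 ≤ s → s ≤ y + Ly y → (y : ℝ) - 1 ≤ t →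
      t ≤ y + Ly y → |g s - g t| ≤ C) ∨
    ∃ (D : ℕ) (C : ℝ), ∀ Ω : ℝ, ∀ᶠ y : ℕ in atTop, ∃ Q : ℝ[X], Q.natDegree ≤ D ∧
      Cls C Ω (Ly y) Q ∧ ∀ x : ℕ, x < Ly y → |g ((y + x : ℕ) : ℝ) - Q.eval (x : ℝ)| ≤ C := by
  have hsm := H.sm hg h
  let u : ℕ → ℝ → ℝ := fun e t => deriv^[e] g t ^ 3 * t ^ (2 * e)
  have hu : ∀ e, u e ∈ H.car := fun e =>
    H.mul _ _ (H.pow (H.iter hg e) 3) (H.pow H.ident (2 * e))
  let P : ℕ → Prop := fun e => ∃ C, ∀ᶠ t in atTop, |u e t| ≤ C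
  have hP : ∃ e, P (e + 1) := by
    refine ⟨3 * A + 2, 1, ?_⟩
    filter_upwards [hsm (3 * A + 2 + 1), eventually_ge_atTop 1] with t ht ht1
    have ht0 : 0 < t := by linarith
    have h1 := pow_le_pow_left₀ (abs_nonneg _) ht.2 3
    simp only [u]
    rw [abs_mul, abs_pow, abs_of_nonneg (pow_nonneg ht0.le _)]
    refine (mul_le_mul_of_nonneg_right h1 (pow_nonneg ht0.le _)).trans (le_of_eq ?_)
    field_simp
    ring
  by_cases h1 : P 1
  · left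
    obtain ⟨C, hC⟩ := h1
    obtain ⟨T, hT⟩ := eventually_atTop.1 (hC.and (H.diff g hg))
    refine ⟨2 * max 1 (4 ^ 1 * C), ?_⟩
    filter_upwards [eventually_ge_atTop 2,
      tendsto_natCast_atTop_atTop.eventually_ge_atTop (T + 1)] with y hy2 hyT s t hs hs' ht ht'
    have hy2' : (2 : ℝ) ≤ y := by exact_mod_cast hy2
    have hL : (1 : ℝ) ≤ Ly y := by exact_mod_cast Eff_one_le_Ly (by omega)
    have hc0 : 0 ≤ max 1 (4 ^ 1 * C) := le_trans zero_le_one (le_max_left _ _)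
    have key := Convex.norm_image_sub_le_of_norm_deriv_le (𝕜 := ℝ) (f := g)
      (s := Set.Icc ((y : ℝ) - 1) (y + Ly y)) (C := max 1 (4 ^ 1 * C) / Ly y)
      (fun x hx => (hT x (by linarith [hx.1])).2) (fun x hx => ?_) (convex_Icc _ _)
      (x := t) (y := s) ⟨ht, ht'⟩ ⟨hs, hs'⟩
    · rw [Real.norm_eq_abs, Real.norm_eq_abs] at key
      refine key.trans ?_
      have h2 : |s - t| ≤ 2 * Ly y := by rw [abs_le]; constructor <;> linarith
      calc max 1 (4 ^ 1 * C) / Ly y * |s - t| ≤ max 1 (4 ^ 1 * C) / Ly y * (2 * Ly y) := by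
            gcongr
        _ = 2 * max 1 (4 ^ 1 * C) := by field_simp
    · have h3 := Eff_up (y := y) (hT x (by linarith [hx.1])).1 (by linarith [hx.1])
      rw [Real.norm_eq_abs, le_div_iff₀ (by linarith)]
      simpa using h3
  · right
    obtain ⟨d, hd1, hd, hd'⟩ : ∃ d, 1 ≤ d ∧ ¬ P d ∧ P (d + 1) := by
      have h0 : Nat.find hP ≠ 0 := fun h0 => h1 (by simpa [h0] using Nat.find_spec hP)
      refine ⟨Nat.find hP, by omega, ?_, Nat.find_spec hP⟩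
      have h2 := Nat.find_min hP (m := Nat.find hP - 1) (by omega)
      rwa [show Nat.find hP - 1 + 1 = Nat.find hP by omega] at h2
    have hlim : Tendsto (fun t => |u d t|) atTop atTop := (H.bdd_or (hu d)).resolve_left hd
    obtain ⟨C, hC⟩ := hd'
    obtain ⟨T₀, hT₀, hder⟩ := hsm.thr d
    obtain ⟨T₁, hT₁⟩ := eventually_atTop.1 hC
    obtain ⟨K, hK⟩ := Eff_bdd (f := deriv^[d] g) (f' := deriv^[d + 1] g) (T := max T₀ T₁) (C := C)
      (hT₀.trans (le_max_left _ _))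
      (fun t ht => (hder d le_rfl t ((le_max_left _ _).trans ht)).1) (fun t ht => by
        have ht1 : 1 ≤ t := hT₀.trans ((le_max_left _ _).trans ht)
        have h2 := hT₁ t ((le_max_right _ _).trans ht)
        simp only [u] at h2
        rw [abs_mul, abs_pow, abs_of_nonneg (pow_nonneg (by linarith : (0 : ℝ) ≤ t) _)] at h2
        refine le_trans ?_ h2
        exact mul_le_mul_of_nonneg_left (pow_le_pow_right₀ ht1 (by omega)) (by positivity))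
    set c : ℝ := max 1 (4 ^ (d + 1) * C) with hc
    have hc0 : 0 ≤ c := le_trans zero_le_one (le_max_left _ _)
    refine ⟨d, max (max d K) c, fun Ω => ?_⟩
    have hM : (0 : ℝ) < d.factorial * max 1 Ω :=
      mul_pos (by exact_mod_cast d.factorial_pos) (lt_of_lt_of_le one_pos (le_max_left _ _))
    filter_upwards [eventually_ge_atTop 1,
      tendsto_natCast_atTop_atTop.eventually_ge_atTop (max T₀ T₁),
      (hlim.comp tendsto_natCast_atTop_atTop).eventually_ge_atTop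
        (8 ^ d * (d.factorial * max 1 Ω) ^ 3)] with y hy1 hyT hyu
    have hL : (1 : ℝ) ≤ Ly y := by exact_mod_cast Eff_one_le_Ly hy1
    have hy0 : (0 : ℝ) ≤ y := Nat.cast_nonneg _
    have hlow := Eff_low (v := deriv^[d] g y) hy1 hyu
    obtain ⟨Q, hQd, hQc, hQ⟩ := tay (fun j => deriv^[j] g) d y (Ly y) (c / (Ly y : ℝ) ^ (d + 1))
      (fun j hj t ht => (hder j hj t ((le_max_left _ _).trans (hyT.trans ht.1))).1)
      (fun t ht => by
        have h3 := Eff_up (y := y) (hT₁ t ((le_max_right _ _).trans (hyT.trans ht.1)))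
          (by linarith [ht.1])
        rw [le_div_iff₀ (by positivity)]
        exact h3)
    have hfac : (1 : ℝ) ≤ d.factorial := by exact_mod_cast d.factorial_pos
    have hv : deriv^[d] g y ≠ 0 := by
      intro h0
      rw [h0, abs_zero, zero_mul] at hlow
      linarith
    have hcd : Q.coeff d = deriv^[d] g y / d.factorial := hQc d le_rfl
    have hdeg : Q.natDegree = d :=
      le_antisymm hQd (Polynomial.le_natDegree_of_ne_zero (by
        rw [hcd]; exact div_ne_zero hv (by linarith)))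
    have hlc : |Q.leadingCoeff| = |deriv^[d] g y| / d.factorial := by
      rw [Polynomial.leadingCoeff, hdeg, hcd, abs_div, abs_of_pos (by linarith : (0 : ℝ) < d.factorial)]
    refine ⟨Q, hQd, ⟨by omega, ?_, ?_, ?_⟩, fun x hx => ?_⟩
    · rw [hdeg]; exact (le_max_left _ _).trans (le_max_left _ _)
    · rw [hlc]
      refine le_trans ?_ ((le_max_right _ _).trans (le_max_left _ _))
      exact (div_le_self (abs_nonneg _) hfac).trans (hK y hyT)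
    · rw [hlc, hdeg, div_mul_eq_mul_div, le_div_iff₀ (by linarith)]
      refine le_trans ?_ hlow
      rw [mul_comm]
      exact mul_le_mul_of_nonneg_left (le_max_right _ _) (by linarith)
    · have hx' : (x : ℝ) ≤ Ly y := by exact_mod_cast hx.le
      have h4 := hQ x ⟨Nat.cast_nonneg _, hx'⟩
      simp only [Function.iterate_zero, id_eq] at h4
      rw [Nat.cast_add]
      refine h4.trans (le_trans ?_ (le_max_right _ _))
      calc c / (Ly y : ℝ) ^ (d + 1) * (x : ℝ) ^ (d + 1)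
          ≤ c / (Ly y : ℝ) ^ (d + 1) * (Ly y : ℝ) ^ (d + 1) := by gcongr
        _ = c := by field_simp

end Pool.Agent.MP_357fb4_an
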