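import Pool.Agent.MP_357fb4_an.Basic
import Pool.Agent.MP_7a4cc0_an.Erg2

/-!
Reduction to ergodic systems.
-/

open scoped BigOperators Classical ComplexConjugate Polynomial
open Finset Filter MeasureTheory Topology

noncomputable section

namespace Pool.Agent.MP_357fb4_an

/-- Binary sequences that are not identically zero. -/
abbrev ErgY : Type := {y : ℤ → Bool // ∃ n, y n = true}

theorem Erg_open : IsOpen {y : ℤ → Bool | ∃ n, y n = true} := by
  have : {y : ℤ → Bool | ∃ n, y n = true} = ⋃ n, (fun y : ℤ → Bool => y n) ⁻¹' {true} := by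
    ext y
    simp
  rw [this]
  exact isOpen_iUnion fun n => (isOpen_discrete _).preimage (continuous_apply n)

/-- The shift. -/
def ErgS (n : ℤ) (y : ErgY) : ErgY :=
  ⟨fun m => y.1 (m + n), by
    obtain ⟨m, hm⟩ := y.2
    exact ⟨m - n, by simpa using hm⟩⟩

theorem ErgS_add (a b : ℤ) (y : ErgY) : ErgS (a + b) y = ErgS a (ErgS b y) :=
  Subtype.ext (funext fun m => by simp [ErgS, add_assoc])

theorem ErgS_zero (y : ErgY) : ErgS 0 y = y := Subtype.ext (funext fun m => by simp [ErgS])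

theorem Erg_coord (m : ℤ) : Continuous fun y : ErgY => y.1 m :=
  (continuous_apply (A := fun _ : ℤ => Bool) m).comp continuous_subtype_val

theorem ErgS_cont (n : ℤ) : Continuous (ErgS n) :=
  Continuous.subtype_mk (continuous_pi fun m => Erg_coord (m + n)) _

/-- The shift as a homeomorphism. -/
def ErgH (n : ℤ) : ErgY ≃ₜ ErgY where
  toFun := ErgS n
  invFun := ErgS (-n)
  left_inv y := by rw [← ErgS_add, neg_add_cancel, ErgS_zero]
  right_inv y := by rw [← ErgS_add, add_neg_cancel, ErgS_zero]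
  continuous_toFun := ErgS_cont n
  continuous_invFun := ErgS_cont (-n)

theorem Erg_zpow {X : Type} [MeasurableSpace X] (μ : Measure X) (T : Equiv.Perm X)
    (hT : Measurable T) (hT' : Measurable T.symm) (hp : MeasurePreserving T μ μ) (n : ℤ) :
    MeasurePreserving (⇑(T ^ n)) μ μ := by
  have hq : MeasurePreserving (⇑T⁻¹) μ μ :=
    MeasurePreserving.symm (⟨T, hT, hT'⟩ : X ≃ᵐ X) hp
  induction n using Int.induction_on with
  | zero => simpa using MeasurePreserving.id μ
  | succ n ih =>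
    rw [zpow_add_one, Equiv.Perm.coe_mul]
    exact ih.comp hp
  | pred n ih =>
    rw [zpow_sub_one, Equiv.Perm.coe_mul]
    exact ih.comp hq

theorem Erg_inv {E : Set ErgY} (h : ErgS 1 ⁻¹' E = E) (n : ℤ) : ErgS n ⁻¹' E = E := by
  have h1 : ∀ y, ErgS 1 y ∈ E ↔ y ∈ E := fun y => Set.ext_iff.1 h y
  induction n using Int.induction_on with
  | zero =>
    ext y
    rw [Set.mem_preimage, ErgS_zero]
  | succ n ih =>
    ext y
    rw [Set.mem_preimage, add_comm, ErgS_add, h1, ← Set.mem_preimage, ih]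
  | pred n ih =>
    ext y
    rw [Set.mem_preimage, ← h1, ← ErgS_add, add_sub_cancel, ← Set.mem_preimage, ih]

theorem erg_red {X : Type} [MeasurableSpace X] (μ : Measure X) [IsProbabilityMeasure μ]
    (T : Equiv.Perm X) (hT : Measurable T) (hT' : Measurable T.symm)
    (hp : MeasurePreserving T μ μ) (A : Set X) (hA : MeasurableSet A) (h0 : 0 < μ A) {ι : Type}
    [Fintype ι] (v : ℕ → ι → ℤ) (I : Set ℕ)
    (hv : ∀ n ∈ I, μ (A ∩ ⋂ i, (⇑(T ^ v n i)) ⁻¹' A) = 0) :
    ∃ (Y : Type) (_ : MeasurableSpace Y) (ν : Measure Y) (_ : IsProbabilityMeasure ν)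
      (S : Sys ℤ Y ν) (B : Set Y), MeasurableSet B ∧ 0 < ν B ∧ Ergodic (S.act 1) ν ∧
        ∀ n ∈ I, ν (B ∩ ⋂ i, S.act (v n i) ⁻¹' B) = 0 := by
  haveI : LocallyCompactSpace ErgY := Erg_open.locallyCompactSpace
  haveI : SecondCountableTopology ErgY :=
    TopologicalSpace.Subtype.secondCountableTopology {y : ℤ → Bool | ∃ n, y n = true}
  have hz := Erg_zpow μ T hT hT' hp
  let φ : X → ℤ → Bool := fun x m => decide ((T ^ m) x ∈ A)
  have hφ : Measurable φ := by
    refine measurable_pi_lambda _ fun m => measurable_to_bool ?_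
    have : (fun x => φ x m) ⁻¹' {true} = (⇑(T ^ m)) ⁻¹' A := by
      ext x
      simp [φ]
    rw [this]
    exact (hz m).measurable hA
  have hemb : MeasurableEmbedding (Subtype.val : ErgY → ℤ → Bool) :=
    MeasurableEmbedding.subtype_coe Erg_open.measurableSet
  let ν₀ : Measure ErgY := (μ.map φ).comap Subtype.val
  have hν₀ : ∀ E, MeasurableSet E → ν₀ E = μ (φ ⁻¹' (Subtype.val '' E)) := fun E hE => by
    rw [hemb.comap_apply, Measure.map_apply hφ (hemb.measurableSet_image.2 hE)]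
  haveI : IsFiniteMeasure ν₀ := ⟨by
    rw [hν₀ _ MeasurableSet.univ]
    exact measure_lt_top _ _⟩
  let B : Set ErgY := {y | y.1 0 = true}
  have hB : IsOpen B :=
    (isOpen_discrete {true}).preimage (Erg_coord 0)
  let P : ℕ → Set ErgY := fun n => B ∩ ⋂ i, ErgS (v n i) ⁻¹' B
  have hP : ∀ n, IsOpen (P n) := fun n =>
    hB.inter (isOpen_iInter_of_finite fun i => hB.preimage (ErgS_cont _))
  have hU : IsOpen (⋃ n ∈ I, P n) := isOpen_biUnion fun n _ => hP n
  have hne : ν₀ ≠ 0 := by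
    intro h
    have h1 : ν₀ B = 0 := by rw [h]; rfl
    rw [hν₀ _ hB.measurableSet] at h1
    refine h0.ne' (measure_mono_null (fun x hx => ?_) h1)
    have h2 : φ x 0 = true := by simpa [φ] using hx
    exact ⟨⟨φ x, 0, h2⟩, h2, rfl⟩
  have hnull : ν₀ (⋃ n ∈ I, P n)ᶜᶜ = 0 := by
    rw [compl_compl]
    refine (measure_biUnion_null_iff I.to_countable).2 fun n hn => ?_
    rw [hν₀ _ (hP n).measurableSet]
    refine measure_mono_null ?_ (hv n hn)
    rintro x ⟨y, ⟨hy1, hy2⟩, hy⟩
    have h1 : φ x 0 = true := hy ▸ hy1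
    refine ⟨by simpa [φ] using h1, Set.mem_iInter.2 fun i => ?_⟩
    have h2 : y.1 (0 + v n i) = true := Set.mem_iInter.1 hy2 i
    rw [hy, zero_add] at h2
    simpa [φ] using h2
  have hinv : ∀ t E, MeasurableSet E → ν₀ (ErgH t ⁻¹' E) = ν₀ E := by
    intro t E hE
    have hE' : MeasurableSet (ErgH t ⁻¹' E) := (ErgH t).continuous.measurable hE
    rw [hν₀ _ hE, hν₀ _ hE', ← (hz t).measure_preimage
      (hφ (hemb.measurableSet_image.2 hE)).nullMeasurableSet]
    congr 1
    have e : ∀ x m, φ ((T ^ t) x) m = φ x (m + t) := fun x m => by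
      simp only [φ, zpow_add, Equiv.Perm.coe_mul, Function.comp]
    ext x
    constructor
    · rintro ⟨y, hy, hyx⟩
      refine ⟨ErgS t y, hy, funext fun m => ?_⟩
      rw [e, ← hyx]
      rfl
    · rintro ⟨z, hz1, hz2⟩
      refine ⟨ErgS (-t) z, ?_, funext fun m => ?_⟩
      · have : ErgH t (ErgS (-t) z) = z := (ErgH t).right_inv z
        rw [Set.mem_preimage, this]
        exact hz1
      · change z.1 (m + -t) = φ x m
        rw [hz2, e, neg_add_cancel_right]
  obtain ⟨ν, -, n0, nF, ninv, nerg, nfin⟩ := MP_7a4cc0_an.erg_cap ErgH (⋃ n ∈ I, P n)ᶜ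
    hU.isClosed_compl (fun _ : Unit => Set.univ) (fun _ => isOpen_univ) (fun _ => 1)
    (fun _ => one_ne_zero) (fun y _ => Set.mem_iUnion.2 ⟨(), trivial⟩) ν₀ hne hnull hinv
    (by simp)
  haveI : IsFiniteMeasure ν := ⟨by simpa [lt_top_iff_ne_top] using nfin⟩
  haveI : NeZero ν := ⟨n0⟩
  have hmp : ∀ t, MeasurePreserving (ErgS t) ((ν Set.univ)⁻¹ • ν) ((ν Set.univ)⁻¹ • ν) := by
    intro t
    refine MeasurePreserving.smul_measure ⟨(ErgS_cont t).measurable, ?_⟩ _
    ext E hE
    rw [Measure.map_apply (ErgS_cont t).measurable hE]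
    exact ninv t E hE
  have hB0 : ν B ≠ 0 := by
    intro h
    apply n0
    rw [← Measure.measure_univ_eq_zero]
    refine measure_mono_null (t := ⋃ t, ErgH t ⁻¹' B) (fun y _ => ?_)
      (measure_iUnion_null fun t => (ninv t B hB.measurableSet).trans h)
    obtain ⟨m, hm⟩ := y.2
    exact Set.mem_iUnion.2 ⟨m, show y.1 (0 + m) = true by rwa [zero_add]⟩
  refine ⟨ErgY, inferInstance, (ν Set.univ)⁻¹ • ν, inferInstance,
    ⟨ErgS, hmp, ErgS_add, ErgS_zero⟩, B, hB.measurableSet, ?_, ⟨hmp 1, ⟨fun E hE h1 => ?_⟩⟩,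
    fun n hn => ?_⟩
  · rw [Measure.smul_apply, smul_eq_mul]
    exact ENNReal.mul_pos (ENNReal.inv_ne_zero.2 (measure_ne_top _ _)) hB0
  · rw [eventuallyConst_set']
    rcases nerg E hE (fun t => (Erg_inv h1 t).eventuallyEq) with h | h
    · left
      rw [ae_eq_empty, Measure.smul_apply, h, smul_zero]
    · right
      rw [ae_eq_univ, Measure.smul_apply, h, smul_zero]
  · have : ν (P n) = 0 := by
      rw [compl_compl] at nF
      exact measure_mono_null (Set.subset_biUnion_of_mem (u := P) hn) nF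
    change ((ν Set.univ)⁻¹ • ν) (P n) = 0
    rw [Measure.smul_apply, this, smul_zero]

end Pool.Agent.MP_357fb4_an
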