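import Pool.Agent.MP_357fb4_an.HApi

/-!
The choice of the weight.
-/

open scoped BigOperators Classical ComplexConjugate Polynomial
open Finset Filter MeasureTheory Topology

noncomputable section

namespace Pool.Agent.MP_357fb4_an

theorem ExW_span_mem (H : HF) (s : Set (ℝ → ℝ)) (hs : ∀ v ∈ s, v ∈ H.car) :
    ∀ u ∈ Submodule.span ℝ s, u ∈ H.car := by
  intro u hu
  induction hu using Submodule.span_induction with
  | mem x hx => exact hs x hx
  | zero => exact H.const 0
  | add x y _ _ hx hy => exact H.add x y hx hy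
  | smul c x _ hx => exact H.mul _ _ (H.const c) hx

/-- If the quotient does not tend to zero then the denominator is dominated. -/
theorem ExW_dom (H : HF) {u β : ℝ → ℝ} (hu : u ∈ H.car) (hβ : β ∈ H.car)
    (hβt : Tendsto β atTop atTop) (h : ¬ Tendsto (fun t => u t / β t) atTop (𝓝 0)) :
    ∃ C : ℝ, ∀ᶠ t in atTop, β t ≤ C * |u t| := by
  have hpos : ∀ᶠ t in atTop, 0 < β t := hβt.eventually_gt_atTop 0
  rcases H.lim (H.div hu hβ) with ⟨c, hc⟩ | hc
  · have hc0 : c ≠ 0 := by
      rintro rfl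
      exact h hc
    have hca : 0 < |c| := abs_pos.2 hc0
    have h1 : ∀ᶠ t in atTop, |c| / 2 < |u t / β t| :=
      (hc.abs).eventually (lt_mem_nhds (by linarith))
    refine ⟨2 / |c|, ?_⟩
    filter_upwards [hpos, h1] with t ht h2
    rw [abs_div, abs_of_pos ht, lt_div_iff₀ ht] at h2
    rw [div_mul_eq_mul_div, le_div_iff₀ hca]
    linarith
  · refine ⟨1, ?_⟩
    filter_upwards [hpos, hc.eventually_ge_atTop 1] with t ht h2
    rw [abs_div, abs_of_pos ht, le_div_iff₀ ht] at h2
    linarith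

/-- A slowest unbounded growth rate in a finite dimensional space. -/
theorem ExW_beta (H : HF) (s : Finset (ℝ → ℝ)) (hs : ∀ v ∈ s, v ∈ H.car) :
    ∃ β ∈ H.car, Tendsto β atTop atTop ∧ ∀ u ∈ Submodule.span ℝ (s : Set (ℝ → ℝ)),
      Tendsto (fun t => |u t|) atTop atTop → ∃ C : ℝ, ∀ᶠ t in atTop, β t ≤ C * |u t| := by
  induction s using Finset.induction_on with
  | empty =>
    refine ⟨fun t => t, H.ident, tendsto_id, ?_⟩
    intro u hu ht
    exfalso
    have hu0 : u = 0 := by simpa using hu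
    subst hu0
    obtain ⟨t, h1⟩ := (ht.eventually_ge_atTop 1).exists
    norm_num at h1
  | insert v s hv ih =>
    obtain ⟨β, hβ, hβt, hβd⟩ := ih fun w hw => hs w (mem_insert_of_mem hw)
    have hmem : ∀ u ∈ Submodule.span ℝ ((insert v s : Finset (ℝ → ℝ)) : Set (ℝ → ℝ)),
        u ∈ H.car := ExW_span_mem H _ fun w hw => hs w (by simpa using hw)
    have hmem' : ∀ u ∈ Submodule.span ℝ (s : Set (ℝ → ℝ)), u ∈ H.car :=
      ExW_span_mem H _ fun w hw => hs w (mem_insert_of_mem (by simpa using hw))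
    have hpos : ∀ᶠ t in atTop, 0 < β t := hβt.eventually_gt_atTop 0
    by_cases hA : ∃ u₀ ∈ Submodule.span ℝ ((insert v s : Finset (ℝ → ℝ)) : Set (ℝ → ℝ)),
        Tendsto (fun t => |u₀ t|) atTop atTop ∧ Tendsto (fun t => u₀ t / β t) atTop (𝓝 0)
    · obtain ⟨u₀, hu₀, h1, h2⟩ := hA
      refine ⟨fun t => |u₀ t|, H.abs (hmem u₀ hu₀), h1, ?_⟩
      -- smallness of u₀ against every unbounded member of the smaller space
      have hsmall : ∀ w ∈ Submodule.span ℝ (s : Set (ℝ → ℝ)),
          Tendsto (fun t => |w t|) atTop atTop → ∀ K : ℝ, 0 < K →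
            ∀ᶠ t in atTop, K * |u₀ t| ≤ |w t| := by
        intro w hw hwt K hK
        obtain ⟨C, hC⟩ := hβd w hw hwt
        have hC1 : 0 < |C| + 1 := by positivity
        have h3 : ∀ᶠ t in atTop, |u₀ t / β t| < 1 / (K * (|C| + 1)) := by
          have := h2.abs
          rw [abs_zero] at this
          exact this.eventually (gt_mem_nhds (by positivity))
        filter_upwards [hpos, hC, h3] with t ht h4 h5
        rw [abs_div, abs_of_pos ht, div_lt_div_iff₀ ht (by positivity)] at h5
        have h6 : C * |w t| ≤ (|C| + 1) * |w t| :=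
          mul_le_mul_of_nonneg_right (by linarith [le_abs_self C]) (abs_nonneg _)
        have h7 : (|C| + 1) * (K * |u₀ t|) ≤ (|C| + 1) * |w t| := by nlinarith
        exact le_of_mul_le_mul_left h7 hC1
      rw [coe_insert, Submodule.mem_span_insert] at hu₀
      obtain ⟨a₀, w₀, hw₀, he₀⟩ := hu₀
      have ha₀ : a₀ ≠ 0 := by
        rintro rfl
        have he : u₀ = w₀ := by simpa using he₀
        subst he
        obtain ⟨t, h3, h4⟩ := ((hsmall u₀ hw₀ h1 2 two_pos).and (h1.eventually_ge_atTop 1)).exists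
        linarith
      intro u hu hut
      rw [coe_insert, Submodule.mem_span_insert] at hu
      obtain ⟨a, w, hw, he⟩ := hu
      have hw' : w - (a / a₀) • w₀ ∈ Submodule.span ℝ (s : Set (ℝ → ℝ)) :=
        Submodule.sub_mem _ hw (Submodule.smul_mem _ _ hw₀)
      have hdec : ∀ t, u t = a / a₀ * u₀ t + (w - (a / a₀) • w₀) t := by
        intro t
        rw [he, he₀]
        simp only [Pi.add_apply, Pi.smul_apply, Pi.sub_apply, smul_eq_mul]
        field_simp
        ring
      set z := w - (a / a₀) • w₀ with hz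
      set l := a / a₀ with hl
      rcases H.bdd_or (hmem' z hw') with ⟨B, hB⟩ | hB
      · have hl0 : l ≠ 0 := by
          intro h0
          obtain ⟨t, h3, h4⟩ := (hB.and (hut.eventually_gt_atTop B)).exists
          rw [hdec t, h0] at h4
          simp only [zero_mul, zero_add] at h4
          linarith
        have hla : 0 < |l| := abs_pos.2 hl0
        refine ⟨2 / |l|, ?_⟩
        filter_upwards [hB, hut.eventually_ge_atTop B] with t h3 h4
        rw [div_mul_eq_mul_div, le_div_iff₀ hla]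
        have h5 : l * u₀ t = u t - z t := by rw [hdec t]; ring
        have h6 : |l| * |u₀ t| ≤ |u t| + |z t| := by
          rw [← abs_mul, h5]
          exact abs_sub _ _
        nlinarith
      · refine ⟨1, ?_⟩
        filter_upwards [hsmall z hw' hB (|l| + 1) (by positivity)] with t h3
        have h5 : z t = u t - l * u₀ t := by rw [hdec t]; ring
        have h6 : |z t| ≤ |u t| + |l| * |u₀ t| := by
          rw [← abs_mul, h5]
          exact abs_sub _ _
        linarith
    · refine ⟨β, hβ, hβt, ?_⟩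
      intro u hu hut
      exact ExW_dom H (hmem u hu) hβ hβt fun h => hA ⟨u, hu, hut, h⟩

theorem ExW_log (H : HF) {u β : ℝ → ℝ} (hu : u ∈ H.car) (hβ : β ∈ H.car)
    (hβt : Tendsto β atTop atTop) (hut : Tendsto (fun t => |u t|) atTop atTop) {C : ℝ}
    (hC : ∀ᶠ t in atTop, β t ≤ C * |u t|) :
    Tendsto (fun t => deriv (fun t => Real.log (β t)) t / deriv u t) atTop (𝓝 0) := by
  refine H.lhop (H.log β hβ) hu hut ?_
  have h1 : (fun t => Real.log (β t)) =o[atTop] β :=
    Real.isLittleO_log_id_atTop.comp_tendsto hβt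
  have h2 : β =O[atTop] u := by
    refine Asymptotics.IsBigO.of_bound C ?_
    filter_upwards [hC, hβt.eventually_gt_atTop 0] with t h3 h4
    rw [Real.norm_eq_abs, Real.norm_eq_abs, abs_of_pos h4]
    exact h3
  exact (h1.trans_isBigO h2).tendsto_div_nhds_zero

theorem exW (H : HF) {ι : Type} [Fintype ι] {a : ι → ℝ → ℝ} (ha : ∀ i, a i ∈ H.car) (A : ℕ) :
    ∃ W ∈ H.car, ∃ T : ℕ, Wt W T ∧ ∀ (c : ι → ℝ) (P : ℝ[X]), P.natDegree ≤ A →
      Tendsto (fun t => |∑ i, c i * a i t - P.eval t|) atTop atTop →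
        Adm H W fun t => ∑ i, c i * a i t - P.eval t := by
  set ll : ℝ → ℝ := fun t => Real.log (Real.log t) with hll
  have hllm : ll ∈ H.car := H.log _ (H.log _ H.ident)
  set s : Finset (ℝ → ℝ) := insert ll (univ.image a ∪
    (range (A + 1)).image fun i => fun t : ℝ => t ^ i) with hs
  have hsm : ∀ v ∈ s, v ∈ H.car := by
    intro v hv
    simp only [hs, mem_insert, mem_union, mem_image, mem_univ, true_and] at hv
    rcases hv with rfl | ⟨i, rfl⟩ | ⟨i, _, rfl⟩
    · exact hllm
    · exact ha i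
    · exact H.pow H.ident i
  obtain ⟨β, hβ, hβt, hβd⟩ := ExW_beta H s hsm
  set W : ℝ → ℝ := fun t => Real.log (β t) with hW
  have hWm : W ∈ H.car := H.log β hβ
  have hWt : Tendsto W atTop atTop := Real.tendsto_log_atTop.comp hβt
  have hllt : Tendsto ll atTop atTop := Real.tendsto_log_atTop.comp Real.tendsto_log_atTop
  have hllt' : Tendsto (fun t => |ll t|) atTop atTop := tendsto_abs_atTop_atTop.comp hllt
  obtain ⟨C, hC⟩ := hβd ll (Submodule.subset_span (by simp [hs])) hllt'
  have h1 := ExW_log H hllm hβ hβt hllt' hC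
  have hρm : (fun t => t * Real.log t * deriv W t) ∈ H.car :=
    H.mul _ _ (H.mul _ _ H.ident (H.log _ H.ident)) (H.der W hWm)
  have hρ0 : Tendsto (fun t => t * Real.log t * deriv W t) atTop (𝓝 0) := by
    refine h1.congr' ?_
    filter_upwards [eventually_gt_atTop 1] with t ht
    have ht0 : t ≠ 0 := by linarith
    have hl : Real.log t ≠ 0 := (Real.log_pos ht).ne'
    have hd : HasDerivAt ll (t⁻¹ / Real.log t) t := (Real.hasDerivAt_log ht0).log hl
    rw [hd.deriv]
    field_simp
    rfl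
  have hdp := H.deriv_pos hWm hWt
  have hρp : ∀ᶠ t in atTop, 0 < t * Real.log t * deriv W t := by
    filter_upwards [eventually_gt_atTop 1, hdp] with t ht h2
    have := Real.log_pos ht
    positivity
  obtain ⟨T₁, hT₁⟩ := H.anti hρm hρp hρ0
  obtain ⟨T₂, hT₂⟩ := eventually_atTop.1
    ((H.diff W hWm).and (hdp.and (hWt.eventually_ge_atTop 0)))
  obtain ⟨T, hT⟩ := exists_nat_ge (max 3 (max T₁ T₂))
  have hT3 : (3 : ℝ) ≤ T := le_trans (le_max_left _ _) hT
  have hTa : T₁ ≤ T := le_trans (le_trans (le_max_left _ _) (le_max_right _ _)) hT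
  have hTb : T₂ ≤ T := le_trans (le_trans (le_max_right _ _) (le_max_right _ _)) hT
  refine ⟨W, hWm, T, ⟨by exact_mod_cast hT3, fun t ht => (hT₂ t (hTb.trans ht)).1,
    fun t ht => (hT₂ t (hTb.trans ht)).2.1, hT₁.mono (Set.Ici_subset_Ici.2 hTa), hWt,
    (hT₂ T hTb).2.2⟩, ?_⟩
  intro c P hP hut
  have hmem : (fun t => ∑ i, c i * a i t - P.eval t) ∈ Submodule.span ℝ (s : Set (ℝ → ℝ)) := by
    have he : (fun t => ∑ i, c i * a i t - P.eval t) =
        ∑ i, c i • a i - ∑ i ∈ range (A + 1), P.coeff i • fun t : ℝ => t ^ i := by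
      funext t
      rw [Polynomial.eval_eq_sum_range' (Nat.lt_succ_of_le hP)]
      simp [Finset.sum_apply]
    rw [he]
    refine Submodule.sub_mem _ (Submodule.sum_mem _ fun i _ => Submodule.smul_mem _ _ ?_)
      (Submodule.sum_mem _ fun i hi => Submodule.smul_mem _ _ ?_)
    · refine Submodule.subset_span ?_
      simp only [hs, coe_insert, coe_union, coe_image, Set.mem_insert_iff, Set.mem_union]
      exact Or.inr (Or.inl ⟨i, by simp, rfl⟩)
    · refine Submodule.subset_span ?_
      simp only [hs, coe_insert, coe_union, coe_image, Set.mem_insert_iff, Set.mem_union]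
      exact Or.inr (Or.inr ⟨i, by simpa using hi, rfl⟩)
  have hum := ExW_span_mem H _ (fun v hv => hsm v (by simpa using hv)) _ hmem
  obtain ⟨C', hC'⟩ := hβd _ hmem hut
  exact ⟨hum, hut, ExW_log H hum hβ hβt hut hC'⟩

theorem caseII_of (H : HF) {W b : ℝ → ℝ} (hW : W ∈ H.car) {P : ℝ[X]} {q : ℕ} (hq : 1 ≤ q)
    (hP : RatAbove P 0 q) (h : Adm H W fun t => b t - P.eval t) {C : ℝ}
    (hC : ∀ᶠ t in atTop, |t * deriv (fun t => b t - P.eval t) t| ≤ C) : CaseII W b := by
  obtain ⟨hr, hrt, hg0⟩ := h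
  set r : ℝ → ℝ := fun t => b t - P.eval t with hrd
  set g : ℝ → ℝ := fun t => deriv W t / deriv r t with hgd
  have hgm : g ∈ H.car := H.div (H.der W hW) (H.der r hr)
  obtain ⟨T₁, hT₁, hmono⟩ := H.mono hgm
  obtain ⟨T₂, hT₂⟩ := eventually_atTop.1
    ((H.diff r hr).and ((H.diff _ (H.der r hr)).and (hC.and (H.deriv_ne hr hrt))))
  refine ⟨P, q, r, deriv r, g, deriv g, max T₁ T₂, C, hq, hP, fun t => rfl, ?_, ?_, ?_, hg0⟩
  · intro t ht
    exact (hT₂ t (le_trans (le_max_right _ _) ht)).2.1.continuousAt.continuousWithinAt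
  · intro t ht
    obtain ⟨h1, -, h3, h4⟩ := hT₂ t (le_trans (le_max_right _ _) ht)
    refine ⟨h1.hasDerivAt, h3, (hT₁ t (le_trans (le_max_left _ _) ht)).hasDerivAt, ?_⟩
    simp only [hgd]
    field_simp
  · rcases hmono with ⟨h1, -⟩ | ⟨h1, -⟩
    · exact Or.inl fun t ht => h1 t (le_trans (le_max_left _ _) ht)
    · exact Or.inr fun t ht => h1 t (le_trans (le_max_left _ _) ht)

end Pool.Agent.MP_357fb4_an
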