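import Pool.Agent.MP_357fb4_an.Basic

/-!
Equidistribution with integer parts.
-/

open scoped BigOperators Classical ComplexConjugate Polynomial
open Finset Filter MeasureTheory Topology

noncomputable section

namespace Pool.Agent.MP_357fb4_an

lemma Floor_bound {c : ℕ → ℕ → ℝ} (hc : ∀ j n, 0 ≤ c j n) (h1 : ∀ j, ∑ n ∈ range j, c j n ≤ 1)
    (v : ℕ → ℂ) {B : ℝ} (hB : 0 ≤ B) (hv : ∀ n, ‖v n‖ ≤ B) (j : ℕ) :
    ‖∑ n ∈ range j, (c j n : ℂ) * v n‖ ≤ B := by
  refine (norm_sum_le _ _).trans ?_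
  calc ∑ n ∈ range j, ‖(c j n : ℂ) * v n‖ ≤ ∑ n ∈ range j, c j n * B :=
        sum_le_sum fun n _ => by
          rw [norm_mul, Complex.norm_real, Real.norm_of_nonneg (hc j n)]
          exact mul_le_mul_of_nonneg_left (hv n) (hc j n)
    _ = (∑ n ∈ range j, c j n) * B := (sum_mul _ _ _).symm
    _ ≤ B := mul_le_of_le_one_left hB (h1 j)

lemma Floor_cont {c : ℕ → ℕ → ℝ} (hc : ∀ j n, 0 ≤ c j n) (h1 : ∀ j, ∑ n ∈ range j, c j n ≤ 1)
    (u : ℕ → ℂ) (hu : ∀ n, ‖u n‖ ≤ 1) (x : ℕ → ℝ)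
    (h : ∀ l : ℤ, Tendsto (fun j => ∑ n ∈ range j, (c j n : ℂ) * (u n * ec (l * x n))) atTop (𝓝 0))
    (φ : C(UnitAddCircle, ℂ)) :
    Tendsto (fun j => ∑ n ∈ range j, (c j n : ℂ) * (u n * φ (x n))) atTop (𝓝 0) := by
  have hs : ∀ ψ ∈ Submodule.span ℂ (Set.range (fourier (T := 1))),
      Tendsto (fun j => ∑ n ∈ range j, (c j n : ℂ) * (u n * ψ (x n))) atTop (𝓝 0) := by
    intro ψ hψ
    induction hψ using Submodule.span_induction with
    | mem ψ hψ =>
      obtain ⟨l, rfl⟩ := hψ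
      refine (h l).congr fun j => sum_congr rfl fun n _ => ?_
      rw [fourier_coe_apply, ec]
      congr 3
      push_cast
      ring
    | zero => simp
    | add f g _ _ hf hg =>
      simpa only [ContinuousMap.add_apply, mul_add, sum_add_distrib, add_zero] using hf.add hg
    | smul a f _ hf =>
      have := hf.const_mul a
      rw [mul_zero] at this
      refine this.congr fun j => ?_
      rw [mul_sum]
      refine sum_congr rfl fun n _ => ?_
      rw [ContinuousMap.smul_apply, smul_eq_mul]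
      ring
  have hφ : φ ∈ closure (Submodule.span ℂ (Set.range (fourier (T := 1))) :
      Set C(UnitAddCircle, ℂ)) := by
    rw [← Submodule.topologicalClosure_coe, span_fourier_closure_eq_top]
    trivial
  rw [NormedAddGroup.tendsto_nhds_zero]
  intro ε hε
  obtain ⟨ψ, hψ, hd⟩ := Metric.mem_closure_iff.1 hφ (ε / 2) (half_pos hε)
  filter_upwards [NormedAddGroup.tendsto_nhds_zero.1 (hs ψ hψ) (ε / 2) (half_pos hε)] with j hj
  have e : ∑ n ∈ range j, (c j n : ℂ) * (u n * φ (x n)) =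
      ∑ n ∈ range j, (c j n : ℂ) * (u n * ψ (x n)) +
        ∑ n ∈ range j, (c j n : ℂ) * (u n * (φ - ψ) (x n)) := by
    rw [← sum_add_distrib]
    refine sum_congr rfl fun n _ => ?_
    rw [ContinuousMap.sub_apply]
    ring
  have hb := Floor_bound hc h1 (fun n => u n * (φ - ψ) (x n)) (norm_nonneg (φ - ψ)) (fun n => by
    rw [norm_mul]
    exact (mul_le_of_le_one_left (norm_nonneg _) (hu n)).trans ((φ - ψ).norm_coe_le_norm _)) j
  rw [dist_eq_norm] at hd
  rw [e]
  linarith [norm_add_le (∑ n ∈ range j, (c j n : ℂ) * (u n * ψ (x n)))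
    (∑ n ∈ range j, (c j n : ℂ) * (u n * (φ - ψ) (x n)))]

lemma Floor_fejer {K : ℕ} (hK : 1 ≤ K) {x : ℝ} (hx : 1 - 1 / (14 * K : ℝ) < Int.fract x) :
    (1 : ℝ) ≤ 4 * ‖𝔼 k ∈ range K, ec (k * x)‖ ^ 2 := by
  have hK0 : (0 : ℝ) < K := by exact_mod_cast hK
  have hne : (range K).Nonempty := nonempty_range_iff.2 (by omega)
  have h1 : ‖𝔼 k ∈ range K, (ec (k * x) - 1)‖ ≤ 1 / 2 := by
    refine (norm_expect_le' _ _).trans (expect_le hne fun k hk => ?_)
    have hk' : (k : ℝ) ≤ K := by exact_mod_cast (mem_range.1 hk).le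
    have e : ec (k * x) = ec (k * (Int.fract x - 1)) := by
      rw [← ec_add_int (k * (Int.fract x - 1)) (k * (⌊x⌋ + 1)), Int.fract]
      congr 1
      push_cast
      ring
    rw [e]
    refine (norm_ec_sub_one _).trans ?_
    have h2 : |Int.fract x - 1| ≤ 1 / (14 * K) := by
      rw [abs_sub_comm, abs_of_pos (sub_pos.2 (Int.fract_lt_one x))]
      linarith
    rw [abs_mul, Nat.abs_cast]
    calc 7 * (k * |Int.fract x - 1|) ≤ 7 * (K * (1 / (14 * K))) := by gcongr
      _ = 1 / 2 := by field_simp; norm_num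
  rw [expect_sub_distrib, expect_const hne] at h1
  have h3 := norm_sub_norm_le (1 : ℂ) (𝔼 k ∈ range K, ec (k * x))
  rw [norm_sub_rev, norm_one] at h3
  nlinarith

lemma Floor_mass {c : ℕ → ℕ → ℝ} (hc : ∀ j n, 0 ≤ c j n) (h1 : ∀ j, ∑ n ∈ range j, c j n ≤ 1)
    (x : ℕ → ℝ) (h : ∀ l : ℤ, l ≠ 0 →
      Tendsto (fun j => ∑ n ∈ range j, (c j n : ℂ) * ec (l * x n)) atTop (𝓝 0))
    {ε : ℝ} (hε : 0 < ε) : ∃ δ : ℝ, 0 < δ ∧ ∀ᶠ j in atTop,
      ∑ n ∈ range j, c j n * (if 1 - δ < Int.fract (x n) then 1 else 0) ≤ ε := by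
  obtain ⟨K0, hK0⟩ := exists_nat_one_div_lt (show 0 < ε / 8 by positivity)
  set K := K0 + 1 with hK
  have hK1 : 1 ≤ K := by omega
  have hKp : (0 : ℝ) < K := by exact_mod_cast hK1
  have hne : (range K).Nonempty := nonempty_range_iff.2 (by omega)
  have hKe : 1 / (K : ℝ) < ε / 8 := by rw [hK]; push_cast; exact hK0
  refine ⟨1 / (14 * K), by positivity, ?_⟩
  have hev : ∀ᶠ j in atTop, ∀ k ∈ range K, ∀ k' ∈ range K, k ≠ k' →
      ‖∑ n ∈ range j, (c j n : ℂ) * ec ((((k : ℤ) - k' : ℤ) : ℝ) * x n)‖ < ε / 8 := by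
    refine (eventually_all_finset _).2 fun k _ => (eventually_all_finset _).2 fun k' _ => ?_
    by_cases hk : k = k'
    · exact Eventually.of_forall fun _ h => absurd hk h
    · filter_upwards [NormedAddGroup.tendsto_nhds_zero.1 (h ((k : ℤ) - k') (by omega)) (ε / 8)
        (by positivity)] with j hj _ using hj
  filter_upwards [hev] with j hj
  have h2 : ∀ k ∈ range K, ∀ k' ∈ range K,
      ∑ n ∈ range j, c j n * (ec (k * x n) * conj (ec (k' * x n))).re ≤
        ε / 8 + if k' = k then 1 else 0 := by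
    intro k hk k' hk'
    have e : ∑ n ∈ range j, c j n * (ec (k * x n) * conj (ec (k' * x n))).re =
        (∑ n ∈ range j, (c j n : ℂ) * ec ((((k : ℤ) - k' : ℤ) : ℝ) * x n)).re := by
      rw [Complex.re_sum]
      refine sum_congr rfl fun n _ => ?_
      rw [Complex.re_ofReal_mul, ← ec_sub]
      congr 3
      push_cast
      ring
    rw [e]
    refine (Complex.re_le_norm _).trans ?_
    split_ifs with hkk
    · linarith [Floor_bound hc h1 (fun n => ec ((((k : ℤ) - k' : ℤ) : ℝ) * x n)) zero_le_one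
        (fun n => (norm_ec _).le) j]
    · linarith [hj k hk k' hk' (Ne.symm hkk)]
  calc ∑ n ∈ range j, c j n * (if 1 - 1 / (14 * K : ℝ) < Int.fract (x n) then 1 else 0)
      ≤ ∑ n ∈ range j, c j n * (4 * ‖𝔼 k ∈ range K, ec (k * x n)‖ ^ 2) :=
        sum_le_sum fun n _ => mul_le_mul_of_nonneg_left (by
          split_ifs with hx
          · exact Floor_fejer hK1 hx
          · positivity) (hc j n)
    _ = 4 * 𝔼 k ∈ range K, 𝔼 k' ∈ range K,
          ∑ n ∈ range j, c j n * (ec (k * x n) * conj (ec (k' * x n))).re := by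
        simp only [sq_norm_expect, expect_sum_comm, ← mul_expect, mul_sum]
        exact sum_congr rfl fun n _ => by ring
    _ ≤ 4 * (ε / 8 + 1 / K) := by
        refine mul_le_mul_of_nonneg_left (expect_le hne fun k hk => ?_) (by norm_num)
        refine (expect_le_expect (h2 k hk)).trans (le_of_eq ?_)
        rw [expect_add_distrib, expect_const hne, expect_eq_sum_div_card, sum_ite_eq' _ k,
          if_pos hk, card_range]
    _ ≤ ε := by linarith

lemma Floor_one {c : ℕ → ℕ → ℝ} (hc : ∀ j n, 0 ≤ c j n) (h1 : ∀ j, ∑ n ∈ range j, c j n ≤ 1)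
    (u : ℕ → ℂ) (hu : ∀ n, ‖u n‖ ≤ 1) (x : ℕ → ℝ)
    (h : ∀ l : ℤ, Tendsto (fun j => ∑ n ∈ range j, (c j n : ℂ) * (u n * ec (l * x n))) atTop (𝓝 0))
    (h' : ∀ l : ℤ, l ≠ 0 →
      Tendsto (fun j => ∑ n ∈ range j, (c j n : ℂ) * ec (l * x n)) atTop (𝓝 0)) (t : ℝ) :
    Tendsto (fun j => ∑ n ∈ range j, (c j n : ℂ) * (u n * ec (-t * Int.fract (x n)))) atTop
      (𝓝 0) := by
  rw [NormedAddGroup.tendsto_nhds_zero]
  intro ε hε
  obtain ⟨δ, hδ, hm⟩ := Floor_mass hc h1 x h' (show 0 < ε / 4 by positivity)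
  set g : ℝ → ℂ := fun y => ec (-t * min y ((1 - y) / δ)) with hg
  have hgc : Continuous (AddCircle.liftIco (1 : ℝ) 0 g) :=
    AddCircle.liftIco_continuous (by
      simp [hg, hδ.le])
      (continuous_ec.comp (by fun_prop)).continuousOn
  have hv : ∀ y : ℝ, AddCircle.liftIco (1 : ℝ) 0 g (y : UnitAddCircle) = g (Int.fract y) := by
    intro y
    rw [← AddCircle.coe_fract y]
    exact AddCircle.liftIco_coe_apply ⟨Int.fract_nonneg y, by simpa using Int.fract_lt_one y⟩
  filter_upwards [hm, NormedAddGroup.tendsto_nhds_zero.1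
    (Floor_cont hc h1 u hu x h ⟨_, hgc⟩) (ε / 2) (half_pos hε)] with j hj hj'
  simp only [ContinuousMap.coe_mk, hv] at hj'
  have e : ∑ n ∈ range j, (c j n : ℂ) * (u n * ec (-t * Int.fract (x n))) =
      ∑ n ∈ range j, (c j n : ℂ) * (u n * g (Int.fract (x n))) +
        ∑ n ∈ range j, (c j n : ℂ) * (u n * (ec (-t * Int.fract (x n)) - g (Int.fract (x n)))) := by
    rw [← sum_add_distrib]
    exact sum_congr rfl fun n _ => by ring
  have hb : ‖∑ n ∈ range j, (c j n : ℂ) *
      (u n * (ec (-t * Int.fract (x n)) - g (Int.fract (x n))))‖ ≤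
      2 * ∑ n ∈ range j, c j n * (if 1 - δ < Int.fract (x n) then 1 else 0) := by
    rw [mul_sum]
    refine (norm_sum_le _ _).trans (sum_le_sum fun n _ => ?_)
    rw [norm_mul, Complex.norm_real, Real.norm_of_nonneg (hc j n), mul_left_comm, norm_mul]
    refine mul_le_mul_of_nonneg_left
      ((mul_le_of_le_one_left (norm_nonneg _) (hu n)).trans ?_) (hc j n)
    split_ifs with hx
    · refine (norm_sub_le _ _).trans (le_of_eq ?_)
      rw [hg]
      simp only [norm_ec]
      norm_num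
    · have h2 : Int.fract (x n) ≤ (1 - Int.fract (x n)) / δ := by
        rw [le_div_iff₀ hδ]
        nlinarith [Int.fract_lt_one (x n), Int.fract_nonneg (x n), not_lt.1 hx]
      rw [hg]
      simp only [min_eq_left h2, sub_self, norm_zero, mul_zero, le_refl]
  rw [e]
  linarith [norm_add_le (∑ n ∈ range j, (c j n : ℂ) * (u n * g (Int.fract (x n))))
    (∑ n ∈ range j, (c j n : ℂ) * (u n * (ec (-t * Int.fract (x n)) - g (Int.fract (x n)))))]

theorem eqfloor {ι : Type} [Fintype ι] (a : ι → ℕ → ℝ) (c : ℕ → ℕ → ℝ) (hc : ∀ j n, 0 ≤ c j n)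
    (h1 : ∀ j, ∑ n ∈ range j, c j n ≤ 1)
    (h : ∀ α : ι → ℝ, α ≠ 0 →
      Tendsto (fun j => ∑ n ∈ range j, (c j n : ℂ) * ec (∑ i, α i * a i n)) atTop (𝓝 0))
    (α : ι → ℝ) (hα : ∃ i, ∀ n : ℤ, α i ≠ n) :
    Tendsto (fun j => ∑ n ∈ range j, (c j n : ℂ) * ec (∑ i, α i * (⌊a i n⌋ : ℤ))) atTop (𝓝 0) := by
  have key : ∀ T : Finset ι, ∀ α : ι → ℝ,
      ((∃ i, i ∉ T ∧ α i ≠ 0) ∨ ∃ i ∈ T, ∀ n : ℤ, α i ≠ n) →
      Tendsto (fun j => ∑ n ∈ range j, (c j n : ℂ) *
        ec (∑ i, α i * if i ∈ T then ((⌊a i n⌋ : ℤ) : ℝ) else a i n)) atTop (𝓝 0) := by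
    intro T
    induction T using Finset.induction_on with
    | empty =>
      rintro α (⟨i, -, hi⟩ | ⟨i, hi, -⟩)
      · simpa using h α fun e => hi (congrFun e i)
      · simp at hi
    | insert k T hk ih =>
      intro α hα
      have := Floor_one hc h1
        (fun n => ec (∑ i, α i * if i ∈ T then ((⌊a i n⌋ : ℤ) : ℝ) else a i n))
        (fun n => (norm_ec _).le) (a k) (fun l => ?_) (fun l hl => ?_) (α k)
      · refine this.congr fun j => sum_congr rfl fun n _ => ?_
        rw [← ec_add, ← add_sum_erase _ _ (mem_univ k), ← add_sum_erase _ _ (mem_univ k),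
          if_neg hk, if_pos (mem_insert_self k T), Int.fract]
        congr 2
        rw [sum_congr rfl (g := fun i => α i * if i ∈ insert k T then ((⌊a i n⌋ : ℤ) : ℝ)
          else a i n) fun i hi => by simp only [mem_insert, (mem_erase.1 hi).1, false_or]]
        ring
      · have := ih (fun i => α i + if i = k then (l : ℝ) else 0) ?_
        · refine this.congr fun j => sum_congr rfl fun n _ => ?_
          rw [← ec_add]
          congr 2
          simp only [add_mul, sum_add_distrib, ite_mul, zero_mul, sum_ite_eq', mem_univ, if_true,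
            if_neg hk]
        · rcases hα with ⟨i, hi, hi'⟩ | ⟨i, hi, hi'⟩
          · have hik : i ≠ k := fun e => hi (e ▸ mem_insert_self k T)
            exact Or.inl ⟨i, fun e => hi (mem_insert_of_mem e), by simpa [hik] using hi'⟩
          · rcases mem_insert.1 hi with rfl | hi
            · refine Or.inl ⟨i, hk, fun e => hi' (-l) ?_⟩
              simp only [if_true] at e
              push_cast
              linarith
            · have hik : i ≠ k := fun e => hk (e ▸ hi)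
              exact Or.inr ⟨i, hi, by simpa [hik] using hi'⟩
      · have := h (fun i => if i = k then (l : ℝ) else 0) fun e => by
          have := congrFun e k
          simp only [if_true, Pi.zero_apply, Int.cast_eq_zero] at this
          exact hl this
        simpa only [ite_mul, zero_mul, sum_ite_eq', mem_univ, if_true] using this
  obtain ⟨i, hi⟩ := hα
  simpa only [mem_univ, if_true] using key univ α (Or.inr ⟨i, mem_univ i, hi⟩)

end Pool.Agent.MP_357fb4_an
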