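import Pool.Agent.MP_357fb4_an.Basic

/-!
Van der Corput differencing for scalar sequences.
-/

open scoped BigOperators Classical ComplexConjugate Polynomial
open Finset Filter MeasureTheory Topology

noncomputable section

namespace Pool.Agent.MP_357fb4_an

theorem weyl_shift {u : ℕ → ℂ} (hu : ∀ n, ‖u n‖ ≤ 1) (L h : ℕ) :
    ‖𝔼 x ∈ range L, u x - 𝔼 x ∈ range L, u (x + h)‖ ≤ 2 * h / L := by
  have e1 := sum_range_add u L h
  have e2 := sum_range_add u h L
  rw [add_comm h L, e1] at e2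
  have e3 : ∑ x ∈ range L, u x - ∑ x ∈ range L, u (x + h) =
      ∑ x ∈ range h, u x - ∑ x ∈ range h, u (L + x) := by
    simp only [add_comm _ h]
    linear_combination e2
  have b : ∀ v : ℕ → ℂ, (∀ n, ‖v n‖ ≤ 1) → ‖∑ x ∈ range h, v x‖ ≤ h := fun v hv =>
    (norm_sum_le _ _).trans (by simpa using sum_le_card_nsmul (range h) _ 1 fun x _ => hv x)
  rw [expect_eq_sum_div_card, expect_eq_sum_div_card, ← sub_div, e3, norm_div, card_range,
    Complex.norm_natCast]
  refine div_le_div_of_nonneg_right ((norm_sub_le _ _).trans ?_) (Nat.cast_nonneg _)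
  linarith [b u hu, b (fun x => u (L + x)) fun n => hu _]

theorem weyl_vdc {u : ℕ → ℂ} (hu : ∀ n, ‖u n‖ ≤ 1) {L M : ℕ} (hM : 1 ≤ M) {τ : ℝ} (hτ : 0 ≤ τ)
    (h : 𝔼 a ∈ range M, 𝔼 b ∈ range M, ‖𝔼 x ∈ range L, u (x + a) * conj (u (x + b))‖ ≤ τ ^ 2) :
    ‖𝔼 x ∈ range L, u x‖ ≤ τ + 2 * M / L := by
  have hne : (range M).Nonempty := nonempty_range_iff.2 (by omega)
  have h1 : ‖𝔼 x ∈ range L, u x - 𝔼 a ∈ range M, 𝔼 x ∈ range L, u (x + a)‖ ≤ 2 * M / L := by
    rw [← expect_const hne (𝔼 x ∈ range L, u x), ← expect_sub_distrib]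
    refine (norm_expect_le' _ _).trans (expect_le hne fun a ha => (weyl_shift hu L a).trans ?_)
    have : (a : ℝ) ≤ M := by exact_mod_cast (mem_range.1 ha).le
    gcongr
  have h2 : ‖𝔼 a ∈ range M, 𝔼 x ∈ range L, u (x + a)‖ ≤ τ := by
    refine (pow_le_pow_iff_left₀ (norm_nonneg _) hτ two_ne_zero).1 (le_trans ?_ h)
    rw [expect_comm]
    refine (pow_le_pow_left₀ (norm_nonneg _) (norm_expect_le' _ _) 2).trans
      ((pow_expect_le _ (fun _ _ => norm_nonneg _) two_ne_zero).trans ?_)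
    simp only [sq_norm_expect]
    rw [expect_comm]
    refine expect_le_expect fun a _ => ?_
    rw [expect_comm]
    refine expect_le_expect fun b _ => ?_
    rw [← re_expect]
    exact Complex.re_le_norm _
  have := norm_le_norm_sub_add (𝔼 x ∈ range L, u x) (𝔼 a ∈ range M, 𝔼 x ∈ range L, u (x + a))
  linarith

theorem weyl_pairs {F : ℕ → ℕ → ℝ} (h1 : ∀ a b, F a b ≤ 1) {M m : ℕ} (hM : 1 ≤ M) {ε : ℝ}
    (hε : 0 ≤ ε) (h : ∀ a b, a < M → b < M → a + m < b ∨ b + m < a → F a b ≤ ε) :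
    𝔼 a ∈ range M, 𝔼 b ∈ range M, F a b ≤ ε + (2 * m + 1) / M := by
  have hne : (range M).Nonempty := nonempty_range_iff.2 (by omega)
  have hM0 : (0 : ℝ) < M := by exact_mod_cast hM
  refine expect_le hne fun a ha => ?_
  have h2 : ∀ b ∈ range M, F a b ≤ ε + if b ∈ Icc (a - m) (a + m) then 1 else 0 := by
    intro b hb
    split_ifs with hc
    · linarith [h1 a b]
    · rw [mem_Icc] at hc
      simpa using h a b (mem_range.1 ha) (mem_range.1 hb) (by omega)
  refine (expect_le_expect h2).trans ?_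
  rw [expect_add_distrib, expect_const hne, expect_eq_sum_div_card, card_range, sum_boole]
  gcongr
  have h3 : ((range M).filter fun b => b ∈ Icc (a - m) (a + m)).card ≤ 2 * m + 1 := by
    refine (card_le_card fun b hb => (mem_filter.1 hb).2).trans ?_
    rw [Nat.card_Icc]
    omega
  exact_mod_cast h3

theorem weyl_diff {d : ℕ} {Q : ℝ[X]} (hQ : Q.natDegree ≤ d + 1) (a b : ℝ) :
    (Polynomial.taylor a Q - Polynomial.taylor b Q).natDegree ≤ d ∧
      (Polynomial.taylor a Q - Polynomial.taylor b Q).coeff d =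
        (d + 1) * (a - b) * Q.coeff (d + 1) := by
  constructor
  · rw [Polynomial.natDegree_le_iff_coeff_eq_zero]
    intro n hn
    have := Polynomial.eq_C_of_natDegree_le_zero
      ((Polynomial.natDegree_hasseDeriv_le Q n).trans (show Q.natDegree - n ≤ 0 by omega))
    rw [Polynomial.coeff_sub, Polynomial.taylor_coeff, Polynomial.taylor_coeff, this,
      Polynomial.eval_C, Polynomial.eval_C, sub_self]
  · have := Polynomial.eq_X_add_C_of_natDegree_le_one
      ((Polynomial.natDegree_hasseDeriv_le Q d).trans (show Q.natDegree - d ≤ 1 by omega))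
    rw [Polynomial.coeff_sub, Polynomial.taylor_coeff, Polynomial.taylor_coeff, this,
      Polynomial.hasseDeriv_coeff d Q 1, add_comm 1 d, Nat.choose_succ_self_right]
    simp only [Polynomial.eval_add, Polynomial.eval_mul, Polynomial.eval_C, Polynomial.eval_X]
    push_cast
    ring

/-- One differencing step for polynomial phases. -/
theorem weyl_step (Q : ℝ[X]) {L M m : ℕ} (hM : 1 ≤ M) {ε : ℝ} (hε : 0 ≤ ε)
    (h1 : 2 * (M : ℝ) / L ≤ ε / 2) (h2 : (2 * m + 1 : ℝ) / M ≤ ε ^ 2 / 8)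
    (h : ∀ a b : ℕ, a < M → b < M → a + m < b ∨ b + m < a →
      ‖𝔼 x ∈ range L, ec ((Polynomial.taylor (a : ℝ) Q - Polynomial.taylor (b : ℝ) Q).eval
        (x : ℝ))‖ ≤ ε ^ 2 / 8) :
    ‖𝔼 x ∈ range L, ec (Q.eval (x : ℝ))‖ ≤ ε := by
  have := weyl_vdc (u := fun x : ℕ => ec (Q.eval (x : ℝ))) (fun n => (norm_ec _).le) (L := L) hM
    (τ := ε / 2) (by positivity) (by
      refine (weyl_pairs (m := m) (ε := ε ^ 2 / 8) (fun a b => ?_) hM (by positivity)
        fun a b ha hb hab => ?_).trans (by linarith)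
      · exact norm_expect_le_one _ fun x _ => by simp
      · refine le_of_eq_of_le ?_ (h a b ha hb hab)
        congr 1
        refine expect_congr rfl fun x _ => ?_
        rw [← ec_sub, Polynomial.eval_sub, Polynomial.taylor_eval, Polynomial.taylor_eval]
        push_cast
        rfl)
  linarith

theorem weyl_lower {c : ℝ} (hc : |c| ≤ 1 / 2) : 4 * |c| ≤ ‖ec c - 1‖ := by
  rw [ec, show (2 * Real.pi * Complex.I * c : ℂ) = Complex.I * ((2 * Real.pi * c : ℝ) : ℂ) by
    push_cast; ring, Complex.norm_exp_I_mul_ofReal_sub_one, Real.norm_eq_abs, abs_mul,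
    show 2 * Real.pi * c / 2 = Real.pi * c by ring, abs_two]
  have hp := Real.pi_pos
  have := Real.mul_abs_le_abs_sin (x := Real.pi * c) (by
    rw [abs_mul, abs_of_pos hp]; nlinarith)
  rw [abs_mul, abs_of_pos hp, ← mul_assoc, div_mul_cancel₀ _ hp.ne'] at this
  linarith

theorem weyl_geo {c : ℝ} (hc : |c| ≤ 1 / 2) (b : ℝ) (L : ℕ) :
    |c| * L * ‖𝔼 x ∈ range L, ec (c * x + b)‖ ≤ 1 := by
  have e : ∀ L : ℕ, (ec c - 1) * ∑ x ∈ range L, ec (c * x + b) = ec (c * L + b) - ec b := by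
    intro L
    induction L with
    | zero => simp
    | succ L ih =>
      rw [sum_range_succ, mul_add, ih, show c * (L + 1 : ℕ) + b = c + (c * L + b) by
        push_cast; ring, ec_add c]
      ring
  have h1 := congrArg norm (e L)
  have h2 := norm_sub_le (ec (c * L + b)) (ec b)
  rw [norm_mul] at h1
  rw [norm_ec, norm_ec, ← h1] at h2
  have h3 := mul_le_mul_of_nonneg_right (weyl_lower hc)
    (norm_nonneg (∑ x ∈ range L, ec (c * x + b)))
  rcases Nat.eq_zero_or_pos L with rfl | hL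
  · simp
  · have hL0 : (L : ℝ) ≠ 0 := by exact_mod_cast hL.ne'
    rw [expect_eq_sum_div_card, norm_div, card_range, Complex.norm_natCast, mul_assoc,
      mul_div_cancel₀ _ hL0]
    linarith

theorem weyl_lin {Q : ℝ[X]} (hQ : Q.natDegree ≤ 1) (n : ℤ) (hc : |Q.coeff 1 - n| ≤ 1 / 2) {L : ℕ}
    {ε : ℝ} (hε : 0 < ε) (h : ε⁻¹ ≤ |Q.coeff 1 - n| * L) :
    ‖𝔼 x ∈ range L, ec (Q.eval (x : ℝ))‖ ≤ ε := by
  have h1 := weyl_geo hc (Q.coeff 0) L
  have e : 𝔼 x ∈ range L, ec (Q.eval (x : ℝ)) =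
      𝔼 x ∈ range L, ec ((Q.coeff 1 - n) * x + Q.coeff 0) := by
    refine expect_congr rfl fun x _ => ?_
    rw [← ec_add_int ((Q.coeff 1 - n) * x + Q.coeff 0) (n * x)]
    conv_lhs => rw [Polynomial.eq_X_add_C_of_natDegree_le_one hQ]
    simp only [Polynomial.eval_add, Polynomial.eval_mul, Polynomial.eval_C, Polynomial.eval_X]
    congr 1
    push_cast
    ring
  rw [← e] at h1
  have h2 := (mul_le_mul_of_nonneg_right h (norm_nonneg _)).trans h1
  rwa [inv_mul_le_iff₀ hε, mul_one] at h2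

end Pool.Agent.MP_357fb4_an
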