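import Pool.Agent.MP_357fb4_an.Nu
import Pool.Agent.MP_357fb4_an.WeylX1

/-!
Weyl sums and covering by short intervals.
-/

open scoped BigOperators Classical ComplexConjugate Polynomial
open Finset Filter MeasureTheory Topology

noncomputable section

namespace Pool.Agent.MP_357fb4_an

theorem w1 {d : ℕ} (hd : 1 ≤ d) {ε : ℝ} (hε : 0 < ε) : ∃ Ω η : ℝ, 0 < η ∧ ∀ L : ℕ, Ω ≤ L →
    ∀ Q : ℝ[X], Q.natDegree ≤ d → Ω ≤ |Q.coeff d| * (L : ℝ) ^ d →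
      |Q.coeff d| * (L : ℝ) ^ (d - 1) ≤ η → ‖𝔼 x ∈ range L, ec (Q.eval (x : ℝ))‖ ≤ ε := by
  induction d, hd using Nat.le_induction generalizing ε with
  | base =>
    refine ⟨ε⁻¹, 1 / 2, by norm_num, fun L _ Q hQ h1 h2 => weyl_lin hQ 0 ?_ hε ?_⟩
    · simpa using h2
    · simpa using h1
  | succ d hd ih =>
    obtain ⟨Ω₁, η₁, hη₁, H⟩ := ih (ε := ε ^ 2 / 8) (by positivity)
    obtain ⟨κ, hκ0, hκ1, hκε⟩ : ∃ κ : ℝ, 0 < κ ∧ κ ≤ 1 ∧ κ ≤ ε / 4 :=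
      ⟨min 1 (ε / 4), by positivity, min_le_left _ _, min_le_right _ _⟩
    obtain ⟨σ, hσ0, hσ⟩ : ∃ σ : ℝ, 0 < σ ∧ σ = ε ^ 2 / 32 := ⟨_, by positivity, rfl⟩
    refine ⟨max (max Ω₁ (2 * |Ω₁| / (σ * κ))) (max (1 / κ) (1 / (σ * κ))), η₁ / (d + 1),
      by positivity, fun L hL Q hQ h1 h2 => ?_⟩
    simp only [max_le_iff] at hL h1
    obtain ⟨⟨hL1, -⟩, hL2, hL3⟩ := hL
    replace h1 := h1.1.2
    rw [div_le_iff₀ (by positivity)] at hL2 hL3 h1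
    rw [Nat.add_sub_cancel, le_div_iff₀ (by positivity)] at h2
    have hL0 : (0 : ℝ) < L := by
      by_contra hc
      nlinarith
    have hM1 : (⌊κ * L⌋₊ : ℝ) ≤ κ * L := Nat.floor_le (by positivity)
    have hM : 1 ≤ ⌊κ * L⌋₊ := Nat.le_floor (by push_cast; linarith)
    have hM2 : κ * L ≤ 2 * ⌊κ * L⌋₊ := by
      have := Nat.lt_floor_add_one (κ * L)
      have h3 : (1 : ℝ) ≤ ⌊κ * L⌋₊ := by exact_mod_cast hM
      linarith
    generalize ⌊κ * L⌋₊ = M at hM hM1 hM2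
    have hM0 : (0 : ℝ) < M := by exact_mod_cast hM
    have hm1 : (⌊σ * M⌋₊ : ℝ) ≤ σ * M := Nat.floor_le (by positivity)
    have hm2 := Nat.lt_floor_add_one (σ * M)
    generalize ⌊σ * M⌋₊ = m at hm1 hm2
    refine weyl_step Q (m := m) hM hε.le ?_ ?_ fun a b ha hb hab => ?_
    · rw [div_le_iff₀ hL0]
      nlinarith
    · rw [div_le_iff₀ hM0, show ε ^ 2 / 8 = 4 * σ by rw [hσ]; ring]
      nlinarith
    · obtain ⟨g1, g2⟩ := weyl_diff hQ (a : ℝ) (b : ℝ)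
      have ha' : (a : ℝ) < M := by exact_mod_cast ha
      have hb' : (b : ℝ) < M := by exact_mod_cast hb
      have a0 : (0 : ℝ) ≤ a := Nat.cast_nonneg _
      have b0 : (0 : ℝ) ≤ b := Nat.cast_nonneg _
      have u1 : |(a : ℝ) - b| ≤ L := by
        rw [abs_le]
        constructor <;> nlinarith
      have u2 : σ * κ * L / 2 ≤ |(a : ℝ) - b| := by
        have : σ * κ * L / 2 ≤ m + 1 := by nlinarith
        rcases hab with hab | hab
        · have h3 : (a : ℝ) + m + 1 ≤ b := by exact_mod_cast hab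
          exact le_abs.2 (Or.inr (by linarith))
        · have h3 : (b : ℝ) + m + 1 ≤ a := by exact_mod_cast hab
          exact le_abs.2 (Or.inl (by linarith))
      have hd1 : (1 : ℝ) ≤ d + 1 := by linarith [(Nat.cast_nonneg d : (0 : ℝ) ≤ d)]
      refine H L hL1 _ g1 ?_ ?_ <;> rw [g2, abs_mul, abs_mul, abs_of_pos (by positivity)]
      · calc Ω₁ ≤ |Ω₁| := le_abs_self _
          _ ≤ 1 * (σ * κ * L / 2) * |Q.coeff (d + 1)| * (L : ℝ) ^ d := by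
            rw [pow_succ] at h1
            linarith
          _ ≤ _ := by gcongr
      · calc _ ≤ (d + 1) * (L : ℝ) * |Q.coeff (d + 1)| * (L : ℝ) ^ (d - 1) := by gcongr
          _ = |Q.coeff (d + 1)| * ((L : ℝ) ^ (d - 1) * L) * (d + 1) := by ring
          _ ≤ η₁ := by rwa [← pow_succ, Nat.sub_add_cancel hd]

theorem w3 {d : ℕ} (hd : 1 ≤ d) {ε : ℝ} (hε : 0 < ε) : ∃ H : ℕ, ∀ δ : ℝ, 0 < δ → ∃ Ω : ℕ,
    ∀ L : ℕ, Ω ≤ L → ∀ Q : ℝ[X], Q.natDegree ≤ d →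
      (∀ k : ℕ, 1 ≤ k → k ≤ H → ∀ n : ℤ, δ ≤ |k * Q.coeff d - n|) →
        ‖𝔼 x ∈ range L, ec (Q.eval (x : ℝ))‖ ≤ ε := by
  induction d, hd using Nat.le_induction generalizing ε with
  | base =>
    refine ⟨1, fun δ hδ => ⟨⌈ε⁻¹ / δ⌉₊, fun L hL Q hQ h => ?_⟩⟩
    refine weyl_lin hQ (round (Q.coeff 1)) (abs_sub_round _) hε ?_
    have h1 := h 1 le_rfl le_rfl (round (Q.coeff 1))
    rw [Nat.cast_one, one_mul] at h1
    have h2 := Nat.ceil_le.1 hL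
    rw [div_le_iff₀' hδ] at h2
    exact h2.trans (mul_le_mul_of_nonneg_right h1 (Nat.cast_nonneg _))
  | succ d hd ih =>
    obtain ⟨H₁, H⟩ := ih (ε := ε ^ 2 / 8) (by positivity)
    obtain ⟨M, hM⟩ := exists_nat_gt (8 / ε ^ 2)
    have hM0 : (0 : ℝ) < M := lt_trans (by positivity) hM
    refine ⟨H₁ * ((d + 1) * M), fun δ hδ => ?_⟩
    obtain ⟨Ω₁, H2⟩ := H δ hδ
    refine ⟨max Ω₁ ⌈4 * M / ε⌉₊, fun L hL Q hQ h => ?_⟩
    obtain ⟨hL1, hL2⟩ := max_le_iff.1 hL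
    replace hL2 := Nat.ceil_le.1 hL2
    have hL0 : (0 : ℝ) < L := lt_of_lt_of_le (by positivity) hL2
    rw [div_le_iff₀ hε] at hL2
    rw [div_lt_iff₀ (by positivity)] at hM
    refine weyl_step Q (M := M) (m := 0) (by exact_mod_cast hM0) hε.le ?_ ?_
      fun a b ha hb hab => ?_
    · rw [div_le_iff₀ hL0]
      linarith
    · rw [div_le_iff₀ hM0]
      push_cast
      linarith
    · obtain ⟨g1, g2⟩ := weyl_diff hQ (a : ℝ) (b : ℝ)
      refine H2 L hL1 _ g1 fun k hk1 hk2 n => ?_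
      have key : ∀ j : ℕ, 1 ≤ j → j ≤ M → ∀ n : ℤ,
          δ ≤ |k * ((d + 1) * j * Q.coeff (d + 1)) - n| := fun j hj1 hj2 n => by
        have := h (k * ((d + 1) * j)) (Nat.mul_pos hk1 (Nat.mul_pos d.succ_pos hj1))
          (Nat.mul_le_mul hk2 (Nat.mul_le_mul_left _ hj2)) n
        push_cast at this
        rwa [mul_assoc] at this
      rw [g2]
      rcases hab with hab | hab
      · have := key (b - a) (by omega) (by omega) (-n)
        rw [Nat.cast_sub (by omega), ← abs_neg] at this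
        convert this using 2
        push_cast
        ring
      · have := key (a - b) (by omega) (by omega) n
        rwa [Nat.cast_sub (by omega)] at this

theorem w2 {d : ℕ} (hd : 1 ≤ d) {θ : ℝ} (hθ : Irrational θ) {ε : ℝ} (hε : 0 < ε) : ∃ Ω : ℕ,
    ∀ L : ℕ, Ω ≤ L → ∀ Q : ℝ[X], Q.natDegree ≤ d → Q.coeff d = θ →
      ‖𝔼 x ∈ range L, ec (Q.eval (x : ℝ))‖ ≤ ε := by
  obtain ⟨H, hH⟩ := w3 hd hε
  have key : ∀ H : ℕ, ∃ δ : ℝ, 0 < δ ∧ ∀ k : ℕ, 1 ≤ k → k ≤ H → ∀ n : ℤ, δ ≤ |k * θ - n| := by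
    intro H
    induction H with
    | zero => exact ⟨1, one_pos, fun k h1 h2 => by omega⟩
    | succ H ih =>
      obtain ⟨δ, hδ, h⟩ := ih
      have hi : Irrational (((H + 1 : ℕ) : ℝ) * θ) := hθ.natCast_mul H.succ_ne_zero
      refine ⟨min δ |((H + 1 : ℕ) : ℝ) * θ - round (((H + 1 : ℕ) : ℝ) * θ)|,
        lt_min hδ (abs_pos.2 (sub_ne_zero.2 (hi.ne_int _))), fun k h1 h2 n => ?_⟩
      rcases Nat.lt_or_ge k (H + 1) with h3 | h3
      · exact (min_le_left _ _).trans (h k h1 (by omega) n)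
      · rw [le_antisymm h2 h3]
        exact (min_le_right _ _).trans (round_le _ n)
  obtain ⟨δ, hδ, h⟩ := key H
  obtain ⟨Ω, hΩ⟩ := hH δ hδ
  exact ⟨Ω, fun L hL Q hQ e => hΩ L hL Q hQ (by rwa [e])⟩

theorem weyl_cover (f : ℕ → ℂ) (hf : ∀ n, ‖f n‖ ≤ 1) (Y₂ : ℕ) {ε η : ℝ} (hε : 0 ≤ ε) (hη : 0 ≤ η)
    (hη1 : η ≤ 1) (k : ℕ) : ∀ Y₁ : ℕ, Y₂ - Y₁ = k →
      (∀ y : ℕ, Y₁ < y → y ≤ Y₂ → ∃ l : ℕ, 1 ≤ l ∧ (l : ℝ) ≤ η * y ∧
        ‖𝔼 x ∈ range l, f (y + x)‖ ≤ ε) →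
      ‖∑ n ∈ Ioc Y₁ Y₂, f n / n‖ ≤ 2 * (ε + η) * ∑ n ∈ Ioc Y₁ Y₂, (1 : ℝ) / n + η := by
  induction k using Nat.strong_induction_on with
  | _ k ih =>
    intro Y₁ hk h
    rcases Nat.lt_or_ge Y₁ Y₂ with hY | hY
    swap
    · simpa [Ioc_eq_empty_of_le hY] using hη
    obtain ⟨l, hl1, hl2, hl3⟩ := h (Y₁ + 1) (by omega) hY
    have hy : (0 : ℝ) < (Y₁ + 1 : ℕ) := by positivity
    have hl0 : (0 : ℝ) < l := by exact_mod_cast hl1
    rcases Nat.lt_or_ge Y₂ (Y₁ + l) with hc | hc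
    · have h1 : ‖∑ n ∈ Ioc Y₁ Y₂, f n / n‖ ≤ η := by
        refine (norm_sum_le _ _).trans ((sum_le_card_nsmul _ _ (1 / (Y₁ + 1 : ℕ) : ℝ)
          fun n hn => ?_).trans ?_)
        · rw [norm_div, Complex.norm_natCast]
          have : ((Y₁ + 1 : ℕ) : ℝ) ≤ n := by exact_mod_cast (mem_Ioc.1 hn).1
          gcongr
          exact hf n
        · rw [Nat.card_Ioc, nsmul_eq_mul, mul_one_div, div_le_iff₀ hy]
          refine le_trans ?_ hl2
          exact_mod_cast (by omega : Y₂ - Y₁ ≤ l)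
      have h2 : 0 ≤ 2 * (ε + η) * ∑ n ∈ Ioc Y₁ Y₂, (1 : ℝ) / n := by positivity
      linarith
    · have h1 := ih (Y₂ - (Y₁ + l)) (by omega) (Y₁ + l) rfl fun y h1 h2 => h y (by omega) h2
      have e : Ioc Y₁ (Y₁ + l) = Ico (Y₁ + 1) (Y₁ + 1 + l) := by
        ext x
        simp only [mem_Ioc, mem_Ico]
        omega
      rw [← sum_Ioc_consecutive _ (Nat.le_add_right Y₁ l) hc,
        ← sum_Ioc_consecutive _ (Nat.le_add_right Y₁ l) hc, e, sum_Ico_eq_sum_range,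
        sum_Ico_eq_sum_range, Nat.add_sub_cancel_left, mul_add, add_assoc]
      refine (norm_add_le _ _).trans (add_le_add ?_ h1)
      generalize Y₁ + 1 = y at hl2 hl3 hy
      have e2 : ∑ x ∈ range l, f (y + x) / ((y + x : ℕ) : ℂ) = ∑ x ∈ range l,
          ((𝔼 x ∈ range l, f (y + x)) / y +
            f (y + x) * ((1 / ((y + x : ℕ) : ℝ) - 1 / y : ℝ) : ℂ)) := by
        have hl : (l : ℂ) ≠ 0 := by exact_mod_cast hl0.ne'
        rw [sum_add_distrib, sum_const, card_range, expect_eq_sum_div_card, card_range,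
          nsmul_eq_mul, ← mul_div_assoc, mul_div_cancel₀ _ hl, sum_div, ← sum_add_distrib]
        refine sum_congr rfl fun x _ => ?_
        push_cast
        ring
      rw [e2, mul_sum]
      refine (norm_sum_le _ _).trans (sum_le_sum fun x hx => (norm_add_le _ _).trans ?_)
      have hx1 : (x : ℝ) ≤ η * y := le_trans (by exact_mod_cast (mem_range.1 hx).le) hl2
      have hx0 : (0 : ℝ) ≤ x := Nat.cast_nonneg _
      have hx2 : (x : ℝ) ≤ y := hx1.trans (mul_le_of_le_one_left hy.le hη1)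
      have g1 : ‖(𝔼 x ∈ range l, f (y + x)) / y‖ ≤ 2 * ε * (1 / ((y + x : ℕ) : ℝ)) := by
        rw [norm_div, Complex.norm_natCast, mul_one_div, Nat.cast_add,
          div_le_div_iff₀ hy (by positivity)]
        nlinarith [norm_nonneg (𝔼 x ∈ range l, f (y + x))]
      have g2 : ‖f (y + x) * ((1 / ((y + x : ℕ) : ℝ) - 1 / y : ℝ) : ℂ)‖ ≤
          η * (1 / ((y + x : ℕ) : ℝ)) := by
        rw [norm_mul, Complex.norm_real, Real.norm_eq_abs]
        refine (mul_le_of_le_one_left (abs_nonneg _) (hf _)).trans ?_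
        rw [Nat.cast_add, show 1 / ((y : ℝ) + x) - 1 / y = -(x / y * (1 / (y + x))) by
          field_simp; ring, abs_neg, abs_of_nonneg (by positivity)]
        gcongr
        rwa [div_le_iff₀ hy]
      have g3 : 0 ≤ η * (1 / ((y + x : ℕ) : ℝ)) := by positivity
      linarith

theorem cover (f : ℕ → ℂ) (hf : ∀ n, ‖f n‖ ≤ 1) (Y₁ Y₂ : ℕ) {ε η : ℝ} (hε : 0 ≤ ε) (hη : 0 ≤ η)
    (hη1 : η ≤ 1) (h : ∀ y : ℕ, Y₁ < y → y ≤ Y₂ → ∃ l : ℕ, 1 ≤ l ∧ (l : ℝ) ≤ η * y ∧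
      ‖𝔼 x ∈ range l, f (y + x)‖ ≤ ε) :
    ‖∑ n ∈ Ioc Y₁ Y₂, f n / n‖ ≤ 2 * (ε + η) * (1 + Real.log Y₂) + η := by
  refine (weyl_cover f hf Y₂ hε hη hη1 (Y₂ - Y₁) Y₁ rfl h).trans ?_
  have := harm_le' Y₁ Y₂
  gcongr

/-- Averages over a block split along progressions. -/
theorem block_ap (f : ℕ → ℂ) {Q : ℕ} (l y : ℕ) {ε : ℝ} (hQ : 1 ≤ Q)
    (h : ∀ c, c < Q → ‖𝔼 x ∈ range l, f (y + c + Q * x)‖ ≤ ε) :
    ‖𝔼 x ∈ range (Q * l), f (y + x)‖ ≤ ε := by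
  have e : ∀ l : ℕ, ∑ x ∈ range (Q * l), f (y + x) =
      ∑ c ∈ range Q, ∑ x ∈ range l, f (y + c + Q * x) := by
    intro l
    induction l with
    | zero => simp
    | succ l ih =>
      rw [Nat.mul_succ, sum_range_add, ih, ← sum_add_distrib]
      refine sum_congr rfl fun c _ => ?_
      rw [sum_range_succ]
      congr 2
      ring
  have e2 : 𝔼 x ∈ range (Q * l), f (y + x) =
      𝔼 c ∈ range Q, 𝔼 x ∈ range l, f (y + c + Q * x) := by
    simp only [expect_eq_sum_div_card, card_range]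
    rw [e, ← sum_div, div_div, Nat.cast_mul, mul_comm]
  rw [e2]
  exact (norm_expect_le' _ _).trans
    (expect_le (nonempty_range_iff.2 (by omega)) fun c hc => h c (mem_range.1 hc))

theorem ti_of_loc {φ : ℕ → ℂ} (hφ : ∀ n, ‖φ n‖ ≤ 1)
    (h : ∀ q : ℕ, 1 ≤ q → ∃ Q : ℕ, 1 ≤ Q ∧ q ∣ Q ∧ ∀ ε η : ℝ, 0 < ε → 0 < η → ∀ᶠ y : ℕ in atTop,
      ∃ l : ℕ, 1 ≤ l ∧ (Q * l : ℝ) ≤ η * y ∧ ∀ c, c < Q →
        ‖𝔼 x ∈ range l, φ (y + c + Q * x)‖ ≤ ε) : TI φ := by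
  intro q χ hq hχ hp ε hε
  obtain ⟨Q, hQ, ⟨k, rfl⟩, h⟩ := h q hq
  obtain ⟨η, hη0, hη1, hηε⟩ : ∃ η : ℝ, 0 < η ∧ η ≤ 1 ∧ η ≤ ε / 13 :=
    ⟨min 1 (ε / 13), by positivity, min_le_left _ _, min_le_right _ _⟩
  obtain ⟨y₀, hy⟩ := eventually_atTop.1 (h η η hη0 hη0)
  have hper : ∀ n j : ℕ, χ (n + q * j) = χ n := by
    intro n j
    induction j with
    | zero => simp
    | succ j ih => rw [Nat.mul_succ, ← add_assoc, hp, ih]
  filter_upwards [eventually_ge_atTop y₀, eventually_ge_atTop 3] with N h1 h2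
  have hlog : 1 ≤ Real.log N := by
    rw [Real.le_log_iff_exp_le (by positivity)]
    have : (3 : ℝ) ≤ N := by exact_mod_cast h2
    linarith [Real.exp_one_lt_three]
  refine (cover (fun n => χ n * φ n) (fun n => ?_) N (N ^ 2) hη0.le hη0.le hη1
    fun y hy1 _ => ?_).trans ?_
  · rw [norm_mul]
    exact mul_le_one₀ (hχ n) (norm_nonneg _) (hφ n)
  · obtain ⟨l, hl, hl2, hl3⟩ := hy y (by omega)
    refine ⟨q * k * l, Nat.mul_pos hQ hl, by exact_mod_cast hl2,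
      block_ap (fun n => χ n * φ n) l y hQ fun c hc => ?_⟩
    simp only [mul_assoc q k, hper]
    rw [← mul_expect, norm_mul]
    simp only [← mul_assoc q k]
    exact (mul_le_of_le_one_left (norm_nonneg _) (hχ _)).trans (hl3 c hc)
  · rw [Nat.cast_pow, Real.log_pow]
    push_cast
    nlinarith

theorem rat_split {P : ℝ[X]} {j q : ℕ} (h : RatAbove P j q) : ∃ P₁ P₂ : ℝ[X], P = P₁ + P₂ ∧
    P₁.natDegree ≤ j ∧ P₁.coeff j = P.coeff j ∧
      ∀ n m : ℤ, ec (P₂.eval ((n + q * m : ℤ) : ℝ)) = ec (P₂.eval (n : ℝ)) := by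
  obtain ⟨P₁, hP₁⟩ : ∃ P₁ : ℝ[X], ∀ i, P₁.coeff i = if i ≤ j then P.coeff i else 0 :=
    ⟨∑ i ∈ range (j + 1), Polynomial.monomial i (P.coeff i), fun i => by
      simp [Polynomial.coeff_monomial, Nat.lt_succ_iff]⟩
  refine ⟨P₁, P - P₁, by ring, ?_, by rw [hP₁, if_pos le_rfl], fun n m => ?_⟩
  · rw [Polynomial.natDegree_le_iff_coeff_eq_zero]
    exact fun i hi => by rw [hP₁, if_neg hi.not_ge]
  · have h1 : ∀ i, ∃ z : ℤ, q * (P - P₁).coeff i = z := fun i => by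
      rw [Polynomial.coeff_sub, hP₁]
      split_ifs with hi
      · exact ⟨0, by simp⟩
      · simpa using h i (not_le.1 hi)
    have h2 : ∀ i : ℕ, ∃ s : ℤ, (n + q * m) ^ i = n ^ i + q * s := fun i => by
      obtain ⟨s, hs⟩ := sub_dvd_pow_sub_pow (n + q * m) n i
      exact ⟨m * s, by linear_combination hs⟩
    choose z hz using h1
    choose s hs using h2
    rw [← ec_add_int ((P - P₁).eval (n : ℝ)) (∑ i ∈ range ((P - P₁).natDegree + 1), z i * s i),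
      Polynomial.eval_eq_sum_range, Polynomial.eval_eq_sum_range, Int.cast_sum, ← sum_add_distrib]
    congr 1
    refine sum_congr rfl fun i _ => ?_
    rw [← Int.cast_pow, hs]
    push_cast
    rw [← hz]
    ring

end Pool.Agent.MP_357fb4_an
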