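import Pool.Agent.MP_357fb4_an.Glob2
import Pool.Agent.MP_357fb4_an.Weyl
import Pool.Agent.MP_357fb4_an.PairL

/-!
The total mass and the case of a slow part below the logarithm.
-/

open scoped BigOperators Classical ComplexConjugate Polynomial
open Finset Filter MeasureTheory Topology

noncomputable section

namespace Pool.Agent.MP_357fb4_an

lemma Glob3_top {W : ℝ → ℝ} {T : ℕ} (hW : Wt W T) :
    Tendsto (fun j : ℕ => W j) atTop atTop :=
  hW.top.comp tendsto_natCast_atTop_atTop

lemma Glob3_ftc {W : ℝ → ℝ} {T : ℕ} (hW : Wt W T) {j : ℕ} (hj : T ≤ j) :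
    ∫ t in (T : ℝ)..j, deriv W t = W j - W T := by
  have hj' : (T : ℝ) ≤ j := by exact_mod_cast hj
  apply intervalIntegral.integral_eq_sub_of_hasDerivAt
  · intro t ht
    rw [Set.uIcc_of_le hj'] at ht
    exact (hW.diff t ht.1).hasDerivAt
  · apply AntitoneOn.intervalIntegrable
    rw [Set.uIcc_of_le hj']
    exact hW.anti0.mono fun t ht => ht.1

theorem mass {W : ℝ → ℝ} {T : ℕ} (hW : Wt W T) :
    Tendsto (fun j => ∑ n ∈ range j, lam W T j n) atTop (𝓝 (1 / 2)) := by
  have h1 := cmp2 hW (q := 1) (c := 0) le_rfl (by simp) (r := fun _ => 0) (r' := fun _ => 0)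
    (C := 0) (fun t _ => ⟨hasDerivAt_const t 0, by simp⟩)
  have h2 := (Complex.continuous_re.tendsto 0).comp h1
  have h3 : Tendsto (fun j : ℕ => 1 / 2 - W T / 2 * (W j)⁻¹) atTop (𝓝 (1 / 2)) := by
    have := (tendsto_const_nhds (x := (1 / 2 : ℝ))).sub
      ((tendsto_const_nhds (x := W T / 2)).mul (Glob3_top hW).inv_tendsto_atTop)
    simpa using this
  have h4 := h2.add h3
  rw [Complex.zero_re, zero_add] at h4
  refine h4.congr' ?_
  filter_upwards [eventually_ge_atTop T, (Glob3_top hW).eventually_gt_atTop 0] with j hj hpos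
  simp only [Function.comp, Nat.modEq_one, if_true, ec_zero, mul_one, Nat.totient_one,
    Nat.cast_one]
  rw [intervalIntegral.integral_ofReal, Glob3_ftc hW hj, ← Complex.ofReal_sum]
  have : ((W j - W T : ℝ) : ℂ) / (2 * (W j : ℂ)) = (((W j - W T) / (2 * W j) : ℝ) : ℂ) := by
    push_cast; ring
  rw [this, ← Complex.ofReal_sub, Complex.ofReal_re]
  field_simp
  ring

/-- One coprime class. -/
lemma Glob3_cop {W : ℝ → ℝ} {T : ℕ} (hW : Wt W T) {q c : ℕ} (hq : 1 ≤ q) (hc : Nat.Coprime c q)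
    {r r' g g' : ℝ → ℝ} {C : ℝ} (hcont : ContinuousOn r' (Set.Ici (T : ℝ)))
    (hr : ∀ t : ℝ, T ≤ t → HasDerivAt r (r' t) t ∧ |t * r' t| ≤ C ∧ HasDerivAt g (g' t) t ∧
      deriv W t = g t * r' t)
    (hs : (∀ t : ℝ, T ≤ t → 0 ≤ g' t) ∨ ∀ t : ℝ, T ≤ t → g' t ≤ 0) (hg : Tendsto g atTop (𝓝 0)) :
    Tendsto (fun j : ℕ => ∑ n ∈ range j, (lam W T j n : ℂ) *
      (if n ≡ c [MOD q] then ec (r n) else 0)) atTop (𝓝 0) := by
  have h1 := cmp2 hW hq hc (r := r) (r' := r') (C := C) fun t ht => ⟨(hr t ht).1, (hr t ht).2.1⟩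
  have h2 : Tendsto (fun j : ℕ => (∫ t in (T : ℝ)..j, ((deriv W t : ℝ) : ℂ) * ec (r t)) /
      (2 * W j * q.totient)) atTop (𝓝 0) := by
    have hb : Tendsto (fun j : ℕ => (|g T| + |g j|) * (W j)⁻¹) atTop (𝓝 0) := by
      have := ((tendsto_const_nhds (x := |g T|)).add
        (hg.comp tendsto_natCast_atTop_atTop).abs).mul (Glob3_top hW).inv_tendsto_atTop
      simpa using this
    refine squeeze_zero_norm' ?_ hb
    filter_upwards [eventually_ge_atTop T, (Glob3_top hW).eventually_gt_atTop 0] with j hj hpos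
    have hj' : (T : ℝ) ≤ j := by exact_mod_cast hj
    have e1 : (∫ t in (T : ℝ)..j, ((deriv W t : ℝ) : ℂ) * ec (r t)) =
        ∫ t in (T : ℝ)..j, ((g t * r' t : ℝ) : ℂ) * ec (r t) := by
      apply intervalIntegral.integral_congr
      intro t ht
      rw [Set.uIcc_of_le hj'] at ht
      simp only [(hr t ht.1).2.2.2]
    have e2 := fdt hj' (g := g) (g' := g') (ψ := r) (ψ' := r') (fun t ht => (hr t ht.1).2.2.1)
      (hs.imp (fun h t ht => h t ht.1) fun h t ht => h t ht.1) (fun t ht => (hr t ht.1).1)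
      (hcont.mono fun t ht => ht.1)
    have ht : (1 : ℝ) ≤ q.totient := by exact_mod_cast Nat.totient_pos.2 hq
    rw [norm_div, e1, norm_mul, norm_mul, Complex.norm_real, Complex.norm_natCast,
      Real.norm_of_nonneg hpos.le, Complex.norm_ofNat, ← div_eq_mul_inv]
    refine div_le_div₀ (by positivity) e2 hpos ?_
    nlinarith
  have h3 := h1.add h2
  simpa using h3

/-- A class that is not coprime carries no large primes. -/
lemma Glob3_ncop {W : ℝ → ℝ} {T q c : ℕ} (hq : 1 ≤ q) (hT : q < T) (hc : ¬ Nat.Coprime c q)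
    (j n : ℕ) (z : ℂ) : (lam W T j n : ℂ) * (if n ≡ c [MOD q] then z else 0) = 0 := by
  by_cases h1 : n ≡ c [MOD q]
  · by_cases h2 : T ≤ n
    · by_cases h3 : n.Prime
      · exfalso
        apply hc
        have h4 : Nat.Coprime n q :=
          (Nat.Prime.coprime_iff_not_dvd h3).2 fun hd => by
            have := Nat.le_of_dvd hq hd
            omega
        have := h1.gcd_eq
        rw [Nat.Coprime, ← this]
        exact h4
      · simp [lam, th, h3]
    · simp [lam, h2]
  · simp [h1]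

theorem eq2 {W b : ℝ → ℝ} {T : ℕ} (hW : Wt W T) (h : CaseII W b) :
    Tendsto (fun j => ∑ n ∈ range j, (lam W T j n : ℂ) * ec (b n)) atTop (𝓝 0) := by
  obtain ⟨P, q, r, r', g, g', T₀, C, hq, hP, hrb, hcont, hr, hs, hg⟩ := h
  obtain ⟨P₁, P₂, hP12, hdeg, -, hper⟩ := rat_split hP
  set T' : ℕ := T + ⌈T₀⌉₊ + q + 1 with hT'
  have hTT : T ≤ T' := by omega
  have h0 : T₀ ≤ (T' : ℝ) := by
    refine (Nat.le_ceil T₀).trans ?_
    exact_mod_cast (by omega : ⌈T₀⌉₊ ≤ T')
  have hW' := hW.later hTT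
  have hsplit : ∀ n : ℕ, ec (b n) = ∑ c ∈ range q, ec (P₁.coeff 0) * ec (P₂.eval (c : ℝ)) *
      (if n ≡ c [MOD q] then ec (r n) else 0) := by
    intro n
    rw [Finset.sum_eq_single (n % q)]
    · rw [if_pos (Nat.mod_modEq n q).symm]
      have e1 : b n = P₁.coeff 0 + P₂.eval (n : ℝ) + r n := by
        rw [hrb, hP12, Polynomial.eval_add, Polynomial.eq_C_of_natDegree_le_zero hdeg]
        simp
      have e2 := hper ((n % q : ℕ) : ℤ) ((n / q : ℕ) : ℤ)
      have e3 : (((n % q : ℕ) : ℤ) + q * ((n / q : ℕ) : ℤ) : ℤ) = (n : ℤ) := by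
        exact_mod_cast Nat.mod_add_div n q
      rw [e3] at e2
      simp only [Int.cast_natCast] at e2
      rw [e1, ec_add, ec_add, e2]
    · intro c hc hne
      rw [if_neg, mul_zero]
      intro hm
      apply hne
      rw [Nat.ModEq, Nat.mod_eq_of_lt (mem_range.1 hc)] at hm
      exact hm.symm
    · intro hn
      exact absurd (mem_range.2 (Nat.mod_lt n hq)) hn
  have hmain : Tendsto (fun j => ∑ n ∈ range j, (lam W T' j n : ℂ) * ec (b n)) atTop (𝓝 0) := by
    have hcl : ∀ c ∈ range q, Tendsto (fun j : ℕ => ec (P₁.coeff 0) * ec (P₂.eval (c : ℝ)) *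
        ∑ n ∈ range j, (lam W T' j n : ℂ) * (if n ≡ c [MOD q] then ec (r n) else 0)) atTop
          (𝓝 0) := by
      intro c _
      have h1 : Tendsto (fun j : ℕ => ∑ n ∈ range j, (lam W T' j n : ℂ) *
          (if n ≡ c [MOD q] then ec (r n) else 0)) atTop (𝓝 0) := by
        by_cases hc : Nat.Coprime c q
        · exact Glob3_cop hW' hq hc (hcont.mono fun t ht => h0.trans ht)
            (fun t ht => hr t (h0.trans ht))
            (hs.imp (fun h t ht => h t (h0.trans ht)) fun h t ht => h t (h0.trans ht)) hg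
        · simp only [Glob3_ncop hq (by omega : q < T') hc, sum_const_zero]
          exact tendsto_const_nhds
      have h2 := h1.const_mul (ec (P₁.coeff 0) * ec (P₂.eval (c : ℝ)))
      rwa [mul_zero] at h2
    have := tendsto_finsetSum (range q) hcl
    rw [sum_const_zero] at this
    refine this.congr fun j => ?_
    simp only [hsplit, mul_sum]
    rw [sum_comm]
    refine sum_congr rfl fun n _ => sum_congr rfl fun c _ => by ring
  have := (lam_later hW hTT fun n => ec (b n)).add hmain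
  simpa using this

end Pool.Agent.MP_357fb4_an
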