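import Pool.Agent.MP_357fb4_an.Basic

/-!
Extension of Hardy fields.
-/

open scoped BigOperators Classical ComplexConjugate Polynomial
open Finset Filter MeasureTheory Topology

noncomputable section

namespace Pool.Agent.MP_357fb4_an

/-- Germs at infinity of real functions. -/
abbrev HExtG : Type := Germ (atTop : Filter ℝ) ℝ

lemma HExt_nhds {f g : ℝ → ℝ} (h : f =ᶠ[atTop] g) : ∀ᶠ t in atTop, f =ᶠ[𝓝 t] g := by
  obtain ⟨T, hT⟩ := eventually_atTop.1 h
  filter_upwards [eventually_gt_atTop T] with t ht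
  filter_upwards [Ioi_mem_nhds ht] with s hs
  exact hT s (le_of_lt hs)

lemma HExt_deriv_congr {f g : ℝ → ℝ} (h : f =ᶠ[atTop] g) : deriv f =ᶠ[atTop] deriv g := by
  filter_upwards [HExt_nhds h] with t ht
  exact ht.deriv_eq

lemma HExt_diff_congr {f g : ℝ → ℝ} (h : f =ᶠ[atTop] g)
    (hf : ∀ᶠ t in atTop, DifferentiableAt ℝ f t) : ∀ᶠ t in atTop, DifferentiableAt ℝ g t := by
  filter_upwards [HExt_nhds h, hf] with t ht h2
  exact h2.congr_of_eventuallyEq ht.symm

/-- The derivative on germs. -/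
def HExtD (g : HExtG) : HExtG :=
  g.liftOn (fun f => (↑(deriv f) : HExtG)) (fun _ _ h => Germ.coe_eq.2 (HExt_deriv_congr h))

lemma HExtD_coe (f : ℝ → ℝ) : HExtD (↑f) = ↑(deriv f) := rfl

/-- Germs of eventually differentiable functions. -/
def HExtE (g : HExtG) : Prop :=
  ∀ f : ℝ → ℝ, (↑f : HExtG) = g → ∀ᶠ t in atTop, DifferentiableAt ℝ f t

lemma HExtE_coe (f : ℝ → ℝ) : HExtE (↑f) ↔ ∀ᶠ t in atTop, DifferentiableAt ℝ f t :=
  ⟨fun h => h f rfl, fun h _ hk => HExt_diff_congr (Germ.coe_eq.1 hk).symm h⟩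

lemma HExt_unit_coe (f : ℝ → ℝ) : IsUnit (↑f : HExtG) ↔ ∀ᶠ t in atTop, f t ≠ 0 := by
  constructor
  · intro h
    obtain ⟨k, hk⟩ := h.exists_right_inv
    induction k using Germ.inductionOn with
    | h k =>
      rw [← Germ.coe_mul, ← Germ.coe_one, Germ.coe_eq] at hk
      filter_upwards [hk] with t ht h0
      simp [h0] at ht
  · intro h
    refine IsUnit.of_mul_eq_one (↑(fun t => (f t)⁻¹) : HExtG) ?_
    rw [← Germ.coe_mul, ← Germ.coe_one, Germ.coe_eq]
    filter_upwards [h] with t ht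
    simp [ht]

lemma HExtE_add {a b : HExtG} (ha : HExtE a) (hb : HExtE b) :
    HExtE (a + b) ∧ HExtD (a + b) = HExtD a + HExtD b := by
  induction a using Germ.inductionOn with
  | h f =>
  induction b using Germ.inductionOn with
  | h g =>
  rw [HExtE_coe] at ha hb
  rw [← Germ.coe_add, HExtE_coe, HExtD_coe, HExtD_coe, HExtD_coe, ← Germ.coe_add, Germ.coe_eq]
  refine ⟨?_, ?_⟩
  · filter_upwards [ha, hb] with t h1 h2 using h1.add h2
  · filter_upwards [ha, hb] with t h1 h2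
    exact deriv_add h1 h2

lemma HExtE_mul {a b : HExtG} (ha : HExtE a) (hb : HExtE b) :
    HExtE (a * b) ∧ HExtD (a * b) = HExtD a * b + a * HExtD b := by
  induction a using Germ.inductionOn with
  | h f =>
  induction b using Germ.inductionOn with
  | h g =>
  rw [HExtE_coe] at ha hb
  rw [← Germ.coe_mul, HExtE_coe, HExtD_coe, HExtD_coe, HExtD_coe, ← Germ.coe_mul,
    ← Germ.coe_mul, ← Germ.coe_add, Germ.coe_eq]
  refine ⟨?_, ?_⟩
  · filter_upwards [ha, hb] with t h1 h2 using h1.mul h2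
  · filter_upwards [ha, hb] with t h1 h2
    exact deriv_mul h1 h2

lemma HExtE_const (c : ℝ) :
    HExtE (↑(fun _ : ℝ => c) : HExtG) ∧ HExtD (↑(fun _ : ℝ => c) : HExtG) = 0 := by
  rw [HExtE_coe, HExtD_coe, ← Germ.coe_zero, Germ.coe_eq]
  refine ⟨Eventually.of_forall fun t => differentiableAt_const c, Eventually.of_forall fun t => ?_⟩
  simp

lemma HExtE_zero : HExtE 0 ∧ HExtD 0 = 0 := HExtE_const 0

lemma HExtE_one : HExtE 1 ∧ HExtD 1 = 0 := HExtE_const 1

lemma HExtE_pow {y : HExtG} (hy : HExtE y) (n : ℕ) :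
    HExtE (y ^ (n + 1)) ∧ HExtD (y ^ (n + 1)) = ((n + 1 : ℕ) : HExtG) * HExtD y * y ^ n := by
  induction n with
  | zero => simpa using hy
  | succ n ih =>
    have := HExtE_mul ih.1 hy
    rw [← pow_succ] at this
    refine ⟨this.1, ?_⟩
    rw [this.2, ih.2]
    push_cast
    ring

lemma HExtE_div {g p q : HExtG} (hp : HExtE p) (hq : HExtE q) (hu : IsUnit q) (h : g * q = p) :
    HExtE g := by
  induction g using Germ.inductionOn with
  | h f =>
  induction p using Germ.inductionOn with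
  | h p =>
  induction q using Germ.inductionOn with
  | h q =>
  rw [HExtE_coe] at hp hq ⊢
  rw [HExt_unit_coe] at hu
  rw [← Germ.coe_mul, Germ.coe_eq] at h
  refine HExt_diff_congr (f := fun t => p t / q t) ?_ ?_
  · filter_upwards [h, hu] with t h1 h2
    rw [div_eq_iff h2]
    exact h1.symm
  · filter_upwards [hp, hq, hu] with t h1 h2 h3
    exact h1.div h2 h3

/-- Rolle: an invertible derivative makes the germ invertible. -/
lemma HExt_rolle {g : HExtG} (hg : HExtE g) (hu : IsUnit (HExtD g)) : IsUnit g := by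
  induction g using Germ.inductionOn with
  | h f =>
  rw [HExtE_coe] at hg
  rw [HExtD_coe, HExt_unit_coe] at hu
  rw [HExt_unit_coe]
  obtain ⟨T, hT⟩ := eventually_atTop.1 (hg.and hu)
  by_cases h0 : ∃ a, T ≤ a ∧ f a = 0
  · obtain ⟨a, ha, hfa⟩ := h0
    filter_upwards [eventually_gt_atTop a] with b hb hfb
    have hc : ContinuousOn f (Set.Icc a b) := fun x hx =>
      (hT x (ha.trans hx.1)).1.continuousAt.continuousWithinAt
    obtain ⟨c, hc1, hc2⟩ := exists_deriv_eq_zero hb hc (hfa.trans hfb.symm)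
    exact (hT c (ha.trans hc1.1.le)).2 hc2
  · filter_upwards [eventually_ge_atTop T] with b hb hfb
    exact h0 ⟨b, hb, hfb⟩

/-- A germ with zero derivative is zero or invertible. -/
lemma HExt_flat {g : HExtG} (hg : HExtE g) (hu : HExtD g = 0) : g = 0 ∨ IsUnit g := by
  induction g using Germ.inductionOn with
  | h f =>
  rw [HExtE_coe] at hg
  rw [HExtD_coe, ← Germ.coe_zero, Germ.coe_eq] at hu
  rw [HExt_unit_coe, ← Germ.coe_zero, Germ.coe_eq]
  obtain ⟨T, hT⟩ := eventually_atTop.1 (hg.and hu)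
  have hc : ∀ b, T + 1 ≤ b → f b = f (T + 1) := by
    intro b hb
    refine IsOpen.is_const_of_deriv_eq_zero (s := Set.Ioi T) isOpen_Ioi isPreconnected_Ioi
      (fun x hx => (hT x (le_of_lt hx)).1.differentiableWithinAt)
      (fun x hx => (hT x (le_of_lt hx)).2) ?_ ?_
    · show T < b
      linarith
    · show T < T + 1
      linarith
  by_cases h0 : f (T + 1) = 0
  · left
    filter_upwards [eventually_ge_atTop (T + 1)] with b hb
    rw [hc b hb, h0]; rfl
  · right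
    filter_upwards [eventually_ge_atTop (T + 1)] with b hb
    rw [hc b hb]; exact h0

/-- Subrings of germs that are Hardy fields. -/
def HExtGood (M : Subring HExtG) : Prop :=
  (∀ g ∈ M, g ≠ 0 → ∃ h ∈ M, g * h = 1) ∧ ∀ g ∈ M, HExtE g ∧ HExtD g ∈ M

/-- Polynomials of degree below n in y with coefficients in M. -/
def HExtN (M : Subring HExtG) (y : HExtG) (n : ℕ) : Submodule M HExtG :=
  Submodule.span M {z | ∃ i < n, z = y ^ i}

lemma HExtN_pow (M : Subring HExtG) (y : HExtG) {i n : ℕ} (h : i < n) : y ^ i ∈ HExtN M y n :=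
  Submodule.subset_span ⟨i, h, rfl⟩

lemma HExtN_mul (M : Subring HExtG) (y : HExtG) {n : ℕ} {c z : HExtG} (hc : c ∈ M)
    (hz : z ∈ HExtN M y n) : c * z ∈ HExtN M y n :=
  (HExtN M y n).smul_mem (⟨c, hc⟩ : M) hz

lemma HExtN_mono (M : Subring HExtG) (y : HExtG) {m n : ℕ} (h : m ≤ n) :
    HExtN M y m ≤ HExtN M y n :=
  Submodule.span_mono fun _ ⟨i, hi, hz⟩ => ⟨i, lt_of_lt_of_le hi h, hz⟩

lemma HExtN_succ (M : Subring HExtG) (y : HExtG) {n : ℕ} {z : HExtG}
    (hz : z ∈ HExtN M y (n + 1)) : ∃ c ∈ M, ∃ w ∈ HExtN M y n, z = c * y ^ n + w := by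
  have hs : {z | ∃ i < n + 1, z = y ^ i} = insert (y ^ n) {z | ∃ i < n, z = y ^ i} := by
    ext z
    simp only [Set.mem_ofPred_eq, Set.mem_insert_iff]
    constructor
    · rintro ⟨i, hi, rfl⟩
      rcases Nat.lt_succ_iff_lt_or_eq.1 hi with h | h
      · exact Or.inr ⟨i, h, rfl⟩
      · exact Or.inl (by rw [h])
    · rintro (rfl | ⟨i, hi, rfl⟩)
      · exact ⟨n, Nat.lt_succ_self n, rfl⟩
      · exact ⟨i, Nat.lt_succ_of_lt hi, rfl⟩
  unfold HExtN at hz
  rw [hs, Submodule.mem_span_insert] at hz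
  obtain ⟨c, w, hw, rfl⟩ := hz
  exact ⟨c, c.2, w, hw, rfl⟩

lemma HExtN_Dpow {M : Subring HExtG} {y : HExtG} (hy : HExtE y) (hy' : HExtD y ∈ M) (n : ℕ) :
    HExtE (y ^ n) ∧ HExtD (y ^ n) ∈ HExtN M y n := by
  cases n with
  | zero =>
    rw [pow_zero, HExtE_one.2]
    exact ⟨HExtE_one.1, Submodule.zero_mem _⟩
  | succ n =>
    refine ⟨(HExtE_pow hy n).1, ?_⟩
    rw [(HExtE_pow hy n).2]
    exact HExtN_mul M y (M.mul_mem (natCast_mem M _) hy') (HExtN_pow M y (Nat.lt_succ_self n))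

lemma HExtN_D {M : Subring HExtG} (hM : HExtGood M) {y : HExtG} (hy : HExtE y)
    (hy' : HExtD y ∈ M) {n : ℕ} {z : HExtG} (hz : z ∈ HExtN M y n) :
    HExtE z ∧ HExtD z ∈ HExtN M y n := by
  induction hz using Submodule.span_induction with
  | mem z hz =>
    obtain ⟨i, hi, rfl⟩ := hz
    exact ⟨(HExtN_Dpow hy hy' i).1, HExtN_mono M y hi.le (HExtN_Dpow hy hy' i).2⟩
  | zero =>
    rw [HExtE_zero.2]
    exact ⟨HExtE_zero.1, Submodule.zero_mem _⟩
  | add a b _ _ ha hb =>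
    rw [(HExtE_add ha.1 hb.1).2]
    exact ⟨(HExtE_add ha.1 hb.1).1, Submodule.add_mem _ ha.2 hb.2⟩
  | smul c a ha' ha =>
    have hc := hM.2 c c.2
    have := HExtE_mul hc.1 ha.1
    change HExtE ((c : HExtG) * a) ∧ HExtD ((c : HExtG) * a) ∈ _
    rw [this.2]
    exact ⟨this.1, Submodule.add_mem _ (HExtN_mul M y hc.2 ha') (HExtN_mul M y c.2 ha.2)⟩

lemma HExtN_unit {M : Subring HExtG} (hM : HExtGood M) {y : HExtG} (hy : HExtE y)
    (hy' : HExtD y ∈ M) (n : ℕ) : ∀ z ∈ HExtN M y n, z = 0 ∨ IsUnit z := by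
  induction n with
  | zero =>
    intro z hz
    left
    have : {z | ∃ i < 0, z = y ^ i} = (∅ : Set HExtG) := by
      ext z; simp
    unfold HExtN at hz
    rw [this, Submodule.span_empty] at hz
    exact (Submodule.mem_bot _).1 hz
  | succ n ih =>
    intro z hz
    obtain ⟨c, hc, w, hw, rfl⟩ := HExtN_succ M y hz
    by_cases hc0 : c = 0
    · rw [hc0, zero_mul, zero_add]
      exact ih w hw
    obtain ⟨d, hd, hcd⟩ := hM.1 c hc hc0
    have hdw : d * w ∈ HExtN M y n := HExtN_mul M y hd hw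
    have h1 := HExtN_Dpow (M := M) hy hy' n
    have h2 := HExtN_D hM hy hy' hdw
    have h3 := HExtE_add h1.1 h2.1
    have h4 : HExtD (y ^ n + d * w) ∈ HExtN M y n := by
      rw [h3.2]; exact Submodule.add_mem _ h1.2 h2.2
    have h5 : y ^ n + d * w = 0 ∨ IsUnit (y ^ n + d * w) := by
      rcases ih _ h4 with h | h
      · exact HExt_flat h3.1 h
      · exact Or.inr (HExt_rolle h3.1 h)
    have h6 : c * y ^ n + w = c * (y ^ n + d * w) := by
      rw [mul_add, ← mul_assoc, hcd, one_mul]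
    rw [h6]
    rcases h5 with h | h
    · left; rw [h, mul_zero]
    · right; exact (IsUnit.of_mul_eq_one d hcd).mul h

lemma HExt_adjoin_iff (M : Subring HExtG) (y z : HExtG) :
    z ∈ Algebra.adjoin M {y} ↔ ∃ n, z ∈ HExtN M y n := by
  constructor
  · intro hz
    rw [Algebra.adjoin_singleton_eq_range_aeval] at hz
    obtain ⟨P, rfl⟩ := hz
    refine ⟨P.natDegree + 1, ?_⟩
    change Polynomial.aeval y P ∈ _
    rw [Polynomial.aeval_eq_sum_range]
    exact Submodule.sum_mem _ fun i hi =>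
      Submodule.smul_mem _ _ (HExtN_pow M y (Finset.mem_range.1 hi))
  · rintro ⟨n, hz⟩
    have : HExtN M y n ≤ Subalgebra.toSubmodule (Algebra.adjoin M {y}) := by
      refine Submodule.span_le.2 ?_
      rintro _ ⟨i, _, rfl⟩
      exact Subalgebra.pow_mem _ (Algebra.self_mem_adjoin_singleton M y) i
    exact this hz

/-- The invertible fractions of a subring of germs. -/
def HExtFr (A : Subring HExtG) : Subring HExtG where
  carrier := {g | ∃ p ∈ A, ∃ q ∈ A, IsUnit q ∧ g * q = p}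
  mul_mem' := by
    rintro a b ⟨p, hp, q, hq, hu, h⟩ ⟨p', hp', q', hq', hu', h'⟩
    exact ⟨p * p', A.mul_mem hp hp', q * q', A.mul_mem hq hq', hu.mul hu', by
      rw [← h, ← h']; ring⟩
  one_mem' := ⟨1, A.one_mem, 1, A.one_mem, isUnit_one, one_mul 1⟩
  add_mem' := by
    rintro a b ⟨p, hp, q, hq, hu, h⟩ ⟨p', hp', q', hq', hu', h'⟩
    exact ⟨p * q' + p' * q, A.add_mem (A.mul_mem hp hq') (A.mul_mem hp' hq), q * q',
      A.mul_mem hq hq', hu.mul hu', by rw [← h, ← h']; ring⟩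
  zero_mem' := ⟨0, A.zero_mem, 1, A.one_mem, isUnit_one, zero_mul 1⟩
  neg_mem' := by
    rintro a ⟨p, hp, q, hq, hu, h⟩
    exact ⟨-p, A.neg_mem hp, q, hq, hu, by rw [← h]; ring⟩

lemma HExtFr_le (A : Subring HExtG) : A ≤ HExtFr A := fun g hg =>
  ⟨g, hg, 1, A.one_mem, isUnit_one, mul_one g⟩

lemma HExtFr_good {A : Subring HExtG} (h1 : ∀ g ∈ A, g = 0 ∨ IsUnit g)
    (h2 : ∀ g ∈ A, HExtE g ∧ HExtD g ∈ A) : HExtGood (HExtFr A) := by
  constructor
  · rintro g ⟨p, hp, q, hq, hu, h⟩ hg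
    have hp0 : IsUnit p := by
      rcases h1 p hp with h0 | h0
      · exact absurd ((hu.mul_left_eq_zero).1 (h.trans h0)) hg
      · exact h0
    obtain ⟨r, hr⟩ := hp0.exists_right_inv
    refine ⟨q * r, ⟨q, hq, p, hp, hp0, ?_⟩, ?_⟩
    · rw [mul_assoc, mul_comm r p, hr, mul_one]
    · rw [← mul_assoc, h, hr]
  · rintro g ⟨p, hp, q, hq, hu, h⟩
    have hg : HExtE g := HExtE_div (h2 p hp).1 (h2 q hq).1 hu h
    refine ⟨hg, HExtD p * q - p * HExtD q,
      A.sub_mem (A.mul_mem (h2 p hp).2 hq) (A.mul_mem hp (h2 q hq).2), q * q, A.mul_mem hq hq,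
      hu.mul hu, ?_⟩
    have := (HExtE_mul hg (h2 q hq).1).2
    rw [h] at this
    rw [this, ← h]
    ring

lemma HExt_adj {M : Subring HExtG} (hM : HExtGood M) {y : HExtG} (hy : HExtE y)
    (hy' : HExtD y ∈ M) : ∃ M', HExtGood M' ∧ M ≤ M' ∧ y ∈ M' := by
  refine ⟨HExtFr (Algebra.adjoin M {y}).toSubring, HExtFr_good ?_ ?_, ?_, ?_⟩
  · intro g hg
    obtain ⟨n, hn⟩ := (HExt_adjoin_iff M y g).1 hg
    exact HExtN_unit hM hy hy' n g hn
  · intro g hg
    obtain ⟨n, hn⟩ := (HExt_adjoin_iff M y g).1 hg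
    exact ⟨(HExtN_D hM hy hy' hn).1, (HExt_adjoin_iff M y _).2 ⟨n, (HExtN_D hM hy hy' hn).2⟩⟩
  · intro g hg
    exact HExtFr_le _ ((Algebra.adjoin M {y}).algebraMap_mem (⟨g, hg⟩ : M))
  · exact HExtFr_le _ (Algebra.self_mem_adjoin_singleton M y)

lemma HExt_max {R : Subring HExtG} (hR : HExtGood R) :
    ∃ M, HExtGood M ∧ R ≤ M ∧ ∀ y, HExtE y → HExtD y ∈ M → y ∈ M := by
  obtain ⟨M, hRM, hM⟩ := zorn_le_nonempty₀ {M | HExtGood M} (by
    intro c hc hch M0 hM0
    have hd : DirectedOn (· ≤ ·) c := hch.directedOn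
    have hm : ∀ g, g ∈ sSup c ↔ ∃ s ∈ c, g ∈ s := fun g =>
      Subring.mem_sSup_of_directedOn ⟨M0, hM0⟩ hd
    refine ⟨sSup c, ⟨?_, ?_⟩, fun z hz => le_sSup hz⟩
    · intro g hg hg0
      obtain ⟨s, hs, hgs⟩ := (hm g).1 hg
      obtain ⟨h, hh, hgh⟩ := (hc hs).1 g hgs hg0
      exact ⟨h, (hm h).2 ⟨s, hs, hh⟩, hgh⟩
    · intro g hg
      obtain ⟨s, hs, hgs⟩ := (hm g).1 hg
      exact ⟨((hc hs).2 g hgs).1, (hm _).2 ⟨s, hs, ((hc hs).2 g hgs).2⟩⟩) R hR
  refine ⟨M, hM.prop, hRM, fun y hy hy' => ?_⟩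
  obtain ⟨M', h1, h2, h3⟩ := HExt_adj hM.prop hy hy'
  exact hM.le_of_ge h1 h2 h3

lemma HExt_sign {f : ℝ → ℝ} (hd : ∀ᶠ t in atTop, DifferentiableAt ℝ f t)
    (hu : ∀ᶠ t in atTop, f t ≠ 0) : (∀ᶠ t in atTop, 0 < f t) ∨ ∀ᶠ t in atTop, f t < 0 := by
  obtain ⟨T, hT⟩ := eventually_atTop.1 (hd.and hu)
  have hc : ∀ b, ContinuousOn f (Set.Icc T b) := fun b x hx =>
    (hT x hx.1).1.continuousAt.continuousWithinAt
  rcases lt_or_gt_of_ne (hT T le_rfl).2 with h | h
  · right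
    filter_upwards [eventually_ge_atTop T] with b hb
    by_contra hneg
    obtain ⟨x, hx, hx0⟩ := intermediate_value_Icc hb (hc b) ⟨h.le, not_lt.1 hneg⟩
    exact (hT x hx.1).2 hx0
  · left
    filter_upwards [eventually_ge_atTop T] with b hb
    by_contra hneg
    obtain ⟨x, hx, hx0⟩ := intermediate_value_Icc' hb (hc b) ⟨not_lt.1 hneg, h.le⟩
    exact (hT x hx.1).2 hx0

lemma HExt_inv {M : Subring HExtG} (hM : HExtGood M) {f : ℝ → ℝ} (hf : (↑f : HExtG) ∈ M) :
    (↑(fun t => (f t)⁻¹) : HExtG) ∈ M := by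
  by_cases h0 : (↑f : HExtG) = 0
  · have : (↑(fun t => (f t)⁻¹) : HExtG) = 0 := by
      rw [← Germ.coe_zero, Germ.coe_eq] at h0 ⊢
      filter_upwards [h0] with t ht
      simp [ht]
    rw [this]; exact M.zero_mem
  · obtain ⟨k, hk, hfk⟩ := hM.1 _ hf h0
    induction k using Germ.inductionOn with
    | h k =>
    have : (↑(fun t => (f t)⁻¹) : HExtG) = ↑k := by
      rw [← Germ.coe_mul, ← Germ.coe_one, Germ.coe_eq] at hfk
      rw [Germ.coe_eq]
      filter_upwards [hfk] with t ht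
      exact (eq_inv_of_mul_eq_one_right ht).symm
    rw [this]; exact hk

lemma HExt_unit_of_ne {M : Subring HExtG} (hM : HExtGood M) {f : ℝ → ℝ} (hf : (↑f : HExtG) ∈ M)
    (h0 : (↑f : HExtG) ≠ 0) : ∀ᶠ t in atTop, f t ≠ 0 := by
  obtain ⟨k, _, hfk⟩ := hM.1 _ hf h0
  exact (HExt_unit_coe f).1 (IsUnit.of_mul_eq_one k hfk)

theorem hext (R : Subring (Germ (atTop : Filter ℝ) ℝ)) (h1 : ∀ g ∈ R, g ≠ 0 → ∃ h ∈ R, g * h = 1)
    (h2 : ∀ f : ℝ → ℝ, (↑f : Germ (atTop : Filter ℝ) ℝ) ∈ R →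
      (∀ᶠ t in atTop, DifferentiableAt ℝ f t) ∧ (↑(deriv f) : Germ (atTop : Filter ℝ) ℝ) ∈ R) :
    ∃ H : HF, ∀ f : ℝ → ℝ, (↑f : Germ (atTop : Filter ℝ) ℝ) ∈ R → f ∈ H.car := by
  have hR : HExtGood R := by
    refine ⟨h1, fun g hg => ?_⟩
    induction g using Germ.inductionOn with
    | h f => exact ⟨(HExtE_coe f).2 (h2 f hg).1, (h2 f hg).2⟩
  obtain ⟨M, hM, hRM, hmax⟩ := HExt_max hR
  refine ⟨⟨{f | (↑f : HExtG) ∈ M}, ?_, ?_, ?_, ?_, ?_, ?_, ?_, ?_, ?_, ?_⟩, fun f hf => hRM hf⟩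
  · intro f g hf hfg
    have : (↑g : HExtG) = ↑f := Germ.coe_eq.2 hfg.symm
    show (↑g : HExtG) ∈ M
    rw [this]; exact hf
  · intro f g hf hg
    exact M.add_mem hf hg
  · intro f g hf hg
    exact M.mul_mem hf hg
  · intro f hf
    exact HExt_inv hM hf
  · intro c
    refine hmax _ (HExtE_const c).1 ?_
    rw [(HExtE_const c).2]; exact M.zero_mem
  · refine hmax _ ((HExtE_coe _).2 (Eventually.of_forall fun t => differentiableAt_id)) ?_
    have : HExtD (↑(fun t : ℝ => t) : HExtG) = 1 := by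
      rw [HExtD_coe, ← Germ.coe_one, Germ.coe_eq]
      exact Eventually.of_forall fun t => by simp
    rw [this]; exact M.one_mem
  · intro f hf
    exact (hM.2 _ hf).2
  · intro f hf
    by_cases h0 : (↑f : HExtG) = 0
    · have : (↑(fun t => Real.log (f t)) : HExtG) = 0 := by
        rw [← Germ.coe_zero, Germ.coe_eq] at h0 ⊢
        filter_upwards [h0] with t ht
        simp [ht]
      show (↑(fun t => Real.log (f t)) : HExtG) ∈ M
      rw [this]; exact M.zero_mem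
    · have hu := HExt_unit_of_ne hM hf h0
      have hd := (HExtE_coe f).1 (hM.2 _ hf).1
      refine hmax _ ((HExtE_coe _).2 ?_) ?_
      · filter_upwards [hu, hd] with t a b using b.log a
      · have : HExtD (↑(fun t => Real.log (f t)) : HExtG) =
            HExtD (↑f) * (↑(fun t => (f t)⁻¹) : HExtG) := by
          rw [HExtD_coe, HExtD_coe, ← Germ.coe_mul, Germ.coe_eq]
          filter_upwards [hu, hd] with t a b
          rw [deriv.log b a, div_eq_mul_inv]
          rfl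
        rw [this]
        exact M.mul_mem (hM.2 _ hf).2 (HExt_inv hM hf)
  · intro f hf
    exact (HExtE_coe f).1 (hM.2 _ hf).1
  · intro f hf
    by_cases h0 : (↑f : HExtG) = 0
    · left
      rw [← Germ.coe_zero, Germ.coe_eq] at h0
      exact h0
    · right
      exact HExt_sign ((HExtE_coe f).1 (hM.2 _ hf).1) (HExt_unit_of_ne hM hf h0)

end Pool.Agent.MP_357fb4_an
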