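import Pool.Agent.MP_357fb4_an.Nu

/-!
Combinatorial part of the decomposition of sums over primes.
-/

open scoped BigOperators Classical ComplexConjugate Polynomial
open Finset Filter MeasureTheory Topology

noncomputable section

namespace Pool.Agent.MP_357fb4_an.PrimeSum

/-- The weight of the cofactor. -/
def gw (m : ℕ) : ℝ := 1 / ((m.primeFactors.card : ℝ) + 1)

/-- The total weight of the admissible factorisations. -/
def cw (B : ℕ → ℕ → Prop) (n : ℕ) : ℝ :=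
  ∑ p ∈ n.primeFactors.filter (fun p => 1 < n / p ∧ B p (n / p)), gw (n / p)

lemma gw_nonneg (m : ℕ) : 0 ≤ gw m := by unfold gw; positivity

lemma gw_le (m : ℕ) : gw m ≤ 1 := by
  rw [gw, div_le_one (by positivity)]
  linarith [Nat.cast_nonneg (α := ℝ) m.primeFactors.card]

lemma pf_eq {n p : ℕ} (h : p ∈ n.primeFactors) :
    n.primeFactors = insert p (n / p).primeFactors := by
  obtain ⟨h1, ⟨m, rfl⟩, h3⟩ := Nat.mem_primeFactors.1 h
  rw [Nat.mul_div_cancel_left _ h1.pos, Nat.primeFactors_mul h1.ne_zero (right_ne_zero_of_mul h3),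
    h1.primeFactors, insert_eq]

lemma cw_nonneg (B : ℕ → ℕ → Prop) (n : ℕ) : 0 ≤ cw B n := sum_nonneg fun _ _ => gw_nonneg _

lemma cw_le (B : ℕ → ℕ → Prop) (n : ℕ) : cw B n ≤ 1 := by
  calc cw B n ≤ ∑ p ∈ n.primeFactors, gw (n / p) :=
        sum_le_sum_of_subset_of_nonneg (filter_subset _ _) fun _ _ _ => gw_nonneg _
    _ ≤ ∑ _p ∈ n.primeFactors, 1 / (n.primeFactors.card : ℝ) := by
        refine sum_le_sum fun p hp => one_div_le_one_div_of_le ?_ ?_
        · exact_mod_cast card_pos.2 ⟨p, hp⟩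
        · have := card_insert_le p (n / p).primeFactors
          rw [← pf_eq hp] at this
          exact_mod_cast this
    _ ≤ 1 := by
        rw [sum_const, nsmul_eq_mul, mul_one_div]
        exact div_self_le_one _

lemma cw_prime (B : ℕ → ℕ → Prop) {n : ℕ} (h : n.Prime) : cw B n = 0 := by
  rw [cw, h.primeFactors, filter_singleton, if_neg, sum_empty]
  simp [Nat.div_self h.pos]

lemma cw_one (B : ℕ → ℕ → Prop) {n : ℕ} (h1 : 1 < n) (h2 : ¬n.Prime) (h3 : Squarefree n)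
    (h4 : ∀ p m, 1 ≤ p → n = p * m → B p m) : cw B n = 1 := by
  have hc : (0 : ℝ) < n.primeFactors.card := by
    exact_mod_cast card_pos.2 (Nat.nonempty_primeFactors.2 h1)
  rw [cw, filter_true_of_mem, sum_congr rfl (g := fun _ => 1 / (n.primeFactors.card : ℝ)),
    sum_const, nsmul_eq_mul, mul_one_div, div_self hc.ne']
  · intro p hp
    have e := pf_eq hp
    obtain ⟨a1, a2, -⟩ := Nat.mem_primeFactors.1 hp
    have : p ∉ (n / p).primeFactors := fun h =>
      Nat.squarefree_iff_prime_squarefree.1 h3 p a1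
        (Nat.mul_dvd_of_dvd_div a2 (Nat.dvd_of_mem_primeFactors h))
    rw [gw, e, card_insert_of_notMem this, Nat.cast_add_one]
  · intro p hp
    obtain ⟨a1, ⟨m, rfl⟩, a3⟩ := Nat.mem_primeFactors.1 hp
    rw [Nat.mul_div_cancel_left _ a1.pos]
    refine ⟨?_, h4 p m a1.pos rfl⟩
    have m0 : m ≠ 0 := right_ne_zero_of_mul a3
    have m1 : m ≠ 1 := by
      rintro rfl
      exact h2 (by simpa using a1)
    omega

/-- The pointwise identity with its error. -/
lemma point (B : ℕ → ℕ → Prop) {z n : ℕ} (hz : 1 ≤ z) (hn : z < n) {E : Prop} [Decidable E]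
    (hB : ¬E → ∀ p m, 1 ≤ p → n = p * m → B p m) :
    |(if Rough 0 z n then 1 - cw B n else 0) - (if n.Prime then 1 else 0)| ≤
      (if Rough 0 z n ∧ ¬Squarefree n then 1 else 0) + (if Rough 0 z n ∧ E then 1 else 0) := by
  have a1 := cw_nonneg B n
  have a2 := cw_le B n
  by_cases hp : n.Prime
  · rw [if_pos (rough_prime hp hn), if_pos hp, cw_prime B hp]
    simp only [sub_zero, sub_self, abs_zero]
    positivity
  rw [if_neg hp, sub_zero]
  by_cases hr : Rough 0 z n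
  · simp only [hr, if_true, true_and]
    rw [abs_of_nonneg (by linarith)]
    by_cases h3 : Squarefree n
    · by_cases hE : E
      · simp [h3, hE, a1]
      · simp [h3, hE, cw_one B (by omega) hp h3 (hB hE)]
    · rw [if_pos h3]
      split_ifs <;> linarith
  · simp [hr]

/-- Passing from integers to factorisations. -/
lemma conv (B : ℕ → ℕ → Prop) {z N : ℕ} (hz : 2 ≤ z)
    (hB : ∀ p m, 1 ≤ p → B p m → N < p * m ∧ p * m ≤ N ^ 2) (φ : ℕ → ℂ) :
    ∑ n ∈ Ioc N (N ^ 2), ((if Rough 0 z n then cw B n else 0 : ℝ) : ℂ) * φ n / n =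
      ∑ p ∈ Ioc z (N ^ 2), ∑ m ∈ Ioc z (N ^ 2),
        if (p.Prime ∧ Rough 0 z p) ∧ Rough 0 z m ∧ B p m then
          (gw m : ℂ) * φ (p * m) / (p * m) else 0 := by
  have e1 : ∀ n : ℕ, ((if Rough 0 z n then cw B n else 0 : ℝ) : ℂ) * φ n / n =
      ∑ p ∈ n.primeFactors.filter (fun p => Rough 0 z n ∧ 1 < n / p ∧ B p (n / p)),
        (gw (n / p) : ℂ) * φ n / n := by
    intro n
    by_cases hr : Rough 0 z n
    · simp only [hr, if_true, true_and, cw, Complex.ofReal_sum, sum_mul, sum_div]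
    · simp [hr]
  simp only [e1]
  rw [sum_sigma', ← sum_product', ← sum_filter]
  refine sum_nbij' (fun x => (x.2, x.1 / x.2)) (fun y => ⟨y.1 * y.2, y.1⟩) ?_ ?_ ?_ ?_ ?_
  · rintro ⟨n, p⟩ h
    simp only [mem_sigma, mem_filter, mem_Ioc, Nat.mem_primeFactors, mem_product] at h ⊢
    obtain ⟨⟨-, a2⟩, ⟨a3, ⟨m, rfl⟩, a5⟩, a6, a7, a8⟩ := h
    rw [Nat.mul_div_cancel_left _ a3.pos] at a7 a8 ⊢
    rw [Nat.cast_mul, rough_mul] at a6
    exact ⟨⟨⟨a6.1.lt a3.ne_one hz, (Nat.le_mul_of_pos_right _ (by omega)).trans a2⟩,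
      a6.2.lt (by omega) hz, (Nat.le_mul_of_pos_left _ a3.pos).trans a2⟩, ⟨a3, a6.1⟩, a6.2, a8⟩
  · rintro ⟨p, m⟩ h
    simp only [mem_sigma, mem_filter, mem_Ioc, Nat.mem_primeFactors, mem_product] at h ⊢
    obtain ⟨⟨-, a1, -⟩, ⟨a3, a4⟩, a5, a6⟩ := h
    rw [Nat.mul_div_cancel_left _ a3.pos, Nat.cast_mul, rough_mul]
    exact ⟨hB p m a3.pos a6, ⟨a3, dvd_mul_right _ _, mul_ne_zero a3.ne_zero (by omega)⟩,
      ⟨a4, a5⟩, by omega, a6⟩
  · rintro ⟨n, p⟩ h
    simp only [mem_sigma, mem_filter, Nat.mem_primeFactors] at h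
    simp only [Nat.mul_div_cancel' h.2.1.2.1]
  · rintro ⟨p, m⟩ h
    simp only [mem_filter] at h
    simp only [Nat.mul_div_cancel_left _ h.2.1.1.pos]
  · rintro ⟨n, p⟩ h
    simp only [mem_sigma, mem_filter, Nat.mem_primeFactors] at h
    simp only [← Nat.cast_mul, Nat.mul_div_cancel' h.2.1.2.1]

/-- Rough numbers that are not squarefree are rare. -/
lemma nsq {z N X : ℕ} (hz : 1 ≤ z) (hX : z ≤ X) :
    ∑ n ∈ Ioc N X, (if Rough 0 z n ∧ ¬Squarefree n then 1 else 0 : ℝ) / n ≤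
      (1 + Real.log X) / z := by
  calc _ = ∑ n ∈ (Ioc N X).filter (fun n : ℕ => Rough 0 z n ∧ ¬Squarefree n), (1 : ℝ) / n := by
        rw [sum_filter]
        exact sum_congr rfl fun n _ => by split_ifs <;> simp
    _ ≤ ∑ n ∈ (Ioc z X ×ˢ Ioc 0 X).image (fun y => y.1 * y.1 * y.2), (1 : ℝ) / n := by
        refine sum_le_sum_of_subset_of_nonneg (fun n hn => ?_) fun _ _ _ => by positivity
        simp only [mem_filter, mem_Ioc, Nat.squarefree_iff_prime_squarefree, not_forall,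
          not_not] at hn
        obtain ⟨⟨a1, a2⟩, a3, p, a4, k, rfl⟩ := hn
        have k0 : 0 < k := Nat.pos_of_mul_pos_left (by omega : 0 < p * p * k)
        have a5 : z < p := by
          by_contra hc
          refine a3 p (mem_filter.2 ⟨mem_Ioc.2 ⟨a4.pos, not_lt.1 hc⟩, a4⟩) ?_
          exact_mod_cast (dvd_mul_right p p).mul_right k
        refine mem_image.2 ⟨(p, k), mem_product.2 ⟨mem_Ioc.2 ⟨a5, le_trans ?_ a2⟩,
          mem_Ioc.2 ⟨k0, le_trans ?_ a2⟩⟩, rfl⟩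
        · exact Nat.le_of_dvd (by omega) ((dvd_mul_right p p).mul_right k)
        · exact Nat.le_of_dvd (by omega) (dvd_mul_left k _)
    _ ≤ ∑ y ∈ Ioc z X ×ˢ Ioc 0 X, (1 : ℝ) / (y.1 * y.1 * y.2 : ℕ) :=
        sum_image_le_of_nonneg fun _ _ => by positivity
    _ = (∑ p ∈ Ioc z X, ((p : ℝ) ^ 2)⁻¹) * ∑ k ∈ Ioc 0 X, (1 : ℝ) / k := by
        rw [sum_mul_sum, sum_product]
        refine sum_congr rfl fun p _ => sum_congr rfl fun k _ => ?_
        push_cast
        ring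
    _ ≤ (z : ℝ)⁻¹ * (1 + Real.log X) := by
        refine mul_le_mul ((sum_Ioc_inv_sq_le_sub (by omega) hX).trans ?_) (harm_le' 0 X)
          (sum_nonneg fun _ _ => by positivity) (by positivity)
        exact sub_le_self _ (by positivity)
    _ = _ := by ring

lemma ind_eq (w z : ℕ) (n : ℤ) : (if Rough w z n then 1 else 0 : ℝ) = Vp w z * nuI w z n := by
  unfold nuI
  split_ifs
  · exact (mul_inv_cancel₀ (Vp_pos w z).ne').symm
  · simp

/-- Removing the normalisation. -/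
lemma unnorm {z w : ℕ} (s : Finset ℕ) (φ : ℕ → ℂ) {V A C : ℝ} (hV : Vp 0 z ≤ V)
    (h1 : ‖∑ n ∈ s, ((nuI 0 z n - nuI 0 w n : ℝ) : ℂ) * φ n / n‖ ≤ A)
    (h2 : ‖∑ n ∈ s, ((if Rough 0 w n then 1 else 0 : ℝ) : ℂ) * φ n / n‖ ≤ C) :
    ‖∑ n ∈ s, ((if Rough 0 z n then 1 else 0 : ℝ) : ℂ) * φ n / n‖ ≤ V * (A + (Vp 0 w)⁻¹ * C) := by
  have hw := Vp_pos 0 w
  have hz := Vp_pos 0 z
  have e : ∑ n ∈ s, ((if Rough 0 z n then 1 else 0 : ℝ) : ℂ) * φ n / n =
      (Vp 0 z : ℂ) * (∑ n ∈ s, ((nuI 0 z n - nuI 0 w n : ℝ) : ℂ) * φ n / n +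
        (((Vp 0 w)⁻¹ : ℝ) : ℂ) * ∑ n ∈ s, ((if Rough 0 w n then 1 else 0 : ℝ) : ℂ) * φ n / n) := by
    rw [mul_sum, ← sum_add_distrib, mul_sum]
    refine sum_congr rfl fun n _ => ?_
    have : (Vp 0 w : ℂ) ≠ 0 := by exact_mod_cast hw.ne'
    rw [ind_eq, ind_eq]
    push_cast
    field_simp
    ring
  rw [e, norm_mul, Complex.norm_real, Real.norm_of_nonneg hz.le]
  refine mul_le_mul hV ((norm_add_le _ _).trans (add_le_add h1 ?_)) (norm_nonneg _)
    (hz.le.trans hV)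
  rw [norm_mul, Complex.norm_real, Real.norm_of_nonneg (by positivity)]
  exact mul_le_mul_of_nonneg_left h2 (by positivity)

/-- The mass of the rough numbers in a range. -/
lemma mass {z w a b : ℕ} (ha : 1 ≤ a) (hab : a ≤ b) {V A : ℝ} (hV : Vp 0 z ≤ V)
    (h1 : ‖∑ n ∈ Ioc a b, ((nuI 0 z n - nuI 0 w n : ℝ) : ℂ) * 1 / n‖ ≤ A) :
    ∑ n ∈ Ioc a b, (if Rough 0 z n then 1 else 0 : ℝ) / n ≤
      V * (A + (Vp 0 w)⁻¹ * (Real.log b - Real.log a)) := by
  have e : ∀ y : ℕ, ‖∑ n ∈ Ioc a b, ((if Rough 0 y n then 1 else 0 : ℝ) : ℂ) * 1 / n‖ =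
      ∑ n ∈ Ioc a b, (if Rough 0 y n then 1 else 0 : ℝ) / n := by
    intro y
    rw [← Real.norm_of_nonneg (r := ∑ n ∈ Ioc a b, (if Rough 0 y n then 1 else 0 : ℝ) / n)
      (sum_nonneg fun n _ => by positivity), ← Complex.norm_real]
    simp only [mul_one, Complex.ofReal_sum, Complex.ofReal_div, Complex.ofReal_natCast]
  rw [← e]
  refine unnorm _ (fun _ => 1) hV h1 ?_
  rw [e]
  refine le_trans (sum_le_sum fun n _ => ?_) (harm_le ha hab)
  split_ifs
  · exact le_rfl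
  · rw [zero_div]
    positivity

end Pool.Agent.MP_357fb4_an.PrimeSum
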