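import Pool.Agent.MP_357fb4_an.MajLog
import Pool.Agent.MP_357fb4_an.PrimeSumX

/-!
Sums over primes from type I and type II information.
-/

open scoped BigOperators Classical ComplexConjugate Polynomial
open Finset Filter MeasureTheory Topology

noncomputable section

namespace Pool.Agent.MP_357fb4_an

namespace PrimeSum

/-- Splitting into cells. -/
lemma cells (φ : ℕ → ℂ) {z X K : ℕ} (idx : ℕ → ℕ) (hidx : ∀ p ∈ Ioc z X, idx p < K)
    (C : ℕ → ℕ → Prop) {ε : ℝ}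
    (h : ∀ u v : ℕ → ℂ, (∀ n, ‖u n‖ ≤ 1) → (∀ n, ‖v n‖ ≤ 1) → (∀ n, u n ≠ 0 → Rough 0 z n) →
      (∀ n, v n ≠ 0 → Rough 0 z n) →
        ‖∑ a ∈ Ioc z X, ∑ m ∈ Ioc z X, u a * v m * φ (a * m) / (a * m)‖ ≤ ε) :
    ‖∑ p ∈ Ioc z X, ∑ m ∈ Ioc z X,
      if (p.Prime ∧ Rough 0 z p) ∧ Rough 0 z m ∧ C (idx p) m then
        (gw m : ℂ) * φ (p * m) / (p * m) else 0‖ ≤ K * ε := by
  have e : (∑ p ∈ Ioc z X, ∑ m ∈ Ioc z X,
      if (p.Prime ∧ Rough 0 z p) ∧ Rough 0 z m ∧ C (idx p) m then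
        (gw m : ℂ) * φ (p * m) / (p * m) else 0) =
      ∑ i ∈ range K, ∑ p ∈ Ioc z X, ∑ m ∈ Ioc z X,
        (if (p.Prime ∧ Rough 0 z p) ∧ idx p = i then 1 else 0) *
          (if Rough 0 z m ∧ C i m then (gw m : ℂ) else 0) * φ (p * m) / (p * m) := by
    rw [sum_comm (s := range K)]
    refine sum_congr rfl fun p hp => ?_
    rw [sum_eq_single_of_mem (idx p) (mem_range.2 (hidx p hp))]
    · refine sum_congr rfl fun m _ => ?_
      by_cases h1 : p.Prime ∧ Rough 0 z p <;> by_cases h2 : Rough 0 z m ∧ C (idx p) m <;>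
        simp only [h1, h2, and_self, and_true, and_false, if_true, if_false, one_mul, zero_mul,
          mul_zero, zero_div]
    · intro i _ hi
      simp [hi.symm]
  rw [e]
  refine (norm_sum_le _ _).trans ((sum_le_card_nsmul _ _ ε fun i _ => ?_).trans (by simp))
  refine h _ _ (fun n => ?_) (fun n => ?_) (fun n hn => ?_) fun n hn => ?_
  · split_ifs <;> simp
  · split_ifs
    · rw [Complex.norm_real, Real.norm_of_nonneg (gw_nonneg n)]
      exact gw_le n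
    · simp
  · exact (ite_ne_right_iff.1 hn).1.1.2
  · exact (ite_ne_right_iff.1 hn).1.1

/-- The estimate for one value of N. -/
lemma core (φ : ℕ → ℂ) (hφ : ∀ n, ‖φ n‖ ≤ 1) {N z w k : ℕ} {t V A C ε : ℝ} (ht : 1 < t)
    (hk : k ≠ 0) (htk : t ^ k = N) (hz : 2 ≤ z) (hzN : z ≤ N) (hV : Vp 0 z ≤ V)
    (h1 : ‖∑ n ∈ Ioc N (N ^ 2), ((nuI 0 z n - nuI 0 w n : ℝ) : ℂ) * φ n / n‖ ≤ A)
    (h2 : ‖∑ n ∈ Ioc N (N ^ 2), ((if Rough 0 w n then 1 else 0 : ℝ) : ℂ) * φ n / n‖ ≤ C)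
    (h3 : ∀ a b : ℕ, N ≤ a → b ≤ N ^ 2 →
      ‖∑ n ∈ Ioc a b, ((nuI 0 z n - nuI 0 w n : ℝ) : ℂ) * 1 / n‖ ≤ A)
    (h4 : ∀ u v : ℕ → ℂ, (∀ n, ‖u n‖ ≤ 1) → (∀ n, ‖v n‖ ≤ 1) → (∀ n, u n ≠ 0 → Rough 0 z n) →
      (∀ n, v n ≠ 0 → Rough 0 z n) →
        ‖∑ a ∈ Ioc z (N ^ 2), ∑ m ∈ Ioc z (N ^ 2), u a * v m * φ (a * m) / (a * m)‖ ≤ ε) :
    ‖∑ p ∈ (Ioc N (N ^ 2)).filter Nat.Prime, φ p / p‖ ≤
      V * (A + (Vp 0 w)⁻¹ * C) + (2 * k + 1 : ℕ) * ε + ((1 + Real.log (N ^ 2 : ℕ)) / z +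
        2 * (V * (A + (Vp 0 w)⁻¹ * Real.log (2 * t)))) := by
  have t0 : 0 < t := by linarith
  have tN : t ≤ N := htk ▸ le_self_pow₀ ht.le hk
  have N0 : (0 : ℝ) < N := by linarith
  have hw := Vp_pos 0 w
  have V0 : 0 ≤ V := (Vp_pos 0 z).le.trans hV
  have hex : ∀ p : ℕ, ∃ i : ℕ, 1 ≤ p → t ^ i ≤ p ∧ p < t ^ (i + 1) := by
    intro p
    by_cases hp : 1 ≤ p
    · obtain ⟨i, hi⟩ := exists_nat_pow_near (x := (p : ℝ)) (by exact_mod_cast hp) ht
      exact ⟨i, fun _ => hi⟩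
    · exact ⟨0, fun h => absurd h hp⟩
  choose idx hidx using hex
  set Cc : ℕ → ℕ → Prop := fun i m => (N : ℝ) < t ^ i * m ∧ t ^ (i + 1) * m ≤ (N : ℝ) ^ 2
  set B : ℕ → ℕ → Prop := fun p m => Cc (idx p) m
  have hB : ∀ p m, 1 ≤ p → B p m → N < p * m ∧ p * m ≤ N ^ 2 := by
    intro p m hp hb
    obtain ⟨a1, a2⟩ := hidx p hp
    have m0 : (0 : ℝ) ≤ m := Nat.cast_nonneg m
    constructor
    · exact_mod_cast hb.1.trans_le (mul_le_mul_of_nonneg_right a1 m0)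
    · exact_mod_cast (mul_le_mul_of_nonneg_right a2.le m0).trans hb.2
  have hE : ∀ n : ℕ, ¬((n : ℝ) ≤ N * t ∨ (N : ℝ) ^ 2 / t < n) →
      ∀ p m, 1 ≤ p → n = p * m → B p m := by
    rintro _ hn p m hp rfl
    obtain ⟨a1, a2⟩ := hidx p hp
    have m0 : (0 : ℝ) ≤ m := Nat.cast_nonneg m
    rw [not_or, not_le, not_lt, le_div_iff₀ t0, Nat.cast_mul] at hn
    constructor
    · refine lt_of_mul_lt_mul_right (hn.1.trans_le ?_) t0.le
      rw [mul_right_comm, ← pow_succ]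
      exact mul_le_mul_of_nonneg_right a2.le m0
    · refine le_trans ?_ hn.2
      rw [pow_succ, mul_right_comm]
      exact mul_le_mul_of_nonneg_right (mul_le_mul_of_nonneg_right a1 m0) t0.le
  have b1 := unnorm _ φ hV h1 h2
  have b2 := cells φ (K := 2 * k + 1) idx (fun p hp => by
    obtain ⟨a1, a2⟩ := mem_Ioc.1 hp
    have a3 : t ^ idx p ≤ t ^ (k * 2) := by
      rw [pow_mul, htk]
      exact (hidx p (by omega)).1.trans (by exact_mod_cast a2)
    have := (pow_le_pow_iff_right₀ ht).1 a3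
    omega) Cc h4
  rw [← conv B hz hB φ] at b2
  have b3 := nsq (N := N) (X := N ^ 2) (by omega : 1 ≤ z) (hzN.trans (Nat.le_self_pow two_ne_zero N))
  have c1 : N ≤ ⌊N * t⌋₊ := Nat.le_floor (le_mul_of_one_le_right N0.le ht.le)
  have c2 : ⌊N * t⌋₊ ≤ N ^ 2 := Nat.floor_le_of_le (by push_cast; nlinarith)
  have c0 : (N : ℝ) ≤ (N : ℝ) ^ 2 / t := by rw [le_div_iff₀ t0]; nlinarith
  have c3 : N ≤ ⌊(N : ℝ) ^ 2 / t⌋₊ := Nat.le_floor c0
  have c4 : ⌊(N : ℝ) ^ 2 / t⌋₊ ≤ N ^ 2 :=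
    Nat.floor_le_of_le (by push_cast; exact div_le_self (by positivity) ht.le)
  have b4 := mass (by omega) c1 hV (h3 _ _ le_rfl c2)
  have b5 := mass (by omega) c4 hV (h3 _ _ c3 le_rfl)
  have d1 : Real.log ⌊N * t⌋₊ - Real.log N ≤ Real.log (2 * t) := by
    have : (N : ℝ) ≤ ⌊N * t⌋₊ := by exact_mod_cast c1
    rw [← Real.log_div (by linarith) N0.ne']
    refine Real.log_le_log (div_pos (by linarith) N0) ?_
    rw [div_le_iff₀ N0]
    nlinarith [Nat.floor_le (mul_pos N0 t0).le]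
  have d2 : Real.log (N ^ 2 : ℕ) - Real.log ⌊(N : ℝ) ^ 2 / t⌋₊ ≤ Real.log (2 * t) := by
    have a1 : (N : ℝ) ≤ ⌊(N : ℝ) ^ 2 / t⌋₊ := by exact_mod_cast c3
    have a2 := Nat.lt_floor_add_one ((N : ℝ) ^ 2 / t)
    rw [div_lt_iff₀ t0] at a2
    push_cast
    rw [← Real.log_div (by positivity) (by linarith)]
    refine Real.log_le_log (div_pos (by positivity) (by linarith)) ?_
    rw [div_le_iff₀ (by linarith)]
    nlinarith
  have b6 : ∑ n ∈ Ioc N (N ^ 2),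
      (if Rough 0 z n ∧ ((n : ℝ) ≤ N * t ∨ (N : ℝ) ^ 2 / t < n) then 1 else 0 : ℝ) / n ≤
        2 * (V * (A + (Vp 0 w)⁻¹ * Real.log (2 * t))) := by
    calc _ = ∑ n ∈ (Ioc N (N ^ 2)).filter (fun n : ℕ => (n : ℝ) ≤ N * t ∨ (N : ℝ) ^ 2 / t < n),
          (if Rough 0 z n then 1 else 0 : ℝ) / n := by
          rw [sum_filter]
          refine sum_congr rfl fun n _ => ?_
          by_cases a1 : Rough 0 z n <;>
            by_cases a2 : (n : ℝ) ≤ N * t ∨ (N : ℝ) ^ 2 / t < n <;> simp [a1, a2]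
      _ ≤ ∑ n ∈ Ioc N ⌊N * t⌋₊ ∪ Ioc ⌊(N : ℝ) ^ 2 / t⌋₊ (N ^ 2),
          (if Rough 0 z n then 1 else 0 : ℝ) / n := by
          refine sum_le_sum_of_subset_of_nonneg (fun n hn => ?_) fun _ _ _ => by positivity
          simp only [mem_filter, mem_Ioc, mem_union] at hn ⊢
          exact hn.2.imp (fun h => ⟨hn.1.1, Nat.le_floor h⟩)
            fun h => ⟨(Nat.floor_lt (by positivity)).2 h, hn.1.2⟩
      _ ≤ _ := by
          have := sum_union_inter (s₁ := Ioc N ⌊N * t⌋₊) (s₂ := Ioc ⌊(N : ℝ) ^ 2 / t⌋₊ (N ^ 2))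
            (f := fun n : ℕ => (if Rough 0 z n then 1 else 0 : ℝ) / n)
          have a0 : 0 ≤ ∑ n ∈ Ioc N ⌊N * t⌋₊ ∩ Ioc ⌊(N : ℝ) ^ 2 / t⌋₊ (N ^ 2),
            (if Rough 0 z n then 1 else 0 : ℝ) / n := sum_nonneg fun _ _ => by positivity
          have a1 := mul_le_mul_of_nonneg_left
            (add_le_add_right (mul_le_mul_of_nonneg_left d1 (inv_pos.2 hw).le) A) V0
          have a2 := mul_le_mul_of_nonneg_left
            (add_le_add_right (mul_le_mul_of_nonneg_left d2 (inv_pos.2 hw).le) A) V0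
          linarith
  have e : ∑ p ∈ (Ioc N (N ^ 2)).filter Nat.Prime, φ p / p =
      ∑ n ∈ Ioc N (N ^ 2), ((if Rough 0 z n then 1 else 0 : ℝ) : ℂ) * φ n / n -
        ∑ n ∈ Ioc N (N ^ 2), ((if Rough 0 z n then cw B n else 0 : ℝ) : ℂ) * φ n / n -
          ∑ n ∈ Ioc N (N ^ 2), (((if Rough 0 z n then 1 - cw B n else 0) -
            (if n.Prime then 1 else 0) : ℝ) : ℂ) * φ n / n := by
    rw [sum_filter, ← sum_sub_distrib, ← sum_sub_distrib]
    refine sum_congr rfl fun n _ => ?_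
    split_ifs <;> push_cast <;> ring
  rw [e]
  refine (norm_sub_le _ _).trans (add_le_add ((norm_sub_le _ _).trans (add_le_add b1 b2)) ?_)
  refine (norm_sum_le _ _).trans (le_trans ?_ (add_le_add b3 b6))
  rw [← sum_add_distrib]
  refine sum_le_sum fun n hn => ?_
  rw [← add_div, norm_div, norm_mul, Complex.norm_real, Complex.norm_natCast]
  refine div_le_div_of_nonneg_right ?_ (Nat.cast_nonneg n)
  exact (mul_le_of_le_one_right (norm_nonneg _) (hφ n)).trans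
    (point B (by omega) (hzN.trans_lt (mem_Ioc.1 hn).1) (hE n))

lemma rough_per (w n : ℕ) : Rough 0 w (n + primorial w : ℕ) ↔ Rough 0 w n := by
  refine forall₂_congr fun p hp => not_congr ?_
  obtain ⟨a1, a2⟩ := mem_filter.1 hp
  rw [Nat.cast_add]
  exact dvd_add_left (by exact_mod_cast a2.dvd_primorial_iff.2 (mem_Ioc.1 a1).2)

end PrimeSum

open PrimeSum in
theorem primesum {b : ℝ → ℝ} (hb : LocPoly b) (h1 : TI fun n => ec (b n))
    (h2 : BilR fun n => ec (b n)) : LocI fun n => ec (b n) := by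
  rw [LocI, NormedAddGroup.tendsto_nhds_zero]
  intro η hη
  obtain ⟨ε, hε, rfl⟩ : ∃ ε : ℝ, 0 < ε ∧ η = 11 * ε := ⟨η / 11, by positivity, by ring⟩
  obtain ⟨D, hD⟩ := hb 1 one_pos
  obtain ⟨u, w, hu, -, hM⟩ := majlog D one_pos hε
  have u1 : (1 : ℝ) ≤ u := by exact_mod_cast hu
  have hδ : 0 < (1 / u : ℝ) := by positivity
  have hw := Vp_pos 0 w
  obtain ⟨c, c0, hc⟩ : ∃ c : ℝ, 0 < c ∧ c = u * (Vp 0 w)⁻¹ := ⟨_, by positivity, rfl⟩
  obtain ⟨k, hk⟩ := exists_nat_gt (c / ε)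
  have k0 : (0 : ℝ) < k := (div_pos c0 hε).trans hk
  have hT := h1 (primorial w) (fun n => ((if Rough 0 w n then 1 else 0 : ℝ) : ℂ))
    (primorial_pos w) (fun n => by split_ifs <;> simp) (fun n => by simp only [rough_per])
    (ε / c) (by positivity)
  have hR := h2 (1 / u) (ε / (2 * k + 1 : ℕ)) hδ (by positivity)
  have hp : Tendsto (fun N : ℕ => (N : ℝ) ^ (1 / u : ℝ)) atTop atTop :=
    (tendsto_rpow_atTop hδ).comp tendsto_natCast_atTop_atTop
  have hl : Tendsto (fun N : ℕ => Real.log N) atTop atTop :=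
    Real.tendsto_log_atTop.comp tendsto_natCast_atTop_atTop
  have ho := ((isLittleO_log_rpow_atTop hδ).comp_tendsto tendsto_natCast_atTop_atTop).bound
    (c := ε / 6) (by positivity)
  filter_upwards [hD, hM, hT, hR, hp.eventually_ge_atTop 2, hl.eventually_ge_atTop 1,
    hl.eventually_ge_atTop (c / ε), ho, eventually_ge_atTop 2] with N a1 a2 a3 a4 a5 a6 a7 a8 a9
  have N1 : (1 : ℝ) < N := by exact_mod_cast a9
  have L0 : 0 < Real.log N := by linarith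
  have N3 : N ^ 2 ≤ N ^ 3 := Nat.pow_le_pow_right (by omega) (by omega)
  have zN : (N : ℝ) ^ (1 / u : ℝ) ≤ N := by
    simpa using Real.rpow_le_rpow_of_exponent_le N1.le ((div_le_one (by positivity)).2 u1)
  have key := core (fun n => ec (b n)) (fun n => (norm_ec _).le) (w := w) (k := k)
    (t := (N : ℝ) ^ ((k : ℝ)⁻¹)) (Real.one_lt_rpow N1 (by positivity))
    (by exact_mod_cast k0.ne') (Real.rpow_inv_natCast_pow (by positivity) (by exact_mod_cast k0.ne'))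
    (Nat.le_floor (by exact_mod_cast a5)) (Nat.floor_le_of_le zN) (Vp_le_div a9 hu)
    (a2 N (N ^ 2) (by simp) N3 _ (fun n => (norm_ec _).le) fun y y1 y2 => by
      obtain ⟨Q, q1, q2⟩ := a1 1 y le_rfl (Nat.one_le_pow _ _ (by omega))
        (by rw [Real.rpow_one]; exact_mod_cast y1.le) (y2.trans N3)
      refine ⟨Q, q1, fun x hx => (norm_ec_sub _ _).trans ?_⟩
      have := q2 x hx
      rw [one_mul] at this
      have : (0 : ℝ) < (N : ℝ)⁻¹ := by positivity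
      linarith) a3
    (fun a b' ha hb' => a2 a b' (by rw [Real.rpow_one]; exact_mod_cast ha.trans (Nat.le_succ a))
      (hb'.trans N3) (fun _ => 1) (by simp) fun y _ _ => ⟨0, by simp, fun x _ => by simp⟩) a4
  refine key.trans_lt ?_
  have e1 : u / Real.log N * (ε / u ^ 2 * Real.log N) ≤ ε := by
    rw [show u / Real.log N * (ε / u ^ 2 * Real.log N) = ε / u by field_simp]
    exact div_le_self hε.le u1
  have e2 : u / Real.log N * ((Vp 0 w)⁻¹ * (ε / c * Real.log N)) = ε := by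
    rw [hc]
    field_simp
  have e3 : ((2 * k + 1 : ℕ) : ℝ) * (ε / (2 * k + 1 : ℕ)) = ε := by field_simp
  have e4 : (1 + Real.log (N ^ 2 : ℕ)) / ⌊(N : ℝ) ^ (1 / u : ℝ)⌋₊ ≤ ε := by
    have f1 := Nat.lt_floor_add_one ((N : ℝ) ^ (1 / u : ℝ))
    simp only [Function.comp, Real.norm_of_nonneg L0.le,
      Real.norm_of_nonneg (zero_le_two.trans a5)] at a8
    rw [div_le_iff₀ (by linarith), Nat.cast_pow, Real.log_pow]
    push_cast
    nlinarith
  have e5 : u / Real.log N * ((Vp 0 w)⁻¹ * Real.log (2 * (N : ℝ) ^ ((k : ℝ)⁻¹))) ≤ 2 * ε := by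
    rw [Real.log_mul two_ne_zero (by positivity), Real.log_rpow (by positivity),
      show u / Real.log N * ((Vp 0 w)⁻¹ * (Real.log 2 + (k : ℝ)⁻¹ * Real.log N)) =
        c / Real.log N * Real.log 2 + c / k by rw [hc]; field_simp]
    have f1 : c / Real.log N ≤ ε := by
      rw [div_le_iff₀ L0, mul_comm, ← div_le_iff₀ hε]
      exact a7
    have f2 : c / k ≤ ε := by
      rw [div_le_iff₀ k0, mul_comm, ← div_le_iff₀ hε]
      exact hk.le
    have f3 := mul_le_of_le_one_right (div_pos c0 L0).le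
      (Real.log_two_lt_d9.le.trans (by norm_num : (0.6931471808 : ℝ) ≤ 1))
    linarith
  rw [mul_add, mul_add (u / Real.log N), e2, e3]
  linarith

end Pool.Agent.MP_357fb4_an
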