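import Pool.Agent.MP_357fb4_an.SL
import Pool.Agent.MP_357fb4_an.DW
import Pool.Agent.MP_357fb4_an.Eff

/-!
Seminorm control along the primes.
-/

open scoped BigOperators Classical ComplexConjugate Polynomial
open Finset Filter MeasureTheory Topology

noncomputable section

namespace Pool.Agent.MP_357fb4_an

variable {Y : Type} [MeasurableSpace Y] {μ : Measure Y} [IsProbabilityMeasure μ]

lemma SC0_bdd {ι : Type} [Fintype ι] {f : ι → ℕ → ℝ} {C : ℝ}
    (h : ∀ᶠ n in atTop, ∀ i, |f i n| ≤ C) : ∃ B : ℝ, ∀ i n, |f i n| ≤ B := by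
  obtain ⟨N, hN⟩ := eventually_atTop.1 h
  have h0 : ∀ i, 0 ≤ ∑ n ∈ range N, |f i n| := fun i => sum_nonneg fun _ _ => abs_nonneg _
  refine ⟨|C| + ∑ i, ∑ n ∈ range N, |f i n|, fun i n => ?_⟩
  rcases le_or_gt N n with h1 | h1
  · have := hN n h1 i
    have := le_abs_self C
    have := sum_nonneg fun i (_ : i ∈ univ) => h0 i
    linarith
  · have h2 : |f i n| ≤ ∑ n ∈ range N, |f i n| :=
      single_le_sum (f := fun n => |f i n|) (fun _ _ => abs_nonneg _) (mem_range.2 h1)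
    have h3 : ∑ n ∈ range N, |f i n| ≤ ∑ i, ∑ n ∈ range N, |f i n| :=
      single_le_sum (f := fun i => ∑ n ∈ range N, |f i n|) (fun i _ => h0 i) (mem_univ i)
    have := abs_nonneg C
    linarith

lemma SC0_cls {C C' Ω L : ℝ} {Q : ℝ[X]} (h : Cls C Ω L Q) (hC : C ≤ C') : Cls C' Ω L Q :=
  ⟨h.1, h.2.1.trans hC, h.2.2.1.trans hC, h.2.2.2⟩

lemma SC0_th (n : ℕ) : 0 ≤ th n := by
  unfold th
  split_ifs
  · exact Real.log_natCast_nonneg n
  · exact le_rfl

/-- uniform data for a finite family -/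
lemma SC0_data (H : HF) {ι : Type} [Fintype ι] (g : ι → ℝ → ℝ) (hg : ∀ i, g i ∈ H.car) (A : ℕ)
    (hA : ∀ i, ∀ᶠ t in atTop, |g i t| ≤ t ^ A) : ∃ (cl : ι → Prop) (D : ℕ) (C : ℝ),
      (∀ᶠ y : ℕ in atTop, ∀ i, cl i → |g i y - g i (y - 1)| ≤ C) ∧
      ∀ Ω : ℝ, ∀ᶠ y : ℕ in atTop, ∀ i, ∃ Q : ℝ[X], Q.natDegree ≤ D ∧
        (cl i → Q.natDegree = 0 ∧ Q.eval 0 = g i y) ∧ (¬ cl i → Cls C Ω (Ly y) Q) ∧
          ∀ x : ℕ, x < Ly y → |g i ((y + x : ℕ) : ℝ) - Q.eval (x : ℝ)| ≤ C := by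
  have h1 : ∀ i, ∃ (c : Prop) (D : ℕ) (C : ℝ),
      (∀ᶠ y : ℕ in atTop, c → |g i y - g i (y - 1)| ≤ C) ∧
      ∀ Ω : ℝ, ∀ᶠ y : ℕ in atTop, ∃ Q : ℝ[X], Q.natDegree ≤ D ∧
        (c → Q.natDegree = 0 ∧ Q.eval 0 = g i y) ∧ (¬ c → Cls C Ω (Ly y) Q) ∧
          ∀ x : ℕ, x < Ly y → |g i ((y + x : ℕ) : ℝ) - Q.eval (x : ℝ)| ≤ C := by
    intro i
    rcases eff H (hg i) (hA i) with ⟨C, h⟩ | ⟨D, C, h⟩
    · refine ⟨True, 0, C, h.mono fun y hy _ => ?_, fun Ω => h.mono fun y hy => ?_⟩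
      · have : (0 : ℝ) ≤ Ly y := Nat.cast_nonneg _
        exact hy _ _ (by linarith) (by linarith) le_rfl (by linarith)
      · refine ⟨Polynomial.C (g i y), by simp, fun _ => by simp, fun h => absurd trivial h,
          fun x hx => ?_⟩
        have h2 : (x : ℝ) ≤ Ly y := by exact_mod_cast hx.le
        have h3 : (0 : ℝ) ≤ x := Nat.cast_nonneg _
        rw [Polynomial.eval_C]
        exact hy _ _ (by push_cast; linarith) (by push_cast; linarith) (by linarith) (by linarith)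
    · refine ⟨False, D, C, Eventually.of_forall fun _ h => h.elim, fun Ω => (h Ω).mono ?_⟩
      rintro y ⟨Q, h2, h3, h4⟩
      exact ⟨Q, h2, fun h => h.elim, fun _ => h3, h4⟩
  choose cl D C h2 h3 using h1
  have hC : ∀ i, C i ≤ ∑ j, |C j| := fun i => (le_abs_self _).trans
    (single_le_sum (f := fun j => |C j|) (fun _ _ => abs_nonneg _) (mem_univ i))
  refine ⟨cl, univ.sup D, ∑ j, |C j|, ?_, fun Ω => ?_⟩
  · exact eventually_all.2 fun i => (h2 i).mono fun y hy hc => (hy hc).trans (hC i)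
  · refine eventually_all.2 fun i => (h3 i Ω).mono ?_
    rintro y ⟨Q, h4, h5, h6, h7⟩
    exact ⟨Q, h4.trans (le_sup (mem_univ i)), h5, fun h => SC0_cls (h6 h) (hC i),
      fun x hx => (h7 x hx).trans (hC i)⟩

theorem sc0 (H : HF) {W : ℝ → ℝ} (hWH : W ∈ H.car) {T : ℕ} (hW : Wt W T) (S : Sys ℤ Y μ)
    {ι : Type} [Fintype ι] (g : ι → ℝ → ℝ) (hg : ∀ i, Adm H W (g i)) (A : ℕ)
    (hA : ∀ i, ∀ᶠ t in atTop, |g i t| ≤ t ^ A) :
    ∃ s, 1 ≤ s ∧ Ctl S s (lam W T) fun i n => g i n := by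
  obtain ⟨cl, D, C, hc1, hc2⟩ := SC0_data H g (fun i => (hg i).1) A hA
  let t : ℕ → ℝ := fun n => max ((n : ℝ) - 1) T
  let w : ℕ → ℝ := fun n => deriv W (max (n : ℝ) (T + 1))
  have htT : ∀ n, (T : ℝ) ≤ t n := fun n => le_max_right _ _
  have htm : Monotone t := fun m n h =>
    max_le_max (sub_le_sub_right (Nat.cast_le.2 h) 1) le_rfl
  have htt : Tendsto t atTop atTop :=
    tendsto_atTop_mono (fun n => le_max_left _ _)
      (tendsto_atTop_add_const_right _ (-1) tendsto_natCast_atTop_atTop)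
  have ht1 : ∀ n, T + 1 ≤ n → t n = n - 1 ∧ t (n + 1) = n ∧ w n = deriv W n := by
    intro n hn
    have h : (T : ℝ) + 1 ≤ n := by exact_mod_cast hn
    refine ⟨max_eq_left (by linarith), ?_, by simp only [w]; rw [max_eq_left h]⟩
    simp only [t]
    push_cast
    rw [add_sub_cancel_right, max_eq_left (by linarith)]
  have hWm := hW.mono.monotoneOn
  have hW0 : ∀ x : ℝ, T ≤ x → 0 ≤ W x := fun x hx =>
    hW.nonneg.trans (hWm Set.self_mem_Ici hx hx)
  have hw0 : ∀ n, 0 ≤ w n := fun n =>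
    (hW.pos _ (le_max_of_le_right (by linarith))).le
  have hwa : Antitone w := fun m n h =>
    hW.anti0 (le_max_of_le_right (by linarith : (T : ℝ) ≤ T + 1))
      (le_max_of_le_right (by linarith : (T : ℝ) ≤ T + 1)) (max_le_max (Nat.cast_le.2 h) le_rfl)
  have hwle : ∀ n, T + 1 ≤ n → w n ≤ W (t (n + 1)) - W (t n) := by
    intro n hn
    obtain ⟨h1, h2, h3⟩ := ht1 n hn
    have h4 := hW.deriv_le (s := n - 1) (t := n) (h1 ▸ htT n) (by linarith)
    rw [h1, h2, h3]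
    linarith
  have hZ : Tendsto (fun J : ℕ => W J) atTop atTop := hW.top.comp tendsto_natCast_atTop_atTop
  have htJ : ∀ J : ℕ, T ≤ J → W (t J) ≤ W J := fun J hJ => by
    have h : (T : ℝ) ≤ J := by exact_mod_cast hJ
    exact hWm (htT J) h (max_le (by linarith) h)
  have h2 : ∀ᶠ J : ℕ in atTop, ∑ n ∈ range J, w n ≤ 2 * W J := by
    have h3 : ∀ J, T + 1 ≤ J → ∑ n ∈ range J, w n ≤ (T + 1 : ℕ) * w 0 + W (t J) := by
      intro J hJ
      induction J, hJ using Nat.le_induction with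
      | base =>
        have h4 := sum_le_card_nsmul (range (T + 1)) w (w 0) fun n _ => hwa (Nat.zero_le n)
        rw [card_range, nsmul_eq_mul] at h4
        have := hW0 _ (htT (T + 1))
        linarith
      | succ J hJ ih =>
        rw [sum_range_succ]
        have := hwle J hJ
        linarith
    filter_upwards [eventually_ge_atTop (T + 1), hZ.eventually_ge_atTop ((T + 1 : ℕ) * w 0)]
      with J hJ h4
    have := h3 J hJ
    have := htJ J (by omega)
    linarith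
  obtain ⟨s₂, hs₂, h3⟩ := sl H hWH hW S _ {i // cl i} le_rfl (fun i => g i) (fun i => hg i) t htm
    htt htT ⟨C, by
      filter_upwards [hc1, eventually_ge_atTop (T + 1)] with n h4 hn i
      rw [(ht1 n hn).1, (ht1 n hn).2.1]
      exact h4 i i.2⟩
  obtain ⟨B₀, hB₀⟩ := SC0_bdd (f := fun (i : {i // cl i}) n => g i (t n) - g i n) (C := C) (by
    filter_upwards [hc1, eventually_ge_atTop (T + 1)] with n h4 hn i
    rw [(ht1 n hn).1, abs_sub_comm]
    exact h4 i i.2)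
  have hcl : Ctl S s₂ (fun J n => w n / W J) fun (i : {i // cl i}) (n : ℕ) => g i n := by
    refine (h3.congr hB₀).le (T + 1) 1 (Eventually.of_forall fun J n => ?_) ?_ fun n _ => ?_
    · exact div_nonneg (sub_nonneg.2 (hWm (htT _) (htT _) (htm n.le_succ))) (hW0 _ (htT J))
    · filter_upwards [eventually_ge_atTop T, (hW.top.comp htt).eventually_gt_atTop 0]
        with J hJ h4 n hn
      rw [one_mul]
      exact div_le_div₀ ((hw0 n).trans (hwle n hn)) (hwle n hn) h4 (htJ J hJ)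
    · exact hZ.const_div_atTop _
  obtain ⟨s₁, hs₁, h4⟩ := loc S (Fintype.card ι) D
  have h5 := level S cl (fun i n => g i n) w th (fun J => W J) hwa hw0 SC0_th hZ h2 hs₁ hs₂ hcl (by
    intro B ε hε
    obtain ⟨C₁, hC₁, h5⟩ := dw S (Fintype.card ι) D (C + |B|) (half_pos hε)
    obtain ⟨C₂, hC₂, h6⟩ := h4 (C + |B| + 3) (ε / (2 * (C₁ + 1))) (by positivity)
    refine ⟨C₁ * C₂, C + |B| + 3, by positivity, fun K hK => ⟨Ly, smo_Ly, ?_⟩⟩
    obtain ⟨Ω, h7⟩ := h6 K hK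
    filter_upwards [h5, Ly_range, tendsto_Ly.eventually_ge_atTop Ω, hc2 Ω]
      with y h8 h9 h10 h11 F G a hF hG ha
    choose Q q1 q2 q3 q4 using h11
    obtain ⟨a', ha', h12⟩ := h8 (Ly y) h9.1 h9.2 ι le_rfl Q q1 F G (fun i x => a i (y + x)) hF hG
      (fun i x hx => by
        have e1 := ha i (y + x)
        have e2 := q4 i x hx
        have e3 := abs_sub_le (a i (y + x) : ℝ) (g i ((y + x : ℕ) : ℝ)) ((Q i).eval (x : ℝ))
        have e4 := le_abs_self B
        linarith)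
    obtain ⟨v, hv, h13⟩ := h7 (Ly y) h10 ι le_rfl cl Q q1 (fun i h => (q2 i h).1)
      (fun i h => SC0_cls (q3 i h) (by have := abs_nonneg B; linarith)) F G a' hF hG
      fun i x _ => ha' i x
    refine ⟨v, fun i => by rw [← (q2 i i.2).2]; exact hv i, h12.trans ?_⟩
    have h14 := mul_le_mul_of_nonneg_left h13 hC₁
    have h15 : C₁ * (ε / (2 * (C₁ + 1))) ≤ ε / 2 := by
      rw [← mul_div_assoc, div_le_div_iff₀ (by positivity) (by positivity)]
      nlinarith
    rw [mul_add, ← mul_assoc] at h14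
    linarith)
  refine ⟨s₁ + s₂, by omega, h5.le (T + 1) 1 ?_ ?_ fun n _ => ?_⟩
  · filter_upwards [eventually_ge_atTop T] with J hJ n
    exact div_nonneg (mul_nonneg (hw0 n) (SC0_th n)) (hW0 _ (by exact_mod_cast hJ))
  · filter_upwards [eventually_ge_atTop T] with J hJ n hn
    have h6 : 0 ≤ w n * th n / W J :=
      div_nonneg (mul_nonneg (hw0 n) (SC0_th n)) (hW0 _ (by exact_mod_cast hJ))
    have h7 : lam W T J n = w n * th n / W J / 2 := by
      rw [lam, if_pos (by omega), (ht1 n hn).2.2]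
      ring
    rw [h7]
    linarith
  · unfold lam
    split_ifs
    · exact (hZ.const_mul_atTop two_pos).const_div_atTop _
    · exact tendsto_const_nhds

end Pool.Agent.MP_357fb4_an
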