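import Pool.Agent.MP_357fb4_an.HApi

/-!
The four cases.
-/

open scoped BigOperators Classical ComplexConjugate Polynomial
open Finset Filter MeasureTheory Topology

noncomputable section

namespace Pool.Agent.MP_357fb4_an

lemma tri_deriv_congr {f g : ℝ → ℝ} (h : f =ᶠ[atTop] g) : deriv f =ᶠ[atTop] deriv g := by
  obtain ⟨T, hT⟩ := eventually_atTop.1 h
  filter_upwards [eventually_gt_atTop T] with t ht
  refine Filter.EventuallyEq.deriv_eq ?_
  filter_upwards [Ioi_mem_nhds ht] with s hs using hT s (le_of_lt hs)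

lemma tri_rd_mem (H : HF) {f : ℝ → ℝ} (hf : f ∈ H.car) (e : ℕ) : RD f e ∈ H.car :=
  H.mul _ _ (H.pow H.ident e) (H.iter hf e)

lemma tri_rd_deriv (H : HF) {f : ℝ → ℝ} (hf : f ∈ H.car) (e : ℕ) :
    ∀ᶠ t in atTop, t * deriv (RD f e) t = e * RD f e t + RD f (e + 1) t := by
  filter_upwards [H.diff _ (H.iter hf e)] with t ht
  have h1 : HasDerivAt (RD f e)
      ((e : ℝ) * t ^ (e - 1) * deriv^[e] f t + t ^ e * deriv (deriv^[e] f) t) t :=
    (hasDerivAt_pow e t).mul ht.hasDerivAt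
  rw [h1.deriv]
  unfold RD
  rw [Function.iterate_succ_apply']
  rcases e with _ | e
  · simp
  · simp only [Nat.add_sub_cancel]
    ring

lemma tri_log_deriv {h : ℝ → ℝ} {t : ℝ} (γ : ℝ) (ht : t ≠ 0) (hd : DifferentiableAt ℝ h t)
    (h0 : h t ≠ 0) : HasDerivAt (fun s => Real.log (h s) - γ * Real.log s)
      ((t * deriv h t / h t - γ) / t) t := by
  have h1 : HasDerivAt (fun s => Real.log (h s) - γ * Real.log s)
      (deriv h t / h t - γ * t⁻¹) t :=
    (hd.hasDerivAt.log h0).sub ((Real.hasDerivAt_log ht).const_mul γ)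
  have h2 : (t * deriv h t / h t - γ) / t = deriv h t / h t - γ * t⁻¹ := by field_simp
  rw [h2]
  exact h1

lemma tri_exp {x y t t' γ : ℝ} (ht : 0 < t) (ht' : 0 < t') (hx : x ≠ 0) (hy : y ≠ 0) :
    (Real.log x - γ * Real.log t ≤ Real.log y - γ * Real.log t' → (t' / t) ^ γ * |x| ≤ |y|) ∧
    (Real.log y - γ * Real.log t' ≤ Real.log x - γ * Real.log t → |y| ≤ (t' / t) ^ γ * |x|) := by
  have hq : 0 < t' / t := div_pos ht' ht
  have hax : 0 < |x| := abs_pos.2 hx
  have hay : 0 < |y| := abs_pos.2 hy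
  have hp : 0 < (t' / t) ^ γ * |x| := mul_pos (Real.rpow_pos_of_pos hq γ) hax
  have hl : Real.log ((t' / t) ^ γ * |x|) = γ * (Real.log t' - Real.log t) + Real.log x := by
    rw [Real.log_mul (Real.rpow_pos_of_pos hq γ).ne' hax.ne', Real.log_rpow hq,
      Real.log_div ht'.ne' ht.ne', Real.log_abs]
  constructor
  · intro h
    rw [← Real.log_le_log_iff hp hay, hl, Real.log_abs]
    linarith
  · intro h
    rw [← Real.log_le_log_iff hay hp, hl, Real.log_abs]
    linarith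

lemma tri_grow_lo (H : HF) {h : ℝ → ℝ} (hh : h ∈ H.car) (h0 : ∀ᶠ t in atTop, h t ≠ 0) {γ : ℝ}
    (hγ : ∀ᶠ t in atTop, γ ≤ t * deriv h t / h t) :
    ∃ T : ℝ, 1 ≤ T ∧ ∀ t t', T ≤ t → t ≤ t' → h t ≠ 0 ∧ (t' / t) ^ γ * |h t| ≤ |h t'| := by
  obtain ⟨T, hT⟩ := eventually_atTop.1
    ((H.diff h hh).and (h0.and (hγ.and (eventually_ge_atTop (1 : ℝ)))))
  have hT1 : 1 ≤ T := (hT T le_rfl).2.2.2
  have hd : ∀ t, T ≤ t → HasDerivAt (fun s => Real.log (h s) - γ * Real.log s)
      ((t * deriv h t / h t - γ) / t) t := fun t ht =>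
    tri_log_deriv γ (by linarith) (hT t ht).1 (hT t ht).2.1
  have hm : MonotoneOn (fun s => Real.log (h s) - γ * Real.log s) (Set.Ici T) := by
    refine monotoneOn_of_deriv_nonneg (convex_Ici T)
      (fun t ht => (hd t ht).continuousAt.continuousWithinAt)
      (fun t ht => (hd t (interior_subset ht)).differentiableAt.differentiableWithinAt) ?_
    intro t ht
    have ht' : T ≤ t := interior_subset ht
    rw [(hd t ht').deriv]
    exact div_nonneg (by linarith [(hT t ht').2.2.1]) (by linarith)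
  refine ⟨T, hT1, fun t t' ht htt => ⟨(hT t ht).2.1, ?_⟩⟩
  exact (tri_exp (by linarith) (by linarith) (hT t ht).2.1 (hT t' (ht.trans htt)).2.1).1
    (hm ht (ht.trans htt) htt)

lemma tri_grow_hi (H : HF) {h : ℝ → ℝ} (hh : h ∈ H.car) (h0 : ∀ᶠ t in atTop, h t ≠ 0) {γ : ℝ}
    (hγ : ∀ᶠ t in atTop, t * deriv h t / h t ≤ γ) :
    ∃ T : ℝ, 1 ≤ T ∧ ∀ t t', T ≤ t → t ≤ t' → |h t'| ≤ (t' / t) ^ γ * |h t| := by
  obtain ⟨T, hT⟩ := eventually_atTop.1
    ((H.diff h hh).and (h0.and (hγ.and (eventually_ge_atTop (1 : ℝ)))))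
  have hT1 : 1 ≤ T := (hT T le_rfl).2.2.2
  have hd : ∀ t, T ≤ t → HasDerivAt (fun s => Real.log (h s) - γ * Real.log s)
      ((t * deriv h t / h t - γ) / t) t := fun t ht =>
    tri_log_deriv γ (by linarith) (hT t ht).1 (hT t ht).2.1
  have hm : AntitoneOn (fun s => Real.log (h s) - γ * Real.log s) (Set.Ici T) := by
    refine antitoneOn_of_deriv_nonpos (convex_Ici T)
      (fun t ht => (hd t ht).continuousAt.continuousWithinAt)
      (fun t ht => (hd t (interior_subset ht)).differentiableAt.differentiableWithinAt) ?_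
    intro t ht
    have ht' : T ≤ t := interior_subset ht
    rw [(hd t ht').deriv]
    exact div_nonpos_of_nonpos_of_nonneg (by linarith [(hT t ht').2.2.1]) (by linarith)
  refine ⟨T, hT1, fun t t' ht htt => ?_⟩
  exact (tri_exp (by linarith) (by linarith) (hT t ht).2.1 (hT t' (ht.trans htt)).2.1).2
    (hm ht (ht.trans htt) htt)

/-- Constants are eventually below positive powers. -/
lemma tri_const_le (C : ℝ) {γ : ℝ} (hγ : 0 < γ) : ∀ᶠ t : ℝ in atTop, C ≤ t ^ γ :=
  (tendsto_rpow_atTop hγ).eventually_ge_atTop C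

lemma tri_no_fast (H : HF) {h : ℝ → ℝ} (hh : h ∈ H.car) (h0 : ∀ᶠ t in atTop, h t ≠ 0) {B γ : ℝ}
    (hB : ∀ᶠ t in atTop, |h t| ≤ t ^ B) (hγ : ∀ᶠ t in atTop, γ ≤ t * deriv h t / h t) :
    γ ≤ B := by
  by_contra hlt
  push Not at hlt
  obtain ⟨T, hT1, hT⟩ := tri_grow_lo H hh h0 hγ
  have hTp : 0 < T := by linarith
  have ha : 0 < |h T| := abs_pos.2 (hT T T le_rfl le_rfl).1
  have hTγ : 0 < T ^ γ := Real.rpow_pos_of_pos hTp γ
  obtain ⟨t, h1, h2, h3⟩ := (hB.and ((eventually_ge_atTop T).and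
    (tri_const_le (T ^ γ / |h T| + 1) (sub_pos.2 hlt)))).exists
  have ht : 0 < t := by linarith
  have h4 := ((hT T t le_rfl h2).2).trans h1
  rw [Real.div_rpow ht.le hTp.le] at h4
  rw [Real.rpow_sub ht] at h3
  have htB : 0 < t ^ B := Real.rpow_pos_of_pos ht B
  have h5 : t ^ γ / t ^ B ≤ T ^ γ / |h T| := by
    rw [div_le_div_iff₀ htB ha]
    rw [div_mul_eq_mul_div, div_le_iff₀ hTγ] at h4
    linarith
  linarith

lemma tri_step (H : HF) {f : ℝ → ℝ} (hf : f ∈ H.car) {e : ℕ} {g : ℝ}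
    (h0 : ∀ᶠ t in atTop, RD f e t ≠ 0)
    (hl : Tendsto (fun t => t * deriv (RD f e) t / RD f e t) atTop (𝓝 g)) :
    Tendsto (fun t => RD f (e + 1) t / RD f e t) atTop (𝓝 (g - e)) := by
  refine (hl.sub_const (e : ℝ)).congr' ?_
  filter_upwards [h0, tri_rd_deriv H hf e] with t h1 h2
  rw [h2]
  field_simp
  ring

lemma tri_step2 (H : HF) {f : ℝ → ℝ} (hf : f ∈ H.car) {e : ℕ} {g : ℝ} (hg : g - e ≠ 0)
    (h0 : ∀ᶠ t in atTop, RD f e t ≠ 0)
    (hl : Tendsto (fun t => t * deriv (RD f e) t / RD f e t) atTop (𝓝 g)) :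
    (∀ᶠ t in atTop, RD f (e + 1) t ≠ 0) ∧
      Tendsto (fun t => t * deriv (RD f (e + 1)) t / RD f (e + 1) t) atTop (𝓝 g) := by
  have hq := tri_step H hf h0 hl
  have hne : ∀ᶠ t in atTop, RD f (e + 1) t ≠ 0 := by
    filter_upwards [hq.eventually_ne hg] with t ht h
    exact ht (by rw [h, zero_div])
  refine ⟨hne, ?_⟩
  have hm := H.div (tri_rd_mem H hf (e + 1)) (tri_rd_mem H hf e)
  have hbd : ∀ᶠ t in atTop, |RD f (e + 1) t / RD f e t| ≤ |g - e| + 1 :=
    hq.abs.eventually_le_const (by linarith)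
  have h1 := (H.tderiv hm hbd).div hq hg
  rw [zero_div] at h1
  have h2 := h1.add hl
  rw [zero_add] at h2
  refine h2.congr' ?_
  filter_upwards [h0, hne, H.diff _ (tri_rd_mem H hf (e + 1)), H.diff _ (tri_rd_mem H hf e)]
    with t a1 a2 a3 a4
  have h3 := (a3.hasDerivAt.div a4.hasDerivAt a1).deriv
  simp only [Pi.div_apply]
  have h4 : deriv (fun t => RD f (e + 1) t / RD f e t) t =
      (deriv (RD f (e + 1)) t * RD f e t - RD f (e + 1) t * deriv (RD f e) t) / RD f e t ^ 2 := h3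
  rw [h4]
  field_simp
  ring

lemma tri_caseF (H : HF) {b : ℝ → ℝ} (hb : b ∈ H.car) {e₀ : ℕ} {g : ℝ} (hg : 0 < g)
    (hge : g < e₀) (h0 : ∀ᶠ t in atTop, RD b e₀ t ≠ 0)
    (hl : Tendsto (fun t => t * deriv (RD b e₀) t / RD b e₀ t) atTop (𝓝 g)) : CaseF b := by
  have key : ∀ e, e₀ ≤ e → (∀ᶠ t in atTop, RD b e t ≠ 0) ∧
      Tendsto (fun t => t * deriv (RD b e) t / RD b e t) atTop (𝓝 g) := by
    intro e he
    induction e, he using Nat.le_induction with
    | base => exact ⟨h0, hl⟩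
    | succ e he ih =>
      have : (e₀ : ℝ) ≤ e := by exact_mod_cast he
      exact tri_step2 H hb (by linarith) ih.1 ih.2
  refine ⟨e₀, g / 2, g + 1, by linarith, fun e he => ?_⟩
  obtain ⟨k0, kl⟩ := key e he
  obtain ⟨T₁, hT₁, h1⟩ := tri_grow_lo H (tri_rd_mem H hb e) k0
    (kl.eventually_const_le (show g / 2 < g by linarith))
  obtain ⟨T₂, _, h2⟩ := tri_grow_hi H (tri_rd_mem H hb e) k0
    (kl.eventually_le_const (show g < g + 1 by linarith))
  have hbd : ∀ᶠ t in atTop, |RD b (e + 1) t / RD b e t| ≤ |g - e| + 1 :=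
    (tri_step H hb k0 kl).abs.eventually_le_const (by linarith)
  obtain ⟨T₃, h3⟩ := eventually_atTop.1 hbd
  refine ⟨max T₁ (max T₂ T₃), |g - e| + 1, le_max_of_le_left hT₁, fun t t' ht htt => ?_⟩
  have a1 : T₁ ≤ t := le_of_max_le_left ht
  have a2 : T₂ ≤ t := le_of_max_le_left (le_of_max_le_right ht)
  have a3 : T₃ ≤ t := le_of_max_le_right (le_of_max_le_right ht)
  refine ⟨(h1 t t' a1 htt).1, (h1 t t' a1 htt).2, h2 t t' a2 htt, ?_⟩
  have h4 := h3 t a3
  rwa [abs_div, div_le_iff₀ (abs_pos.2 (h1 t t' a1 htt).1)] at h4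

lemma tri_dich (H : HF) {b : ℝ → ℝ} (hb : b ∈ H.car) {A : ℕ}
    (h : ∀ᶠ t in atTop, |b t| ≤ t ^ A) :
    CaseF b ∨ ∀ γ : ℝ, 0 < γ → ∀ᶠ t in atTop, |RD b (A + 2) t| ≤ t ^ γ := by
  have hR := tri_rd_mem H hb (A + 2)
  have hB : ∀ᶠ t in atTop, |RD b (A + 2) t| ≤ t ^ ((A : ℝ) + 1) := by
    filter_upwards [H.sm hb h (A + 2), eventually_gt_atTop (0 : ℝ)] with t ht h0
    have h1 := ht.2
    have hp : 0 < t ^ (A + 2) := pow_pos h0 _
    rw [le_div_iff₀ hp] at h1
    have h2 : t ^ ((A : ℝ) + 1) = t ^ (A + 1) := by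
      rw [← Real.rpow_natCast]; push_cast; rfl
    rw [h2]
    unfold RD
    rw [abs_mul, abs_of_pos hp, mul_comm]
    exact h1
  have hlam : (fun t => t * deriv (RD b (A + 2)) t / RD b (A + 2) t) ∈ H.car :=
    H.div (H.mul _ _ H.ident (H.der _ hR)) hR
  by_cases h0 : ∀ᶠ t in atTop, RD b (A + 2) t ≠ 0
  swap
  · right
    intro γ _
    rcases H.sign _ hR with h1 | h1 | h1
    · filter_upwards [h1, eventually_ge_atTop (0 : ℝ)] with t ht ht0
      rw [ht, abs_zero]
      exact Real.rpow_nonneg ht0 γ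
    · exact absurd (h1.mono fun t ht => ht.ne') h0
    · exact absurd (h1.mono fun t ht => ht.ne) h0
  by_cases h1 : ∃ γ : ℝ, 0 < γ ∧
      ∀ᶠ t in atTop, γ ≤ t * deriv (RD b (A + 2)) t / RD b (A + 2) t
  · left
    obtain ⟨γ, hγ, h1⟩ := h1
    rcases H.lim3 hlam with ⟨g, hg⟩ | hg | hg
    · have hγg : γ ≤ g := ge_of_tendsto hg h1
      refine tri_caseF H hb (e₀ := A + 2) (g := g) (by linarith) ?_ h0 hg
      by_contra hcon
      push Not at hcon
      push_cast at hcon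
      have := tri_no_fast H hR h0 hB
        (hg.eventually_const_le (show (A : ℝ) + 3 / 2 < g by linarith))
      linarith
    · have := tri_no_fast H hR h0 hB (hg.eventually_ge_atTop ((A : ℝ) + 2))
      linarith
    · obtain ⟨t, a1, a2⟩ := (h1.and (hg.eventually_le_atBot 0)).exists
      linarith
  · right
    intro γ hγ
    have h2 : ∀ᶠ t in atTop, t * deriv (RD b (A + 2)) t / RD b (A + 2) t ≤ γ / 2 := by
      rcases H.sign _ (H.sub hlam (H.const (γ / 2))) with h3 | h3 | h3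
      · exact h3.mono fun t ht => by linarith
      · exact absurd ⟨γ / 2, by linarith, h3.mono fun t ht => by linarith⟩ h1
      · exact h3.mono fun t ht => by linarith
    obtain ⟨T, hT1, hT⟩ := tri_grow_hi H hR h0 h2
    filter_upwards [eventually_ge_atTop T,
      tri_const_le |RD b (A + 2) T| (show 0 < γ / 2 by linarith)] with t a1 a2
    have ht : 0 < t := by linarith
    have a3 : (t / T) ^ (γ / 2) ≤ t ^ (γ / 2) :=
      Real.rpow_le_rpow (by positivity) (div_le_self ht.le hT1) (by linarith)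
    calc |RD b (A + 2) t| ≤ (t / T) ^ (γ / 2) * |RD b (A + 2) T| := hT T t le_rfl a1
      _ ≤ t ^ (γ / 2) * t ^ (γ / 2) :=
          mul_le_mul a3 a2 (abs_nonneg _) (Real.rpow_nonneg ht.le _)
      _ = t ^ γ := by rw [← Real.rpow_add ht]; congr 1; ring

/-- A function whose derivative is dominated by that of a function tending to zero converges. -/
lemma tri_squeeze (H : HF) {g u u' : ℝ → ℝ} (hg : g ∈ H.car)
    (hu : ∀ᶠ t in atTop, HasDerivAt u (u' t) t ∧ |deriv g t| ≤ -u' t)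
    (hu0 : Tendsto u atTop (𝓝 0)) :
    ∃ c, Tendsto g atTop (𝓝 c) ∧ ∀ᶠ t in atTop, |g t - c| ≤ u t := by
  obtain ⟨T, hT⟩ := eventually_atTop.1 ((H.diff g hg).and hu)
  have hd1 : ∀ t, T ≤ t → HasDerivAt (fun s => g s + u s) (deriv g t + u' t) t := fun t ht =>
    (hT t ht).1.hasDerivAt.add (hT t ht).2.1
  have hd2 : ∀ t, T ≤ t → HasDerivAt (fun s => g s - u s) (deriv g t - u' t) t := fun t ht =>
    (hT t ht).1.hasDerivAt.sub (hT t ht).2.1
  have hm1 : AntitoneOn (fun s => g s + u s) (Set.Ici T) := by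
    refine antitoneOn_of_deriv_nonpos (convex_Ici T)
      (fun t ht => (hd1 t ht).continuousAt.continuousWithinAt)
      (fun t ht => (hd1 t (interior_subset ht)).differentiableAt.differentiableWithinAt) ?_
    intro t ht
    have ht' : T ≤ t := interior_subset ht
    rw [(hd1 t ht').deriv]
    linarith [(abs_le.1 (hT t ht').2.2).2]
  have hm2 : MonotoneOn (fun s => g s - u s) (Set.Ici T) := by
    refine monotoneOn_of_deriv_nonneg (convex_Ici T)
      (fun t ht => (hd2 t ht).continuousAt.continuousWithinAt)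
      (fun t ht => (hd2 t (interior_subset ht)).differentiableAt.differentiableWithinAt) ?_
    intro t ht
    have ht' : T ≤ t := interior_subset ht
    rw [(hd2 t ht').deriv]
    linarith [(abs_le.1 (hT t ht').2.2).1]
  have key : ∀ t s, T ≤ t → t ≤ s → |g t - g s| ≤ u t - u s := by
    intro t s ht hts
    have a1 := hm1 ht (ht.trans hts) hts
    have a2 := hm2 ht (ht.trans hts) hts
    simp only at a1 a2
    rw [abs_le]
    constructor <;> linarith
  rcases H.lim hg with ⟨c, hc⟩ | hc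
  · refine ⟨c, hc, ?_⟩
    filter_upwards [eventually_ge_atTop T] with t ht
    have a1 : Tendsto (fun s => |g t - g s|) atTop (𝓝 |g t - c|) := (hc.const_sub (g t)).abs
    have a2 : Tendsto (fun s => u t - u s) atTop (𝓝 (u t - 0)) := hu0.const_sub (u t)
    rw [sub_zero] at a2
    exact le_of_tendsto_of_tendsto a1 a2
      ((eventually_ge_atTop t).mono fun s hs => key t s ht hs)
  · exfalso
    obtain ⟨s, a1, a2, a3⟩ := ((eventually_ge_atTop T).and
      ((hc.eventually_ge_atTop (|g T| + u T + 2)).and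
        (hu0.eventually_const_le (show (-1 : ℝ) < 0 by norm_num)))).exists
    have a4 := key T s le_rfl a1
    have a5 := abs_sub_abs_le_abs_sub (g s) (g T)
    rw [abs_sub_comm] at a5
    linarith

lemma tri_iter_sub (H : HF) {f : ℝ → ℝ} (hf : f ∈ H.car) (P : ℝ[X]) (e : ℕ) :
    deriv^[e] (fun t => f t - P.eval t) =ᶠ[atTop]
      fun t => deriv^[e] f t - (Polynomial.derivative^[e] P).eval t := by
  induction e with
  | zero => exact EventuallyEq.refl _ _
  | succ e ih =>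
    rw [Function.iterate_succ_apply', Function.iterate_succ_apply', Function.iterate_succ_apply']
    refine (tri_deriv_congr ih).trans ?_
    filter_upwards [H.diff _ (H.iter hf e)] with t ht
    exact (ht.hasDerivAt.sub ((Polynomial.derivative^[e] P).hasDerivAt t)).deriv

lemma tri_tail (H : HF) {g : ℝ → ℝ} (hg : g ∈ H.car) (e : ℕ) {γ : ℝ} (hγ : γ ≤ 1 / 2)
    (h : ∀ᶠ t in atTop, |t ^ (e + 2) * deriv g t| ≤ t ^ γ) :
    ∃ c, Tendsto g atTop (𝓝 c) ∧ ∀ᶠ t in atTop, |t ^ (e + 1) * (g t - c)| ≤ 2 * t ^ γ := by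
  have he : (0 : ℝ) ≤ e := Nat.cast_nonneg e
  obtain ⟨c, hc, hc'⟩ := tri_squeeze H (u := fun t => 2 * t ^ (γ - (e + 1)))
    (u' := fun t => 2 * ((γ - (e + 1)) * t ^ (γ - (e + 1) - 1))) hg (by
      filter_upwards [h, eventually_gt_atTop (0 : ℝ)] with t h1 h0
      refine ⟨(Real.hasDerivAt_rpow_const (Or.inl h0.ne')).const_mul 2, ?_⟩
      have hp : 0 < t ^ (e + 2) := pow_pos h0 _
      have h2 : t ^ (γ - (e + 1) - 1) = t ^ γ / t ^ (e + 2) := by
        rw [← Real.rpow_natCast, ← Real.rpow_sub h0]; congr 1; push_cast; ring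
      rw [abs_mul, abs_of_pos hp, ← le_div_iff₀' hp, ← h2] at h1
      have h3 : 0 < t ^ (γ - (e + 1) - 1) := Real.rpow_pos_of_pos h0 _
      nlinarith) (by
      have h1 := (tendsto_rpow_neg_atTop (show 0 < (e : ℝ) + 1 - γ by linarith)).const_mul 2
      rw [mul_zero] at h1
      simpa only [neg_sub] using h1)
  refine ⟨c, hc, ?_⟩
  filter_upwards [hc', eventually_gt_atTop (0 : ℝ)] with t h1 h0
  have hp : 0 < t ^ (e + 1) := pow_pos h0 _
  have h2 : t ^ (γ - (e + 1)) = t ^ γ / t ^ (e + 1) := by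
    rw [← Real.rpow_natCast, ← Real.rpow_sub h0]; congr 1; push_cast; ring
  rw [h2, ← mul_div_assoc, le_div_iff₀' hp] at h1
  rw [abs_mul, abs_of_pos hp]
  exact h1

lemma tri_down (H : HF) (e : ℕ) : ∀ f ∈ H.car,
    (∀ γ : ℝ, 0 < γ → ∀ᶠ t in atTop, |RD f (e + 1) t| ≤ t ^ γ) →
      ∃ P : ℝ[X], P.coeff 0 = 0 ∧ P.natDegree ≤ e ∧ Slow fun t => f t - P.eval t := by
  induction e with
  | zero =>
    intro f hf h
    refine ⟨0, by simp, by simp, fun γ hγ => ?_⟩
    filter_upwards [h γ hγ, H.diff f hf] with t h1 h2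
    simpa [RD] using And.intro h2 h1
  | succ e ih =>
    intro f hf h
    have hg := H.iter hf (e + 1)
    have h' : ∀ γ : ℝ, 0 < γ →
        ∀ᶠ t in atTop, |t ^ (e + 2) * deriv (deriv^[e + 1] f) t| ≤ t ^ γ := by
      intro γ hγ
      filter_upwards [h γ hγ] with t ht
      unfold RD at ht
      rwa [Function.iterate_succ_apply' deriv (e + 1)] at ht
    obtain ⟨c, hc, -⟩ := tri_tail H hg e le_rfl (h' _ (by norm_num))
    set M : ℝ[X] := Polynomial.C (c / (e + 1).factorial) * Polynomial.X ^ (e + 1) with hM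
    have hMd : ∀ t : ℝ, (Polynomial.derivative^[e + 1] M).eval t = c := by
      intro t
      have hf0 : ((e + 1).factorial : ℝ) ≠ 0 := by exact_mod_cast Nat.factorial_ne_zero _
      rw [hM, Polynomial.iterate_derivative_C_mul, Polynomial.iterate_derivative_X_pow_eq_C_mul,
        Nat.descFactorial_self]
      simp only [Nat.sub_self, pow_zero, mul_one, Polynomial.eval_mul, Polynomial.eval_C]
      field_simp
    obtain ⟨P, hP0, hPd, hPs⟩ := ih (fun t => f t - M.eval t) (H.sub hf (H.poly M)) (by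
      intro γ hγ
      have hm : 0 < min (γ / 2) (1 / 2) := lt_min (by linarith) (by norm_num)
      obtain ⟨c', hc1, hc2⟩ := tri_tail H hg e (min_le_right (γ / 2) (1 / 2)) (h' _ hm)
      rw [tendsto_nhds_unique hc1 hc] at hc2
      filter_upwards [hc2, tri_iter_sub H hf M (e + 1), eventually_ge_atTop (1 : ℝ),
        tri_const_le 2 (show 0 < γ / 2 by linarith)] with t a1 a2 a3 a4
      unfold RD
      rw [a2, hMd]
      have ht : 0 < t := by linarith
      have a5 : t ^ min (γ / 2) (1 / 2) ≤ t ^ (γ / 2) :=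
        Real.rpow_le_rpow_of_exponent_le a3 (min_le_left _ _)
      calc _ ≤ 2 * t ^ min (γ / 2) (1 / 2) := a1
        _ ≤ t ^ (γ / 2) * t ^ (γ / 2) :=
            mul_le_mul a4 a5 (Real.rpow_nonneg ht.le _) (Real.rpow_nonneg ht.le _)
        _ = t ^ γ := by rw [← Real.rpow_add ht]; congr 1; ring)
    refine ⟨M + P, ?_, ?_, ?_⟩
    · rw [Polynomial.coeff_add, hP0, hM, Polynomial.coeff_C_mul_X_pow]
      simp
    · exact Polynomial.natDegree_add_le_of_degree_le
        (Polynomial.natDegree_C_mul_X_pow_le _ _) (hPd.trans (Nat.le_succ e))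
    · simpa only [Polynomial.eval_add, sub_sub] using hPs

lemma tri_rat (P : ℝ[X]) (j : ℕ) (h : ∀ i, j < i → ¬ Irrational (P.coeff i)) :
    ∃ q : ℕ, 1 ≤ q ∧ RatAbove P j q := by
  have h1 : ∀ i, ∃ x : ℚ, j < i → (x : ℝ) = P.coeff i := by
    intro i
    by_cases hi : j < i
    · have h2 := h i hi
      unfold Irrational at h2
      push Not at h2
      obtain ⟨x, hx⟩ := h2
      exact ⟨x, fun _ => hx⟩
    · exact ⟨0, fun h => absurd h hi⟩
  choose x hx using h1
  refine ⟨∏ i ∈ range (P.natDegree + 1), (x i).den,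
    Finset.prod_pos fun i _ => (x i).den_pos, fun i hi => ?_⟩
  by_cases hd : i ≤ P.natDegree
  · obtain ⟨k, hk⟩ := Finset.dvd_prod_of_mem (fun i => (x i).den)
      (mem_range.2 (Nat.lt_succ_of_le hd))
    refine ⟨k * (x i).num, ?_⟩
    rw [hk, ← hx i hi]
    have h3 : ((x i).den : ℝ) * (x i : ℝ) = (x i).num := by exact_mod_cast Rat.den_mul_eq_num _
    push_cast
    rw [← h3]
    ring
  · refine ⟨0, ?_⟩
    rw [Polynomial.coeff_eq_zero_of_natDegree_lt (not_le.1 hd)]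
    simp

lemma tri_log (H : HF) {b : ℝ → ℝ} (hb : b ∈ H.car) {P : ℝ[X]} {q : ℕ} (hq : 1 ≤ q)
    (hP : RatAbove P 0 q) (hs : Slow fun t => b t - P.eval t)
    (hR : Tendsto (fun t => |t * deriv (fun t => b t - P.eval t) t|) atTop atTop) :
    CaseLog b := by
  set r : ℝ → ℝ := fun t => b t - P.eval t with hr
  have hrm : r ∈ H.car := H.sub hb (H.poly P)
  set R₁ : ℝ → ℝ := fun t => t * deriv r t with hR₁
  have hRm : R₁ ∈ H.car := H.mul _ _ H.ident (H.der _ hrm)
  set S₁ : ℝ → ℝ := fun t => t * deriv R₁ t with hS₁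
  have hSm : S₁ ∈ H.car := H.mul _ _ H.ident (H.der _ hRm)
  have hL : Tendsto (fun t => Real.log t ^ 2 * |S₁ t|) atTop atTop := by
    rcases H.bdd_or (H.mul _ _ (H.pow (H.log _ H.ident) 2) hSm) with ⟨C, hC⟩ | hC
    · exfalso
      obtain ⟨c, hc, -⟩ := tri_squeeze H (u := fun t => C * (Real.log t)⁻¹)
        (u' := fun t => C * (-t⁻¹ / Real.log t ^ 2)) hRm (by
          filter_upwards [hC, eventually_gt_atTop (1 : ℝ)] with t h1 h0
          have ht : 0 < t := by linarith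
          have hl : 0 < Real.log t := Real.log_pos h0
          refine ⟨((Real.hasDerivAt_log ht.ne').inv hl.ne').const_mul C, ?_⟩
          have hp : 0 < Real.log t ^ 2 * t := by positivity
          simp only [hS₁] at h1
          rw [← mul_assoc, abs_mul, abs_of_pos hp, ← le_div_iff₀' hp] at h1
          refine h1.trans (le_of_eq ?_)
          field_simp) (by
          have h1 := Real.tendsto_log_atTop.inv_tendsto_atTop.const_mul C
          rw [mul_zero] at h1
          exact h1)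
      exact not_tendsto_atTop_of_tendsto_nhds hc.abs hR
    · refine hC.congr fun t => ?_
      rw [abs_mul, abs_of_nonneg (sq_nonneg _)]
  have hsign : (∀ᶠ t in atTop, 0 < S₁ t) ∨ ∀ᶠ t in atTop, S₁ t < 0 := by
    rcases H.sign _ hSm with h1 | h1
    · obtain ⟨t, a1, a2⟩ := (h1.and (hL.eventually_gt_atTop 0)).exists
      rw [a1] at a2
      simp at a2
    · exact h1
  obtain ⟨T₁, -, hT₁⟩ := H.mono hSm
  have hev : ∀ᶠ t in atTop, 1 ≤ t ∧ T₁ ≤ t ∧ HasDerivAt r (R₁ t / t) t ∧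
      HasDerivAt R₁ (S₁ t / t) t := by
    filter_upwards [eventually_ge_atTop (1 : ℝ), eventually_ge_atTop T₁, H.diff _ hrm,
      H.diff _ hRm] with t a1 a2 a3 a4
    have ht : t ≠ 0 := by linarith
    refine ⟨a1, a2, ?_, ?_⟩
    · simpa only [hR₁, mul_div_cancel_left₀ _ ht] using a3.hasDerivAt
    · simpa only [hS₁, mul_div_cancel_left₀ _ ht] using a4.hasDerivAt
  have hfin : ∃ T : ℝ, (∀ t, T ≤ t → 1 ≤ t ∧ T₁ ≤ t ∧ HasDerivAt r (R₁ t / t) t ∧
      HasDerivAt R₁ (S₁ t / t) t) ∧ ((∀ t, T ≤ t → 0 < S₁ t) ∨ ∀ t, T ≤ t → S₁ t < 0) := by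
    rcases hsign with h1 | h1
    · obtain ⟨T, hT⟩ := eventually_atTop.1 (hev.and h1)
      exact ⟨T, fun t ht => (hT t ht).1, Or.inl fun t ht => (hT t ht).2⟩
    · obtain ⟨T, hT⟩ := eventually_atTop.1 (hev.and h1)
      exact ⟨T, fun t ht => (hT t ht).1, Or.inr fun t ht => (hT t ht).2⟩
  obtain ⟨T, hT, hT'⟩ := hfin
  have hsub : Set.Ici T ⊆ Set.Ici T₁ := fun t ht => (hT t ht).2.1
  refine ⟨P, q, r, R₁, S₁, T, hq, hP, fun _ => rfl, hs, (hT T le_rfl).1,
    fun t ht => (hT t ht).2.2, ?_, hT', hR, hL⟩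
  rcases hT₁ with h1 | h1
  · exact Or.inl (h1.2.mono hsub)
  · exact Or.inr (h1.2.mono hsub)

theorem tri (H : HF) {b : ℝ → ℝ} (hb : b ∈ H.car) {A : ℕ} (h : ∀ᶠ t in atTop, |b t| ≤ t ^ A) :
    CaseF b ∨ CaseIrr b ∨ CaseLog b ∨ ∃ (P : ℝ[X]) (q : ℕ) (C : ℝ), 1 ≤ q ∧ RatAbove P 0 q ∧
      P.coeff 0 = 0 ∧ P.natDegree ≤ A + 2 ∧
        ∀ᶠ t in atTop, |t * deriv (fun t => b t - P.eval t) t| ≤ C := by
  rcases tri_dich H hb h with h1 | h1
  · exact Or.inl h1
  right
  obtain ⟨P, hP0, hPd, hPs⟩ := tri_down H (A + 1) b hb h1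
  have hex : ∃ j, ∀ i, j < i → ¬ Irrational (P.coeff i) := ⟨P.natDegree, fun i hi => by
    rw [Polynomial.coeff_eq_zero_of_natDegree_lt hi]
    exact not_irrational_zero⟩
  obtain ⟨q, hq, hPq⟩ := tri_rat P (Nat.find hex) (Nat.find_spec hex)
  rcases Nat.eq_zero_or_pos (Nat.find hex) with hj | hj
  · right
    rw [hj] at hPq
    rcases H.bdd_or (H.mul _ _ H.ident (H.der _ (H.sub hb (H.poly P)))) with ⟨C, hC⟩ | hC
    · exact Or.inr ⟨P, q, C, hq, hPq, hP0, hPd.trans (Nat.le_succ _), hC⟩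
    · exact Or.inl (tri_log H hb hq hPq hPs hC)
  · left
    refine ⟨P, Nat.find hex, q, hj, hq, ?_, hPq, hPs⟩
    have h2 := Nat.find_min hex (show Nat.find hex - 1 < Nat.find hex by omega)
    push Not at h2
    obtain ⟨i, hi, hirr⟩ := h2
    have h3 : ¬ Nat.find hex < i := fun h4 => Nat.find_spec hex i h4 hirr
    have h4 : i = Nat.find hex := by omega
    exact h4 ▸ hirr

end Pool.Agent.MP_357fb4_an
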