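import Pool.Agent.MP_357fb4_an.JE
import Pool.Agent.MP_357fb4_an.Floor
import Pool.Agent.MP_357fb4_an.Erg
import Pool.Agent.MP_357fb4_an.BilW
import Pool.Agent.MP_357fb4_an.PrimeSum
import Pool.Agent.MP_357fb4_an.CaseF
import Pool.Agent.MP_357fb4_an.CaseIrr
import Pool.Agent.MP_357fb4_an.CaseLog
import Pool.Agent.MP_357fb4_an.Glob3
import Pool.Agent.MP_357fb4_an.HExt
import Pool.Agent.MP_357fb4_an.ExW
import Pool.Agent.MP_357fb4_an.Tri
import Pool.Agent.MP_357fb4_an.SC0

/-!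
Assembly.
-/

open scoped BigOperators Classical ComplexConjugate Polynomial
open Finset Filter MeasureTheory Topology

noncomputable section

namespace Pool.Agent.MP_357fb4_an

lemma int_poly {P : ℝ[X]} {q : ℕ} (h : RatAbove P 0 q) (h0 : P.coeff 0 = 0) :
    ∃ p : ℤ[X], ∀ t : ℝ, Polynomial.aeval t p = q * P.eval t := by
  have : Polynomial.C (q : ℝ) * P ∈ Polynomial.lifts (Int.castRingHom ℝ) := by
    rw [Polynomial.lifts_iff_coeff_lifts]
    intro n
    rcases Nat.eq_zero_or_pos n with rfl | hn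
    · exact ⟨0, by simp [h0]⟩
    · obtain ⟨m, hm⟩ := h n hn
      exact ⟨m, by simp [hm]⟩
  obtain ⟨p, hp⟩ := (Polynomial.mem_lifts _).1 this
  refine ⟨p, fun t => ?_⟩
  have := congrArg (Polynomial.eval t) hp
  rw [Polynomial.eval_map, Polynomial.eval_mul, Polynomial.eval_C] at this
  rw [← this, Polynomial.aeval_def]
  rfl

lemma comb_growth {ι : Type} [Fintype ι] {a : ι → ℝ → ℝ} {A : ℕ}
    (hA : ∀ i, ∀ᶠ t in atTop, |a i t| ≤ t ^ A) (c : ι → ℝ) :
    ∀ᶠ t in atTop, |∑ i, c i * a i t| ≤ t ^ (A + 1) := by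
  filter_upwards [eventually_all.2 hA, eventually_ge_atTop (∑ i, |c i|), eventually_ge_atTop 0]
    with t h1 h2 h3
  refine (abs_sum_le_sum_abs _ _).trans ?_
  calc ∑ i, |c i * a i t| ≤ ∑ i, |c i| * t ^ A := sum_le_sum fun i _ => by
        rw [abs_mul]; exact mul_le_mul_of_nonneg_left (h1 i) (abs_nonneg _)
    _ = (∑ i, |c i|) * t ^ A := by rw [sum_mul]
    _ ≤ t * t ^ A := mul_le_mul_of_nonneg_right h2 (by positivity)
    _ = _ := by ring

lemma glob_of {W b : ℝ → ℝ} {T A : ℕ} (hW : Wt W T) (hs : Sm b A) (h1 : TI fun n => ec (b n))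
    (h2 : Pair fun n => ec (b n)) :
    Tendsto (fun j => ∑ n ∈ range j, (lam W T j n : ℂ) * ec (b n)) atTop (𝓝 0) :=
  glob1 hW (fun _ => (norm_ec _).le) (primesum (locpoly hs) h1 (bilw (locpoly hs) (bil_of_pair h2)))

/-- Equidistribution along the primes. -/
lemma eqall (H : HF) {ι : Type} [Fintype ι] {a : ι → ℝ → ℝ} (ha : ∀ i, a i ∈ H.car) {A : ℕ}
    (hA : ∀ i, ∀ᶠ t in atTop, |a i t| ≤ t ^ A)
    (hfar : ∀ c : ι → ℝ, c ≠ 0 → ∀ p : ℤ[X],
      Tendsto (fun t : ℝ => |(∑ i, c i * a i t) - Polynomial.aeval t p|) atTop atTop)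
    {W : ℝ → ℝ} (hWH : W ∈ H.car) {T : ℕ} (hW : Wt W T)
    (hAdm : ∀ (c : ι → ℝ) (P : ℝ[X]), P.natDegree ≤ A + 3 →
      Tendsto (fun t => |∑ i, c i * a i t - P.eval t|) atTop atTop →
        Adm H W fun t => ∑ i, c i * a i t - P.eval t)
    (c : ι → ℝ) (hc : c ≠ 0) :
    Tendsto (fun j => ∑ n ∈ range j, (lam W T j n : ℂ) * ec (∑ i, c i * a i n)) atTop (𝓝 0) := by
  obtain ⟨b, hbd⟩ : ∃ b : ℝ → ℝ, b = fun t => ∑ i, c i * a i t := ⟨_, rfl⟩
  have hb : b ∈ H.car := hbd ▸ H.sum univ fun i _ => H.mul _ _ (H.const (c i)) (ha i)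
  have hg : ∀ᶠ t in atTop, |b t| ≤ t ^ (A + 1) := hbd ▸ comb_growth hA c
  have hs := H.sm hb hg
  have h1 : ∀ n : ℕ, ‖(fun n : ℕ => ec (b n)) n‖ ≤ 1 := fun n => (norm_ec _).le
  suffices h : Tendsto (fun j => ∑ n ∈ range j, (lam W T j n : ℂ) * ec (b n)) atTop (𝓝 0) by
    simpa only [hbd] using h
  rcases tri H hb hg with h | h | h | ⟨P, q, C, hq, hP, hP0, hd, hC⟩
  · exact glob_of hW hs (ti_F hs h) (pair_of_far h1 (far_F hs h))
  · exact glob_of hW hs (ti_Irr h) (pair_Irr h)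
  · exact glob_of hW hs (ti_Log h) (pair_of_far h1 (far_Log h))
  · obtain ⟨p, hp⟩ := int_poly hP hP0
    have hq0 : (0 : ℝ) < q := by exact_mod_cast hq
    have h2 := hfar (fun i => q * c i) (fun h => hc (funext fun i => by
      have := congrFun h i
      simpa [hq0.ne'] using this)) p
    have h3 : Tendsto (fun t => |∑ i, c i * a i t - P.eval t|) atTop atTop := by
      refine (h2.atTop_div_const hq0).congr fun t => ?_
      rw [hp, div_eq_iff hq0.ne', ← abs_of_pos hq0, ← abs_mul, abs_of_pos hq0]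
      congr 1
      simp only [mul_assoc, ← mul_sum]
      ring
    have h4 : Adm H W fun t => b t - P.eval t := by
      simpa only [hbd] using hAdm c P (by omega) h3
    exact eq2 hW (caseII_of H hWH hq hP h4 hC)

/-- Joint ergodicity along the primes. -/
theorem main_erg (H : HF) {ι : Type} [Fintype ι] {a : ι → ℝ → ℝ} (ha : ∀ i, a i ∈ H.car)
    (hgr : ∀ i, ∃ d : ℕ, ∀ᶠ t in atTop, |a i t| ≤ t ^ d)
    (hfar : ∀ c : ι → ℝ, c ≠ 0 → ∀ p : ℤ[X],
      Tendsto (fun t : ℝ => |(∑ i, c i * a i t) - Polynomial.aeval t p|) atTop atTop)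
    {Y : Type} [MeasurableSpace Y] {μ : Measure Y} [IsProbabilityMeasure μ] (S : Sys ℤ Y μ)
    (erg : Ergodic (S.act 1) μ) {F : Y → ℂ} {f : ι → Y → ℂ} (hF : B1 F) (hf : ∀ i, B1 (f i))
    (h0 : ∀ n : ℕ, n.Prime → (corr S F f fun i => ⌊a i n⌋) = 0) :
    (∫ y, F y ∂μ) * ∏ i, ∫ y, f i y ∂μ = 0 := by
  choose d hd using hgr
  set A := univ.sup d with hAd
  have hA : ∀ i, ∀ᶠ t in atTop, |a i t| ≤ t ^ A := fun i => by
    filter_upwards [hd i, eventually_ge_atTop 1] with t h1 h2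
    exact h1.trans (pow_le_pow_right₀ h2 (le_sup (f := d) (mem_univ i)))
  obtain ⟨W, hWH, T, hW, hAdm⟩ := exW H ha (A + 3)
  have hm := mass hW
  have hev : ∀ᶠ j in atTop, T ≤ j ∧ ∑ n ∈ range j, lam W T j n ≤ 1 :=
    (eventually_ge_atTop T).and (hm.eventually (eventually_le_nhds (by norm_num)))
  set c : ℕ → ℕ → ℝ := fun j n =>
    if T ≤ j ∧ ∑ n ∈ range j, lam W T j n ≤ 1 then lam W T j n else 0 with hcd
  have hce : ∀ᶠ j in atTop, c j = lam W T j := hev.mono fun j hj => funext fun n => if_pos hj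
  have hc0 : ∀ j n, 0 ≤ c j n := fun j n => by
    simp only [hcd]
    split_ifs with h
    · exact lam_nonneg hW h.1 n
    · exact le_rfl
  have hc1 : ∀ j, ∑ n ∈ range j, c j n ≤ 1 := fun j => by
    by_cases h : T ≤ j ∧ ∑ n ∈ range j, lam W T j n ≤ 1
    · simpa only [hcd, if_pos h] using h.2
    · simp only [hcd, if_neg h]; simp
  have hEQ := eqfloor (fun i n => a i n) c hc0 hc1 fun α hα =>
    (eqall H ha hA hfar hWH hW hAdm α hα).congr' (hce.mono fun j hj => by simp only [hj])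
  have key := je S erg (fun i n => ⌊a i n⌋) c hc0 hc1 hEQ (fun m => by
    let e : Option {i // i ≠ m} → ι → ℝ := fun o =>
      o.elim (-Pi.single m 1) fun i => Pi.single i.1 1 - Pi.single m 1
    have he : ∀ o t, ∑ i, e o i * a i t = o.elim (-a m t) fun i => a i t - a m t := by
      intro o t
      cases o with
      | none => simp [e, Pi.single_apply]
      | some i => simp [e, Pi.single_apply, sub_mul]
    have he0 : ∀ o, e o ≠ 0 := by
      intro o h
      have := congrFun h m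
      cases o with
      | none => simp [e] at this
      | some i => simp [e, Pi.single_eq_of_ne i.2.symm] at this
    obtain ⟨s, hs, h⟩ := sc0 H hWH hW S (fun o t => ∑ i, e o i * a i t)
      (fun o => by simpa using hAdm (e o) 0 (by simp) (by simpa using hfar (e o) (he0 o) 0))
      (A + 1) fun o => comb_growth hA (e o)
    refine ⟨s, hs, ?_⟩
    have h' : Ctl S s c fun o (n : ℕ) => ∑ i, e o i * a i n := fun B ε hε => by
      obtain ⟨δ, hδ, h⟩ := h B ε hε
      refine ⟨δ, hδ, fun K hK => ?_⟩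
      filter_upwards [h K hK, hce] with j h1 h2
      rw [h2]; exact h1
    refine h'.congr (B₀ := 1) fun o n => ?_
    rw [he]
    have u1 := fun i => Int.floor_le (a i n)
    have u2 := fun i => Int.lt_floor_add_one (a i n)
    cases o with
    | none => simp only [Option.elim]; rw [abs_le]; constructor <;> linarith [u1 m, u2 m]
    | some i =>
      simp only [Option.elim]; rw [abs_le]
      constructor <;> linarith [u1 m, u2 m, u1 i, u2 i]) hF hf
  set P := (∫ y, F y ∂μ) * ∏ i, ∫ y, f i y ∂μ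
  have h2 : Tendsto (fun j => ∑ n ∈ range j, (c j n : ℂ) *
      ((corr S F f fun i => ⌊a i n⌋) - P)) atTop (𝓝 (((1 / 2 : ℝ) : ℂ) * -P)) := by
    refine ((Complex.continuous_ofReal.tendsto _).comp hm).mul_const (-P) |>.congr' ?_
    filter_upwards [hce] with j hj
    simp only [hj, Function.comp, Complex.ofReal_sum, sum_mul]
    refine sum_congr rfl fun n _ => ?_
    by_cases hn : n.Prime
    · rw [h0 n hn, zero_sub]
    · simp [lam, th, hn]
  simpa using tendsto_nhds_unique h2 key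

end Pool.Agent.MP_357fb4_an
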