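import Pool.Agent.MP_357fb4_an.Nu

/-!
From single scales to the weighted averages.
-/

open scoped BigOperators Classical ComplexConjugate Polynomial
open Finset Filter MeasureTheory Topology

noncomputable section

namespace Pool.Agent.MP_357fb4_an

lemma Glob1_three {W : ℝ → ℝ} {T : ℕ} (hW : Wt W T) {t : ℝ} (ht : (T : ℝ) ≤ t) : 3 ≤ t := by
  have : (3 : ℝ) ≤ T := by exact_mod_cast hW.three
  linarith

theorem Wt.mono {W : ℝ → ℝ} {T : ℕ} (hW : Wt W T) : StrictMonoOn W (Set.Ici (T : ℝ)) := by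
  refine strictMonoOn_of_deriv_pos (convex_Ici _) ?_ ?_
  · exact fun t ht => (hW.diff t ht).continuousAt.continuousWithinAt
  · intro t ht
    exact hW.pos t (Set.mem_Ici.1 (interior_subset ht))

theorem Wt.anti1 {W : ℝ → ℝ} {T : ℕ} (hW : Wt W T) :
    AntitoneOn (fun t => t * deriv W t) (Set.Ici (T : ℝ)) := by
  intro s hs t ht hst
  have h3 := Glob1_three hW hs
  have h := hW.anti hs ht hst
  have hl : 0 < Real.log s := Real.log_pos (by linarith)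
  have hl' : Real.log s ≤ Real.log t := Real.log_le_log (by linarith) hst
  have hp : 0 ≤ t * deriv W t := mul_nonneg (by linarith) (hW.pos t ht).le
  simp only at h ⊢
  refine le_of_mul_le_mul_right ?_ hl
  nlinarith [mul_le_mul_of_nonneg_left hl' hp]

theorem Wt.anti0 {W : ℝ → ℝ} {T : ℕ} (hW : Wt W T) : AntitoneOn (deriv W) (Set.Ici (T : ℝ)) := by
  intro s hs t ht hst
  have h3 := Glob1_three hW hs
  have h := hW.anti1 hs ht hst
  have hp := (hW.pos t ht).le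
  simp only at h
  refine le_of_mul_le_mul_left (a := s) ?_ (by linarith)
  nlinarith [mul_le_mul_of_nonneg_right hst hp]

theorem Wt.deriv_le {W : ℝ → ℝ} {T : ℕ} (hW : Wt W T) {s t : ℝ} (hs : T ≤ s) (hst : s ≤ t) :
    (t - s) * deriv W t ≤ W t - W s := by
  rcases hst.eq_or_lt with rfl | hlt
  · simp
  obtain ⟨c, hc, hc'⟩ := exists_deriv_eq_slope W hlt
    (fun x hx => (hW.diff x (hs.trans hx.1)).continuousAt.continuousWithinAt)
    (fun x hx => (hW.diff x (hs.trans hx.1.le)).differentiableWithinAt)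
  have h := hW.anti0 (Set.mem_Ici.2 (hs.trans hc.1.le)) (Set.mem_Ici.2 (hs.trans hst)) hc.2.le
  rw [hc', le_div_iff₀ (by linarith)] at h
  linarith

theorem Wt.later {W : ℝ → ℝ} {T T' : ℕ} (hW : Wt W T) (h : T ≤ T') : Wt W T' := by
  have h' : (T : ℝ) ≤ T' := by exact_mod_cast h
  exact ⟨hW.three.trans h, fun t ht => hW.diff t (h'.trans ht), fun t ht => hW.pos t (h'.trans ht),
    hW.anti.mono (Set.Ici_subset_Ici.2 h'), hW.top,
    hW.nonneg.trans (hW.mono.monotoneOn (Set.mem_Ici.2 le_rfl) (Set.mem_Ici.2 h') h')⟩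

lemma Glob1_th_nonneg (n : ℕ) : 0 ≤ th n := by
  unfold th
  split_ifs
  · exact Real.log_natCast_nonneg n
  · exact le_rfl

theorem lam_nonneg {W : ℝ → ℝ} {T : ℕ} (hW : Wt W T) {j : ℕ} (hj : T ≤ j) (n : ℕ) :
    0 ≤ lam W T j n := by
  unfold lam
  split_ifs with h
  · exact div_nonneg (mul_nonneg (Glob1_th_nonneg n) (hW.pos n (by exact_mod_cast h)).le)
      (mul_nonneg zero_le_two (hW.later hj).nonneg)
  · exact le_rfl

lemma Glob1_top {W : ℝ → ℝ} {T : ℕ} (hW : Wt W T) (c : ℝ) :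
    Tendsto (fun j : ℕ => c / (2 * W j)) atTop (𝓝 0) :=
  ((hW.top.comp tendsto_natCast_atTop_atTop).const_mul_atTop two_pos).const_div_atTop c

/-- The sum without the normalisation. -/
lemma Glob1_split (W : ℝ → ℝ) (φ : ℕ → ℂ) {T N j : ℕ} (h : T ≤ N) (hj : N ≤ j) :
    ∑ n ∈ range j, (lam W T j n : ℂ) * φ n =
      (∑ n ∈ Ico T N, ((th n * deriv W n : ℝ) : ℂ) * φ n +
        ∑ n ∈ Ico N j, ((th n * deriv W n : ℝ) : ℂ) * φ n) / ((2 * W j : ℝ) : ℂ) := by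
  rw [Finset.sum_Ico_consecutive _ h hj, Finset.sum_div, Finset.range_eq_Ico,
    ← Finset.sum_Ico_consecutive _ (Nat.zero_le T) (h.trans hj)]
  rw [Finset.sum_eq_zero (s := Ico 0 T), zero_add]
  · refine Finset.sum_congr rfl fun n hn => ?_
    rw [lam, if_pos (Finset.mem_Ico.1 hn).1]
    push_cast
    ring
  · intro n hn
    rw [lam, if_neg (not_le.2 (Finset.mem_Ico.1 hn).2)]
    simp

/-- Changing the starting point does not change the limit. -/
theorem lam_later {W : ℝ → ℝ} {T T' : ℕ} (hW : Wt W T) (h : T ≤ T') (φ : ℕ → ℂ) :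
    Tendsto (fun j => ∑ n ∈ range j, (lam W T j n : ℂ) * φ n -
      ∑ n ∈ range j, (lam W T' j n : ℂ) * φ n) atTop (𝓝 0) := by
  rw [tendsto_zero_iff_norm_tendsto_zero]
  refine (Glob1_top hW ‖∑ n ∈ Ico T T', ((th n * deriv W n : ℝ) : ℂ) * φ n‖).congr' ?_
  filter_upwards [eventually_ge_atTop T'] with j hj
  rw [Glob1_split W φ h hj, Glob1_split W φ le_rfl hj, ← sub_div]
  simp only [Finset.Ico_self, Finset.sum_empty, zero_add, add_sub_cancel_right, norm_div,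
    Complex.norm_real, Real.norm_eq_abs]
  rw [abs_of_nonneg (mul_nonneg zero_le_two (hW.later (h.trans hj)).nonneg)]

/-- The antitone density. -/
def Glob1_rho (W : ℝ → ℝ) (t : ℝ) : ℝ := t * Real.log t * deriv W t

lemma Glob1_rho_nonneg {W : ℝ → ℝ} {T : ℕ} (hW : Wt W T) {t : ℝ} (ht : (T : ℝ) ≤ t) :
    0 ≤ Glob1_rho W t := by
  have h3 := Glob1_three hW ht
  exact mul_nonneg (mul_nonneg (by linarith) (Real.log_nonneg (by linarith))) (hW.pos t ht).le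

lemma Glob1_rho_anti {W : ℝ → ℝ} {T : ℕ} (hW : Wt W T) {s t : ℝ} (hs : (T : ℝ) ≤ s) (h : s ≤ t) :
    Glob1_rho W t ≤ Glob1_rho W s :=
  hW.anti (Set.mem_Ici.2 hs) (Set.mem_Ici.2 (hs.trans h)) h

lemma Glob1_gain {W : ℝ → ℝ} {T : ℕ} (hW : Wt W T) {s : ℝ} (hs : (T : ℝ) ≤ s) :
    Glob1_rho W (s ^ 2) * Real.log 2 ≤ W (s ^ 2) - W s := by
  have h3 := Glob1_three hW hs
  have hlt : s < s ^ 2 := by nlinarith
  have hd : ∀ x, s ≤ x → HasDerivAt (fun t => Real.log (Real.log t)) (x⁻¹ / Real.log x) x :=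
    fun x hx => (Real.hasDerivAt_log (by linarith)).log (Real.log_pos (by linarith)).ne'
  obtain ⟨c, hc, hc'⟩ := exists_ratio_hasDerivAt_eq_ratio_slope W (deriv W) hlt
    (fun x hx => (hW.diff x (hs.trans hx.1)).continuousAt.continuousWithinAt)
    (fun x hx => (hW.diff x (hs.trans hx.1.le)).hasDerivAt)
    (fun t => Real.log (Real.log t)) (fun x => x⁻¹ / Real.log x)
    (fun x hx => (hd x hx.1).continuousAt.continuousWithinAt) (fun x hx => hd x hx.1.le)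
  have hl : 0 < Real.log s := Real.log_pos (by linarith)
  have e : Real.log (Real.log (s ^ 2)) - Real.log (Real.log s) = Real.log 2 := by
    rw [Real.log_pow, Real.log_mul (by norm_num) hl.ne']
    simp
  rw [e] at hc'
  have hc0 : 0 < c := by linarith [hc.1]
  have hlc : 0 < Real.log c := Real.log_pos (by linarith [hc.1])
  have e2 : W (s ^ 2) - W s = Glob1_rho W c * Real.log 2 := by
    unfold Glob1_rho
    field_simp at hc'
    linarith
  rw [e2]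
  exact mul_le_mul_of_nonneg_right (Glob1_rho_anti hW (hs.trans hc.1.le) hc.2.le)
    (Real.log_nonneg one_le_two)

lemma Glob1_primes (W : ℝ → ℝ) (φ : ℕ → ℂ) (s : Finset ℕ) :
    ∑ n ∈ s, ((th n * deriv W n : ℝ) : ℂ) * φ n =
      ∑ p ∈ s.filter Nat.Prime, (Glob1_rho W p : ℂ) * (φ p / p) := by
  rw [Finset.sum_filter]
  refine Finset.sum_congr rfl fun n _ => ?_
  unfold th Glob1_rho
  split_ifs with h
  · have : (n : ℂ) ≠ 0 := by exact_mod_cast h.ne_zero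
    push_cast
    field_simp
  · simp

lemma Glob1_small {φ : ℕ → ℂ} (hφ : ∀ n, ‖φ n‖ ≤ 1) {C : ℝ}
    (hC : ∀ y : ℝ, 1 ≤ y → ∀ s : Finset ℕ,
      (∀ p ∈ s, p.Prime ∧ y < p ∧ (p : ℝ) ≤ y ^ 2) → ∑ p ∈ s, (1 : ℝ) / p ≤ C)
    {N m : ℕ} (hN : 1 ≤ N) (hm : m ≤ N ^ 2) (c : ℕ → ℝ) {B : ℝ} (hB : 0 ≤ B)
    (hc : ∀ p ∈ Ioc N m, |c p| ≤ B) :
    ‖∑ p ∈ (Ioc N m).filter Nat.Prime, (c p : ℂ) * (φ p / p)‖ ≤ B * C := by
  refine (norm_sum_le _ _).trans (le_trans ?_ (mul_le_mul_of_nonneg_left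
    (hC N (by exact_mod_cast hN) ((Ioc N m).filter Nat.Prime) fun p hp => ?_) hB))
  · rw [Finset.mul_sum]
    refine Finset.sum_le_sum fun p hp => ?_
    rw [norm_mul, norm_div, Complex.norm_real, Real.norm_eq_abs, Complex.norm_natCast]
    exact mul_le_mul (hc p (Finset.mem_filter.1 hp).1)
      (div_le_div_of_nonneg_right (hφ p) (Nat.cast_nonneg p)) (by positivity) hB
  · obtain ⟨h1, h2⟩ := Finset.mem_filter.1 hp
    obtain ⟨h3, h4⟩ := Finset.mem_Ioc.1 h1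
    exact ⟨h2, by exact_mod_cast h3, by exact_mod_cast h4.trans hm⟩

lemma Glob1_cell {W : ℝ → ℝ} {T : ℕ} (hW : Wt W T) {φ : ℕ → ℂ} (hφ : ∀ n, ‖φ n‖ ≤ 1) {C : ℝ}
    (hC : ∀ y : ℝ, 1 ≤ y → ∀ s : Finset ℕ,
      (∀ p ∈ s, p.Prime ∧ y < p ∧ (p : ℝ) ≤ y ^ 2) → ∑ p ∈ s, (1 : ℝ) / p ≤ C)
    {N : ℕ} (hN : T ≤ N) {ε : ℝ} (hε : 0 ≤ ε)
    (h : ‖∑ p ∈ (Ioc N (N ^ 2)).filter Nat.Prime, φ p / p‖ ≤ ε) :
    ‖∑ n ∈ Ioc N (N ^ 2), ((th n * deriv W n : ℝ) : ℂ) * φ n‖ ≤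
      (ε / Real.log 2 * W ((N ^ 2 : ℕ) : ℝ) - (C + ε) * Glob1_rho W ((N ^ 2 : ℕ) : ℝ)) -
        (ε / Real.log 2 * W N - (C + ε) * Glob1_rho W N) := by
  have hN' : (T : ℝ) ≤ N := by exact_mod_cast hN
  have h3 := Glob1_three hW hN'
  have hg := Glob1_gain hW hN'
  have h2 : 0 < Real.log 2 := Real.log_pos one_lt_two
  have hle : (N : ℝ) ≤ (N : ℝ) ^ 2 := by nlinarith
  have e : ∑ p ∈ (Ioc N (N ^ 2)).filter Nat.Prime, (Glob1_rho W p : ℂ) * (φ p / p) =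
      (Glob1_rho W N : ℂ) * ∑ p ∈ (Ioc N (N ^ 2)).filter Nat.Prime, φ p / p +
        ∑ p ∈ (Ioc N (N ^ 2)).filter Nat.Prime,
          ((Glob1_rho W p - Glob1_rho W N : ℝ) : ℂ) * (φ p / p) := by
    rw [Finset.mul_sum, ← Finset.sum_add_distrib]
    refine Finset.sum_congr rfl fun p _ => ?_
    push_cast
    ring
  have hs := Glob1_small hφ hC (N := N) (m := N ^ 2) (by have := hW.three; omega) le_rfl
    (fun p => Glob1_rho W p - Glob1_rho W N)
    (B := Glob1_rho W N - Glob1_rho W ((N : ℝ) ^ 2)) (sub_nonneg.2 (Glob1_rho_anti hW hN' hle))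
    (fun p hp => by
      obtain ⟨h4, h5⟩ := Finset.mem_Ioc.1 hp
      have h6 : (N : ℝ) ≤ p := by exact_mod_cast h4.le
      have h7 : (p : ℝ) ≤ (N : ℝ) ^ 2 := by exact_mod_cast h5
      rw [abs_sub_comm, abs_of_nonneg (sub_nonneg.2 (Glob1_rho_anti hW hN' h6))]
      linarith [Glob1_rho_anti hW (hN'.trans h6) h7])
  rw [Glob1_primes, e]
  refine (norm_add_le _ _).trans ?_
  rw [norm_mul, Complex.norm_real, Real.norm_eq_abs, abs_of_nonneg (Glob1_rho_nonneg hW hN')]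
  have h8 := mul_le_mul_of_nonneg_left h (Glob1_rho_nonneg hW hN')
  have h9 : ε * Glob1_rho W ((N : ℝ) ^ 2) ≤ ε / Real.log 2 * (W ((N : ℝ) ^ 2) - W N) := by
    rw [div_mul_eq_mul_div, mul_div_assoc]
    exact mul_le_mul_of_nonneg_left ((le_div_iff₀ h2).2 hg) hε
  push_cast at hs ⊢
  nlinarith

lemma Glob1_total {W : ℝ → ℝ} {T : ℕ} (hW : Wt W T) {φ : ℕ → ℂ} (hφ : ∀ n, ‖φ n‖ ≤ 1) {C : ℝ}
    (hC : ∀ y : ℝ, 1 ≤ y → ∀ s : Finset ℕ,
      (∀ p ∈ s, p.Prime ∧ y < p ∧ (p : ℝ) ≤ y ^ 2) → ∑ p ∈ s, (1 : ℝ) / p ≤ C)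
    {ε : ℝ} (hε : 0 ≤ ε)
    (h : ∀ N, T ≤ N → ‖∑ p ∈ (Ioc N (N ^ 2)).filter Nat.Prime, φ p / p‖ ≤ ε) {m : ℕ} (hm : T ≤ m) :
    ‖∑ n ∈ Ioc T m, ((th n * deriv W n : ℝ) : ℂ) * φ n‖ ≤
      ε / Real.log 2 * W m + (2 * C + ε) * Glob1_rho W T := by
  have hC0 : 0 ≤ C := by simpa using hC 1 le_rfl ∅ (by simp)
  have h2 : 0 ≤ ε / Real.log 2 := div_nonneg hε (Real.log_nonneg one_le_two)
  have hT := hW.three
  have hge : ∀ i : ℕ, T ≤ T ^ 2 ^ i := fun i => Nat.le_self_pow (by positivity) T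
  have hsq : ∀ i : ℕ, T ^ 2 ^ (i + 1) = (T ^ 2 ^ i) ^ 2 := fun i => by rw [pow_succ, pow_mul]
  have P : ∀ i : ℕ, ‖∑ n ∈ Ioc T (T ^ 2 ^ i), ((th n * deriv W n : ℝ) : ℂ) * φ n‖ ≤
      (ε / Real.log 2 * W ((T ^ 2 ^ i : ℕ) : ℝ) - (C + ε) * Glob1_rho W ((T ^ 2 ^ i : ℕ) : ℝ)) -
        (ε / Real.log 2 * W T - (C + ε) * Glob1_rho W T) := by
    intro i
    induction i with
    | zero => simp
    | succ i ih =>
      rw [hsq, ← Finset.sum_Ioc_consecutive _ (hge i) (Nat.le_self_pow two_ne_zero _)]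
      refine (norm_add_le _ _).trans ?_
      linarith [Glob1_cell hW hφ hC (hge i) hε (h _ (hge i))]
  have hr0 := Glob1_rho_nonneg hW (t := T) le_rfl
  have Q : ∀ i : ℕ, m ≤ T ^ 2 ^ i → ‖∑ n ∈ Ioc T m, ((th n * deriv W n : ℝ) : ℂ) * φ n‖ ≤
      ε / Real.log 2 * W m + (2 * C + ε) * Glob1_rho W T := by
    intro i
    induction i with
    | zero =>
      intro hi
      have : m = T := le_antisymm (by simpa using hi) hm
      subst this
      have := hW.nonneg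
      simp only [Finset.Ioc_self, Finset.sum_empty, norm_zero]
      positivity
    | succ i ih =>
      intro hi
      rcases le_total m (T ^ 2 ^ i) with h1 | h1
      · exact ih h1
      have hN' : (T : ℝ) ≤ ((T ^ 2 ^ i : ℕ) : ℝ) := by exact_mod_cast hge i
      have h1' : ((T ^ 2 ^ i : ℕ) : ℝ) ≤ m := by exact_mod_cast h1
      rw [← Finset.sum_Ioc_consecutive _ (hge i) h1]
      refine (norm_add_le _ _).trans ?_
      have hs := Glob1_small hφ hC (N := T ^ 2 ^ i) (m := m) (by have := hge i; omega)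
        (by rw [← hsq]; exact hi) (fun p => Glob1_rho W p) hr0
        (fun p hp => by
          have h6 : (T : ℝ) ≤ p := by exact_mod_cast (hge i).trans (Finset.mem_Ioc.1 hp).1.le
          rw [abs_of_nonneg (Glob1_rho_nonneg hW h6)]
          exact Glob1_rho_anti hW le_rfl h6)
      rw [← Glob1_primes] at hs
      have h4 := mul_le_mul_of_nonneg_left
        (hW.mono.monotoneOn (Set.mem_Ici.2 hN') (Set.mem_Ici.2 (hN'.trans h1')) h1') h2
      have h5 := mul_nonneg (add_nonneg hC0 hε) (Glob1_rho_nonneg hW hN')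
      have h6 := mul_nonneg h2 hW.nonneg
      nlinarith [P i]
  refine Q m ?_
  calc m ≤ 2 ^ m := Nat.lt_two_pow_self.le
    _ ≤ 2 ^ 2 ^ m := Nat.lt_two_pow_self.le
    _ ≤ T ^ 2 ^ m := Nat.pow_le_pow_left (by omega) _

theorem glob1 {W : ℝ → ℝ} {T : ℕ} (hW : Wt W T) {φ : ℕ → ℂ} (hφ : ∀ n, ‖φ n‖ ≤ 1) (h : LocI φ) :
    Tendsto (fun j => ∑ n ∈ range j, (lam W T j n : ℂ) * φ n) atTop (𝓝 0) := by
  obtain ⟨C, hC⟩ := prime_recip
  rw [NormedAddGroup.tendsto_nhds_zero]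
  intro ε hε
  have h2 : 0 < Real.log 2 := Real.log_pos one_lt_two
  obtain ⟨N₀, hN₀⟩ := eventually_atTop.1
    (NormedAddGroup.tendsto_nhds_zero.1 h (ε * Real.log 2) (mul_pos hε h2))
  set N := max T N₀ with hN
  have hTN : T ≤ N := le_max_left _ _
  have hW' := hW.later hTN
  set K := ‖∑ n ∈ Ico T (N + 1), ((th n * deriv W n : ℝ) : ℂ) * φ n‖ +
    (2 * C + ε * Real.log 2) * Glob1_rho W N with hK
  filter_upwards [eventually_ge_atTop (N + 1),
    (Glob1_top hW K).eventually (gt_mem_nhds (half_pos hε))] with j hj hj'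
  obtain ⟨m, rfl⟩ : ∃ m, j = m + 1 := ⟨j - 1, by omega⟩
  have hm : N ≤ m := by omega
  have hm' : (N : ℝ) ≤ m := by exact_mod_cast hm
  have ht := Glob1_total hW' hφ hC (mul_pos hε h2).le
    (fun M hM => (hN₀ M ((le_max_right _ _).trans hM)).le) hm
  have hlt : W m < W ((m + 1 : ℕ) : ℝ) :=
    hW'.mono (Set.mem_Ici.2 hm') (Set.mem_Ici.2 (by push_cast; linarith)) (by push_cast; linarith)
  have hpos : 0 < 2 * W ((m + 1 : ℕ) : ℝ) := by linarith [(hW'.later hm).nonneg]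
  have e : Ico (N + 1) (m + 1) = Ioc N m := by
    ext x
    simp only [Finset.mem_Ico, Finset.mem_Ioc]
    omega
  rw [Glob1_split W φ (N := N + 1) (by omega) hj, e, norm_div, Complex.norm_real, Real.norm_eq_abs,
    abs_of_pos hpos, div_lt_iff₀ hpos]
  rw [div_lt_iff₀ hpos] at hj'
  rw [mul_div_assoc, div_self h2.ne', mul_one] at ht
  refine (norm_add_le _ _).trans_lt ?_
  nlinarith [mul_lt_mul_of_pos_left hlt hε]

end Pool.Agent.MP_357fb4_an
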