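import Pool.Agent.MP_357fb4_an.Nu
import Pool.Agent.MP_14ad9d_nt.Full.WI

/-!
The prime number theorem in progressions.
-/

open scoped BigOperators Classical ComplexConjugate Polynomial
open Finset Filter MeasureTheory Topology

noncomputable section

namespace Pool.Agent.MP_357fb4_an

open ArithmeticFunction.vonMangoldt

theorem PNT_block (r : ℕ → ℝ) (t : ℝ) (h0 : ∀ n, 0 ≤ r n)
    (h1 : ∀ n, r n ≤ ArithmeticFunction.vonMangoldt n) (t0 : 0 ≤ t) (t1 : t ≤ 1) (j : ℕ)
    (s : Finset ℕ) (hs : ∀ n ∈ s, (j : ℝ) ≤ Real.log n ∧ Real.log n ≤ j + 1) :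
    ∑ n ∈ s, |(r n - t) / n| ≤ (Real.log 4 + 5) * Real.exp 1 := by
  have e0 := Real.exp_pos (j : ℝ)
  have e1 := Real.exp_pos ((j : ℝ) + 1)
  rw [← sum_filter_of_ne (p := fun n => n ≠ 0) fun n _ h h' => h (by simp [h'])]
  calc _ ≤ ∑ n ∈ s.filter (fun n => n ≠ 0),
        (ArithmeticFunction.vonMangoldt n + 1) / Real.exp j := by
        refine sum_le_sum fun n hn => ?_
        obtain ⟨a, b⟩ := mem_filter.1 hn
        have n0 : (0 : ℝ) < n := Nat.cast_pos.2 (Nat.pos_of_ne_zero b)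
        rw [abs_div, abs_of_pos n0]
        refine div_le_div₀ (by linarith [h0 n, h1 n]) (abs_le.2 ⟨?_, ?_⟩) e0
          ((Real.le_log_iff_exp_le n0).1 (hs n a).1) <;> linarith [h0 n, h1 n]
    _ ≤ ∑ n ∈ Ioc 0 ⌊Real.exp (j + 1)⌋₊, (ArithmeticFunction.vonMangoldt n + 1) / Real.exp j := by
        refine sum_le_sum_of_subset_of_nonneg (fun n hn => ?_) fun n _ _ =>
          div_nonneg (by linarith [h0 n, h1 n]) e0.le
        obtain ⟨a, b⟩ := mem_filter.1 hn
        have n0 : (0 : ℝ) < n := Nat.cast_pos.2 (Nat.pos_of_ne_zero b)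
        exact mem_Ioc.2 ⟨Nat.pos_of_ne_zero b,
          Nat.le_floor ((Real.log_le_iff_le_exp n0).1 (hs n a).2)⟩
    _ ≤ _ := by
        have a1 := Chebyshev.psi_le_const_mul_self e1.le
        have a2 := Nat.floor_le e1.le
        rw [Chebyshev.psi] at a1
        rw [← sum_div, sum_add_distrib, div_le_iff₀ e0, mul_assoc, ← Real.exp_add, add_comm 1]
        simp only [sum_const, Nat.card_Ioc, Nat.sub_zero, nsmul_eq_mul, mul_one]
        linarith

theorem PNT_smooth {q : ℕ} [NeZero q] {a : ZMod q} (ha : IsUnit a) (κ : ℝ → ℝ)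
    (hκ : Continuous κ) (hc : HasCompactSupport κ) :
    Tendsto (fun u : ℝ => ∑' n : ℕ,
      (residueClass a n - (q.totient : ℝ)⁻¹) / n * κ (Real.log n - u)) atTop (𝓝 0) := by
  have t1 : (1 : ℝ) ≤ q.totient := by exact_mod_cast Nat.totient_pos.2 (NeZero.pos q)
  have key := MP_14ad9d_nt.Full.wi
    (fun n : ℕ => (((residueClass a n - (q.totient : ℝ)⁻¹) / n : ℝ) : ℂ)) (fun n => Real.log n)
    (fun n => Real.log_natCast_nonneg n) ((Real.log 4 + 5) * Real.exp 1)
    (fun j s hs => by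
      simpa only [Complex.norm_real, Real.norm_eq_abs] using PNT_block _ _
        (residueClass_nonneg a) (residueClass_le a) (by positivity) (inv_le_one_of_one_le₀ t1)
        j s hs)
    (fun s => LFunctionResidueClassAux a (1 + s) - (q.totient : ℂ)⁻¹ * riemannZeta₀ (1 + s))
    (by
      refine ContinuousOn.sub ((continuousOn_LFunctionResidueClassAux a).comp
        (f := fun s : ℂ => 1 + s) (by fun_prop) fun s hs => ?_) ?_
      · have : 0 ≤ s.re := hs
        show 1 ≤ (1 + s).re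
        simpa using this
      · exact (continuous_const.mul (differentiable_riemannZeta₀.continuous.comp
          (by fun_prop))).continuousOn)
    (fun s hs => by
      have h1 : 1 < (1 + s).re := by simpa using hs
      have h2 : (1 + s) ≠ 1 := fun h => by simp [h] at h1
      have a1 := (LSeriesSummable_of_abscissaOfAbsConv_lt_re (s := 1 + s)
        ((abscissaOfAbsConv_residueClass_le_one a).trans_lt (by exact_mod_cast h1))).hasSum
      have a2 := a1.sub ((LSeriesHasSum_one h1).mul_left (q.totient : ℂ)⁻¹)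
      convert a2 using 1
      · rfl
      · funext n
        rcases eq_or_ne n 0 with rfl | hn
        · simp
        · have n0 : (n : ℂ) ≠ 0 := Nat.cast_ne_zero.2 hn
          rw [LSeries.term_of_ne_zero hn, LSeries.term_of_ne_zero hn, Complex.cpow_add _ _ n0,
            Complex.cpow_one, Complex.cpow_def_of_ne_zero n0, neg_mul, Complex.exp_neg,
            Complex.natCast_log, mul_comm s]
          push_cast
          simp only [Pi.one_apply]
          field_simp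
      · rw [eqOn_LFunctionResidueClassAux ha h1, riemannZeta_eq_inv_sub_add h2]
        simp only [LSeries]
        ring)
    (fun v => (κ v : ℂ)) (Complex.continuous_ofReal.comp hκ) (hc.comp_left Complex.ofReal_zero)
  have := (Complex.continuous_re.tendsto 0).comp key
  refine this.congr fun u => ?_
  simp only [Function.comp, ← Complex.ofReal_mul, ← Complex.ofReal_tsum, Complex.ofReal_re]

theorem PNT_ioc (g : ℕ → ℝ) {a b : ℕ} (h : a ≤ b) :
    ∑ n ∈ Ioc a b, g n = ∑ n ∈ range (b + 1), g n - ∑ n ∈ range (a + 1), g n := by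
  rw [← sum_Ico_eq_sub _ (Nat.succ_le_succ h)]
  refine sum_congr ?_ fun _ _ => rfl
  ext n
  simp only [mem_Ioc, mem_Ico]
  omega

theorem PNT_floor {α : ℝ} (h : 0 < α) : Tendsto (fun x : ℝ => ⌊α * x⌋₊) atTop atTop :=
  tendsto_nat_floor_atTop.comp (tendsto_id.const_mul_atTop h)

theorem PNT_harm₀ {α : ℝ} (h : 0 < α) :
    Tendsto (fun x : ℝ => ∑ n ∈ range (⌊α * x⌋₊ + 1), (1 : ℝ) / n - Real.log x) atTop
      (𝓝 (Real.eulerMascheroniConstant + Real.log α)) := by
  have a1 := Real.tendsto_harmonic_sub_log.comp (PNT_floor h)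
  have a2 := (tendsto_nat_floor_div_atTop.comp (tendsto_id.const_mul_atTop h)).log one_ne_zero
  have a3 := (a1.add a2).add_const (Real.log α)
  rw [Real.log_one, add_zero] at a3
  refine a3.congr' ?_
  filter_upwards [eventually_gt_atTop 0, (PNT_floor h).eventually (eventually_gt_atTop 0)]
    with x hx hf
  simp only [Function.comp, id]
  rw [Real.log_div (Nat.cast_pos.2 hf).ne' (mul_pos h hx).ne', Real.log_mul h.ne' hx.ne',
    sum_range_succ', harmonic]
  push_cast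
  simp only [one_div, inv_zero]
  ring

theorem PNT_harm {α β : ℝ} (h : 0 < α) (h' : α ≤ β) :
    Tendsto (fun x : ℝ => ∑ n ∈ Ioc ⌊α * x⌋₊ ⌊β * x⌋₊, (1 : ℝ) / n) atTop
      (𝓝 (Real.log β - Real.log α)) := by
  have a := (PNT_harm₀ (h.trans_le h')).sub (PNT_harm₀ h)
  rw [add_sub_add_left_eq_sub] at a
  refine a.congr' ?_
  filter_upwards [eventually_gt_atTop 0] with x hx
  rw [PNT_ioc _ (Nat.floor_mono (mul_le_mul_of_nonneg_right h' hx.le))]
  ring

theorem PNT_cmp {q : ℕ} [NeZero q] {a : ZMod q} (ha : IsUnit a) {α β γ δ : ℝ} (h0 : 0 < α)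
    (h1 : α < β) (h2 : β ≤ γ) (h3 : γ < δ) : ∃ E : ℝ → ℝ, Tendsto E atTop (𝓝 0) ∧ ∀ x, 0 < x →
      ∑ n ∈ Ioc ⌊β * x⌋₊ ⌊γ * x⌋₊, residueClass a n / n ≤
        E x + (q.totient : ℝ)⁻¹ * ∑ n ∈ Ioc ⌊α * x⌋₊ ⌊δ * x⌋₊, (1 : ℝ) / n ∧
      E x + (q.totient : ℝ)⁻¹ * ∑ n ∈ Ioc ⌊β * x⌋₊ ⌊γ * x⌋₊, (1 : ℝ) / n ≤
        ∑ n ∈ Ioc ⌊α * x⌋₊ ⌊δ * x⌋₊, residueClass a n / n := by
  have b0 := h0.trans h1
  have c0 := b0.trans_le h2
  have d0 := c0.trans h3
  obtain ⟨κ, k1, k0, kc, kb⟩ := exists_continuous_one_zero_of_isCompact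
    (isCompact_Icc (a := Real.log β) (b := Real.log γ))
    (isOpen_Ioo (a := Real.log α) (b := Real.log δ)).isClosed_compl
    (Set.disjoint_compl_right_iff_subset.2
      (Set.Icc_subset_Ioo (Real.log_lt_log h0 h1) (Real.log_lt_log c0 h3)))
  refine ⟨_, (PNT_smooth ha κ κ.continuous kc).comp Real.tendsto_log_atTop, fun x hx => ?_⟩
  have key : ∀ w : ℕ → ℝ, (∀ n, 0 ≤ w n) →
      ∑ n ∈ Ioc ⌊β * x⌋₊ ⌊γ * x⌋₊, w n ≤
        ∑ n ∈ Ioc ⌊α * x⌋₊ ⌊δ * x⌋₊, w n * κ (Real.log n - Real.log x) ∧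
      ∑ n ∈ Ioc ⌊α * x⌋₊ ⌊δ * x⌋₊, w n * κ (Real.log n - Real.log x) ≤
        ∑ n ∈ Ioc ⌊α * x⌋₊ ⌊δ * x⌋₊, w n := fun w hw => by
    refine ⟨?_, sum_le_sum fun n _ => mul_le_of_le_one_right (hw n) (kb _).2⟩
    refine le_trans (le_of_eq (sum_congr rfl fun n hn => ?_)) (sum_le_sum_of_subset_of_nonneg
      (Ioc_subset_Ioc (Nat.floor_mono (mul_le_mul_of_nonneg_right h1.le hx.le))
        (Nat.floor_mono (mul_le_mul_of_nonneg_right h3.le hx.le)))
      fun n _ _ => mul_nonneg (hw n) (kb _).1)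
    obtain ⟨u, v⟩ := mem_Ioc.1 hn
    have u' := Real.log_le_log (mul_pos b0 hx) (Nat.lt_of_floor_lt u).le
    have v' := Real.log_le_log ((mul_pos b0 hx).trans (Nat.lt_of_floor_lt u))
      ((Nat.le_floor_iff (mul_pos c0 hx).le).1 v)
    rw [Real.log_mul b0.ne' hx.ne'] at u'
    rw [Real.log_mul c0.ne' hx.ne'] at v'
    rw [k1 ⟨by linarith, by linarith⟩, Pi.one_apply, mul_one]
  have e : ∑' n : ℕ, (residueClass a n - (q.totient : ℝ)⁻¹) / n * κ (Real.log n - Real.log x) =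
      ∑ n ∈ Ioc ⌊α * x⌋₊ ⌊δ * x⌋₊, residueClass a n / n * κ (Real.log n - Real.log x) -
        (q.totient : ℝ)⁻¹ *
          ∑ n ∈ Ioc ⌊α * x⌋₊ ⌊δ * x⌋₊, (1 : ℝ) / n * κ (Real.log n - Real.log x) := by
    rw [tsum_eq_sum (s := Ioc ⌊α * x⌋₊ ⌊δ * x⌋₊) fun n hn => ?_, mul_sum, ← sum_sub_distrib]
    · exact sum_congr rfl fun n _ => by ring
    rcases eq_or_ne n 0 with rfl | hn0
    · simp
    have n0 : (0 : ℝ) < n := Nat.cast_pos.2 (Nat.pos_of_ne_zero hn0)
    rw [k0 fun h => hn (mem_Ioc.2 ⟨?_, ?_⟩), Pi.zero_apply, mul_zero]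
    · refine (Nat.floor_lt (mul_pos h0 hx).le).2 ((Real.log_lt_log_iff (mul_pos h0 hx) n0).1 ?_)
      rw [Real.log_mul h0.ne' hx.ne']
      linarith [h.1]
    · refine Nat.le_floor ((Real.log_le_log_iff n0 (mul_pos d0 hx)).1 ?_)
      rw [Real.log_mul d0.ne' hx.ne']
      linarith [h.2]
  obtain ⟨p1, p2⟩ := key (fun n => residueClass a n / n) fun n =>
    div_nonneg (residueClass_nonneg a n) n.cast_nonneg
  obtain ⟨p3, p4⟩ := key (fun n => 1 / n) fun n => by positivity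
  have t0 : (0 : ℝ) ≤ (q.totient : ℝ)⁻¹ := by positivity
  have p5 := mul_le_mul_of_nonneg_left p3 t0
  have p6 := mul_le_mul_of_nonneg_left p4 t0
  simp only [Function.comp]
  rw [e]
  constructor <;> linarith

theorem PNT_all {q : ℕ} [NeZero q] {a : ZMod q} (ha : IsUnit a) {l : ℝ} (hl : 1 < l) :
    Tendsto (fun x : ℝ => ∑ n ∈ Ioc ⌊1 * x⌋₊ ⌊l * x⌋₊, residueClass a n / n) atTop
      (𝓝 ((q.totient : ℝ)⁻¹ * Real.log l)) := by
  have t1 : (1 : ℝ) ≤ q.totient := by exact_mod_cast Nat.totient_pos.2 (NeZero.pos q)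
  have t2 := inv_le_one_of_one_le₀ t1
  have t0 : (0 : ℝ) ≤ (q.totient : ℝ)⁻¹ := by positivity
  have l0 := Real.log_pos hl
  have l1 : 0 < l := one_pos.trans hl
  generalize ht : (q.totient : ℝ)⁻¹ = t at t0 t2
  refine tendsto_order.2 ⟨fun b hb => ?_, fun b hb => ?_⟩
  · obtain ⟨η, η0, η1, η2⟩ : ∃ η : ℝ, 0 < η ∧ 2 * η ≤ Real.log l ∧ 4 * η ≤ t * Real.log l - b :=
      ⟨min (Real.log l / 2) ((t * Real.log l - b) / 4), lt_min (by linarith) (by linarith),
        by linarith [min_le_left (Real.log l / 2) ((t * Real.log l - b) / 4)],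
        by linarith [min_le_right (Real.log l / 2) ((t * Real.log l - b) / 4)]⟩
    have h2 : Real.exp η ≤ Real.exp (Real.log l - η) := Real.exp_le_exp.2 (by linarith)
    obtain ⟨E, hE, h⟩ := PNT_cmp ha one_pos (Real.one_lt_exp_iff.2 η0) h2
      ((Real.exp_lt_exp.2 (by linarith)).trans_eq (Real.exp_log l1))
    have a := hE.add ((PNT_harm (Real.exp_pos η) h2).const_mul t)
    rw [Real.log_exp, Real.log_exp] at a
    filter_upwards [eventually_gt_atTop 0, a.eventually (lt_mem_nhds (a := b) (by nlinarith))]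
      with x hx hx'
    exact hx'.trans_le (ht ▸ (h x hx).2)
  · obtain ⟨η, η0, η2⟩ : ∃ η : ℝ, 0 < η ∧ 4 * η ≤ b - t * Real.log l :=
      ⟨(b - t * Real.log l) / 4, by linarith, by linarith⟩
    obtain ⟨E, hE, h⟩ := PNT_cmp ha (Real.exp_pos (-η)) (Real.exp_lt_one_iff.2 (by linarith))
      hl.le ((Real.exp_log l1).symm.trans_lt
        (Real.exp_lt_exp.2 (by linarith : Real.log l < Real.log l + η)))
    have a := hE.add ((PNT_harm (Real.exp_pos (-η))
      (Real.exp_le_exp.2 (by linarith : -η ≤ Real.log l + η))).const_mul t)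
    rw [Real.log_exp, Real.log_exp] at a
    filter_upwards [eventually_gt_atTop 0, a.eventually (gt_mem_nhds (a := b) (by nlinarith))]
      with x hx hx'
    exact (ht ▸ (h x hx).1).trans_lt hx'

theorem pnt_ap {q c : ℕ} (hq : 1 ≤ q) (hc : Nat.Coprime c q) {l : ℝ} (hl : 1 < l) :
    Tendsto (fun x : ℝ => ∑ p ∈ (Ioc ⌊x⌋₊ ⌊l * x⌋₊).filter (fun p => p.Prime ∧ p ≡ c [MOD q]),
      Real.log p / p) atTop (𝓝 (Real.log l / q.totient)) := by
  have : NeZero q := ⟨by omega⟩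
  have ha : IsUnit (c : ZMod q) := (ZMod.isUnit_iff_coprime c q).2 hc
  have a1 := (summable_residueClass_non_primes_div (c : ZMod q)).hasSum.tendsto_sum_nat.comp
    (tendsto_add_atTop_nat 1)
  have a2 := (PNT_all ha hl).sub ((a1.comp (PNT_floor (one_pos.trans hl))).sub
    (a1.comp (PNT_floor one_pos)))
  rw [sub_self, sub_zero, inv_mul_eq_div] at a2
  refine a2.congr' ?_
  filter_upwards [eventually_gt_atTop 0] with x hx
  simp only [Function.comp]
  rw [← PNT_ioc _ (Nat.floor_mono (mul_le_mul_of_nonneg_right hl.le hx.le)), one_mul,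
    ← sum_sub_distrib, sum_filter]
  refine sum_congr rfl fun n _ => ?_
  by_cases hp : n.Prime
  · by_cases hn : n ≡ c [MOD q]
    · have : (n : ZMod q) = c := (ZMod.natCast_eq_natCast_iff _ _ _).2 hn
      simp [hp, hn, residueClass, this, ArithmeticFunction.vonMangoldt_apply_prime hp]
    · have : (n : ZMod q) ≠ c := (ZMod.natCast_eq_natCast_iff _ _ _).not.2 hn
      simp [hp, hn, residueClass, this]
  · simp [hp]

end Pool.Agent.MP_357fb4_an
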