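import Pool.Agent.MP_357fb4_an.Glob1
import Pool.Agent.MP_357fb4_an.PNT

/-!
Comparison of prime sums with integrals.
-/

open scoped BigOperators Classical ComplexConjugate Polynomial
open Finset Filter MeasureTheory Topology

noncomputable section

namespace Pool.Agent.MP_357fb4_an

/-- The slowly varying factor. -/
def glob2F (W r : ℝ → ℝ) (t : ℝ) : ℂ := ((t * deriv W t : ℝ) : ℂ) * ec (r t)

/-- Difference between the sum and the integral over a segment. -/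
def glob2D (W r : ℝ → ℝ) (a : ℕ → ℝ) (ρ x y : ℝ) : ℂ :=
  ∑ n ∈ Ioc ⌊x⌋₊ ⌊y⌋₊, (a n : ℂ) * glob2F W r n -
    (ρ : ℂ) * ∫ t in x..y, ((deriv W t : ℝ) : ℂ) * ec (r t)

section
variable {W : ℝ → ℝ} {T : ℕ} {r r' : ℝ → ℝ} {C : ℝ}

lemma glob2_Tpos (hW : Wt W T) : (0 : ℝ) < T := by
  have := hW.three
  have : (3 : ℝ) ≤ T := by exact_mod_cast this
  linarith

lemma glob2_sig_nonneg (hW : Wt W T) {t : ℝ} (ht : (T : ℝ) ≤ t) : 0 ≤ t * deriv W t :=
  mul_nonneg ((glob2_Tpos hW).le.trans ht) (hW.pos t ht).le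

lemma glob2_sig_le (hW : Wt W T) {s t : ℝ} (hs : (T : ℝ) ≤ s) (hst : s ≤ t) :
    t * deriv W t ≤ s * deriv W s :=
  hW.anti1 (Set.mem_Ici.2 hs) (Set.mem_Ici.2 (hs.trans hst)) hst

lemma glob2_normF (hW : Wt W T) {t : ℝ} (ht : (T : ℝ) ≤ t) :
    ‖glob2F W r t‖ = t * deriv W t := by
  rw [glob2F, norm_mul, norm_ec, mul_one, Complex.norm_real, Real.norm_eq_abs,
    abs_of_nonneg (glob2_sig_nonneg hW ht)]

lemma glob2_C (hr : ∀ t : ℝ, T ≤ t → HasDerivAt r (r' t) t ∧ |t * r' t| ≤ C) : 0 ≤ C :=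
  (abs_nonneg _).trans (hr T le_rfl).2

lemma glob2_r (hW : Wt W T) (hr : ∀ t : ℝ, T ≤ t → HasDerivAt r (r' t) t ∧ |t * r' t| ≤ C)
    {κ x t : ℝ} (hx : (T : ℝ) ≤ x) (hxt : x ≤ t) (ht : t ≤ (1 + κ) * x) :
    |r t - r x| ≤ C * κ := by
  have hx0 : 0 < x := (glob2_Tpos hW).trans_le hx
  have hC := glob2_C hr
  have h := norm_image_sub_le_of_norm_deriv_le_segment' (f := r) (f' := r') (a := x) (b := t)
    (C := C / x) (fun s hs => (hr s (hx.trans hs.1)).1.hasDerivWithinAt) (fun s hs => by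
      have h1 := (hr s (hx.trans hs.1)).2
      have hs0 : 0 < s := hx0.trans_le hs.1
      rw [abs_mul, abs_of_pos hs0] at h1
      rw [Real.norm_eq_abs, le_div_iff₀ hx0]
      have := mul_le_mul_of_nonneg_left hs.1 (abs_nonneg (r' s))
      linarith) t ⟨hxt, le_rfl⟩
  rw [Real.norm_eq_abs] at h
  refine h.trans ?_
  rw [div_mul_eq_mul_div, div_le_iff₀ hx0]
  have : t - x ≤ κ * x := by linarith
  have := mul_le_mul_of_nonneg_left this hC
  linarith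

lemma glob2_osc (hW : Wt W T) (hr : ∀ t : ℝ, T ≤ t → HasDerivAt r (r' t) t ∧ |t * r' t| ≤ C)
    {κ x t : ℝ} (hx : (T : ℝ) ≤ x) (hxt : x ≤ t) (ht : t ≤ (1 + κ) * x) :
    ‖glob2F W r t - glob2F W r x‖ ≤
      (x * deriv W x - (1 + κ) * x * deriv W ((1 + κ) * x)) + 7 * (C * κ) * (x * deriv W x) := by
  have e : glob2F W r t - glob2F W r x =
      ((t * deriv W t - x * deriv W x : ℝ) : ℂ) * ec (r t) +
        ((x * deriv W x : ℝ) : ℂ) * (ec (r t) - ec (r x)) := by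
    simp only [glob2F]; push_cast; ring
  have h1 := glob2_sig_le hW hx hxt
  have h2 := glob2_sig_le hW (hx.trans hxt) ht
  have h3 := glob2_sig_nonneg hW hx
  have h4 := glob2_r hW hr hx hxt ht
  have h5 := norm_ec_sub (r t) (r x)
  rw [e]
  refine (norm_add_le _ _).trans (add_le_add ?_ ?_)
  · rw [norm_mul, norm_ec, mul_one, Complex.norm_real, Real.norm_eq_abs,
      abs_of_nonpos (by linarith)]
    linarith
  · rw [norm_mul, Complex.norm_real, Real.norm_eq_abs, abs_of_nonneg h3, mul_comm]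
    exact mul_le_mul_of_nonneg_right (by linarith) h3

lemma glob2_int (hW : Wt W T) (hr : ∀ t : ℝ, T ≤ t → HasDerivAt r (r' t) t ∧ |t * r' t| ≤ C)
    {x y : ℝ} (hx : (T : ℝ) ≤ x) (hxy : x ≤ y) :
    IntervalIntegrable (fun t => ((deriv W t : ℝ) : ℂ) * ec (r t)) volume x y := by
  have hsub : Set.uIcc x y ⊆ Set.Ici (T : ℝ) := by
    rw [Set.uIcc_of_le hxy]
    exact fun s hs => hx.trans hs.1
  have h1 : IntervalIntegrable (deriv W) volume x y := (hW.anti0.mono hsub).intervalIntegrable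
  have h2 : IntervalIntegrable (fun t => ((deriv W t : ℝ) : ℂ)) volume x y :=
    ⟨h1.1.ofReal, h1.2.ofReal⟩
  refine h2.mul_continuousOn ?_
  exact continuous_ec.comp_continuousOn fun s hs =>
    (hr s (hsub hs)).1.continuousAt.continuousWithinAt

lemma glob2_add (hW : Wt W T) (hr : ∀ t : ℝ, T ≤ t → HasDerivAt r (r' t) t ∧ |t * r' t| ≤ C)
    (a : ℕ → ℝ) (ρ : ℝ) {x y z : ℝ} (hx : (T : ℝ) ≤ x) (hxy : x ≤ y) (hyz : y ≤ z) :
    glob2D W r a ρ x z = glob2D W r a ρ x y + glob2D W r a ρ y z := by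
  simp only [glob2D]
  rw [← intervalIntegral.integral_add_adjacent_intervals (glob2_int hW hr hx hxy)
    (glob2_int hW hr (hx.trans hxy) hyz),
    ← Finset.sum_Ioc_consecutive _ (Nat.floor_le_floor hxy) (Nat.floor_le_floor hyz)]
  ring

lemma glob2_mem {x y : ℝ} (hx : 0 ≤ x) (hy : 0 ≤ y) {n : ℕ} (hn : n ∈ Ioc ⌊x⌋₊ ⌊y⌋₊) :
    x ≤ n ∧ (n : ℝ) ≤ y := by
  rw [Finset.mem_Ioc] at hn
  exact ⟨((Nat.floor_lt hx).1 hn.1).le, (Nat.le_floor_iff hy).1 hn.2⟩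

/-- The trivial bound on a short segment. -/
lemma glob2_triv (hW : Wt W T) {a : ℕ → ℝ} (ha : ∀ n, 0 ≤ a n) {ρ : ℝ} (hρ0 : 0 ≤ ρ) (hρ1 : ρ ≤ 1)
    {κ x y : ℝ} (hκ1 : κ ≤ 1) (hx : (T : ℝ) ≤ x) (hxy : x ≤ y) (hy : y ≤ (1 + κ) * x)
    (hA : ∑ n ∈ Ioc ⌊x⌋₊ ⌊(1 + κ) * x⌋₊, a n ≤ 2) :
    ‖glob2D W r a ρ x y‖ ≤ 3 * (T * deriv W T) := by
  have hx0 : 0 < x := (glob2_Tpos hW).trans_le hx
  have hT := glob2_sig_nonneg hW (le_refl (T : ℝ))
  have h1 : ‖∑ n ∈ Ioc ⌊x⌋₊ ⌊y⌋₊, (a n : ℂ) * glob2F W r n‖ ≤ 2 * (T * deriv W T) := by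
    refine (norm_sum_le _ _).trans ?_
    calc ∑ n ∈ Ioc ⌊x⌋₊ ⌊y⌋₊, ‖(a n : ℂ) * glob2F W r n‖
        ≤ ∑ n ∈ Ioc ⌊x⌋₊ ⌊y⌋₊, a n * (T * deriv W T) := by
          refine Finset.sum_le_sum fun n hn => ?_
          have hn' := (glob2_mem hx0.le (hx0.le.trans hxy) hn).1
          rw [norm_mul, Complex.norm_real, Real.norm_eq_abs, abs_of_nonneg (ha n),
            glob2_normF hW (hx.trans hn')]
          exact mul_le_mul_of_nonneg_left (glob2_sig_le hW le_rfl (hx.trans hn')) (ha n)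
      _ = (∑ n ∈ Ioc ⌊x⌋₊ ⌊y⌋₊, a n) * (T * deriv W T) := by rw [Finset.sum_mul]
      _ ≤ 2 * (T * deriv W T) := by
          refine mul_le_mul_of_nonneg_right (le_trans ?_ hA) hT
          exact Finset.sum_le_sum_of_subset_of_nonneg
            (Finset.Ioc_subset_Ioc_right (Nat.floor_le_floor hy)) fun n _ _ => ha n
  have h2 : ‖∫ t in x..y, ((deriv W t : ℝ) : ℂ) * ec (r t)‖ ≤ T * deriv W T := by
    have h := intervalIntegral.norm_integral_le_of_norm_le_const (a := x) (b := y)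
      (C := deriv W x) (f := fun t => ((deriv W t : ℝ) : ℂ) * ec (r t)) (fun t ht => by
        rw [Set.uIoc_of_le hxy] at ht
        rw [norm_mul, norm_ec, mul_one, Complex.norm_real, Real.norm_eq_abs,
          abs_of_pos (hW.pos t (hx.trans ht.1.le))]
        exact hW.anti0 (Set.mem_Ici.2 hx) (Set.mem_Ici.2 (hx.trans ht.1.le)) ht.1.le)
    refine h.trans (le_trans ?_ (glob2_sig_le hW le_rfl hx))
    rw [abs_of_nonneg (by linarith), mul_comm]
    refine mul_le_mul_of_nonneg_right ?_ (hW.pos x hx).le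
    nlinarith
  refine (norm_sub_le _ _).trans ?_
  rw [norm_mul, Complex.norm_real, Real.norm_eq_abs, abs_of_nonneg hρ0]
  have := mul_le_mul hρ1 h2 (norm_nonneg _) zero_le_one
  linarith

/-- The integral over a full cell. -/
lemma glob2_cellI (hW : Wt W T) (hr : ∀ t : ℝ, T ≤ t → HasDerivAt r (r' t) t ∧ |t * r' t| ≤ C)
    {κ x O : ℝ} (hκ0 : 0 < κ) (hx : (T : ℝ) ≤ x)
    (hO : ∀ t, x ≤ t → t ≤ (1 + κ) * x → ‖glob2F W r t - glob2F W r x‖ ≤ O) :
    ‖(∫ t in x..(1 + κ) * x, ((deriv W t : ℝ) : ℂ) * ec (r t)) -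
      glob2F W r x * (Real.log (1 + κ) : ℝ)‖ ≤ O * κ := by
  have hx0 : 0 < x := (glob2_Tpos hW).trans_le hx
  have hxy : x ≤ (1 + κ) * x := by nlinarith
  have hy0 : 0 < (1 + κ) * x := hx0.trans_le hxy
  have hO0 : 0 ≤ O := (norm_nonneg _).trans (hO x le_rfl hxy)
  have hl : ∫ t in x..(1 + κ) * x, t⁻¹ = Real.log (1 + κ) := by
    rw [integral_inv_of_pos hx0 hy0, mul_div_assoc, div_self hx0.ne', mul_one]
  have hi : IntervalIntegrable (fun t : ℝ => glob2F W r x * ((t⁻¹ : ℝ) : ℂ)) volume x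
      ((1 + κ) * x) := by
    refine ContinuousOn.intervalIntegrable ?_
    refine continuousOn_const.mul (Complex.continuous_ofReal.comp_continuousOn ?_)
    refine continuousOn_id.inv₀ fun s hs => ?_
    rw [Set.uIcc_of_le hxy] at hs
    exact (hx0.trans_le hs.1).ne'
  rw [← hl, ← intervalIntegral.integral_ofReal, ← intervalIntegral.integral_const_mul,
    ← intervalIntegral.integral_sub (glob2_int hW hr hx hxy) hi]
  have h := intervalIntegral.norm_integral_le_of_norm_le_const (a := x) (b := (1 + κ) * x)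
    (C := O / x) (f := fun t => ((deriv W t : ℝ) : ℂ) * ec (r t) -
      glob2F W r x * ((t⁻¹ : ℝ) : ℂ)) (fun t ht => by
      rw [Set.uIoc_of_le hxy] at ht
      have ht0 : 0 < t := hx0.trans ht.1
      have e : ((deriv W t : ℝ) : ℂ) * ec (r t) - glob2F W r x * ((t⁻¹ : ℝ) : ℂ) =
          (glob2F W r t - glob2F W r x) * ((t⁻¹ : ℝ) : ℂ) := by
        have : (t : ℂ) ≠ 0 := by exact_mod_cast ht0.ne'
        rw [sub_mul]
        congr 1
        simp only [glob2F]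
        push_cast
        field_simp
      rw [e, norm_mul, Complex.norm_real, Real.norm_eq_abs, abs_of_pos (inv_pos.2 ht0),
        div_eq_mul_inv]
      exact mul_le_mul (hO t ht.1.le ht.2) (inv_anti₀ hx0 ht.1.le) (inv_pos.2 ht0).le hO0)
  refine h.trans (le_of_eq ?_)
  rw [abs_of_nonneg (by linarith)]
  field_simp
  ring

/-- The estimate on a full cell. -/
lemma glob2_cell (hW : Wt W T) (hr : ∀ t : ℝ, T ≤ t → HasDerivAt r (r' t) t ∧ |t * r' t| ≤ C)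
    {a : ℕ → ℝ} (ha : ∀ n, 0 ≤ a n) {ρ : ℝ} (hρ0 : 0 ≤ ρ) (hρ1 : ρ ≤ 1)
    {κ x : ℝ} (hκ0 : 0 < κ) (hκ1 : κ ≤ 1) (hx : (T : ℝ) ≤ x)
    (hA : |∑ n ∈ Ioc ⌊x⌋₊ ⌊(1 + κ) * x⌋₊, a n - ρ * Real.log (1 + κ)| ≤ κ ^ 2) :
    ‖glob2D W r a ρ x ((1 + κ) * x)‖ ≤
      2 * (21 * C + 1) * κ * (W ((1 + κ) * x) - W x) +
        (21 * C + 4) * (x * deriv W x - (1 + κ) * x * deriv W ((1 + κ) * x)) := by
  have hx0 : 0 < x := (glob2_Tpos hW).trans_le hx
  have hxy : x ≤ (1 + κ) * x := by nlinarith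
  have hC := glob2_C hr
  set s := x * deriv W x with hs
  set s' := (1 + κ) * x * deriv W ((1 + κ) * x) with hs'
  set O := (s - s') + 7 * (C * κ) * s with hOdef
  have hO : ∀ t, x ≤ t → t ≤ (1 + κ) * x → ‖glob2F W r t - glob2F W r x‖ ≤ O :=
    fun t h1 h2 => glob2_osc hW hr hx h1 h2
  have hO0 : 0 ≤ O := (norm_nonneg _).trans (hO x le_rfl hxy)
  have hI := glob2_cellI hW hr hκ0 hx hO
  set A := ∑ n ∈ Ioc ⌊x⌋₊ ⌊(1 + κ) * x⌋₊, a n with hAdef
  have hlog : Real.log (1 + κ) ≤ κ := by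
    have := Real.log_le_sub_one_of_pos (x := 1 + κ) (by linarith)
    linarith
  have hlog0 : 0 ≤ Real.log (1 + κ) := Real.log_nonneg (by linarith)
  have hA2 : A ≤ 2 * κ := by
    have h1 := (abs_le.1 hA).2
    have h2 := mul_le_mul hρ1 hlog hlog0 zero_le_one
    nlinarith
  have hS : ‖∑ n ∈ Ioc ⌊x⌋₊ ⌊(1 + κ) * x⌋₊, (a n : ℂ) * glob2F W r n - glob2F W r x * (A : ℝ)‖ ≤
      O * (2 * κ) := by
    have e : ∑ n ∈ Ioc ⌊x⌋₊ ⌊(1 + κ) * x⌋₊, (a n : ℂ) * glob2F W r n - glob2F W r x * (A : ℝ) =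
        ∑ n ∈ Ioc ⌊x⌋₊ ⌊(1 + κ) * x⌋₊, (a n : ℂ) * (glob2F W r n - glob2F W r x) := by
      rw [hAdef]
      push_cast
      rw [Finset.mul_sum, ← Finset.sum_sub_distrib]
      exact Finset.sum_congr rfl fun n _ => by ring
    rw [e]
    refine (norm_sum_le _ _).trans ?_
    calc ∑ n ∈ Ioc ⌊x⌋₊ ⌊(1 + κ) * x⌋₊, ‖(a n : ℂ) * (glob2F W r n - glob2F W r x)‖
        ≤ ∑ n ∈ Ioc ⌊x⌋₊ ⌊(1 + κ) * x⌋₊, O * a n := by
          refine Finset.sum_le_sum fun n hn => ?_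
          have hn' := glob2_mem hx0.le (hx0.le.trans hxy) hn
          rw [norm_mul, Complex.norm_real, Real.norm_eq_abs, abs_of_nonneg (ha n), mul_comm]
          exact mul_le_mul_of_nonneg_right (hO n hn'.1 hn'.2) (ha n)
      _ = O * A := by rw [hAdef, Finset.mul_sum]
      _ ≤ O * (2 * κ) := mul_le_mul_of_nonneg_left hA2 hO0
  have hs0 : 0 ≤ s := glob2_sig_nonneg hW hx
  have hss : s' ≤ s := glob2_sig_le hW hx hxy
  have hs0' : 0 ≤ s' := glob2_sig_nonneg hW (hx.trans hxy)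
  have hM : ‖glob2F W r x * ((A - ρ * Real.log (1 + κ) : ℝ) : ℂ)‖ ≤ s * κ ^ 2 := by
    rw [norm_mul, glob2_normF hW hx, Complex.norm_real, Real.norm_eq_abs]
    exact mul_le_mul_of_nonneg_left hA hs0
  have e : glob2D W r a ρ x ((1 + κ) * x) =
      (∑ n ∈ Ioc ⌊x⌋₊ ⌊(1 + κ) * x⌋₊, (a n : ℂ) * glob2F W r n - glob2F W r x * (A : ℝ)) +
        glob2F W r x * ((A - ρ * Real.log (1 + κ) : ℝ) : ℂ) -
        (ρ : ℂ) * ((∫ t in x..(1 + κ) * x, ((deriv W t : ℝ) : ℂ) * ec (r t)) -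
          glob2F W r x * (Real.log (1 + κ) : ℝ)) := by
    simp only [glob2D]
    generalize Real.log (1 + κ) = L
    push_cast
    ring
  have hW' : κ * s' ≤ 2 * (W ((1 + κ) * x) - W x) := by
    have h1 := hW.deriv_le hx hxy
    have h2 := (hW.pos _ (hx.trans hxy)).le
    have h3 : κ * s' = (1 + κ) * (((1 + κ) * x - x) * deriv W ((1 + κ) * x)) := by
      rw [hs']; ring
    have h4 : 0 ≤ ((1 + κ) * x - x) * deriv W ((1 + κ) * x) := mul_nonneg (by linarith) h2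
    rw [h3]
    nlinarith
  have hρI : ‖(ρ : ℂ) * ((∫ t in x..(1 + κ) * x, ((deriv W t : ℝ) : ℂ) * ec (r t)) -
      glob2F W r x * (Real.log (1 + κ) : ℝ))‖ ≤ O * κ := by
    rw [norm_mul, Complex.norm_real, Real.norm_eq_abs, abs_of_nonneg hρ0]
    have := mul_le_mul hρ1 hI (norm_nonneg _) zero_le_one
    linarith
  rw [e]
  refine (norm_sub_le _ _).trans ?_
  refine (add_le_add (norm_add_le _ _) le_rfl).trans ?_
  refine (add_le_add (add_le_add hS hM) hρI).trans ?_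
  have k1 : O * (2 * κ) + s * κ ^ 2 + O * κ =
      3 * κ * (s - s') + (21 * C + 1) * κ ^ 2 * (s - s') + (21 * C + 1) * κ * (κ * s') := by
    rw [hOdef]; ring
  have k2 : 3 * κ * (s - s') ≤ 3 * (s - s') :=
    mul_le_mul_of_nonneg_right (by linarith) (by linarith)
  have k3 : (21 * C + 1) * κ ^ 2 * (s - s') ≤ (21 * C + 1) * (s - s') := by
    refine mul_le_mul_of_nonneg_right ?_ (by linarith)
    have : κ ^ 2 ≤ 1 := by nlinarith
    nlinarith
  have k4 : (21 * C + 1) * κ * (κ * s') ≤ (21 * C + 1) * κ * (2 * (W ((1 + κ) * x) - W x)) :=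
    mul_le_mul_of_nonneg_left hW' (by positivity)
  rw [k1]
  linarith

/-- The estimate on a long segment. -/
lemma glob2_long (hW : Wt W T) (hr : ∀ t : ℝ, T ≤ t → HasDerivAt r (r' t) t ∧ |t * r' t| ≤ C)
    {a : ℕ → ℝ} (ha : ∀ n, 0 ≤ a n) {ρ : ℝ} (hρ0 : 0 ≤ ρ) (hρ1 : ρ ≤ 1)
    {κ X : ℝ} (hκ0 : 0 < κ) (hκ1 : κ ≤ 1) (hX : (T : ℝ) ≤ X)
    (hA : ∀ x, X ≤ x → |∑ n ∈ Ioc ⌊x⌋₊ ⌊(1 + κ) * x⌋₊, a n - ρ * Real.log (1 + κ)| ≤ κ ^ 2)
    (k : ℕ) : ∀ x y, X ≤ x → x ≤ y → y ≤ (1 + κ) ^ k * x →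
      ‖glob2D W r a ρ x y‖ ≤ 2 * (21 * C + 1) * κ * (W y - W x) +
        (21 * C + 4) * (x * deriv W x) + 3 * (T * deriv W T) := by
  have hC := glob2_C hr
  have hlog : Real.log (1 + κ) ≤ κ := by
    have := Real.log_le_sub_one_of_pos (x := 1 + κ) (by linarith)
    linarith
  have hlog0 : 0 ≤ Real.log (1 + κ) := Real.log_nonneg (by linarith)
  have short : ∀ x y, X ≤ x → x ≤ y → y ≤ (1 + κ) * x →
      ‖glob2D W r a ρ x y‖ ≤ 2 * (21 * C + 1) * κ * (W y - W x) +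
        (21 * C + 4) * (x * deriv W x) + 3 * (T * deriv W T) := by
    intro x y hx hxy hy
    have hTx := hX.trans hx
    have hA2 : ∑ n ∈ Ioc ⌊x⌋₊ ⌊(1 + κ) * x⌋₊, a n ≤ 2 := by
      have h1 := (abs_le.1 (hA x hx)).2
      have h2 := mul_le_mul hρ1 hlog hlog0 zero_le_one
      nlinarith
    have h1 := glob2_triv (r := r) hW ha hρ0 hρ1 hκ1 hTx hxy hy hA2
    have h2 : W x ≤ W y := hW.mono.monotoneOn (Set.mem_Ici.2 hTx) (Set.mem_Ici.2 (hTx.trans hxy)) hxy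
    have h3 := glob2_sig_nonneg hW hTx
    have h4 : 0 ≤ 2 * (21 * C + 1) * κ * (W y - W x) :=
      mul_nonneg (by positivity) (by linarith)
    have h5 : 0 ≤ (21 * C + 4) * (x * deriv W x) := by positivity
    linarith
  induction k with
  | zero =>
    intro x y hx hxy hy
    have hx0 : 0 < x := (glob2_Tpos hW).trans_le (hX.trans hx)
    refine short x y hx hxy ?_
    rw [pow_zero, one_mul] at hy
    nlinarith
  | succ k ih =>
    intro x y hx hxy hy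
    have hTx := hX.trans hx
    have hx0 : 0 < x := (glob2_Tpos hW).trans_le hTx
    rcases le_total y ((1 + κ) * x) with h | h
    · exact short x y hx hxy h
    · have hxx : x ≤ (1 + κ) * x := by nlinarith
      have h1 := ih ((1 + κ) * x) y (hx.trans hxx) h (by rw [← mul_assoc, ← pow_succ]; exact hy)
      have h2 := glob2_cell hW hr ha hρ0 hρ1 hκ0 hκ1 hTx (hA x hx)
      rw [glob2_add hW hr a ρ hTx hxx h]
      refine (norm_add_le _ _).trans ?_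
      linarith

end

theorem cmp2 {W : ℝ → ℝ} {T : ℕ} (hW : Wt W T) {q c : ℕ} (hq : 1 ≤ q) (hc : Nat.Coprime c q)
    {r r' : ℝ → ℝ} {C : ℝ} (hr : ∀ t : ℝ, T ≤ t → HasDerivAt r (r' t) t ∧ |t * r' t| ≤ C) :
    Tendsto (fun j : ℕ => ∑ n ∈ range j, (lam W T j n : ℂ) *
      (if n ≡ c [MOD q] then ec (r n) else 0) -
        (∫ t in (T : ℝ)..j, ((deriv W t : ℝ) : ℂ) * ec (r t)) / (2 * W j * q.totient)) atTop
      (𝓝 0) := by
  have hC := glob2_C hr
  have hφ1 : (1 : ℝ) ≤ q.totient := by exact_mod_cast Nat.totient_pos.2 hq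
  have hφ0 : (0 : ℝ) < q.totient := by linarith
  obtain ⟨a, hadef⟩ : ∃ a : ℕ → ℝ, ∀ n, a n =
      if n.Prime ∧ n ≡ c [MOD q] then Real.log n / n else 0 := ⟨_, fun _ => rfl⟩
  have ha : ∀ n, 0 ≤ a n := fun n => by
    rw [hadef]
    split_ifs
    · exact div_nonneg (Real.log_natCast_nonneg n) (Nat.cast_nonneg n)
    · exact le_rfl
  have ha1 : ∀ n, a n ≤ 1 := fun n => by
    rw [hadef]
    split_ifs with h
    · have hn : (0 : ℝ) < n := by exact_mod_cast h.1.pos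
      rw [div_le_one hn]
      have := Real.log_le_sub_one_of_pos hn
      linarith
    · exact zero_le_one
  obtain ⟨g, hg⟩ : ∃ g : ℕ → ℂ, ∀ n, g n = if T ≤ n then (a n : ℂ) * glob2F W r n else 0 :=
    ⟨_, fun _ => rfl⟩
  have hlam : ∀ j n : ℕ, (lam W T j n : ℂ) * (if n ≡ c [MOD q] then ec (r n) else 0) =
      g n / (2 * W j) := by
    intro j n
    rw [hg, lam, hadef, th]
    by_cases h1 : T ≤ n
    · by_cases h2 : n.Prime
      · by_cases h3 : n ≡ c [MOD q]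
        · have hn : (n : ℂ) ≠ 0 := by exact_mod_cast h2.ne_zero
          simp only [h1, h2, h3, if_true, and_self, glob2F]
          generalize Real.log n = L
          push_cast
          field_simp
        · simp [h1, h3]
      · simp [h1, h2]
    · simp [h1]
  rw [NormedAddGroup.tendsto_nhds_zero]
  intro ε hε
  obtain ⟨κ, hκ0, hκ1, hκε⟩ : ∃ κ : ℝ, 0 < κ ∧ κ ≤ 1 ∧ (21 * C + 1) * κ ≤ ε / 2 := by
    refine ⟨min 1 (ε / 2 / (21 * C + 1)), lt_min one_pos (by positivity), min_le_left _ _, ?_⟩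
    rw [← le_div_iff₀' (by positivity)]
    exact min_le_right _ _
  have hρ0 : (0 : ℝ) ≤ (q.totient : ℝ)⁻¹ := inv_nonneg.2 hφ0.le
  have hρ1 : (q.totient : ℝ)⁻¹ ≤ 1 := inv_le_one_of_one_le₀ hφ1
  obtain ⟨X, hTX, hA⟩ : ∃ X : ℕ, T ≤ X ∧ ∀ x : ℝ, X ≤ x →
      |∑ n ∈ Ioc ⌊x⌋₊ ⌊(1 + κ) * x⌋₊, a n - (q.totient : ℝ)⁻¹ * Real.log (1 + κ)| ≤ κ ^ 2 := by
    have h := (Metric.tendsto_nhds.1 (pnt_ap hq hc (l := 1 + κ) (by linarith))) (κ ^ 2)
      (by positivity)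
    obtain ⟨X₀, hX₀⟩ := eventually_atTop.1 h
    refine ⟨max T ⌈X₀⌉₊, le_max_left _ _, fun x hx => ?_⟩
    have hx' : X₀ ≤ x := by
      refine (Nat.le_ceil X₀).trans (le_trans ?_ hx)
      exact_mod_cast le_max_right _ _
    have h1 := hX₀ x hx'
    rw [Real.dist_eq, Finset.sum_filter] at h1
    rw [Finset.sum_congr rfl fun n _ => hadef n, mul_comm (q.totient : ℝ)⁻¹, ← div_eq_mul_inv]
    exact h1.le
  have hTX' : (T : ℝ) ≤ X := by exact_mod_cast hTX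
  obtain ⟨E, hE⟩ : ∃ E : ℂ, E = ∑ n ∈ range (X + 1), g n -
      (((q.totient : ℝ)⁻¹ : ℝ) : ℂ) * ∫ t in (T : ℝ)..X, ((deriv W t : ℝ) : ℂ) * ec (r t) :=
    ⟨_, rfl⟩
  obtain ⟨B, hB⟩ : ∃ B : ℝ, B = ‖E‖ + (21 * C + 4) * (X * deriv W X) + 4 * (T * deriv W T) :=
    ⟨_, rfl⟩
  have hWt : Tendsto (fun j : ℕ => W j) atTop atTop := hW.top.comp tendsto_natCast_atTop_atTop
  filter_upwards [eventually_ge_atTop X, hWt.eventually_gt_atTop 0,
    hWt.eventually_gt_atTop (B / ε)] with j hj hW0 hWB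
  have hj' : (X : ℝ) ≤ j := by exact_mod_cast hj
  have hX0 : (0 : ℝ) < X := (glob2_Tpos hW).trans_le hTX'
  obtain ⟨k, hk⟩ := pow_unbounded_of_one_lt ((j : ℝ) / X) (show 1 < 1 + κ by linarith)
  have hD := glob2_long hW hr ha hρ0 hρ1 hκ0 hκ1 hTX' hA k X j le_rfl hj'
    ((div_lt_iff₀ hX0).1 hk).le
  have hsum : ∑ n ∈ range j, g n = ∑ n ∈ range (X + 1), g n +
      ∑ n ∈ Ioc X j, (a n : ℂ) * glob2F W r n - g j := by
    have h1 : ∑ n ∈ Ioc X j, (a n : ℂ) * glob2F W r n = ∑ n ∈ Ico (X + 1) (j + 1), g n := by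
      rw [Finset.Ico_add_one_add_one_eq_Ioc]
      refine Finset.sum_congr rfl fun n hn => ?_
      rw [hg, if_pos (hTX.trans (Finset.mem_Ioc.1 hn).1.le)]
    rw [h1, Finset.sum_range_add_sum_Ico _ (by omega), Finset.sum_range_succ]
    ring
  have hφc : (q.totient : ℂ) ≠ 0 := by exact_mod_cast hφ0.ne'
  have hWc : ((W j : ℝ) : ℂ) ≠ 0 := by exact_mod_cast hW0.ne'
  have e : ∑ n ∈ range j, (lam W T j n : ℂ) * (if n ≡ c [MOD q] then ec (r n) else 0) -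
      (∫ t in (T : ℝ)..j, ((deriv W t : ℝ) : ℂ) * ec (r t)) / (2 * W j * q.totient) =
      (E + glob2D W r a (q.totient : ℝ)⁻¹ X j - g j) / ((2 * W j : ℝ) : ℂ) := by
    rw [Finset.sum_congr rfl fun n _ => hlam j n, ← Finset.sum_div, hsum, hE,
      ← intervalIntegral.integral_add_adjacent_intervals (glob2_int hW hr le_rfl hTX')
        (glob2_int hW hr hTX' hj'), glob2D, Nat.floor_natCast, Nat.floor_natCast]
    push_cast
    field_simp
    ring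
  have hgj : ‖g j‖ ≤ T * deriv W T := by
    rw [hg, if_pos (hTX.trans hj), norm_mul, Complex.norm_real, Real.norm_eq_abs,
      abs_of_nonneg (ha j), glob2_normF hW (hTX'.trans hj')]
    have h1 := glob2_sig_le hW le_rfl (hTX'.trans hj')
    have h2 := mul_le_mul_of_nonneg_right (ha1 j) (glob2_sig_nonneg hW (hTX'.trans hj'))
    linarith
  have hWX : 0 ≤ W X :=
    hW.nonneg.trans (hW.mono.monotoneOn (Set.mem_Ici.2 le_rfl) (Set.mem_Ici.2 hTX') hTX')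
  rw [e, norm_div, Complex.norm_real, Real.norm_eq_abs, abs_of_pos (by positivity),
    div_lt_iff₀ (by positivity)]
  have h1 : ‖E + glob2D W r a (q.totient : ℝ)⁻¹ X j - g j‖ ≤
      ‖E‖ + ‖glob2D W r a (q.totient : ℝ)⁻¹ X j‖ + ‖g j‖ :=
    (norm_sub_le _ _).trans (add_le_add (norm_add_le _ _) le_rfl)
  have h2 : B < W j * ε := (div_lt_iff₀ hε).1 hWB
  have h3 : 2 * (21 * C + 1) * κ * (W j - W X) ≤ 2 * (21 * C + 1) * κ * W j :=
    mul_le_mul_of_nonneg_left (by linarith) (by positivity)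
  have h4 := mul_le_mul_of_nonneg_right hκε hW0.le
  linarith

end Pool.Agent.MP_357fb4_an
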