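import Pool.Agent.MP_357fb4_an.Basic

/-!
Basic calculus in Hardy fields.
-/

open scoped BigOperators Classical ComplexConjugate Polynomial
open Finset Filter MeasureTheory Topology

noncomputable section

namespace Pool.Agent.MP_357fb4_an

theorem HApi_mon {f : ℝ → ℝ} {T : ℝ} (hd : ∀ t, T ≤ t → DifferentiableAt ℝ f t)
    (h0 : ∀ t, T ≤ t → 0 ≤ deriv f t) : MonotoneOn f (Set.Ici T) := by
  refine monotoneOn_of_deriv_nonneg (convex_Ici T) ?_ ?_ ?_
  · exact fun t ht => (hd t ht).continuousAt.continuousWithinAt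
  · exact fun t ht => (hd t (interior_subset ht)).differentiableWithinAt
  · exact fun t ht => h0 t (interior_subset ht)

theorem HApi_ant {f : ℝ → ℝ} {T : ℝ} (hd : ∀ t, T ≤ t → DifferentiableAt ℝ f t)
    (h0 : ∀ t, T ≤ t → deriv f t ≤ 0) : AntitoneOn f (Set.Ici T) := by
  refine antitoneOn_of_deriv_nonpos (convex_Ici T) ?_ ?_ ?_
  · exact fun t ht => (hd t ht).continuousAt.continuousWithinAt
  · exact fun t ht => (hd t (interior_subset ht)).differentiableWithinAt
  · exact fun t ht => h0 t (interior_subset ht)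

theorem HApi_le {f : ℝ → ℝ} (hd : ∀ᶠ t in atTop, DifferentiableAt ℝ f t)
    (h0 : ∀ᶠ t in atTop, deriv f t ≤ 0) : ∃ K, ∀ᶠ t in atTop, f t ≤ K := by
  obtain ⟨T, hT⟩ := eventually_atTop.1 (hd.and h0)
  have ha := HApi_ant (fun t ht => (hT t ht).1) (fun t ht => (hT t ht).2)
  refine ⟨f T, ?_⟩
  filter_upwards [eventually_ge_atTop T] with t ht
  exact ha Set.self_mem_Ici ht ht

theorem HApi_ge {f : ℝ → ℝ} (hd : ∀ᶠ t in atTop, DifferentiableAt ℝ f t)
    (h0 : ∀ᶠ t in atTop, 0 ≤ deriv f t) : ∃ K, ∀ᶠ t in atTop, K ≤ f t := by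
  obtain ⟨T, hT⟩ := eventually_atTop.1 (hd.and h0)
  have ha := HApi_mon (fun t ht => (hT t ht).1) (fun t ht => (hT t ht).2)
  refine ⟨f T, ?_⟩
  filter_upwards [eventually_ge_atTop T] with t ht
  exact ha Set.self_mem_Ici ht ht

theorem HApi_monlim {f : ℝ → ℝ} {T : ℝ} (h : MonotoneOn f (Set.Ici T)) :
    Tendsto f atTop atTop ∨ ∃ c, Tendsto f atTop (𝓝 c) := by
  have hm : Monotone fun t => f (max t T) := fun s t hst =>
    h (le_max_right s T) (le_max_right t T) (max_le_max hst le_rfl)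
  have he : (fun t => f (max t T)) =ᶠ[atTop] f := by
    filter_upwards [eventually_ge_atTop T] with t ht
    rw [max_eq_left ht]
  rcases tendsto_atTop_of_monotone hm with h1 | ⟨c, h1⟩
  · exact Or.inl (h1.congr' he)
  · exact Or.inr ⟨c, h1.congr' he⟩

theorem HApi_top {ι : Type} [Fintype ι] [Nonempty ι] (R : ι → ι → Prop)
    (tot : ∀ i j, R i j ∨ R j i) (tr : ∀ i j k, R i j → R j k → R i k) : ∃ m, ∀ i, R i m := by
  have key : ∀ s : Finset ι, ∃ m, ∀ i ∈ s, R i m := by
    intro s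
    induction s using Finset.induction_on with
    | empty => exact ⟨Classical.arbitrary ι, by simp⟩
    | insert a s _ ih =>
      obtain ⟨m, hm⟩ := ih
      rcases tot a m with h | h
      · refine ⟨m, fun i hi => ?_⟩
        rcases mem_insert.1 hi with rfl | hi
        · exact h
        · exact hm i hi
      · refine ⟨a, fun i hi => ?_⟩
        rcases mem_insert.1 hi with rfl | hi
        · exact (tot i i).elim id id
        · exact tr _ _ _ (hm i hi) h
  obtain ⟨m, hm⟩ := key univ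
  exact ⟨m, fun i => hm i (mem_univ i)⟩

namespace HF

variable (H : HF) {f g : ℝ → ℝ}

theorem neg (hf : f ∈ H.car) : (fun t => -f t) ∈ H.car := by
  simpa using H.mul _ _ (H.const (-1)) hf

theorem sub (hf : f ∈ H.car) (hg : g ∈ H.car) : (fun t => f t - g t) ∈ H.car := by
  simpa [sub_eq_add_neg] using H.add _ _ hf (H.neg hg)

theorem div (hf : f ∈ H.car) (hg : g ∈ H.car) : (fun t => f t / g t) ∈ H.car := by
  simpa [div_eq_mul_inv] using H.mul _ _ hf (H.inv _ hg)

theorem pow (hf : f ∈ H.car) (n : ℕ) : (fun t => f t ^ n) ∈ H.car := by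
  induction n with
  | zero => simpa using H.const 1
  | succ n ih => simpa [pow_succ] using H.mul _ _ ih hf

theorem abs (hf : f ∈ H.car) : (fun t => |f t|) ∈ H.car := by
  rcases H.sign f hf with h | h | h
  · refine H.congr _ _ hf ?_
    filter_upwards [h] with t ht
    simp [ht]
  · refine H.congr _ _ hf ?_
    filter_upwards [h] with t ht
    rw [abs_of_pos ht]
  · refine H.congr _ _ (H.neg hf) ?_
    filter_upwards [h] with t ht
    rw [abs_of_neg ht]

theorem sum {ι : Type} (s : Finset ι) {a : ι → ℝ → ℝ} (ha : ∀ i ∈ s, a i ∈ H.car) :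
    (fun t => ∑ i ∈ s, a i t) ∈ H.car := by
  induction s using Finset.induction_on with
  | empty => simpa using H.const 0
  | insert i s hi ih =>
    simp only [sum_insert hi]
    exact H.add _ _ (ha i (mem_insert_self i s)) (ih fun j hj => ha j (mem_insert_of_mem hj))

theorem poly (P : ℝ[X]) : (fun t => P.eval t) ∈ H.car := by
  simp only [Polynomial.eval_eq_sum_range]
  exact H.sum (range (P.natDegree + 1)) (a := fun i t => P.coeff i * t ^ i)
    fun i _ => H.mul _ _ (H.const _) (H.pow H.ident i)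

theorem iter (hf : f ∈ H.car) (e : ℕ) : deriv^[e] f ∈ H.car := by
  induction e with
  | zero => simpa using hf
  | succ e ih => rw [Function.iterate_succ_apply']; exact H.der _ ih

/-- Eventual monotonicity. -/
theorem mono (hf : f ∈ H.car) : ∃ T : ℝ, (∀ t, T ≤ t → DifferentiableAt ℝ f t) ∧
    ((∀ t, T ≤ t → 0 ≤ deriv f t) ∧ MonotoneOn f (Set.Ici T) ∨
      (∀ t, T ≤ t → deriv f t ≤ 0) ∧ AntitoneOn f (Set.Ici T)) := by
  have hs : (∀ᶠ t in atTop, 0 ≤ deriv f t) ∨ ∀ᶠ t in atTop, deriv f t ≤ 0 := by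
    rcases H.sign _ (H.der f hf) with h | h | h
    · exact Or.inl (h.mono fun t ht => ht.ge)
    · exact Or.inl (h.mono fun t ht => ht.le)
    · exact Or.inr (h.mono fun t ht => ht.le)
  rcases hs with h | h
  · obtain ⟨T, hT⟩ := eventually_atTop.1 ((H.diff f hf).and h)
    exact ⟨T, fun t ht => (hT t ht).1, Or.inl ⟨fun t ht => (hT t ht).2,
      HApi_mon (fun t ht => (hT t ht).1) (fun t ht => (hT t ht).2)⟩⟩
  · obtain ⟨T, hT⟩ := eventually_atTop.1 ((H.diff f hf).and h)
    exact ⟨T, fun t ht => (hT t ht).1, Or.inr ⟨fun t ht => (hT t ht).2,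
      HApi_ant (fun t ht => (hT t ht).1) (fun t ht => (hT t ht).2)⟩⟩

theorem lim3 (hf : f ∈ H.car) :
    (∃ c, Tendsto f atTop (𝓝 c)) ∨ Tendsto f atTop atTop ∨ Tendsto f atTop atBot := by
  obtain ⟨T, -, ⟨-, h⟩ | ⟨-, h⟩⟩ := H.mono hf
  · rcases HApi_monlim h with h1 | h1
    · exact Or.inr (Or.inl h1)
    · exact Or.inl h1
  · have h' : MonotoneOn (fun t => -f t) (Set.Ici T) := fun s hs t ht hst =>
      neg_le_neg (h hs ht hst)
    rcases HApi_monlim h' with h1 | ⟨c, h1⟩
    · exact Or.inr (Or.inr (tendsto_neg_atTop_iff.1 h1))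
    · exact Or.inl ⟨-c, by simpa using h1.neg⟩

theorem lim (hf : f ∈ H.car) :
    (∃ c, Tendsto f atTop (𝓝 c)) ∨ Tendsto (fun t => |f t|) atTop atTop := by
  rcases H.lim3 hf with h | h | h
  · exact Or.inl h
  · exact Or.inr (tendsto_abs_atTop_atTop.comp h)
  · exact Or.inr (tendsto_abs_atBot_atTop.comp h)

theorem bdd_or (hf : f ∈ H.car) :
    (∃ C, ∀ᶠ t in atTop, |f t| ≤ C) ∨ Tendsto (fun t => |f t|) atTop atTop := by
  rcases H.lim hf with ⟨c, h⟩ | h
  · refine Or.inl ⟨|c| + 1, ?_⟩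
    exact (h.abs.eventually (gt_mem_nhds (lt_add_one |c|))).mono fun t ht => ht.le
  · exact Or.inr h

/-- A positive function tending to zero is eventually decreasing. -/
theorem anti (hf : f ∈ H.car) (h0 : ∀ᶠ t in atTop, 0 < f t) (h : Tendsto f atTop (𝓝 0)) :
    ∃ T : ℝ, AntitoneOn f (Set.Ici T) := by
  obtain ⟨T, -, ⟨-, hm⟩ | ⟨-, hm⟩⟩ := H.mono hf
  · exfalso
    obtain ⟨t₀, ht₀, hT⟩ := (h0.and (eventually_ge_atTop T)).exists
    have : f t₀ ≤ 0 := by
      refine ge_of_tendsto h ?_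
      filter_upwards [eventually_ge_atTop t₀] with t ht
      exact hm hT (le_trans hT ht) ht
    linarith
  · exact ⟨T, hm⟩

theorem deriv_ne (hf : f ∈ H.car) (h : Tendsto (fun t => |f t|) atTop atTop) :
    ∀ᶠ t in atTop, deriv f t ≠ 0 := by
  rcases H.sign _ (H.der f hf) with h1 | h1 | h1
  · exfalso
    obtain ⟨K, hK⟩ := HApi_le (H.diff f hf) (h1.mono fun t ht => ht.le)
    obtain ⟨L, hL⟩ := HApi_ge (H.diff f hf) (h1.mono fun t ht => ht.ge)
    obtain ⟨t, h2, h3, h4⟩ := (hK.and (hL.and (h.eventually_gt_atTop (|K| + |L|)))).exists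
    have h5 := le_abs_self K
    have h6 := neg_abs_le L
    have h7 := abs_nonneg K
    have h8 := abs_nonneg L
    have : |f t| ≤ |K| + |L| := abs_le.2 ⟨by linarith, by linarith⟩
    linarith
  · exact h1.mono fun t ht => ht.ne'
  · exact h1.mono fun t ht => ht.ne

theorem deriv_pos (hf : f ∈ H.car) (h : Tendsto f atTop atTop) : ∀ᶠ t in atTop, 0 < deriv f t := by
  have hn : ¬ ∀ᶠ t in atTop, deriv f t ≤ 0 := by
    intro h1
    obtain ⟨K, hK⟩ := HApi_le (H.diff f hf) h1
    obtain ⟨t, h2, h3⟩ := (hK.and (h.eventually_gt_atTop K)).exists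
    linarith
  rcases H.sign _ (H.der f hf) with h1 | h1 | h1
  · exact absurd (h1.mono fun t ht => ht.le) hn
  · exact h1
  · exact absurd (h1.mono fun t ht => ht.le) hn

theorem HApi_lhop_lo (hf : f ∈ H.car) (hg : g ∈ H.car) (h : Tendsto g atTop atTop) {c : ℝ}
    (hc : Tendsto (fun t => f t / g t) atTop (𝓝 c)) {a : ℝ} (ha : a < c) :
    ∀ᶠ t in atTop, a < deriv f t / deriv g t := by
  have hn : ¬ ∀ᶠ t in atTop, deriv f t / deriv g t - a ≤ 0 := by
    intro h1
    have hd : ∀ᶠ t in atTop, DifferentiableAt ℝ (fun t => f t - a * g t) t := by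
      filter_upwards [H.diff f hf, H.diff g hg] with t h2 h3
      exact h2.sub (h3.const_mul a)
    have h0 : ∀ᶠ t in atTop, deriv (fun t => f t - a * g t) t ≤ 0 := by
      filter_upwards [H.diff f hf, H.diff g hg, h1, H.deriv_pos hg h] with t h2 h3 h4 h5
      have h6 : HasDerivAt (fun t => f t - a * g t) (deriv f t - a * deriv g t) t :=
        h2.hasDerivAt.sub (h3.hasDerivAt.const_mul a)
      rw [h6.deriv]
      have h7 : deriv f t / deriv g t ≤ a := by linarith
      rw [div_le_iff₀ h5] at h7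
      linarith
    obtain ⟨K, hK⟩ := HApi_le hd h0
    have h2 : Tendsto (fun t => a + K / g t) atTop (𝓝 (a + 0)) :=
      tendsto_const_nhds.add (h.const_div_atTop K)
    have h3 : c ≤ a + 0 := by
      refine le_of_tendsto_of_tendsto hc h2 ?_
      filter_upwards [hK, h.eventually_gt_atTop 0] with t h4 h5
      rw [div_le_iff₀ h5, add_mul, div_mul_cancel₀ _ h5.ne']
      linarith
    linarith
  rcases H.sign _ (H.sub (H.div (H.der f hf) (H.der g hg)) (H.const a)) with h1 | h1 | h1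
  · exact absurd (h1.mono fun t ht => ht.le) hn
  · exact h1.mono fun t ht => by linarith
  · exact absurd (h1.mono fun t ht => ht.le) hn

theorem HApi_lhop_pos (hf : f ∈ H.car) (hg : g ∈ H.car) (h : Tendsto g atTop atTop) {c : ℝ}
    (hc : Tendsto (fun t => f t / g t) atTop (𝓝 c)) :
    Tendsto (fun t => deriv f t / deriv g t) atTop (𝓝 c) := by
  refine tendsto_order.2 ⟨fun a ha => H.HApi_lhop_lo hf hg h hc ha, fun a ha => ?_⟩
  have hc' : Tendsto (fun t => -f t / g t) atTop (𝓝 (-c)) := by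
    simpa [neg_div] using hc.neg
  filter_upwards [H.HApi_lhop_lo (H.neg hf) hg h hc' (neg_lt_neg ha)] with t ht
  rw [deriv.fun_neg, neg_div] at ht
  linarith

/-- The converse of the rule of de l Hopital. -/
theorem lhop (hf : f ∈ H.car) (hg : g ∈ H.car) (h : Tendsto (fun t => |g t|) atTop atTop) {c : ℝ}
    (hc : Tendsto (fun t => f t / g t) atTop (𝓝 c)) :
    Tendsto (fun t => deriv f t / deriv g t) atTop (𝓝 c) := by
  have hb : ∀ c', ¬ Tendsto g atTop (𝓝 c') := fun c' h1 =>
    not_tendsto_atTop_of_tendsto_nhds h1.abs h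
  rcases H.lim3 hg with ⟨c', h1⟩ | h1 | h1
  · exact absurd h1 (hb c')
  · exact H.HApi_lhop_pos hf hg h1 hc
  · have hc' : Tendsto (fun t => -f t / -g t) atTop (𝓝 c) := by simpa using hc
    have h2 := H.HApi_lhop_pos (H.neg hf) (H.neg hg) (tendsto_neg_atBot_atTop.comp h1) hc'
    simpa [deriv.fun_neg] using h2

/-- A bounded function has derivative o(1/t). -/
theorem tderiv (hf : f ∈ H.car) {C : ℝ} (h : ∀ᶠ t in atTop, |f t| ≤ C) :
    Tendsto (fun t => t * deriv f t) atTop (𝓝 0) := by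
  have hl : (fun t => Real.log t) ∈ H.car := H.log _ H.ident
  have h1 : Tendsto (fun t => f t / Real.log t) atTop (𝓝 0) := by
    have h2 : Tendsto (fun t => C / Real.log t) atTop (𝓝 0) :=
      Real.tendsto_log_atTop.const_div_atTop C
    refine squeeze_zero_norm' ?_ h2
    filter_upwards [h, eventually_gt_atTop 1] with t ht ht1
    have h3 := Real.log_pos ht1
    rw [Real.norm_eq_abs, abs_div, abs_of_pos h3]
    exact div_le_div_of_nonneg_right ht h3.le
  have h2 := H.HApi_lhop_pos hf hl Real.tendsto_log_atTop h1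
  refine h2.congr fun t => ?_
  rw [show deriv (fun t => Real.log t) t = t⁻¹ from Real.deriv_log t, div_inv_eq_mul, mul_comm]

theorem sm (hf : f ∈ H.car) {A : ℕ} (h : ∀ᶠ t in atTop, |f t| ≤ t ^ A) : Sm f (A + 1) := by
  have key : ∀ e : ℕ, Tendsto (fun t => t ^ e * deriv^[e] f t / t ^ (A + 1)) atTop (𝓝 0) := by
    intro e
    induction e with
    | zero =>
      refine squeeze_zero_norm' ?_ tendsto_inv_atTop_zero
      filter_upwards [h, eventually_gt_atTop 0] with t ht ht0
      have h3 : 0 < t ^ (A + 1) := pow_pos ht0 _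
      simp only [pow_zero, one_mul, Function.iterate_zero, id]
      rw [Real.norm_eq_abs, abs_div, abs_of_pos h3, div_le_iff₀ h3, pow_succ', ← mul_assoc,
        inv_mul_cancel₀ ht0.ne', one_mul]
      exact ht
    | succ e ih =>
      have hm : (fun t => t ^ e * deriv^[e] f t) ∈ H.car :=
        H.mul _ _ (H.pow H.ident e) (H.iter hf e)
      have h1 := H.HApi_lhop_pos hm (H.pow H.ident (A + 1))
        (tendsto_pow_atTop (Nat.succ_ne_zero A)) ih
      have h2 := (h1.const_mul ((A : ℝ) + 1)).sub (ih.const_mul (e : ℝ))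
      simp only [mul_zero, sub_zero] at h2
      refine h2.congr' ?_
      filter_upwards [H.diff _ (H.iter hf e), eventually_gt_atTop 0] with t hd ht0
      have h3 : HasDerivAt (fun t : ℝ => t ^ e * deriv^[e] f t)
          ((e : ℝ) * t ^ (e - 1) * deriv^[e] f t + t ^ e * deriv (deriv^[e] f) t) t :=
        (hasDerivAt_pow e t).mul hd.hasDerivAt
      have h4 : HasDerivAt (fun t : ℝ => t ^ (A + 1)) (((A + 1 : ℕ) : ℝ) * t ^ (A + 1 - 1)) t :=
        hasDerivAt_pow (A + 1) t
      rw [h3.deriv, h4.deriv, Function.iterate_succ_apply', Nat.add_sub_cancel]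
      have h5 : (e : ℝ) * t ^ (e - 1) * t = e * t ^ e := by
        rcases e with _ | e
        · simp
        · rw [Nat.add_sub_cancel, pow_succ]; ring
      have h6 : (A : ℝ) + 1 ≠ 0 := by positivity
      have h7 : t ≠ 0 := ht0.ne'
      push_cast
      field_simp
      linear_combination (t ^ A * deriv^[e] f t) * h5
  intro e
  filter_upwards [H.diff _ (H.iter hf e), eventually_gt_atTop 0,
    (key e).abs.eventually (gt_mem_nhds (show |(0 : ℝ)| < 1 by simp))] with t hd ht0 ht
  refine ⟨hd, ?_⟩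
  have h3 : 0 < t ^ (A + 1) := pow_pos ht0 _
  have h4 : 0 < t ^ e := pow_pos ht0 _
  rw [abs_div, abs_mul, abs_of_pos h3, abs_of_pos h4, div_lt_one h3] at ht
  rw [le_div_iff₀ h4]
  linarith

/-- A fastest member of a finite family. -/
theorem fastest {ι : Type} [Fintype ι] [Nonempty ι] {a : ι → ℝ → ℝ} (ha : ∀ i, a i ∈ H.car)
    (h : ∀ i, Tendsto (fun t => |a i t|) atTop atTop) : ∃ (i₀ : ι) (c : ι → ℝ), c i₀ = 1 ∧
      ∀ i, Tendsto (fun t => deriv (a i) t / deriv (a i₀) t) atTop (𝓝 (c i)) := by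
  have hne : ∀ i, ∀ᶠ t in atTop, deriv (a i) t ≠ 0 := fun i => H.deriv_ne (ha i) (h i)
  obtain ⟨m, hm⟩ := HApi_top
    (fun i j => ∃ c, Tendsto (fun t => deriv (a i) t / deriv (a j) t) atTop (𝓝 c))
    (fun i j => by
      rcases H.lim (H.div (H.der _ (ha i)) (H.der _ (ha j))) with h1 | h1
      · exact Or.inl h1
      · refine Or.inr ⟨0, ?_⟩
        refine squeeze_zero_norm (fun t => ?_) (tendsto_inv_atTop_zero.comp h1)
        simp only [Function.comp, Real.norm_eq_abs]
        rw [← abs_inv, inv_div])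
    (fun i j k ⟨c, hc⟩ ⟨d, hd⟩ => ⟨c * d, (hc.mul hd).congr' (by
      filter_upwards [hne j] with t ht
      rw [div_mul_div_cancel₀ ht])⟩)
  choose c hc using hm
  refine ⟨m, c, ?_, hc⟩
  refine tendsto_nhds_unique (hc m) (tendsto_const_nhds.congr' ?_)
  filter_upwards [hne m] with t ht
  rw [div_self ht]

end HF

end Pool.Agent.MP_357fb4_an
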