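import Pool.Agent.MP_357fb4_an.Basic

/-!
The Hilbert space part of the inverse theorem of order two.
-/

open scoped BigOperators Classical ComplexConjugate Polynomial
open Finset Filter MeasureTheory Topology

noncomputable section

namespace Pool.Agent.MP_357fb4_an

lemma Inv_int_ec (m : ℤ) :
    ∫ b in (0 : ℝ)..1, ec (b * m) = if m = 0 then 1 else 0 := by
  split_ifs with hm
  · simp [hm]
  · have hc : (2 * Real.pi * Complex.I * m : ℂ) ≠ 0 := by
      have : (m : ℂ) ≠ 0 := by exact_mod_cast hm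
      have hp : (Real.pi : ℂ) ≠ 0 := by exact_mod_cast Real.pi_ne_zero
      simp [this, hp, Complex.I_ne_zero]
    have hd : ∀ b ∈ Set.uIcc (0 : ℝ) 1, HasDerivAt
        (fun b : ℝ => ec (b * m) / (2 * Real.pi * Complex.I * m)) (ec (b * m)) b := fun b _ => by
      have h1 : HasDerivAt (fun b : ℝ => b * (m : ℝ)) (m : ℝ) b := by
        simpa using (hasDerivAt_id b).mul_const (m : ℝ)
      have h2 := ((hasDerivAt_ec (b * m)).scomp b h1).div_const (2 * Real.pi * Complex.I * m)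
      refine h2.congr_deriv ?_
      rw [div_eq_iff hc, Complex.real_smul]; push_cast; ring
    rw [intervalIntegral.integral_eq_sub_of_hasDerivAt hd
      ((continuous_ec.comp (by fun_prop)).intervalIntegrable _ _)]
    simp [ec_int]

lemma Inv_int_trig {ι : Type*} (s : Finset ι) (c : ι → ℂ) (m : ι → ℤ) :
    ∫ b in (0 : ℝ)..1, ∑ i ∈ s, c i * ec (b * m i) = ∑ i ∈ s, if m i = 0 then c i else 0 := by
  have hc : ∀ i, Continuous fun b : ℝ => c i * ec (b * m i) := fun i =>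
    continuous_const.mul (continuous_ec.comp (by fun_prop))
  rw [intervalIntegral.integral_finsetSum fun i _ => (hc i).intervalIntegrable _ _]
  refine sum_congr rfl fun i _ => ?_
  rw [intervalIntegral.integral_const_mul, Inv_int_ec]
  split_ifs <;> simp

variable {E : Type*} [NormedAddCommGroup E] [InnerProductSpace ℂ E]

lemma Inv_self (x : E) : inner ℂ x x = ((‖x‖ ^ 2 : ℝ) : ℂ) := by
  rw [inner_self_eq_norm_sq_to_K]; simp

/-- Twisted sums along the orbit. -/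
def Inv_s (U : E →ₗᵢ[ℂ] E) (x : E) (b : ℝ) (K : ℕ) : E :=
  ∑ k ∈ range K, ec (-(b * k)) • U^[k] x

lemma Inv_inner_iter (U : E →ₗᵢ[ℂ] E) (x y : E) (m : ℕ) :
    inner ℂ (U^[m] x) (U^[m] y) = inner ℂ x y := by
  induction m with
  | zero => rfl
  | succ m ih => rw [Function.iterate_succ_apply', Function.iterate_succ_apply',
      U.inner_map_map, ih]

lemma Inv_inner_shift (U : E →ₗᵢ[ℂ] E) (x : E) {l l' k k' : ℕ} (h : l' + k' = l + k) :
    inner ℂ (U^[l'] x) (U^[l] x) = inner ℂ (U^[k] x) (U^[k'] x) := by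
  rw [← Inv_inner_iter U (U^[l'] x) _ k', ← Inv_inner_iter U (U^[k] x) _ l,
    ← Function.iterate_add_apply, ← Function.iterate_add_apply, ← Function.iterate_add_apply,
    ← Function.iterate_add_apply, add_comm k' l', h, add_comm k' l]

lemma Inv_norm_s (U : E →ₗᵢ[ℂ] E) (x : E) (b : ℝ) (K : ℕ) :
    ((‖Inv_s U x b K‖ ^ 2 : ℝ) : ℂ) = ∑ p ∈ range K ×ˢ range K,
      inner ℂ (U^[p.2] x) (U^[p.1] x) * ec (b * (((p.2 : ℤ) - p.1 : ℤ) : ℝ)) := by
  rw [← Inv_self, Inv_s, inner_sum, sum_product]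
  refine sum_congr rfl fun k _ => ?_
  rw [sum_inner]
  refine sum_congr rfl fun k' _ => ?_
  rw [inner_smul_left, inner_smul_right, conj_ec, ← mul_assoc, ← ec_add, mul_comm]
  congr 2
  push_cast; ring

lemma Inv_cont_s (U : E →ₗᵢ[ℂ] E) (x : E) (K : ℕ) : Continuous fun b => Inv_s U x b K :=
  continuous_finsetSum _ fun _ _ => (continuous_ec.comp (by fun_prop)).smul continuous_const

lemma Inv_int_s (U : E →ₗᵢ[ℂ] E) (x : E) (K : ℕ) :
    ∫ b in (0 : ℝ)..1, ‖Inv_s U x b K‖ ^ 2 = K * ‖x‖ ^ 2 := by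
  apply Complex.ofReal_injective
  rw [← intervalIntegral.integral_ofReal]
  simp only [Inv_norm_s]
  rw [Inv_int_trig, sum_product]
  have : ∀ k ∈ range K, (∑ k' ∈ range K, if ((k' : ℤ) - k : ℤ) = 0 then
      inner ℂ (U^[k'] x) (U^[k] x) else 0) = ((‖x‖ ^ 2 : ℝ) : ℂ) := fun k hk => by
    rw [sum_eq_single k]
    · rw [if_pos (sub_self _), Inv_inner_iter, Inv_self]
    · intro j _ hj
      rw [if_neg]; omega
    · exact fun h => absurd hk h
  rw [sum_congr rfl this]; simp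

lemma Inv_int_ss (U : E →ₗᵢ[ℂ] E) (x : E) (K M : ℕ) :
    M * ∑ p ∈ range K ×ˢ range K, ‖inner ℂ (U^[p.2] x) (U^[p.1] x)‖ ^ 2 ≤
      ∫ b in (0 : ℝ)..1, ‖Inv_s U x b K‖ ^ 2 * ‖Inv_s U x b (M + K)‖ ^ 2 := by
  have h : ((∫ b in (0 : ℝ)..1, ‖Inv_s U x b K‖ ^ 2 * ‖Inv_s U x b (M + K)‖ ^ 2 : ℝ) : ℂ) =
      ((∑ p ∈ range K ×ˢ range K, ∑ q ∈ range (M + K) ×ˢ range (M + K),
        if q.2 + p.2 = q.1 + p.1 then ‖inner ℂ (U^[p.2] x) (U^[p.1] x)‖ ^ 2 else 0 : ℝ) : ℂ) := by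
    rw [← intervalIntegral.integral_ofReal]
    have : ∀ b : ℝ, ((‖Inv_s U x b K‖ ^ 2 * ‖Inv_s U x b (M + K)‖ ^ 2 : ℝ) : ℂ) =
        ∑ r ∈ (range K ×ˢ range K) ×ˢ (range (M + K) ×ˢ range (M + K)),
          (inner ℂ (U^[r.1.2] x) (U^[r.1.1] x) * inner ℂ (U^[r.2.2] x) (U^[r.2.1] x)) *
            ec (b * (((r.1.2 : ℤ) - r.1.1 + ((r.2.2 : ℤ) - r.2.1) : ℤ) : ℝ)) := fun b => by
      rw [Complex.ofReal_mul, Inv_norm_s, Inv_norm_s, sum_mul_sum, eq_comm, sum_product]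
      refine sum_congr rfl fun p _ => sum_congr rfl fun q _ => ?_
      dsimp only
      rw [Int.cast_add, mul_add, ec_add]; ring
    simp only [this]
    rw [Inv_int_trig, sum_product, Complex.ofReal_sum]
    refine sum_congr rfl fun p _ => ?_
    rw [Complex.ofReal_sum]
    refine sum_congr rfl fun q _ => ?_
    dsimp only
    by_cases hq : q.2 + p.2 = q.1 + p.1
    · rw [if_pos hq, if_pos (by omega), Inv_inner_shift U x hq, ← inner_conj_symm (U^[p.1] x),
        Complex.mul_conj, Complex.normSq_eq_norm_sq]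
    · rw [if_neg hq, if_neg (by omega)]; simp
  rw [Complex.ofReal_injective h, mul_sum]
  refine sum_le_sum fun p hp => ?_
  rw [← sum_filter, sum_const, nsmul_eq_mul]
  refine mul_le_mul_of_nonneg_right ?_ (by positivity)
  simp only [mem_product, mem_range] at hp
  have : (range M).card ≤ ((range (M + K) ×ˢ range (M + K)).filter
      fun q => q.2 + p.2 = q.1 + p.1).card := by
    refine card_le_card_of_injOn (fun m => (m + p.2, m + p.1)) (fun m hm => ?_) fun m _ m' _ h => ?_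
    · simp only [coe_range, Set.mem_Iio] at hm
      simp only [coe_filter, mem_product, mem_range, Set.mem_ofPred_eq]
      omega
    · simpa using congrArg Prod.fst h
  exact_mod_cast (card_range M ▸ this)

lemma Inv_max (U : E →ₗᵢ[ℂ] E) {x : E} (hx : ‖x‖ ≤ 1) (K : ℕ) :
    ∃ b ∈ Set.Icc (0 : ℝ) 1, ∑ p ∈ range K ×ˢ range K, ‖inner ℂ (U^[p.2] x) (U^[p.1] x)‖ ^ 2 ≤
      ‖Inv_s U x b K‖ ^ 2 := by
  have hc : ∀ L, Continuous fun b => ‖Inv_s U x b L‖ ^ 2 := fun L => (Inv_cont_s U x L).norm.pow 2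
  obtain ⟨b₀, hb₀, hmax⟩ := isCompact_Icc.exists_isMaxOn (Set.nonempty_Icc.2 (zero_le_one' ℝ))
    (hc K).continuousOn
  refine ⟨b₀, hb₀, ?_⟩
  set A := ∑ p ∈ range K ×ˢ range K, ‖inner ℂ (U^[p.2] x) (U^[p.1] x)‖ ^ 2
  set B := ‖Inv_s U x b₀ K‖ ^ 2
  have hB : 0 ≤ B := by positivity
  have key : ∀ M : ℕ, M * A ≤ B * (M + K) := fun M => by
    refine (Inv_int_ss U x K M).trans ?_
    refine (intervalIntegral.integral_mono_on zero_le_one
      (((hc K).mul (hc _)).intervalIntegrable _ _)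
      ((continuous_const.mul (hc (M + K))).intervalIntegrable _ _)
      (g := fun b => B * ‖Inv_s U x b (M + K)‖ ^ 2) fun b hb =>
        mul_le_mul_of_nonneg_right (hmax hb) (by positivity)).trans ?_
    rw [intervalIntegral.integral_const_mul, Inv_int_s]
    refine mul_le_mul_of_nonneg_left ?_ hB
    push_cast
    exact mul_le_of_le_one_right (by positivity) (pow_le_one₀ (norm_nonneg _) hx)
  by_contra hlt
  push Not at hlt
  obtain ⟨M, hM⟩ := exists_nat_gt (B * K / (A - B))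
  rw [div_lt_iff₀ (by linarith)] at hM
  nlinarith [key M]

lemma Inv_s_double (U : E →ₗᵢ[ℂ] E) (x : E) (b : ℝ) (K : ℕ) :
    ‖Inv_s U x b (K + K)‖ ≤ 2 * ‖Inv_s U x b K‖ := by
  have hit : ∀ (m : ℕ) (y : E), ‖U^[m] y‖ = ‖y‖ := fun m y => by
    induction m with
    | zero => rfl
    | succ m ih => rw [Function.iterate_succ_apply', U.norm_map, ih]
  have h : Inv_s U x b (K + K) = Inv_s U x b K + ec (-(b * K)) • U^[K] (Inv_s U x b K) := by
    rw [Inv_s, sum_range_add]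
    congr 1
    have : U^[K] = ((U.toLinearMap ^ K : E →ₗ[ℂ] E) : E → E) := by
      rw [Module.End.coe_pow]; rfl
    rw [Inv_s, this, map_sum, smul_sum]
    refine sum_congr rfl fun k _ => ?_
    rw [map_smul, smul_smul, ← ec_add, ← this, ← Function.iterate_add_apply]
    congr 2
    push_cast; ring
  rw [h, two_mul]
  refine (norm_add_le _ _).trans ?_
  rw [norm_smul, norm_ec, one_mul, hit]

variable [CompleteSpace E]

/-- The mean ergodic theorem for the twisted operator. -/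
lemma Inv_vN (U : E →ₗᵢ[ℂ] E) (x : E) (b : ℝ) :
    ∃ χ : E, Tendsto (fun K : ℕ => (K : ℂ)⁻¹ • Inv_s U x b K) atTop (𝓝 χ) ∧
      U χ = ec b • χ ∧ inner ℂ χ x = ((‖χ‖ ^ 2 : ℝ) : ℂ) := by
  set V : E →L[ℂ] E := ec (-b) • U.toContinuousLinearMap with hV
  have hVn : ‖V‖ ≤ 1 := V.opNorm_le_bound zero_le_one fun y => by
    simp [hV, norm_smul]
  have hit : ∀ k : ℕ, V^[k] x = ec (-(b * k)) • U^[k] x := fun k => by
    induction k with
    | zero => simp
    | succ k ih =>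
      rw [Function.iterate_succ_apply', Function.iterate_succ_apply', ih, hV]
      simp only [smul_apply, map_smul,
        LinearIsometry.coe_toContinuousLinearMap, smul_smul, ← ec_add]
      congr 2
      push_cast; ring
  have ht := V.tendsto_birkhoffAverage_orthogonalProjection hVn x
  set P := (V.eqLocus (1 : E →L[ℂ] E)).orthogonalProjectionOnto x
  refine ⟨P, ?_, ?_, ?_⟩
  · refine ht.congr fun K => ?_
    simp only [birkhoffAverage, birkhoffSum, id, hit, Inv_s]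
  · have h : ec (-b) • U P = P := P.2
    conv_rhs => rw [← h]
    rw [smul_smul, ← ec_add]; simp
  · have h := Submodule.starProjection_inner_eq_zero (K := V.eqLocus (1 : E →L[ℂ] E)) x P P.2
    rw [← inner_conj_symm, ← Inv_self, ← inner_conj_symm (P : E) P]
    congr 1
    rw [inner_sub_left, sub_eq_zero] at h
    exact h

/-- The abstract inverse theorem. -/
lemma Inv_abs (U : E →ₗᵢ[ℂ] E) {x : E} (hx : ‖x‖ ≤ 1) {c : ℝ}
    (hc : ∀ K : ℕ, 1 ≤ K → c * K ^ 2 ≤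
      ∑ p ∈ range K ×ˢ range K, ‖inner ℂ (U^[p.2] x) (U^[p.1] x)‖ ^ 2) :
    ∃ (b : ℝ) (χ : E), Tendsto (fun K : ℕ => (K : ℂ)⁻¹ • Inv_s U x b K) atTop (𝓝 χ) ∧
      U χ = ec b • χ ∧ c ≤ (inner ℂ χ x).re := by
  let t : ℕ → Set ℝ := fun n =>
    Set.Icc 0 1 ∩ {b | c * ((2 ^ n : ℕ) : ℝ) ^ 2 ≤ ‖Inv_s U x b (2 ^ n)‖ ^ 2}
  have hcl : ∀ n, IsClosed (t n) := fun n =>
    isClosed_Icc.inter (isClosed_le continuous_const ((Inv_cont_s U x _).norm.pow 2))
  obtain ⟨b, hb⟩ := IsCompact.nonempty_iInter_of_sequence_nonempty_isCompact_isClosed t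
    (fun n b hb => ⟨hb.1, by
      have h1 : c * ((2 ^ (n + 1) : ℕ) : ℝ) ^ 2 ≤ ‖Inv_s U x b (2 ^ (n + 1))‖ ^ 2 := hb.2
      have h2 := pow_le_pow_left₀ (norm_nonneg _) (Inv_s_double U x b (2 ^ n)) 2
      rw [show 2 ^ (n + 1) = 2 ^ n + 2 ^ n by ring] at h1
      change c * ((2 ^ n : ℕ) : ℝ) ^ 2 ≤ _
      push_cast at h1 ⊢
      nlinarith⟩)
    (fun n => by
      obtain ⟨b, hb, h⟩ := Inv_max U hx (2 ^ n)
      exact ⟨b, hb, (hc _ Nat.one_le_two_pow).trans h⟩)
    (isCompact_Icc.of_isClosed_subset (hcl 0) Set.inter_subset_left) hcl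
  obtain ⟨χ, h1, h2, h3⟩ := Inv_vN U x b
  refine ⟨b, χ, h1, h2, ?_⟩
  rw [h3, Complex.ofReal_re]
  refine ge_of_tendsto' ((h1.comp (tendsto_pow_atTop_atTop_of_one_lt one_lt_two)).norm.pow 2)
    fun n => ?_
  have h : c * ((2 ^ n : ℕ) : ℝ) ^ 2 ≤ ‖Inv_s U x b (2 ^ n)‖ ^ 2 := (Set.mem_iInter.1 hb n).2
  have hp : (0 : ℝ) < ((2 ^ n : ℕ) : ℝ) := by positivity
  simp only [Function.comp, norm_smul, norm_inv, Complex.norm_natCast, mul_pow, inv_pow]
  rw [inv_mul_eq_div, le_div_iff₀ (by positivity)]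
  exact h

end Pool.Agent.MP_357fb4_an
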