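import Pool.Agent.MP_357fb4_an.Box
import Pool.Agent.MP_357fb4_an.InvX

/-!
The inverse theorem of order two.
-/

open scoped BigOperators Classical ComplexConjugate Polynomial
open Finset Filter MeasureTheory Topology

noncomputable section

namespace Pool.Agent.MP_357fb4_an

variable {Y : Type} [MeasurableSpace Y] {μ : Measure Y} [IsProbabilityMeasure μ]

lemma Inv_mem {f : Y → ℂ} (hf : B1 f) : MemLp f 2 μ :=
  MemLp.of_bound hf.1.aestronglyMeasurable 1 (Eventually.of_forall hf.2)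

/-- The Koopman isometry. -/
def Inv_U (S : Sys ℤ Y μ) : Lp ℂ 2 μ →ₗᵢ[ℂ] Lp ℂ 2 μ :=
  Lp.compMeasurePreservingₗᵢ ℂ (S.act 1) (S.mp 1)

omit [IsProbabilityMeasure μ] in
lemma Inv_U_ae (S : Sys ℤ Y μ) (x : Lp ℂ 2 μ) : Inv_U S x =ᵐ[μ] fun y => x (S.act 1 y) :=
  Lp.coeFn_compMeasurePreserving x (S.mp 1)

omit [IsProbabilityMeasure μ] in
lemma Inv_iter_ae (S : Sys ℤ Y μ) {x : Lp ℂ 2 μ} {f : Y → ℂ} (h : x =ᵐ[μ] f) (k : ℕ) :
    (Inv_U S)^[k] x =ᵐ[μ] fun y => f (S.act (k : ℕ) y) := by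
  induction k with
  | zero => simpa [S.act_zero] using h
  | succ k ih =>
    rw [Function.iterate_succ_apply']
    filter_upwards [Inv_U_ae S ((Inv_U S)^[k] x), (S.mp 1).quasiMeasurePreserving.ae ih]
      with y h1 h2
    rw [h1, h2, act_act]; push_cast; rfl

omit [IsProbabilityMeasure μ] in
lemma Inv_avg_ae (S : Sys ℤ Y μ) {x : Lp ℂ 2 μ} {f : Y → ℂ} (h : x =ᵐ[μ] f) (b : ℝ) (K : ℕ) :
    ((K : ℂ)⁻¹ • Inv_s (Inv_U S) x b K : Lp ℂ 2 μ) =ᵐ[μ]
      fun y => 𝔼 k ∈ range K, ec (-(b * k)) * f (S.act (k : ℕ) y) := by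
  have h2 : ∀ᵐ y ∂μ, ∀ k : ℕ, (ec (-(b * k)) • (Inv_U S)^[k] x : Lp ℂ 2 μ) y =
      ec (-(b * k)) * f (S.act (k : ℕ) y) := ae_all_iff.2 fun k => by
    filter_upwards [Lp.coeFn_smul (ec (-(b * k))) ((Inv_U S)^[k] x), Inv_iter_ae S h k]
      with y h1 h2
    rw [h1, Pi.smul_apply, h2, smul_eq_mul]
  filter_upwards [Lp.coeFn_smul (K : ℂ)⁻¹ (Inv_s (Inv_U S) x b K), h2,
    Lp.coeFn_fun_finsetSum (range K) fun k => ec (-(b * k)) • (Inv_U S)^[k] x] with y h1 h2 h3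
  rw [h1, Pi.smul_apply, Inv_s, h3, smul_eq_mul, expect_eq_sum_div_card, card_range,
    div_eq_inv_mul]
  simp only [h2]

omit [IsProbabilityMeasure μ] in
lemma Inv_inner {x z : Lp ℂ 2 μ} {f g : Y → ℂ} (hx : x =ᵐ[μ] f) (hz : z =ᵐ[μ] g) :
    inner ℂ z x = ∫ y, f y * conj (g y) ∂μ := by
  rw [L2.inner_def]
  refine integral_congr_ae ?_
  filter_upwards [hx, hz] with y h1 h2
  rw [h1, h2]; simp

omit [IsProbabilityMeasure μ] in
lemma Inv_norm {x : Lp ℂ 2 μ} {f : Y → ℂ} (hx : x =ᵐ[μ] f) : ‖x‖ ^ 2 = ∫ y, ‖f y‖ ^ 2 ∂μ := by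
  apply Complex.ofReal_injective
  rw [← Inv_self, Inv_inner hx hx, ← integral_complex_ofReal]
  simp only [Complex.mul_conj, Complex.normSq_eq_norm_sq]

lemma Inv_box_lim (S : Sys ℤ Y μ) (erg : Ergodic (S.act 1) μ) {f : Y → ℂ} (hf : B1 f) :
    Tendsto (fun K => box S [K] f) atTop (𝓝 (‖∫ y, f y ∂μ‖ ^ 2)) := by
  have hx : ((Inv_mem hf).toLp f : Lp ℂ 2 μ) =ᵐ[μ] f := MemLp.coeFn_toLp _
  obtain ⟨χ, h1, h2, h3⟩ := Inv_vN (Inv_U S) ((Inv_mem hf).toLp f) 0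
  rw [ec_zero, one_smul] at h2
  obtain ⟨c, hc⟩ := erg.ae_eq_const_of_ae_eq_comp_ae (Lp.aestronglyMeasurable χ) (by
    have := Inv_U_ae S χ
    rw [h2] at this
    exact this.symm)
  have hn : ‖χ‖ ^ 2 = ‖c‖ ^ 2 := by rw [Inv_norm hc]; simp
  rw [Inv_inner hx hc, hn] at h3
  simp only [Function.const, integral_mul_const] at h3
  have hlim : Tendsto (fun K => box S [K] f) atTop (𝓝 (‖c‖ ^ 2)) := by
    rw [← hn]
    refine (h1.norm.pow 2).congr fun K => ?_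
    rw [Inv_norm (Inv_avg_ae S hx 0 K), box_one S K hf]
    simp
  have hle : ‖∫ y, f y ∂μ‖ ^ 2 ≤ ‖c‖ ^ 2 :=
    ge_of_tendsto hlim ((eventually_ge_atTop 1).mono fun K hK => sq_norm_integral_le_box S hK hf)
  have h4 : ‖∫ y, f y ∂μ‖ * ‖c‖ = ‖c‖ ^ 2 := by
    have := congrArg norm h3
    rwa [norm_mul, Complex.norm_conj, Complex.norm_real, Real.norm_of_nonneg (by positivity)]
      at this
  have : ‖∫ y, f y ∂μ‖ ^ 2 = ‖c‖ ^ 2 := by
    rcases (norm_nonneg c).eq_or_lt with h0 | h0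
    · exact le_antisymm hle (by rw [← h0]; simp)
    · rw [mul_right_cancel₀ h0.ne' (h4.trans (sq _))]
  rwa [this]

lemma Inv_nrm_le (S : Sys ℤ Y μ) (erg : Ergodic (S.act 1) μ) {G : Y → ℂ} (hG : B1 G) {K : ℕ}
    (hK : 1 ≤ K) : nrm S 2 G ≤
      𝔼 h ∈ range K, 𝔼 h' ∈ range K, ‖∫ y, dl S (h : ℕ) (h' : ℕ) G y ∂μ‖ ^ 2 := by
  have hl : Tendsto (fun L => box S [K, L] G) atTop
      (𝓝 (𝔼 h ∈ range K, 𝔼 h' ∈ range K, ‖∫ y, dl S (h : ℕ) (h' : ℕ) G y ∂μ‖ ^ 2)) := by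
    change Tendsto (fun L => 𝔼 h ∈ range K, 𝔼 h' ∈ range K,
      box S [L] (dl S (h : ℕ) (h' : ℕ) G)) atTop _
    simp only [expect_eq_sum_div_card]
    exact (tendsto_finsetSum _ fun h _ => (tendsto_finsetSum _ fun h' _ =>
      Inv_box_lim S erg (hG.dl S _ _)).div_const _).div_const _
  refine ge_of_tendsto hl ((eventually_ge_atTop 1).mono fun L hL => ?_)
  exact nrm_le S [K, L] (by simp [hK, hL]) hG

omit [IsProbabilityMeasure μ] in
lemma Inv_eig (S : Sys ℤ Y μ) {β : ℝ} {χ : Y → ℂ} (hχ : B1 χ)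
    (h : (fun y => χ (S.act 1 y)) =ᵐ[μ] fun y => ec β * χ y) : Eig S β χ := by
  refine ⟨hχ, fun n => ?_⟩
  induction n using Int.induction_on with
  | zero => simp [S.act_zero]
  | succ n ih =>
    filter_upwards [ih, (S.mp n).quasiMeasurePreserving.ae h] with y h1 h2
    rw [add_comm, S.act_add, h2, h1, ← mul_assoc, ← ec_add]
    congr 2; push_cast; ring
  | pred n ih =>
    filter_upwards [ih, (S.mp (-n - 1)).quasiMeasurePreserving.ae h] with y h1 h2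
    rw [act_act, show (1 + (-n - 1) : ℤ) = -n by ring, h1] at h2
    have : ec (-β) * ec β = 1 := by rw [← ec_add]; simp
    rw [← one_mul (χ (S.act (-n - 1) y)), ← this, mul_assoc, ← h2, ← mul_assoc, ← ec_add]
    congr 2; push_cast; ring

theorem inv2 (S : Sys ℤ Y μ) (erg : Ergodic (S.act 1) μ) {G : Y → ℂ} (hG : B1 G) :
    ∃ (β : ℝ) (χ : Y → ℂ), Eig S β χ ∧ nrm S 2 G ≤ (∫ y, G y * conj (χ y) ∂μ).re := by
  have hx : ((Inv_mem hG).toLp G : Lp ℂ 2 μ) =ᵐ[μ] G := MemLp.coeFn_toLp _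
  set x : Lp ℂ 2 μ := (Inv_mem hG).toLp G
  have hx1 : ‖x‖ ≤ 1 := by
    have h : ‖x‖ ^ 2 ≤ 1 := by
      rw [Inv_norm hx]
      have := norm_integral_le_of_norm_le_const (μ := μ) (f := fun y => ‖G y‖ ^ 2) (C := 1)
        (Eventually.of_forall fun y => by
          rw [Real.norm_of_nonneg (by positivity)]; exact pow_le_one₀ (norm_nonneg _) (hG.2 y))
      exact (le_abs_self _).trans (by simpa using this)
    nlinarith [norm_nonneg x]
  obtain ⟨b, χ, h1, h2, h3⟩ := Inv_abs (Inv_U S) hx1 (c := nrm S 2 G) fun K hK => by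
    have hp : (0 : ℝ) < K := by exact_mod_cast hK
    have := Inv_nrm_le S erg hG hK
    simp only [expect_eq_sum_div_card, card_range, ← sum_div, div_div] at this
    rw [le_div_iff₀ (by positivity), ← sq] at this
    refine this.trans (le_of_eq ?_)
    rw [sum_product]
    refine sum_congr rfl fun k _ => sum_congr rfl fun k' _ => ?_
    rw [Inv_inner (Inv_iter_ae S hx k) (Inv_iter_ae S hx k')]
    rfl
  have hb : ∀ᵐ y ∂μ, ‖χ y‖ ≤ 1 := by
    obtain ⟨ns, -, hns⟩ := (tendstoInMeasure_of_tendsto_Lp h1).exists_seq_tendsto_ae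
    filter_upwards [hns, ae_all_iff.2 fun K => Inv_avg_ae S hx b K] with y hy1 hy2
    refine le_of_tendsto' hy1.norm fun i => ?_
    rw [hy2]
    exact norm_expect_le_one _ fun k _ => by rw [norm_mul, norm_ec, one_mul]; exact hG.2 _
  have hm := Lp.aestronglyMeasurable χ
  set χ₀ := hm.mk χ
  have hm₀ : Measurable χ₀ := hm.stronglyMeasurable_mk.measurable
  set χ₁ : Y → ℂ := fun y => if ‖χ₀ y‖ ≤ 1 then χ₀ y else 0 with hχ₁
  have he : (χ : Y → ℂ) =ᵐ[μ] χ₁ := by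
    filter_upwards [hb, hm.ae_eq_mk] with y h1 h2
    rw [h2] at h1
    rw [h2, hχ₁]; exact (if_pos h1).symm
  have hB : B1 χ₁ := ⟨Measurable.ite (measurableSet_le hm₀.norm measurable_const) hm₀
    measurable_const, fun y => by
      simp only [hχ₁]; split_ifs with h
      · exact h
      · simp⟩
  refine ⟨b, χ₁, Inv_eig S hB ?_, by rwa [Inv_inner hx he] at h3⟩
  filter_upwards [Inv_U_ae S χ, Lp.coeFn_smul (ec b) χ, he,
    (S.mp 1).quasiMeasurePreserving.ae he] with y h4 h5 h6 h7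
  rw [← h7, ← h4, h2, h5, Pi.smul_apply, h6, smul_eq_mul]

end Pool.Agent.MP_357fb4_an
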