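import Pool.Agent.MP_357fb4_an.Basic

/-!
Weak limits, and invariant functions.
-/

open scoped BigOperators Classical ComplexConjugate Polynomial
open Finset Filter MeasureTheory Topology

noncomputable section

namespace Pool.Agent.MP_357fb4_an

variable {Y : Type} [MeasurableSpace Y] {μ : Measure Y} [IsProbabilityMeasure μ]

/-- Weak compactness of balls of a Hilbert space, along an ultrafilter. -/
lemma WL_hilbert {H : Type} [NormedAddCommGroup H] [InnerProductSpace ℂ H] [CompleteSpace H]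
    (U : Ultrafilter ℕ) (d : ℕ → H) (hd : ∀ j, ‖d j‖ ≤ 1) :
    ∃ e : H, ∀ v, Tendsto (fun j => inner ℂ (d j) v) U (𝓝 (inner ℂ e v)) := by
  have hc := WeakDual.isCompact_closedBall (𝕜 := ℂ) (E := H) 0 1
  let φ : ℕ → WeakDual ℂ H := fun j => StrongDual.toWeakDual (InnerProductSpace.toDual ℂ H (d j))
  obtain ⟨ψ, -, hψ⟩ := hc.ultrafilter_le_nhds (U.map φ) (by
    rw [le_principal_iff, Ultrafilter.coe_map, Filter.mem_map]
    refine Eventually.of_forall fun j => ?_
    simpa [φ] using hd j)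
  refine ⟨(InnerProductSpace.toDual ℂ H).symm (WeakDual.toStrongDual ψ), fun v => ?_⟩
  rw [InnerProductSpace.toDual_symm_apply]
  exact ((WeakDual.eval_continuous v).tendsto ψ).comp hψ

lemma WL_memLp {f : Y → ℂ} (hf : B1 f) : MemLp f 2 μ :=
  MemLp.of_bound hf.1.aestronglyMeasurable 1 (Eventually.of_forall hf.2)

lemma WL_norm {f : Y → ℂ} (hf : B1 f) : ‖(WL_memLp (μ := μ) hf).toLp f‖ ≤ 1 := by
  have := Lp.norm_le_of_ae_bound (f := (WL_memLp (μ := μ) hf).toLp f) zero_le_one (by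
    filter_upwards [(WL_memLp (μ := μ) hf).coeFn_toLp] with y hy
    rw [hy]
    exact hf.2 y)
  simpa [measureUnivNNReal] using this

lemma WL_inner (e : Lp ℂ 2 μ) {f g : Y → ℂ} (hf : B1 f) (hg : ∀ᵐ y ∂μ, g y = conj (e y)) :
    inner ℂ e ((WL_memLp (μ := μ) hf).toLp f) = ∫ y, f y * g y ∂μ := by
  rw [L2.inner_def]
  refine integral_congr_ae ?_
  filter_upwards [(WL_memLp (μ := μ) hf).coeFn_toLp, hg] with y h1 h2
  rw [h1, h2]
  simp

/-- A function whose pairings are dominated by the integral of the norm is bounded by one. -/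
lemma WL_bound {g : Y → ℂ} (hg : Measurable g) (hi : Integrable g μ)
    (h : ∀ f : Y → ℂ, B1 f → ‖∫ y, f y * g y ∂μ‖ ≤ ∫ y, ‖f y‖ ∂μ) : ∀ᵐ y ∂μ, ‖g y‖ ≤ 1 := by
  have hA : MeasurableSet {y | 1 < ‖g y‖} := measurableSet_lt measurable_const hg.norm
  let f : Y → ℂ := fun y => if 1 < ‖g y‖ then conj (g y) / ‖g y‖ else 0
  have n1 : ∀ y, ‖f y‖ = if 1 < ‖g y‖ then 1 else 0 := by
    intro y
    by_cases hy : 1 < ‖g y‖
    · have : ‖g y‖ ≠ 0 := by linarith
      simp [f, hy, this]
    · simp [f, hy]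
  have hf : B1 f := by
    refine ⟨Measurable.ite hA ((Complex.continuous_conj.measurable.comp hg).div
      (Complex.measurable_ofReal.comp hg.norm)) measurable_const, fun y => ?_⟩
    rw [n1]
    split_ifs <;> norm_num
  have n2 : ∀ y, f y * g y = ((if 1 < ‖g y‖ then ‖g y‖ else 0 : ℝ) : ℂ) := by
    intro y
    by_cases hy : 1 < ‖g y‖
    · have : ((‖g y‖ : ℝ) : ℂ) ≠ 0 := by
        rw [Complex.ofReal_ne_zero]; linarith
      simp only [f, hy, if_true]
      rw [div_mul_eq_mul_div, Complex.conj_mul', div_eq_iff this, sq]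
    · simp [f, hy]
  have i1 : Integrable (fun y => if 1 < ‖g y‖ then ‖g y‖ else 0) μ :=
    (hi.norm.indicator hA).congr (Eventually.of_forall fun y => by simp [Set.indicator])
  have i2 : Integrable (fun y => if 1 < ‖g y‖ then (1 : ℝ) else 0) μ :=
    ((integrable_const (1 : ℝ)).indicator hA).congr
      (Eventually.of_forall fun y => by simp [Set.indicator])
  have h1 := h f hf
  simp only [n1, n2] at h1
  rw [integral_complex_ofReal, Complex.norm_real] at h1
  have h2 : 0 ≤ fun y => (if 1 < ‖g y‖ then ‖g y‖ else 0) - (if 1 < ‖g y‖ then (1 : ℝ) else 0) := by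
    intro y
    simp only [Pi.zero_apply]
    split_ifs <;> linarith
  have h3 : ∫ y, ((if 1 < ‖g y‖ then ‖g y‖ else 0) - (if 1 < ‖g y‖ then (1 : ℝ) else 0)) ∂μ = 0 := by
    refine le_antisymm ?_ (integral_nonneg h2)
    rw [integral_sub i1 i2]
    linarith [le_abs_self (∫ y, (if 1 < ‖g y‖ then ‖g y‖ else 0) ∂μ), Real.norm_eq_abs
      (∫ y, (if 1 < ‖g y‖ then ‖g y‖ else 0) ∂μ)]
  filter_upwards [(integral_eq_zero_iff_of_nonneg h2 (i1.sub i2)).1 h3] with y hy
  by_contra hlt
  rw [not_le] at hlt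
  simp only [hlt, if_true, Pi.zero_apply] at hy
  linarith

theorem weaklim (U : Ultrafilter ℕ) (D : ℕ → Y → ℂ) (hD : ∀ j, B1 (D j)) :
    ∃ E : Y → ℂ, B1 E ∧ ∀ f : Y → ℂ, B1 f →
      Tendsto (fun j => ∫ y, f y * D j y ∂μ) U (𝓝 (∫ y, f y * E y ∂μ)) := by
  obtain ⟨e, he⟩ := WL_hilbert U (fun j => (WL_memLp (μ := μ) (hD j).conj).toLp _)
    fun j => WL_norm (hD j).conj
  have hm : AEMeasurable (fun y => conj (e y)) μ :=
    Complex.continuous_conj.measurable.comp_aemeasurable (Lp.aestronglyMeasurable e).aemeasurable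
  obtain ⟨g, hg, hge⟩ := hm
  have hge' : ∀ᵐ y ∂μ, g y = conj (e y) := hge.symm
  have key : ∀ f : Y → ℂ, B1 f →
      Tendsto (fun j => ∫ y, f y * D j y ∂μ) U (𝓝 (∫ y, f y * g y ∂μ)) := by
    intro f hf
    have := he ((WL_memLp (μ := μ) hf).toLp f)
    rw [WL_inner e hf hge'] at this
    refine this.congr fun j => WL_inner _ hf ?_
    filter_upwards [(WL_memLp (μ := μ) (hD j).conj).coeFn_toLp] with y hy
    rw [hy, Complex.conj_conj]
  have hi : Integrable g μ := by
    refine ((Lp.memLp e).integrable one_le_two).norm.mono' hg.aestronglyMeasurable ?_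
    filter_upwards [hge'] with y hy
    rw [hy, Complex.norm_conj]
  have hb := WL_bound hg hi fun f hf => le_of_tendsto' (key f hf).norm fun j =>
    norm_integral_le_of_norm_le hf.integrable.norm (Eventually.of_forall fun y => by
      rw [norm_mul]
      exact mul_le_of_le_one_right (norm_nonneg _) ((hD j).2 y))
  refine ⟨fun y => if ‖g y‖ ≤ 1 then g y else 0, ⟨Measurable.ite
    (measurableSet_le hg.norm measurable_const) hg measurable_const, fun y => ?_⟩, fun f hf => ?_⟩
  · by_cases hy : ‖g y‖ ≤ 1 <;> simp [hy]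
  · have : ∫ y, f y * (if ‖g y‖ ≤ 1 then g y else 0) ∂μ = ∫ y, f y * g y ∂μ := by
      refine integral_congr_ae ?_
      filter_upwards [hb] with y hy
      rw [if_pos hy]
    rw [this]
    exact key f hf

theorem eig_const (S : Sys ℤ Y μ) (erg : Ergodic (S.act 1) μ) {χ : Y → ℂ} {n : ℤ}
    (hχ : Eig S n χ) : ∃ c : ℂ, χ =ᵐ[μ] fun _ => c := by
  refine erg.quasiErgodic.ae_eq_const_of_ae_eq_comp_ae hχ.1.1.aestronglyMeasurable ?_
  filter_upwards [hχ.2 1] with y hy
  rw [Int.cast_one, mul_one, ec_int, one_mul] at hy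
  exact hy

end Pool.Agent.MP_357fb4_an
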