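import Pool.Agent.MP_357fb4_an.DLow
import Pool.Agent.MP_357fb4_an.WL

/-!
Joint ergodicity from seminorm control and equidistribution.
-/

open scoped BigOperators Classical ComplexConjugate Polynomial
open Finset Filter MeasureTheory Topology

noncomputable section

namespace Pool.Agent.MP_357fb4_an

variable {Y : Type} [MeasurableSpace Y] {μ : Measure Y} [IsProbabilityMeasure μ]

/-- The phase carried by the indices outside T. -/
def jeTh {ι : Type} [Fintype ι] (a : ι → ℕ → ℤ) (T : Finset ι) (α : ι → ℝ) (n : ℕ) : ℝ :=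
  ∑ i ∈ Tᶜ, α i * a i n

/-- The twisted multiple average. -/
def jeA (S : Sys ℤ Y μ) {ι : Type} [Fintype ι] (a : ι → ℕ → ℤ) (c : ℕ → ℕ → ℝ) (T : Finset ι)
    (α : ι → ℝ) (f : ι → Y → ℂ) (j : ℕ) (y : Y) : ℂ :=
  ∑ n ∈ range j, (c j n : ℂ) * (ec (jeTh a T α n) * ∏ i ∈ T, f i (S.act (a i n) y))

/-- The terms of the dual function. -/
def jeF (S : Sys ℤ Y μ) {ι : Type} [Fintype ι] (a : ι → ℕ → ℤ) (T : Finset ι) (m : ι)
    (α : ι → ℝ) (G : Y → ℂ) (f : ι → Y → ℂ) (n : ℕ) (y : Y) : ℂ :=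
  ec (jeTh a T α n) * (G (S.act (-a m n) y) * ∏ i ∈ T.erase m, f i (S.act (a i n - a m n) y))

section

variable (S : Sys ℤ Y μ) {ι : Type} [Fintype ι] (a : ι → ℕ → ℤ) {c : ℕ → ℕ → ℝ}

omit [IsProbabilityMeasure μ] in
lemma je_B1sum (hc : ∀ j n, 0 ≤ c j n) (h1 : ∀ j, ∑ n ∈ range j, c j n ≤ 1) (j : ℕ)
    {H : ℕ → Y → ℂ} (hH : ∀ n, B1 (H n)) : B1 fun y => ∑ n ∈ range j, (c j n : ℂ) * H n y := by
  refine B1.sum (range j) (fun n _ => hH n) (le_trans (le_of_eq ?_) (h1 j))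
  exact sum_congr rfl fun n _ => by rw [Complex.norm_real, Real.norm_of_nonneg (hc j n)]

omit [IsProbabilityMeasure μ] in
lemma je_B1term (T : Finset ι) (θ : ℝ) {f : ι → Y → ℂ} (hf : ∀ i, B1 (f i)) (v : ι → ℤ) :
    B1 fun y => ec θ * ∏ i ∈ T, f i (S.act (v i) y) :=
  (B1.const (norm_ec θ).le).mul (B1.prod T fun i _ => (hf i).act S (v i))

omit [IsProbabilityMeasure μ] in
lemma jeA_B1 (hc : ∀ j n, 0 ≤ c j n) (h1 : ∀ j, ∑ n ∈ range j, c j n ≤ 1) (T : Finset ι)
    (α : ι → ℝ) {f : ι → Y → ℂ} (hf : ∀ i, B1 (f i)) (j : ℕ) : B1 (jeA S a c T α f j) :=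
  je_B1sum hc h1 j fun n => je_B1term S T _ hf fun i => a i n

omit [IsProbabilityMeasure μ] in
lemma jeF_B1 (T : Finset ι) (m : ι) (α : ι → ℝ) {G : Y → ℂ} (hG : B1 G) {f : ι → Y → ℂ}
    (hf : ∀ i, B1 (f i)) (n : ℕ) : B1 (jeF S a T m α G f n) :=
  (B1.const (norm_ec _).le).mul ((hG.act S _).mul (B1.prod _ fun i _ => (hf i).act S _))

lemma je_int_sum (j : ℕ) {φ : Y → ℂ} (hφ : B1 φ) {H : ℕ → Y → ℂ} (hH : ∀ n, B1 (H n)) :
    ∫ y, φ y * ∑ n ∈ range j, (c j n : ℂ) * H n y ∂μ =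
      ∑ n ∈ range j, (c j n : ℂ) * ∫ y, φ y * H n y ∂μ := by
  simp only [mul_sum]
  rw [integral_finsetSum]
  · refine sum_congr rfl fun n _ => ?_
    rw [← integral_const_mul]
    exact integral_congr_ae (Eventually.of_forall fun y => by simp only; ring)
  · intro n _
    exact (((hφ.mul (hH n)).integrable (μ := μ)).const_mul (c j n : ℂ)).congr
      (Eventually.of_forall fun y => by simp only; ring)

omit [IsProbabilityMeasure μ] in
lemma je_shift (T : Finset ι) (m : ι) (α : ι → ℝ) {G φ : Y → ℂ} (hG : B1 G) (hφ : B1 φ)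
    {f : ι → Y → ℂ} (hf : ∀ i, B1 (f i)) (n : ℕ) :
    ∫ y, φ y * jeF S a T m α G f n y ∂μ = ∫ y, φ (S.act (a m n) y) *
      (ec (jeTh a T α n) * (G y * ∏ i ∈ T.erase m, f i (S.act (a i n) y))) ∂μ := by
  rw [← integral_act S (a m n) (hφ.mul (jeF_B1 S a T m α hG hf n)).1]
  simp only [jeF, act_act, neg_add_cancel, sub_add_cancel, S.act_zero]

lemma je_dual {T : Finset ι} {m : ι} (hm : m ∈ T) (α : ι → ℝ) {G : Y → ℂ} (hG : B1 G)
    {f : ι → Y → ℂ} (hf : ∀ i, B1 (f i)) (j : ℕ) :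
    ∫ y, f m y * ∑ n ∈ range j, (c j n : ℂ) * jeF S a T m α G f n y ∂μ =
      ∫ y, G y * jeA S a c T α f j y ∂μ := by
  rw [je_int_sum j (hf m) (jeF_B1 S a T m α hG hf)]
  unfold jeA
  rw [je_int_sum j hG fun n => je_B1term S T _ hf fun i => a i n]
  refine sum_congr rfl fun n _ => ?_
  rw [je_shift S a T m α hG (hf m) hf]
  congr 1
  refine integral_congr_ae (Eventually.of_forall fun y => ?_)
  simp only
  rw [← mul_prod_erase T _ hm]
  ring

lemma jeTh_update {T : Finset ι} {m : ι} (hm : m ∈ T) (α : ι → ℝ) (β : ℝ) (n : ℕ) :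
    jeTh a (T.erase m) (Function.update α m β) n = β * a m n + jeTh a T α n := by
  have hm' : m ∉ Tᶜ := by simpa using hm
  unfold jeTh
  rw [compl_erase, sum_insert hm', Function.update_self]
  congr 1
  exact sum_congr rfl fun i hi => by
    rw [Function.update_of_ne (ne_of_mem_of_not_mem hi hm')]

lemma je_eig {T : Finset ι} {m : ι} (hm : m ∈ T) (α : ι → ℝ) {G : Y → ℂ} (hG : B1 G)
    {f : ι → Y → ℂ} (hf : ∀ i, B1 (f i)) (j : ℕ) {β : ℝ} {χ : Y → ℂ} (hχ : Eig S β χ) :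
    ∑ n ∈ range j, (c j n : ℂ) * ∫ y, χ y * jeF S a T m α G f n y ∂μ =
      ∫ y, (G y * χ y) * jeA S a c (T.erase m) (Function.update α m β) f j y ∂μ := by
  unfold jeA
  rw [je_int_sum j (hG.mul hχ.1) fun n => je_B1term S _ _ hf fun i => a i n]
  refine sum_congr rfl fun n _ => ?_
  rw [je_shift S a T m α hG hχ.1 hf]
  congr 1
  refine integral_congr_ae ((hχ.2 (a m n)).mono fun y hy => ?_)
  simp only at hy ⊢
  rw [hy, jeTh_update a hm, ec_add]
  ring

lemma je_dc (T : Finset ι) (m : ι) (α : ι → ℝ) (G : Y → ℂ) (f : ι → Y → ℂ) (n : ℕ) {r : ℕ}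
    (hr : 1 ≤ r) (h k : Fin r → ℕ) (y : Y) :
    dc S h k (jeF S a T m α G f n) y =
      jeF S a T m 0 (dc S h k G) (fun i => dc S h k (f i)) n y := by
  have h0 : jeTh a T 0 n = 0 := by simp [jeTh]
  have e1 := dc_act S h k G (-a m n) y
  have e2 : ∀ i, _ := fun i => dc_act S h k (f i) (a i n - a m n) y
  rw [jeF, h0, ec_zero, one_mul, ← e1]
  simp only [← e2]
  simp only [dc, jeF]
  rw [cube_mul, cube_const hr (norm_ec _), one_mul, cube_mul, cube_prod]

lemma je_cs {l : Filter ℕ} {G A : ℕ → Y → ℂ} (hG : ∀ j, B1 (G j)) (hA : ∀ j, B1 (A j))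
    (h : Tendsto (fun j => ∫ y, ‖A j y‖ ^ 2 ∂μ) l (𝓝 0)) :
    Tendsto (fun j => ∫ y, G j y * A j y ∂μ) l (𝓝 0) := by
  rw [tendsto_zero_iff_norm_tendsto_zero]
  have h2 := h.sqrt
  rw [Real.sqrt_zero] at h2
  exact squeeze_zero (fun _ => norm_nonneg _)
    (fun j => Real.le_sqrt_of_sq_le (sq_norm_integral_mul_le (hA j).1 (hA j).2 (hG j).2)) h2

omit [IsProbabilityMeasure μ] in
lemma je_conj_mul (A : Y → ℂ) :
    ∫ y, conj (A y) * A y ∂μ = ((∫ y, ‖A y‖ ^ 2 ∂μ : ℝ) : ℂ) := by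
  rw [← integral_complex_ofReal]
  exact integral_congr_ae (Eventually.of_forall fun y => by
    simp only; rw [Complex.conj_mul']; push_cast; rfl)

omit [IsProbabilityMeasure μ] in
lemma je_corr (T : Finset ι) (m : ι) (α : ι → ℝ) (G φ : Y → ℂ) (f : ι → Y → ℂ) (n : ℕ) :
    ‖∫ y, φ y * jeF S a T m α G f n y ∂μ‖ =
      ‖corr S φ (fun o : Option {i // i ≠ m} => o.elim G fun i => if i.1 ∈ T then f i else 1)
        fun o => o.elim (-a m n) fun i => a i n - a m n‖ := by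
  have : ∫ y, φ y * jeF S a T m α G f n y ∂μ = ec (jeTh a T α n) *
      corr S φ (fun o : Option {i // i ≠ m} => o.elim G fun i => if i.1 ∈ T then f i else 1)
        fun o => o.elim (-a m n) fun i => a i n - a m n := by
    rw [corr, ← integral_const_mul]
    refine integral_congr_ae (Eventually.of_forall fun y => ?_)
    simp only [jeF, Fintype.prod_option, Option.elim_none, Option.elim_some]
    have e : ∏ i : {i // i ≠ m}, (if i.1 ∈ T then f i else 1) (S.act (a i n - a m n) y) =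
        ∏ i ∈ T.erase m, f i (S.act (a i n - a m n) y) := by
      rw [← prod_subtype (univ.erase m) (p := fun i => i ≠ m) (by simp)
        (fun i => (if i ∈ T then f i else 1) (S.act (a i n - a m n) y))]
      rw [← prod_subset (s₁ := T.erase m) (erase_subset_erase m (subset_univ T))]
      · exact prod_congr rfl fun i hi => by rw [if_pos (mem_of_mem_erase hi)]
      · intro i hi hi'
        rw [if_neg fun h => hi' (mem_erase.2 ⟨(mem_erase.1 hi).1, h⟩)]
        rfl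
    rw [e]
    ring
  rw [this, norm_mul, norm_ec, one_mul]

/-- The statement proved by induction on T. -/
def jeP (S : Sys ℤ Y μ) {ι : Type} [Fintype ι] (a : ι → ℕ → ℤ) (c : ℕ → ℕ → ℝ)
    (T : Finset ι) : Prop :=
  ∀ (α : ι → ℝ) (f : ι → Y → ℂ), (∀ i, B1 (f i)) →
    ((∃ i ∉ T, ∀ n : ℤ, α i ≠ n) ∨ ∃ i ∈ T, ∫ y, f i y ∂μ = 0) →
      Tendsto (fun j => ∫ y, ‖jeA S a c T α f j y‖ ^ 2 ∂μ) atTop (𝓝 0)

lemma je_core (erg : Ergodic (S.act 1) μ) (hc : ∀ j n, 0 ≤ c j n)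
    (h1 : ∀ j, ∑ n ∈ range j, c j n ≤ 1) {T : Finset ι} {m : ι} (hm : m ∈ T)
    (hSC : ∃ s, 1 ≤ s ∧ Ctl S s c fun (o : Option {i // i ≠ m}) n =>
      o.elim (-(a m n : ℝ)) fun i => (a i n : ℝ) - a m n)
    (IH : jeP S a c (T.erase m)) (α : ι → ℝ) {f : ι → Y → ℂ} (hf : ∀ i, B1 (f i))
    {g : ℕ → Y → ℂ} (hg : ∀ j, B1 (g j)) (U : Ultrafilter ℕ) (hU : (U : Filter ℕ) ≤ atTop)
    {c0 : ℝ} (hc0 : 0 < c0) (hev : ∀ᶠ j in U, c0 ≤ ‖∫ y, g j y * jeA S a c T α f j y ∂μ‖) :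
    ∃ (β : ℝ) (χ : Y → ℂ), Eig S β χ ∧ ¬ Tendsto (fun j =>
      ∫ y, (g j y * χ y) * jeA S a c (T.erase m) (Function.update α m β) f j y ∂μ) U (𝓝 0) := by
  have hF : ∀ j n, B1 (jeF S a T m α (g j) f n) := fun j n => jeF_B1 S a T m α (hg j) hf n
  obtain ⟨D, hD, hlim⟩ := weaklim (μ := μ) U
    (fun j y => ∑ n ∈ range j, (c j n : ℂ) * jeF S a T m α (g j) f n y)
    fun j => je_B1sum hc h1 j (hF j)
  have hpos : 0 < ∫ y, ‖D y‖ ^ 2 ∂μ := by
    have h2 : c0 ≤ ‖∫ y, f m y * D y ∂μ‖ := by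
      refine ge_of_tendsto (hlim (f m) (hf m)).norm (hev.mono fun j hj => ?_)
      rwa [je_dual S a hm α (hg j) hf j]
    exact lt_of_lt_of_le (pow_pos (hc0.trans_le h2) 2)
      (sq_norm_integral_mul_le hD.1 hD.2 (hf m).2)
  obtain ⟨s, hs, hctl⟩ := hSC
  have hn : 0 < nrm S s D := by
    rw [← nrm_conj S s hD]
    by_contra hneg
    obtain ⟨δ, hδ, hK⟩ := hctl 0 _ (half_pos hpos)
    have hev2 : ∀ᶠ K in atTop, box S (List.replicate s K) (fun y => conj (D y)) ≤ δ :=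
      ((tendsto_nrm S s hD.conj).eventually
        (gt_mem_nhds ((not_lt.1 hneg).trans_lt hδ))).mono fun K hK => hK.le
    obtain ⟨K, hK1, hK2⟩ := (hev2.and (eventually_ge_atTop 1)).exists
    have h3 : ‖∫ y, conj (D y) * D y ∂μ‖ ≤ (∫ y, ‖D y‖ ^ 2 ∂μ) / 2 := by
      refine le_of_tendsto (hlim _ hD.conj).norm (((hK K hK2).filter_mono hU).mono fun j hj => ?_)
      rw [je_int_sum j hD.conj (hF j)]
      refine (norm_sum_le _ _).trans (le_trans (le_of_eq ?_) (hj _
        (fun o : Option {i // i ≠ m} => o.elim (g j) fun i => if i.1 ∈ T then f i else 1)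
        (fun o n => o.elim (-a m n) fun i => a i n - a m n) hD.conj ?_ ?_ hK1))
      · refine sum_congr rfl fun n _ => ?_
        rw [norm_mul, Complex.norm_real, Real.norm_of_nonneg (hc j n), je_corr]
      · rintro (_ | i)
        · exact hg j
        · simp only [Option.elim_some]
          split_ifs
          · exact hf i
          · exact B1.one
      · rintro (_ | i) n <;> simp
    rw [je_conj_mul, Complex.norm_real, Real.norm_of_nonneg hpos.le] at h3
    linarith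
  have hdesc : ∀ r, 1 ≤ r → 0 < nrm S (r + 1) D → 0 < nrm S 2 D := by
    intro r hr
    induction r, hr using Nat.le_induction with
    | base => exact id
    | succ r hr ih =>
      intro h
      refine ih (dlow S erg U c hc h1 _ hF hD hlim hr (fun h k β χ hχ hβ => ?_) h)
      have e : ∀ j, ∑ n ∈ range j, (c j n : ℂ) * ∫ y, dc S h k (jeF S a T m α (g j) f n) y * χ y ∂μ =
          ∫ y, (dc S h k (g j) y * χ y) * jeA S a c (T.erase m) (Function.update 0 m β)
            (fun i => dc S h k (f i)) j y ∂μ := by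
        intro j
        rw [← je_eig S a hm 0 ((hg j).dc S h k) (fun i => (hf i).dc S h k) j hχ]
        refine sum_congr rfl fun n _ => ?_
        congr 1
        exact integral_congr_ae (Eventually.of_forall fun y => by
          simp only; rw [je_dc S a T m α _ f n hr, mul_comm])
      simp only [e]
      exact je_cs (fun j => ((hg j).dc S h k).mul hχ.1)
        (jeA_B1 S a hc h1 _ _ fun i => (hf i).dc S h k)
        ((IH _ _ (fun i => (hf i).dc S h k)
          (Or.inl ⟨m, notMem_erase m T, by simpa using hβ⟩)).mono_left hU)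
  have h2 := hdesc s hs (lt_of_lt_of_le (pow_pos hn 2) (nrm_sq_le S s hD))
  obtain ⟨β, χ, hχ, hle⟩ := inv2 S erg hD
  refine ⟨-β, fun y => conj (χ y), hχ.conj, fun ht => ?_⟩
  have h4 := hlim _ hχ.1.conj
  have e : ∀ j, ∫ y, conj (χ y) * ∑ n ∈ range j, (c j n : ℂ) * jeF S a T m α (g j) f n y ∂μ =
      ∫ y, (g j y * conj (χ y)) *
        jeA S a c (T.erase m) (Function.update α m (-β)) f j y ∂μ := fun j => by
    rw [je_int_sum j hχ.1.conj (hF j), je_eig S a hm α (hg j) hf j hχ.conj]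
  simp only [e] at h4
  have h5 := tendsto_nhds_unique h4 ht
  simp only [mul_comm (D _)] at hle
  rw [h5] at hle
  exact absurd (h2.trans_le hle) (by simp)

lemma je_all (erg : Ergodic (S.act 1) μ) (hc : ∀ j n, 0 ≤ c j n)
    (h1 : ∀ j, ∑ n ∈ range j, c j n ≤ 1)
    (hEQ : ∀ α : ι → ℝ, (∃ i, ∀ n : ℤ, α i ≠ n) →
      Tendsto (fun j => ∑ n ∈ range j, (c j n : ℂ) * ec (∑ i, α i * a i n)) atTop (𝓝 0))
    (hSC : ∀ m : ι, ∃ s, 1 ≤ s ∧ Ctl S s c fun (o : Option {i // i ≠ m}) n =>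
      o.elim (-(a m n : ℝ)) fun i => (a i n : ℝ) - a m n) (T : Finset ι) : jeP S a c T := by
  induction T using Finset.strongInduction with
  | H T IH =>
  intro α f hf hcase
  rcases T.eq_empty_or_nonempty with rfl | hT
  · rcases hcase with ⟨i, -, hi⟩ | ⟨i, hi, -⟩
    · have := ((hEQ α ⟨i, hi⟩).norm).pow 2
      simpa [jeA, jeTh] using this
    · simp at hi
  by_contra hnot
  have hA := jeA_B1 S a hc h1 T α hf
  obtain ⟨c0, hc0, hfr⟩ : ∃ c0 : ℝ, 0 < c0 ∧
      ∃ᶠ j in atTop, c0 ≤ ∫ y, ‖jeA S a c T α f j y‖ ^ 2 ∂μ := by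
    by_contra hcon
    push Not at hcon
    refine hnot (tendsto_order.2 ⟨fun b hb => Eventually.of_forall fun j => ?_, hcon⟩)
    exact hb.trans_le (integral_nonneg fun y => by positivity)
  obtain ⟨U, hU, hU'⟩ : ∃ U : Ultrafilter ℕ, (U : Filter ℕ) ≤ atTop ∧
      ∀ᶠ j in U, c0 ≤ ∫ y, ‖jeA S a c T α f j y‖ ^ 2 ∂μ := by
    have := frequently_iff_neBot.1 hfr
    obtain ⟨U, hU⟩ := Ultrafilter.exists_le (atTop ⊓ 𝓟 {j | c0 ≤ ∫ y, ‖jeA S a c T α f j y‖ ^ 2 ∂μ})
    exact ⟨U, hU.trans inf_le_left, le_principal_iff.1 (hU.trans inf_le_right)⟩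
  have key : ∀ m ∈ T, ∃ (β : ℝ) (χ : Y → ℂ), Eig S β χ ∧ ¬ Tendsto (fun j =>
      ∫ y, (conj (jeA S a c T α f j y) * χ y) *
        jeA S a c (T.erase m) (Function.update α m β) f j y ∂μ) U (𝓝 0) := fun m hm =>
    je_core S a erg hc h1 hm (hSC m) (IH _ (erase_ssubset hm)) α hf (fun j => (hA j).conj) U hU hc0
      (hU'.mono fun j hj => by
        rw [je_conj_mul, Complex.norm_real]
        exact hj.trans (Real.le_norm_self _))
  have fin : ∀ m ∈ T, ∀ (β : ℝ) (χ : Y → ℂ), Eig S β χ →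
      ((∃ i ∉ T.erase m, ∀ n : ℤ, Function.update α m β i ≠ n) ∨
        ∃ i ∈ T.erase m, ∫ y, f i y ∂μ = 0) → Tendsto (fun j =>
      ∫ y, (conj (jeA S a c T α f j y) * χ y) *
        jeA S a c (T.erase m) (Function.update α m β) f j y ∂μ) U (𝓝 0) :=
    fun m hm β χ hχ h => je_cs (fun j => (hA j).conj.mul hχ.1) (jeA_B1 S a hc h1 _ _ hf)
      ((IH _ (erase_ssubset hm) _ f hf h).mono_left hU)
  rcases hcase with ⟨i, hi, hi'⟩ | ⟨i, hi, hi'⟩
  · obtain ⟨m, hm⟩ := hT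
    obtain ⟨β, χ, hχ, h⟩ := key m hm
    refine h (fin m hm β χ hχ (Or.inl ⟨i, fun h => hi (mem_of_mem_erase h), ?_⟩))
    rwa [Function.update_of_ne (ne_of_mem_of_not_mem hm hi).symm]
  by_cases hm : ∃ m ∈ T, m ≠ i
  · obtain ⟨m, hm, hmi⟩ := hm
    obtain ⟨β, χ, hχ, h⟩ := key m hm
    exact h (fin m hm β χ hχ (Or.inr ⟨i, mem_erase.2 ⟨hmi.symm, hi⟩, hi'⟩))
  push Not at hm
  obtain rfl : T = {i} := eq_singleton_iff_unique_mem.2 ⟨hi, hm⟩
  obtain ⟨β, χ, hχ, h⟩ := key i hi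
  by_cases hβ : ∀ n : ℤ, β ≠ n
  · exact h (fin i hi β χ hχ (Or.inl ⟨i, notMem_erase _ _, by simpa using hβ⟩))
  push Not at hβ
  obtain ⟨n, rfl⟩ := hβ
  obtain ⟨z, hz⟩ := eig_const S erg hχ
  refine h (tendsto_const_nhds.congr fun j => ?_)
  have h0 : ∫ y, jeA S a c {i} α f j y ∂μ = 0 := by
    have := je_int_sum (μ := μ) (c := c) j B1.one
      fun n => je_B1term S {i} (jeTh a {i} α n) hf fun i => a i n
    simp only [one_mul] at this
    unfold jeA
    rw [this]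
    refine sum_eq_zero fun n _ => ?_
    simp only [prod_singleton]
    rw [integral_const_mul, integral_act S _ (hf i).1, hi', mul_zero, mul_zero]
  have h3 : ∫ y, (conj (jeA S a c {i} α f j y) * χ y) *
      jeA S a c (({i} : Finset ι).erase i) (Function.update α i n) f j y ∂μ =
      ∫ y, conj (jeA S a c {i} α f j y) * (z * ∑ k ∈ range j, (c j k : ℂ) *
        ec (jeTh a ∅ (Function.update α i n) k)) ∂μ := by
    refine integral_congr_ae (hz.mono fun y hy => ?_)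
    simp only at hy ⊢
    rw [hy, erase_singleton, mul_assoc]
    simp only [jeA, prod_empty, mul_one]
  rw [h3, integral_mul_const, integral_conj, h0, map_zero, zero_mul]

end

theorem je (S : Sys ℤ Y μ) (erg : Ergodic (S.act 1) μ) {ι : Type} [Fintype ι] (a : ι → ℕ → ℤ)
    (c : ℕ → ℕ → ℝ) (hc : ∀ j n, 0 ≤ c j n) (h1 : ∀ j, ∑ n ∈ range j, c j n ≤ 1)
    (hEQ : ∀ α : ι → ℝ, (∃ i, ∀ n : ℤ, α i ≠ n) →
      Tendsto (fun j => ∑ n ∈ range j, (c j n : ℂ) * ec (∑ i, α i * a i n)) atTop (𝓝 0))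
    (hSC : ∀ m : ι, ∃ s, 1 ≤ s ∧ Ctl S s c fun (o : Option {i // i ≠ m}) n =>
      o.elim (-(a m n : ℝ)) fun i => (a i n : ℝ) - a m n)
    {F : Y → ℂ} {f : ι → Y → ℂ} (hF : B1 F) (hf : ∀ i, B1 (f i)) :
    Tendsto (fun j => ∑ n ∈ range j, (c j n : ℂ) *
      ((corr S F f fun i => a i n) - (∫ y, F y ∂μ) * ∏ i, ∫ y, f i y ∂μ)) atTop (𝓝 0) := by
  have hP := je_all S a erg hc h1 hEQ hSC
  have main : ∀ T : Finset ι, Tendsto (fun j => ∑ n ∈ range j, (c j n : ℂ) *
      ((∫ y, F y * ∏ i ∈ T, f i (S.act (a i n) y) ∂μ) -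
        (∫ y, F y ∂μ) * ∏ i ∈ T, ∫ y, f i y ∂μ)) atTop (𝓝 0) := by
    intro T
    induction T using Finset.induction_on with
    | empty => simp
    | insert m T hm ih =>
      have hh : B1 fun y => (f m y - ∫ y, f m y ∂μ) / 2 :=
        ⟨((hf m).1.sub_const _).div_const _, fun y => by
          have := norm_sub_le (f m y) (∫ y, f m y ∂μ)
          have h2 := (hf m).2 y
          have h3 := (hf m).norm_integral (μ := μ)
          rw [norm_div, Complex.norm_ofNat]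
          linarith⟩
      have hf' : ∀ i, B1 (Function.update f m (fun y => (f m y - ∫ y, f m y ∂μ) / 2) i) := by
        intro i
        by_cases hi : i = m
        · subst hi; simpa using hh
        · simpa [Function.update_of_ne hi] using hf i
      have h0 : ∫ y, (f m y - ∫ y, f m y ∂μ) / 2 ∂μ = 0 := by
        rw [integral_div, integral_sub (hf m).integrable (integrable_const _)]
        simp
      have t1 := je_cs (fun _ => hF) (jeA_B1 S a hc h1 (insert m T) 0 hf')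
        (hP (insert m T) 0 _ hf' (Or.inr ⟨m, mem_insert_self _ _, by simpa using h0⟩))
      have t2 := (t1.const_mul 2).add (ih.const_mul (∫ y, f m y ∂μ))
      simp only [mul_zero, add_zero] at t2
      refine t2.congr fun j => ?_
      unfold jeA
      rw [je_int_sum j hF fun n => je_B1term S _ _ hf' fun i => a i n, mul_sum, mul_sum,
        ← sum_add_distrib]
      refine sum_congr rfl fun n _ => ?_
      have hT : B1 fun y => F y * ∏ i ∈ T, f i (S.act (a i n) y) :=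
        hF.mul (B1.prod T fun i _ => (hf i).act S _)
      have e : ∫ y, F y * (ec (jeTh a (insert m T) 0 n) * ∏ i ∈ insert m T,
          Function.update f m (fun y => (f m y - ∫ y, f m y ∂μ) / 2) i (S.act (a i n) y)) ∂μ =
          ((∫ y, F y * ∏ i ∈ insert m T, f i (S.act (a i n) y) ∂μ) -
            (∫ y, f m y ∂μ) * ∫ y, F y * ∏ i ∈ T, f i (S.act (a i n) y) ∂μ) / 2 := by
        rw [← integral_const_mul, ← integral_sub (hF.mul
          (B1.prod _ fun i _ => (hf i).act S _)).integrable (hT.integrable.const_mul _),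
          ← integral_div]
        refine integral_congr_ae (Eventually.of_forall fun y => ?_)
        have h0 : jeTh a (insert m T) 0 n = 0 := by simp [jeTh]
        simp only
        rw [h0, ec_zero, one_mul, prod_insert hm, prod_insert hm, Function.update_self,
          prod_congr rfl fun i hi => by
            rw [Function.update_of_ne (ne_of_mem_of_not_mem hi hm)]]
        ring
      rw [e, prod_insert hm]
      ring
  exact main univ

end Pool.Agent.MP_357fb4_an
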