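import Pool.Agent.MP_357fb4_an.Box

/-!
Passing from one scale to the next.
-/

open scoped BigOperators Classical ComplexConjugate Polynomial
open Finset Filter MeasureTheory Topology

noncomputable section

namespace Pool.Agent.MP_357fb4_an

variable {Y : Type} [MeasurableSpace Y] {μ : Measure Y} [IsProbabilityMeasure μ]

theorem Ctl.congr {S : Sys ℤ Y μ} {s : ℕ} {ι : Type} [Fintype ι] {ω : ℕ → ℕ → ℝ}
    {g g' : ι → ℕ → ℝ} (h : Ctl S s ω g) {B₀ : ℝ} (hg : ∀ i n, |g i n - g' i n| ≤ B₀) :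
    Ctl S s ω g' := by
  intro B ε hε
  obtain ⟨δ, hδ, h1⟩ := h (B + B₀) ε hε
  refine ⟨δ, hδ, fun K hK => ?_⟩
  filter_upwards [h1 K hK] with J hJ F G a hF hG ha hb
  refine hJ F G a hF hG (fun i n => ?_) hb
  have h2 := abs_le.1 (ha i n)
  have h3 := abs_le.1 (hg i n)
  rw [abs_le]
  constructor <;> linarith [h2.1, h2.2, h3.1, h3.2]

lemma Level_head (f : ℕ → ℝ) (hf : ∀ n, 0 ≤ f n) (n₀ J : ℕ) :
    ∑ n ∈ range J, (if n < n₀ then f n else 0) ≤ ∑ n ∈ range n₀, f n := by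
  rw [← sum_filter]
  exact sum_le_sum_of_subset_of_nonneg (fun n hn => mem_range.2 (mem_filter.1 hn).2)
    fun n _ _ => hf n

/-- Comparison of weights, away from finitely many terms. -/
theorem Ctl.le {S : Sys ℤ Y μ} {s : ℕ} {ι : Type} [Fintype ι] {ω ω' : ℕ → ℕ → ℝ}
    {g : ι → ℕ → ℝ} (h : Ctl S s ω g) (n₀ : ℕ) (C : ℝ) (h0 : ∀ᶠ J in atTop, ∀ n, 0 ≤ ω J n)
    (hle : ∀ᶠ J in atTop, ∀ n, n₀ ≤ n → ω' J n ≤ C * ω J n)
    (hs : ∀ n, n < n₀ → Tendsto (fun J => ω' J n) atTop (𝓝 0)) : Ctl S s ω' g := by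
  intro B ε hε
  have hC : 0 < |C| + 1 := by positivity
  obtain ⟨δ, hδ, h1⟩ := h B (ε / (2 * (|C| + 1))) (by positivity)
  have h2 : Tendsto (fun J => ∑ n ∈ range n₀, |ω' J n|) atTop (𝓝 0) := by
    have := tendsto_finsetSum (range n₀) fun n hn => (hs n (mem_range.1 hn)).abs
    simpa using this
  refine ⟨δ, hδ, fun K hK => ?_⟩
  filter_upwards [h1 K hK, h0, hle, h2.eventually (ge_mem_nhds (half_pos hε))] with J hJ k0 k1 k2
    F G a hF hG ha hb
  have h3 := hJ F G a hF hG ha hb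
  have h4 := Level_head (fun n => |ω' J n|) (fun n => abs_nonneg _) n₀ J
  have h5 : ∑ n ∈ range J, ω' J n * ‖corr S F G fun i => a i n‖ ≤
      ∑ n ∈ range J, ((|C| + 1) * (ω J n * ‖corr S F G fun i => a i n‖) +
        if n < n₀ then |ω' J n| else 0) := by
    refine sum_le_sum fun n _ => ?_
    have c0 := norm_nonneg (corr S F G fun i => a i n)
    have c1 := norm_corr_le S hF hG fun i => a i n
    have c2 := k0 n
    split_ifs with hn
    · have : ω' J n * ‖corr S F G fun i => a i n‖ ≤ |ω' J n| :=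
        (mul_le_mul_of_nonneg_right (le_abs_self _) c0).trans
          (mul_le_of_le_one_right (abs_nonneg _) c1)
      have : 0 ≤ (|C| + 1) * (ω J n * ‖corr S F G fun i => a i n‖) := by positivity
      linarith
    · have c3 : ω' J n ≤ (|C| + 1) * ω J n :=
        (k1 n (not_lt.1 hn)).trans (mul_le_mul_of_nonneg_right (by linarith [le_abs_self C]) c2)
      rw [add_zero, ← mul_assoc]
      exact mul_le_mul_of_nonneg_right c3 c0
  rw [sum_add_distrib, ← mul_sum] at h5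
  have h6 := mul_le_mul_of_nonneg_left h3 hC.le
  have h7 : (|C| + 1) * (ε / (2 * (|C| + 1))) = ε / 2 := by field_simp
  linarith

theorem smooth {L : ℕ → ℕ} (hL : Smo L) (y₀ : ℕ) : ∃ n₁ : ℕ, ∀ w ψ : ℕ → ℝ, Antitone w →
    (∀ n, 0 ≤ w n) → (∀ n, 0 ≤ ψ n) → ∀ J : ℕ,
      ∑ n ∈ Ico n₁ J, w n * ψ n ≤ 2 * ∑ y ∈ Ico y₀ J, w y * 𝔼 x ∈ range (L y), ψ (y + x) := by
  obtain ⟨N, hN⟩ := eventually_atTop.1 hL
  refine ⟨max N (2 * y₀), fun w ψ hw h0 h1 J => ?_⟩
  let T : (Σ _ : ℕ, ℕ) → ℝ := fun p => w p.1 * ψ (p.1 + p.2) / L p.1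
  have hT : ∀ p, 0 ≤ T p := fun p => div_nonneg (mul_nonneg (h0 _) (h1 _)) (Nat.cast_nonneg _)
  let A : Finset (Σ _ : ℕ, ℕ) := (Ico (max N (2 * y₀)) J).sigma fun n => range ((L n + 1) / 2)
  let e : (Σ _ : ℕ, ℕ) → (Σ _ : ℕ, ℕ) := fun p => ⟨p.1 - p.2, p.2⟩
  have hA : ∀ p ∈ A, N ≤ p.1 ∧ 2 * y₀ ≤ p.1 ∧ p.1 < J ∧ 2 * p.2 < L p.1 ∧ L p.1 ≤ p.1 := by
    intro p hp
    rw [mem_sigma, mem_Ico, mem_range, max_le_iff] at hp
    have := hN p.1 hp.1.1.1
    omega
  have e1 : ∑ y ∈ Ico y₀ J, w y * 𝔼 x ∈ range (L y), ψ (y + x) =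
      ∑ p ∈ (Ico y₀ J).sigma fun y => range (L y), T p := by
    rw [sum_sigma]
    refine sum_congr rfl fun y _ => ?_
    rw [expect_eq_sum_div_card, card_range, ← mul_div_assoc, mul_sum, sum_div]
  have e2 : ∑ p ∈ A, T (e p) ≤ ∑ p ∈ (Ico y₀ J).sigma fun y => range (L y), T p := by
    rw [← sum_image (s := A) (g := e) (f := T) (by
      rintro ⟨n, x⟩ hp ⟨n', x'⟩ hp' hpe
      have a1 := hA _ hp
      have a2 := hA _ hp'
      simp only [e, Sigma.mk.injEq, heq_eq_eq] at hpe a1 a2 ⊢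
      omega)]
    refine sum_le_sum_of_subset_of_nonneg (fun p hp => ?_) fun p _ _ => hT p
    obtain ⟨q, hq, rfl⟩ := mem_image.1 hp
    have a1 := hA q hq
    have a2 := (hN q.1 a1.1).2.2 (q.1 - q.2) (Nat.sub_le _ _) (by omega)
    simp only [e, mem_sigma, mem_Ico, mem_range]
    omega
  rw [e1]
  refine le_trans ?_ (mul_le_mul_of_nonneg_left e2 zero_le_two)
  rw [sum_sigma, mul_sum]
  refine sum_le_sum fun n hn => ?_
  have hn1 := hN n (le_trans (le_max_left _ _) (mem_Ico.1 hn).1)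
  have hL0 : (0 : ℝ) < L n := by exact_mod_cast hn1.1
  have e3 : ∀ x ∈ range ((L n + 1) / 2), w n * ψ n / L n ≤ T (e ⟨n, x⟩) := by
    intro x hx
    rw [mem_range] at hx
    have a2 := hn1.2.2 (n - x) (Nat.sub_le _ _) (by omega)
    have a3 : n - x + x = n := by omega
    simp only [T, e, a3]
    have a4 : (0 : ℝ) < L (n - x) := by exact_mod_cast lt_of_le_of_lt (Nat.zero_le _) a2.1
    exact div_le_div₀ (mul_nonneg (h0 _) (h1 _))
      (mul_le_mul_of_nonneg_right (hw (Nat.sub_le _ _)) (h1 n)) a4 (by exact_mod_cast a2.2)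
  have e4 := card_nsmul_le_sum _ _ _ e3
  rw [card_range, nsmul_eq_mul] at e4
  have e5 : (L n : ℝ) ≤ 2 * ((L n + 1) / 2 : ℕ) := by
    have : L n ≤ 2 * ((L n + 1) / 2) := by omega
    exact_mod_cast this
  have e6 : 0 ≤ w n * ψ n / L n := div_nonneg (mul_nonneg (h0 _) (h1 _)) hL0.le
  calc w n * ψ n = L n * (w n * ψ n / L n) := by field_simp
    _ ≤ 2 * ((L n + 1) / 2 : ℕ) * (w n * ψ n / L n) := mul_le_mul_of_nonneg_right e5 e6
    _ ≤ _ := by rw [mul_assoc]; exact mul_le_mul_of_nonneg_left e4 zero_le_two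

omit [IsProbabilityMeasure μ] in
lemma Level_dl (S : Sys ℤ Y μ) {ι : Type} [Fintype ι] (F : Y → ℂ) (G : ι → Y → ℂ) (a : ι → ℤ)
    (h h' : ℤ) : dl S h h' (fun y => F y * ∏ i, G i (S.act (a i) y)) =
      fun y => dl S h h' F y * ∏ i, dl S h h' (G i) (S.act (a i) y) := by
  funext y
  simp only [dl, act_act, map_mul, map_prod, prod_mul_distrib, add_comm (a _)]
  ring

theorem peel {S : Sys ℤ Y μ} {s₂ : ℕ} (hs : 1 ≤ s₂) {ι : Type} [Fintype ι] {ω : ℕ → ℕ → ℝ}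
    {g : ι → ℕ → ℝ} (h0 : ∀ᶠ J in atTop, ∀ n, 0 ≤ ω J n)
    (h2 : ∀ᶠ J in atTop, ∑ n ∈ range J, ω J n ≤ 2) (h : Ctl S s₂ ω g) (s₁ : ℕ) (B : ℝ) {ε : ℝ}
    (hε : 0 < ε) : ∃ δ : ℝ, 0 < δ ∧ ∀ K : ℕ, 1 ≤ K → ∀ᶠ J : ℕ in atTop,
      ∀ (F : Y → ℂ) (G : ι → Y → ℂ) (a : ι → ℕ → ℤ), B1 F → (∀ i, B1 (G i)) →
        (∀ i n, |(a i n : ℝ) - g i n| ≤ B) → box S (List.replicate (s₁ + s₂) K) F ≤ δ →
          ∑ n ∈ range J, ω J n * box S (List.replicate s₁ K)
            (fun y => F y * ∏ i, G i (S.act (a i n) y)) ≤ ε := by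
  induction s₁ generalizing ε with
  | zero =>
    obtain ⟨δ, hδ, h1⟩ := h B ε hε
    refine ⟨δ, hδ, fun K hK => ?_⟩
    filter_upwards [h1 K hK, h0] with J hJ k0 F G a hF hG ha hb
    rw [zero_add] at hb
    refine le_trans (sum_le_sum fun n _ => ?_) (hJ F G a hF hG ha hb)
    exact mul_le_mul_of_nonneg_left (Complex.re_le_norm _) (k0 n)
  | succ s₁ ih =>
    obtain ⟨δ, hδ, h1⟩ := ih (half_pos hε)
    refine ⟨δ * ε / 4, by positivity, fun K hK => ?_⟩
    filter_upwards [h1 K hK, h0, h2] with J hJ k0 k2 F G a hF hG ha hb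
    rw [Nat.add_right_comm, List.replicate_succ, box] at hb
    have hne : (range K).Nonempty := nonempty_range_iff.2 (by omega)
    have key : ∀ h h' : ℕ, ∑ n ∈ range J, ω J n * box S (List.replicate s₁ K)
        (dl S h h' fun y => F y * ∏ i, G i (S.act (a i n) y)) ≤
          ε / 2 + 2 / δ * box S (List.replicate (s₁ + s₂) K) (dl S h h' F) := by
      intro h h'
      have b0 : 0 ≤ box S (List.replicate (s₁ + s₂) K) (dl S h h' F) :=
        box_nonneg S (by simp; omega) (hF.dl S _ _)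
      rcases le_total (box S (List.replicate (s₁ + s₂) K) (dl S h h' F)) δ with hb' | hb'
      · simp only [Level_dl]
        have := hJ _ (fun i => dl S h h' (G i)) a (hF.dl S h h') (fun i => (hG i).dl S h h') ha hb'
        have b1 : 0 ≤ 2 / δ * box S (List.replicate (s₁ + s₂) K) (dl S h h' F) := by positivity
        linarith
      · have b1 : 2 ≤ 2 / δ * box S (List.replicate (s₁ + s₂) K) (dl S h h' F) := by
          rw [div_mul_eq_mul_div, le_div_iff₀ hδ]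
          linarith
        have b2 : ∑ n ∈ range J, ω J n * box S (List.replicate s₁ K)
            (dl S h h' fun y => F y * ∏ i, G i (S.act (a i n) y)) ≤ ∑ n ∈ range J, ω J n :=
          sum_le_sum fun n _ => mul_le_of_le_one_right (k0 n) ((le_abs_self _).trans
            (abs_box_le S _ ((corr_B1 S hF hG fun i => a i n).dl S _ _)))
        linarith
    have e : ∑ n ∈ range J, ω J n * box S (List.replicate (s₁ + 1) K)
        (fun y => F y * ∏ i, G i (S.act (a i n) y)) = 𝔼 h ∈ range K, 𝔼 h' ∈ range K,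
          ∑ n ∈ range J, ω J n * box S (List.replicate s₁ K)
            (dl S (h : ℕ) (h' : ℕ) fun y => F y * ∏ i, G i (S.act (a i n) y)) := by
      simp only [List.replicate_succ, box, mul_expect, expect_sum_comm]
    rw [e]
    refine (expect_le_expect fun h _ => expect_le_expect fun h' _ => key h h').trans ?_
    simp only [expect_add_distrib, expect_const hne, ← mul_expect]
    have b3 := mul_le_mul_of_nonneg_left hb (by positivity : 0 ≤ 2 / δ)
    have b4 : 2 / δ * (δ * ε / 4) = ε / 2 := by field_simp; ring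
    linarith

theorem level (S : Sys ℤ Y μ) {ι : Type} [Fintype ι] (cl : ι → Prop) (g : ι → ℕ → ℝ)
    (w θ Z : ℕ → ℝ) (hw : Antitone w) (hw0 : ∀ n, 0 ≤ w n) (hθ : ∀ n, 0 ≤ θ n)
    (hZ : Tendsto Z atTop atTop) (h2 : ∀ᶠ J in atTop, ∑ n ∈ range J, w n ≤ 2 * Z J)
    {s₁ s₂ : ℕ} (hs₁ : 1 ≤ s₁) (hs₂ : 1 ≤ s₂)
    (hcl : Ctl S s₂ (fun J n => w n / Z J) fun i : {i // cl i} => g i)
    (hloc : ∀ B ε : ℝ, 0 < ε → ∃ C₁ B' : ℝ, 0 ≤ C₁ ∧ ∀ K : ℕ, 1 ≤ K → ∃ L : ℕ → ℕ, Smo L ∧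
      ∀ᶠ y : ℕ in atTop, ∀ (F : Y → ℂ) (G : ι → Y → ℂ) (a : ι → ℕ → ℤ), B1 F → (∀ i, B1 (G i)) →
        (∀ i n, |(a i n : ℝ) - g i n| ≤ B) → ∃ v : {i // cl i} → ℤ,
          (∀ i, |(v i : ℝ) - g i y| ≤ B') ∧
            𝔼 x ∈ range (L y), θ (y + x) * ‖corr S F G fun i => a i (y + x)‖ ≤
              ε + C₁ * box S (List.replicate s₁ K)
                fun z => F z * ∏ i : {i // cl i}, G i (S.act (v i) z)) :
    Ctl S (s₁ + s₂) (fun J n => w n * θ n / Z J) g := by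
  intro B ε hε
  obtain ⟨C₁, B', hC, h1⟩ := hloc B (ε / 16) (by positivity)
  have hZ0 : ∀ᶠ J in atTop, 0 < Z J := hZ.eventually_gt_atTop 0
  obtain ⟨δ, hδ, h3⟩ := peel hs₂ (ω := fun J n => w n / Z J)
    (hZ0.mono fun J hJ n => div_nonneg (hw0 n) hJ.le)
    (by
      filter_upwards [hZ0, h2] with J k0 k1
      rw [← sum_div, div_le_iff₀ k0]
      exact k1) hcl s₁ (max B' 1) (ε := ε / (8 * (C₁ + 1))) (by positivity)
  refine ⟨δ, hδ, fun K hK => ?_⟩
  obtain ⟨L, hL, h4⟩ := h1 K hK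
  obtain ⟨y₀, h4⟩ := eventually_atTop.1 h4
  obtain ⟨n₁, h5⟩ := smooth hL y₀
  filter_upwards [h3 K hK, hZ0, h2,
    hZ.eventually_ge_atTop ((∑ n ∈ range n₁, w n * θ n) * 2 / ε)] with J hJ k0 k1 k2 F G a hF hG
    ha hb
  choose! v hv1 hv2 using fun y hy => h4 y hy F G a hF hG ha
  let a' : {i // cl i} → ℕ → ℤ := fun i y => if y₀ ≤ y then v y i else ⌊g i y⌋
  have ha' : ∀ i n, |(a' i n : ℝ) - g i n| ≤ max B' 1 := by
    intro i n
    by_cases hn : y₀ ≤ n
    · simp only [a', if_pos hn]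
      exact (hv1 n hn i).trans (le_max_left _ _)
    · simp only [a', if_neg hn]
      refine le_trans ?_ (le_max_right _ _)
      rw [abs_le]
      constructor <;> linarith [Int.floor_le (g i n), Int.lt_floor_add_one (g i n)]
  have h6 := hJ F (fun i => G i) a' hF (fun i => hG i) ha' hb
  let b : ℕ → ℝ := fun n => box S (List.replicate s₁ K)
    fun z => F z * ∏ i : {i // cl i}, G i (S.act (a' i n) z)
  have hb0 : ∀ n, 0 ≤ b n := fun n => box_nonneg S (by simp; omega)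
    (corr_B1 S hF (fun i : {i // cl i} => hG i) fun i => a' i n)
  let ψ : ℕ → ℝ := fun n => θ n * ‖corr S F G fun i => a i n‖
  have hψ : ∀ n, 0 ≤ ψ n := fun n => mul_nonneg (hθ n) (norm_nonneg _)
  have h7 := h5 w ψ hw hw0 hψ J
  have h8 : ∑ y ∈ Ico y₀ J, w y * 𝔼 x ∈ range (L y), ψ (y + x) ≤
      ∑ y ∈ range J, w y * (ε / 16 + C₁ * b y) := by
    refine le_trans (sum_le_sum fun y hy => ?_) (sum_le_sum_of_subset_of_nonneg
      (fun y hy => mem_range.2 (mem_Ico.1 hy).2) fun y _ _ =>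
        mul_nonneg (hw0 y) (add_nonneg (by positivity) (mul_nonneg hC (hb0 y))))
    refine mul_le_mul_of_nonneg_left ?_ (hw0 y)
    simp only [b, a', if_pos (mem_Ico.1 hy).1]
    exact hv2 y (mem_Ico.1 hy).1
  have h9 : ∑ y ∈ range J, w y * (ε / 16 + C₁ * b y) =
      ε / 16 * ∑ y ∈ range J, w y + C₁ * Z J * ∑ y ∈ range J, w y / Z J * b y := by
    rw [mul_sum, mul_sum, ← sum_add_distrib]
    refine sum_congr rfl fun y _ => ?_
    field_simp
  have h10 : ∑ n ∈ range J, w n * ψ n ≤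
      ∑ n ∈ range n₁, w n * θ n + ∑ n ∈ Ico n₁ J, w n * ψ n := by
    have c1 : ∑ n ∈ range n₁, w n * ψ n ≤ ∑ n ∈ range n₁, w n * θ n :=
      sum_le_sum fun n _ => mul_le_mul_of_nonneg_left
        (mul_le_of_le_one_right (hθ n) (norm_corr_le S hF hG _)) (hw0 n)
    have c2 : ∑ n ∈ range J, w n * ψ n ≤ ∑ n ∈ range n₁ ∪ Ico n₁ J, w n * ψ n :=
      sum_le_sum_of_subset_of_nonneg (fun n hn => by
        rw [mem_union, mem_range, mem_Ico]
        have := mem_range.1 hn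
        omega) fun n _ _ => mul_nonneg (hw0 n) (hψ n)
    rw [sum_union (by
      rw [disjoint_left]
      intro n c3 c4
      have := mem_range.1 c3
      have := (mem_Ico.1 c4).1
      omega)] at c2
    linarith
  have h11 : ∑ n ∈ range J, w n * θ n / Z J * ‖corr S F G fun i => a i n‖ =
      (∑ n ∈ range J, w n * ψ n) / Z J := by
    rw [sum_div]
    refine sum_congr rfl fun n _ => ?_
    simp only [ψ]
    ring
  have h12 : C₁ * Z J * ∑ y ∈ range J, w y / Z J * b y ≤ ε / 8 * Z J := by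
    refine (mul_le_mul_of_nonneg_left h6 (mul_nonneg hC k0.le)).trans ?_
    have c1 : C₁ * (ε / (8 * (C₁ + 1))) ≤ ε / 8 := by
      rw [← mul_div_assoc, div_le_div_iff₀ (by positivity) (by positivity)]
      nlinarith
    nlinarith
  have h13 : ε / 16 * ∑ y ∈ range J, w y ≤ ε / 16 * (2 * Z J) :=
    mul_le_mul_of_nonneg_left k1 (by positivity)
  rw [div_le_iff₀ hε] at k2
  show ∑ n ∈ range J, w n * θ n / Z J * ‖corr S F G fun i => a i n‖ ≤ ε
  rw [h11, div_le_iff₀ k0]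
  linarith

end Pool.Agent.MP_357fb4_an
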