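import Pool.Agent.MP_357fb4_an.Basic

/-!
The abstract polynomial exhaustion induction.
-/

open scoped BigOperators Classical ComplexConjugate Polynomial
open Finset Filter MeasureTheory Topology

noncomputable section

namespace Pool.Agent.MP_357fb4_an

/-- Degree and leading coefficient. -/
def PetAbs_tau (Q : ℝ[X]) : ℕ × ℝ := (Q.natDegree, Q.leadingCoeff)

lemma PetAbs_tau_taylor (h : ℝ) (Q : ℝ[X]) :
    PetAbs_tau (Polynomial.taylor h Q) = PetAbs_tau Q := by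
  simp only [PetAbs_tau, Polynomial.natDegree_taylor, Polynomial.leadingCoeff_taylor]

lemma PetAbs_tau_sub {Q Z : ℝ[X]} (h : Z.natDegree < Q.natDegree) :
    PetAbs_tau (Q - Z) = PetAbs_tau Q := by
  simp only [PetAbs_tau, Polynomial.natDegree_sub_eq_left_of_natDegree_lt h,
    Polynomial.leadingCoeff_sub_of_degree_lt (Polynomial.degree_lt_degree h)]

lemma PetAbs_lc {Q : ℝ[X]} {n : ℕ} (h : Q.natDegree = n) : Q.leadingCoeff = Q.coeff n := by
  rw [Polynomial.leadingCoeff, h]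

lemma PetAbs_lc_ne {Q : ℝ[X]} {n : ℕ} (h : Q.natDegree = n + 1) : Q.coeff (n + 1) ≠ 0 := by
  rw [← PetAbs_lc h]
  intro h0
  rw [Polynomial.leadingCoeff_eq_zero] at h0
  rw [h0] at h
  simp at h

/-- The types of the elements of large degree lie in an allowed set. -/
def PetAbs_Phi (flag : Prop) (e : ℕ) (Ψ : Finset (ℕ × ℝ) → ℕ × ℝ → Prop) (A : Finset ℝ[X])
    (p : ℝ[X]) : Prop :=
  e < p.natDegree ∧ ∃ Sig, Ψ Sig (PetAbs_tau p) ∧
    (∀ Q ∈ A, e < Q.natDegree → PetAbs_tau Q ∈ Sig) ∧ (flag → PetAbs_tau p ∈ Sig)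

/-- The same, with all elements of large degree. -/
def PetAbs_PhiP (flag : Prop) (e : ℕ) (Ψ : Finset (ℕ × ℝ) → ℕ × ℝ → Prop) (A : Finset ℝ[X])
    (p : ℝ[X]) : Prop :=
  PetAbs_Phi flag e Ψ A p ∧ ∀ Q ∈ A, e < Q.natDegree

lemma PetAbs_mono {flag : Prop} {Ctrl : ℕ → (Finset ℝ[X] → ℝ[X] → Prop) → Prop}
    (h : PetAx flag Ctrl) (r : ℕ) (Φ Φ' : Finset ℝ[X] → ℝ[X] → Prop)
    (hΦ : ∀ A p, A.card ≤ r → Φ A p → Φ' A p) (hc : Ctrl r Φ') : Ctrl r Φ := by
  refine h.recenter r Φ Φ' (fun A p hA hp => ⟨0, ?_⟩) hc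
  simpa using hΦ A p hA hp

lemma PetAbs_S0 {flag : Prop} {Ctrl : ℕ → (Finset ℝ[X] → ℝ[X] → Prop) → Prop}
    (h : PetAx flag Ctrl) (Ψ : Finset (ℕ × ℝ) → ℕ × ℝ → Prop)
    (H : ∀ r, Ctrl r (PetAbs_PhiP flag 0 Ψ)) (r : ℕ) : Ctrl r (PetAbs_Phi flag 0 Ψ) := by
  have h2 : Ctrl r fun A p => PetAbs_Phi flag 0 Ψ A p ∧ ∃ P ∈ A, P.natDegree = 0 := by
    refine h.step r _ (PetAbs_PhiP flag 0 Ψ) ?_ (H _)
    rintro A p ⟨⟨hp, Sig, hΨ, hA, hf⟩, hP⟩
    refine ⟨hp, hP, fun x x' A' hA' => ⟨⟨?_, Sig, ?_, ?_, ?_⟩, ?_⟩⟩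
    · rwa [Polynomial.natDegree_taylor]
    · rwa [PetAbs_tau_taylor]
    · intro Q hQ _
      rcases hA' Q hQ with ⟨P, hPA, hP1, rfl | rfl⟩ | ⟨hfl, rfl⟩
      · rw [PetAbs_tau_taylor]; exact hA P hPA hP1
      · rw [PetAbs_tau_taylor]; exact hA P hPA hP1
      · rw [PetAbs_tau_taylor]; exact hf hfl
    · rw [PetAbs_tau_taylor]; exact hf
    · intro Q hQ
      rcases hA' Q hQ with ⟨P, hPA, hP1, rfl | rfl⟩ | ⟨hfl, rfl⟩
      · rw [Polynomial.natDegree_taylor]; exact hP1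
      · rw [Polynomial.natDegree_taylor]; exact hP1
      · rw [Polynomial.natDegree_taylor]; exact hp
  refine PetAbs_mono h r _ _ ?_ (h.union r _ _ (H r) h2)
  intro A p _ hp
  by_cases hc : ∃ P ∈ A, P.natDegree = 0
  · exact Or.inr ⟨hp, hc⟩
  · refine Or.inl ⟨hp, fun Q hQ => ?_⟩
    by_contra hn
    exact hc ⟨Q, hQ, by omega⟩

/-- Few leading coefficients in the lowest degree. -/
def PetAbs_Theta (flag : Prop) (e : ℕ) (Ψ : Finset (ℕ × ℝ) → ℕ × ℝ → Prop) (t : ℕ)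
    (A : Finset ℝ[X]) (p : ℝ[X]) : Prop :=
  PetAbs_Phi flag (e + 1) Ψ A p ∧ ∃ Lam : Finset ℝ, Lam.card ≤ t ∧
    ∀ Q ∈ A, Q.natDegree = e + 1 → Q.leadingCoeff ∈ Lam

/-- The allowed sets one degree lower. -/
def PetAbs_Psi (flag : Prop) (e : ℕ) (Ψ : Finset (ℕ × ℝ) → ℕ × ℝ → Prop) (t : ℕ)
    (Sig' : Finset (ℕ × ℝ)) (τ : ℕ × ℝ) : Prop :=
  e + 1 < τ.1 ∧ ∃ (Sig : Finset (ℕ × ℝ)) (Lam : Finset ℝ), Ψ Sig τ ∧ Lam.card ≤ t ∧
    (flag → τ ∈ Sig) ∧ ∀ s ∈ Sig', (s.1 = e + 1 → s.2 ∈ Lam) ∧ (e + 1 < s.1 → s ∈ Sig)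

lemma PetAbs_theta_phi {flag : Prop} {e t : ℕ} {Ψ : Finset (ℕ × ℝ) → ℕ × ℝ → Prop}
    {A : Finset ℝ[X]} {p : ℝ[X]} (hθ : PetAbs_Theta flag e Ψ t A p) :
    PetAbs_Phi flag e (PetAbs_Psi flag e Ψ t) A p := by
  obtain ⟨⟨hp, Sig, hΨ, hA, hf⟩, Lam, hL, hLA⟩ := hθ
  refine ⟨by omega, A.image PetAbs_tau ∪ (if flag then {PetAbs_tau p} else ∅),
    ⟨hp, Sig, Lam, hΨ, hL, hf, ?_⟩, ?_, ?_⟩
  · intro s hs
    rcases mem_union.1 hs with hs | hs
    · obtain ⟨Q, hQ, rfl⟩ := mem_image.1 hs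
      exact ⟨hLA Q hQ, hA Q hQ⟩
    · by_cases hfl : flag
      · rw [if_pos hfl, mem_singleton] at hs
        subst hs
        refine ⟨fun h1 => ?_, fun _ => hf hfl⟩
        have h2 : p.natDegree = e + 1 := h1
        omega
      · rw [if_neg hfl] at hs
        simp at hs
  · intro Q hQ _
    exact mem_union_left _ (mem_image_of_mem _ hQ)
  · intro hfl
    rw [if_pos hfl]
    exact mem_union_right _ (mem_singleton_self _)

lemma PetAbs_split {flag : Prop} {e t : ℕ} {Ψ : Finset (ℕ × ℝ) → ℕ × ℝ → Prop}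
    {A : Finset ℝ[X]} {p : ℝ[X]} (hθ : PetAbs_PhiP flag e (PetAbs_Psi flag e Ψ t) A p) :
    PetAbs_PhiP flag (e + 1) Ψ A p ∨ ∃ t', t = t' + 1 ∧
      ∃ Z, PetAbs_Theta flag e Ψ t' (A.image fun Q => Q - Z) (p - Z) := by
  obtain ⟨⟨_, Sig', ⟨hp, Sig, Lam, hΨ, hL, hf, hS⟩, hA, _⟩, hall⟩ := hθ
  have hp' : e + 1 < p.natDegree := hp
  have hbig : ∀ Q ∈ A, e + 1 < Q.natDegree → PetAbs_tau Q ∈ Sig := fun Q hQ h1 =>
    (hS _ (hA Q hQ (hall Q hQ))).2 h1
  have hlam : ∀ Q ∈ A, Q.natDegree = e + 1 → Q.leadingCoeff ∈ Lam := fun Q hQ h1 =>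
    (hS _ (hA Q hQ (hall Q hQ))).1 h1
  by_cases hc : ∃ Z ∈ A, Z.natDegree = e + 1
  · obtain ⟨Z, hZ, hZd⟩ := hc
    have hZL := hlam Z hZ hZd
    have hpos : 0 < Lam.card := card_pos.2 ⟨_, hZL⟩
    refine Or.inr ⟨t - 1, by omega, Z, ⟨?_, Sig, ?_, ?_, ?_⟩,
      (Lam.erase Z.leadingCoeff).image fun x => x - Z.leadingCoeff, ?_, ?_⟩
    · rw [Polynomial.natDegree_sub_eq_left_of_natDegree_lt (by omega)]; exact hp'
    · rw [PetAbs_tau_sub (by omega)]; exact hΨ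
    · intro Q' hQ' h1
      obtain ⟨Q, hQ, rfl⟩ := mem_image.1 hQ'
      have h2 := Polynomial.natDegree_sub_le Q Z
      have h3 : e + 1 < Q.natDegree := by
        rcases le_total Q.natDegree Z.natDegree with h4 | h4
        · rw [max_eq_right h4] at h2; omega
        · rw [max_eq_left h4] at h2; omega
      rw [PetAbs_tau_sub (by omega)]
      exact hbig Q hQ h3
    · rw [PetAbs_tau_sub (by omega)]; exact hf
    · refine card_image_le.trans ?_
      rw [card_erase_of_mem hZL]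
      omega
    · intro Q' hQ' h1
      obtain ⟨Q, hQ, rfl⟩ := mem_image.1 hQ'
      have h3 : Q.natDegree = e + 1 := by
        have h4 := hall Q hQ
        by_contra h5
        rw [Polynomial.natDegree_sub_eq_left_of_natDegree_lt (by omega)] at h1
        exact h5 h1
      have h6 := PetAbs_lc_ne h1
      rw [Polynomial.coeff_sub, ← PetAbs_lc h3, ← PetAbs_lc hZd] at h6
      refine mem_image.2 ⟨Q.leadingCoeff, mem_erase.2 ⟨sub_ne_zero.1 h6, hlam Q hQ h3⟩, ?_⟩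
      rw [PetAbs_lc h1, Polynomial.coeff_sub, ← PetAbs_lc h3, ← PetAbs_lc hZd]
  · refine Or.inl ⟨⟨hp', Sig, hΨ, hbig, hf⟩, fun Q hQ => ?_⟩
    have h4 := hall Q hQ
    have h5 : Q.natDegree ≠ e + 1 := fun h6 => hc ⟨Q, hQ, h6⟩
    omega

lemma PetAbs_S {flag : Prop} {Ctrl : ℕ → (Finset ℝ[X] → ℝ[X] → Prop) → Prop}
    (h : PetAx flag Ctrl) (e : ℕ) : ∀ (Ψ : Finset (ℕ × ℝ) → ℕ × ℝ → Prop),
    (∀ r, Ctrl r (PetAbs_PhiP flag e Ψ)) → ∀ r, Ctrl r (PetAbs_Phi flag e Ψ) := by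
  induction e with
  | zero => exact fun Ψ H r => PetAbs_S0 h Ψ H r
  | succ e ih =>
    intro Ψ H
    have key : ∀ t r, Ctrl r (PetAbs_Theta flag e Ψ t) := by
      intro t
      induction t with
      | zero =>
        intro r
        refine PetAbs_mono h r _ _ (fun A p _ hθ => PetAbs_theta_phi hθ) (ih _ (fun r => ?_) r)
        refine PetAbs_mono h r _ _ (fun A p _ hθ => ?_) (H r)
        rcases PetAbs_split hθ with h1 | ⟨t', ht, _⟩
        · exact h1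
        · omega
      | succ t iht =>
        intro r
        refine PetAbs_mono h r _ _ (fun A p _ hθ => PetAbs_theta_phi hθ) (ih _ (fun r => ?_) r)
        refine h.recenter r _ _ (fun A p _ hθ => ?_) (h.union r _ _ (H r) (iht r))
        rcases PetAbs_split hθ with h1 | ⟨t', ht, Z, hZ⟩
        · exact ⟨0, Or.inl (by simpa using h1)⟩
        · obtain rfl : t = t' := by omega
          exact ⟨Z, Or.inr hZ⟩
    intro r
    refine PetAbs_mono h r _ _ (fun A p hA hp => ⟨hp, A.image Polynomial.leadingCoeff,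
      card_image_le.trans hA, fun Q hQ _ => mem_image_of_mem _ hQ⟩) (key r r)

theorem pet_all {Ctrl : ℕ → (Finset ℝ[X] → ℝ[X] → Prop) → Prop} (h : PetAx False Ctrl)
    (base : ∀ r, Ctrl r fun A _ => A = ∅) (r D : ℕ) :
    Ctrl r fun A p => D < p.natDegree ∧ ∀ Q ∈ A, Q.natDegree ≤ D := by
  have key := PetAbs_S h D (fun Sig _ => Sig = ∅) (fun r => ?_) r
  · refine PetAbs_mono h r _ _ (fun A p _ hp => ⟨hp.1, ∅, rfl, fun Q hQ h1 => ?_, False.elim⟩) key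
    have := hp.2 Q hQ
    omega
  · refine PetAbs_mono h r _ _ ?_ (base r)
    rintro A p _ ⟨⟨_, Sig, rfl, hA, _⟩, hall⟩
    refine eq_empty_of_forall_notMem fun Q hQ => ?_
    simpa using hA Q hQ (hall Q hQ)

/-- Few leading coefficients of the differences of top degree. -/
def PetAbs_Eta (D t : ℕ) (A : Finset ℝ[X]) (p : ℝ[X]) : Prop :=
  (∀ Q ∈ A, (Q - p).natDegree ≤ D + 1) ∧ ∃ Lam : Finset ℝ, Lam.card ≤ t ∧
    ∀ Q ∈ A, (Q - p).natDegree = D + 1 → (Q - p).leadingCoeff ∈ Lam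

/-- The allowed sets for the differences of top degree. -/
def PetAbs_Xi (D t : ℕ) (Sig : Finset (ℕ × ℝ)) (τ : ℕ × ℝ) : Prop :=
  τ.1 = D + 1 ∧ ∃ Lam : Finset ℝ, Lam.card ≤ t ∧
    ∀ s ∈ Sig, s.1 = D + 1 ∧ (s.2 = τ.2 ∨ s.2 - τ.2 ∈ Lam)

lemma PetAbs_xi_eta {D t : ℕ} {A : Finset ℝ[X]} {p : ℝ[X]}
    (hp : PetAbs_PhiP True D (PetAbs_Xi D t) A p) : PetAbs_Eta D t A p := by
  obtain ⟨⟨_, Sig, ⟨hp, Lam, hL, hS⟩, hA, _⟩, hall⟩ := hp
  have hp' : p.natDegree = D + 1 := hp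
  have hQd : ∀ Q ∈ A, Q.natDegree = D + 1 := fun Q hQ => (hS _ (hA Q hQ (hall Q hQ))).1
  refine ⟨fun Q hQ => ?_, Lam, hL, fun Q hQ h1 => ?_⟩
  · refine (Polynomial.natDegree_sub_le Q p).trans ?_
    rw [hQd Q hQ, hp', max_self]
  · have h6 := PetAbs_lc_ne h1
    rw [Polynomial.coeff_sub, ← PetAbs_lc (hQd Q hQ), ← PetAbs_lc hp'] at h6
    rw [PetAbs_lc h1, Polynomial.coeff_sub, ← PetAbs_lc (hQd Q hQ), ← PetAbs_lc hp']
    rcases (hS _ (hA Q hQ (hall Q hQ))).2 with h2 | h2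
    · exact absurd h2 (sub_ne_zero.1 h6)
    · exact h2

lemma PetAbs_split2 {D t : ℕ} {A : Finset ℝ[X]} {p : ℝ[X]} (hη : PetAbs_Eta D t A p) :
    (∀ Q ∈ A, (Q - p).natDegree ≤ D) ∨ ∃ t', t = t' + 1 ∧
      ∃ Z, PetAbs_Phi True D (PetAbs_Xi D t') (A.image fun Q => Q - Z) (p - Z) := by
  obtain ⟨hd, Lam, hL, hA⟩ := hη
  by_cases hc : ∃ Z ∈ A, (Z - p).natDegree = D + 1
  · obtain ⟨Z, hZ, hZd⟩ := hc
    have hZL := hA Z hZ hZd
    have hpos : 0 < Lam.card := card_pos.2 ⟨_, hZL⟩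
    have hpZ : (p - Z).natDegree = D + 1 := by rw [Polynomial.natDegree_sub, hZd]
    refine Or.inr ⟨t - 1, by omega, Z, by omega,
      insert (PetAbs_tau (p - Z))
        (((A.image fun Q => Q - Z).filter fun Q => D < Q.natDegree).image PetAbs_tau),
      ⟨hpZ, Lam.erase (Z - p).leadingCoeff, ?_, ?_⟩, ?_, fun _ => mem_insert_self _ _⟩
    · rw [card_erase_of_mem hZL]
      omega
    · intro s hs
      rcases mem_insert.1 hs with rfl | hs
      · exact ⟨hpZ, Or.inl rfl⟩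
      · obtain ⟨Q', hQ', rfl⟩ := mem_image.1 hs
        obtain ⟨hQ'', h1⟩ := mem_filter.1 hQ'
        obtain ⟨Q, hQ, rfl⟩ := mem_image.1 hQ''
        have e1 : Q - Z = (Q - p) - (Z - p) := by ring
        have h2 : (Q - Z).natDegree = D + 1 := by
          have h3 := Polynomial.natDegree_sub_le (Q - p) (Z - p)
          rw [← e1, hZd, max_eq_right (hd Q hQ)] at h3
          omega
        refine ⟨h2, ?_⟩
        change (Q - Z).leadingCoeff = (p - Z).leadingCoeff ∨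
          (Q - Z).leadingCoeff - (p - Z).leadingCoeff ∈ Lam.erase (Z - p).leadingCoeff
        have e2 : (Q - Z).leadingCoeff - (p - Z).leadingCoeff = (Q - p).coeff (D + 1) := by
          rw [PetAbs_lc h2, PetAbs_lc hpZ]
          simp only [Polynomial.coeff_sub]
          ring
        by_cases h4 : (Q - p).coeff (D + 1) = 0
        · left
          rw [← e2] at h4
          exact sub_eq_zero.1 h4
        · right
          have h5 : (Q - p).natDegree = D + 1 :=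
            le_antisymm (hd Q hQ) (Polynomial.le_natDegree_of_ne_zero h4)
          rw [e2]
          refine mem_erase.2 ⟨fun h6 => ?_, ?_⟩
          · apply PetAbs_lc_ne h2
            rw [e1, Polynomial.coeff_sub, h6, PetAbs_lc hZd, sub_self]
          · rw [← PetAbs_lc h5]
            exact hA Q hQ h5
    · intro Q hQ h1
      exact mem_insert_of_mem (mem_image_of_mem _ (mem_filter.2 ⟨hQ, h1⟩))
  · refine Or.inl fun Q hQ => ?_
    have h4 := hd Q hQ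
    have h5 : (Q - p).natDegree ≠ D + 1 := fun h6 => hc ⟨Q, hQ, h6⟩
    omega

theorem pet_target {Ctrl : ℕ → (Finset ℝ[X] → ℝ[X] → Prop) → Prop} (h : PetAx True Ctrl)
    (base : ∀ r, Ctrl r fun A p => ∀ Q ∈ A, (Q - p).natDegree = 0) (r D : ℕ) :
    Ctrl r fun A p => ∀ Q ∈ A, (Q - p).natDegree ≤ D := by
  induction D generalizing r with
  | zero =>
    exact PetAbs_mono h r _ _ (fun A p _ hp Q hQ => Nat.le_zero.1 (hp Q hQ)) (base r)
  | succ D ih =>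
    have key : ∀ t r, Ctrl r (PetAbs_Eta D t) := by
      intro t
      induction t with
      | zero =>
        intro r
        refine PetAbs_mono h r _ _ (fun A p _ hη => ?_) (ih r)
        rcases PetAbs_split2 hη with h1 | ⟨t', ht, _⟩
        · exact h1
        · omega
      | succ t iht =>
        intro r
        have h1 : Ctrl r (PetAbs_Phi True D (PetAbs_Xi D t)) :=
          PetAbs_S h D _ (fun r => PetAbs_mono h r _ _ (fun A p _ hp => PetAbs_xi_eta hp) (iht r)) r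
        refine h.recenter r _ _ (fun A p _ hη => ?_) (h.union r _ _ (ih r) h1)
        rcases PetAbs_split2 hη with h1 | ⟨t', ht, Z, hZ⟩
        · exact ⟨0, Or.inl (by simpa using h1)⟩
        · obtain rfl : t = t' := by omega
          exact ⟨Z, Or.inr hZ⟩
    refine PetAbs_mono h r _ _ (fun A p hA hp => ⟨hp, A.image fun Q => (Q - p).leadingCoeff,
      card_image_le.trans hA, fun Q hQ _ => mem_image_of_mem _ hQ⟩) (key r r)

end Pool.Agent.MP_357fb4_an
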