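import Pool.Agent.MP_357fb4_an.PetT2
import Pool.Agent.MP_357fb4_an.PetAbs

/-!
Local control by box averages.
-/

open scoped BigOperators Classical ComplexConjugate Polynomial
open Finset Filter MeasureTheory Topology

noncomputable section

namespace Pool.Agent.MP_357fb4_an

variable {Y : Type} [MeasurableSpace Y] {μ : Measure Y} [IsProbabilityMeasure μ]

lemma loc_cls {C C' Ω Ω' L : ℝ} {Q : ℝ[X]} (hC : C ≤ C') (hΩ : Ω' ≤ Ω) (h : Cls C Ω L Q) :
    Cls C' Ω' L Q := ⟨h.1, h.2.1.trans hC, h.2.2.1.trans hC, hΩ.trans h.2.2.2⟩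

/-- Control by the box average of a given order. -/
def locBody (S : Sys ℤ Y μ) (r : ℕ) (Φ : Finset ℝ[X] → ℝ[X] → Prop) (s : ℕ) : Prop :=
  ∀ C ε : ℝ, 0 < ε → ∃ δ : ℝ, 0 < δ ∧ ∀ K : ℕ, 1 ≤ K → ∃ Ω : ℝ, ∀ L : ℕ, Ω ≤ L →
    ∀ (ι : Type) [Fintype ι], Fintype.card ι ≤ r → ∀ (P : ι → ℝ[X]) (p : ℝ[X]),
      Φ (univ.image P) p → (∀ i, Cls C Ω L (P i - p)) →
      ∀ (F : Y → ℂ) (G : ι → Y → ℂ) (a : ι → ℕ → ℤ), B1 F → (∀ i, B1 (G i)) →
        (∀ i x, |(a i x : ℝ) - (P i - p).eval (x : ℝ)| ≤ C) → box S (List.replicate s K) F ≤ δ →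
          𝔼 x ∈ range L, ‖corr S F G fun i => a i x‖ ≤ ε

lemma loc_succ {S : Sys ℤ Y μ} {r : ℕ} {Φ : Finset ℝ[X] → ℝ[X] → Prop} {s : ℕ}
    (h : locBody S r Φ s) : locBody S r Φ (s + 1) := by
  intro C ε hε
  obtain ⟨δ, hδ, h⟩ := h C ε hε
  refine ⟨δ ^ 2, by positivity, fun K hK => ?_⟩
  obtain ⟨Ω, h⟩ := h K hK
  refine ⟨Ω, fun L hL ι _ hι P p hΦ hcl F G a hF hG ha hb => h L hL ι hι P p hΦ hcl F G a hF hG ha ?_⟩
  have := (box_sq_le S hK (List.replicate s K) hF).trans hb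
  exact (abs_le_of_sq_le_sq' this hδ.le).2

lemma loc_mono {S : Sys ℤ Y μ} {r : ℕ} {Φ : Finset ℝ[X] → ℝ[X] → Prop} {s s' : ℕ} (hs : s ≤ s')
    (h : locBody S r Φ s) : locBody S r Φ s' := by
  induction hs with
  | refl => exact h
  | step _ ih => exact loc_succ ih

theorem petAx_T (S : Sys ℤ Y μ) : PetAx True (CtrlT S) := by
  refine ⟨fun r Φ Φ' h h' => ?_, fun r Φ₁ Φ₂ h₁ h₂ => ?_, fun r Φ Φ' h h' => ctrlT_step S r Φ Φ' h h'⟩
  · obtain ⟨s, hs, h'⟩ := h'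
    refine ⟨s, hs, fun C ε hε => ?_⟩
    obtain ⟨δ, hδ, h'⟩ := h' C ε hε
    refine ⟨δ, hδ, fun K hK => ?_⟩
    obtain ⟨Ω, h'⟩ := h' K hK
    refine ⟨Ω, fun L hL ι _ hι P p hΦ hcl F G a hF hG ha hb => ?_⟩
    obtain ⟨Z, hZ⟩ := h _ p (card_image_le.trans (by simpa using hι)) hΦ
    rw [image_image] at hZ
    exact h' L hL ι hι (fun i => P i - Z) (p - Z) hZ
      (by simpa only [sub_sub_sub_cancel_right] using hcl) F G a hF hG
      (by simpa only [sub_sub_sub_cancel_right] using ha) hb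
  · obtain ⟨s₁, hs₁, h₁⟩ := h₁
    obtain ⟨s₂, -, h₂⟩ := h₂
    have g₁ := loc_mono (le_max_left s₁ s₂) (show locBody S r Φ₁ s₁ from h₁)
    have g₂ := loc_mono (le_max_right s₁ s₂) (show locBody S r Φ₂ s₂ from h₂)
    refine ⟨max s₁ s₂, hs₁.trans (le_max_left _ _), fun C ε hε => ?_⟩
    obtain ⟨δ₁, hδ₁, g₁⟩ := g₁ C ε hε
    obtain ⟨δ₂, hδ₂, g₂⟩ := g₂ C ε hε
    refine ⟨min δ₁ δ₂, lt_min hδ₁ hδ₂, fun K hK => ?_⟩
    obtain ⟨Ω₁, g₁⟩ := g₁ K hK
    obtain ⟨Ω₂, g₂⟩ := g₂ K hK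
    refine ⟨max Ω₁ Ω₂, fun L hL ι _ hι P p hΦ hcl F G a hF hG ha hb => ?_⟩
    rcases hΦ with hΦ | hΦ
    · exact g₁ L ((le_max_left _ _).trans hL) ι hι P p hΦ
        (fun i => loc_cls le_rfl (le_max_left _ _) (hcl i)) F G a hF hG ha
        (hb.trans (min_le_left _ _))
    · exact g₂ L ((le_max_right _ _).trans hL) ι hι P p hΦ
        (fun i => loc_cls le_rfl (le_max_right _ _) (hcl i)) F G a hF hG ha
        (hb.trans (min_le_right _ _))

theorem base_T (S : Sys ℤ Y μ) (r : ℕ) :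
    CtrlT S r fun A p => ∀ Q ∈ A, (Q - p).natDegree = 0 := by
  refine ⟨1, le_rfl, fun C ε hε => ⟨ε ^ 2, by positivity, fun K hK => ⟨1,
    fun L hL ι _ hι P p hΦ hcl F G a hF hG ha hb => ?_⟩⟩⟩
  have hι0 : IsEmpty ι := ⟨fun i => by
    have h1 := hΦ (P i) (mem_image_of_mem P (mem_univ i))
    have h2 := (hcl i).1
    omega⟩
  have hL1 : 1 ≤ L := by exact_mod_cast hL
  refine expect_le (nonempty_range_iff.2 (by omega)) fun x _ => ?_
  have h1 : corr S F G (fun i => a i x) = ∫ y, F y ∂μ := by simp [corr]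
  rw [h1]
  exact (pow_le_pow_iff_left₀ (norm_nonneg _) hε.le two_ne_zero).1
    ((sq_norm_integral_le_box S hK hF).trans hb)

theorem loc (S : Sys ℤ Y μ) (r D : ℕ) : ∃ s : ℕ, 1 ≤ s ∧ ∀ C ε : ℝ, 0 < ε → ∃ C₁ : ℝ, 0 ≤ C₁ ∧
    ∀ K : ℕ, 1 ≤ K → ∃ Ω : ℝ, ∀ L : ℕ, Ω ≤ L → ∀ (ι : Type) [Fintype ι], Fintype.card ι ≤ r →
      ∀ (cl : ι → Prop) (Q : ι → ℝ[X]), (∀ i, (Q i).natDegree ≤ D) →
        (∀ i, cl i → (Q i).natDegree = 0) → (∀ i, ¬ cl i → Cls C Ω L (Q i)) →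
        ∀ (F : Y → ℂ) (G : ι → Y → ℂ) (a : ι → ℕ → ℤ), B1 F → (∀ i, B1 (G i)) →
          (∀ i x, x < L → |(a i x : ℝ) - (Q i).eval (x : ℝ)| ≤ C) →
            ∃ v : {i // cl i} → ℤ, (∀ i, |(v i : ℝ) - (Q i).eval 0| ≤ C) ∧
              𝔼 x ∈ range L, ‖corr S F G fun i => a i x‖ ≤ ε + C₁ * box S (List.replicate s K)
                fun y => F y * ∏ i : {i // cl i}, G i (S.act (v i) y) := by
  obtain ⟨s, hs, h⟩ := pet_target (petAx_T S) (base_T S) r D
  refine ⟨s, hs, fun C ε hε => ?_⟩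
  set R : ℕ := (⌊2 * C⌋₊ + 1) ^ r with hR
  have hR0 : (0 : ℝ) < R := by rw [hR]; positivity
  obtain ⟨δ, hδ, h⟩ := h (max C 1) (ε / R) (by positivity)
  refine ⟨R / δ, by positivity, fun K hK => ?_⟩
  obtain ⟨Ω, h⟩ := h K hK
  refine ⟨max Ω 1, fun L hL ι _ hι cl Q hD hcl hncl F G a hF hG ha => ?_⟩
  have hL1 : 1 ≤ L := by exact_mod_cast (le_max_right _ _).trans hL
  set V : Finset ({i // cl i} → ℤ) :=
    Fintype.piFinset fun i => Icc ⌈(Q i).eval 0 - C⌉ ⌊(Q i).eval 0 + C⌋ with hV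
  have hVm : ∀ v : {i // cl i} → ℤ, v ∈ V ↔ ∀ i, |(v i : ℝ) - (Q i).eval 0| ≤ C := fun v => by
    simp only [hV, Fintype.mem_piFinset, mem_Icc, Int.ceil_le, Int.le_floor, abs_le]
    exact forall_congr' fun i => ⟨fun h => ⟨by linarith [h.1], by linarith [h.2]⟩,
      fun h => ⟨by linarith [h.1], by linarith [h.2]⟩⟩
  have hVc : V.card ≤ R := by
    rw [hV, Fintype.card_piFinset]
    calc ∏ i : {i // cl i}, (Icc ⌈(Q i).eval 0 - C⌉ ⌊(Q i).eval 0 + C⌋).card ≤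
          ∏ _i : {i // cl i}, (⌊2 * C⌋₊ + 1) := by
          refine prod_le_prod' fun i _ => ?_
          rw [Int.card_Icc, Int.toNat_le]
          have h1 := Int.floor_le ((Q i).eval 0 + C)
          have h2 := Int.le_ceil ((Q i).eval 0 - C)
          have h3 := Nat.lt_floor_add_one (2 * C)
          have h4 : ((⌊(Q i).eval 0 + C⌋ - ⌈(Q i).eval 0 - C⌉ : ℤ) : ℝ) <
              ((⌊2 * C⌋₊ + 1 : ℤ) : ℝ) := by
            push_cast; linarith
          have h5 := Int.cast_lt.1 h4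
          push_cast
          omega
      _ = (⌊2 * C⌋₊ + 1) ^ Fintype.card {i // cl i} := by simp
      _ ≤ R := Nat.pow_le_pow_right (Nat.succ_pos _) ((Fintype.card_subtype_le _).trans hι)
  set pat : ℕ → {i // cl i} → ℤ := fun x i => a i x with hpat
  have hpV : ∀ x, x < L → pat x ∈ V := fun x hx => (hVm _).2 fun i => by
    have h1 := ha i x hx
    rw [Polynomial.eq_C_of_natDegree_eq_zero (hcl i i.2)] at h1 ⊢
    simpa using h1
  set Fv : ({i // cl i} → ℤ) → Y → ℂ := fun v y => F y * ∏ i : {i // cl i}, G i (S.act (v i) y)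
    with hFv
  have hFv1 : ∀ v, B1 (Fv v) := fun v => corr_B1 S hF (fun i : {i // cl i} => hG i) v
  set a' : {i // ¬ cl i} → ℕ → ℤ := fun i x => if x < L then a i x else ⌊(Q i).eval (x : ℝ)⌋
    with ha'
  set Φ : ({i // cl i} → ℤ) → ℕ → ℝ := fun v x =>
    ‖corr S (Fv v) (fun i : {i // ¬ cl i} => G i) fun i => a' i x‖ with hΦ
  have hne : List.replicate s K ≠ [] := by
    rw [Ne, List.replicate_eq_nil_iff]; omega
  have hb0 : ∀ v, 0 ≤ box S (List.replicate s K) (Fv v) := fun v => box_nonneg S hne (hFv1 v)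
  have key : ∀ v, 𝔼 x ∈ range L, Φ v x ≤ ε / R + box S (List.replicate s K) (Fv v) / δ := fun v => by
    by_cases hb : box S (List.replicate s K) (Fv v) ≤ δ
    · refine le_trans (h L ((le_max_left _ _).trans hL) {i // ¬ cl i}
        ((Fintype.card_subtype_le _).trans hι) (fun i => Q i) 0 ?_ ?_ (Fv v) (fun i => G i) a'
        (hFv1 v) (fun i => hG i) ?_ hb) (le_add_of_nonneg_right (div_nonneg (hb0 v) hδ.le))
      · intro P hP
        obtain ⟨i, -, rfl⟩ := mem_image.1 hP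
        rw [sub_zero]; exact hD i
      · intro i
        rw [sub_zero]
        exact loc_cls (le_max_left _ _) (le_max_left _ _) (hncl i i.2)
      · intro i x
        rw [sub_zero]
        simp only [ha']
        split_ifs with hx
        · exact (ha i x hx).trans (le_max_left _ _)
        · refine le_trans ?_ (le_max_right _ _)
          rw [abs_le]
          constructor <;>
            linarith [Int.floor_le ((Q i).eval (x : ℝ)), Int.lt_floor_add_one ((Q i).eval (x : ℝ))]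
    · have h1 : 𝔼 x ∈ range L, Φ v x ≤ 1 := expect_le (nonempty_range_iff.2 (by omega)) fun x _ =>
        norm_corr_le S (hFv1 v) (fun i : {i // ¬ cl i} => hG i) _
      have h2 : 1 ≤ box S (List.replicate s K) (Fv v) / δ := by
        rw [le_div_iff₀ hδ]; linarith
      have h3 : 0 ≤ ε / R := by positivity
      linarith
  obtain ⟨v, hv, hmax⟩ := exists_max_image V (fun v => box S (List.replicate s K) (Fv v))
    ⟨_, hpV 0 hL1⟩
  refine ⟨v, (hVm v).1 hv, ?_⟩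
  have e1 : 𝔼 x ∈ range L, ‖corr S F G fun i => a i x‖ = 𝔼 x ∈ range L, Φ (pat x) x := by
    refine expect_congr rfl fun x hx => ?_
    simp only [hΦ, hFv, hpat, ha', corr, if_pos (mem_range.1 hx), mul_assoc]
    congr 2
    funext y
    rw [Fintype.prod_subtype_mul_prod_subtype cl fun i => G i (S.act (a i x) y)]
  rw [e1]
  refine (pat_split L V pat hpV Φ fun _ _ => norm_nonneg _).trans ?_
  have hVR : (V.card : ℝ) ≤ R := by exact_mod_cast hVc
  calc ∑ k ∈ V, 𝔼 x ∈ range L, Φ k x ≤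
        ∑ _k ∈ V, (ε / R + box S (List.replicate s K) (Fv v) / δ) :=
        sum_le_sum fun k hk => (key k).trans (by gcongr; exact hmax k hk)
    _ = V.card * (ε / R + box S (List.replicate s K) (Fv v) / δ) := by simp [mul_add]
    _ ≤ R * (ε / R + box S (List.replicate s K) (Fv v) / δ) :=
        mul_le_mul_of_nonneg_right hVR (add_nonneg (by positivity) (div_nonneg (hb0 v) hδ.le))
    _ = ε + R / δ * box S (List.replicate s K) (Fv v) := by field_simp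

end Pool.Agent.MP_357fb4_an
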