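import Pool.Agent.MP_357fb4_an.PetAbs

/-!
Control by the cube sums of the weight.
-/

open scoped BigOperators Classical ComplexConjugate Polynomial
open Finset Filter MeasureTheory Topology

noncomputable section

namespace Pool.Agent.MP_357fb4_an

/-- A sum over the integers of a function supported in a shifted interval. -/
lemma PetW_tsum {E : Type} [AddCommMonoid E] [TopologicalSpace E] {u : ℤ → E} {a : ℤ} {L h : ℕ}
    (hh : h ≤ L) (hu : ∀ x, u x ≠ 0 → a ≤ x + h ∧ x + h < a + L) :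
    ∑' x, u x = ∑ x ∈ Ico (a - L) (a + L), u x :=
  tsum_eq_sum fun x hx => by
    by_contra h0
    have := hu x h0
    exact hx (mem_Ico.2 ⟨by omega, by omega⟩)

/-- The van der Corput inequality for finitely supported sequences. -/
lemma PetW_key {u : ℤ → ℂ} {a : ℤ} {L M : ℕ} (h1 : 1 ≤ M) (hM : M ≤ L)
    (hu : ∀ x, u x ≠ 0 → a ≤ x ∧ x < a + L) :
    ‖∑' x, u x‖ ^ 2 ≤ 2 * L * (𝔼 h ∈ range M, 𝔼 h' ∈ range M,
      ∑ x ∈ Ico (a - L) (a + L), u (x + (h : ℕ)) * conj (u (x + (h' : ℕ)))).re := by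
  have hne : (range M).Nonempty := nonempty_range_iff.2 (by omega)
  have e1 : ∑' x, u x = ∑ x ∈ Ico (a - L) (a + L), 𝔼 h ∈ range M, u (x + (h : ℕ)) := by
    rw [← expect_sum_comm, ← expect_const hne (∑' x, u x)]
    refine expect_congr rfl fun h hh => ?_
    rw [← (Equiv.addRight ((h : ℕ) : ℤ)).tsum_eq u]
    exact PetW_tsum (h := h) (by have := mem_range.1 hh; omega) fun x hx => hu _ hx
  have e2 : ((Ico (a - L) (a + L)).card : ℝ) = 2 * L := by
    rw [Int.card_Ico, show a + L - (a - L) = ((2 * L : ℕ) : ℤ) by push_cast; ring, Int.toNat_natCast]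
    push_cast
    rfl
  rw [e1]
  refine (pow_le_pow_left₀ (norm_nonneg _) (norm_sum_le _ _) 2).trans
    (sq_sum_le_card_mul_sum_sq.trans (le_of_eq ?_))
  rw [e2]
  congr 1
  simp only [sq_norm_expect, re_expect, Complex.re_sum]
  rw [← expect_sum_comm]
  exact expect_congr rfl fun h _ => (expect_sum_comm _ _ _).symm

lemma PetW_sup {w : ℤ → ℝ} {a : ℤ} {L : ℕ} (hw : ∀ x, w x ≠ 0 → a ≤ x ∧ x < a + L) (h h' : ℤ) :
    ∀ x, w (x + h) * w (x + h') ≠ 0 → a - h ≤ x ∧ x < a - h + L := fun x hx => by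
  have := hw _ (left_ne_zero_of_mul hx)
  omega

lemma PetW_sq {ι : Type} (s : Finset ι) (f : ι → ℝ) :
    (𝔼 i ∈ s, f i) ^ 2 ≤ 𝔼 i ∈ s, f i ^ 2 := by
  rcases s.eq_empty_or_nonempty with rfl | hs
  · simp
  · simpa [expect_const hs] using expect_mul_sq_le_sq_mul_sq s f fun _ => 1

lemma PetW_VV {L M : ℕ} (h1 : 1 ≤ M) (hM : M ≤ L) (s : ℕ) : ∀ (a : ℤ) (w : ℤ → ℝ),
    (∀ x, w x ≠ 0 → a ≤ x ∧ x < a + L) → VV M s w ^ 2 ≤ 2 * L * VV M (s + 1) w := by
  induction s with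
  | zero =>
    intro a w hw
    have h := PetW_key (u := fun x => (w x : ℂ)) h1 hM fun x hx => hw x (by simpa using hx)
    rw [← Complex.ofReal_tsum, Complex.norm_real, Real.norm_eq_abs, sq_abs] at h
    refine h.trans (le_of_eq ?_)
    simp only [VV, re_expect, Complex.re_sum, Complex.conj_ofReal, ← Complex.ofReal_mul,
      Complex.ofReal_re]
    congr 1
    refine expect_congr rfl fun h hh => expect_congr rfl fun h' _ => ?_
    exact (PetW_tsum (h := h) (by have := mem_range.1 hh; omega)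
      fun x hx => hw _ (left_ne_zero_of_mul hx)).symm
  | succ s ih =>
    intro a w hw
    rw [VV, VV, mul_expect]
    refine (PetW_sq _ _).trans (expect_le_expect fun h _ => ?_)
    rw [mul_expect]
    exact (PetW_sq _ _).trans (expect_le_expect fun h' _ => ih _ _ (PetW_sup hw _ _))

lemma PetW_raise {L M : ℕ} (h1 : 1 ≤ M) (hM : M ≤ L) {a : ℤ} {w : ℤ → ℝ}
    (hw : ∀ x, w x ≠ 0 → a ≤ x ∧ x < a + L) {X : ℝ} (hX : 0 ≤ X) {s t : ℕ} (hst : s ≤ t)
    (h : X ^ 2 ^ s ≤ (2 * L : ℝ) ^ (2 ^ s - 1) * VV M s w) :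
    X ^ 2 ^ t ≤ (2 * L : ℝ) ^ (2 ^ t - 1) * VV M t w := by
  induction t, hst using Nat.le_induction with
  | base => exact h
  | succ t _ ih =>
    have e : 2 ^ (t + 1) - 1 = (2 ^ t - 1) * 2 + 1 := by
      have := Nat.one_le_two_pow (n := t)
      omega
    rw [pow_succ 2 t, pow_mul, ← pow_succ 2 t, e, pow_succ _ ((2 ^ t - 1) * 2), pow_mul, mul_assoc]
    refine (pow_le_pow_left₀ (pow_nonneg hX _) ih 2).trans ?_
    rw [mul_pow]
    exact mul_le_mul_of_nonneg_left (PetW_VV h1 hM t a w hw) (sq_nonneg _)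

/-- Cauchy-Schwarz and van der Corput under the integral. -/
lemma PetW_cs {Y : Type} [MeasurableSpace Y] {μ : Measure Y} [IsProbabilityMeasure μ]
    {F : Y → ℂ} (hF : B1 F) {v : ℤ → Y → ℂ} (hv : ∀ x, B1 (v x)) {L M : ℕ} (h1 : 1 ≤ M)
    (hM : M ≤ L) {a : ℤ} {w : ℤ → ℝ} (hw : ∀ x, w x ≠ 0 → a ≤ x ∧ x < a + L) :
    ‖∑' x, (w x : ℂ) * ∫ y, F y * v x y ∂μ‖ ^ 2 ≤ 2 * L * 𝔼 h ∈ range M, 𝔼 h' ∈ range M,
      ‖∑' x : ℤ, ((w (x + (h : ℕ)) * w (x + (h' : ℕ)) : ℝ) : ℂ) *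
        ∫ y, v (x + (h : ℕ)) y * conj (v (x + (h' : ℕ)) y) ∂μ‖ := by
  have hs : ∀ c : ℤ → ℂ, ∀ x, (w x : ℂ) * c x ≠ 0 → a ≤ x ∧ x < a + L := fun c x hx =>
    hw x (by simpa using left_ne_zero_of_mul hx)
  have ht : ∀ c : ℤ → ℂ, ∑' x, (w x : ℂ) * c x = ∑ x ∈ Ico (a - L) (a + L), (w x : ℂ) * c x :=
    fun c => PetW_tsum (h := 0) (Nat.zero_le _) fun x hx => by simpa using hs c x hx
  have e1 : ∑' x, (w x : ℂ) * ∫ y, F y * v x y ∂μ =
      ∫ y, F y * ∑ x ∈ Ico (a - L) (a + L), (w x : ℂ) * v x y ∂μ := by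
    simp only [ht, mul_sum, mul_left_comm (F _)]
    rw [integral_finsetSum _ fun x _ => ((hF.mul (hv x)).integrable).const_mul _]
    simp only [integral_const_mul]
  have hm : Measurable fun y => ∑ x ∈ Ico (a - L) (a + L), (w x : ℂ) * v x y :=
    Finset.measurable_sum _ fun x _ => (hv x).1.const_mul _
  have hb : ∀ y, ‖∑ x ∈ Ico (a - L) (a + L), (w x : ℂ) * v x y‖ ≤
      ∑ x ∈ Ico (a - L) (a + L), ‖(w x : ℂ)‖ := fun y =>
    (norm_sum_le _ _).trans (sum_le_sum fun x _ => by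
      rw [norm_mul]; exact mul_le_of_le_one_right (norm_nonneg _) ((hv x).2 y))
  have i1 : ∀ h h' : ℕ, ∀ x ∈ Ico (a - L) (a + L), Integrable (fun y =>
      ((w (x + h) * w (x + h') : ℝ) : ℂ) * (v (x + h) y * conj (v (x + h') y))) μ :=
    fun h h' x _ => (((hv _).mul (hv _).conj).integrable).const_mul _
  have i2 : ∀ h : ℕ, ∀ h' ∈ range M, Integrable (fun y => ∑ x ∈ Ico (a - L) (a + L),
      ((w (x + h) * w (x + h') : ℝ) : ℂ) * (v (x + h) y * conj (v (x + h') y))) μ :=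
    fun h h' _ => integrable_finsetSum _ (i1 h h')
  have ie : ∀ {f : ℕ → Y → ℂ}, (∀ h ∈ range M, Integrable (f h) μ) →
      Integrable (fun y => 𝔼 h ∈ range M, f h y) μ := fun hf => by
    simp only [expect_eq_sum_div_card]
    exact (integrable_finsetSum _ hf).div_const _
  have i3 := ie fun h _ => ie (i2 h)
  rw [e1]
  refine (sq_norm_integral_mul_le hm hb hF.2).trans ?_
  refine (integral_mono_of_nonneg (Eventually.of_forall fun y => sq_nonneg _)
    (i3.re.const_mul (2 * L : ℝ)) (Eventually.of_forall fun y => ?_)).trans ?_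
  · have := PetW_key h1 hM (hs fun x => v x y)
    rw [ht] at this
    refine this.trans (le_of_eq ?_)
    simp only [RCLike.re_to_complex, map_mul, Complex.conj_ofReal, Complex.ofReal_mul]
    congr 2
    refine expect_congr rfl fun h _ => expect_congr rfl fun h' _ => sum_congr rfl fun x _ => ?_
    ring
  · rw [integral_const_mul, integral_re i3]
    refine mul_le_mul_of_nonneg_left ((RCLike.re_le_norm _).trans ?_) (by positivity)
    rw [integral_expect _ fun h _ => ie (i2 h)]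
    refine (norm_expect_le' _ _).trans (expect_le_expect fun h hh => ?_)
    rw [integral_expect _ (i2 h)]
    refine (norm_expect_le' _ _).trans (expect_le_expect fun h' _ => le_of_eq ?_)
    rw [integral_finsetSum _ (i1 h h'), PetW_tsum (h := h) (a := a) (L := L)
      (by have := mem_range.1 hh; omega) fun x hx => hw _
        (left_ne_zero_of_mul (b := w (x + h')) (by simpa using left_ne_zero_of_mul hx))]
    simp only [integral_const_mul]

lemma PetW_base (r : ℕ) : CtrlW r fun A _ => A = ∅ := by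
  refine ⟨1, le_rfl, fun Y _ μ _ S ι _ _ P p hP G _ L M a w h1 hM hw => ?_⟩
  have : IsEmpty ι := ⟨fun i => by
    have : P i ∈ univ.image P := mem_image_of_mem P (mem_univ i)
    rw [hP] at this
    simp at this⟩
  have h := PetW_VV h1 hM 0 a w hw
  simp only [corr, univ_eq_empty, prod_empty, mul_one, integral_const, probReal_univ, one_smul,
    pow_one, ← Complex.ofReal_tsum, Complex.norm_real, Real.norm_eq_abs, sq_abs,
    Nat.add_one_sub_one]
  exact h

lemma PetW_recenter (r : ℕ) (Φ Φ' : Finset ℝ[X] → ℝ[X] → Prop)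
    (h : ∀ A p, A.card ≤ r → Φ A p → ∃ Z, Φ' (A.image fun Q => Q - Z) (p - Z))
    (h' : CtrlW r Φ') : CtrlW r Φ := by
  obtain ⟨s, hs, H⟩ := h'
  refine ⟨s, hs, fun Y _ μ _ S ι _ hι P p hP G hG L M a w h1 hM hw => ?_⟩
  obtain ⟨Z, hZ⟩ := h _ p (card_image_le.trans hι) hP
  rw [image_image] at hZ
  have := H Y μ S ι hι (fun i => P i - Z) (p - Z) hZ G hG L M a w h1 hM hw
  have e : ∀ x : ℤ, (corr S (fun _ => 1) G fun i => (P i - Z).eval (x : ℝ)) =
      corr S (fun _ => 1) G fun i => (P i).eval (x : ℝ) := fun x => by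
    rw [corr_shift S B1.one hG _ (Z.eval (x : ℝ))]
    simp only [Polynomial.eval_sub, sub_add_cancel, corr]
  simpa only [e] using this

lemma PetW_union (r : ℕ) (Φ₁ Φ₂ : Finset ℝ[X] → ℝ[X] → Prop) (h₁ : CtrlW r Φ₁)
    (h₂ : CtrlW r Φ₂) : CtrlW r fun A p => Φ₁ A p ∨ Φ₂ A p := by
  obtain ⟨s, hs, H⟩ := h₁
  obtain ⟨t, _, H'⟩ := h₂
  refine ⟨max s t, hs.trans (le_max_left _ _),
    fun Y _ μ _ S ι _ hι P p hP G hG L M a w h1 hM hw => ?_⟩
  rcases hP with hP | hP
  · exact PetW_raise h1 hM hw (norm_nonneg _) (le_max_left _ _)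
      (H Y μ S ι hι P p hP G hG L M a w h1 hM hw)
  · exact PetW_raise h1 hM hw (norm_nonneg _) (le_max_right _ _)
      (H' Y μ S ι hι P p hP G hG L M a w h1 hM hw)

lemma PetW_step (r : ℕ) (Φ Φ' : Finset ℝ[X] → ℝ[X] → Prop)
    (h : ∀ A p, Φ A p → 1 ≤ p.natDegree ∧ (∃ P ∈ A, P.natDegree = 0) ∧
      ∀ (h h' : ℝ) (A' : Finset ℝ[X]),
        (∀ Q ∈ A', (∃ P ∈ A, 1 ≤ P.natDegree ∧
          (Q = Polynomial.taylor h P ∨ Q = Polynomial.taylor h' P)) ∨
            (False ∧ Q = Polynomial.taylor h' p)) → Φ' A' (Polynomial.taylor h p))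
    (h' : CtrlW (2 * r + 1) Φ') : CtrlW r Φ := by
  obtain ⟨s, -, H⟩ := h'
  refine ⟨s + 1, by omega, fun Y _ μ _ S ι _ hι P p hP G hG L M a w h1 hM hw => ?_⟩
  obtain ⟨-, -, hΦ⟩ := h _ p hP
  have hF : B1 fun y => ∏ i : {i // (P i).natDegree = 0}, G i (S.act ((P i).coeff 0) y) :=
    B1.prod _ fun i _ => (hG i).act S _
  have hv : ∀ x : ℤ, B1 fun y => ∏ i : {i // ¬(P i).natDegree = 0},
      G i (S.act ((P i).eval (x : ℝ)) y) := fun x => B1.prod _ fun i _ => (hG i).act S _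
  have e1 : ∀ x : ℤ, (corr S (fun _ => 1) G fun i => (P i).eval (x : ℝ)) =
      ∫ y, (∏ i : {i // (P i).natDegree = 0}, G i (S.act ((P i).coeff 0) y)) *
        ∏ i : {i // ¬(P i).natDegree = 0}, G i (S.act ((P i).eval (x : ℝ)) y) ∂μ := fun x => by
    simp only [corr, one_mul]
    refine integral_congr_ae (Eventually.of_forall fun y => ?_)
    simp only
    rw [← Fintype.prod_subtype_mul_prod_subtype (fun i => (P i).natDegree = 0)]
    congr 1
    refine prod_congr rfl fun i _ => ?_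
    conv_lhs => rw [Polynomial.eq_C_of_natDegree_eq_zero i.2, Polynomial.eval_C]
  have hc := PetW_cs (μ := μ) hF hv h1 hM hw
  simp only [← e1] at hc
  have hn : 2 ^ s ≠ 0 := by positivity
  have e : 2 ^ (s + 1) - 1 = 2 ^ s + (2 ^ s - 1) := by
    have := Nat.one_le_two_pow (n := s)
    omega
  rw [pow_succ' 2 s, pow_mul, ← pow_succ' 2 s, e, pow_add, mul_assoc]
  refine (pow_le_pow_left₀ (sq_nonneg _) hc _).trans ?_
  rw [mul_pow]
  refine mul_le_mul_of_nonneg_left ?_ (by positivity)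
  rw [VV, mul_expect]
  refine (pow_expect_le _ (fun _ _ => expect_nonneg fun _ _ => norm_nonneg _) hn).trans
    (expect_le_expect fun k _ => ?_)
  rw [mul_expect]
  refine (pow_expect_le _ (fun _ _ => norm_nonneg _) hn).trans (expect_le_expect fun k' _ => ?_)
  have hcard : Fintype.card ({i // ¬(P i).natDegree = 0} × Bool) ≤ 2 * r + 1 := by
    have := Fintype.card_subtype_le fun i => ¬(P i).natDegree = 0
    rw [Fintype.card_prod, Fintype.card_bool]
    omega
  have := H Y μ S _ hcard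
    (fun j => Polynomial.taylor (bif j.2 then ((k' : ℕ) : ℝ) else ((k : ℕ) : ℝ)) (P j.1))
    (Polynomial.taylor ((k : ℕ) : ℝ) p)
    (hΦ _ ((k' : ℕ) : ℝ) _ fun Q hQ => by
      obtain ⟨⟨i, b⟩, -, rfl⟩ := mem_image.1 hQ
      refine Or.inl ⟨P i, mem_image_of_mem P (mem_univ _), Nat.one_le_iff_ne_zero.2 i.2, ?_⟩
      cases b
      · exact Or.inl rfl
      · exact Or.inr rfl)
    (fun j y => bif j.2 then conj (G j.1 y) else G j.1 y)
    (fun j => by
      obtain ⟨i, b⟩ := j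
      cases b
      · exact hG i
      · exact (hG i).conj) L M _ _ h1 hM (PetW_sup hw k k')
  refine le_trans (le_of_eq ?_) this
  congr 2
  refine tsum_congr fun x => ?_
  congr 1
  simp only [corr, one_mul, Fintype.prod_prod_type, Fintype.prod_bool, cond_true, cond_false,
    Polynomial.taylor_eval, prod_mul_distrib, map_prod, Int.cast_add, Int.cast_natCast]
  exact integral_congr_ae (Eventually.of_forall fun y => mul_comm _ _)

theorem wpet (r D : ℕ) : ∃ s : ℕ, 1 ≤ s ∧ ∀ (Y : Type) [MeasurableSpace Y] (μ : Measure Y)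
    [IsProbabilityMeasure μ] (S : Sys ℝ Y μ) (ι : Type) [Fintype ι], Fintype.card ι ≤ r →
      ∀ P : ι → ℝ[X], (∀ i, (P i).natDegree ≤ D) → ∀ (F : Y → ℂ) (G : ι → Y → ℂ), B1 F →
        (∀ i, B1 (G i)) → ∀ (L M : ℕ) (a : ℤ) (w : ℤ → ℝ), 1 ≤ M → M ≤ L →
          (∀ x, w x ≠ 0 → a ≤ x ∧ x < a + L) →
            ‖∑' x : ℤ, (w x : ℂ) * corr S F G fun i => (P i).eval (x : ℝ)‖ ^ 2 ^ s ≤
              (2 * L : ℝ) ^ (2 ^ s - 1) * VV M s w := by
  obtain ⟨s, hs, H⟩ := pet_all ⟨PetW_recenter, PetW_union, PetW_step⟩ PetW_base (r + 1) D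
  refine ⟨s, hs, fun Y _ μ _ S ι _ hι P hP F G hF hG L M a w h1 hM hw => ?_⟩
  have := H Y μ S (Option ι) (by rw [Fintype.card_option]; omega) (fun o => o.elim 0 P)
    (Polynomial.X ^ (D + 1))
    ⟨by rw [Polynomial.natDegree_X_pow]; omega, fun Q hQ => by
      obtain ⟨o, -, rfl⟩ := mem_image.1 hQ
      cases o
      · simp
      · exact hP _⟩
    (fun o => o.elim F G) (fun o => by cases o; exacts [hF, hG _]) L M a w h1 hM hw
  simpa only [corr, one_mul, Fintype.prod_option, Option.elim, Polynomial.eval_zero,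
    S.act_zero] using this

end Pool.Agent.MP_357fb4_an
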