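import Pool.Agent.MP_357fb4_an.VVEst
import Pool.Agent.MP_357fb4_an.PetW

/-!
Rough numbers against polynomial correlations.
-/

open scoped BigOperators Classical ComplexConjugate Polynomial
open Finset Filter MeasureTheory Topology

noncomputable section

namespace Pool.Agent.MP_357fb4_an

lemma Maj_lt {W L b k : ℕ} (hb : b < W) : k < (L + W - 1 - b) / W ↔ W * k + b < L := by
  rw [← Nat.succ_le_iff, Nat.le_div_iff_mul_le (by omega), Nat.succ_mul, mul_comm k W]
  omega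

lemma Maj_split {W : ℕ} (hW : 0 < W) (L : ℕ) (a : ℤ) (f : ℤ → ℂ) :
    ∑ x ∈ Ico a (a + L), f x =
      ∑ b ∈ range W, ∑ k ∈ range ((L + W - 1 - b) / W), f (W * k + (a + b)) := by
  rw [sum_sigma']
  symm
  refine sum_bij (fun p _ => (W * p.2 + (a + p.1) : ℤ)) ?_ ?_ ?_ fun _ _ => rfl
  · rintro ⟨b, k⟩ hp
    simp only [mem_sigma, mem_range] at hp
    have h := (Maj_lt hp.1).1 hp.2
    have h' : (W : ℤ) * k + b < L := by exact_mod_cast h
    have h0 : (0 : ℤ) ≤ W * k + b := by positivity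
    simp only [mem_Ico]
    constructor <;> linarith
  · rintro ⟨b, k⟩ hp ⟨b', k'⟩ hp' h
    simp only [mem_sigma, mem_range] at hp hp'
    have h1 : W * k + b = W * k' + b' := by
      have : (W : ℤ) * k + b = W * k' + b' := by linarith
      exact_mod_cast this
    have h2 : b = b' := by
      have := congrArg (· % W) h1
      simpa [Nat.mul_add_mod, Nat.mod_eq_of_lt hp.1, Nat.mod_eq_of_lt hp'.1] using this
    subst h2
    have h3 : k = k' := Nat.eq_of_mul_eq_mul_left hW (by omega)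
    subst h3
    rfl
  · intro x hx
    simp only [mem_Ico] at hx
    obtain ⟨n, rfl⟩ := Int.le.dest hx.1
    have hn : n < L := by have := hx.2; omega
    refine ⟨⟨n % W, n / W⟩, ?_, ?_⟩
    · simp only [mem_sigma, mem_range]
      exact ⟨Nat.mod_lt _ hW, (Maj_lt (Nat.mod_lt _ hW)).2 (by rw [Nat.div_add_mod]; exact hn)⟩
    · have : (W : ℤ) * (n / W : ℕ) + (n % W : ℕ) = n := by exact_mod_cast Nat.div_add_mod n W
      simp only
      linarith

lemma Maj_tsum (L : ℕ) (g : ℤ → ℝ) (c : ℤ → ℂ) :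
    ∑' x : ℤ, (((if 0 ≤ x ∧ x < 0 + (L : ℤ) then g x else 0 : ℝ)) : ℂ) * c x =
      ∑ k ∈ range L, (g k : ℂ) * c k := by
  rw [tsum_eq_sum (s := (range L).map ⟨fun k : ℕ => (k : ℤ), Nat.cast_injective⟩), sum_map]
  · refine sum_congr rfl fun k hk => ?_
    have : k < L := mem_range.1 hk
    simp only [Function.Embedding.coeFn_mk]
    rw [if_pos ⟨by positivity, by omega⟩]
  · intro x hx
    rw [if_neg, Complex.ofReal_zero, zero_mul]
    rintro ⟨h0, h1⟩
    obtain ⟨n, rfl⟩ := Int.eq_ofNat_of_zero_le h0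
    exact hx (mem_map.2 ⟨n, mem_range.2 (by omega), rfl⟩)

lemma Maj_root {A η L : ℝ} {s : ℕ} (hη : 0 ≤ η) (hL : 0 ≤ L)
    (h : A ^ 2 ^ s ≤ (2 * L) ^ (2 ^ s - 1) * (η ^ 2 ^ s * L)) : A ≤ 2 * η * L := by
  have hs : 2 ^ s ≠ 0 := by positivity
  refine le_of_pow_le_pow_left₀ hs (by positivity) (h.trans ?_)
  generalize 2 ^ s = m at hs
  obtain ⟨n, rfl⟩ := Nat.exists_eq_succ_of_ne_zero hs
  have e : (2 * η * L) ^ n.succ = (2 * L) ^ (n.succ - 1) * (η ^ n.succ * (2 * L)) := by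
    rw [show 2 * η * L = (2 * L) * η by ring, mul_pow, Nat.succ_sub_one, pow_succ (2 * L)]
    ring
  rw [e]
  gcongr
  linarith

theorem maj (r D : ℕ) {δ ε : ℝ} (hδ : 0 < δ) (hε : 0 < ε) : ∃ u w : ℕ, 1 ≤ u ∧ 1 ≤ δ * u ∧
    ∀ᶠ N : ℕ in atTop, ∀ (L : ℕ) (a : ℤ), (N : ℝ) ^ δ ≤ L → ∀ (Y : Type) [MeasurableSpace Y]
      (μ : Measure Y) [IsProbabilityMeasure μ] (S : Sys ℝ Y μ) (ι : Type) [Fintype ι],
        Fintype.card ι ≤ r → ∀ P : ι → ℝ[X], (∀ i, (P i).natDegree ≤ D) →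
          ∀ (F : Y → ℂ) (G : ι → Y → ℂ), B1 F → (∀ i, B1 (G i)) →
            ‖∑ x ∈ Ico a (a + L), ((nuI 0 ⌊(N : ℝ) ^ (1 / u : ℝ)⌋₊ x - nuI 0 w x : ℝ) : ℂ) *
              corr S F G fun i => (P i).eval (x : ℝ)‖ ≤ ε / u ^ 2 * L := by
  obtain ⟨s, hs, hpet⟩ := wpet r D
  obtain ⟨u, w, hu, hδu, hvv⟩ := vv_est hs (half_pos hδ) (show 0 < ε / 8 by positivity)
  have hu0 : (0 : ℝ) < u := by exact_mod_cast hu
  refine ⟨u, w, hu, by nlinarith, ?_⟩
  have t1 : Tendsto (fun N : ℕ => ⌊(N : ℝ) ^ (1 / u : ℝ)⌋₊) atTop atTop :=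
    tendsto_nat_floor_atTop.comp
      ((tendsto_rpow_atTop (by positivity)).comp tendsto_natCast_atTop_atTop)
  have t2 : Tendsto (fun N : ℕ => (N : ℝ) ^ (δ / 2)) atTop atTop :=
    (tendsto_rpow_atTop (half_pos hδ)).comp tendsto_natCast_atTop_atTop
  filter_upwards [hvv, t1.eventually_ge_atTop w, t2.eventually_ge_atTop (2 * primorial w : ℝ)]
    with N hN hwz ht
  intro L a hL Y _ μ _ S ι _ hι P hP F G hF hG
  set z := ⌊(N : ℝ) ^ (1 / u : ℝ)⌋₊
  have hWpos : 0 < primorial w := primorial_pos w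
  generalize hW : primorial w = W at *
  have hW1 : (1 : ℝ) ≤ W := by exact_mod_cast hWpos
  set t := (N : ℝ) ^ (δ / 2) with htdef
  have htt : t * t ≤ L := by
    rw [htdef, ← Real.rpow_add' (by positivity) (by linarith), add_halves]; exact hL
  have hWL : (W : ℝ) ≤ L := by nlinarith
  rw [Maj_split hWpos]
  have key : ∀ b ∈ range W, ‖∑ k ∈ range ((L + W - 1 - b) / W),
      ((nuI 0 z (W * k + (a + b)) - nuI 0 w (W * k + (a + b)) : ℝ) : ℂ) *
        corr S F G fun i => (P i).eval (((W * k + (a + b) : ℤ)) : ℝ)‖ ≤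
      nuI 0 w (a + b) * (ε / u ^ 2 * L / (2 * W)) := by
    intro b hb
    have hb' := mem_range.1 hb
    set Lb := (L + W - 1 - b) / W with hLb
    have h1 : L ≤ W * Lb + b := not_lt.1 fun h => lt_irrefl _ ((Maj_lt hb').2 h)
    have h2 : W * Lb ≤ L + W := by
      rw [hLb, mul_comm]; exact (Nat.div_mul_le_self _ _).trans (by omega)
    have h1' : (L : ℝ) ≤ W * Lb + W := by
      have : L ≤ W * Lb + W := by omega
      exact_mod_cast this
    have h2' : (W : ℝ) * Lb ≤ L + W := by exact_mod_cast h2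
    have h3 : t ≤ Lb := by
      by_contra h
      push Not at h
      nlinarith
    obtain ⟨M, hM1, hML, hV⟩ := hN Lb h3
    have hp := hpet Y μ S ι hι
      (fun i => (P i).comp (Polynomial.C (W : ℝ) * Polynomial.X + Polynomial.C ((a + b : ℤ) : ℝ)))
      (fun i => by
        refine Polynomial.natDegree_comp_le.trans ?_
        have : (Polynomial.C (W : ℝ) * Polynomial.X +
            Polynomial.C ((a + b : ℤ) : ℝ)).natDegree ≤ 1 := Polynomial.natDegree_linear_le
        calc _ ≤ D * 1 := Nat.mul_le_mul (hP i) this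
          _ = D := mul_one D) F G hF hG Lb M 0
      (fun x => if 0 ≤ x ∧ x < 0 + (Lb : ℤ) then nuI w z (W * x + (a + b)) - 1 else 0) hM1 hML
      (fun x hx => by by_contra h; exact hx (if_neg h))
    rw [Maj_tsum] at hp
    have hq := Maj_root (by positivity) (by positivity)
      (hp.trans (mul_le_mul_of_nonneg_left (hV 0 (a + b)) (by positivity)))
    have e : ∑ k ∈ range Lb,
        ((nuI 0 z (W * k + (a + b)) - nuI 0 w (W * k + (a + b)) : ℝ) : ℂ) *
          corr S F G (fun i => (P i).eval (((W * k + (a + b) : ℤ)) : ℝ)) =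
        (nuI 0 w (a + b) : ℂ) * ∑ k ∈ range Lb, ((nuI w z (W * k + (a + b)) - 1 : ℝ) : ℂ) *
          corr S F G fun i => ((P i).comp (Polynomial.C (W : ℝ) * Polynomial.X +
            Polynomial.C ((a + b : ℤ) : ℝ))).eval (((k : ℕ) : ℤ) : ℝ) := by
      rw [mul_sum]
      refine sum_congr rfl fun k _ => ?_
      have e1 : nuI 0 w (W * k + (a + b)) = nuI 0 w (a + b) := by
        rw [add_comm, ← hW]; exact nuI_per w _ _
      rw [nuI_split hwz, e1, ← mul_assoc]
      congr 1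
      · push_cast; ring
      · congr 1
        funext i
        simp [Polynomial.eval_comp]
    rw [e, norm_mul, Complex.norm_real, Real.norm_of_nonneg (nuI_nonneg _ _ _)]
    refine mul_le_mul_of_nonneg_left (hq.trans ?_) (nuI_nonneg _ _ _)
    rw [le_div_iff₀ (by positivity)]
    have : 0 ≤ ε / u ^ 2 := by positivity
    calc 2 * (ε / 8 / u ^ 2) * Lb * (2 * W) = ε / u ^ 2 * ((W * Lb) / 2) := by ring
      _ ≤ ε / u ^ 2 * L := by gcongr; linarith
  refine (norm_sum_le _ _).trans ((sum_le_sum key).trans ?_)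
  rw [← sum_mul]
  have hm := nuI_mean w W a
  have e2 : ∑ x ∈ Ico a (a + W), nuI 0 w x = ∑ b ∈ range W, nuI 0 w (a + b) := by
    rw [Int.Ico_eq_finset_map, sum_map]
    simp
  rw [e2, hW] at hm
  calc _ ≤ (W + W : ℝ) * (ε / u ^ 2 * L / (2 * W)) := by gcongr
    _ = ε / u ^ 2 * L := by field_simp; ring

/-- The rotation flow on the circle. -/
def Maj_rot : Sys ℝ UnitAddCircle AddCircle.haarAddCircle where
  act t y := y + (t : UnitAddCircle)
  mp t := measurePreserving_add_right _ _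
  act_add g h y := by rw [AddCircle.coe_add]; abel
  act_zero y := by simp

theorem maj_phase (D : ℕ) {δ ε : ℝ} (hδ : 0 < δ) (hε : 0 < ε) : ∃ u w : ℕ, 1 ≤ u ∧ 1 ≤ δ * u ∧
    ∀ᶠ N : ℕ in atTop, ∀ (L : ℕ) (a : ℤ), (N : ℝ) ^ δ ≤ L → ∀ Q : ℝ[X], Q.natDegree ≤ D →
      ‖∑ x ∈ Ico a (a + L), ((nuI 0 ⌊(N : ℝ) ^ (1 / u : ℝ)⌋₊ x - nuI 0 w x : ℝ) : ℂ) *
        ec (Q.eval (x : ℝ))‖ ≤ ε / u ^ 2 * L := by
  obtain ⟨u, w, hu, hδu, h⟩ := maj 1 D hδ hε
  refine ⟨u, w, hu, hδu, h.mono fun N hN L a hL Q hQ => ?_⟩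
  have hn : ∀ y : UnitAddCircle, ‖fourier 1 y‖ = 1 := fun y => by
    rw [fourier_apply]; exact Circle.norm_coe _
  have hB : B1 fun y : UnitAddCircle => fourier 1 y :=
    ⟨(fourier 1).continuous.measurable, fun y => (hn y).le⟩
  have hc : ∀ t : ℝ, corr Maj_rot (fun y => conj (fourier 1 y))
      (fun (_ : Unit) y => fourier 1 y) (fun _ => t) = ec t := by
    intro t
    have : ∀ y : UnitAddCircle, conj (fourier 1 y) * ∏ _i : Unit,
        fourier 1 (Maj_rot.act t y) = ec t := by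
      intro y
      have e1 : fourier 1 (y + (t : UnitAddCircle)) = fourier 1 y * fourier 1 (t : UnitAddCircle) := by
        simp [AddCircle.toCircle_add]
      have e2 : fourier 1 (t : UnitAddCircle) = ec t := by
        rw [fourier_coe_apply, ec]; congr 1; push_cast; ring
      have e3 : conj (fourier 1 y) * fourier 1 y = 1 := by
        rw [Complex.conj_mul', hn]; simp
      simp only [Maj_rot, Fintype.prod_unique]
      rw [e1, ← mul_assoc, e3, one_mul, e2]
    simp only [corr, this]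
    simp
  have := hN L a hL UnitAddCircle AddCircle.haarAddCircle Maj_rot Unit (by simp) (fun _ => Q)
    (fun _ => hQ) _ (fun _ y => fourier 1 y) hB.conj fun _ => hB
  simpa only [hc] using this

end Pool.Agent.MP_357fb4_an
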