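import Pool.Agent.MP_357fb4_an.Maj

/-!
Logarithmic averages over rough numbers.
-/

open scoped BigOperators Classical ComplexConjugate Polynomial
open Finset Filter MeasureTheory Topology

noncomputable section

namespace Pool.Agent.MP_357fb4_an

lemma majLog_int {M : Type*} [AddCommMonoid M] (g : ℤ → M) (a : ℤ) (l : ℕ) :
    ∑ x ∈ Ico a (a + l), g x = ∑ i ∈ range l, g (a + i) := by
  refine Finset.sum_nbij' (fun x => (x - a).toNat) (fun i => a + i) ?_ ?_ ?_ ?_ ?_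
  · intro x hx
    simp only [mem_Ico, mem_range] at hx ⊢
    omega
  · intro i hi
    simp only [mem_Ico, mem_range] at hi ⊢
    omega
  · intro x hx
    simp only [mem_Ico] at hx ⊢
    omega
  · intro i _
    simp
  · intro x hx
    simp only [mem_Ico] at hx
    congr 1
    omega

lemma majLog_nat {M : Type*} [AddCommMonoid M] (g : ℕ → M) (Y l : ℕ) :
    ∑ x ∈ Ioc Y (Y + l), g x = ∑ i ∈ range l, g (Y + 1 + i) := by
  induction l with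
  | zero => simp
  | succ l ih =>
    rw [← add_assoc, Finset.sum_Ioc_succ_top (by omega), ih, Finset.sum_range_succ]
    congr 2
    ring

lemma majLog_blocks {l : ℕ} (hl : 1 ≤ l) (Y₁ Y₂ : ℕ) (F : ℕ → ℂ) {η : ℝ}
    (hb : ∀ Y, Y₁ ≤ Y → Y + l ≤ Y₂ →
      ‖∑ n ∈ Ioc Y (Y + l), F n‖ ≤ 4 * η * ∑ n ∈ Ioc Y (Y + l), (1 : ℝ) / n)
    (he : ∀ Y, Y₁ ≤ Y → Y₂ < Y + l → ‖∑ n ∈ Ioc Y Y₂, F n‖ ≤ η) (hη : 0 ≤ η) :
    ∀ k Y, Y₁ ≤ Y → Y₂ - Y ≤ k →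
      ‖∑ n ∈ Ioc Y Y₂, F n‖ ≤ 4 * η * ∑ n ∈ Ioc Y Y₂, (1 : ℝ) / n + η := by
  intro k
  induction k with
  | zero =>
    intro Y hY hk
    have h0 : 0 ≤ ∑ n ∈ Ioc Y Y₂, (1 : ℝ) / n := Finset.sum_nonneg fun n _ => by positivity
    have := he Y hY (by omega)
    nlinarith
  | succ k ih =>
    intro Y hY hk
    by_cases h : Y + l ≤ Y₂
    · have e1 := Finset.sum_Ioc_consecutive F (Nat.le_add_right Y l) h
      have e2 := Finset.sum_Ioc_consecutive (fun n : ℕ => (1 : ℝ) / n) (Nat.le_add_right Y l) h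
      rw [← e1, ← e2]
      have h1 := hb Y hY h
      have h2 := ih (Y + l) (by omega) (by omega)
      have h3 := norm_add_le (∑ n ∈ Ioc Y (Y + l), F n) (∑ n ∈ Ioc (Y + l) Y₂, F n)
      linarith
    · have h0 : 0 ≤ ∑ n ∈ Ioc Y Y₂, (1 : ℝ) / n := Finset.sum_nonneg fun n _ => by positivity
      have := he Y hY (by omega)
      nlinarith

/-- The absolute mass of the weight on a block. -/
lemma majLog_abs {z w l : ℕ} {η : ℝ} (a : ℤ) (hP : primorial w ≤ l)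
    (h : ‖∑ x ∈ Ico a (a + l), ((nuI 0 z x - nuI 0 w x : ℝ) : ℂ) *
      ec ((0 : ℝ[X]).eval (x : ℝ))‖ ≤ η * l) :
    ∑ i ∈ range l, |nuI 0 z (a + i) - nuI 0 w (a + i)| ≤ (4 + η) * l := by
  simp only [Polynomial.eval_zero, ec_zero, mul_one] at h
  rw [← Complex.ofReal_sum, Complex.norm_real, Real.norm_eq_abs, Finset.sum_sub_distrib] at h
  have h1 := nuI_mean w l a
  have h2 : (primorial w : ℝ) ≤ l := by exact_mod_cast hP
  rw [← majLog_int (fun x => |nuI 0 z x - nuI 0 w x|)]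
  have h3 : ∑ x ∈ Ico a (a + l), |nuI 0 z x - nuI 0 w x| ≤
      ∑ x ∈ Ico a (a + l), (nuI 0 z x + nuI 0 w x) := by
    refine Finset.sum_le_sum fun x _ => ?_
    have := nuI_nonneg 0 z x
    have := nuI_nonneg 0 w x
    rw [abs_le]
    constructor <;> linarith
  rw [Finset.sum_add_distrib] at h3
  have h4 := (abs_le.1 h).2
  nlinarith

/-- One full block. -/
lemma majLog_block {l y : ℕ} (hy : 1 ≤ y) (hly : l ≤ y) (c : ℕ → ℝ) (f e : ℕ → ℂ) {η C θ : ℝ}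
    (hη : 0 ≤ η) (he : ∀ i, ‖e i‖ ≤ 1)
    (h1 : ‖∑ i ∈ range l, (c (y + i) : ℂ) * e i‖ ≤ η * l)
    (h2 : ∑ i ∈ range l, |c (y + i)| ≤ C * l)
    (h3 : ∀ i < l, ‖f (y + i) - e i‖ ≤ θ) (hθ : 0 ≤ θ) (h4 : C * (θ + l / y) ≤ η) :
    ‖∑ i ∈ range l, (c (y + i) : ℂ) * f (y + i) / ((y + i : ℕ) : ℂ)‖ ≤
      4 * η * ∑ i ∈ range l, (1 : ℝ) / ((y + i : ℕ) : ℝ) := by
  have hy0 : (0 : ℝ) < y := by exact_mod_cast hy
  have hly' : (l : ℝ) ≤ y := by exact_mod_cast hly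
  have key : ∀ i ∈ range l, ‖(c (y + i) : ℂ) * f (y + i) / ((y + i : ℕ) : ℂ) -
      (c (y + i) : ℂ) * e i / (y : ℂ)‖ ≤ |c (y + i)| * ((θ + l / y) / y) := by
    intro i hi
    have hi' : i < l := mem_range.1 hi
    have hil : (i : ℝ) ≤ l := by exact_mod_cast hi'.le
    have hi0 : (0 : ℝ) ≤ i := by positivity
    have hyc : (y : ℂ) ≠ 0 := by exact_mod_cast hy0.ne'
    have hyi : ((y + i : ℕ) : ℂ) ≠ 0 := by exact_mod_cast (by omega : y + i ≠ 0)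
    have e1 : (c (y + i) : ℂ) * f (y + i) / ((y + i : ℕ) : ℂ) - (c (y + i) : ℂ) * e i / (y : ℂ) =
        (c (y + i) : ℂ) * ((f (y + i) - e i) / ((y + i : ℕ) : ℂ) -
          e i * ((i : ℂ) / ((y : ℂ) * ((y + i : ℕ) : ℂ)))) := by
      field_simp
      push_cast
      ring
    rw [e1, norm_mul, Complex.norm_real, Real.norm_eq_abs]
    refine mul_le_mul_of_nonneg_left ?_ (abs_nonneg _)
    refine (norm_sub_le _ _).trans ?_
    rw [norm_div, norm_mul, norm_div, norm_mul, Complex.norm_natCast, Complex.norm_natCast,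
      Complex.norm_natCast]
    have hyi' : (y : ℝ) ≤ ((y + i : ℕ) : ℝ) := by push_cast; linarith
    have a1 : ‖f (y + i) - e i‖ / ((y + i : ℕ) : ℝ) ≤ θ / y :=
      div_le_div₀ hθ (h3 i hi') hy0 hyi'
    have a2 : (i : ℝ) / (y * ((y + i : ℕ) : ℝ)) ≤ l / (y * y) :=
      div_le_div₀ (by positivity) hil (by positivity) (by gcongr)
    have a3 : ‖e i‖ * ((i : ℝ) / (y * ((y + i : ℕ) : ℝ))) ≤ l / (y * y) := by
      have := he i
      have h0 : 0 ≤ (i : ℝ) / (y * ((y + i : ℕ) : ℝ)) := by positivity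
      nlinarith [norm_nonneg (e i)]
    have a4 : (θ + l / y) / y = θ / y + l / (y * y) := by field_simp
    linarith
  have s1 : ‖∑ i ∈ range l, (c (y + i) : ℂ) * f (y + i) / ((y + i : ℕ) : ℂ) -
      ∑ i ∈ range l, (c (y + i) : ℂ) * e i / (y : ℂ)‖ ≤ C * l * ((θ + l / y) / y) := by
    rw [← Finset.sum_sub_distrib]
    refine (norm_sum_le _ _).trans ((Finset.sum_le_sum key).trans ?_)
    rw [← Finset.sum_mul]
    exact mul_le_mul_of_nonneg_right h2 (by positivity)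
  have s2 : ‖∑ i ∈ range l, (c (y + i) : ℂ) * e i / (y : ℂ)‖ ≤ η * l / y := by
    rw [← Finset.sum_div, norm_div, Complex.norm_natCast]
    gcongr
  have s3 : (l : ℝ) / y ≤ 2 * ∑ i ∈ range l, (1 : ℝ) / ((y + i : ℕ) : ℝ) := by
    have : ∑ _i ∈ range l, (1 : ℝ) / (2 * y) ≤ ∑ i ∈ range l, (1 : ℝ) / ((y + i : ℕ) : ℝ) := by
      refine Finset.sum_le_sum fun i hi => ?_
      have hil : (i : ℝ) ≤ l := by exact_mod_cast (mem_range.1 hi).le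
      refine one_div_le_one_div_of_le (by push_cast; positivity) ?_
      push_cast
      linarith
    rw [Finset.sum_const, card_range, nsmul_eq_mul] at this
    have e : (l : ℝ) / y = 2 * (l * (1 / (2 * y))) := by field_simp
    linarith
  have s4 : C * l * ((θ + l / y) / y) ≤ η * (l / y) := by
    have e : C * l * ((θ + l / y) / y) = C * (θ + l / y) * (l / y) := by field_simp
    rw [e]
    exact mul_le_mul_of_nonneg_right h4 (by positivity)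
  have s5 := norm_le_insert' (∑ i ∈ range l, (c (y + i) : ℂ) * f (y + i) / ((y + i : ℕ) : ℂ))
    (∑ i ∈ range l, (c (y + i) : ℂ) * e i / (y : ℂ))
  have s6 : η * l / y = η * (l / y) := by ring
  nlinarith

lemma majLog_ev {δ η C : ℝ} (hδ : 0 < δ) (hη : 0 < η) (hC : 0 < C) (P : ℕ) :
    ∀ᶠ N : ℕ in atTop, 1 ≤ N ∧ 1 ≤ Real.log N ∧ P ≤ ⌈(N : ℝ) ^ (δ / 2)⌉₊ ∧
      1 ≤ ⌈(N : ℝ) ^ (δ / 2)⌉₊ ∧ ∀ y : ℕ, (N : ℝ) ^ δ ≤ y → ⌈(N : ℝ) ^ (δ / 2)⌉₊ ≤ y ∧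
        C * ((N : ℝ)⁻¹ + (⌈(N : ℝ) ^ (δ / 2)⌉₊ : ℝ) / y) ≤ η := by
  have t1 : Tendsto (fun N : ℕ => (N : ℝ) ^ (δ / 2)) atTop atTop :=
    (tendsto_rpow_atTop (by positivity)).comp tendsto_natCast_atTop_atTop
  have t2 : Tendsto (fun N : ℕ => Real.log N) atTop atTop :=
    Real.tendsto_log_atTop.comp tendsto_natCast_atTop_atTop
  have t3 : Tendsto (fun N : ℕ => (N : ℝ)) atTop atTop := tendsto_natCast_atTop_atTop
  filter_upwards [eventually_ge_atTop 1, t2.eventually_ge_atTop 1,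
    t1.eventually_ge_atTop (P : ℝ), t1.eventually_ge_atTop 2, t1.eventually_ge_atTop (4 * C / η),
    t3.eventually_ge_atTop (2 * C / η)] with N h1 h2 h3 h4 h5 h6
  set t : ℝ := (N : ℝ) ^ (δ / 2) with ht
  have hN0 : (0 : ℝ) < N := by exact_mod_cast h1
  have hc1 : t ≤ ⌈t⌉₊ := Nat.le_ceil t
  have hc2 : (⌈t⌉₊ : ℝ) ≤ t + 1 := (Nat.ceil_lt_add_one (by linarith)).le
  refine ⟨h1, h2, ?_, ?_, fun y hy => ?_⟩
  · exact_mod_cast h3.trans hc1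
  · have : (1 : ℝ) ≤ ⌈t⌉₊ := by linarith
    exact_mod_cast this
  have e : (N : ℝ) ^ δ = t * t := by
    rw [ht, ← Real.rpow_add hN0]
    congr 1
    ring
  rw [e] at hy
  have hy0 : (0 : ℝ) < y := by nlinarith
  refine ⟨?_, ?_⟩
  · have : (⌈t⌉₊ : ℝ) ≤ y := by nlinarith
    exact_mod_cast this
  · have a1 : (⌈t⌉₊ : ℝ) / y ≤ 2 / t := by
      rw [div_le_div_iff₀ hy0 (by linarith)]
      nlinarith
    have a2 : C * (2 / t) ≤ η / 2 := by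
      rw [div_le_iff₀ hη] at h5
      rw [← mul_div_assoc, div_le_iff₀ (by linarith)]
      linarith
    have a3 : C * (N : ℝ)⁻¹ ≤ η / 2 := by
      rw [div_le_iff₀ hη] at h6
      rw [← div_eq_mul_inv, div_le_iff₀ hN0]
      linarith
    have a4 : C * ((⌈t⌉₊ : ℝ) / y) ≤ C * (2 / t) := mul_le_mul_of_nonneg_left a1 hC.le
    linarith

theorem majlog (D : ℕ) {δ ε : ℝ} (hδ : 0 < δ) (hε : 0 < ε) : ∃ u w : ℕ, 1 ≤ u ∧ 1 ≤ δ * u ∧
    ∀ᶠ N : ℕ in atTop, ∀ Y₁ Y₂ : ℕ, (N : ℝ) ^ δ ≤ Y₁ + 1 → Y₂ ≤ N ^ 3 → ∀ f : ℕ → ℂ,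
      (∀ n, ‖f n‖ ≤ 1) →
      (∀ y : ℕ, Y₁ < y → y ≤ Y₂ → ∃ Q : ℝ[X], Q.natDegree ≤ D ∧ ∀ x : ℕ,
        (x : ℝ) ≤ (N : ℝ) ^ (δ / 2) + 1 → ‖f (y + x) - ec (Q.eval (x : ℝ))‖ ≤ (N : ℝ)⁻¹) →
      ‖∑ n ∈ Ioc Y₁ Y₂, ((nuI 0 ⌊(N : ℝ) ^ (1 / u : ℝ)⌋₊ n - nuI 0 w n : ℝ) : ℂ) * f n / n‖ ≤
        ε / u ^ 2 * Real.log N := by
  obtain ⟨u, w, hu, hδu, hev⟩ := maj_phase D (δ := δ / 2) (ε := ε / 17) (by positivity)
    (by positivity)
  have hu0 : (0 : ℝ) < u := by exact_mod_cast hu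
  refine ⟨u, w, hu, by nlinarith, ?_⟩
  set η : ℝ := ε / 17 / u ^ 2 with hηd
  have hη : 0 < η := by positivity
  filter_upwards [hev, majLog_ev hδ hη (C := 4 + η) (by positivity) (primorial w)] with N hN
    ⟨h1, h2, h3, h4, h5⟩ Y₁ Y₂ hY₁ hY₂ f hf hQ
  set l : ℕ := ⌈(N : ℝ) ^ (δ / 2)⌉₊ with hl
  set z : ℕ := ⌊(N : ℝ) ^ (1 / u : ℝ)⌋₊ with hz
  have hN0 : (0 : ℝ) < N := by exact_mod_cast h1
  have hll : (N : ℝ) ^ (δ / 2) ≤ l := Nat.le_ceil _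
  have hl2 : (l : ℝ) ≤ (N : ℝ) ^ (δ / 2) + 1 := (Nat.ceil_lt_add_one (by positivity)).le
  have habs : ∀ y : ℕ, ∑ i ∈ range l, |nuI 0 z ((y + i : ℕ) : ℤ) - nuI 0 w ((y + i : ℕ) : ℤ)| ≤
      (4 + η) * l := by
    intro y
    have := majLog_abs (y : ℤ) h3 (hN l y hll 0 (by simp))
    simpa using this
  have hyY : ∀ Y : ℕ, Y₁ ≤ Y → (N : ℝ) ^ δ ≤ ((Y + 1 : ℕ) : ℝ) := by
    intro Y hY
    have : (Y₁ : ℝ) ≤ Y := by exact_mod_cast hY
    push_cast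
    linarith
  have main := majLog_blocks h4 Y₁ Y₂
    (fun n : ℕ => ((nuI 0 z n - nuI 0 w n : ℝ) : ℂ) * f n / n) (η := η) ?_ ?_ hη.le
    (Y₂ - Y₁) Y₁ le_rfl le_rfl
  · have a1 := harm_le' Y₁ Y₂
    have a2 : Real.log Y₂ ≤ 3 * Real.log N := by
      rcases Nat.eq_zero_or_pos Y₂ with h | h
      · simp only [h, Nat.cast_zero, Real.log_zero]
        linarith
      · have : Real.log Y₂ ≤ Real.log ((N : ℝ) ^ 3) :=
          Real.log_le_log (by exact_mod_cast h) (by exact_mod_cast hY₂)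
        rw [Real.log_pow] at this
        exact_mod_cast this
    have e : ε / u ^ 2 = 17 * η := by rw [hηd]; field_simp
    rw [e]
    nlinarith
  · intro Y hY hYl
    obtain ⟨b1, b2⟩ := h5 (Y + 1) (hyY Y hY)
    obtain ⟨Q, hQD, hQ⟩ := hQ (Y + 1) (by omega) (by omega)
    rw [majLog_nat, majLog_nat]
    refine majLog_block (by omega) b1 (fun n : ℕ => nuI 0 z n - nuI 0 w n) f
      (fun i => ec (Q.eval (i : ℝ))) (C := 4 + η) (θ := (N : ℝ)⁻¹) hη.le (fun i => by simp) ?_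
      (habs (Y + 1)) (fun i hi => hQ i ?_) (by positivity) b2
    · have := hN l ((Y + 1 : ℕ) : ℤ) hll (Polynomial.taylor (-((Y + 1 : ℕ) : ℝ)) Q)
        (by rw [Polynomial.natDegree_taylor]; exact hQD)
      rw [majLog_int] at this
      convert this using 3 with i hi
      rw [Polynomial.taylor_eval]
      push_cast
      ring_nf
    · have : (i : ℝ) ≤ l := by exact_mod_cast hi.le
      linarith
  · intro Y hY hYl
    obtain ⟨b1, b2⟩ := h5 (Y + 1) (hyY Y hY)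
    have hy0 : (0 : ℝ) < ((Y + 1 : ℕ) : ℝ) := by positivity
    calc ‖∑ n ∈ Ioc Y Y₂, ((nuI 0 z n - nuI 0 w n : ℝ) : ℂ) * f n / n‖
        ≤ ∑ n ∈ Ioc Y Y₂, |nuI 0 z n - nuI 0 w n| / ((Y + 1 : ℕ) : ℝ) := by
          refine (norm_sum_le _ _).trans (Finset.sum_le_sum fun n hn => ?_)
          have hn' : ((Y + 1 : ℕ) : ℝ) ≤ n := by exact_mod_cast (mem_Ioc.1 hn).1
          rw [norm_div, norm_mul, Complex.norm_real, Real.norm_eq_abs, Complex.norm_natCast]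
          refine div_le_div₀ (abs_nonneg _) ?_ hy0 hn'
          exact mul_le_of_le_one_right (abs_nonneg _) (hf n)
      _ ≤ ∑ n ∈ Ioc Y (Y + l), |nuI 0 z n - nuI 0 w n| / ((Y + 1 : ℕ) : ℝ) :=
          Finset.sum_le_sum_of_subset_of_nonneg (Finset.Ioc_subset_Ioc_right hYl.le)
            fun n _ _ => by positivity
      _ ≤ (4 + η) * l / ((Y + 1 : ℕ) : ℝ) := by
          rw [← Finset.sum_div, majLog_nat]
          gcongr
          exact habs (Y + 1)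
      _ ≤ η := by
          have : 0 ≤ (4 + η) * (N : ℝ)⁻¹ := by positivity
          rw [mul_div_assoc]
          linarith

theorem rough_mass {δ : ℝ} (hδ : 0 < δ) : ∃ G : ℝ, ∀ᶠ N : ℕ in atTop,
    ∑ n ∈ (rg N δ).filter (fun n : ℕ => Rough 0 ⌊(N : ℝ) ^ δ⌋₊ n), (1 : ℝ) / n ≤ G := by
  obtain ⟨u, w, hu, hδu, hev⟩ := majlog 0 hδ one_pos
  have hu0 : (1 : ℝ) ≤ u := by exact_mod_cast hu
  refine ⟨u * (3 * (Vp 0 w)⁻¹ + 1), ?_⟩
  have t2 : Tendsto (fun N : ℕ => Real.log N) atTop atTop :=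
    Real.tendsto_log_atTop.comp tendsto_natCast_atTop_atTop
  filter_upwards [hev, eventually_ge_atTop 2, t2.eventually_ge_atTop 1] with N hN h1 h2
  have hN1 : (1 : ℝ) ≤ N := by exact_mod_cast (by omega : 1 ≤ N)
  have h := hN ⌊(N : ℝ) ^ δ⌋₊ (N ^ 2) (Nat.lt_floor_add_one _).le
    (Nat.pow_le_pow_right (by omega) (by norm_num)) (fun _ => 1) (fun _ => by simp)
    (fun y _ _ => ⟨0, by simp, fun x _ => by simp⟩)
  set z : ℕ := ⌊(N : ℝ) ^ (1 / u : ℝ)⌋₊ with hz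
  have hzz : z ≤ ⌊(N : ℝ) ^ δ⌋₊ := by
    refine Nat.floor_le_floor (Real.rpow_le_rpow_of_exponent_le hN1 ?_)
    rw [div_le_iff₀ (by linarith)]
    exact hδu
  have e : ∑ n ∈ Ioc ⌊(N : ℝ) ^ δ⌋₊ (N ^ 2), ((nuI 0 z n - nuI 0 w n : ℝ) : ℂ) * 1 / (n : ℂ) =
      ((∑ n ∈ Ioc ⌊(N : ℝ) ^ δ⌋₊ (N ^ 2), nuI 0 z n / n -
        ∑ n ∈ Ioc ⌊(N : ℝ) ^ δ⌋₊ (N ^ 2), nuI 0 w n / n : ℝ) : ℂ) := by
    rw [← Finset.sum_sub_distrib]
    push_cast
    refine Finset.sum_congr rfl fun n _ => ?_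
    ring
  rw [e, Complex.norm_real, Real.norm_eq_abs] at h
  have a1 := (abs_le.1 h).2
  have hV := Vp_pos 0 w
  have hVz := Vp_pos 0 z
  have a2 : ∑ n ∈ Ioc ⌊(N : ℝ) ^ δ⌋₊ (N ^ 2), nuI 0 w n / n ≤ (Vp 0 w)⁻¹ * (3 * Real.log N) := by
    have b1 := harm_le' ⌊(N : ℝ) ^ δ⌋₊ (N ^ 2)
    have b2 : Real.log ((N ^ 2 : ℕ) : ℝ) = 2 * Real.log N := by
      push_cast
      rw [Real.log_pow]
      norm_num
    calc ∑ n ∈ Ioc ⌊(N : ℝ) ^ δ⌋₊ (N ^ 2), nuI 0 w n / n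
        ≤ ∑ n ∈ Ioc ⌊(N : ℝ) ^ δ⌋₊ (N ^ 2), (Vp 0 w)⁻¹ * (1 / (n : ℝ)) := by
          refine Finset.sum_le_sum fun n _ => ?_
          rw [div_eq_mul_one_div]
          exact mul_le_mul_of_nonneg_right (nuI_le 0 w n) (by positivity)
      _ ≤ (Vp 0 w)⁻¹ * (3 * Real.log N) := by
          rw [← Finset.mul_sum]
          refine mul_le_mul_of_nonneg_left ?_ (by positivity)
          linarith
  have a3 : 1 / (u : ℝ) ^ 2 * Real.log N ≤ Real.log N := by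
    have : 1 / (u : ℝ) ^ 2 ≤ 1 := by
      rw [div_le_one (by positivity)]
      nlinarith
    nlinarith
  have a4 : ∑ n ∈ (rg N δ).filter (fun n : ℕ => Rough 0 ⌊(N : ℝ) ^ δ⌋₊ n), (1 : ℝ) / n ≤
      Vp 0 z * ∑ n ∈ Ioc ⌊(N : ℝ) ^ δ⌋₊ (N ^ 2), nuI 0 z n / n := by
    rw [Finset.mul_sum, Finset.sum_filter]
    refine Finset.sum_le_sum fun n _ => ?_
    split_ifs with hr
    · have hr' : Rough 0 z n := Rough.mono hzz hr
      simp only [nuI, hr', if_true]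
      rw [← mul_div_assoc, mul_inv_cancel₀ hVz.ne']
    · have := nuI_nonneg 0 z n
      positivity
  have a5 : Vp 0 z ≤ u / Real.log N := Vp_le_div h1 hu
  have a6 : 0 ≤ ∑ n ∈ Ioc ⌊(N : ℝ) ^ δ⌋₊ (N ^ 2), nuI 0 z n / n :=
    Finset.sum_nonneg fun n _ => div_nonneg (nuI_nonneg _ _ _) (by positivity)
  calc _ ≤ _ := a4
    _ ≤ u / Real.log N * ((3 * (Vp 0 w)⁻¹ + 1) * Real.log N) := by
        refine mul_le_mul a5 ?_ a6 (by positivity)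
        nlinarith
    _ = u * (3 * (Vp 0 w)⁻¹ + 1) := by
        field_simp

end Pool.Agent.MP_357fb4_an
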