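import Pool.Agent.MP_357fb4_an.Level
import Pool.Agent.MP_357fb4_an.Loc
import Pool.Agent.MP_357fb4_an.HApi
import Pool.Agent.MP_357fb4_an.Glob1

/-!
Seminorm control for slowly growing functions.
-/

open scoped BigOperators Classical ComplexConjugate Polynomial
open Finset Filter MeasureTheory Topology

noncomputable section

namespace Pool.Agent.MP_357fb4_an

variable {Y : Type} [MeasurableSpace Y] {μ : Measure Y} [IsProbabilityMeasure μ]

/-- The mean value theorem of Cauchy. -/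
lemma sl_cauchy {u b : ℝ → ℝ} {x y : ℝ} (hxy : x ≤ y) (hu : ∀ t, x ≤ t → DifferentiableAt ℝ u t)
    (hb : ∀ t, x ≤ t → DifferentiableAt ℝ b t) (hp : ∀ t, x ≤ t → 0 < deriv b t) :
    ∃ ξ, x ≤ ξ ∧ ξ ≤ y ∧ u y - u x = deriv u ξ / deriv b ξ * (b y - b x) := by
  rcases hxy.eq_or_lt with rfl | hlt
  · exact ⟨x, le_rfl, le_rfl, by simp⟩
  obtain ⟨ξ, hξ, h⟩ := exists_ratio_deriv_eq_ratio_slope u hlt
    (fun t ht => (hu t ht.1).continuousAt.continuousWithinAt)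
    (fun t ht => (hu t ht.1.le).differentiableWithinAt) b
    (fun t ht => (hb t ht.1).continuousAt.continuousWithinAt)
    (fun t ht => (hb t ht.1.le).differentiableWithinAt)
  refine ⟨ξ, hξ.1.le, hξ.2.le, ?_⟩
  have := (hp ξ hξ.1.le).ne'
  field_simp
  linarith

/-- Telescoping over an arbitrary finite set. -/
lemma sl_tele {f : ℕ → ℝ} (hf : Monotone f) (lo : ℝ) (A : Finset ℕ) : ∀ hi : ℝ, lo ≤ hi →
    (∀ n ∈ A, lo ≤ f n ∧ f (n + 1) ≤ hi) → ∑ n ∈ A, (f (n + 1) - f n) ≤ hi - lo := by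
  induction A using Finset.induction_on_max with
  | empty => intro hi h _; simpa using h
  | insert a A ha ih =>
    intro hi _ h
    have hn : a ∉ A := fun h => lt_irrefl _ (ha a h)
    have h1 := h a (mem_insert_self _ _)
    have h2 := ih (f a) h1.1 fun n hn' =>
      ⟨(h n (mem_insert_of_mem hn')).1, hf (Nat.succ_le_of_lt (ha n hn'))⟩
    rw [sum_insert hn]
    linarith [h1.2]

lemma sl_block {f : ℕ → ℝ} (hw : Antitone fun n => f (n + 1) - f n) (j N : ℕ) :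
    f (j + N) - f j ≤ N * (f (j + 1) - f j) := by
  induction N with
  | zero => simp
  | succ N ih =>
    have := hw (Nat.le_add_right j N)
    simp only at this
    rw [← add_assoc]
    push_cast
    linarith

/-- Regrouping the terms of a weighted sum. -/
lemma sl_regroup {S : Sys ℤ Y μ} {s : ℕ} {ι : Type} [Fintype ι] {g g' : ι → ℕ → ℝ}
    {w Z u Z' : ℕ → ℝ} (h : Ctl S s (fun J n => w n / Z J) g) (m : ℕ → ℕ) (n₀ : ℕ) (B₁ C : ℝ)
    (hC : 0 ≤ C) (hu : ∀ n, 0 ≤ u n)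
    (h1 : ∀ n, n₀ ≤ n → ∀ i, |g' i n - g i (m n)| ≤ B₁)
    (h2 : ∀ J j, ∑ n ∈ (Ico n₀ J).filter (fun n => m n = j), u n ≤ C * w j)
    (hm : ∀ n J, n₀ ≤ n → n ≤ J → m n ≤ m J) (hmt : Tendsto m atTop atTop)
    (hZ' : Tendsto Z' atTop atTop)
    (hZ : ∀ᶠ J in atTop, 0 < Z (m J + 1) ∧ Z (m J + 1) ≤ 2 * Z' J) :
    Ctl S s (fun J n => u n / Z' J) g' := by
  intro B ε hε
  obtain ⟨δ, hδ, H⟩ := h (|B| + |B₁| + 1) (ε / (4 * C + 4)) (by positivity)
  refine ⟨δ, hδ, fun K hK => ?_⟩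
  have H' := ((tendsto_add_atTop_nat 1).comp hmt).eventually (H K hK)
  have H0 : ∀ᶠ J in atTop, (∑ n ∈ range n₀, u n) / Z' J ≤ ε / 2 :=
    (tendsto_const_nhds.div_atTop hZ').eventually (ge_mem_nhds (by positivity))
  filter_upwards [H', H0, hZ, eventually_ge_atTop n₀, hZ'.eventually_gt_atTop 0] with J H' H0 hZ hJ
    hZ0 F G a hF hG ha hbox
  have hv : ∀ j, ∃ v : ι → ℤ, (∀ i, |(v i : ℝ) - g i j| ≤ |B| + |B₁| + 1) ∧
      ∀ n ∈ (Ico n₀ J).filter (fun n => m n = j),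
        ‖corr S F G fun i => a i n‖ ≤ ‖corr S F G v‖ := by
    intro j
    rcases ((Ico n₀ J).filter fun n => m n = j).eq_empty_or_nonempty with he | hne
    · refine ⟨fun i => ⌊g i j⌋, fun i => ?_, by simp [he]⟩
      have h3 := Int.floor_le (g i j)
      have h4 := Int.lt_floor_add_one (g i j)
      have := abs_nonneg B
      have := abs_nonneg B₁
      rw [abs_le]; constructor <;> linarith
    · obtain ⟨n, hn, hmax⟩ := exists_max_image _ (fun n => ‖corr S F G fun i => a i n‖) hne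
      refine ⟨fun i => a i n, fun i => ?_, hmax⟩
      rw [mem_filter, mem_Ico] at hn
      have h3 := abs_le.1 (h1 n hn.1.1 i)
      have h4 := abs_le.1 (ha i n)
      have := le_abs_self B
      have := le_abs_self B₁
      rw [hn.2] at h3
      rw [abs_le]; constructor <;> linarith [h3.1, h3.2, h4.1, h4.2]
  choose v hv1 hv2 using hv
  have key := H' F G (fun i j => v j i) hF hG (fun i j => hv1 j i) hbox
  simp only [Function.comp] at key
  have key2 : ∑ j ∈ range (m J + 1), w j * ‖corr S F G (v j)‖ ≤ ε / (4 * C + 4) * Z (m J + 1) := by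
    rw [← div_le_iff₀ hZ.1, sum_div]
    refine le_trans (le_of_eq (sum_congr rfl fun j _ => ?_)) key
    ring
  have k3 : ∑ n ∈ Ico n₀ J, u n * ‖corr S F G fun i => a i n‖ ≤
      C * ∑ j ∈ range (m J + 1), w j * ‖corr S F G (v j)‖ := by
    rw [← sum_fiberwise_of_maps_to (s := Ico n₀ J) (t := range (m J + 1)) (g := m)
      fun n hn => mem_range.2 (Nat.lt_succ_of_le (hm n J (mem_Ico.1 hn).1 (mem_Ico.1 hn).2.le)),
      mul_sum]
    refine sum_le_sum fun j _ => ?_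
    calc _ ≤ ∑ n ∈ (Ico n₀ J).filter (fun n => m n = j), u n * ‖corr S F G (v j)‖ :=
          sum_le_sum fun n hn => mul_le_mul_of_nonneg_left (hv2 j n hn) (hu n)
      _ = (∑ n ∈ (Ico n₀ J).filter (fun n => m n = j), u n) * ‖corr S F G (v j)‖ := by
          rw [sum_mul]
      _ ≤ C * w j * ‖corr S F G (v j)‖ := mul_le_mul_of_nonneg_right (h2 J j) (norm_nonneg _)
      _ = _ := by ring
  have k4 : ∑ n ∈ range n₀, u n * ‖corr S F G fun i => a i n‖ ≤ ∑ n ∈ range n₀, u n :=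
    sum_le_sum fun n _ => mul_le_of_le_one_right (hu n) (norm_corr_le S hF hG _)
  have k5 : C * (ε / (4 * C + 4) * Z (m J + 1)) ≤ ε / 2 * Z' J := by
    have e1 : C * (ε / (4 * C + 4)) ≤ ε / 4 := by
      rw [← mul_div_assoc, div_le_div_iff₀ (by positivity) (by positivity)]
      nlinarith
    calc _ = C * (ε / (4 * C + 4)) * Z (m J + 1) := by ring
      _ ≤ ε / 4 * (2 * Z' J) := mul_le_mul e1 hZ.2 hZ.1.le (by positivity)
      _ = _ := by ring
  have k6 : ∑ n ∈ range J, u n / Z' J * ‖corr S F G fun i => a i n‖ =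
      (∑ n ∈ range J, u n * ‖corr S F G fun i => a i n‖) / Z' J := by
    rw [sum_div]; exact sum_congr rfl fun n _ => by ring
  rw [div_le_iff₀ hZ0] at H0
  rw [k6, div_le_iff₀ hZ0, ← sum_range_add_sum_Ico _ hJ]
  have := mul_le_mul_of_nonneg_left key2 hC
  linarith

/-- The case of an empty family. -/
lemma sl_empty {W : ℝ → ℝ} {T : ℕ} (hW : Wt W T) (S : Sys ℤ Y μ) {ι : Type} [Fintype ι]
    [IsEmpty ι] (g : ι → ℕ → ℝ) {t : ℕ → ℝ} (ht : Tendsto t atTop atTop)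
    (hT : ∀ n, (T : ℝ) ≤ t n) :
    Ctl S 1 (fun J n => (W (t (n + 1)) - W (t n)) / W (t J)) g := by
  intro B ε hε
  refine ⟨ε ^ 2, by positivity, fun K hK => ?_⟩
  filter_upwards [(hW.top.comp ht).eventually_gt_atTop 0] with J hJ F G a hF _ _ hbox
  simp only [Function.comp] at hJ
  have h1 : ‖∫ y, F y ∂μ‖ ≤ ε :=
    (pow_le_pow_iff_left₀ (norm_nonneg _) hε.le two_ne_zero).1
      ((sq_norm_integral_le_box S hK hF).trans hbox)
  have h2 : ∀ n, corr S F G (fun i => a i n) = ∫ y, F y ∂μ := fun n => by simp [corr]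
  simp only [h2]
  rw [← sum_mul, ← sum_div, sum_range_sub fun n => W (t n)]
  have h3 : 0 ≤ W (t 0) :=
    hW.nonneg.trans (hW.mono.monotoneOn Set.self_mem_Ici (hT 0) (hT 0))
  have h4 : (W (t J) - W (t 0)) / W (t J) ≤ 1 := by rw [div_le_one hJ]; linarith
  exact (mul_le_of_le_one_left (norm_nonneg _) h4).trans h1

/-- A fastest function, normalised to be increasing. -/
lemma sl_fast (H : HF) {W : ℝ → ℝ} {ι : Type} [Fintype ι] [Nonempty ι] {g : ι → ℝ → ℝ}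
    (hg : ∀ i, Adm H W (g i)) : ∃ (b : ℝ → ℝ) (c : ι → ℝ) (i₀ : ι), b ∈ H.car ∧
      Tendsto b atTop atTop ∧ c i₀ ≠ 0 ∧ (∀ x y, |b x - b y| = |g i₀ x - g i₀ y|) ∧
      Tendsto (fun t => deriv W t / deriv b t) atTop (𝓝 0) ∧
      ∀ i, Tendsto (fun t => deriv (g i) t / deriv b t) atTop (𝓝 (c i)) := by
  obtain ⟨i₀, c, hc, h⟩ := H.fastest (fun i => (hg i).1) fun i => (hg i).2.1
  rcases H.lim3 (hg i₀).1 with ⟨l, hl⟩ | hl | hl
  · exact absurd (hg i₀).2.1 (not_tendsto_atTop_of_tendsto_nhds hl.abs)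
  · exact ⟨g i₀, c, i₀, (hg i₀).1, hl, by simp [hc], fun _ _ => rfl, (hg i₀).2.2, h⟩
  · have hd : ∀ t, deriv (fun t => -g i₀ t) t = -deriv (g i₀) t := fun t => deriv.fun_neg
    refine ⟨fun t => -g i₀ t, fun i => -c i, i₀, H.neg (hg i₀).1, tendsto_neg_atBot_atTop.comp hl,
      by simp [hc], fun x y => ?_, ?_, fun i => ?_⟩
    · rw [← abs_neg]; congr 1; ring
    · simpa only [hd, div_neg, neg_zero] using (hg i₀).2.2.neg
    · simpa only [hd, div_neg] using (h i).neg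

/-- The inverse of an increasing function at the integers. -/
lemma sl_tau {b : ℝ → ℝ} {T₁ : ℝ} (hb : ∀ t, T₁ ≤ t → DifferentiableAt ℝ b t)
    (hm : StrictMonoOn b (Set.Ici T₁)) (ht : Tendsto b atTop atTop) :
    ∃ τ : ℕ → ℝ, (∀ m, T₁ ≤ τ m) ∧ (∀ m, b (τ m) = b T₁ + m) ∧ Monotone τ ∧
      Tendsto τ atTop atTop := by
  have h := isPreconnected_Ici.intermediate_value_Ici (l := atTop) Set.self_mem_Ici
    (le_principal_iff.2 (Ici_mem_atTop T₁))
    (fun t (h : T₁ ≤ t) => (hb t h).continuousAt.continuousWithinAt) ht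
  have h' : ∀ m : ℕ, ∃ x, T₁ ≤ x ∧ b x = b T₁ + m := fun m =>
    h (show b T₁ ≤ b T₁ + m from le_add_of_nonneg_right (Nat.cast_nonneg m))
  choose τ h1 h2 using h'
  refine ⟨τ, h1, h2, fun m n hmn => ?_, ?_⟩
  · rw [← hm.le_iff_le (h1 m) (h1 n), h2, h2]
    exact add_le_add le_rfl (Nat.cast_le.2 hmn)
  · refine tendsto_atTop.2 fun R => ?_
    filter_upwards [tendsto_natCast_atTop_atTop.eventually_ge_atTop (b (max R T₁) - b T₁)] with m hm'
    refine (le_max_left R T₁).trans ?_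
    rw [← hm.le_iff_le (le_max_right R T₁) (h1 m), h2]
    linarith

/-- The local estimate along the inverse of the fastest function. -/
lemma sl_loc (S : Sys ℤ Y μ) {ι : Type} [Fintype ι] (cl : ι → Prop) (g : ι → ℕ → ℝ) (c : ι → ℝ)
    (hcl : ∀ i, cl i ↔ c i = 0)
    (hg : ∀ η : ℝ, 0 < η → ∀ᶠ y : ℕ in atTop, ∀ i (x : ℕ),
      |g i (y + x) - g i y - c i * x| ≤ η * x) :
    ∃ s₁, 1 ≤ s₁ ∧ ∀ B ε : ℝ, 0 < ε → ∃ C₁ B' : ℝ, 0 ≤ C₁ ∧ ∀ K : ℕ, 1 ≤ K → ∃ L : ℕ → ℕ, Smo L ∧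
      ∀ᶠ y : ℕ in atTop, ∀ (F : Y → ℂ) (G : ι → Y → ℂ) (a : ι → ℕ → ℤ), B1 F → (∀ i, B1 (G i)) →
        (∀ i n, |(a i n : ℝ) - g i n| ≤ B) → ∃ v : {i // cl i} → ℤ,
          (∀ i, |(v i : ℝ) - g i y| ≤ B') ∧
            𝔼 x ∈ range (L y), (1 : ℝ) * ‖corr S F G fun i => a i (y + x)‖ ≤
              ε + C₁ * box S (List.replicate s₁ K)
                fun z => F z * ∏ i : {i // cl i}, G i (S.act (v i) z) := by
  obtain ⟨s₁, hs₁, H⟩ := loc S (Fintype.card ι) 1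
  refine ⟨s₁, hs₁, fun B ε hε => ?_⟩
  have hsum : ∀ i, |c i| ≤ ∑ j, |c j| := fun i =>
    single_le_sum (f := fun j => |c j|) (fun _ _ => abs_nonneg _) (mem_univ i)
  have hs0 : 0 ≤ ∑ j, |c j| := sum_nonneg fun _ _ => abs_nonneg _
  obtain ⟨C₁, hC₁, H⟩ := H (|B| + 1 + ∑ j, |c j|) ε hε
  refine ⟨C₁, |B| + 1 + ∑ j, |c j|, hC₁, fun K hK => ?_⟩
  obtain ⟨Ω, H⟩ := H K hK
  have hL : ∀ᶠ L : ℕ in atTop, ∀ i, ¬ cl i → Ω ≤ |c i| * L := by
    refine eventually_all.2 fun i => ?_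
    by_cases hi : cl i
    · exact Eventually.of_forall fun _ h => absurd hi h
    · have : 0 < |c i| := abs_pos.2 fun h => hi ((hcl i).2 h)
      filter_upwards [(tendsto_natCast_atTop_atTop.const_mul_atTop this).eventually_ge_atTop Ω]
        with L h _ using h
  obtain ⟨L, hL1, hL2, hL3⟩ := (hL.and ((eventually_ge_atTop 1).and
    ((tendsto_natCast_atTop_atTop (R := ℝ)).eventually_ge_atTop Ω))).exists
  have hL0 : (0 : ℝ) < L := by exact_mod_cast hL2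
  refine ⟨fun _ => L, ?_, ?_⟩
  · filter_upwards [eventually_ge_atTop L] with n hn
    exact ⟨hL2, hn, fun y _ h => ⟨by omega, le_rfl⟩⟩
  filter_upwards [hg (1 / L) (by positivity)] with y hy F G a hF hG ha
  have hB := le_abs_self B
  have hB0 := abs_nonneg B
  obtain ⟨v, hv, hle⟩ := H L hL3 ι le_rfl cl
    (fun i => Polynomial.C (c i) * Polynomial.X + Polynomial.C (g i y))
    (fun i => Polynomial.natDegree_linear_le) (fun i hi => by simp [(hcl i).1 hi])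
    (fun i hi => by
      have h0 : c i ≠ 0 := fun h => hi ((hcl i).2 h)
      refine ⟨?_, ?_, ?_, ?_⟩
      · rw [Polynomial.natDegree_linear h0]
      · rw [Polynomial.natDegree_linear h0]; push_cast; linarith
      · rw [Polynomial.leadingCoeff_linear h0]; linarith [hsum i]
      · rw [Polynomial.natDegree_linear h0, Polynomial.leadingCoeff_linear h0, pow_one]
        exact hL1 i hi)
    F G (fun i x => a i (y + x)) hF hG (fun i x hx => by
      have h1 := abs_le.1 (ha i (y + x))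
      have h2 : 1 / (L : ℝ) * x ≤ 1 := by
        rw [one_div, inv_mul_le_iff₀ hL0, mul_one]; exact_mod_cast hx.le
      have h3 := abs_le.1 ((hy i x).trans h2)
      simp only [Polynomial.eval_add, Polynomial.eval_mul, Polynomial.eval_C, Polynomial.eval_X]
      rw [abs_le]; constructor <;> linarith [h1.1, h1.2, h3.1, h3.2])
  refine ⟨v, fun i => ?_, by simpa only [one_mul] using hle⟩
  simpa using hv i

theorem sl (H : HF) {W : ℝ → ℝ} (hWH : W ∈ H.car) {T : ℕ} (hW : Wt W T) (S : Sys ℤ Y μ) (k : ℕ) :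
    ∀ (ι : Type) [Fintype ι], Fintype.card ι ≤ k → ∀ g : ι → ℝ → ℝ, (∀ i, Adm H W (g i)) →
      ∀ t : ℕ → ℝ, Monotone t → Tendsto t atTop atTop → (∀ n, (T : ℝ) ≤ t n) →
        (∃ B : ℝ, ∀ᶠ n in atTop, ∀ i, |g i (t (n + 1)) - g i (t n)| ≤ B) →
          ∃ s, 1 ≤ s ∧ Ctl S s (fun J n => (W (t (n + 1)) - W (t n)) / W (t J))
            fun i n => g i (t n) := by
  induction k with
  | zero =>
    intro ι _ hc g _ t _ ht hT _
    have : IsEmpty ι := Fintype.card_eq_zero_iff.1 (Nat.le_zero.1 hc)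
    exact ⟨1, le_rfl, sl_empty hW S _ ht hT⟩
  | succ k ih =>
  intro ι _ hc g hg t htm ht hT ⟨B₀, hB₀⟩
  rcases isEmpty_or_nonempty ι with hι | hι
  · exact ⟨1, le_rfl, sl_empty hW S _ ht hT⟩
  obtain ⟨b, c, i₀, hbH, hbt, hc0, hbg, hWb, hgb⟩ := sl_fast H hg
  have hbp := H.deriv_pos hbH hbt
  obtain ⟨T₂, hT₂⟩ := H.anti (H.div (H.der W hWH) (H.der b hbH)) (by
    filter_upwards [hbp, eventually_ge_atTop (T : ℝ)] with x h1 h2 using
      div_pos (hW.pos x h2) h1) hWb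
  have hclose : ∀ η : ℝ, 0 < η → ∀ᶠ x in atTop, ∀ i, |deriv (g i) x / deriv b x - c i| ≤ η :=
    fun η hη => eventually_all.2 fun i => by
      filter_upwards [Metric.tendsto_nhds.1 (hgb i) η hη] with x hx
      exact (Real.dist_eq _ _ ▸ hx).le
  obtain ⟨T₁, hT₁⟩ := eventually_atTop.1 ((eventually_ge_atTop (T : ℝ)).and
    ((eventually_ge_atTop T₂).and (hbp.and ((H.diff b hbH).and ((hclose 1 one_pos).and
      (eventually_all.2 fun i => H.diff (g i) (hg i).1))))))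
  have hTT : (T : ℝ) ≤ T₁ := (hT₁ T₁ le_rfl).1
  have hbd : ∀ x, T₁ ≤ x → DifferentiableAt ℝ b x := fun x hx => (hT₁ x hx).2.2.2.1
  have hbp' : ∀ x, T₁ ≤ x → 0 < deriv b x := fun x hx => (hT₁ x hx).2.2.1
  have hgd : ∀ i x, T₁ ≤ x → DifferentiableAt ℝ (g i) x := fun i x hx => (hT₁ x hx).2.2.2.2.2 i
  have hWd : ∀ x, T₁ ≤ x → DifferentiableAt ℝ W x := fun x hx => hW.diff x (hTT.trans hx)
  have hbm : StrictMonoOn b (Set.Ici T₁) :=
    strictMonoOn_of_deriv_pos (convex_Ici T₁)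
      (fun x hx => (hbd x hx).continuousAt.continuousWithinAt)
      fun x hx => hbp' x (interior_subset hx)
  have hWm : ∀ x y, (T : ℝ) ≤ x → x ≤ y → W x ≤ W y := fun x y hx hxy =>
    hW.mono.monotoneOn hx (hx.trans hxy) hxy
  -- comparison of increments
  have hinc : ∀ η x y, T₁ ≤ x → x ≤ y → (∀ z, x ≤ z → ∀ i, |deriv (g i) z / deriv b z - c i| ≤ η) →
      ∀ i, |g i y - g i x - c i * (b y - b x)| ≤ η * (b y - b x) := by
    intro η x y hx hxy h i
    obtain ⟨ξ, h1, _, h3⟩ := sl_cauchy hxy (fun z hz => hgd i z (hx.trans hz))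
      (fun z hz => hbd z (hx.trans hz)) fun z hz => hbp' z (hx.trans hz)
    have h4 : 0 ≤ b y - b x := sub_nonneg.2 (hbm.monotoneOn hx (hx.trans hxy) hxy)
    rw [h3, ← sub_mul, abs_mul, abs_of_nonneg h4]
    exact mul_le_mul_of_nonneg_right (h ξ h1 i) h4
  have hsum : ∀ i, |c i| ≤ ∑ j, |c j| := fun i =>
    single_le_sum (f := fun j => |c j|) (fun _ _ => abs_nonneg _) (mem_univ i)
  have hinc1 : ∀ x y, T₁ ≤ x → x ≤ y → b y - b x ≤ 1 → ∀ i, |g i y - g i x| ≤ ∑ j, |c j| + 1 := by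
    intro x y hx hxy h i
    have h4 : 0 ≤ b y - b x := sub_nonneg.2 (hbm.monotoneOn hx (hx.trans hxy) hxy)
    have h1 := hinc 1 x y hx hxy (fun z hz => (hT₁ z (hx.trans hz)).2.2.2.2.1) i
    have h2 : |c i * (b y - b x)| ≤ ∑ j, |c j| := by
      rw [abs_mul, abs_of_nonneg h4]
      exact (mul_le_of_le_one_right (abs_nonneg _) h).trans (hsum i)
    have h3 := abs_add_le (g i y - g i x - c i * (b y - b x)) (c i * (b y - b x))
    rw [sub_add_cancel] at h3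
    linarith
  obtain ⟨τ, hτ1, hτ2, hτm, hτt⟩ := sl_tau hbd hbm hbt
  have hτT : ∀ m, (T : ℝ) ≤ τ m := fun m => hTT.trans (hτ1 m)
  have hw : Antitone fun n => W (τ (n + 1)) - W (τ n) := by
    have : ∀ n, ∃ ξ, τ n ≤ ξ ∧ ξ ≤ τ (n + 1) ∧
        W (τ (n + 1)) - W (τ n) = deriv W ξ / deriv b ξ := fun n => by
      obtain ⟨ξ, h1, h2, h3⟩ := sl_cauchy (hτm (Nat.le_succ n))
        (fun z hz => hWd z ((hτ1 n).trans hz)) (fun z hz => hbd z ((hτ1 n).trans hz))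
        fun z hz => hbp' z ((hτ1 n).trans hz)
      refine ⟨ξ, h1, h2, ?_⟩
      rw [h3, hτ2, hτ2]; push_cast; ring
    choose ξ h1 h2 h3 using this
    refine antitone_nat_of_succ_le fun n => ?_
    rw [h3, h3]
    exact hT₂ (hT₁ _ ((hτ1 n).trans (h1 n))).2.1 (hT₁ _ ((hτ1 _).trans (h1 (n + 1)))).2.1
      ((h2 n).trans (h1 (n + 1)))
  have hw0 : ∀ n, 0 ≤ W (τ (n + 1)) - W (τ n) := fun n =>
    sub_nonneg.2 (hWm _ _ (hτT n) (hτm (Nat.le_succ n)))
  have hW0 : ∀ x, (T : ℝ) ≤ x → 0 ≤ W x := fun x hx => hW.nonneg.trans (hWm _ _ le_rfl hx)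
  obtain ⟨cl, hcl⟩ : ∃ cl : ι → Prop, ∀ i, cl i ↔ c i = 0 := ⟨_, fun _ => Iff.rfl⟩
  obtain ⟨s₂, hs₂, hctl⟩ := ih {i // cl i}
    (Nat.le_of_lt_succ ((Fintype.card_subtype_lt (x := i₀) fun h => hc0 ((hcl _).1 h)).trans_le hc))
    (fun i => g i) (fun i => hg i) τ hτm hτt hτT
    ⟨_, Eventually.of_forall fun n i => hinc1 _ _ (hτ1 n) (hτm (Nat.le_succ n))
      (by rw [hτ2, hτ2]; push_cast; linarith) i⟩
  obtain ⟨s₁, hs₁, hloc⟩ := sl_loc S cl (fun i n => g i (τ n)) c hcl fun η hη => by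
    obtain ⟨R, hR⟩ := eventually_atTop.1 (hclose η hη)
    filter_upwards [hτt.eventually_ge_atTop R] with y hy i x
    have := hinc η _ _ (hτ1 y) (hτm (Nat.le_add_right y x)) (fun z hz => hR z (hy.trans hz)) i
    rw [hτ2, hτ2] at this
    push_cast at this
    simpa only [add_sub_add_left_eq_sub, add_sub_cancel_left] using this
  have hlev := level S cl (fun i n => g i (τ n)) (fun n => W (τ (n + 1)) - W (τ n)) (fun _ => 1)
    (fun J => W (τ J)) hw hw0 (fun _ => zero_le_one) (hW.top.comp hτt)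
    (Eventually.of_forall fun J => by
      rw [sum_range_sub fun n => W (τ n)]
      linarith [hW0 _ (hτT 0), hW0 _ (hτT J)]) hs₁ hs₂ hctl hloc
  simp only [mul_one] at hlev
  refine ⟨s₁ + s₂, le_add_right hs₁, ?_⟩
  obtain ⟨n₀, hn₀⟩ := eventually_atTop.1 (hB₀.and (ht.eventually_ge_atTop T₁))
  obtain ⟨m, hm⟩ : ∃ m : ℕ → ℕ, ∀ n, m n = ⌊b (t n) - b T₁⌋₊ := ⟨_, fun _ => rfl⟩
  have hb0 : ∀ n, n₀ ≤ n → 0 ≤ b (t n) - b T₁ := fun n hn =>
    sub_nonneg.2 (hbm.monotoneOn Set.self_mem_Ici (hn₀ n hn).2 (hn₀ n hn).2)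
  have hm1 : ∀ n, n₀ ≤ n → τ (m n) ≤ t n := fun n hn => by
    rw [← hbm.le_iff_le (hτ1 _) (hn₀ n hn).2, hτ2, hm]
    linarith [Nat.floor_le (hb0 n hn)]
  have hm2 : ∀ n, b (t n) - b (τ (m n)) ≤ 1 := fun n => by
    rw [hτ2, hm]
    linarith [Nat.lt_floor_add_one (b (t n) - b T₁)]
  refine sl_regroup hlev m n₀ (∑ j, |c j| + 1) ((⌈B₀⌉₊ + 1 : ℕ) : ℝ) (Nat.cast_nonneg _)
    (fun n => sub_nonneg.2 (hWm _ _ (hT n) (htm (Nat.le_succ n))))
    (fun n hn i => hinc1 _ _ (hτ1 _) (hm1 n hn) (hm2 n) i) (fun J j => ?_) (fun n J hn hJ => ?_) ?_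
    (hW.top.comp ht) ?_
  · refine le_trans ?_ (sl_block (f := fun n => W (τ n)) hw j (⌈B₀⌉₊ + 1))
    refine sl_tele (f := fun n => W (t n)) (fun x y hxy => hWm _ _ (hT x) (htm hxy)) _ _ _
      (hWm _ _ (hτT j) (hτm (Nat.le_add_right _ _))) fun n hn => ?_
    rw [mem_filter, mem_Ico] at hn
    obtain ⟨⟨hn, -⟩, rfl⟩ := hn
    refine ⟨hWm _ _ (hτT _) (hm1 n hn), hWm _ _ (hT _) ?_⟩
    rw [← hbm.le_iff_le (hn₀ _ (Nat.le_succ_of_le hn)).2 (hτ1 _), hτ2]
    have h1 := (hbg _ _).trans_le ((hn₀ n hn).1 i₀)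
    have h2 := hm2 n
    rw [hτ2] at h2
    push_cast
    linarith [le_abs_self (b (t (n + 1)) - b (t n)), Nat.le_ceil B₀]
  · rw [hm, hm]
    exact Nat.floor_mono (sub_le_sub_right
      (hbm.monotoneOn (hn₀ n hn).2 (hn₀ J (hn.trans hJ)).2 (htm hJ)) _)
  · rw [show m = fun n => ⌊b (t n) - b T₁⌋₊ from funext hm]
    exact tendsto_nat_floor_atTop.comp (tendsto_atTop_add_const_right _ (-b T₁) (hbt.comp ht))
  · have hmt : Tendsto (fun J => m J + 1) atTop atTop := by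
      rw [show m = fun n => ⌊b (t n) - b T₁⌋₊ from funext hm]
      exact (tendsto_add_atTop_nat 1).comp
        (tendsto_nat_floor_atTop.comp (tendsto_atTop_add_const_right _ (-b T₁) (hbt.comp ht)))
    filter_upwards [((hW.top.comp hτt).comp hmt).eventually_gt_atTop 0, eventually_ge_atTop n₀,
      (hW.top.comp ht).eventually_ge_atTop (W (τ (0 + 1)) - W (τ 0))] with J h1 h2 h3
    refine ⟨h1, ?_⟩
    have h4 := hw (Nat.zero_le (m J))
    have h5 := hWm _ _ (hτT _) (hm1 J h2)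
    simp only [Function.comp] at h3 h4
    linarith

end Pool.Agent.MP_357fb4_an
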